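import Mathlib

/-!
Shared definitions for the work on the zeros of Riemann's auxiliary function
(problem MP_f05346_nt).
-/

set_option autoImplicit false

open Complex MeasureTheory Filter Topology

namespace Pool.Agent.RAux

/-! ### The auxiliary function -/

/-- The integrand of Riemann's auxiliary function at the point `x`. -/
noncomputable def rInt (s x : ℂ) : ℂ :=
  x ^ (-s) * Complex.exp ((Real.pi : ℂ) * Complex.I * x ^ 2) /
    (Complex.exp ((Real.pi : ℂ) * Complex.I * x) -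
      Complex.exp (-((Real.pi : ℂ) * Complex.I * x)))

/-- The integral of `rInt s` along the line of slope one through the real point `c`, traversed
from the upper right to the lower left. -/
noncomputable def lineR (c : ℝ) (s : ℂ) : ℂ :=
  -(1 + Complex.I) * ∫ t : ℝ, rInt s ((c : ℂ) + (t : ℂ) * (1 + Complex.I))

/-- Riemann's auxiliary function. -/
noncomputable def auxR (s : ℂ) : ℂ := lineR (1 / 2) s

/-- The number of zeros of `f` in the set `A`, counted with multiplicity. -/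
noncomputable def zc (f : ℂ → ℂ) (A : Set ℂ) : ℝ :=
  ∑' ρ : {ρ : ℂ // f ρ = 0 ∧ ρ ∈ A}, ((analyticOrderAt f ρ.1).toNat : ℝ)

/-! ### Dirichlet polynomials -/

/-- The Dirichlet polynomial with coefficients `f` at the point `1/2 + i t`. -/
noncomputable def DP (f : ArithmeticFunction ℂ) (t : ℝ) : ℂ :=
  LSeries f (1 / 2 + (t : ℂ) * Complex.I)

/-- The diagonal term of the mean square. -/
noncomputable def M2 (f : ArithmeticFunction ℂ) (X : ℕ) : ℝ :=
  ∑ m ∈ Finset.Icc 1 X, ‖f m‖ ^ 2 / m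

/-- The normalised logarithm of `N / n`. -/
noncomputable def yv (N : ℕ) (L : ℝ) (n : ℕ) : ℝ := Real.log ((N : ℝ) / n) / L

/-- The cut-off functions `e^{μ a y} (1 - e^{-a y})^K`, `y ≥ 0`. -/
noncomputable def psi (a μ : ℝ) (K : ℕ) (y : ℝ) : ℝ :=
  if 0 ≤ y then Real.exp (μ * a * y) * (1 - Real.exp (-(a * y))) ^ K else 0

/-- The coefficients `h(y_n)`, `1 ≤ n ≤ N`. -/
noncomputable def arP (h : ℝ → ℝ) (N : ℕ) (L : ℝ) : ArithmeticFunction ℂ :=
  ⟨fun n => if n = 0 then 0 else if n ≤ N then ((h (yv N L n) : ℝ) : ℂ) else 0, by simp⟩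

/-- The coefficients of the mollifier, `l0` is the logarithm of its length. -/
noncomputable def moll (K₁ : ℕ) (l0 : ℝ) : ArithmeticFunction ℂ :=
  ⟨fun d => ((ArithmeticFunction.moebius d : ℤ) : ℂ) *
    ((psi 1 0 K₁ (1 - Real.log d / l0) : ℝ) : ℂ), by simp⟩

/-- `n` is squarefree and all its prime factors lie in `(exp l1, exp l2]`. -/
def midSq (l1 l2 : ℝ) (n : ℕ) : Prop :=
  Squarefree n ∧ ∀ p ∈ n.primeFactors, l1 < Real.log p ∧ Real.log p ≤ l2

open Classical in
/-- The multiplicative function equal to `A` at the primes in `(exp l1, exp l2]`, supported on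
squarefree products of such primes. -/
noncomputable def kap {S : Type*} [CommRing S] (A : S) (l1 l2 : ℝ) : ArithmeticFunction S :=
  ⟨fun n => if midSq l1 l2 n then A ^ n.primeFactors.card else 0, by simp [midSq]⟩

open Classical in
/-- The truncation of `kap (-lam)` to integers with at most `dm` prime factors. -/
noncomputable def qf (lam : ℕ) (l1 l2 : ℝ) (dm : ℕ) : ArithmeticFunction ℂ :=
  ⟨fun n => if midSq l1 l2 n ∧ n.primeFactors.card ≤ dm then (-(lam : ℂ)) ^ n.primeFactors.card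
    else 0, by simp [midSq]⟩

/-- The local factor of the majorant `bU` at the prime `p`. -/
noncomputable def beU (lam : ℕ) (Δ L l0 l1 l2 : ℝ) (p : ℕ) : ℝ :=
  if Real.log p ≤ l0 then min 2 (Δ * Real.log p / l0)
  else if l1 < Real.log p ∧ Real.log p ≤ l2 then
    min (1 + lam) (|(lam : ℝ) - 1| + Δ * Real.log p / L)
  else 1

/-- The majorants: multiplicative functions depending only on the set of prime factors. -/
noncomputable def bU (lam : ℕ) (Δ L l0 l1 l2 : ℝ) : ArithmeticFunction ℝ :=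
  ⟨fun n => if n = 0 then 0 else ∏ p ∈ n.primeFactors, beU lam Δ L l0 l1 l2 p, by simp⟩

/-- The local factor of the majorant `bD` at the prime `p`. -/
noncomputable def beD (Δ l0 : ℝ) (p : ℕ) : ℝ :=
  if Real.log p ≤ l0 then min 2 (Δ * Real.log p / l0) else 1

/-- The majorant for the mollified polynomials. -/
noncomputable def bD (Δ l0 : ℝ) : ArithmeticFunction ℝ :=
  ⟨fun n => if n = 0 then 0 else ∏ p ∈ n.primeFactors, beD Δ l0 p, by simp⟩

/-- `h` is a Fourier–Laplace integral on the line `Re w = c₁` with a density bounded by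
`B (1+|z|)^{-(J+2)}`. -/
def Rep (h : ℝ → ℝ) (c₁ : ℝ) (J : ℕ) (B : ℝ) : Prop :=
  ∃ Ψ : ℝ → ℂ, Continuous Ψ ∧ (∀ z : ℝ, ‖Ψ z‖ ≤ B * ((1 + |z|) ^ (J + 2))⁻¹) ∧
    ∀ y : ℝ, ((h y : ℝ) : ℂ) = ∫ z : ℝ, Ψ z * Complex.exp (((c₁ : ℂ) + (z : ℂ) * Complex.I) * y)

/-- The `k`-th difference of `φ = psi a (-1) K` with step `η`. -/
noncomputable def ddif (a : ℝ) (K k : ℕ) (η : ℝ) (y : ℝ) : ℝ :=
  ∑ j ∈ Finset.range (k + 1), (-1) ^ j * (k.choose j : ℝ) * psi a (-1) K (y - j * η)

/-- `φ` minus its `k`-th difference, supported on `y ≥ η`. -/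
noncomputable def dpr (a : ℝ) (K k : ℕ) (η : ℝ) (y : ℝ) : ℝ :=
  psi a (-1) K y - ddif a K k η y

/-! ### Parameters -/

/-- The scale of the mollifier. -/
noncomputable def x0 (ξ : ℝ) : ℝ := ξ ^ 3 / 4

/-- The upper end of the middle primes. -/
noncomputable def x2 (A ξ : ℝ) : ℝ := 1 / (A * Real.log (1 / ξ))

/-- The truncation parameter. -/
noncomputable def dmx (A ξ : ℝ) : ℕ := ⌊1 / (8 * x2 A ξ)⌋₊

/-- The weight polynomial. -/
noncomputable def QQ (K₁ lam : ℕ) (A ξ L : ℝ) : ArithmeticFunction ℂ :=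
  moll K₁ (x0 ξ * L) * qf lam (ξ * L) (x2 A ξ * L) (dmx A ξ)

end Pool.Agent.RAux
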