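import Mathlib
import Pool.Agent.RAux.Defs
import Pool.Agent.H16.Mertens

/-!
Sums over primes (Mertens).
-/

set_option autoImplicit false

open Complex MeasureTheory Filter Topology

namespace Pool.Agent.RAux

open Pool.Agent.H16

/-! ### Auxiliary lemmas -/

private lemma ps_log4 : Real.log 4 ≤ 2 := by
  have : Real.log 4 = 2 * Real.log 2 := by
    rw [show (4 : ℝ) = 2 ^ 2 by norm_num, Real.log_pow]; norm_num
  have := Real.log_two_lt_d9
  linarith

private lemma ps_log_pos {p : ℕ} (hp : p.Prime) : 0 < Real.log p :=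
  Real.log_pos (by exact_mod_cast hp.one_lt)

private lemma ps_cast_ge {p : ℕ} (hp : p.Prime) : (2 : ℝ) ≤ p := by exact_mod_cast hp.two_le

private lemma ps_lt_exp {p : ℕ} (hp : p.Prime) {l : ℝ} : l < Real.log p ↔ Real.exp l < p := by
  rw [Real.lt_log_iff_exp_lt]
  have := ps_cast_ge hp
  linarith

private lemma ps_le_exp {p : ℕ} (hp : p.Prime) {l : ℝ} : Real.log p ≤ l ↔ (p : ℝ) ≤ Real.exp l := by
  rw [Real.log_le_iff_le_exp]
  have := ps_cast_ge hp
  linarith

/-- `Σ_{p ≤ n} log p / (p - 1) ≤ log n + 4`. -/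
private lemma ps_sum_log (n : ℕ) (hn : 1 ≤ n) :
    ∑ p ∈ Nat.primesLE n, Real.log p / ((p : ℝ) - 1) ≤ Real.log n + 4 := by
  have h3 : ∑ p ∈ Nat.primesLE n, Real.log p / ((p : ℝ) - 1) =
      mA n + ∑ p ∈ Nat.primesLE n, Real.log p / ((p : ℝ) * (p - 1)) := by
    unfold mA
    rw [← Finset.sum_add_distrib]
    apply Finset.sum_congr rfl
    intro p hp
    obtain ⟨hpn, hpp⟩ := Nat.mem_primesLE.mp hp
    have hp1 : (1 : ℝ) < p := by exact_mod_cast hpp.one_lt
    have hp0 : (p : ℝ) ≠ 0 := by linarith
    have hp2 : (p : ℝ) - 1 ≠ 0 := by linarith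
    field_simp
    ring
  have h4 : ∑ p ∈ Nat.primesLE n, Real.log p / ((p : ℝ) * (p - 1)) ≤ 2 := by
    calc ∑ p ∈ Nat.primesLE n, Real.log p / ((p : ℝ) * (p - 1))
        ≤ ∑ k ∈ Finset.Ioc 1 n, Real.log k / ((k : ℝ) * (k - 1)) := by
          apply Finset.sum_le_sum_of_subset_of_nonneg
          · intro p hp
            obtain ⟨hpn, hpp⟩ := Nat.mem_primesLE.mp hp
            rw [Finset.mem_Ioc]
            exact ⟨hpp.one_lt, hpn⟩
          · intro k hk _
            have hk1 : (1 : ℝ) < k := by exact_mod_cast (Finset.mem_Ioc.mp hk).1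
            have : 0 ≤ Real.log k := Real.log_natCast_nonneg k
            apply div_nonneg this
            nlinarith
      _ ≤ 2 - (Real.log n + 2) / n := telescoping_bound n hn
      _ ≤ 2 := by
          have : 0 ≤ (Real.log n + 2) / n := by
            have := Real.log_natCast_nonneg n
            positivity
          linarith
  have h5 := mA_le n hn
  have := ps_log4
  linarith

/-- `Σ_{log p ≤ t} log p / (p - 1) ≤ t + 4`. -/
private lemma ps_sum_log_filter (t : ℝ) (ht : 0 ≤ t) (N : ℕ) :
    ∑ p ∈ (Nat.primesLE N).filter (fun p : ℕ => Real.log p ≤ t),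
      Real.log p / ((p : ℝ) - 1) ≤ t + 4 := by
  have hn : 1 ≤ ⌊Real.exp t⌋₊ := by
    rw [Nat.one_le_floor_iff]
    exact Real.one_le_exp ht
  have hlog : Real.log (⌊Real.exp t⌋₊ : ℕ) ≤ t := by
    rw [Real.log_le_iff_le_exp (by exact_mod_cast hn)]
    exact Nat.floor_le (Real.exp_pos t).le
  calc ∑ p ∈ (Nat.primesLE N).filter (fun p : ℕ => Real.log p ≤ t), Real.log p / ((p : ℝ) - 1)
      ≤ ∑ p ∈ Nat.primesLE ⌊Real.exp t⌋₊, Real.log p / ((p : ℝ) - 1) := by
        apply Finset.sum_le_sum_of_subset_of_nonneg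
        · intro p hp
          rw [Finset.mem_filter, Nat.mem_primesLE] at hp
          rw [Nat.mem_primesLE]
          exact ⟨Nat.le_floor ((ps_le_exp hp.1.2).mp hp.2), hp.1.2⟩
        · intro p hp _
          have hpp := (Nat.mem_primesLE.mp hp).2
          have h1 := ps_log_pos hpp
          have h2 := ps_cast_ge hpp
          apply div_nonneg h1.le
          linarith
    _ ≤ Real.log (⌊Real.exp t⌋₊ : ℕ) + 4 := ps_sum_log _ hn
    _ ≤ t + 4 := by linarith

private lemma ps_floor_bounds (l : ℝ) (hl : 1 ≤ l) :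
    2 ≤ ⌊Real.exp l⌋₊ ∧ Real.log (⌊Real.exp l⌋₊ : ℕ) ≤ l ∧
      l - 1 / 2 ≤ Real.log (⌊Real.exp l⌋₊ : ℕ) := by
  have he : 2 ≤ Real.exp l := by
    have := Real.add_one_le_exp l
    linarith
  have h2 : 2 ≤ ⌊Real.exp l⌋₊ := by
    rw [Nat.le_floor_iff (Real.exp_pos l).le]
    exact_mod_cast he
  have h2' : (2 : ℝ) ≤ (⌊Real.exp l⌋₊ : ℕ) := by exact_mod_cast h2
  refine ⟨h2, ?_, ?_⟩
  · rw [Real.log_le_iff_le_exp (by linarith)]
    exact Nat.floor_le (Real.exp_pos l).le
  · have h3 : Real.exp l < (⌊Real.exp l⌋₊ : ℕ) + 1 := Nat.lt_floor_add_one _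
    have h4 : l < Real.log ((⌊Real.exp l⌋₊ : ℕ) + 1 : ℝ) := by
      rw [Real.lt_log_iff_exp_lt (by linarith)]
      exact h3
    set n : ℝ := ((⌊Real.exp l⌋₊ : ℕ) : ℝ) with hn
    have h5 : Real.log ((n + 1) / n) ≤ (n + 1) / n - 1 :=
      Real.log_le_sub_one_of_pos (by positivity)
    rw [Real.log_div (by linarith) (by linarith)] at h5
    have h6 : (n + 1) / n - 1 = 1 / n := by field_simp; ring
    have h7 : 1 / n ≤ 1 / 2 := one_div_le_one_div_of_le (by norm_num) h2'
    linarith

/-- `Σ_{m < p ≤ n} 1/(p(p-1)) ≤ 1`. -/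
private lemma ps_sum_inv_sq (m n : ℕ) (hm : 1 ≤ m) :
    ∑ p ∈ primesIoc m n, (1 : ℝ) / ((p : ℝ) * (p - 1)) ≤ 1 := by
  have h1 : ∀ n : ℕ, 1 ≤ n → ∑ k ∈ Finset.Ioc 1 n, (1 : ℝ) / ((k : ℝ) * (k - 1)) ≤ 1 - 1 / n := by
    intro n hn
    induction n, hn using Nat.le_induction with
    | base => simp
    | succ n hn ih =>
      have hIoc : Finset.Ioc 1 (n + 1) = insert (n + 1) (Finset.Ioc 1 n) := by
        ext x; simp only [Finset.mem_Ioc, Finset.mem_insert]; omega
      rw [hIoc, Finset.sum_insert (by simp)]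
      have hn0 : (0 : ℝ) < n := by exact_mod_cast hn
      push_cast
      have e : (1 : ℝ) / (((n : ℝ) + 1) * ((n : ℝ) + 1 - 1)) = 1 / n - 1 / ((n : ℝ) + 1) := by
        have : (n : ℝ) + 1 - 1 = n := by ring
        rw [this]
        field_simp
        ring
      rw [e]
      linarith
  rcases Nat.eq_zero_or_pos n with rfl | hn
  · have : primesIoc m 0 = ∅ := by
      ext x; simp only [mem_primesIoc, Finset.notMem_empty, iff_false]; omega
    rw [this]; simp
  calc ∑ p ∈ primesIoc m n, (1 : ℝ) / ((p : ℝ) * (p - 1))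
      ≤ ∑ k ∈ Finset.Ioc 1 n, (1 : ℝ) / ((k : ℝ) * (k - 1)) := by
        apply Finset.sum_le_sum_of_subset_of_nonneg
        · intro p hp
          rw [mem_primesIoc] at hp
          rw [Finset.mem_Ioc]
          exact ⟨hp.2.2.one_lt, hp.2.1⟩
        · intro k hk _
          have hk1 : (1 : ℝ) < k := by exact_mod_cast (Finset.mem_Ioc.mp hk).1
          apply div_nonneg zero_le_one
          nlinarith
    _ ≤ 1 - 1 / n := h1 n hn
    _ ≤ 1 := by
        have : (0 : ℝ) ≤ 1 / n := by positivity
        linarith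

/-- Lower bound in Mertens' second theorem. -/
private lemma ps_lower_aux (m n : ℕ) (hm : 2 ≤ m) (hmn : m ≤ n) :
    - mA m / Real.log m + (Real.log (Real.log n) - Real.log (Real.log m))
        - 4 * (1 / Real.log m - 1 / Real.log n) ≤
    ∑ p ∈ primesIoc m n, (1 : ℝ) / p - mA n / Real.log n := by
  induction n, hmn using Nat.le_induction with
  | base =>
    have : primesIoc m m = ∅ := by
      ext x; simp only [mem_primesIoc, Finset.notMem_empty, iff_false]; omega
    rw [this]
    simp
    ring_nf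
    rfl
  | succ n hn ih =>
    have hn2 : 2 ≤ n := hm.trans hn
    have hn' : (1 : ℝ) < n := by exact_mod_cast hn2
    have h1 : 0 < Real.log n := Real.log_pos hn'
    have h2 : 0 < Real.log ((n : ℝ) + 1) := Real.log_pos (by linarith)
    have hlogmono : Real.log n ≤ Real.log ((n : ℝ) + 1) := Real.log_le_log (by linarith) (by linarith)
    have hA := mA_ge n (by omega)
    have hdiff : 0 ≤ 1 / Real.log n - 1 / Real.log ((n : ℝ) + 1) := by
      have := one_div_le_one_div_of_le h1 hlogmono
      linarith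
    -- the step
    have hstep : Real.log (Real.log ((n : ℝ) + 1)) - Real.log (Real.log n) -
        (1 / Real.log n - 1 / Real.log ((n : ℝ) + 1)) ≤ 1 - Real.log n / Real.log ((n : ℝ) + 1) := by
      have ha := Real.log_le_sub_one_of_pos (x := Real.log ((n : ℝ) + 1) / Real.log n) (by positivity)
      rw [Real.log_div h2.ne' h1.ne'] at ha
      have hd : Real.log ((n : ℝ) + 1) - Real.log n ≤ 1 := by
        have hb := Real.log_le_sub_one_of_pos (x := ((n : ℝ) + 1) / n) (by positivity)
        rw [Real.log_div (by linarith) (by linarith)] at hb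
        have e : ((n : ℝ) + 1) / n - 1 = 1 / n := by field_simp; ring
        have : (1 : ℝ) / n ≤ 1 := by
          rw [div_le_one (by linarith)]; exact hn'.le
        linarith
      -- `(y/x - 1) - (1 - x/y) = (y-x)^2/(xy) ≤ (y-x)/(xy)`
      set x := Real.log n with hx
      set y := Real.log ((n : ℝ) + 1) with hy
      have e1 : (y / x - 1) - (1 - x / y) = (y - x) * ((y - x) / (x * y)) := by
        field_simp
      have e2 : 1 / x - 1 / y = (y - x) / (x * y) := by
        field_simp
      have h5 : (y - x) * ((y - x) / (x * y)) ≤ 1 * ((y - x) / (x * y)) := by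
        apply mul_le_mul_of_nonneg_right hd
        apply div_nonneg (by linarith)
        positivity
      rw [e2]
      linarith
    -- T(n+1) - A(n+1)/log(n+1) = T(n) - A(n)/log(n+1)
    have hrec : ∑ p ∈ primesIoc m (n + 1), (1 : ℝ) / p - mA (n + 1) / Real.log ((n : ℝ) + 1)
        = ∑ p ∈ primesIoc m n, (1 : ℝ) / p - mA n / Real.log ((n : ℝ) + 1) := by
      by_cases hp : (n + 1).Prime
      · have e1 : primesIoc m (n + 1) = insert (n + 1) (primesIoc m n) := by
          ext x; simp only [mem_primesIoc, Finset.mem_insert]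
          constructor
          · rintro ⟨h1, h2, h3⟩
            rcases Nat.lt_or_ge x (n + 1) with h | h
            · right; exact ⟨h1, by omega, h3⟩
            · left; omega
          · rintro (rfl | ⟨h1, h2, h3⟩)
            · exact ⟨by omega, le_refl _, hp⟩
            · exact ⟨h1, by omega, h3⟩
        have e2 : Nat.primesLE (n + 1) = insert (n + 1) (Nat.primesLE n) := by
          ext x; simp only [Nat.mem_primesLE, Finset.mem_insert]
          constructor
          · rintro ⟨h2, h3⟩
            rcases Nat.lt_or_ge x (n + 1) with h | h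
            · right; exact ⟨by omega, h3⟩
            · left; omega
          · rintro (rfl | ⟨h2, h3⟩)
            · exact ⟨le_refl _, hp⟩
            · exact ⟨by omega, h3⟩
        unfold mA
        rw [e1, e2, Finset.sum_insert (by simp [mem_primesIoc]),
          Finset.sum_insert (by simp [Nat.mem_primesLE])]
        push_cast
        have hnn : ((n : ℝ) + 1) ≠ 0 := by positivity
        field_simp
        ring
      · have e1 : primesIoc m (n + 1) = primesIoc m n := by
          ext x; simp only [mem_primesIoc]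
          constructor
          · rintro ⟨h1, h2, h3⟩
            refine ⟨h1, ?_, h3⟩
            rcases Nat.lt_or_ge x (n + 1) with h | h
            · omega
            · have : x = n + 1 := by omega
              subst this; exact absurd h3 hp
          · rintro ⟨h1, h2, h3⟩
            exact ⟨h1, by omega, h3⟩
        have e2 : Nat.primesLE (n + 1) = Nat.primesLE n := by
          ext x; simp only [Nat.mem_primesLE]
          constructor
          · rintro ⟨h2, h3⟩
            refine ⟨?_, h3⟩
            rcases Nat.lt_or_ge x (n + 1) with h | h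
            · omega
            · have : x = n + 1 := by omega
              subst this; exact absurd h3 hp
          · rintro ⟨h2, h3⟩
            exact ⟨by omega, h3⟩
        unfold mA
        rw [e1, e2]
    push_cast
    rw [hrec]
    have h5 : (Real.log n - 3) * (1 / Real.log n - 1 / Real.log ((n : ℝ) + 1)) ≤
        mA n * (1 / Real.log n - 1 / Real.log ((n : ℝ) + 1)) :=
      mul_le_mul_of_nonneg_right hA hdiff
    have h6 : Real.log n * (1 / Real.log n - 1 / Real.log ((n : ℝ) + 1))
        = 1 - Real.log n / Real.log ((n : ℝ) + 1) := by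
      field_simp
    have h7 : mA n / Real.log n - mA n / Real.log ((n : ℝ) + 1)
        = mA n * (1 / Real.log n - 1 / Real.log ((n : ℝ) + 1)) := by ring
    nlinarith

private lemma ps_lower (m n : ℕ) (hm : 2 ≤ m) (hmn : m ≤ n) :
    Real.log (Real.log n / Real.log m) - 6 / Real.log m ≤
    ∑ p ∈ primesIoc m n, (1 : ℝ) / p := by
  have h := ps_lower_aux m n hm hmn
  have hm' : (1 : ℝ) < m := by exact_mod_cast hm
  have hn' : (1 : ℝ) < n := by exact_mod_cast (hm.trans hmn)
  have h1 : 0 < Real.log m := Real.log_pos hm'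
  have h2 : 0 < Real.log n := Real.log_pos hn'
  have hA := mA_ge n (by omega)
  have hB := mA_le m (by omega)
  have h3 : 1 - 3 / Real.log n ≤ mA n / Real.log n := by
    rw [le_div_iff₀ h2, sub_mul, div_mul_cancel₀ _ h2.ne']
    linarith
  have h4 : - 1 - 2 / Real.log m ≤ - mA m / Real.log m := by
    rw [le_div_iff₀ h1, sub_mul, div_mul_cancel₀ _ h1.ne']
    have := ps_log4
    linarith
  have h5 : 0 ≤ 1 / Real.log n := by positivity
  rw [Real.log_div h2.ne' h1.ne']
  have e1 : 3 / Real.log n = 3 * (1 / Real.log n) := by ring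
  have e2 : 6 / Real.log m = 2 / Real.log m + 4 * (1 / Real.log m) := by ring
  rw [e2]
  rw [e1] at h3
  linarith

/-! ### Main statements -/

/-- `Σ_{l1 < log p ≤ l2} 1/(p-1) ≤ log (l2/l1) + C`. -/
theorem prime_sum_mid : ∃ C : ℝ, 0 ≤ C ∧ ∀ (l1 l2 : ℝ) (N : ℕ), 1 ≤ l1 → l1 ≤ l2 →
    ∑ p ∈ (Nat.primesLE N).filter (fun p : ℕ => l1 < Real.log p ∧ Real.log p ≤ l2),
      1 / ((p : ℝ) - 1) ≤ Real.log (l2 / l1) + C := by
  refine ⟨12, by norm_num, ?_⟩
  intro l1 l2 N h1 h12
  obtain ⟨hm2, hmle, hmge⟩ := ps_floor_bounds l1 h1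
  obtain ⟨hn2, hnle, hnge⟩ := ps_floor_bounds l2 (h1.trans h12)
  set m := ⌊Real.exp l1⌋₊ with hm
  set n := ⌊Real.exp l2⌋₊ with hn
  have hmn : m ≤ n := Nat.floor_le_floor (Real.exp_le_exp.mpr h12)
  have hlm : 1 / 2 ≤ Real.log m := by linarith
  have hln : 1 / 2 ≤ Real.log n := by linarith
  have hsplit : ∑ p ∈ primesIoc m n, 1 / ((p : ℝ) - 1) =
      ∑ p ∈ primesIoc m n, (1 : ℝ) / p + ∑ p ∈ primesIoc m n, (1 : ℝ) / ((p : ℝ) * (p - 1)) := by
    rw [← Finset.sum_add_distrib]
    apply Finset.sum_congr rfl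
    intro p hp
    have hpp := (mem_primesIoc.mp hp).2.2
    have h2 := ps_cast_ge hpp
    have hp0 : (p : ℝ) ≠ 0 := by linarith
    have hp2 : (p : ℝ) - 1 ≠ 0 := by linarith
    field_simp
    ring
  calc ∑ p ∈ (Nat.primesLE N).filter (fun p : ℕ => l1 < Real.log p ∧ Real.log p ≤ l2),
      1 / ((p : ℝ) - 1) ≤ ∑ p ∈ primesIoc m n, 1 / ((p : ℝ) - 1) := by
        apply Finset.sum_le_sum_of_subset_of_nonneg
        · intro p hp
          rw [Finset.mem_filter, Nat.mem_primesLE] at hp
          rw [mem_primesIoc]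
          refine ⟨?_, Nat.le_floor ((ps_le_exp hp.1.2).mp hp.2.2), hp.1.2⟩
          exact (Nat.floor_lt (Real.exp_pos l1).le).mpr ((ps_lt_exp hp.1.2).mp hp.2.1)
        · intro p hp _
          have hpp := (mem_primesIoc.mp hp).2.2
          have h2 := ps_cast_ge hpp
          apply div_nonneg zero_le_one
          linarith
    _ ≤ (Real.log (Real.log n / Real.log m) + 5 / Real.log m) + 1 := by
        rw [hsplit]
        exact add_le_add (sum_inv_primes_le m n hm2 hmn) (ps_sum_inv_sq m n (by omega))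
    _ ≤ Real.log (l2 / l1) + 12 := by
        have a1 : Real.log (Real.log n / Real.log m) ≤ Real.log (l2 / l1) + 1 := by
          have a2 : Real.log n / Real.log m ≤ (l2 / l1) * 2 := by
            rw [div_le_iff₀ (by linarith)]
            have : l2 / l1 * 2 * Real.log m = (l2 / l1) * (2 * Real.log m) := by ring
            rw [this]
            have b1 : l1 ≤ 2 * Real.log m := by linarith
            have b2 : 0 ≤ l2 / l1 := div_nonneg (by linarith) (by linarith)
            calc Real.log n ≤ l2 := hnle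
              _ = (l2 / l1) * l1 := by field_simp
              _ ≤ _ := mul_le_mul_of_nonneg_left b1 b2
          have a3 : 0 < Real.log n / Real.log m := by
            apply div_pos <;> linarith
          have a4 := Real.log_le_log a3 a2
          rw [Real.log_mul (div_pos (by linarith) (by linarith)).ne' (by norm_num)] at a4
          have := Real.log_two_lt_d9
          linarith
        have a5 : 5 / Real.log m ≤ 10 := by
          rw [div_le_iff₀ (by linarith)]
          linarith
        linarith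

/-- `Σ_{l1 < log p ≤ l2} 1/p ≥ log (l2/l1) - C/l1`. -/
theorem prime_sum_mid_lower : ∃ C : ℝ, 0 ≤ C ∧ ∀ (l1 l2 : ℝ) (N : ℕ), 1 ≤ l1 → l1 ≤ l2 →
    l2 ≤ Real.log N →
    Real.log (l2 / l1) - C / l1 ≤
      ∑ p ∈ (Nat.primesLE N).filter (fun p : ℕ => l1 < Real.log p ∧ Real.log p ≤ l2),
        (1 : ℝ) / p := by
  refine ⟨13, by norm_num, ?_⟩
  intro l1 l2 N h1 h12 h2N
  obtain ⟨hm2, hmle, hmge⟩ := ps_floor_bounds l1 h1
  obtain ⟨hn2, hnle, hnge⟩ := ps_floor_bounds l2 (h1.trans h12)
  have hN0 : (0 : ℝ) < N := by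
    rcases Nat.eq_zero_or_pos N with rfl | h
    · simp at h2N; linarith
    · exact_mod_cast h
  have hNe : Real.exp l2 ≤ N := by
    rwa [← Real.le_log_iff_exp_le hN0]
  set m := ⌊Real.exp l1⌋₊ with hm
  set n := ⌊Real.exp l2⌋₊ with hn
  have hmn : m ≤ n := Nat.floor_le_floor (Real.exp_le_exp.mpr h12)
  have hlm : l1 / 2 ≤ Real.log m := by linarith
  have hln : 1 / 2 ≤ Real.log n := by linarith
  calc Real.log (l2 / l1) - 13 / l1 ≤ Real.log (Real.log n / Real.log m) - 6 / Real.log m := by
        have a1 : 6 / Real.log m ≤ 12 / l1 := by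
          rw [div_le_div_iff₀ (by linarith) (by linarith)]
          linarith
        have a2 : Real.log (l2 / l1) - 1 / l1 ≤ Real.log (Real.log n / Real.log m) := by
          rw [Real.log_div (by linarith) (by linarith), Real.log_div (by linarith) (by linarith)]
          have b1 : Real.log (Real.log m) ≤ Real.log l1 := Real.log_le_log (by linarith) hmle
          have b2 : Real.log (l2 - 1 / 2) ≤ Real.log (Real.log n) :=
            Real.log_le_log (by linarith) hnge
          have b3 := Real.log_le_sub_one_of_pos (x := l2 / (l2 - 1 / 2))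
            (div_pos (by linarith) (by linarith))
          rw [Real.log_div (by linarith) (by linarith)] at b3
          have b4 : l2 / (l2 - 1 / 2) - 1 ≤ 1 / l1 := by
            have e : l2 / (l2 - 1 / 2) - 1 = (1 / 2) / (l2 - 1 / 2) := by
              have : l2 - 1 / 2 ≠ 0 := by linarith
              rw [div_sub_one this]
              congr 1
              ring
            rw [e, div_le_div_iff₀ (by linarith) (by linarith)]
            linarith
          linarith
        have e : 13 / l1 = 12 / l1 + 1 / l1 := by ring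
        linarith
    _ ≤ ∑ p ∈ primesIoc m n, (1 : ℝ) / p := ps_lower m n hm2 hmn
    _ ≤ _ := by
        apply Finset.sum_le_sum_of_subset_of_nonneg
        · intro p hp
          rw [mem_primesIoc] at hp
          rw [Finset.mem_filter, Nat.mem_primesLE]
          have hp2 : (p : ℝ) ≤ Real.exp l2 :=
            (Nat.cast_le.mpr hp.2.1).trans (Nat.floor_le (Real.exp_pos l2).le)
          refine ⟨⟨?_, hp.2.2⟩, ?_, (ps_le_exp hp.2.2).mpr hp2⟩
          · exact_mod_cast hp2.trans hNe
          · rw [ps_lt_exp hp.2.2]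
            exact (Nat.floor_lt (Real.exp_pos l1).le).mp hp.1
        · intro p _ _
          positivity

/-- The primes with `log p ≤ 1` contribute at most `1`. -/
private lemma ps_sum_le_one (N : ℕ) (f : ℕ → ℝ) (c : ℝ) (hc : 0 ≤ c)
    (hf : ∀ p : ℕ, p.Prime → f p ≤ c) (P : ℕ → Prop) [DecidablePred P]
    (hP : ∀ p : ℕ, p.Prime → P p → Real.log p ≤ 1) :
    ∑ p ∈ (Nat.primesLE N).filter P, f p ≤ c := by
  have hsub : (Nat.primesLE N).filter P ⊆ {2} := by
    intro p hp
    rw [Finset.mem_filter, Nat.mem_primesLE] at hp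
    have h1 := (ps_le_exp hp.1.2).mp (hP p hp.1.2 hp.2)
    have h2 : (p : ℝ) < 3 := by
      have := Real.exp_one_lt_d9
      linarith
    have h3 : p < 3 := by exact_mod_cast h2
    have h4 := hp.1.2.two_le
    rw [Finset.mem_singleton]
    omega
  rcases Finset.subset_singleton_iff.mp hsub with h | h
  · rw [h]; simpa using hc
  · rw [h, Finset.sum_singleton]
    exact hf 2 Nat.prime_two

/-- `Σ_{t < log p ≤ l} 1/(p-1) ≤ log (l/t) + C` for `l ≥ 1`, `0 < t ≤ l`. -/
private lemma ps_mid' : ∃ C : ℝ, 0 ≤ C ∧ ∀ (t l : ℝ) (N : ℕ), 0 < t → t ≤ l → 1 ≤ l →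
    ∑ p ∈ (Nat.primesLE N).filter (fun p : ℕ => t < Real.log p ∧ Real.log p ≤ l),
      1 / ((p : ℝ) - 1) ≤ Real.log (l / t) + C := by
  obtain ⟨C, hC, h⟩ := prime_sum_mid
  refine ⟨C + 1, by linarith, ?_⟩
  intro t l N ht htl hl
  rcases le_or_gt 1 t with h1 | h1
  · have := h t l N h1 htl
    linarith
  · have h2 := h 1 l N le_rfl hl
    have hsplit : ∑ p ∈ (Nat.primesLE N).filter (fun p : ℕ => t < Real.log p ∧ Real.log p ≤ l),
        1 / ((p : ℝ) - 1) ≤
        ∑ p ∈ (Nat.primesLE N).filter (fun p : ℕ => Real.log p ≤ 1), 1 / ((p : ℝ) - 1) +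
        ∑ p ∈ (Nat.primesLE N).filter (fun p : ℕ => 1 < Real.log p ∧ Real.log p ≤ l),
          1 / ((p : ℝ) - 1) := by
      rw [← Finset.sum_union]
      · apply Finset.sum_le_sum_of_subset_of_nonneg
        · intro p hp
          rw [Finset.mem_filter] at hp
          rw [Finset.mem_union, Finset.mem_filter, Finset.mem_filter]
          rcases le_or_gt (Real.log p) 1 with h3 | h3
          · left; exact ⟨hp.1, h3⟩
          · right; exact ⟨hp.1, h3, hp.2.2⟩
        · intro p hp _
          have hpp : p.Prime := by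
            rw [Finset.mem_union, Finset.mem_filter, Finset.mem_filter] at hp
            rcases hp with hp | hp
            · exact (Nat.mem_primesLE.mp hp.1).2
            · exact (Nat.mem_primesLE.mp hp.1).2
          have := ps_cast_ge hpp
          apply div_nonneg zero_le_one
          linarith
      · rw [Finset.disjoint_left]
        intro p hp hp'
        rw [Finset.mem_filter] at hp hp'
        linarith [hp.2, hp'.2.1]
    have h3 : ∑ p ∈ (Nat.primesLE N).filter (fun p : ℕ => Real.log p ≤ 1), 1 / ((p : ℝ) - 1) ≤ 1 := by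
      apply ps_sum_le_one N (fun p => 1 / ((p : ℝ) - 1)) 1 zero_le_one
      · intro p hp
        have := ps_cast_ge hp
        rw [div_le_one (by linarith)]
        linarith
      · intro p _ h; exact h
    have h4 : Real.log (l / 1) ≤ Real.log (l / t) := by
      apply Real.log_le_log (by positivity)
      apply div_le_div_of_nonneg_left (by linarith) ht h1.le
    linarith

/-- Common part of the two sums over small primes. -/
private lemma ps_small_gen : ∃ C : ℝ, 0 ≤ C ∧ ∀ (k : ℕ) (Δ l : ℝ) (N : ℕ), 1 ≤ k → 1 ≤ Δ → 1 ≤ l →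
    ∑ p ∈ (Nat.primesLE N).filter (fun p : ℕ => Real.log p ≤ l),
      (min 2 (Δ * Real.log p / l)) ^ k / ((p : ℝ) - 1) ≤ 2 ^ k * Real.log Δ + C * 2 ^ k := by
  obtain ⟨C, hC, h⟩ := ps_mid'
  refine ⟨C + 5, by linarith, ?_⟩
  intro k Δ l N hk hΔ hl
  have ht : 0 < l / Δ := by positivity
  have htl : l / Δ ≤ l := div_le_self (by linarith) hΔ
  have h1 := h (l / Δ) l N ht htl hl
  have e1 : l / (l / Δ) = Δ := by field_simp
  rw [e1] at h1
  have h2k : (1 : ℝ) ≤ 2 ^ k := one_le_pow₀ (by norm_num)
  have hsplit : ∑ p ∈ (Nat.primesLE N).filter (fun p : ℕ => Real.log p ≤ l),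
      (min 2 (Δ * Real.log p / l)) ^ k / ((p : ℝ) - 1) ≤
      ∑ p ∈ (Nat.primesLE N).filter (fun p : ℕ => Real.log p ≤ l / Δ),
        (min 2 (Δ * Real.log p / l)) ^ k / ((p : ℝ) - 1) +
      ∑ p ∈ (Nat.primesLE N).filter (fun p : ℕ => l / Δ < Real.log p ∧ Real.log p ≤ l),
        (min 2 (Δ * Real.log p / l)) ^ k / ((p : ℝ) - 1) := by
    rw [← Finset.sum_union]
    · apply Finset.sum_le_sum_of_subset_of_nonneg
      · intro p hp
        rw [Finset.mem_filter] at hp
        rw [Finset.mem_union, Finset.mem_filter, Finset.mem_filter]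
        rcases le_or_gt (Real.log p) (l / Δ) with h3 | h3
        · left; exact ⟨hp.1, h3⟩
        · right; exact ⟨hp.1, h3, hp.2⟩
      · intro p hp _
        have hpp : p.Prime := by
          rw [Finset.mem_union, Finset.mem_filter, Finset.mem_filter] at hp
          rcases hp with hp | hp
          · exact (Nat.mem_primesLE.mp hp.1).2
          · exact (Nat.mem_primesLE.mp hp.1).2
        have h2 := ps_cast_ge hpp
        have h3 := ps_log_pos hpp
        apply div_nonneg _ (by linarith)
        apply pow_nonneg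
        apply le_min (by norm_num)
        positivity
    · rw [Finset.disjoint_left]
      intro p hp hp'
      rw [Finset.mem_filter] at hp hp'
      linarith [hp.2, hp'.2.1]
  -- first part
  have hA : ∑ p ∈ (Nat.primesLE N).filter (fun p : ℕ => Real.log p ≤ l / Δ),
        (min 2 (Δ * Real.log p / l)) ^ k / ((p : ℝ) - 1) ≤ 5 := by
    rcases le_or_gt 1 (l / Δ) with h3 | h3
    · calc ∑ p ∈ (Nat.primesLE N).filter (fun p : ℕ => Real.log p ≤ l / Δ),
            (min 2 (Δ * Real.log p / l)) ^ k / ((p : ℝ) - 1)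
          ≤ ∑ p ∈ (Nat.primesLE N).filter (fun p : ℕ => Real.log p ≤ l / Δ),
            (Δ / l) * (Real.log p / ((p : ℝ) - 1)) := by
            apply Finset.sum_le_sum
            intro p hp
            rw [Finset.mem_filter, Nat.mem_primesLE] at hp
            have h4 := ps_cast_ge hp.1.2
            have h5 := ps_log_pos hp.1.2
            have h6 : Δ * Real.log p / l ≤ 1 := by
              rw [div_le_one (by linarith)]
              have := hp.2
              rw [le_div_iff₀ (by linarith)] at this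
              linarith
            have h7 : 0 ≤ Δ * Real.log p / l := by positivity
            have h8 : (min 2 (Δ * Real.log p / l)) = Δ * Real.log p / l := by
              apply min_eq_right; linarith
            rw [h8]
            have h9 : (Δ * Real.log p / l) ^ k ≤ Δ * Real.log p / l :=
              pow_le_of_le_one h7 h6 (by omega)
            calc (Δ * Real.log p / l) ^ k / ((p : ℝ) - 1)
                ≤ (Δ * Real.log p / l) / ((p : ℝ) - 1) :=
                  div_le_div_of_nonneg_right h9 (by linarith)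
              _ = _ := by ring
        _ = (Δ / l) * ∑ p ∈ (Nat.primesLE N).filter (fun p : ℕ => Real.log p ≤ l / Δ),
              Real.log p / ((p : ℝ) - 1) := by rw [Finset.mul_sum]
        _ ≤ (Δ / l) * (l / Δ + 4) := by
            apply mul_le_mul_of_nonneg_left (ps_sum_log_filter _ ht.le N)
            positivity
        _ ≤ 5 := by
            have e2 : (Δ / l) * (l / Δ + 4) = 1 + 4 * (Δ / l) := by
              field_simp
            rw [e2]
            have : Δ / l ≤ 1 := by
              rw [div_le_one (by linarith)]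
              rwa [one_le_div (by linarith)] at h3
            linarith
    · refine (ps_sum_le_one N (fun p => min 5 ((min 2 (Δ * Real.log p / l)) ^ k / ((p : ℝ) - 1))) 5
        (by norm_num) (fun p _ => min_le_left _ _) (fun p : ℕ => Real.log p ≤ l / Δ)
        (fun p _ h => h.trans h3.le)).trans' ?_
      apply Finset.sum_le_sum
      intro p hp
      rw [Finset.mem_filter, Nat.mem_primesLE] at hp
      have h4 := ps_cast_ge hp.1.2
      have h5 := ps_log_pos hp.1.2
      have h6 : Δ * Real.log p / l ≤ 1 := by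
        rw [div_le_one (by linarith)]
        have := hp.2
        rw [le_div_iff₀ (by linarith)] at this
        linarith
      have h7 : 0 ≤ Δ * Real.log p / l := by positivity
      apply le_min _ le_rfl
      have h8 : (min 2 (Δ * Real.log p / l)) ^ k ≤ 1 := by
        apply pow_le_one₀
        · exact le_min (by norm_num) h7
        · exact (min_le_right _ _).trans h6
      calc (min 2 (Δ * Real.log p / l)) ^ k / ((p : ℝ) - 1) ≤ 1 := by
            rw [div_le_one (by linarith)]
            linarith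
        _ ≤ 5 := by norm_num
  -- second part
  have hB : ∑ p ∈ (Nat.primesLE N).filter (fun p : ℕ => l / Δ < Real.log p ∧ Real.log p ≤ l),
        (min 2 (Δ * Real.log p / l)) ^ k / ((p : ℝ) - 1) ≤ 2 ^ k * (Real.log Δ + C) := by
    calc ∑ p ∈ (Nat.primesLE N).filter (fun p : ℕ => l / Δ < Real.log p ∧ Real.log p ≤ l),
          (min 2 (Δ * Real.log p / l)) ^ k / ((p : ℝ) - 1)
        ≤ ∑ p ∈ (Nat.primesLE N).filter (fun p : ℕ => l / Δ < Real.log p ∧ Real.log p ≤ l),
          2 ^ k * (1 / ((p : ℝ) - 1)) := by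
          apply Finset.sum_le_sum
          intro p hp
          rw [Finset.mem_filter, Nat.mem_primesLE] at hp
          have h4 := ps_cast_ge hp.1.2
          have h5 := ps_log_pos hp.1.2
          have h7 : 0 ≤ Δ * Real.log p / l := by positivity
          have h8 : (min 2 (Δ * Real.log p / l)) ^ k ≤ 2 ^ k :=
            pow_le_pow_left₀ (le_min (by norm_num) h7) (min_le_left _ _) k
          calc (min 2 (Δ * Real.log p / l)) ^ k / ((p : ℝ) - 1) ≤ 2 ^ k / ((p : ℝ) - 1) :=
                div_le_div_of_nonneg_right h8 (by linarith)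
            _ = _ := by ring
      _ = 2 ^ k * ∑ p ∈ (Nat.primesLE N).filter (fun p : ℕ => l / Δ < Real.log p ∧ Real.log p ≤ l),
          (1 / ((p : ℝ) - 1)) := by rw [Finset.mul_sum]
      _ ≤ _ := mul_le_mul_of_nonneg_left h1 (by positivity)
  calc _ ≤ 5 + 2 ^ k * (Real.log Δ + C) := hsplit.trans (add_le_add hA hB)
    _ ≤ _ := by nlinarith

/-- `Σ_{p ≤ e^l} min(2, Δ log p / l)² / (p-1) ≤ 4 log Δ + C`. -/
theorem prime_sum_small : ∃ C : ℝ, 0 ≤ C ∧ ∀ (Δ l : ℝ) (N : ℕ), 1 ≤ Δ → 1 ≤ l →
    ∑ p ∈ (Nat.primesLE N).filter (fun p : ℕ => Real.log p ≤ l),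
      (min 2 (Δ * Real.log p / l)) ^ 2 / ((p : ℝ) - 1) ≤ 4 * Real.log Δ + C := by
  obtain ⟨C, hC, h⟩ := ps_small_gen
  refine ⟨C * 2 ^ 2, by positivity, ?_⟩
  intro Δ l N hΔ hl
  refine (h 2 Δ l N (by norm_num) hΔ hl).trans_eq ?_
  norm_num

/-- `Σ_{p ≤ e^l} min(2, Δ log p / l) / (p-1) ≤ 2 log Δ + C`. -/
theorem prime_sum_small1 : ∃ C : ℝ, 0 ≤ C ∧ ∀ (Δ l : ℝ) (N : ℕ), 1 ≤ Δ → 1 ≤ l →
    ∑ p ∈ (Nat.primesLE N).filter (fun p : ℕ => Real.log p ≤ l),
      (min 2 (Δ * Real.log p / l)) / ((p : ℝ) - 1) ≤ 2 * Real.log Δ + C := by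
  obtain ⟨C, hC, h⟩ := ps_small_gen
  refine ⟨C * 2 ^ 1, by positivity, ?_⟩
  intro Δ l N hΔ hl
  have := h 1 Δ l N (by norm_num) hΔ hl
  simpa only [pow_one] using this

end Pool.Agent.RAux
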