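import Mathlib
import Pool.Agent.RAux.Defs

/-!
Counting zeros.
-/

set_option autoImplicit false

open Complex MeasureTheory Filter Topology

namespace Pool.Agent.RAux

/-- A finite set of zeros: `zc` is a finite sum. -/
theorem zc_eq_sum (f : ℂ → ℂ) (A : Set ℂ) (h : {ρ : ℂ | f ρ = 0 ∧ ρ ∈ A}.Finite) :
    zc f A = ∑ ρ ∈ h.toFinset, ((analyticOrderAt f ρ).toNat : ℝ) := by
  unfold zc
  have h1 := h.fintype
  have e : ∑' ρ : {ρ : ℂ // f ρ = 0 ∧ ρ ∈ A}, ((analyticOrderAt f ρ.1).toNat : ℝ) =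
      ∑' ρ : {ρ : ℂ | f ρ = 0 ∧ ρ ∈ A}, ((analyticOrderAt f ρ.1).toNat : ℝ) := rfl
  rw [e, tsum_fintype]
  rw [← Finset.sum_coe_sort h.toFinset (fun ρ => ((analyticOrderAt f ρ).toNat : ℝ))]
  refine Fintype.sum_equiv (Equiv.subtypeEquivRight (fun ρ => by simp)) _ _ ?_
  intro x
  rfl

theorem zc_nonneg (f : ℂ → ℂ) (A : Set ℂ) : 0 ≤ zc f A :=
  tsum_nonneg (fun _ => Nat.cast_nonneg _)

theorem zc_mono (f : ℂ → ℂ) (A B : Set ℂ) (hAB : A ⊆ B) (h : {ρ : ℂ | f ρ = 0 ∧ ρ ∈ B}.Finite) :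
    zc f A ≤ zc f B := by
  have hA : {ρ : ℂ | f ρ = 0 ∧ ρ ∈ A}.Finite := h.subset (fun ρ hρ => ⟨hρ.1, hAB hρ.2⟩)
  rw [zc_eq_sum f A hA, zc_eq_sum f B h]
  apply Finset.sum_le_sum_of_subset_of_nonneg
  · intro ρ hρ
    rw [Set.Finite.mem_toFinset] at hρ ⊢
    exact ⟨hρ.1, hAB hρ.2⟩
  · intro ρ _ _
    exact Nat.cast_nonneg _

/-- Zeros in a bounded set of an entire function which is not identically zero. -/
theorem zeros_finite (f : ℂ → ℂ) (hf : Differentiable ℂ f) (z : ℂ) (hz : f z ≠ 0) (A : Set ℂ)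
    (hA : Bornology.IsBounded A) : {ρ : ℂ | f ρ = 0 ∧ ρ ∈ A}.Finite := by
  by_contra hinf
  have hinf' : {ρ : ℂ | f ρ = 0 ∧ ρ ∈ A}.Infinite := hinf
  obtain ⟨x, _, hx⟩ := hinf'.exists_accPt_of_subset_isCompact hA.isCompact_closure
    (fun ρ hρ => subset_closure hρ.2)
  have hfr : ∃ᶠ w in 𝓝[≠] x, f w = 0 := by
    rw [accPt_iff_frequently] at hx
    rw [frequently_nhdsWithin_iff]
    exact hx.mono (fun w hw => ⟨hw.2.1, hw.1⟩)
  have hf' : AnalyticOnNhd ℂ f Set.univ := fun w _ => hf.analyticAt w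
  have := hf'.eqOn_zero_of_preconnected_of_frequently_eq_zero isPreconnected_univ
    (Set.mem_univ x) hfr
  exact hz (this (Set.mem_univ z))

end Pool.Agent.RAux
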