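import Mathlib
import Pool.Agent.RAux.Defs
import Pool.Agent.RAux.ZC

/-!
Factorisation of an entire function on a compact set.
-/

set_option autoImplicit false

open Complex MeasureTheory Filter Topology

namespace Pool.Agent.RAux

theorem af_order_ne_top (f : ℂ → ℂ) (z₀ : ℂ) (hz₀ : f z₀ ≠ 0)
    (hf : Differentiable ℂ f) (w : ℂ) : analyticOrderAt f w ≠ ⊤ := by
  intro h
  have h1 : f = 0 := by
    exact (AnalyticOnNhd.analyticOrderAt_eq_top_iff_eq_zero w (fun z => hf.analyticAt z)).mp h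
  exact hz₀ (by rw [h1]; rfl)

theorem af_step (f : ℂ → ℂ) (hf : Differentiable ℂ f) (ρ : ℂ) (hρ : f ρ = 0) :
    ∃ g : ℂ → ℂ, Differentiable ℂ g ∧ (∀ z, f z = (z - ρ) * g z) ∧
      ∀ w, analyticOrderAt f w = (if w = ρ then 1 else 0) + analyticOrderAt g w := by
  have hg : Differentiable ℂ (dslope f ρ) := by
    rw [← differentiableOn_univ]
    exact (Complex.differentiableOn_dslope (Filter.univ_mem)).mpr hf.differentiableOn
  have hfg : ∀ z, f z = (z - ρ) * dslope f ρ z := by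
    intro z
    have := sub_smul_dslope f ρ z
    rw [smul_eq_mul, hρ, sub_zero] at this
    exact this.symm
  refine ⟨dslope f ρ, hg, hfg, fun w => ?_⟩
  have h1 : f = (fun z => z - ρ) * dslope f ρ := by
    funext z
    exact hfg z
  have h2 : analyticOrderAt f w = analyticOrderAt ((fun z => z - ρ) * dslope f ρ) w :=
    congrArg (fun F : ℂ → ℂ => analyticOrderAt F w) h1
  rw [h2, analyticOrderAt_mul (by fun_prop) (hg.analyticAt w)]
  congr 1
  by_cases hw : w = ρ
  · rw [if_pos hw, hw]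
    exact analyticOrderAt_id_sub_const_self
  · rw [if_neg hw]
    exact analyticOrderAt_id_sub_const_of_ne hw

theorem exists_factor_aux (K : Set ℂ) : ∀ (n : ℕ) (f : ℂ → ℂ), Differentiable ℂ f →
    (∃ z₀, f z₀ ≠ 0) → (∃ Z : Finset ℂ, (∀ ρ ∈ K, f ρ = 0 → ρ ∈ Z) ∧
      ∑ ρ ∈ Z, (analyticOrderAt f ρ).toNat ≤ n) →
    ∃ (S : Multiset ℂ) (g : ℂ → ℂ), Differentiable ℂ g ∧ (∀ ρ ∈ S, ρ ∈ K) ∧
      (∀ z, f z = (S.map (fun ρ => z - ρ)).prod * g z) ∧ (∀ z ∈ K, g z ≠ 0) ∧
      ∀ ρ ∈ K, S.count ρ = (analyticOrderAt f ρ).toNat := by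
  classical
  intro n
  have base : ∀ f : ℂ → ℂ, Differentiable ℂ f → (∀ z ∈ K, f z ≠ 0) →
    ∃ (S : Multiset ℂ) (g : ℂ → ℂ), Differentiable ℂ g ∧ (∀ ρ ∈ S, ρ ∈ K) ∧
      (∀ z, f z = (S.map (fun ρ => z - ρ)).prod * g z) ∧ (∀ z ∈ K, g z ≠ 0) ∧
      ∀ ρ ∈ K, S.count ρ = (analyticOrderAt f ρ).toNat := by
    intro f hf h0
    refine ⟨0, f, hf, by simp, by simp, h0, fun ρ hρ => ?_⟩
    rw [(hf.analyticAt ρ).analyticOrderAt_eq_zero.mpr (h0 ρ hρ)]
    simp
  induction n with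
  | zero =>
    intro f hf h0 hZ
    apply base f hf
    intro z hz hz0
    obtain ⟨w, hw⟩ := h0
    obtain ⟨Z, hZ1, hZ2⟩ := hZ
    have h1 := hZ1 z hz hz0
    have h2 : (analyticOrderAt f z).toNat ≤ 0 :=
      (Finset.single_le_sum (f := fun ρ => (analyticOrderAt f ρ).toNat)
        (fun _ _ => Nat.zero_le _) h1).trans hZ2
    have h3 : analyticOrderAt f z ≠ 0 := (hf.analyticAt z).analyticOrderAt_ne_zero.mpr hz0
    have h4 := af_order_ne_top f w hw hf z
    have h5 : (analyticOrderAt f z).toNat = 0 := by omega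
    rw [ENat.toNat_eq_zero] at h5
    rcases h5 with h5 | h5
    · exact h3 h5
    · exact h4 h5
  | succ n ih =>
    intro f hf h0 hZ
    by_cases hzero : ∃ ρ ∈ K, f ρ = 0
    · obtain ⟨ρ, hρK, hρ⟩ := hzero
      obtain ⟨g, hg, hfg, hord⟩ := af_step f hf ρ hρ
      obtain ⟨w, hw⟩ := h0
      have hgw : g w ≠ 0 := by
        intro h
        apply hw
        rw [hfg, h, mul_zero]
      have hordN : ∀ z, (analyticOrderAt f z).toNat =
          (if z = ρ then 1 else 0) + (analyticOrderAt g z).toNat := by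
        intro z
        rw [hord z, ENat.toNat_add (by split_ifs <;> simp) (af_order_ne_top g w hgw hg z)]
        split_ifs <;> simp
      obtain ⟨Z, hZ1, hZ2⟩ := hZ
      have hρZ : ρ ∈ Z := hZ1 ρ hρK hρ
      obtain ⟨S, g', hg', hS, hgS, hg'0, hcount⟩ := ih g hg ⟨w, hgw⟩ ⟨Z, by
        intro z hz hz0
        apply hZ1 z hz
        rw [hfg, hz0, mul_zero], by
        have h1 : ∑ z ∈ Z, (analyticOrderAt f z).toNat =
            1 + ∑ z ∈ Z, (analyticOrderAt g z).toNat := by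
          rw [Finset.sum_congr rfl (fun z _ => hordN z), Finset.sum_add_distrib,
            Finset.sum_ite_eq' Z ρ (fun _ => 1), if_pos hρZ]
        omega⟩
      refine ⟨ρ ::ₘ S, g', hg', ?_, ?_, hg'0, ?_⟩
      · intro z hz
        rw [Multiset.mem_cons] at hz
        rcases hz with rfl | hz
        · exact hρK
        · exact hS z hz
      · intro z
        rw [hfg, hgS, Multiset.map_cons, Multiset.prod_cons]
        ring
      · intro z hz
        rw [hordN z, Multiset.count_cons, hcount z hz, add_comm]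
    · push Not at hzero
      exact base f hf hzero

/-- Splitting off the zeros in a compact set. `S` lists the zeros in `K` with multiplicity. -/
theorem exists_factor (f : ℂ → ℂ) (hf : Differentiable ℂ f) (z₀ : ℂ) (hz₀ : f z₀ ≠ 0) (K : Set ℂ)
    (hK : IsCompact K) :
    ∃ (S : Multiset ℂ) (g : ℂ → ℂ), Differentiable ℂ g ∧ (∀ ρ ∈ S, ρ ∈ K) ∧
      (∀ z, f z = (S.map (fun ρ => z - ρ)).prod * g z) ∧ (∀ z ∈ K, g z ≠ 0) ∧
      ∀ ρ ∈ K, S.count ρ = (analyticOrderAt f ρ).toNat := by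
  have hfin := zeros_finite f hf z₀ hz₀ K hK.isBounded
  refine exists_factor_aux K _ f hf ⟨z₀, hz₀⟩ ⟨hfin.toFinset, fun ρ hρ h0 => ?_, le_rfl⟩
  rw [Set.Finite.mem_toFinset]
  exact ⟨h0, hρ⟩

/-- Consequence for sums over zeros. -/
theorem card_filter_le_zc (f : ℂ → ℂ) (hf : Differentiable ℂ f) (z₀ : ℂ) (hz₀ : f z₀ ≠ 0)
    (K : Set ℂ) (hK : IsCompact K) (S : Multiset ℂ) (hS : ∀ ρ ∈ S, ρ ∈ K)
    (hc : ∀ ρ ∈ K, S.count ρ = (analyticOrderAt f ρ).toNat) (A : Set ℂ) [DecidablePred (· ∈ A)]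
    (hA : A ⊆ K) : ((S.filter (· ∈ A)).card : ℝ) = zc f A := by
  classical
  have hfin : {ρ : ℂ | f ρ = 0 ∧ ρ ∈ A}.Finite :=
    zeros_finite f hf z₀ hz₀ A (hK.isBounded.subset hA)
  rw [zc_eq_sum f A hfin, ← Multiset.toFinset_sum_count_eq, Nat.cast_sum]
  have hset : (S.filter (· ∈ A)).toFinset = hfin.toFinset := by
    ext z
    rw [Multiset.mem_toFinset, Multiset.mem_filter, Set.Finite.mem_toFinset, Set.mem_ofPred_eq]
    constructor
    · rintro ⟨hzS, hzA⟩
      refine ⟨?_, hzA⟩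
      have h1 : 0 < S.count z := Multiset.count_pos.mpr hzS
      rw [hc z (hA hzA)] at h1
      have h2 : analyticOrderAt f z ≠ 0 := by
        intro h
        rw [h] at h1
        simp at h1
      exact (hf.analyticAt z).analyticOrderAt_ne_zero.mp h2
    · rintro ⟨hz0, hzA⟩
      refine ⟨?_, hzA⟩
      rw [← Multiset.count_pos, hc z (hA hzA)]
      have h3 : analyticOrderAt f z ≠ 0 := (hf.analyticAt z).analyticOrderAt_ne_zero.mpr hz0
      have h4 := af_order_ne_top f z₀ hz₀ hf z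
      rw [Nat.pos_iff_ne_zero]
      intro h5
      rw [ENat.toNat_eq_zero] at h5
      rcases h5 with h5 | h5
      · exact h3 h5
      · exact h4 h5
  rw [hset]
  refine Finset.sum_congr rfl fun z hz => ?_
  rw [Set.Finite.mem_toFinset] at hz
  rw [Multiset.count_filter, if_pos hz.2, hc z (hA hz.2)]

end Pool.Agent.RAux
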