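import Mathlib
import Pool.Agent.RAux.Defs
import Pool.Agent.RAux.AFactor
import Pool.Agent.PairCorr.JensenSum

/-!
Good heights.
-/

set_option autoImplicit false

open Complex MeasureTheory Filter Topology

namespace Pool.Agent.RAux

/-- Holomorphic logarithm on a convex open set. -/
theorem gh_exists_log {U : Set ℂ} (hU : IsOpen U) (hc : Convex ℝ U) (hne : U.Nonempty)
    {f : ℂ → ℂ} (hf : DifferentiableOn ℂ f U) (h0 : ∀ z ∈ U, f z ≠ 0) :
    ∃ g : ℂ → ℂ, DifferentiableOn ℂ g U ∧ ∀ z ∈ U, exp (g z) = f z := by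
  have hcontr : ContractibleSpace U := hc.contractibleSpace hne
  have hsc : IsSimplyConnected U := by
    unfold IsSimplyConnected
    infer_instance
  obtain ⟨g, hgc, hg⟩ := Complex.exists_continuousOn_eqOn_exp_comp hsc hU hf.continuousOn
    (by rintro ⟨z, hz, hz0⟩; exact h0 z hz hz0)
  refine ⟨g, ?_, fun z hz => hg hz⟩
  intro z hz
  have hgz : ContinuousAt g z := hgc.continuousAt (hU.mem_nhds hz)
  have hfz : DifferentiableAt ℂ f z := hf.differentiableAt (hU.mem_nhds hz)
  have h1 : ∀ᶠ w in 𝓝 z, g w = log (f w / f z) + g z := by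
    have h2 : ∀ᶠ w in 𝓝 z, ‖g w - g z‖ < 1 := by
      have : Tendsto (fun w => ‖g w - g z‖) (𝓝 z) (𝓝 0) := by
        have := (hgz.sub (continuousAt_const (y := g z))).norm
        simpa [ContinuousAt] using this
      exact this.eventually (gt_mem_nhds one_pos)
    filter_upwards [h2, hU.mem_nhds hz] with w hw hwU
    have h3 : f w / f z = exp (g w - g z) := by
      rw [exp_sub, ← hg hwU, ← hg hz]; rfl
    rw [h3, log_exp, sub_add_cancel]
    · have := (abs_im_le_norm (g w - g z)).trans hw.le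
      linarith [neg_abs_le (g w - g z).im, Real.pi_gt_three]
    · have := (abs_im_le_norm (g w - g z)).trans hw.le
      linarith [le_abs_self (g w - g z).im, Real.pi_gt_three]
  have h4 : DifferentiableAt ℂ (fun w => log (f w / f z) + g z) z := by
    refine DifferentiableAt.add_const _ ?_
    refine DifferentiableAt.clog (hfz.div_const _) ?_
    rw [div_self (h0 z hz)]
    exact one_mem_slitPlane
  exact (h4.congr_of_eventuallyEq h1).differentiableWithinAt

/-- Lower bound for a bounded function without zeros in a disc. -/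
theorem gh_lower {g : ℂ → ℂ} (hg : Differentiable ℂ g) {c : ℂ} {M : ℝ} (hM : 0 < M)
    (hb : ∀ z, ‖z - c‖ ≤ 4 → ‖g z‖ ≤ M) (h0 : ∀ z, ‖z - c‖ ≤ 4 → g z ≠ 0) {z : ℂ}
    (hz : ‖z - c‖ ≤ 3) :
    ‖g c‖ * Real.exp (-(6 * (Real.log M - Real.log ‖g c‖ + 1))) ≤ ‖g z‖ := by
  set A := Real.log M - Real.log ‖g c‖ + 1 with hA
  have hgc0 : g c ≠ 0 := h0 c (by simp)
  have hgcpos : 0 < ‖g c‖ := norm_pos_iff.2 hgc0
  have hlogle : Real.log ‖g c‖ ≤ Real.log M := Real.log_le_log hgcpos (hb c (by simp))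
  have hApos : 0 < A := by rw [hA]; linarith
  obtain ⟨h, hhd, hh⟩ := gh_exists_log (U := Metric.ball (0 : ℂ) 4) Metric.isOpen_ball
    (convex_ball _ _) ⟨0, by simp⟩ (f := fun w => g (c + w))
    ((hg.comp ((differentiable_const c).add differentiable_id)).differentiableOn) (by
      intro w hw
      rw [Metric.mem_ball, dist_zero_right] at hw
      exact h0 _ (by simpa using hw.le))
  have hre : ∀ w ∈ Metric.ball (0 : ℂ) 4, Real.exp (h w).re = ‖g (c + w)‖ := by
    intro w hw
    rw [← hh w hw, Complex.norm_exp]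
  have hmem0 : (0 : ℂ) ∈ Metric.ball (0 : ℂ) 4 := by simp
  have hre0 : (h 0).re = Real.log ‖g c‖ := by
    have := hre 0 hmem0
    rw [add_zero] at this
    rw [← this, Real.log_exp]
  have hkb : Set.MapsTo (fun w => h w - h 0) (Metric.ball 0 4) {z | z.re ≤ A} := by
    intro w hw
    have h1 := hre w hw
    have h2 : (h w).re ≤ Real.log M := by
      have h3 : ‖g (c + w)‖ ≤ M := hb _ (by
        rw [Metric.mem_ball, dist_zero_right] at hw
        simpa using hw.le)
      rw [← h1] at h3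
      have := Real.log_le_log (Real.exp_pos _) h3
      rwa [Real.log_exp] at this
    show (h w - h 0).re ≤ A
    rw [Complex.sub_re, hre0, hA]
    linarith
  have hzb : z - c ∈ Metric.ball (0 : ℂ) 4 := by
    rw [Metric.mem_ball, dist_zero_right]
    linarith
  have hbc := Complex.borelCaratheodory_zero hApos (hhd.sub_const (h 0)) hkb (by norm_num) hzb
    (by simp)
  have h6 : 2 * A * ‖z - c‖ / (4 - ‖z - c‖) ≤ 6 * A := by
    rw [div_le_iff₀ (by linarith)]
    have h7 : 0 ≤ ‖z - c‖ := norm_nonneg _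
    nlinarith
  have h8 : -(6 * A) ≤ (h (z - c) - h 0).re := by
    have h9 := (Complex.abs_re_le_norm (h (z - c) - h 0)).trans (hbc.trans h6)
    exact (abs_le.1 h9).1
  have h10 := hre _ hzb
  rw [add_sub_cancel] at h10
  rw [← h10]
  have h11 : ‖g c‖ = Real.exp (h 0).re := by
    rw [hre0, Real.exp_log hgcpos]
  rw [h11, ← Real.exp_add]
  apply Real.exp_le_exp.2
  rw [Complex.sub_re] at h8
  linarith

/-- `p log p + (1-p) log (1-p) ≥ -1` and its analogues outside `[0,1]` -/
theorem gh_xlogx (a : ℝ) : -1 ≤ (a + 1) * Real.log (a + 1) - a * Real.log a := by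
  have key : ∀ x : ℝ, 0 < x → x - 1 ≤ x * Real.log x := by
    intro x hx
    have := Real.one_sub_inv_le_log_of_pos hx
    calc x - 1 = x * (1 - x⁻¹) := by field_simp
      _ ≤ x * Real.log x := mul_le_mul_of_nonneg_left this hx.le
  have mono : ∀ x : ℝ, 0 ≤ x → 0 ≤ (x + 1) * Real.log (x + 1) - x * Real.log x := by
    intro x hx
    have h1 : 0 ≤ Real.log (x + 1) := Real.log_nonneg (by linarith)
    rcases le_or_gt x 1 with h | h
    · have h2 : x * Real.log x ≤ 0 :=
        mul_nonpos_of_nonneg_of_nonpos hx (Real.log_nonpos hx h)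
      have h3 : 0 ≤ (x + 1) * Real.log (x + 1) := mul_nonneg (by linarith) h1
      linarith
    · have h2 : Real.log x ≤ Real.log (x + 1) := Real.log_le_log (by linarith) (by linarith)
      have h3 : x * Real.log x ≤ x * Real.log (x + 1) := mul_le_mul_of_nonneg_left h2 hx
      linarith
  rcases le_or_gt 0 a with h | h
  · linarith [mono a h]
  · rcases lt_or_ge (-1) a with h2 | h2
    · have h3 := key (a + 1) (by linarith)
      have h4 := key (-a) (by linarith)
      rw [Real.log_neg_eq_log] at h4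
      linarith
    · have h3 := mono (-(a + 1)) (by linarith)
      have e1 : -(a + 1) + 1 = -a := by ring
      rw [e1, Real.log_neg_eq_log, Real.log_neg_eq_log] at h3
      linarith

/-- lower bound for the integral of the logarithm over an interval of length one -/
theorem gh_int_log (τ γ : ℝ) :
    IntegrableOn (fun t : ℝ => Real.log |t - γ|) (Set.Ioc τ (τ + 1)) ∧
      -2 ≤ ∫ t in Set.Ioc τ (τ + 1), Real.log |t - γ| := by
  have hi : IntervalIntegrable (fun t : ℝ => Real.log |t - γ|) volume τ (τ + 1) := by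
    have h1 : IntervalIntegrable Real.log volume (τ - γ) (τ + 1 - γ) :=
      intervalIntegral.intervalIntegrable_log'
    have h2 := h1.comp_sub_right γ
    simp only [sub_add_cancel] at h2
    simpa only [Real.log_abs] using h2
  refine ⟨(intervalIntegrable_iff_integrableOn_Ioc_of_le (by linarith)).1 hi, ?_⟩
  rw [← intervalIntegral.integral_of_le (by linarith)]
  simp only [Real.log_abs]
  rw [intervalIntegral.integral_comp_sub_right (fun x => Real.log x) γ, integral_log]
  have h := gh_xlogx (τ - γ)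
  have e : τ - γ + 1 = τ + 1 - γ := by ring
  rw [e] at h
  linarith

theorem gh_int_sum (τ : ℝ) (S : Multiset ℂ) :
    IntegrableOn (fun t : ℝ => (S.map fun ρ => Real.log |t - ρ.im|).sum) (Set.Ioc τ (τ + 1)) ∧
      -2 * (S.card : ℝ) ≤ ∫ t in Set.Ioc τ (τ + 1), (S.map fun ρ => Real.log |t - ρ.im|).sum := by
  induction S using Multiset.induction_on with
  | empty => simp
  | cons ρ S ih =>
    obtain ⟨h1, h2⟩ := gh_int_log τ ρ.im
    simp only [Multiset.map_cons, Multiset.sum_cons, Multiset.card_cons]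
    refine ⟨h1.add ih.1, ?_⟩
    rw [integral_add h1 ih.1]
    push_cast
    linarith [ih.2]

/-- a height at which the polynomial with the given zeros is not small -/
theorem gh_height (τ : ℝ) (S : Multiset ℂ) :
    ∃ t ∈ Set.Icc τ (τ + 1), Real.exp (-(2 * (S.card : ℝ))) ≤
      (S.map fun ρ => |t - ρ.im|).prod := by
  classical
  obtain ⟨h1, h2⟩ := gh_int_sum τ S
  let μ : Measure ℝ := volume.restrict (Set.Ioc τ (τ + 1))
  have hμ1 : μ Set.univ = 1 := by
    simp [μ]
  haveI : IsProbabilityMeasure μ := ⟨hμ1⟩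
  have hN : μ ((Set.Ioc τ (τ + 1))ᶜ ∪ ((S.toFinset.image fun ρ => ρ.im : Finset ℝ) : Set ℝ)) = 0 := by
    rw [measure_union_null_iff]
    constructor
    · exact (ae_iff.1 (ae_restrict_mem measurableSet_Ioc))
    · exact (Finset.finite_toSet _).measure_zero _
  obtain ⟨t, htN, ht⟩ := exists_notMem_null_integral_le h1 hN
  rw [Set.mem_union, not_or, Set.notMem_compl_iff] at htN
  obtain ⟨ht1, ht2⟩ := htN
  refine ⟨t, Set.Ioc_subset_Icc_self ht1, ?_⟩
  have hpos : ∀ ρ ∈ S, 0 < |t - ρ.im| := by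
    intro ρ hρ
    rw [abs_pos, sub_ne_zero]
    intro he
    apply ht2
    rw [Finset.mem_coe, Finset.mem_image]
    exact ⟨ρ, Multiset.mem_toFinset.2 hρ, he.symm⟩
  have hlog : (S.map fun ρ => |t - ρ.im|).prod
      = Real.exp (S.map fun ρ => Real.log |t - ρ.im|).sum := by
    clear ht ht2 h1 h2 hN
    induction S using Multiset.induction_on with
    | empty => simp
    | cons ρ S ih =>
      rw [Multiset.map_cons, Multiset.prod_cons, Multiset.map_cons, Multiset.sum_cons,
        Real.exp_add, Real.exp_log (hpos ρ (Multiset.mem_cons_self _ _)),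
        ih (fun ρ' hρ' => hpos ρ' (Multiset.mem_cons_of_mem hρ'))]
  rw [hlog]
  apply Real.exp_le_exp.2
  have h3 : -2 * (S.card : ℝ) ≤ (S.map fun ρ => Real.log |t - ρ.im|).sum := h2.trans ht
  linarith

theorem gh_prod_le {S : Multiset ℂ} {F G : ℂ → ℝ} (h0 : ∀ ρ ∈ S, 0 ≤ F ρ)
    (h : ∀ ρ ∈ S, F ρ ≤ G ρ) : (S.map F).prod ≤ (S.map G).prod ∧ 0 ≤ (S.map F).prod := by
  induction S using Multiset.induction_on with
  | empty => simp
  | cons ρ S ih =>
    obtain ⟨h1, h2⟩ := ih (fun ρ' hρ' => h0 ρ' (Multiset.mem_cons_of_mem hρ'))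
      (fun ρ' hρ' => h ρ' (Multiset.mem_cons_of_mem hρ'))
    have h3 := h0 ρ (Multiset.mem_cons_self _ _)
    have h4 := h ρ (Multiset.mem_cons_self _ _)
    rw [Multiset.map_cons, Multiset.prod_cons, Multiset.map_cons, Multiset.prod_cons]
    exact ⟨mul_le_mul h4 h1 h2 (h3.trans h4), mul_nonneg h3 h2⟩

theorem gh_norm_prod (S : Multiset ℂ) (z : ℂ) :
    ‖(S.map (fun ρ => z - ρ)).prod‖ = (S.map fun ρ => ‖z - ρ‖).prod := by
  induction S using Multiset.induction_on with
  | empty => simp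
  | cons ρ S ih =>
    rw [Multiset.map_cons, Multiset.prod_cons, Multiset.map_cons, Multiset.prod_cons, norm_mul, ih]

/-- the number of zeros in a disc of radius 4 -/
theorem gh_card {f : ℂ → ℂ} (hf : Differentiable ℂ f) {c : ℂ} {M : ℝ} (hM : 1 ≤ M)
    (hb : ∀ z, ‖z - c‖ ≤ 8 → ‖f z‖ ≤ M) (hc : 1 / 2 ≤ ‖f c‖) {S : Multiset ℂ}
    (hS : ∀ ρ ∈ S, ρ ∈ Metric.closedBall c 4)
    (hcount : ∀ ρ ∈ Metric.closedBall c 4, S.count ρ = (analyticOrderAt f ρ).toNat) :
    (S.card : ℝ) ≤ 5 * Real.log M + 5 := by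
  classical
  have hfc : f c ≠ 0 := by
    intro h
    rw [h, norm_zero] at hc
    norm_num at hc
  have hJ := Pool.Agent.PairCorr.jensen_sum_le (f := f) (c := c) (r := 4) (R := 5)
    (by norm_num) (by norm_num) (fun z _ => hf.analyticAt z) hfc S.toFinset (by
      intro ρ hρ
      have := hS ρ (Multiset.mem_toFinset.1 hρ)
      rwa [Metric.mem_closedBall, dist_eq_norm] at this)
  have hsum : ∑ ρ ∈ S.toFinset, (analyticOrderNatAt f ρ : ℝ) = (S.card : ℝ) := by
    rw [← Multiset.toFinset_sum_count_eq S]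
    push_cast
    apply Finset.sum_congr rfl
    intro ρ hρ
    rw [hcount ρ (hS ρ (Multiset.mem_toFinset.1 hρ))]
    rfl
  rw [hsum] at hJ
  have hlogM : 0 ≤ Real.log M := Real.log_nonneg hM
  have havg : Real.circleAverage (fun z => Real.log ‖f z‖) c 5 ≤ Real.log M := by
    apply Real.circleAverage_mono_on_of_le_circle
    · exact MeromorphicOn.circleIntegrable_log_norm
        (fun z _ => (hf.analyticAt z).meromorphicAt)
    · intro z hz
      rw [mem_sphere_iff_norm, abs_of_pos (by norm_num : (0 : ℝ) < 5)] at hz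
      rcases eq_or_ne (f z) 0 with h | h
      · rw [h, norm_zero, Real.log_zero]
        exact hlogM
      · exact Real.log_le_log (norm_pos_iff.2 h) (hb z (by rw [hz]; norm_num))
  have hlogc : -1 ≤ Real.log ‖f c‖ := by
    have h1 : Real.log (1 / 2) ≤ Real.log ‖f c‖ := Real.log_le_log (by norm_num) hc
    have h2 : Real.log (1 / 2) = - Real.log 2 := by rw [one_div, Real.log_inv]
    have h3 : Real.log 2 ≤ 1 := by
      have := Real.log_two_lt_d9
      linarith
    linarith
  have h54 : (1 : ℝ) / 5 ≤ Real.log (5 / 4) := by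
    have := Real.one_sub_inv_le_log_of_pos (x := 5 / 4) (by norm_num)
    norm_num at this ⊢
    exact this
  have hcard : 0 ≤ (S.card : ℝ) := Nat.cast_nonneg _
  have h5 : (S.card : ℝ) * (1 / 5) ≤ (S.card : ℝ) * Real.log (5 / 4) :=
    mul_le_mul_of_nonneg_left h54 hcard
  linarith

/-- the estimate at one height -/
theorem gh_main {f : ℂ → ℂ} (hf : Differentiable ℂ f) {τ M : ℝ} (hM : 1 ≤ M)
    (hb : ∀ z, ‖z - (3 + ((τ + 1 / 2 : ℝ) : ℂ) * Complex.I)‖ ≤ 8 → ‖f z‖ ≤ M)
    (hc : 1 / 2 ≤ ‖f (3 + ((τ + 1 / 2 : ℝ) : ℂ) * Complex.I)‖) :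
    ∃ t ∈ Set.Icc τ (τ + 1), ∀ σ ∈ Set.Icc (1 / 2 : ℝ) 3,
      Real.exp (-(86 * Real.log M + 93)) ≤ ‖f ((σ : ℂ) + (t : ℂ) * Complex.I)‖ := by
  classical
  set c : ℂ := 3 + ((τ + 1 / 2 : ℝ) : ℂ) * Complex.I with hcdef
  have hfc : f c ≠ 0 := by
    intro h
    rw [h, norm_zero] at hc
    norm_num at hc
  obtain ⟨S, g, hg, hSK, hfac, hg0, hcount⟩ := exists_factor f hf c hfc (Metric.closedBall c 4)
    (isCompact_closedBall c 4)
  have hcard := gh_card hf hM hb hc hSK hcount
  have hlogM : 0 ≤ Real.log M := Real.log_nonneg hM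
  have hMpos : 0 < M := by linarith
  have hnorm : ∀ z, ‖f z‖ = (S.map fun ρ => ‖z - ρ‖).prod * ‖g z‖ := by
    intro z
    rw [hfac z, norm_mul, gh_norm_prod]
  have hSn : ∀ ρ ∈ S, ‖ρ - c‖ ≤ 4 := by
    intro ρ hρ
    have := hSK ρ hρ
    rwa [Metric.mem_closedBall, dist_eq_norm] at this
  -- upper bound of `g`
  have hgM : ∀ z, ‖z - c‖ ≤ 8 → ‖g z‖ ≤ M := by
    intro z hz
    have hfr : ∀ w ∈ frontier (Metric.ball c 8), ‖g w‖ ≤ M := by
      intro w hw
      rw [frontier_ball c (by norm_num), mem_sphere_iff_norm] at hw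
      have h1 : (S.map fun _ => (1 : ℝ)).prod ≤ (S.map fun ρ => ‖w - ρ‖).prod := by
        refine (gh_prod_le (fun _ _ => zero_le_one) ?_).1
        intro ρ hρ
        have h2 : ‖w - c‖ ≤ ‖w - ρ‖ + ‖ρ - c‖ := by
          have : w - c = (w - ρ) + (ρ - c) := by ring
          rw [this]
          exact norm_add_le _ _
        have := hSn ρ hρ
        linarith
      simp only [Multiset.map_const', Multiset.prod_replicate, one_pow] at h1
      have h3 := hb w (by rw [hw])
      rw [hnorm w] at h3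
      have h4 : 0 ≤ ‖g w‖ := norm_nonneg _
      nlinarith
    have hcl : z ∈ closure (Metric.ball c 8) := by
      rw [closure_ball c (by norm_num), Metric.mem_closedBall, dist_eq_norm]
      exact hz
    exact Complex.norm_le_of_forall_mem_frontier_norm_le Metric.isBounded_ball
      (hg.diffContOnCl) hfr hcl
  -- lower bound at the centre
  have hgc0 : g c ≠ 0 := hg0 c (Metric.mem_closedBall_self (by norm_num))
  have hgcpos : 0 < ‖g c‖ := norm_pos_iff.2 hgc0
  have hgclog : -1 - (S.card : ℝ) * 2 ≤ Real.log ‖g c‖ := by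
    have h1 : (S.map fun ρ => ‖c - ρ‖).prod ≤ (S.map fun _ => (4 : ℝ)).prod := by
      refine (gh_prod_le (fun _ _ => norm_nonneg _) ?_).1
      intro ρ hρ
      rw [norm_sub_rev]
      exact hSn ρ hρ
    simp only [Multiset.map_const', Multiset.prod_replicate] at h1
    have h2 : 1 / 2 ≤ (4 : ℝ) ^ S.card * ‖g c‖ := by
      calc (1 : ℝ) / 2 ≤ ‖f c‖ := hc
        _ = (S.map fun ρ => ‖c - ρ‖).prod * ‖g c‖ := hnorm c
        _ ≤ (4 : ℝ) ^ S.card * ‖g c‖ := mul_le_mul_of_nonneg_right h1 (norm_nonneg _)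
    have h3 := Real.log_le_log (by norm_num) h2
    rw [Real.log_mul (by positivity) hgcpos.ne', Real.log_pow, one_div, Real.log_inv] at h3
    have h4 : Real.log 4 ≤ 2 := by
      have : (4 : ℝ) = 2 ^ 2 := by norm_num
      rw [this, Real.log_pow]
      have := Real.log_two_lt_d9
      push_cast
      linarith
    have h5 : Real.log 2 ≤ 1 := by
      have := Real.log_two_lt_d9
      linarith
    have h6 : (S.card : ℝ) * Real.log 4 ≤ (S.card : ℝ) * 2 :=
      mul_le_mul_of_nonneg_left h4 (Nat.cast_nonneg _)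
    linarith
  obtain ⟨t, ht, hprod⟩ := gh_height τ S
  refine ⟨t, ht, fun σ hσ => ?_⟩
  set z : ℂ := (σ : ℂ) + (t : ℂ) * Complex.I with hz
  have hzc : ‖z - c‖ ≤ 3 := by
    have e : z - c = ((σ - 3 : ℝ) : ℂ) + ((t - (τ + 1 / 2) : ℝ) : ℂ) * Complex.I := by
      rw [hz, hcdef]
      push_cast
      ring
    rw [e]
    refine (norm_add_le _ _).trans ?_
    rw [norm_mul, Complex.norm_I, mul_one, Complex.norm_real, Complex.norm_real,
      Real.norm_eq_abs, Real.norm_eq_abs]
    have h1 : |σ - 3| ≤ 5 / 2 := by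
      rw [abs_le]
      constructor <;> linarith [hσ.1, hσ.2]
    have h2 : |t - (τ + 1 / 2)| ≤ 1 / 2 := by
      rw [abs_le]
      constructor <;> linarith [ht.1, ht.2]
    linarith
  have hlow := gh_lower hg hMpos (fun w hw => hgM w (by linarith))
    (fun w hw => hg0 w (by rw [Metric.mem_closedBall, dist_eq_norm]; exact hw)) hzc
  have hprod2 : Real.exp (-(2 * (S.card : ℝ))) ≤ (S.map fun ρ => ‖z - ρ‖).prod := by
    refine hprod.trans (gh_prod_le (fun _ _ => abs_nonneg _) ?_).1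
    intro ρ _
    have h1 := Complex.abs_im_le_norm (z - ρ)
    have h2 : (z - ρ).im = t - ρ.im := by
      rw [hz]
      simp
    rwa [h2] at h1
  rw [hnorm z]
  have h1 : ‖g c‖ = Real.exp (Real.log ‖g c‖) := (Real.exp_log hgcpos).symm
  calc Real.exp (-(86 * Real.log M + 93))
      ≤ Real.exp (-(2 * (S.card : ℝ))) *
        (‖g c‖ * Real.exp (-(6 * (Real.log M - Real.log ‖g c‖ + 1)))) := by
        nth_rewrite 1 [h1]
        rw [← Real.exp_add, ← Real.exp_add]
        apply Real.exp_le_exp.2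
        linarith
    _ ≤ (S.map fun ρ => ‖z - ρ‖).prod * ‖g z‖ :=
        mul_le_mul hprod2 hlow (by positivity) ((Real.exp_pos _).le.trans hprod2)

/-- Good heights. Hypotheses: polynomial growth in a wide strip and `|f(3+it)| ≥ 1/2`.
Proof: in the disc of radius 6 around `3 + i(τ + 1/2)` there are `≤ C log τ` zeros (Jensen);
divide by their polynomial `P`, Borel–Carathéodory for the logarithm of the quotient
gives `|f/P| ≥ e^{-C log τ}` on the disc of radius 4; and
`∫_τ^{τ+1} Σ_ρ log|t - γ| dt ≥ -(1 + log 2) #ρ` gives a height where `|P| ≥ e^{-C log τ}`. -/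
theorem good_height (f : ℂ → ℂ) (hf : Differentiable ℂ f)
    (hp : ∃ C T₀ : ℝ, ∀ s : ℂ, -30 ≤ s.re → s.re ≤ 30 → T₀ ≤ s.im → ‖f s‖ ≤ s.im ^ C)
    (hc : ∃ T₀ : ℝ, ∀ t : ℝ, T₀ ≤ t → 1 / 2 ≤ ‖f (3 + (t : ℂ) * Complex.I)‖) :
    ∃ C T₀ : ℝ, 0 < C ∧ ∀ τ : ℝ, T₀ ≤ τ → ∃ t ∈ Set.Icc τ (τ + 1), ∀ σ ∈ Set.Icc (1 / 2 : ℝ) 3,
      Real.exp (-(C * Real.log τ)) ≤ ‖f ((σ : ℂ) + (t : ℂ) * Complex.I)‖ := by
  obtain ⟨C, T₀, hC⟩ := hp
  obtain ⟨T₁, hT₁⟩ := hc
  refine ⟨86 * (2 * max C 0) + 93, max (max (T₀ + 8) T₁) 9, by positivity, ?_⟩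
  intro τ hτ
  have hτ0 : T₀ + 8 ≤ τ := (le_max_left _ _).trans ((le_max_left _ _).trans hτ)
  have hτ1 : T₁ ≤ τ := (le_max_right _ _).trans ((le_max_left _ _).trans hτ)
  have hτ9 : 9 ≤ τ := (le_max_right _ _).trans hτ
  have hC0 : 0 ≤ max C 0 := le_max_right _ _
  have hM : 1 ≤ (τ + 9) ^ (max C 0) := Real.one_le_rpow (by linarith) hC0
  obtain ⟨t, ht, hmain⟩ := gh_main hf (τ := τ) hM (by
    intro z hz
    have h1 := (Complex.abs_re_le_norm _).trans hz
    have h2 := (Complex.abs_im_le_norm _).trans hz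
    have e1 : (z - (3 + ((τ + 1 / 2 : ℝ) : ℂ) * Complex.I)).re = z.re - 3 := by
      simp
    have e2 : (z - (3 + ((τ + 1 / 2 : ℝ) : ℂ) * Complex.I)).im = z.im - (τ + 1 / 2) := by
      simp
    rw [e1, abs_le] at h1
    rw [e2, abs_le] at h2
    have h3 := hC z (by linarith) (by linarith) (by linarith)
    refine h3.trans ?_
    calc z.im ^ C ≤ z.im ^ (max C 0) :=
          Real.rpow_le_rpow_of_exponent_le (by linarith) (le_max_left _ _)
      _ ≤ (τ + 9) ^ (max C 0) := Real.rpow_le_rpow (by linarith) (by linarith) hC0)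
    (hT₁ _ (by linarith))
  refine ⟨t, ht, fun σ hσ => le_trans ?_ (hmain σ hσ)⟩
  apply Real.exp_le_exp.2
  rw [Real.log_rpow (by linarith)]
  have h1 : Real.log (τ + 9) ≤ 2 * Real.log τ := by
    have h2 : Real.log (τ + 9) ≤ Real.log (τ ^ 2) := Real.log_le_log (by linarith) (by nlinarith)
    rwa [Real.log_pow, Nat.cast_ofNat] at h2
  have h3 : 1 ≤ Real.log τ := by
    rw [Real.le_log_iff_exp_le (by linarith)]
    have := Real.exp_one_lt_d9
    linarith
  have h4 : max C 0 * Real.log (τ + 9) ≤ max C 0 * (2 * Real.log τ) :=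
    mul_le_mul_of_nonneg_left h1 hC0
  nlinarith

end Pool.Agent.RAux
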