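import Mathlib
import Pool.Agent.RAux.Defs
import Pool.Agent.RAux.AFactor
import Pool.Agent.RAux.GoodHeight

/-!
The maximum modulus argument.
-/

set_option autoImplicit false

open Complex MeasureTheory Filter Topology

namespace Pool.Agent.RAux

/-- The bundle of growth conditions on `f`. -/
structure GoodR (f : ℂ → ℂ) : Prop where
  diff : Differentiable ℂ f
  poly : ∃ C T₀ : ℝ, ∀ s : ℂ, -30 ≤ s.re → s.re ≤ 30 → T₀ ≤ s.im → ‖f s‖ ≤ s.im ^ C
  center : ∃ T₀ : ℝ, ∀ t : ℝ, T₀ ≤ t → 1 / 2 ≤ ‖f (3 + (t : ℂ) * Complex.I)‖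
  left : ∃ C T₀ : ℝ, ∀ t : ℝ, T₀ ≤ t → ‖f (-2 + (t : ℂ) * Complex.I)‖ ≤ C * t ^ (3 / 2 : ℝ)

/-- Comparison of norms of products over a multiset. -/
theorem norm_prod_sub_le (S : Multiset ℂ) (w w' : ℂ) (h : ∀ ρ ∈ S, ‖w - ρ‖ ≤ ‖w' - ρ‖) :
    ‖(S.map (fun ρ => w - ρ)).prod‖ ≤ ‖(S.map (fun ρ => w' - ρ)).prod‖ := by
  induction S using Multiset.induction_on with
  | empty => simp
  | cons a s ih =>
    simp only [Multiset.map_cons, Multiset.prod_cons, norm_mul]
    exact mul_le_mul (h a (Multiset.mem_cons_self a s))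
      (ih fun ρ hρ => h ρ (Multiset.mem_cons_of_mem hρ)) (norm_nonneg _) (norm_nonneg _)

theorem norm_prod_sub_eq (S : Multiset ℂ) (w w' : ℂ) (h : ∀ ρ ∈ S, ‖w - ρ‖ = ‖w' - ρ‖) :
    ‖(S.map (fun ρ => w - ρ)).prod‖ = ‖(S.map (fun ρ => w' - ρ)).prod‖ :=
  le_antisymm (norm_prod_sub_le S w w' fun ρ hρ => (h ρ hρ).le)
    (norm_prod_sub_le S w' w fun ρ hρ => (h ρ hρ).ge)

theorem prod_norm_eq_norm_prod (S : Multiset ℂ) (F : ℂ → ℂ) :
    (S.map (fun ρ => ‖F ρ‖)).prod = ‖(S.map (fun ρ => F ρ)).prod‖ := by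
  induction S using Multiset.induction_on with
  | empty => simp
  | cons a s ih =>
    simp only [Multiset.map_cons, Multiset.prod_cons, norm_mul, ih]

/-- The reflected point `1 - conj w` is further away from points right of the critical line. -/
theorem norm_sub_reflect (w ρ : ℂ) (hw : 1 / 2 ≤ w.re) (hρ : 1 / 2 ≤ ρ.re) :
    ‖w - ρ‖ ≤ ‖(1 - (starRingEnd ℂ) w) - ρ‖ := by
  rw [← sq_le_sq₀ (norm_nonneg _) (norm_nonneg _), Complex.sq_norm, Complex.sq_norm,
    Complex.normSq_apply, Complex.normSq_apply]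
  simp only [Complex.sub_re, Complex.sub_im, Complex.one_re, Complex.one_im, Complex.conj_re,
    Complex.conj_im]
  nlinarith [mul_nonneg (sub_nonneg.2 hw) (sub_nonneg.2 hρ)]

theorem eventually_right (C : ℝ) : ∀ᶠ T : ℝ in atTop,
    2 * (C * (4 * T) ^ (3 / 2 : ℝ)) * T ^ (-(15 / 8) : ℝ) ≤ 1 := by
  have h1 : Tendsto (fun T : ℝ => (2 * C * 4 ^ (3 / 2 : ℝ)) * T ^ (-(3 / 8) : ℝ)) atTop (𝓝 0) := by
    have := (tendsto_rpow_neg_atTop (show (0 : ℝ) < 3 / 8 by norm_num)).const_mul
      (2 * C * 4 ^ (3 / 2 : ℝ))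
    simpa using this
  filter_upwards [h1.eventually (eventually_le_nhds (show (0 : ℝ) < 1 by norm_num)),
    eventually_gt_atTop 0] with T hT hT0
  refine le_trans (le_of_eq ?_) hT
  rw [Real.mul_rpow (by norm_num) hT0.le]
  have : T ^ (-(3 / 8) : ℝ) = T ^ (3 / 2 : ℝ) * T ^ (-(15 / 8) : ℝ) := by
    rw [← Real.rpow_add hT0]; norm_num
  rw [this]; ring

theorem eventually_horiz (A : ℝ) : ∀ᶠ T : ℝ in atTop,
    (4 * T) ^ A * Real.exp (1 - T / 4) ≤ 1 := by
  have h1 : Tendsto (fun T : ℝ => (4 ^ A * Real.exp 1) * (T ^ A * Real.exp (-(1 / 4) * T)))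
      atTop (𝓝 0) := by
    have := (tendsto_rpow_mul_exp_neg_mul_atTop_nhds_zero A (1 / 4) (by norm_num)).const_mul
      (4 ^ A * Real.exp 1)
    simpa using this
  filter_upwards [h1.eventually (eventually_le_nhds (show (0 : ℝ) < 1 by norm_num)),
    eventually_gt_atTop 0] with T hT hT0
  refine le_trans (le_of_eq ?_) hT
  rw [Real.mul_rpow (by norm_num) hT0.le, show 1 - T / 4 = 1 + -(1 / 4) * T by ring, Real.exp_add]
  ring

/-- The quotient of the reflected values of the cofactor. -/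
theorem quot_le (f g : ℂ → ℂ) (S : Multiset ℂ) (hS : ∀ ρ ∈ S, 1 / 2 ≤ ρ.re)
    (hfg : ∀ z, f z = (S.map (fun ρ => z - ρ)).prod * g z) (w : ℂ) (hw : 1 / 2 ≤ w.re)
    (hfw : f w ≠ 0) :
    ‖g (1 - (starRingEnd ℂ) w)‖ / ‖g w‖ ≤ ‖f (1 - (starRingEnd ℂ) w)‖ / ‖f w‖ := by
  have hgw : g w ≠ 0 := fun h => hfw (by rw [hfg, h, mul_zero])
  have hg0 : 0 < ‖g w‖ := norm_pos_iff.2 hgw
  have hP := norm_prod_sub_le S w (1 - (starRingEnd ℂ) w)
    (fun ρ hρ => norm_sub_reflect w ρ hw (hS ρ hρ))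
  have hf0 : 0 < ‖f w‖ := norm_pos_iff.2 hfw
  rw [div_le_div_iff₀ hg0 hf0, hfg w, hfg (1 - (starRingEnd ℂ) w), norm_mul, norm_mul]
  nlinarith [mul_le_mul_of_nonneg_right hP
    (mul_nonneg (norm_nonneg (g (1 - (starRingEnd ℂ) w))) (norm_nonneg (g w)))]

/-- The maximum modulus argument on the rectangle `[1/2,3] × [T₁,T₂]`, `T₁ ∈ [T/2,T/2+1]`,
`T₂ ∈ [3T,3T+1]`, for
`Υ(s) = e^{-(3/4) L (s-1/2)} * conj g(1 - conj s) / g(s) * e^{(s-s₁)²/T}`, where `f = ∏(s-ρ) g`
on the rectangle and `L = log T`. On `re s = 1/2` it is `≤ e^{9/T}`, on `re s = 3` it is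
`≤ C T^{-15/8} T^{3/2} e^{9/T} ≤ 1`, on the horizontal sides `≤ T^C e^{-T/16}`. -/
theorem max_ineq (f : ℂ → ℂ) (hf : GoodR f) :
    ∃ T₀ : ℝ, ∀ T : ℝ, T₀ ≤ T → ∃ S : Multiset ℂ,
      (∀ ρ ∈ S, 1 / 2 ≤ ρ.re ∧ ρ.re ≤ 3 ∧ T / 2 ≤ ρ.im ∧ ρ.im ≤ 3 * T + 1) ∧
      ((S.filter (fun ρ : ℂ => 1 / 2 < ρ.re)).card : ℝ) ≤
        zc f {ρ : ℂ | 1 / 2 < ρ.re ∧ ρ.re ≤ 3 ∧ T / 2 ≤ ρ.im ∧ ρ.im ≤ 3 * T + 1} ∧
      ∀ h t : ℝ, 0 < h → h ≤ 1 → T ≤ t → t ≤ 2 * T →
        ‖f ((1 / 2 : ℂ) - (h : ℂ) + (t : ℂ) * Complex.I)‖ *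
          (S.map (fun ρ : ℂ => ‖(1 / 2 : ℂ) + (h : ℂ) + (t : ℂ) * Complex.I - ρ‖)).prod ≤
        Real.exp (9 / T) * Real.exp (3 / 4 * h * Real.log T) *
          ‖f ((1 / 2 : ℂ) + (h : ℂ) + (t : ℂ) * Complex.I)‖ *
          (S.map (fun ρ : ℂ => ‖(1 / 2 : ℂ) + (h : ℂ) + (t : ℂ) * Complex.I -
            (1 - (starRingEnd ℂ) ρ)‖)).prod := by
  classical
  obtain ⟨Cp, Tp, hp⟩ := hf.poly
  obtain ⟨Tc, hc⟩ := hf.center
  obtain ⟨Cl, Tl, hl⟩ := hf.left
  obtain ⟨Cg, Tg, hCg, hg⟩ := good_height f hf.diff hf.poly hf.center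
  obtain ⟨T1, hT1⟩ := eventually_atTop.1 (eventually_right |Cl|)
  obtain ⟨T2, hT2⟩ := eventually_atTop.1 (eventually_horiz (|Cp| + Cg))
  set M : ℝ := max (max (max (2 * |Tp|) (2 * |Tc|)) (max (2 * |Tl|) (2 * |Tg|)))
    (max (max T1 T2) 4) with hM
  refine ⟨M, fun T hT => ?_⟩
  have hTp : Tp ≤ T / 2 := by
    have : 2 * |Tp| ≤ T := le_trans (le_trans (le_trans (le_max_left _ _) (le_max_left _ _))
      (le_max_left _ _)) hT
    linarith [le_abs_self Tp]
  have hTc : Tc ≤ T / 2 := by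
    have : 2 * |Tc| ≤ T := le_trans (le_trans (le_trans (le_max_right _ _) (le_max_left _ _))
      (le_max_left _ _)) hT
    linarith [le_abs_self Tc]
  have hTl : Tl ≤ T / 2 := by
    have : 2 * |Tl| ≤ T := le_trans (le_trans (le_trans (le_max_left _ _) (le_max_right _ _))
      (le_max_left _ _)) hT
    linarith [le_abs_self Tl]
  have hTg : Tg ≤ T / 2 := by
    have : 2 * |Tg| ≤ T := le_trans (le_trans (le_trans (le_max_right _ _) (le_max_right _ _))
      (le_max_left _ _)) hT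
    linarith [le_abs_self Tg]
  have hT1' : T1 ≤ T := le_trans (le_trans (le_trans (le_max_left _ _) (le_max_left _ _))
      (le_max_right _ _)) hT
  have hT2' : T2 ≤ T := le_trans (le_trans (le_trans (le_max_right _ _) (le_max_left _ _))
      (le_max_right _ _)) hT
  have hT4 : (4 : ℝ) ≤ T := le_trans (le_trans (le_max_right _ _) (le_max_right _ _)) hT
  have hTpos : 0 < T := by linarith
  obtain ⟨A, hA, hAg⟩ := hg (T / 2) hTg
  obtain ⟨B, hB, hBg⟩ := hg (3 * T) (by linarith)
  -- the rectangle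
  set K : Set ℂ := Set.Icc (1 / 2 : ℝ) 3 ×ℂ Set.Icc A B with hK
  have hKc : IsCompact K := isCompact_Icc.reProdIm isCompact_Icc
  have hz₀ : f (3 + (T : ℂ) * Complex.I) ≠ 0 := by
    intro h0
    have := hc T (by linarith)
    rw [h0, norm_zero] at this
    linarith
  obtain ⟨S, g, hgd, hSK, hfg, hgK, hcount⟩ := exists_factor f hf.diff _ hz₀ K hKc
  have hmemK : ∀ z : ℂ, z ∈ K ↔ (1 / 2 ≤ z.re ∧ z.re ≤ 3) ∧ (A ≤ z.im ∧ z.im ≤ B) := by
    intro z
    simp only [hK, Complex.mem_reProdIm, Set.mem_Icc]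
  refine ⟨S, ?_, ?_, ?_⟩
  · intro ρ hρ
    have := (hmemK ρ).1 (hSK ρ hρ)
    exact ⟨this.1.1, this.1.2, by linarith [this.2.1, hA.1], by linarith [this.2.2, hB.2]⟩
  · have h1 : (S.filter (fun ρ : ℂ => 1 / 2 < ρ.re)) =
        S.filter (· ∈ {ρ : ℂ | 1 / 2 < ρ.re ∧ ρ ∈ K}) := by
      apply Multiset.filter_congr
      intro ρ hρ
      simp only [Set.mem_ofPred_eq, hSK ρ hρ, and_true]
    rw [h1, card_filter_le_zc f hf.diff _ hz₀ K hKc S hSK hcount _ (fun ρ hρ => hρ.2)]
    apply zc_mono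
    · intro ρ hρ
      have := (hmemK ρ).1 hρ.2
      exact ⟨hρ.1, this.1.2, by linarith [this.2.1, hA.1], by linarith [this.2.2, hB.2]⟩
    · apply zeros_finite f hf.diff _ hz₀
      apply ((Metric.isBounded_Icc (1 / 2 : ℝ) 3).reProdIm
        (Metric.isBounded_Icc (T / 2) (3 * T + 1))).subset
      rintro ρ ⟨h1, h2, h3, h4⟩
      rw [Complex.mem_reProdIm]
      exact ⟨⟨h1.le, h2⟩, ⟨h3, h4⟩⟩
  · intro h t hh hh1 hTt htT
    set s₁ : ℂ := (1 / 2 : ℂ) + (h : ℂ) + (t : ℂ) * Complex.I with hs₁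
    have hs₁re : s₁.re = 1 / 2 + h := by simp [hs₁]
    have hs₁im : s₁.im = t := by simp [hs₁]
    have hrefl : (1 / 2 : ℂ) - (h : ℂ) + (t : ℂ) * Complex.I = 1 - (starRingEnd ℂ) s₁ := by
      apply Complex.ext
      · simp [hs₁]; ring
      · simp [hs₁]
    have hSre : ∀ ρ ∈ S, 1 / 2 ≤ ρ.re := fun ρ hρ => ((hmemK ρ).1 (hSK ρ hρ)).1.1
    -- the main inequality for g
    have key : ‖g (1 - (starRingEnd ℂ) s₁)‖ ≤
        Real.exp (9 / T) * Real.exp (3 / 4 * h * Real.log T) * ‖g s₁‖ := by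
      set G : ℂ → ℂ := fun s => (starRingEnd ℂ) (g (1 - (starRingEnd ℂ) s)) with hG
      set Υ : ℂ → ℂ := fun s => Complex.exp (-((3 / 4 : ℂ) * (Real.log T : ℂ) * (s - 1 / 2))) *
        (G s / g s) * Complex.exp ((s - s₁) ^ 2 / (T : ℂ)) with hΥ
      have hGd : Differentiable ℂ G := by
        intro z
        have hk : DifferentiableAt ℂ (fun u : ℂ => g (1 - u)) ((starRingEnd ℂ) z) := by
          apply DifferentiableAt.comp (𝕜 := ℂ) (g := g) (f := fun u : ℂ => 1 - u)
          · exact hgd _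
          · exact (differentiableAt_const _).sub differentiableAt_id
        have := hk.conj_conj
        rw [Complex.conj_conj] at this
        exact this
      have hΥd : ∀ z ∈ K, DifferentiableAt ℂ Υ z := by
        intro z hz
        have h1 : DifferentiableAt ℂ (fun s : ℂ =>
            Complex.exp (-((3 / 4 : ℂ) * (Real.log T : ℂ) * (s - 1 / 2)))) z := by fun_prop
        have h2 : DifferentiableAt ℂ (fun s : ℂ => Complex.exp ((s - s₁) ^ 2 / (T : ℂ))) z := by
          fun_prop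
        have h3 : DifferentiableAt ℂ (fun s : ℂ => G s / g s) z := (hGd z).div (hgd z) (hgK z hz)
        exact (h1.mul h3).mul h2
      have hnorm : ∀ s : ℂ, ‖Υ s‖ = Real.exp (-(3 / 4 * Real.log T * (s.re - 1 / 2))) *
          (‖g (1 - (starRingEnd ℂ) s)‖ / ‖g s‖) *
          Real.exp (((s.re - s₁.re) ^ 2 - (s.im - s₁.im) ^ 2) / T) := by
        intro s
        simp only [hΥ, hG, norm_mul, norm_div, Complex.norm_exp, RCLike.norm_conj]
        congr 2
        · congr 1
          congr 1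
          simp only [Complex.neg_re, Complex.mul_re, Complex.sub_re, Complex.ofReal_re,
            Complex.ofReal_im, Complex.sub_im, Complex.mul_im]
          norm_num
        · rw [Complex.div_ofReal_re]
          congr 1
          simp [sq, Complex.mul_re]
      have hfront : ∀ z ∈ frontier K, ‖Υ z‖ ≤ Real.exp (9 / T) := by
        intro z hz
        have hzK : z ∈ K := hKc.isClosed.frontier_subset hz
        have hzK' := (hmemK z).1 hzK
        have hAB : A ≤ B := le_trans hzK'.2.1 hzK'.2.2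
        rw [hK, Complex.frontier_reProdIm, closure_Icc, closure_Icc,
          frontier_Icc (by norm_num : (1 / 2 : ℝ) ≤ 3), frontier_Icc hAB] at hz
        have hcase : z.re = 1 / 2 ∨ z.re = 3 ∨ z.im = A ∨ z.im = B := by
          rcases hz with hz | hz
          · have := (Complex.mem_reProdIm.1 hz).2
            simp only [Set.mem_insert_iff, Set.mem_singleton_iff] at this
            tauto
          · have := (Complex.mem_reProdIm.1 hz).1
            simp only [Set.mem_insert_iff, Set.mem_singleton_iff] at this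
            tauto
        have hsq : (z.re - s₁.re) ^ 2 ≤ 25 / 4 := by
          rw [hs₁re]
          have h1 : -(5 / 2) ≤ z.re - (1 / 2 + h) := by linarith [hzK'.1.1]
          have h2 : z.re - (1 / 2 + h) ≤ 5 / 2 := by linarith [hzK'.1.2]
          nlinarith
        have hexp9 : Real.exp (((z.re - s₁.re) ^ 2 - (z.im - s₁.im) ^ 2) / T) ≤
            Real.exp (9 / T) := by
          apply Real.exp_le_exp.2
          apply div_le_div_of_nonneg_right _ hTpos.le
          nlinarith [sq_nonneg (z.im - s₁.im)]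
        have hlogT : 0 ≤ Real.log T := Real.log_nonneg (by linarith)
        have hexp1 : Real.exp (-(3 / 4 * Real.log T * (z.re - 1 / 2))) ≤ 1 := by
          apply Real.exp_le_one_iff.2
          have := mul_nonneg hlogT (sub_nonneg.2 hzK'.1.1)
          linarith
        rw [hnorm]
        rcases hcase with h0 | h0 | h0
        · -- left side
          have hz1 : 1 - (starRingEnd ℂ) z = z := by
            apply Complex.ext
            · simp [h0]; norm_num
            · simp
          rw [hz1]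
          have hgz : ‖g z‖ / ‖g z‖ = 1 := div_self (norm_ne_zero_iff.2 (hgK z hzK))
          rw [hgz, mul_one]
          calc Real.exp (-(3 / 4 * Real.log T * (z.re - 1 / 2))) *
              Real.exp (((z.re - s₁.re) ^ 2 - (z.im - s₁.im) ^ 2) / T)
              ≤ 1 * Real.exp (9 / T) := by gcongr
            _ = Real.exp (9 / T) := one_mul _
        · -- right side
          have hz3 : z = 3 + (z.im : ℂ) * Complex.I := by
            apply Complex.ext
            · simp [h0]
            · simp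
          have hzr : 1 - (starRingEnd ℂ) z = -2 + (z.im : ℂ) * Complex.I := by
            apply Complex.ext
            · simp [h0]; norm_num
            · simp
          have hfz : 1 / 2 ≤ ‖f z‖ := by
            rw [hz3]; exact hc z.im (by linarith [hzK'.2.1, hA.1])
          have hfz0 : f z ≠ 0 := by
            intro h; rw [h, norm_zero] at hfz; linarith
          have hq := quot_le f g S hSre hfg z hzK'.1.1 hfz0
          have hlz : ‖f (1 - (starRingEnd ℂ) z)‖ ≤ |Cl| * (4 * T) ^ (3 / 2 : ℝ) := by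
            rw [hzr]
            refine (hl z.im (by linarith [hzK'.2.1, hA.1])).trans ?_
            have hzim : 0 ≤ z.im := by linarith [hzK'.2.1, hA.1]
            have h4 : z.im ^ (3 / 2 : ℝ) ≤ (4 * T) ^ (3 / 2 : ℝ) :=
              Real.rpow_le_rpow hzim (by linarith [hzK'.2.2, hB.2]) (by norm_num)
            calc Cl * z.im ^ (3 / 2 : ℝ) ≤ |Cl| * z.im ^ (3 / 2 : ℝ) :=
                  mul_le_mul_of_nonneg_right (le_abs_self _) (Real.rpow_nonneg hzim _)
              _ ≤ |Cl| * (4 * T) ^ (3 / 2 : ℝ) := by gcongr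
          have hq2 : ‖f (1 - (starRingEnd ℂ) z)‖ / ‖f z‖ ≤ 2 * (|Cl| * (4 * T) ^ (3 / 2 : ℝ)) := by
            rw [div_le_iff₀ (by linarith)]
            nlinarith [norm_nonneg (f (1 - (starRingEnd ℂ) z))]
          have hE : Real.exp (-(3 / 4 * Real.log T * (z.re - 1 / 2))) = T ^ (-(15 / 8) : ℝ) := by
            rw [h0, Real.rpow_def_of_pos hTpos]
            congr 1; ring
          have hev := hT1 T hT1'
          calc Real.exp (-(3 / 4 * Real.log T * (z.re - 1 / 2))) *
              (‖g (1 - (starRingEnd ℂ) z)‖ / ‖g z‖) *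
              Real.exp (((z.re - s₁.re) ^ 2 - (z.im - s₁.im) ^ 2) / T)
              ≤ T ^ (-(15 / 8) : ℝ) * (2 * (|Cl| * (4 * T) ^ (3 / 2 : ℝ))) *
                Real.exp (9 / T) := by
                rw [hE]
                have := hq.trans hq2
                gcongr
            _ ≤ 1 * Real.exp (9 / T) := by
                apply mul_le_mul_of_nonneg_right _ (Real.exp_pos _).le
                rw [mul_comm]; exact hev
            _ = Real.exp (9 / T) := one_mul _
        · -- horizontal sides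
          have hlow : (4 * T) ^ (-Cg) ≤ ‖f z‖ := by
            have hzz : z = (z.re : ℂ) + (z.im : ℂ) * Complex.I := (Complex.re_add_im z).symm
            have hE : ∀ τ : ℝ, 1 ≤ τ → τ ≤ 4 * T →
                (4 * T) ^ (-Cg) ≤ Real.exp (-(Cg * Real.log τ)) := by
              intro τ hτ1 hτ
              rw [Real.rpow_def_of_pos (by linarith)]
              apply Real.exp_le_exp.2
              have := Real.log_le_log (by linarith) hτ
              nlinarith
            rcases h0 with h0 | h0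
            · have := hAg z.re ⟨hzK'.1.1, hzK'.1.2⟩
              rw [← h0, ← hzz] at this
              exact (hE (T / 2) (by linarith) (by linarith)).trans this
            · have := hBg z.re ⟨hzK'.1.1, hzK'.1.2⟩
              rw [← h0, ← hzz] at this
              exact (hE (3 * T) (by linarith) (by linarith)).trans this
          have h4pos : (0 : ℝ) < (4 * T) ^ (-Cg) := Real.rpow_pos_of_pos (by linarith) _
          have hfz0 : f z ≠ 0 := by
            intro h; rw [h, norm_zero] at hlow; linarith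
          have hq := quot_le f g S hSre hfg z hzK'.1.1 hfz0
          have hzim1 : 1 ≤ z.im := by linarith [hzK'.2.1, hA.1]
          have hzim4 : z.im ≤ 4 * T := by linarith [hzK'.2.2, hB.2]
          have hup : ‖f (1 - (starRingEnd ℂ) z)‖ ≤ (4 * T) ^ |Cp| := by
            have h1 := hp (1 - (starRingEnd ℂ) z)
              (by simp only [Complex.sub_re, Complex.one_re, Complex.conj_re]; linarith [hzK'.1.2])
              (by simp only [Complex.sub_re, Complex.one_re, Complex.conj_re]; linarith [hzK'.1.1])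
              (by simp only [Complex.sub_im, Complex.one_im, Complex.conj_im]
                  linarith [hzK'.2.1, hA.1])
            have h2 : (1 - (starRingEnd ℂ) z).im = z.im := by simp
            rw [h2] at h1
            calc _ ≤ z.im ^ Cp := h1
              _ ≤ z.im ^ |Cp| := Real.rpow_le_rpow_of_exponent_le hzim1 (le_abs_self _)
              _ ≤ (4 * T) ^ |Cp| := Real.rpow_le_rpow (by linarith) hzim4 (abs_nonneg _)
          have hq2 : ‖f (1 - (starRingEnd ℂ) z)‖ / ‖f z‖ ≤ (4 * T) ^ (|Cp| + Cg) := by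
            rw [div_le_iff₀ (norm_pos_iff.2 hfz0)]
            calc ‖f (1 - (starRingEnd ℂ) z)‖ ≤ (4 * T) ^ |Cp| := hup
              _ = (4 * T) ^ (|Cp| + Cg) * (4 * T) ^ (-Cg) := by
                rw [← Real.rpow_add (by linarith)]; congr 1; ring
              _ ≤ (4 * T) ^ (|Cp| + Cg) * ‖f z‖ :=
                mul_le_mul_of_nonneg_left hlow (Real.rpow_nonneg (by linarith) _)
          have hdist : (T / 2 - 1) ^ 2 ≤ (z.im - s₁.im) ^ 2 := by
            rw [hs₁im]
            rcases h0 with h0 | h0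
            · have : T / 2 - 1 ≤ t - z.im := by rw [h0]; linarith [hA.2]
              nlinarith
            · have : T / 2 - 1 ≤ z.im - t := by rw [h0]; linarith [hB.1]
              nlinarith
          have hexpT : Real.exp (((z.re - s₁.re) ^ 2 - (z.im - s₁.im) ^ 2) / T) ≤
              Real.exp (1 - T / 4) * Real.exp (9 / T) := by
            rw [← Real.exp_add]
            apply Real.exp_le_exp.2
            rw [div_le_iff₀ hTpos]
            have h9 : 9 / T * T = 9 := div_mul_cancel₀ _ hTpos.ne'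
            have : (1 - T / 4 + 9 / T) * T = T - T ^ 2 / 4 + 9 := by
              rw [add_mul, h9]; ring
            rw [this]
            nlinarith
          have hev := hT2 T hT2'
          calc Real.exp (-(3 / 4 * Real.log T * (z.re - 1 / 2))) *
              (‖g (1 - (starRingEnd ℂ) z)‖ / ‖g z‖) *
              Real.exp (((z.re - s₁.re) ^ 2 - (z.im - s₁.im) ^ 2) / T)
              ≤ 1 * ((4 * T) ^ (|Cp| + Cg)) * (Real.exp (1 - T / 4) * Real.exp (9 / T)) := by
                have := hq.trans hq2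
                gcongr
            _ = ((4 * T) ^ (|Cp| + Cg) * Real.exp (1 - T / 4)) * Real.exp (9 / T) := by ring
            _ ≤ 1 * Real.exp (9 / T) :=
                mul_le_mul_of_nonneg_right hev (Real.exp_pos _).le
            _ = Real.exp (9 / T) := one_mul _
      have hs₁K : s₁ ∈ K := by
        rw [hmemK, hs₁re, hs₁im]
        exact ⟨⟨by linarith, by linarith⟩, ⟨by linarith [hA.2], by linarith [hB.1]⟩⟩
      have hmax : ‖Υ s₁‖ ≤ Real.exp (9 / T) := by
        apply Complex.norm_le_of_forall_mem_frontier_norm_le hKc.isBounded _ hfront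
          (subset_closure hs₁K)
        refine ⟨fun z hz => (hΥd z hz).differentiableWithinAt, ?_⟩
        rw [hKc.isClosed.closure_eq]
        exact fun z hz => (hΥd z hz).continuousAt.continuousWithinAt
      rw [hnorm] at hmax
      have hg1 : 0 < ‖g s₁‖ := norm_pos_iff.2 (hgK s₁ hs₁K)
      have hz0 : ((s₁.re - s₁.re) ^ 2 - (s₁.im - s₁.im) ^ 2) / T = 0 := by simp
      rw [hz0, Real.exp_zero, mul_one, hs₁re] at hmax
      have hE1 : Real.exp (-(3 / 4 * Real.log T * (1 / 2 + h - 1 / 2))) *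
          Real.exp (3 / 4 * h * Real.log T) = 1 := by
        rw [← Real.exp_add, ← Real.exp_zero]; congr 1; ring
      have hE2 := Real.exp_pos (3 / 4 * h * Real.log T)
      calc ‖g (1 - (starRingEnd ℂ) s₁)‖
          = (Real.exp (-(3 / 4 * Real.log T * (1 / 2 + h - 1 / 2))) *
              Real.exp (3 / 4 * h * Real.log T)) *
              (‖g (1 - (starRingEnd ℂ) s₁)‖ / ‖g s₁‖) * ‖g s₁‖ := by
            rw [hE1, one_mul, div_mul_cancel₀ _ hg1.ne']
        _ = (Real.exp (-(3 / 4 * Real.log T * (1 / 2 + h - 1 / 2))) *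
              (‖g (1 - (starRingEnd ℂ) s₁)‖ / ‖g s₁‖)) *
              (Real.exp (3 / 4 * h * Real.log T) * ‖g s₁‖) := by ring
        _ ≤ Real.exp (9 / T) * (Real.exp (3 / 4 * h * Real.log T) * ‖g s₁‖) := by
            gcongr
        _ = _ := by ring
    rw [hrefl, prod_norm_eq_norm_prod S (fun ρ => s₁ - ρ),
      prod_norm_eq_norm_prod S (fun ρ => s₁ - (1 - (starRingEnd ℂ) ρ)), hfg s₁,
      hfg (1 - (starRingEnd ℂ) s₁), norm_mul, norm_mul]
    have hP : ‖(S.map (fun ρ => s₁ - (1 - (starRingEnd ℂ) ρ))).prod‖ =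
        ‖(S.map (fun ρ => 1 - (starRingEnd ℂ) s₁ - ρ)).prod‖ := by
      rw [← prod_norm_eq_norm_prod, ← prod_norm_eq_norm_prod]
      congr 1
      apply Multiset.map_congr rfl
      intro ρ _
      rw [← RCLike.norm_conj (1 - (starRingEnd ℂ) s₁ - ρ), ← norm_neg]
      congr 1
      simp only [map_sub, map_one, Complex.conj_conj]
      ring
    rw [hP]
    calc ‖(S.map (fun ρ => 1 - (starRingEnd ℂ) s₁ - ρ)).prod‖ * ‖g (1 - (starRingEnd ℂ) s₁)‖ *
          ‖(S.map (fun ρ => s₁ - ρ)).prod‖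
        ≤ ‖(S.map (fun ρ => 1 - (starRingEnd ℂ) s₁ - ρ)).prod‖ *
          (Real.exp (9 / T) * Real.exp (3 / 4 * h * Real.log T) * ‖g s₁‖) *
          ‖(S.map (fun ρ => s₁ - ρ)).prod‖ := by gcongr
      _ = _ := by ring

end Pool.Agent.RAux
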