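import Mathlib
import Pool.Agent.RAux.Defs

/-!
Averaging of majorants.
-/

set_option autoImplicit false

open Complex MeasureTheory Filter Topology

namespace Pool.Agent.RAux

/-- Cauchy–Schwarz for a finite measure. -/
theorem sq_integral_le (ν : Measure ℝ) [IsFiniteMeasure ν] (f : ℝ → ℝ) (hf : Integrable f ν)
    (hf2 : Integrable (fun x => (f x) ^ 2) ν) :
    (∫ x, f x ∂ν) ^ 2 ≤ (∫ x, (f x) ^ 2 ∂ν) * (∫ _x : ℝ, (1 : ℝ) ∂ν) := by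
  have key : ∀ y : ℝ, 0 ≤ (∫ x, (f x) ^ 2 ∂ν) * (y * y) + (-(2 * ∫ x, f x ∂ν)) * y
      + (∫ _x : ℝ, (1 : ℝ) ∂ν) := by
    intro y
    have h0 : 0 ≤ ∫ x, (y * f x - 1) ^ 2 ∂ν := integral_nonneg (fun x => sq_nonneg _)
    have h1 : ∫ x, (y * f x - 1) ^ 2 ∂ν = ∫ x, (y * y * (f x) ^ 2 - 2 * y * f x + 1) ∂ν := by
      congr 1
      funext x
      ring
    have i1 : Integrable (fun x => y * y * (f x) ^ 2) ν := hf2.const_mul _
    have i2 : Integrable (fun x => 2 * y * f x) ν := hf.const_mul _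
    have i3 : Integrable (fun _ : ℝ => (1 : ℝ)) ν := integrable_const _
    have h2 : ∫ x, (y * y * (f x) ^ 2 - 2 * y * f x + 1) ∂ν =
        y * y * (∫ x, (f x) ^ 2 ∂ν) - 2 * y * (∫ x, f x ∂ν) + ∫ _x : ℝ, (1 : ℝ) ∂ν := by
      have a1 := integral_add (f := fun x => y * y * (f x) ^ 2 - 2 * y * f x)
        (g := fun _ => (1 : ℝ)) (i1.sub i2) i3
      have a2 := integral_sub (f := fun x => y * y * (f x) ^ 2) (g := fun x => 2 * y * f x) i1 i2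
      rw [a1, a2, integral_const_mul, integral_const_mul]
    rw [h1, h2] at h0
    linarith
  have := discrim_le_zero key
  unfold discrim at this
  nlinarith

/-- Cauchy–Schwarz: `(∫ g dν)² ≤ ν(ℝ) ∫ g² dν` and `ν(ℝ) ≤ ∫ Δ^J dν`. -/
theorem avg_bound (ν : Measure ℝ) [IsFiniteMeasure ν] (J : ℕ) (h1 : ∀ᵐ Δ ∂ν, 1 ≤ Δ)
    (hJ : Integrable (fun Δ : ℝ => Δ ^ J) ν) (S : Finset ℕ) (hS : ∀ m ∈ S, 1 ≤ m)
    (g : ℝ → ℕ → ℝ) (hg : ∀ m ∈ S, Continuous (fun Δ => g Δ m))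
    (hg0 : ∀ Δ : ℝ, 1 ≤ Δ → ∀ m ∈ S, 0 ≤ g Δ m) (Bd : ℝ)
    (hB : ∀ Δ : ℝ, 1 ≤ Δ → ∑ m ∈ S, (g Δ m) ^ 2 / m ≤ Bd * Δ ^ J)
    (c : ℕ → ℝ) (hc0 : ∀ m ∈ S, 0 ≤ c m) (hc : ∀ m ∈ S, c m ≤ ∫ Δ, g Δ m ∂ν) :
    ∑ m ∈ S, (c m) ^ 2 / m ≤ Bd * (∫ Δ, Δ ^ J ∂ν) ^ 2 := by
  have hBd : 0 ≤ Bd := by
    have := hB 1 le_rfl
    rw [one_pow, mul_one] at this
    refine le_trans (Finset.sum_nonneg fun m _ => ?_) this
    positivity
  -- integrability of the squares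
  have hint2 : ∀ m ∈ S, Integrable (fun Δ => (g Δ m) ^ 2) ν := by
    intro m hm
    have hmpos : (0 : ℝ) < m := by exact_mod_cast hS m hm
    refine Integrable.mono' (hJ.const_mul (m * Bd)) (((hg m hm).pow 2).aestronglyMeasurable) ?_
    filter_upwards [h1] with Δ hΔ
    have hle : (g Δ m) ^ 2 / m ≤ Bd * Δ ^ J := by
      refine le_trans ?_ (hB Δ hΔ)
      exact Finset.single_le_sum (f := fun m : ℕ => (g Δ m) ^ 2 / (m : ℝ))
        (fun i _ => by positivity) hm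
    rw [Real.norm_of_nonneg (sq_nonneg _)]
    rw [div_le_iff₀ hmpos] at hle
    linarith
  have hint1 : ∀ m ∈ S, Integrable (fun Δ => g Δ m) ν := by
    intro m hm
    refine Integrable.mono' ((hint2 m hm).add (integrable_const (1 : ℝ)))
      ((hg m hm).aestronglyMeasurable) ?_
    filter_upwards with Δ
    simp only [Pi.add_apply]
    rw [Real.norm_eq_abs, abs_le]
    constructor <;> nlinarith [sq_nonneg (g Δ m - 1), sq_nonneg (g Δ m + 1)]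
  -- total mass
  have hM0 : 0 ≤ ∫ _x : ℝ, (1 : ℝ) ∂ν := integral_nonneg (fun _ => zero_le_one)
  have hM : ∫ _x : ℝ, (1 : ℝ) ∂ν ≤ ∫ Δ, Δ ^ J ∂ν := by
    refine integral_mono_ae (integrable_const _) hJ ?_
    filter_upwards [h1] with Δ hΔ
    exact one_le_pow₀ hΔ
  have hsum : ∑ m ∈ S, (c m) ^ 2 / m ≤
      (∫ _x : ℝ, (1 : ℝ) ∂ν) * ∫ Δ, ∑ m ∈ S, (g Δ m) ^ 2 / m ∂ν := by
    rw [integral_finsetSum S (fun m hm => (hint2 m hm).div_const _), Finset.mul_sum]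
    refine Finset.sum_le_sum fun m hm => ?_
    have hmpos : (0 : ℝ) < m := by exact_mod_cast hS m hm
    have hI0 : 0 ≤ ∫ Δ, g Δ m ∂ν := le_trans (hc0 m hm) (hc m hm)
    have hcs := sq_integral_le ν (fun Δ => g Δ m) (hint1 m hm) (hint2 m hm)
    have hcc : (c m) ^ 2 ≤ (∫ Δ, g Δ m ∂ν) ^ 2 := pow_le_pow_left₀ (hc0 m hm) (hc m hm) 2
    rw [integral_div, ← mul_div_assoc]
    refine div_le_div_of_nonneg_right ?_ hmpos.le
    calc (c m) ^ 2 ≤ _ := hcc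
      _ ≤ _ := hcs
      _ = _ := by ring
  have hint : ∫ Δ, ∑ m ∈ S, (g Δ m) ^ 2 / m ∂ν ≤ Bd * ∫ Δ, Δ ^ J ∂ν := by
    rw [← integral_const_mul]
    refine integral_mono_ae (integrable_finsetSum S fun m hm => (hint2 m hm).div_const _)
      (hJ.const_mul _) ?_
    filter_upwards [h1] with Δ hΔ
    exact hB Δ hΔ
  have hJ0 : 0 ≤ ∫ Δ, Δ ^ J ∂ν := le_trans hM0 hM
  calc ∑ m ∈ S, (c m) ^ 2 / m ≤ _ := hsum
    _ ≤ (∫ _x : ℝ, (1 : ℝ) ∂ν) * (Bd * ∫ Δ, Δ ^ J ∂ν) := mul_le_mul_of_nonneg_left hint hM0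
    _ ≤ (∫ Δ, Δ ^ J ∂ν) * (Bd * ∫ Δ, Δ ^ J ∂ν) :=
        mul_le_mul_of_nonneg_right hM (mul_nonneg hBd hJ0)
    _ = _ := by ring

end Pool.Agent.RAux
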