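import Mathlib
import Pool.Agent.RAux.Defs

/-!
The integral of the logarithm of a Blaschke factor.
-/

set_option autoImplicit false

open Complex MeasureTheory Filter Topology

namespace Pool.Agent.RAux

/-- the even function `1/2 log ((A² + x²)/(B² + x²))` -/
private noncomputable def bl (A B x : ℝ) : ℝ :=
  1 / 2 * Real.log ((A ^ 2 + x ^ 2) / (B ^ 2 + x ^ 2))

private lemma bl_abs (A B x : ℝ) : bl A B |x| = bl A B x := by
  unfold bl; rw [sq_abs]

private lemma bl_nonneg {A B : ℝ} (hB : 0 ≤ B) (hAB : B ≤ A) (x : ℝ) : 0 ≤ bl A B x := by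
  unfold bl
  apply mul_nonneg (by norm_num)
  by_cases h0 : B ^ 2 + x ^ 2 = 0
  · rw [h0, div_zero, Real.log_zero]
  · apply Real.log_nonneg
    have hpos : 0 < B ^ 2 + x ^ 2 := lt_of_le_of_ne (by positivity) (Ne.symm h0)
    rw [le_div_iff₀ hpos, one_mul]
    nlinarith

private noncomputable def blG (A B x : ℝ) : ℝ :=
  1 / 2 * (x * Real.log (A ^ 2 + x ^ 2)) - 1 / 2 * (x * Real.log (B ^ 2 + x ^ 2))
    + A * Real.arctan (x / A) - B * Real.arctan (x / B)

private lemma hasDeriv_arctan (A x : ℝ) (hx : 0 < x) :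
    HasDerivAt (fun x => A * Real.arctan (x / A)) (A ^ 2 / (A ^ 2 + x ^ 2)) x := by
  by_cases hA : A = 0
  · subst hA
    simp only [div_zero, Real.arctan_zero, mul_zero]
    simpa using hasDerivAt_const x (0 : ℝ)
  · have h1 : HasDerivAt (fun x : ℝ => x / A) (1 / A) x := (hasDerivAt_id x).div_const A
    have h2 := (h1.arctan).const_mul A
    refine HasDerivAt.congr_deriv h2 ?_
    have : (0 : ℝ) < A ^ 2 + x ^ 2 := by positivity
    have hA2 : (0 : ℝ) < A ^ 2 := by positivity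
    have h3 : (0 : ℝ) < 1 + (x / A) ^ 2 := by positivity
    field_simp

private lemma hasDeriv_log (A x : ℝ) (hx : 0 < x) :
    HasDerivAt (fun x => x * Real.log (A ^ 2 + x ^ 2))
      (Real.log (A ^ 2 + x ^ 2) + 2 * (x ^ 2 / (A ^ 2 + x ^ 2))) x := by
  have hpos : (0 : ℝ) < A ^ 2 + x ^ 2 := by positivity
  have h1 : HasDerivAt (fun x : ℝ => A ^ 2 + x ^ 2) (2 * x) x := by
    simpa using ((hasDerivAt_id x).pow 2).const_add (A ^ 2)
  have h2 := (hasDerivAt_id' x).mul (h1.log hpos.ne')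
  refine HasDerivAt.congr_deriv h2 ?_
  field_simp

private lemma hasDeriv_blG (A B x : ℝ) (hA : 0 < A) (hx : 0 < x) :
    HasDerivAt (blG A B) (bl A B x) x := by
  have h := ((((hasDeriv_log A x hx).const_mul (1 / 2)).sub
    ((hasDeriv_log B x hx).const_mul (1 / 2))).add (hasDeriv_arctan A x hx)).sub
    (hasDeriv_arctan B x hx)
  have hpA : (0 : ℝ) < A ^ 2 + x ^ 2 := by positivity
  have hpB : (0 : ℝ) < B ^ 2 + x ^ 2 := by positivity
  refine HasDerivAt.congr_deriv h ?_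
  unfold bl
  rw [Real.log_div hpA.ne' hpB.ne']
  have e1 : A ^ 2 / (A ^ 2 + x ^ 2) = 1 - x ^ 2 / (A ^ 2 + x ^ 2) := by
    field_simp; ring
  have e2 : B ^ 2 / (B ^ 2 + x ^ 2) = 1 - x ^ 2 / (B ^ 2 + x ^ 2) := by
    field_simp; ring
  rw [e1, e2]; ring

private lemma cont_log (A : ℝ) : ContinuousAt (fun x : ℝ => x * Real.log (A ^ 2 + x ^ 2)) 0 := by
  by_cases hA : A = 0
  · subst hA
    have : (fun x : ℝ => x * Real.log ((0 : ℝ) ^ 2 + x ^ 2)) = fun x => 2 * (x * Real.log x) := by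
      funext x
      have : (0 : ℝ) ^ 2 + x ^ 2 = x ^ 2 := by ring
      rw [this, Real.log_pow]; push_cast; ring
    rw [this]
    exact (Real.continuous_mul_log.const_mul 2).continuousAt
  · have hA2 : (0 : ℝ) < A ^ 2 := by positivity
    have : ContinuousAt (fun x : ℝ => Real.log (A ^ 2 + x ^ 2)) 0 := by
      apply ContinuousAt.log
      · fun_prop
      · simp [hA]
    exact continuousAt_id.mul this

private lemma cont_blG (A B : ℝ) : ContinuousAt (blG A B) 0 := by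
  unfold blG
  have ha : ∀ A : ℝ, ContinuousAt (fun x : ℝ => A * Real.arctan (x / A)) 0 := by
    intro A
    have : Continuous (fun x : ℝ => A * Real.arctan (x / A)) :=
      continuous_const.mul (Real.continuous_arctan.comp (continuous_id.div_const A))
    exact this.continuousAt
  exact (((continuousAt_const.mul (cont_log A)).sub (continuousAt_const.mul (cont_log B))).add
    (ha A)).sub (ha B)

private lemma tendsto_arctan (A : ℝ) (hA : 0 ≤ A) :
    Tendsto (fun x : ℝ => A * Real.arctan (x / A)) atTop (𝓝 (A * (Real.pi / 2))) := by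
  rcases hA.eq_or_lt with rfl | hA
  · simp
  · apply Tendsto.const_mul
    have h1 : Tendsto (fun x : ℝ => x / A) atTop atTop := tendsto_id.atTop_div_const hA
    exact (tendsto_nhds_of_tendsto_nhdsWithin Real.tendsto_arctan_atTop).comp h1

private lemma tendsto_log {A B : ℝ} (hA : 0 < A) (hB : 0 ≤ B) (hAB : B ≤ A) :
    Tendsto (fun x : ℝ => 1 / 2 * (x * Real.log (A ^ 2 + x ^ 2)) -
      1 / 2 * (x * Real.log (B ^ 2 + x ^ 2))) atTop (𝓝 0) := by
  have hup : Tendsto (fun x : ℝ => (A ^ 2 - B ^ 2) / 2 * x⁻¹) atTop (𝓝 0) := by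
    have h := (tendsto_inv_atTop_zero (𝕜 := ℝ)).const_mul ((A ^ 2 - B ^ 2) / 2)
    rw [mul_zero] at h
    exact h
  refine tendsto_of_tendsto_of_tendsto_of_le_of_le' tendsto_const_nhds hup ?_ ?_
  · filter_upwards [eventually_gt_atTop 0] with x hx
    have hpB : (0 : ℝ) < B ^ 2 + x ^ 2 := by positivity
    have : Real.log (B ^ 2 + x ^ 2) ≤ Real.log (A ^ 2 + x ^ 2) := by
      apply Real.log_le_log hpB
      nlinarith
    nlinarith
  · filter_upwards [eventually_gt_atTop 0] with x hx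
    have hpA : (0 : ℝ) < A ^ 2 + x ^ 2 := by positivity
    have hpB : (0 : ℝ) < B ^ 2 + x ^ 2 := by positivity
    have h1 : Real.log (A ^ 2 + x ^ 2) - Real.log (B ^ 2 + x ^ 2) ≤
        (A ^ 2 + x ^ 2) / (B ^ 2 + x ^ 2) - 1 := by
      rw [← Real.log_div hpA.ne' hpB.ne']
      exact Real.log_le_sub_one_of_pos (div_pos hpA hpB)
    have h2 : (A ^ 2 + x ^ 2) / (B ^ 2 + x ^ 2) - 1 = (A ^ 2 - B ^ 2) / (B ^ 2 + x ^ 2) := by
      field_simp; ring
    have h3 : (A ^ 2 - B ^ 2) / (B ^ 2 + x ^ 2) ≤ (A ^ 2 - B ^ 2) / x ^ 2 := by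
      apply div_le_div_of_nonneg_left
      · nlinarith
      · positivity
      · nlinarith [sq_nonneg B]
    have h4 : x * ((A ^ 2 - B ^ 2) / x ^ 2) = (A ^ 2 - B ^ 2) * x⁻¹ := by
      field_simp
    have h5 := mul_le_mul_of_nonneg_left (h1.trans (h2.le.trans h3)) hx.le
    rw [h4] at h5
    nlinarith

private lemma bl_int {A B : ℝ} (hA : 0 < A) (hB : 0 ≤ B) (hAB : B ≤ A) :
    Integrable (bl A B) ∧ ∫ x, bl A B x = Real.pi * (A - B) := by
  have hlim : Tendsto (blG A B) atTop (𝓝 (0 + A * (Real.pi / 2) - B * (Real.pi / 2))) := by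
    unfold blG
    exact ((tendsto_log hA hB hAB).add (tendsto_arctan A hA.le)).sub (tendsto_arctan B hB)
  have hcont : ContinuousWithinAt (blG A B) (Set.Ici 0) 0 := (cont_blG A B).continuousWithinAt
  have hder : ∀ x ∈ Set.Ioi (0 : ℝ), HasDerivAt (blG A B) (bl A B x) x :=
    fun x hx => hasDeriv_blG A B x hA hx
  have hpos : ∀ x ∈ Set.Ioi (0 : ℝ), 0 ≤ bl A B x := fun x _ => bl_nonneg hB hAB x
  have hI := integrableOn_Ioi_deriv_of_nonneg hcont hder hpos hlim
  have hJ := integral_Ioi_of_hasDerivAt_of_nonneg hcont hder hpos hlim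
  have h0 : blG A B 0 = 0 := by unfold blG; simp
  have hIic : IntegrableOn (bl A B) (Set.Iic 0) := by
    rw [← Measure.map_neg_eq_self (volume : Measure ℝ)]
    let m : MeasurableEmbedding fun x : ℝ => -x := (Homeomorph.neg ℝ).measurableEmbedding
    rw [m.integrableOn_map_iff]
    have : (bl A B) ∘ (fun x : ℝ => -x) = bl A B := by
      funext x
      simp only [Function.comp]
      rw [← bl_abs A B (-x), abs_neg, bl_abs]
    rw [this]
    simp only [Set.neg_preimage, Set.neg_Iic, neg_zero]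
    exact Iff.mpr integrableOn_Ici_iff_integrableOn_Ioi hI
  constructor
  · rw [← integrableOn_univ, ← Set.Iic_union_Ioi (a := (0 : ℝ))]
    exact hIic.union hI
  · have e : ∫ x, bl A B x = ∫ x, bl A B |x| := by
      congr 1; funext x; rw [bl_abs]
    rw [e, integral_comp_abs, hJ, h0]; ring

/-- `∫_ℝ log (|s - (1 - conj ρ)| / |s - ρ|) dt ≤ 2π h` on the line `re s = 1/2 + h`. -/
theorem log_blaschke (h : ℝ) (hh : 0 < h) (ρ : ℂ) (hρ : 1 / 2 ≤ ρ.re) :
    (∀ t : ℝ, 0 ≤ Real.log (‖(1 / 2 : ℂ) + (h : ℂ) + (t : ℂ) * Complex.I -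
      (1 - (starRingEnd ℂ) ρ)‖ / ‖(1 / 2 : ℂ) + (h : ℂ) + (t : ℂ) * Complex.I - ρ‖)) ∧
    Integrable (fun t : ℝ => Real.log (‖(1 / 2 : ℂ) + (h : ℂ) + (t : ℂ) * Complex.I -
      (1 - (starRingEnd ℂ) ρ)‖ / ‖(1 / 2 : ℂ) + (h : ℂ) + (t : ℂ) * Complex.I - ρ‖)) ∧
    ∫ t : ℝ, Real.log (‖(1 / 2 : ℂ) + (h : ℂ) + (t : ℂ) * Complex.I -
      (1 - (starRingEnd ℂ) ρ)‖ / ‖(1 / 2 : ℂ) + (h : ℂ) + (t : ℂ) * Complex.I - ρ‖)
      ≤ 2 * Real.pi * h := by
  set b : ℝ := ρ.re - 1 / 2 with hb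
  have hb0 : 0 ≤ b := by rw [hb]; linarith
  have key : ∀ t : ℝ, Real.log (‖(1 / 2 : ℂ) + (h : ℂ) + (t : ℂ) * Complex.I -
      (1 - (starRingEnd ℂ) ρ)‖ / ‖(1 / 2 : ℂ) + (h : ℂ) + (t : ℂ) * Complex.I - ρ‖) =
      bl (h + b) |h - b| (t - ρ.im) := by
    intro t
    have n1 : ‖(1 / 2 : ℂ) + (h : ℂ) + (t : ℂ) * Complex.I - (1 - (starRingEnd ℂ) ρ)‖ ^ 2 =
        (h + b) ^ 2 + (t - ρ.im) ^ 2 := by
      rw [Complex.sq_norm, Complex.normSq_apply]
      simp [hb]
      ring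
    have n2 : ‖(1 / 2 : ℂ) + (h : ℂ) + (t : ℂ) * Complex.I - ρ‖ ^ 2 =
        |h - b| ^ 2 + (t - ρ.im) ^ 2 := by
      rw [Complex.sq_norm, Complex.normSq_apply, sq_abs]
      simp [hb]
      ring
    unfold bl
    rw [← n1, ← n2, ← div_pow, Real.log_pow]
    push_cast; ring
  have hle : |h - b| ≤ h + b := abs_le.2 ⟨by linarith, by linarith⟩
  have hA : 0 < h + b := by linarith
  have hB : 0 ≤ |h - b| := abs_nonneg _
  obtain ⟨hi, hv⟩ := bl_int hA hB hle
  simp only [key]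
  refine ⟨fun t => bl_nonneg hB hle _, ?_, ?_⟩
  · exact hi.comp_sub_right ρ.im
  · rw [integral_sub_right_eq_self (fun x => bl (h + b) |h - b| x) ρ.im, hv]
    have : h + b - |h - b| ≤ 2 * h := by
      have := neg_abs_le (h - b)
      linarith
    nlinarith [Real.pi_pos]

end Pool.Agent.RAux
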