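import Mathlib
import Pool.Agent.RAux.Defs
import Pool.Agent.RAux.AMax
import Pool.Agent.RAux.Blaschke

/-!
The measure of the bad set.
-/

set_option autoImplicit false

open Complex MeasureTheory Filter Topology

namespace Pool.Agent.RAux

/-- The logarithm of a Blaschke factor. -/
private noncomputable def lbF (h : ℝ) (ρ : ℂ) (t : ℝ) : ℝ :=
  Real.log (‖(1 / 2 : ℂ) + (h : ℂ) + (t : ℂ) * Complex.I -
      (1 - (starRingEnd ℂ) ρ)‖ / ‖(1 / 2 : ℂ) + (h : ℂ) + (t : ℂ) * Complex.I - ρ‖)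

private lemma sum_lbF (h : ℝ) (hh : 0 < h) (S : Multiset ℂ) :
    (∀ ρ ∈ S, 1 / 2 ≤ ρ.re) →
    (∀ t : ℝ, 0 ≤ (S.map (fun ρ => lbF h ρ t)).sum) ∧
    Integrable (fun t : ℝ => (S.map (fun ρ => lbF h ρ t)).sum) ∧
    ∫ t : ℝ, (S.map (fun ρ => lbF h ρ t)).sum ≤ 2 * Real.pi * h * S.card := by
  induction S using Multiset.induction_on with
  | empty =>
    intro _
    refine ⟨fun t => by simp, by simp, by simp⟩
  | cons a S ih =>
    intro hS
    obtain ⟨i1, i2, i3⟩ := ih (fun ρ hρ => hS ρ (Multiset.mem_cons_of_mem hρ))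
    obtain ⟨j1, j2, j3⟩ := log_blaschke h hh a (hS a (Multiset.mem_cons_self a S))
    simp only [Multiset.map_cons, Multiset.sum_cons, Multiset.card_cons]
    refine ⟨fun t => add_nonneg (j1 t) (i1 t), ?_, ?_⟩
    · exact Integrable.add j2 i2
    · rw [integral_add (f := fun t => lbF h a t) j2 i2]
      push_cast
      have : ∫ t : ℝ, lbF h a t ≤ 2 * Real.pi * h := j3
      nlinarith

private lemma prod_lbF (h : ℝ) (hh : 0 < h) (t : ℝ) (S : Multiset ℂ) :
    (∀ ρ ∈ S, 1 / 2 ≤ ρ.re) →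
    (∀ ρ ∈ S, ‖(1 / 2 : ℂ) + (h : ℂ) + (t : ℂ) * Complex.I - ρ‖ ≠ 0) →
    (S.map (fun ρ : ℂ => ‖(1 / 2 : ℂ) + (h : ℂ) + (t : ℂ) * Complex.I -
            (1 - (starRingEnd ℂ) ρ)‖)).prod =
      Real.exp (((S.filter (fun ρ : ℂ => 1 / 2 < ρ.re)).map (fun ρ => lbF h ρ t)).sum) *
      (S.map (fun ρ : ℂ => ‖(1 / 2 : ℂ) + (h : ℂ) + (t : ℂ) * Complex.I - ρ‖)).prod := by
  induction S using Multiset.induction_on with
  | empty => intro _ _; simp
  | cons a S ih =>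
    intro hS hS'
    have IH := ih (fun ρ hρ => hS ρ (Multiset.mem_cons_of_mem hρ))
      (fun ρ hρ => hS' ρ (Multiset.mem_cons_of_mem hρ))
    have ha := hS a (Multiset.mem_cons_self a S)
    have ha' := hS' a (Multiset.mem_cons_self a S)
    rw [Multiset.map_cons, Multiset.prod_cons, Multiset.map_cons, Multiset.prod_cons, IH]
    by_cases hlt : 1 / 2 < a.re
    · rw [Multiset.filter_cons_of_pos (p := fun ρ : ℂ => 1 / 2 < ρ.re) _ hlt, Multiset.map_cons, Multiset.sum_cons, Real.exp_add]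
      have hne : ‖(1 / 2 : ℂ) + (h : ℂ) + (t : ℂ) * Complex.I - (1 - (starRingEnd ℂ) a)‖ ≠ 0 := by
        intro h0
        rw [norm_eq_zero] at h0
        have := congrArg Complex.re h0
        simp at this
        norm_num at this
        linarith
      have hexp : Real.exp (lbF h a t) = ‖(1 / 2 : ℂ) + (h : ℂ) + (t : ℂ) * Complex.I -
          (1 - (starRingEnd ℂ) a)‖ / ‖(1 / 2 : ℂ) + (h : ℂ) + (t : ℂ) * Complex.I - a‖ := by
        unfold lbF
        rw [Real.exp_log]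
        exact div_pos (lt_of_le_of_ne (norm_nonneg _) (Ne.symm hne))
          (lt_of_le_of_ne (norm_nonneg _) (Ne.symm ha'))
      rw [hexp]
      have aux : ∀ x y e p : ℝ, y ≠ 0 → x * (e * p) = x / y * e * (y * p) := by
        intro x y e p hy
        field_simp
      exact aux _ _ _ _ ha'
    · rw [Multiset.filter_cons_of_neg (p := fun ρ : ℂ => 1 / 2 < ρ.re) _ hlt]
      have hre : a.re = 1 / 2 := le_antisymm (not_lt.mp hlt) ha
      have : (1 - (starRingEnd ℂ) a) = a := by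
        apply Complex.ext
        · simp [hre]; norm_num
        · simp
      rw [this]
      ring

/-- The measure of the set where `|B| > (3/2) e^{-b/4}`. -/
theorem bad_measure (f : ℂ → ℂ) (hf : GoodR f) (b : ℝ) (hb : 0 < b) :
    ∃ C T₀ : ℝ, 0 < C ∧ ∀ T : ℝ, T₀ ≤ T →
      volume {t : ℝ | t ∈ Set.Icc T (2 * T) ∧
        3 / 2 * Real.exp (3 / 4 * b) *
          ‖f ((1 / 2 : ℂ) + ((b / Real.log T : ℝ) : ℂ) + (t : ℂ) * Complex.I)‖ <
        ‖f ((1 / 2 : ℂ) - ((b / Real.log T : ℝ) : ℂ) + (t : ℂ) * Complex.I)‖} ≤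
      ENNReal.ofReal (C / Real.log T *
        zc f {ρ : ℂ | 1 / 2 < ρ.re ∧ ρ.re ≤ 3 ∧ T / 2 ≤ ρ.im ∧ ρ.im ≤ 3 * T + 1}) := by
  obtain ⟨T₁, hT₁⟩ := max_ineq f hf
  refine ⟨8 * Real.pi * b, max T₁ (max 90 (Real.exp b)), by positivity, fun T hT => ?_⟩
  have hT1 : T₁ ≤ T := (le_max_left _ _).trans hT
  have hT2 : 90 ≤ T := ((le_max_left _ _).trans (le_max_right _ _)).trans hT
  have hT3 : Real.exp b ≤ T := ((le_max_right _ _).trans (le_max_right _ _)).trans hT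
  have hTpos : 0 < T := by linarith
  have hlogb : b ≤ Real.log T := (Real.le_log_iff_exp_le hTpos).mpr hT3
  have hlog : 0 < Real.log T := by linarith
  obtain ⟨S, hS1, hS2, hS3⟩ := hT₁ T hT1
  set h : ℝ := b / Real.log T with hh
  have hh0 : 0 < h := div_pos hb hlog
  have hh1 : h ≤ 1 := (div_le_one hlog).mpr hlogb
  have hhb : h * Real.log T = b := div_mul_cancel₀ _ hlog.ne'
  set S' := S.filter (fun ρ : ℂ => 1 / 2 < ρ.re) with hS'
  set G : ℝ → ℝ := fun t => (S'.map (fun ρ => lbF h ρ t)).sum with hG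
  obtain ⟨g1, g2, g3⟩ := sum_lbF h hh0 S' (fun ρ hρ => by
    rw [hS', Multiset.mem_filter] at hρ
    exact hρ.2.le)
  set Z := zc f {ρ : ℂ | 1 / 2 < ρ.re ∧ ρ.re ≤ 3 ∧ T / 2 ≤ ρ.im ∧ ρ.im ≤ 3 * T + 1} with hZ
  have hint : ∫ t, G t ≤ 2 * Real.pi * h * Z := by
    refine g3.trans ?_
    exact mul_le_mul_of_nonneg_left hS2 (by positivity)
  -- the exceptional finite set
  set E : Set ℝ := (fun ρ : ℂ => ρ.im) '' {ρ | ρ ∈ S} with hE
  have hEfin : E.Finite := by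
    refine Set.Finite.image _ ?_
    have : {ρ | ρ ∈ S} = (S.toFinset : Set ℂ) := by ext; simp
    rw [this]
    exact S.toFinset.finite_toSet
  have hsub : {t : ℝ | t ∈ Set.Icc T (2 * T) ∧
        3 / 2 * Real.exp (3 / 4 * b) *
          ‖f ((1 / 2 : ℂ) + (h : ℂ) + (t : ℂ) * Complex.I)‖ <
        ‖f ((1 / 2 : ℂ) - (h : ℂ) + (t : ℂ) * Complex.I)‖} ⊆
      {t | (1 / 4 : ℝ) ≤ G t} ∪ E := by
    rintro t ⟨⟨ht1, ht2⟩, ht3⟩
    by_cases htE : t ∈ E
    · exact Or.inr htE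
    left
    have hne : ∀ ρ ∈ S, ‖(1 / 2 : ℂ) + (h : ℂ) + (t : ℂ) * Complex.I - ρ‖ ≠ 0 := by
      intro ρ hρ h0
      rw [norm_eq_zero] at h0
      apply htE
      refine ⟨ρ, hρ, ?_⟩
      have := congrArg Complex.im h0
      simp at this
      simp only
      linarith
    have hP : 0 < (S.map (fun ρ : ℂ =>
        ‖(1 / 2 : ℂ) + (h : ℂ) + (t : ℂ) * Complex.I - ρ‖)).prod := by
      refine lt_of_le_of_ne (Multiset.prod_nonneg ?_) (Ne.symm ?_)
      · intro x hx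
        rw [Multiset.mem_map] at hx
        obtain ⟨ρ, _, rfl⟩ := hx
        exact norm_nonneg _
      · intro h0
        rw [Multiset.prod_eq_zero_iff, Multiset.mem_map] at h0
        obtain ⟨ρ, hρ, h1⟩ := h0
        exact hne ρ hρ h1
    have hm := hS3 h t hh0 hh1 ht1 ht2
    rw [prod_lbF h hh0 t S (fun ρ hρ => (hS1 ρ hρ).1) hne] at hm
    have hm2 : ‖f ((1 / 2 : ℂ) - (h : ℂ) + (t : ℂ) * Complex.I)‖ ≤
        Real.exp (9 / T) * Real.exp (3 / 4 * b) *
          ‖f ((1 / 2 : ℂ) + (h : ℂ) + (t : ℂ) * Complex.I)‖ * Real.exp (G t) := by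
      have e1 : 3 / 4 * h * Real.log T = 3 / 4 * b := by rw [mul_assoc, hhb]
      rw [e1] at hm
      have hm' : ‖f ((1 / 2 : ℂ) - (h : ℂ) + (t : ℂ) * Complex.I)‖ * (S.map (fun ρ : ℂ =>
        ‖(1 / 2 : ℂ) + (h : ℂ) + (t : ℂ) * Complex.I - ρ‖)).prod ≤
        (Real.exp (9 / T) * Real.exp (3 / 4 * b) *
          ‖f ((1 / 2 : ℂ) + (h : ℂ) + (t : ℂ) * Complex.I)‖ * Real.exp (G t)) * (S.map (fun ρ : ℂ =>
        ‖(1 / 2 : ℂ) + (h : ℂ) + (t : ℂ) * Complex.I - ρ‖)).prod := by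
        refine hm.trans (le_of_eq ?_)
        ring
      exact le_of_mul_le_mul_right hm' hP
    have hm3 := ht3.trans_le hm2
    have hfpos : 0 < ‖f ((1 / 2 : ℂ) + (h : ℂ) + (t : ℂ) * Complex.I)‖ := by
      rcases lt_or_eq_of_le (norm_nonneg (f ((1 / 2 : ℂ) + (h : ℂ) + (t : ℂ) * Complex.I)))
        with h1 | h1
      · exact h1
      · rw [← h1] at hm3
        simp at hm3
    have hm4 : 3 / 2 < Real.exp (9 / T) * Real.exp (G t) := by
      have hpos : 0 < Real.exp (3 / 4 * b) * ‖f ((1 / 2 : ℂ) + (h : ℂ) + (t : ℂ) * Complex.I)‖ :=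
        mul_pos (Real.exp_pos _) hfpos
      refine lt_of_mul_lt_mul_right ?_ hpos.le
      calc 3 / 2 * (Real.exp (3 / 4 * b) * ‖f ((1 / 2 : ℂ) + (h : ℂ) + (t : ℂ) * Complex.I)‖)
          = 3 / 2 * Real.exp (3 / 4 * b) *
            ‖f ((1 / 2 : ℂ) + (h : ℂ) + (t : ℂ) * Complex.I)‖ := by ring
        _ < _ := hm3
        _ = _ := by ring
    rw [← Real.exp_add] at hm4
    have h9 : 9 / T ≤ 1 / 10 := by
      rw [div_le_div_iff₀ hTpos (by norm_num)]; linarith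
    have hexp : Real.exp (7 / 20) ≤ 3 / 2 := by
      have := Real.exp_bound' (x := 7 / 20) (by norm_num) (by norm_num) (n := 4) (by norm_num)
      refine this.trans ?_
      norm_num [Finset.sum_range_succ, Nat.factorial]
    have h5 : Real.exp (7 / 20) < Real.exp (9 / T + G t) := lt_of_le_of_lt hexp hm4
    have h6 := Real.exp_lt_exp.mp h5
    show (1 / 4 : ℝ) ≤ G t
    linarith
  refine (measure_mono hsub).trans ((measure_union_le _ _).trans ?_)
  rw [hEfin.measure_zero volume, add_zero]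
  have hmark := mul_meas_ge_le_integral_of_nonneg (μ := (volume : Measure ℝ))
    (Eventually.of_forall g1) g2 (1 / 4)
  have hreal : (volume : Measure ℝ).real {t | (1 / 4 : ℝ) ≤ G t} ≤
      8 * Real.pi * b / Real.log T * Z := by
    have e : 8 * Real.pi * b / Real.log T * Z = 4 * (2 * Real.pi * h * Z) := by
      rw [hh]; ring
    rw [e]
    have : (1 / 4 : ℝ) * (volume : Measure ℝ).real {t | (1 / 4 : ℝ) ≤ G t} ≤
        2 * Real.pi * h * Z := hmark.trans hint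
    linarith
  have hfin : volume {t | (1 / 4 : ℝ) ≤ G t} ≠ ⊤ := by
    have := g2.measure_ge_lt_top (show (0 : ℝ) < 1 / 4 by norm_num)
    exact this.ne
  rw [← ENNReal.ofReal_toReal hfin]
  exact ENNReal.ofReal_le_ofReal hreal

end Pool.Agent.RAux
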