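import Mathlib
import Pool.Agent.RAux.Defs

/-!
The algebraic step: if all `V_j` are dominated by `U_j`, then `D` is dominated by the `G_ν`.
-/

set_option autoImplicit false

open Complex MeasureTheory Filter Topology

namespace Pool.Agent.RAux

/-- A linear functional is bounded on linear combinations. -/
theorem la_bound {ι : Type*} (s : Finset ℕ) (y : ℕ → ℝ) (x : ℕ → ℂ) (J : Finset ι) (c : ι → ℝ)
    (g : ι → ℝ → ℝ) (f : ℝ → ℝ) (h : ∀ n ∈ s, f (y n) = ∑ j ∈ J, c j * g j (y n)) :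
    ‖∑ n ∈ s, ((f (y n) : ℝ) : ℂ) * x n‖ ≤
      ∑ j ∈ J, |c j| * ‖∑ n ∈ s, ((g j (y n) : ℝ) : ℂ) * x n‖ := by
  have h1 : ∑ n ∈ s, ((f (y n) : ℝ) : ℂ) * x n =
      ∑ j ∈ J, ((c j : ℝ) : ℂ) * ∑ n ∈ s, ((g j (y n) : ℝ) : ℂ) * x n := by
    simp_rw [Finset.mul_sum]
    rw [Finset.sum_comm]
    refine Finset.sum_congr rfl fun n hn => ?_
    rw [h n hn]
    push_cast
    rw [Finset.sum_mul]
    refine Finset.sum_congr rfl fun j _ => ?_
    ring
  rw [h1]
  refine (norm_sum_le _ _).trans (Finset.sum_le_sum fun j _ => ?_)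
  rw [norm_mul, Complex.norm_real, Real.norm_eq_abs]

/-- The binomial expansion of `u^(-i)`. -/
theorem la_expand (i K' : ℕ) (a t : ℝ) (ht : 0 ≤ t) :
    Real.exp (i * a * t) =
      (∑ ν ∈ Finset.range (i + 1), ((K' + i).choose (i - ν) : ℝ) * psi a ν (K' + ν) t) +
      ∑ m ∈ Finset.range K', ((K' + i).choose (i + 1 + m) : ℝ) *
        (Real.exp (-((m + 1 : ℕ) * a * t)) * (1 - Real.exp (-(a * t))) ^ (K' - (m + 1))) := by
  set u : ℝ := Real.exp (-(a * t)) with hu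
  set v : ℝ := Real.exp (a * t) with hv
  have huv : v * u = 1 := by
    rw [hu, hv, ← Real.exp_add]; simp
  have e1 : Real.exp (i * a * t) = v ^ i := by
    rw [hv, ← Real.exp_nat_mul]; ring_nf
  have e2 : ∀ m : ℕ, Real.exp (-(m * a * t)) = u ^ m := by
    intro m
    rw [hu, ← Real.exp_nat_mul]; ring_nf
  have e3 : ∀ ν : ℕ, psi a ν (K' + ν) t = v ^ ν * (1 - u) ^ (K' + ν) := by
    intro ν
    unfold psi
    rw [if_pos ht, hv, hu, ← Real.exp_nat_mul, ← mul_assoc]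
  rw [e1]
  simp_rw [e3, e2]
  have hb : (1 : ℝ) = (∑ j ∈ Finset.range (i + 1), u ^ j * (1 - u) ^ (K' + i - j) *
      ((K' + i).choose j : ℝ)) + ∑ m ∈ Finset.range K', u ^ (i + 1 + m) *
      (1 - u) ^ (K' + i - (i + 1 + m)) * ((K' + i).choose (i + 1 + m) : ℝ) := by
    have := add_pow u (1 - u) (K' + i)
    rw [show u + (1 - u) = 1 by ring, one_pow] at this
    rw [show K' + i + 1 = (i + 1) + K' by ring, Finset.sum_range_add] at this
    exact this
  calc v ^ i = v ^ i * 1 := by ring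
    _ = v ^ i * ((∑ j ∈ Finset.range (i + 1), u ^ j * (1 - u) ^ (K' + i - j) *
      ((K' + i).choose j : ℝ)) + ∑ m ∈ Finset.range K', u ^ (i + 1 + m) *
      (1 - u) ^ (K' + i - (i + 1 + m)) * ((K' + i).choose (i + 1 + m) : ℝ)) := by rw [← hb]
    _ = _ := by
      rw [mul_add, Finset.mul_sum, Finset.mul_sum]
      congr 1
      · rw [← Finset.sum_range_reflect]
        refine Finset.sum_congr rfl fun ν hν => ?_
        have hν' : ν ≤ i := by
          have := Finset.mem_range.1 hν; omega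
        rw [show i + 1 - 1 - ν = i - ν by omega]
        have h1 : v ^ i * u ^ (i - ν) = v ^ ν := by
          conv_lhs => rw [show i = ν + (i - ν) by omega]
          rw [pow_add, show ν + (i - ν) - ν = i - ν by omega, mul_assoc, ← mul_pow, huv, one_pow,
            mul_one]
        rw [show K' + i - (i - ν) = K' + ν by omega]
        rw [show v ^ i * (u ^ (i - ν) * (1 - u) ^ (K' + ν) * ((K' + i).choose (i - ν) : ℝ)) =
          (v ^ i * u ^ (i - ν)) * (1 - u) ^ (K' + ν) * ((K' + i).choose (i - ν) : ℝ) by ring, h1]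
        ring
      · refine Finset.sum_congr rfl fun m hm => ?_
        have h1 : v ^ i * u ^ (i + 1 + m) = u ^ (m + 1) := by
          rw [show i + 1 + m = i + (m + 1) by ring, pow_add, ← mul_assoc, ← mul_pow, huv, one_pow,
            one_mul]
        rw [show K' + i - (i + 1 + m) = K' - (m + 1) by omega]
        rw [show v ^ i * (u ^ (i + 1 + m) * (1 - u) ^ (K' - (m + 1)) *
          ((K' + i).choose (i + 1 + m) : ℝ)) = (v ^ i * u ^ (i + 1 + m)) * (1 - u) ^ (K' - (m + 1)) *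
          ((K' + i).choose (i + 1 + m) : ℝ) by ring, h1]
        ring

/-- Bound of `u^m (1-u)^r` by the `V_j`. -/
theorem la_uv (s : Finset ℕ) (y : ℕ → ℝ) (x : ℕ → ℂ) (a M : ℝ) (m r K' : ℕ) (hm : 1 ≤ m)
    (hmr : m + r ≤ K')
    (hM : ∀ i ∈ Finset.Icc 1 K', ‖∑ n ∈ s, ((Real.exp (-(i * a * y n)) : ℝ) : ℂ) * x n‖ ≤ M) :
    ‖∑ n ∈ s, ((Real.exp (-(m * a * y n)) * (1 - Real.exp (-(a * y n))) ^ r : ℝ) : ℂ) * x n‖ ≤
      2 ^ r * M := by
  have h := la_bound s y x (Finset.range (r + 1)) (fun l => (-1) ^ l * (r.choose l : ℝ))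
    (fun l t => Real.exp (-(((m + l : ℕ) : ℝ) * a * t)))
    (fun t => Real.exp (-(m * a * t)) * (1 - Real.exp (-(a * t))) ^ r) (by
      intro n _
      have e2 : ∀ k : ℕ, Real.exp (-(k * a * y n)) = Real.exp (-(a * y n)) ^ k := by
        intro k
        rw [← Real.exp_nat_mul]; ring_nf
      simp_rw [e2]
      rw [show (1 : ℝ) - Real.exp (-(a * y n)) = (-Real.exp (-(a * y n))) + 1 by ring, add_pow,
        Finset.mul_sum]
      refine Finset.sum_congr rfl fun l _ => ?_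
      rw [one_pow, neg_pow, pow_add]
      ring)
  refine h.trans ?_
  calc ∑ l ∈ Finset.range (r + 1), |(-1 : ℝ) ^ l * (r.choose l : ℝ)| *
        ‖∑ n ∈ s, ((Real.exp (-(((m + l : ℕ) : ℝ) * a * y n)) : ℝ) : ℂ) * x n‖
      ≤ ∑ l ∈ Finset.range (r + 1), (r.choose l : ℝ) * M := by
        refine Finset.sum_le_sum fun l hl => ?_
        have hl' := Finset.mem_range.1 hl
        have h1 : |(-1 : ℝ) ^ l * (r.choose l : ℝ)| = (r.choose l : ℝ) := by
          rw [abs_mul, abs_pow, abs_neg, abs_one, one_pow, one_mul, abs_of_nonneg (by positivity)]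
        rw [h1]
        exact mul_le_mul_of_nonneg_left (hM (m + l) (Finset.mem_Icc.2 ⟨by omega, by omega⟩))
          (by positivity)
    _ = 2 ^ r * M := by
        rw [← Finset.sum_mul]
        congr 1
        have := Nat.sum_range_choose r
        exact_mod_cast this

/-- With `u = e^{-a y} ∈ (0,1]`,
`u^{-i} = Σ_{j=0}^{K'+i} C(K'+i,j) u^{j-i} (1-u)^{K'+i-j}`; the terms with `j ≤ i` are
`psi a (i-j) (K'+i-j)`, those with `j > i` are combinations of `u, u², …, u^{K'}`. Hence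
`|U_i| ≤ 3^{K'+i} max_j |V_j| + 2^{K'+i} Σ_ν |G_ν|`, so that the hypothesis on `a` gives
`max |V_j| ≤ 4·4^{K'} Σ_ν |G_ν| + 2 err`; finally `|D| ≤ 2^K max |V_j|`. -/
theorem lin_alg (K K' : ℕ) (hK : K + 1 ≤ K') (a : ℝ) (ha : 4 * 3 ^ (K' + 1) ≤ Real.exp (a / 4))
    (s : Finset ℕ) (y : ℕ → ℝ) (hy : ∀ n ∈ s, 0 ≤ y n) (x : ℕ → ℂ) (err : ℝ) (herr : 0 ≤ err)
    (hV : ∀ i ∈ Finset.Icc 1 K',
      ‖∑ n ∈ s, ((Real.exp (-(i * a * y n)) : ℝ) : ℂ) * x n‖ ≤
        2 * Real.exp (-(i * a / 4)) * ‖∑ n ∈ s, ((Real.exp (i * a * y n) : ℝ) : ℂ) * x n‖ + err) :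
    ‖∑ n ∈ s, ((psi a (-1) K (y n) : ℝ) : ℂ) * x n‖ ≤
      2 ^ K * (4 * 4 ^ K' * ∑ ν ∈ Finset.range (K' + 1),
        ‖∑ n ∈ s, ((psi a ν (K' + ν) (y n) : ℝ) : ℂ) * x n‖ + 2 * err) := by
  set G : ℕ → ℝ := fun ν => ‖∑ n ∈ s, ((psi a ν (K' + ν) (y n) : ℝ) : ℂ) * x n‖ with hG
  set V : ℕ → ℝ := fun i => ‖∑ n ∈ s, ((Real.exp (-(i * a * y n)) : ℝ) : ℂ) * x n‖ with hVd
  set SG : ℝ := ∑ ν ∈ Finset.range (K' + 1), G ν with hSG
  have hG0 : ∀ ν, 0 ≤ G ν := fun ν => norm_nonneg _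
  have hSG0 : 0 ≤ SG := Finset.sum_nonneg fun ν _ => hG0 ν
  obtain ⟨i₀, hi₀, hmax⟩ := Finset.exists_max_image (Finset.Icc 1 K') V
    ⟨1, Finset.mem_Icc.2 ⟨le_refl _, by omega⟩⟩
  set M : ℝ := V i₀ with hM
  have hM0 : 0 ≤ M := norm_nonneg _
  have hMb : ∀ i ∈ Finset.Icc 1 K', ‖∑ n ∈ s, ((Real.exp (-(i * a * y n)) : ℝ) : ℂ) * x n‖ ≤ M :=
    hmax
  -- bound of `U_i`
  have hU : ∀ i ∈ Finset.Icc 1 K', ‖∑ n ∈ s, ((Real.exp (i * a * y n) : ℝ) : ℂ) * x n‖ ≤
      2 ^ (K' + i) * SG + 3 ^ (K' + i) * M := by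
    intro i hi
    obtain ⟨hi1, hi2⟩ := Finset.mem_Icc.1 hi
    have hsplit : ∑ n ∈ s, ((Real.exp (i * a * y n) : ℝ) : ℂ) * x n =
        (∑ n ∈ s, ((∑ ν ∈ Finset.range (i + 1), ((K' + i).choose (i - ν) : ℝ) *
          psi a ν (K' + ν) (y n) : ℝ) : ℂ) * x n) +
        ∑ n ∈ s, ((∑ m ∈ Finset.range K', ((K' + i).choose (i + 1 + m) : ℝ) *
        (Real.exp (-((m + 1 : ℕ) * a * y n)) *
          (1 - Real.exp (-(a * y n))) ^ (K' - (m + 1))) : ℝ) : ℂ) * x n := by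
      rw [← Finset.sum_add_distrib]
      refine Finset.sum_congr rfl fun n hn => ?_
      rw [la_expand i K' a (y n) (hy n hn), Complex.ofReal_add, add_mul]
    rw [hsplit]
    refine (norm_add_le _ _).trans (add_le_add ?_ ?_)
    · refine (la_bound s y x (Finset.range (i + 1)) (fun ν => ((K' + i).choose (i - ν) : ℝ))
        (fun ν t => psi a ν (K' + ν) t)
        (fun t => ∑ ν ∈ Finset.range (i + 1), ((K' + i).choose (i - ν) : ℝ) *
          psi a ν (K' + ν) t) (fun n _ => rfl)).trans ?_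
      calc ∑ ν ∈ Finset.range (i + 1), |((K' + i).choose (i - ν) : ℝ)| * G ν
          ≤ ∑ ν ∈ Finset.range (i + 1), 2 ^ (K' + i) * G ν := by
            refine Finset.sum_le_sum fun ν _ => mul_le_mul_of_nonneg_right ?_ (hG0 ν)
            rw [abs_of_nonneg (by positivity)]
            exact_mod_cast Nat.choose_le_two_pow (K' + i) (i - ν)
        _ = 2 ^ (K' + i) * ∑ ν ∈ Finset.range (i + 1), G ν := by rw [Finset.mul_sum]
        _ ≤ 2 ^ (K' + i) * SG := by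
            refine mul_le_mul_of_nonneg_left ?_ (by positivity)
            exact Finset.sum_le_sum_of_subset_of_nonneg
              (Finset.range_subset_range.2 (by omega)) fun ν _ _ => hG0 ν
    · refine (la_bound s y x (Finset.range K') (fun m => ((K' + i).choose (i + 1 + m) : ℝ))
        (fun m t => Real.exp (-((m + 1 : ℕ) * a * t)) *
          (1 - Real.exp (-(a * t))) ^ (K' - (m + 1)))
        (fun t => ∑ m ∈ Finset.range K', ((K' + i).choose (i + 1 + m) : ℝ) *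
        (Real.exp (-((m + 1 : ℕ) * a * t)) *
          (1 - Real.exp (-(a * t))) ^ (K' - (m + 1)))) (fun n _ => rfl)).trans ?_
      calc ∑ m ∈ Finset.range K', |((K' + i).choose (i + 1 + m) : ℝ)| *
            ‖∑ n ∈ s, ((Real.exp (-((m + 1 : ℕ) * a * y n)) *
          (1 - Real.exp (-(a * y n))) ^ (K' - (m + 1)) : ℝ) : ℂ) * x n‖
          ≤ ∑ m ∈ Finset.range K', 1 ^ (i + 1 + m) * 2 ^ (K' + i - (i + 1 + m)) *
              ((K' + i).choose (i + 1 + m) : ℝ) * M := by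
            refine Finset.sum_le_sum fun m hm => ?_
            have hm' := Finset.mem_range.1 hm
            rw [abs_of_nonneg (by positivity), one_pow, one_mul,
              show K' + i - (i + 1 + m) = K' - (m + 1) by omega]
            calc ((K' + i).choose (i + 1 + m) : ℝ) *
                ‖∑ n ∈ s, ((Real.exp (-((m + 1 : ℕ) * a * y n)) *
                  (1 - Real.exp (-(a * y n))) ^ (K' - (m + 1)) : ℝ) : ℂ) * x n‖
                ≤ ((K' + i).choose (i + 1 + m) : ℝ) * (2 ^ (K' - (m + 1)) * M) :=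
                  mul_le_mul_of_nonneg_left
                    (la_uv s y x a M (m + 1) (K' - (m + 1)) K' (by omega) (by omega) hMb)
                    (by positivity)
              _ = _ := by ring
        _ = (∑ m ∈ Finset.range K', 1 ^ (i + 1 + m) * 2 ^ (K' + i - (i + 1 + m)) *
              ((K' + i).choose (i + 1 + m) : ℝ)) * M := by rw [Finset.sum_mul]
        _ ≤ 3 ^ (K' + i) * M := by
            refine mul_le_mul_of_nonneg_right ?_ hM0
            have h3 := add_pow (1 : ℝ) 2 (K' + i)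
            rw [show K' + i + 1 = (i + 1) + K' by ring, Finset.sum_range_add] at h3
            rw [show (3 : ℝ) = 1 + 2 by norm_num, h3]
            have : 0 ≤ ∑ m ∈ Finset.range (i + 1), (1 : ℝ) ^ m * 2 ^ (K' + i - m) *
                ((K' + i).choose m : ℝ) := Finset.sum_nonneg fun m _ => by positivity
            linarith
  -- bound of `M`
  have hMle : M ≤ 4 * 4 ^ K' * SG + 2 * err := by
    obtain ⟨hi1, hi2⟩ := Finset.mem_Icc.1 hi₀
    have h1 := hV i₀ hi₀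
    have h2 := hU i₀ hi₀
    have hexp : Real.exp (-(i₀ * a / 4)) ≤ ((4 * 3 ^ (K' + 1) : ℝ) ^ i₀)⁻¹ := by
      rw [show -((i₀ : ℝ) * a / 4) = -((i₀ : ℝ) * (a / 4)) by ring, Real.exp_neg,
        Real.exp_nat_mul]
      gcongr
    have h3 : M ≤ 2 * ((4 * 3 ^ (K' + 1) : ℝ) ^ i₀)⁻¹ * (2 ^ (K' + i₀) * SG +
        3 ^ (K' + i₀) * M) + err := by
      refine h1.trans ?_
      gcongr
    have h4 : 2 * ((4 * 3 ^ (K' + 1) : ℝ) ^ i₀)⁻¹ * 3 ^ (K' + i₀) ≤ 1 / 2 := by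
      rw [show 2 * ((4 * 3 ^ (K' + 1) : ℝ) ^ i₀)⁻¹ * 3 ^ (K' + i₀) =
        2 * 3 ^ (K' + i₀) / (4 * 3 ^ (K' + 1) : ℝ) ^ i₀ by ring, div_le_iff₀ (by positivity)]
      have h5 : (4 : ℝ) * 3 ^ (K' + i₀) ≤ (4 * 3 ^ (K' + 1) : ℝ) ^ i₀ := by
        rw [mul_pow, ← pow_mul]
        have e1 : (4 : ℝ) ≤ 4 ^ i₀ := by
          calc (4 : ℝ) = 4 ^ 1 := by ring
            _ ≤ 4 ^ i₀ := pow_le_pow_right₀ (by norm_num) hi1
        have e2 : (3 : ℝ) ^ (K' + i₀) ≤ 3 ^ ((K' + 1) * i₀) := by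
          refine pow_le_pow_right₀ (by norm_num) ?_
          nlinarith
        gcongr
      linarith
    have h6 : 2 * ((4 * 3 ^ (K' + 1) : ℝ) ^ i₀)⁻¹ * 2 ^ (K' + i₀) ≤ 2 * 4 ^ K' := by
      rw [show 2 * ((4 * 3 ^ (K' + 1) : ℝ) ^ i₀)⁻¹ * 2 ^ (K' + i₀) =
        2 * 2 ^ (K' + i₀) / (4 * 3 ^ (K' + 1) : ℝ) ^ i₀ by ring, div_le_iff₀ (by positivity)]
      have e1 : (2 : ℝ) ^ (K' + i₀) ≤ 4 ^ K' * (4 * 3 ^ (K' + 1)) ^ i₀ := by
        rw [pow_add]
        have a1 : (2 : ℝ) ^ K' ≤ 4 ^ K' := pow_le_pow_left₀ (by norm_num) (by norm_num) _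
        have a2 : (2 : ℝ) ^ i₀ ≤ (4 * 3 ^ (K' + 1)) ^ i₀ := by
          refine pow_le_pow_left₀ (by norm_num) ?_ _
          have : (1 : ℝ) ≤ 3 ^ (K' + 1) := one_le_pow₀ (by norm_num)
          linarith
        gcongr
      linarith
    have h7 : M ≤ 2 * 4 ^ K' * SG + 1 / 2 * M + err := by
      calc M ≤ 2 * ((4 * 3 ^ (K' + 1) : ℝ) ^ i₀)⁻¹ * (2 ^ (K' + i₀) * SG +
            3 ^ (K' + i₀) * M) + err := h3
        _ = (2 * ((4 * 3 ^ (K' + 1) : ℝ) ^ i₀)⁻¹ * 2 ^ (K' + i₀)) * SG +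
            (2 * ((4 * 3 ^ (K' + 1) : ℝ) ^ i₀)⁻¹ * 3 ^ (K' + i₀)) * M + err := by ring
        _ ≤ 2 * 4 ^ K' * SG + 1 / 2 * M + err := by
            have := mul_le_mul_of_nonneg_right h6 hSG0
            have := mul_le_mul_of_nonneg_right h4 hM0
            linarith
    linarith
  -- conclusion
  have hD : ∑ n ∈ s, ((psi a (-1) K (y n) : ℝ) : ℂ) * x n =
      ∑ n ∈ s, ((Real.exp (-((1 : ℕ) * a * y n)) * (1 - Real.exp (-(a * y n))) ^ K : ℝ) : ℂ) *
        x n := by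
    refine Finset.sum_congr rfl fun n hn => ?_
    unfold psi
    rw [if_pos (hy n hn)]
    congr 5
    push_cast
    ring
  rw [hD]
  calc _ ≤ 2 ^ K * M := la_uv s y x a M 1 K K' (le_refl _) (by omega) hMb
    _ ≤ _ := mul_le_mul_of_nonneg_left hMle (by positivity)

end Pool.Agent.RAux
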