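import Mathlib
import Pool.Agent.RAux.Defs

/-!
The final Hölder argument.
-/

set_option autoImplicit false

open Complex MeasureTheory Filter Topology

namespace Pool.Agent.RAux

/-- Cauchy–Schwarz for integrals of real functions. -/
lemma holder_cs (μ : Measure ℝ) (f g : ℝ → ℝ) (hf : Integrable (fun t => f t ^ 2) μ)
    (hg : Integrable (fun t => g t ^ 2) μ) (hfg : Integrable (fun t => f t * g t) μ) :
    (∫ t, f t * g t ∂μ) ^ 2 ≤ (∫ t, f t ^ 2 ∂μ) * ∫ t, g t ^ 2 ∂μ := by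
  have key : ∀ s : ℝ, 0 ≤ (∫ t, f t ^ 2 ∂μ) * (s * s) + (-(2 * ∫ t, f t * g t ∂μ)) * s
      + ∫ t, g t ^ 2 ∂μ := by
    intro s
    have h0 : 0 ≤ ∫ t, (s * f t - g t) ^ 2 ∂μ := integral_nonneg (fun t => sq_nonneg _)
    have h1 : ∀ t, (s * f t - g t) ^ 2 = (s * s) * f t ^ 2 - (2 * s) * (f t * g t) + g t ^ 2 := by
      intro t; ring
    simp_rw [h1] at h0
    have hA : Integrable (fun t => (s * s) * f t ^ 2 - (2 * s) * (f t * g t)) μ :=
      (hf.const_mul _).sub (hfg.const_mul _)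
    rw [integral_add hA hg,
      integral_sub (hf.const_mul _) (hfg.const_mul _), integral_const_mul, integral_const_mul] at h0
    linarith
  have h2 := discrim_le_zero key
  unfold discrim at h2
  nlinarith

/-- On the complement of the set `E` below, `‖D‖² ≤ 2 C₁² G² + 2 e²`; on `E` use
`‖D‖² ≤ 2‖D1‖² + 2‖D2‖²`, and Cauchy–Schwarz twice:
`∫_E ‖D1 M q‖² ≤ (∫ ‖D1 M q²‖²)^{1/2} (∫_E ‖D1 M‖²)^{1/2}`,
`∫_E ‖D1 M‖² ≤ (∫ ‖D1 M‖⁴)^{1/2} |E|^{1/2}`. -/
theorem abstract_pz (t₀ H : ℝ) (hH : 0 < H) (D D1 D2 M q : ℝ → ℂ) (G : ℝ → ℝ)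
    (hD1 : Continuous D1) (hD2 : Continuous D2) (hM : Continuous M) (hq : Continuous q)
    (hG : Continuous G) (hG0 : ∀ t, 0 ≤ G t) (hD : ∀ t, D t = D1 t + D2 t)
    (C₁ e l AG A2 AQ A4 A22 : ℝ) (hC₁ : 0 ≤ C₁) (he : 0 ≤ e) (hl : 0 < l)
    (hA4 : 0 < A4) (hA22 : 0 < A22)
    (h1 : l * H ≤ ∫ t in t₀..(t₀ + H), ‖D t * M t * q t‖ ^ 2)
    (h2 : ∫ t in t₀..(t₀ + H), (G t * ‖M t * q t‖) ^ 2 ≤ AG * H)
    (h3 : ∫ t in t₀..(t₀ + H), ‖D2 t * M t * q t‖ ^ 2 ≤ A2 * H)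
    (h4 : ∫ t in t₀..(t₀ + H), ‖M t * q t‖ ^ 2 ≤ AQ * H)
    (h5 : ∫ t in t₀..(t₀ + H), ‖D1 t * M t‖ ^ 4 ≤ A4 * H)
    (h6 : ∫ t in t₀..(t₀ + H), ‖D1 t * M t * q t * q t‖ ^ 2 ≤ A22 * H)
    (hsmall : 2 * C₁ ^ 2 * AG + 2 * e ^ 2 * AQ + 2 * A2 ≤ l / 2) :
    ENNReal.ofReal ((l / 4) ^ 4 / (A22 ^ 2 * A4) * H) ≤
      volume {t : ℝ | t ∈ Set.Icc t₀ (t₀ + H) ∧ C₁ * G t + e < ‖D t‖} := by
  have hDc : Continuous D := by
    have : D = fun t => D1 t + D2 t := funext hD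
    rw [this]; exact hD1.add hD2
  set I : Set ℝ := Set.Icc t₀ (t₀ + H) with hI
  have hle : t₀ ≤ t₀ + H := by linarith
  have hconv : ∀ f : ℝ → ℝ, ∫ t in t₀..(t₀ + H), f t = ∫ t in I, f t := by
    intro f
    rw [intervalIntegral.integral_of_le hle, hI, integral_Icc_eq_integral_Ioc]
  rw [hconv] at h1 h2 h3 h4 h5 h6
  set E : Set ℝ := {t : ℝ | t ∈ I ∧ C₁ * G t + e < ‖D t‖} with hE
  have hEsub : E ⊆ I := fun t ht => ht.1
  have hEm : MeasurableSet E := by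
    have : E = I ∩ {t | C₁ * G t + e < ‖D t‖} := rfl
    rw [this]
    exact measurableSet_Icc.inter (measurableSet_lt (by fun_prop) (by fun_prop))
  have hIm : MeasurableSet I := measurableSet_Icc
  have hIE : MeasurableSet (I \ E) := hIm.diff hEm
  have hint : ∀ f : ℝ → ℝ, Continuous f → IntegrableOn f I := fun f hf =>
    hf.continuousOn.integrableOn_compact isCompact_Icc
  have hintE : ∀ f : ℝ → ℝ, Continuous f → IntegrableOn f E := fun f hf =>
    (hint f hf).mono_set hEsub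
  have hintIE : ∀ f : ℝ → ℝ, Continuous f → IntegrableOn f (I \ E) := fun f hf =>
    (hint f hf).mono_set Set.sdiff_subset
  -- volume of E is finite
  have hEfin : volume E ≠ ⊤ := by
    refine ne_top_of_le_ne_top ?_ (measure_mono hEsub)
    rw [hI, Real.volume_Icc]; exact ENNReal.ofReal_ne_top
  have c1 : Continuous (fun t => ‖D t * M t * q t‖ ^ 2) := by fun_prop
  have c2 : Continuous (fun t => (G t * ‖M t * q t‖) ^ 2) := by fun_prop
  have c3 : Continuous (fun t => ‖D2 t * M t * q t‖ ^ 2) := by fun_prop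
  have c4 : Continuous (fun t => ‖M t * q t‖ ^ 2) := by fun_prop
  have c5 : Continuous (fun t => ‖D1 t * M t‖ ^ 4) := by fun_prop
  have c6 : Continuous (fun t => ‖D1 t * M t * q t * q t‖ ^ 2) := by fun_prop
  have c7 : Continuous (fun t => ‖D1 t * M t * q t‖ ^ 2) := by fun_prop
  have c8 : Continuous (fun t => ‖D1 t * M t‖ ^ 2) := by fun_prop
  -- splitting
  have hsplit : ∫ t in I, ‖D t * M t * q t‖ ^ 2 = (∫ t in E, ‖D t * M t * q t‖ ^ 2) +
      ∫ t in I \ E, ‖D t * M t * q t‖ ^ 2 := by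
    rw [← setIntegral_union Set.disjoint_sdiff_right hIE (hintE _ c1) (hintIE _ c1),
      Set.union_sdiff_cancel hEsub]
  -- outside E
  have hout : ∫ t in I \ E, ‖D t * M t * q t‖ ^ 2 ≤ (2 * C₁ ^ 2 * AG + 2 * e ^ 2 * AQ) * H := by
    have hpt : ∀ t ∈ I \ E, ‖D t * M t * q t‖ ^ 2 ≤
        2 * C₁ ^ 2 * (G t * ‖M t * q t‖) ^ 2 + 2 * e ^ 2 * ‖M t * q t‖ ^ 2 := by
      intro t ht
      have h7 : ‖D t‖ ≤ C₁ * G t + e := by
        by_contra hcon
        exact ht.2 ⟨ht.1, not_le.mp hcon⟩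
      have h8 : ‖D t * M t * q t‖ = ‖D t‖ * ‖M t * q t‖ := by rw [mul_assoc, norm_mul]
      rw [h8, mul_pow]
      have h9 : ‖D t‖ ^ 2 ≤ 2 * (C₁ * G t) ^ 2 + 2 * e ^ 2 := by
        have h10 : ‖D t‖ ^ 2 ≤ (C₁ * G t + e) ^ 2 := pow_le_pow_left₀ (norm_nonneg _) h7 2
        nlinarith [sq_nonneg (C₁ * G t - e)]
      calc ‖D t‖ ^ 2 * ‖M t * q t‖ ^ 2 ≤ (2 * (C₁ * G t) ^ 2 + 2 * e ^ 2) * ‖M t * q t‖ ^ 2 :=
            mul_le_mul_of_nonneg_right h9 (sq_nonneg _)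
        _ = _ := by ring
    calc ∫ t in I \ E, ‖D t * M t * q t‖ ^ 2
        ≤ ∫ t in I \ E, (2 * C₁ ^ 2 * (G t * ‖M t * q t‖) ^ 2 + 2 * e ^ 2 * ‖M t * q t‖ ^ 2) :=
          setIntegral_mono_on (hintIE _ c1) (hintIE _ (by fun_prop)) hIE hpt
      _ ≤ ∫ t in I, (2 * C₁ ^ 2 * (G t * ‖M t * q t‖) ^ 2 + 2 * e ^ 2 * ‖M t * q t‖ ^ 2) := by
          apply setIntegral_mono_set (hint _ (by fun_prop))
          · exact Filter.Eventually.of_forall (fun t => add_nonneg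
              (mul_nonneg (by positivity) (sq_nonneg _)) (mul_nonneg (by positivity) (sq_nonneg _)))
          · exact Set.sdiff_subset.eventuallyLE
      _ = 2 * C₁ ^ 2 * (∫ t in I, (G t * ‖M t * q t‖) ^ 2) +
          2 * e ^ 2 * ∫ t in I, ‖M t * q t‖ ^ 2 := by
          rw [integral_add ((hint _ c2).const_mul _) ((hint _ c4).const_mul _),
            integral_const_mul, integral_const_mul]
      _ ≤ 2 * C₁ ^ 2 * (AG * H) + 2 * e ^ 2 * (AQ * H) := by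
          gcongr
      _ = _ := by ring
  -- on E
  have hin : ∫ t in E, ‖D t * M t * q t‖ ^ 2 ≤ 2 * (∫ t in E, ‖D1 t * M t * q t‖ ^ 2) +
      2 * (A2 * H) := by
    have hpt : ∀ t ∈ E, ‖D t * M t * q t‖ ^ 2 ≤
        2 * ‖D1 t * M t * q t‖ ^ 2 + 2 * ‖D2 t * M t * q t‖ ^ 2 := by
      intro t _
      have h8 : D t * M t * q t = D1 t * M t * q t + D2 t * M t * q t := by rw [hD]; ring
      rw [h8]
      have h9 := norm_add_le (D1 t * M t * q t) (D2 t * M t * q t)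
      have h10 := pow_le_pow_left₀ (norm_nonneg _) h9 2
      nlinarith [sq_nonneg (‖D1 t * M t * q t‖ - ‖D2 t * M t * q t‖)]
    calc ∫ t in E, ‖D t * M t * q t‖ ^ 2
        ≤ ∫ t in E, (2 * ‖D1 t * M t * q t‖ ^ 2 + 2 * ‖D2 t * M t * q t‖ ^ 2) :=
          setIntegral_mono_on (hintE _ c1) (hintE _ (by fun_prop)) hEm hpt
      _ = 2 * (∫ t in E, ‖D1 t * M t * q t‖ ^ 2) + 2 * ∫ t in E, ‖D2 t * M t * q t‖ ^ 2 := by
          rw [integral_add ((hintE _ c7).const_mul _) ((hintE _ c3).const_mul _),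
            integral_const_mul, integral_const_mul]
      _ ≤ _ := by
          have h11 : ∫ t in E, ‖D2 t * M t * q t‖ ^ 2 ≤ ∫ t in I, ‖D2 t * M t * q t‖ ^ 2 := by
            apply setIntegral_mono_set (hint _ c3)
            · exact Filter.Eventually.of_forall (fun t => by
                show (0:ℝ) ≤ _
                positivity)
            · exact hEsub.eventuallyLE
          linarith
  have hmain : l * H / 4 ≤ ∫ t in E, ‖D1 t * M t * q t‖ ^ 2 := by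
    have := mul_le_mul_of_nonneg_right hsmall hH.le
    nlinarith
  -- Cauchy–Schwarz, twice
  have cs1 : (∫ t in E, ‖D1 t * M t * q t‖ ^ 2) ^ 2 ≤
      (A22 * H) * ∫ t in E, ‖D1 t * M t‖ ^ 2 := by
    have h7 := holder_cs (volume.restrict E) (fun t => ‖D1 t * M t * q t * q t‖)
      (fun t => ‖D1 t * M t‖) (hintE _ c6) (hintE _ c8) (hintE _ (by fun_prop))
    have h8 : ∀ t, ‖D1 t * M t * q t * q t‖ * ‖D1 t * M t‖ = ‖D1 t * M t * q t‖ ^ 2 := by
      intro t; simp only [norm_mul]; ring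
    simp_rw [h8] at h7
    refine h7.trans ?_
    apply mul_le_mul_of_nonneg_right _ (integral_nonneg (fun t => sq_nonneg _))
    refine le_trans ?_ h6
    apply setIntegral_mono_set (hint _ c6)
    · exact Filter.Eventually.of_forall (fun t => by
        show (0:ℝ) ≤ _
        positivity)
    · exact hEsub.eventuallyLE
  have cs2 : (∫ t in E, ‖D1 t * M t‖ ^ 2) ^ 2 ≤ (A4 * H) * volume.real E := by
    have h7 := holder_cs (volume.restrict E) (fun t => ‖D1 t * M t‖ ^ 2) (fun _ => 1)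
      (hintE _ (by fun_prop)) (hintE _ (by fun_prop)) (hintE _ (by fun_prop))
    have h8 : ∀ t, (‖D1 t * M t‖ ^ 2) ^ 2 = ‖D1 t * M t‖ ^ 4 := by intro t; ring
    simp_rw [h8] at h7
    simp only [mul_one, one_pow, integral_const, smul_eq_mul, measureReal_restrict_apply_univ] at h7
    refine h7.trans ?_
    apply mul_le_mul_of_nonneg_right _ measureReal_nonneg
    refine le_trans ?_ h5
    apply setIntegral_mono_set (hint _ c5)
    · exact Filter.Eventually.of_forall (fun t => by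
        show (0:ℝ) ≤ _
        positivity)
    · exact hEsub.eventuallyLE
  -- conclusion
  set X := ∫ t in E, ‖D1 t * M t * q t‖ ^ 2
  set Y := ∫ t in E, ‖D1 t * M t‖ ^ 2
  have hX0 : 0 ≤ l * H / 4 := by positivity
  have h7 : (l * H / 4) ^ 4 ≤ (A22 * H) ^ 2 * ((A4 * H) * volume.real E) := by
    calc (l * H / 4) ^ 4 ≤ X ^ 4 := pow_le_pow_left₀ hX0 hmain 4
      _ = (X ^ 2) ^ 2 := by ring
      _ ≤ ((A22 * H) * Y) ^ 2 := pow_le_pow_left₀ (sq_nonneg _) cs1 2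
      _ = (A22 * H) ^ 2 * Y ^ 2 := by ring
      _ ≤ _ := mul_le_mul_of_nonneg_left cs2 (sq_nonneg _)
  have h8 : (l / 4) ^ 4 / (A22 ^ 2 * A4) * H ≤ volume.real E := by
    have h9 : 0 < A22 ^ 2 * A4 := by positivity
    rw [div_mul_eq_mul_div, div_le_iff₀ h9]
    have h10 : 0 < H ^ 3 := by positivity
    have h11 : ((l / 4) ^ 4 * H) * H ^ 3 ≤ (volume.real E * (A22 ^ 2 * A4)) * H ^ 3 := by
      calc ((l / 4) ^ 4 * H) * H ^ 3 = (l * H / 4) ^ 4 := by ring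
        _ ≤ _ := h7
        _ = _ := by ring
    exact le_of_mul_le_mul_right h11 h10
  calc ENNReal.ofReal ((l / 4) ^ 4 / (A22 ^ 2 * A4) * H) ≤ ENNReal.ofReal (volume.real E) :=
        ENNReal.ofReal_le_ofReal h8
    _ = volume E := ofReal_measureReal hEfin

end Pool.Agent.RAux
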