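import Mathlib
import Pool.Agent.RAux.Defs

/-!
Mean values of Dirichlet polynomials: the elementary diagonal estimate.
-/

set_option autoImplicit false

open Complex MeasureTheory Filter Topology

namespace Pool.Agent.RAux

theorem term_eq_zero_of_support (f : ArithmeticFunction ℂ) (X : ℕ)
    (hf : ∀ m, X < m → f m = 0) (s : ℂ) :
    ∀ m ∉ Finset.Icc 1 X, LSeries.term f s m = 0 := by
  intro m hm
  rcases Nat.eq_zero_or_pos m with rfl | hpos
  · simp [LSeries.term]
  · have : X < m := by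
      by_contra h
      exact hm (Finset.mem_Icc.mpr ⟨hpos, not_lt.mp h⟩)
    simp [LSeries.term, hf m this]

/-- A Dirichlet polynomial as a finite sum. -/
theorem DP_eq_sum (f : ArithmeticFunction ℂ) (X : ℕ) (hf : ∀ m, X < m → f m = 0) (t : ℝ) :
    DP f t = ∑ m ∈ Finset.Icc 1 X, f m * (m : ℂ) ^ (-(1 / 2 + (t : ℂ) * Complex.I)) := by
  unfold DP LSeries
  rw [tsum_eq_sum (term_eq_zero_of_support f X hf _)]
  refine Finset.sum_congr rfl fun m hm => ?_
  have hm0 : m ≠ 0 := by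
    have := (Finset.mem_Icc.mp hm).1
    omega
  rw [LSeries.term_of_ne_zero hm0, Complex.cpow_neg, div_eq_mul_inv]

theorem DP_continuous (f : ArithmeticFunction ℂ) (X : ℕ) (hf : ∀ m, X < m → f m = 0) :
    Continuous (DP f) := by
  have : DP f = fun t : ℝ => ∑ m ∈ Finset.Icc 1 X,
      f m * (m : ℂ) ^ (-(1 / 2 + (t : ℂ) * Complex.I)) := funext fun t => DP_eq_sum f X hf t
  rw [this]
  refine continuous_finsetSum _ fun m hm => ?_
  have hm0 : (m : ℂ) ≠ 0 := by
    have := (Finset.mem_Icc.mp hm).1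
    exact_mod_cast (by omega : m ≠ 0)
  refine continuous_const.mul ?_
  refine Continuous.const_cpow (by fun_prop) (Or.inl hm0)

theorem DP_mul (f g : ArithmeticFunction ℂ) (X Y : ℕ) (hf : ∀ m, X < m → f m = 0)
    (hg : ∀ m, Y < m → g m = 0) (t : ℝ) : DP (f * g) t = DP f t * DP g t := by
  unfold DP
  refine ArithmeticFunction.LSeries_mul' ?_ ?_
  · exact summable_of_ne_finset_zero (term_eq_zero_of_support f X hf _)
  · exact summable_of_ne_finset_zero (term_eq_zero_of_support g Y hg _)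

/-- Support of a Dirichlet convolution. -/
theorem conv_support {S : Type*} [CommSemiring S] (f g : ArithmeticFunction S) (X Y : ℕ)
    (hf : ∀ m, X < m → f m = 0) (hg : ∀ m, Y < m → g m = 0) :
    ∀ m, X * Y < m → (f * g) m = 0 := by
  intro m hm
  rw [ArithmeticFunction.mul_apply]
  refine Finset.sum_eq_zero fun x hx => ?_
  have hx1 : x.1 * x.2 = m := (Nat.mem_divisorsAntidiagonal.mp hx).1
  by_cases h1 : X < x.1
  · rw [hf _ h1, zero_mul]
  · by_cases h2 : Y < x.2
    · rw [hg _ h2, mul_zero]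
    · exfalso
      have : x.1 * x.2 ≤ X * Y := Nat.mul_le_mul (not_lt.mp h1) (not_lt.mp h2)
      omega

/-- The oscillating integral. -/
theorem norm_osc_le (c : ℝ) (hc : c ≠ 0) (a b : ℝ) :
    ‖∫ t in a..b, Complex.exp (((c : ℂ) * Complex.I) * (t : ℂ))‖ ≤ 2 / |c| := by
  have hc' : ((c : ℂ) * Complex.I) ≠ 0 := mul_ne_zero (by exact_mod_cast hc) Complex.I_ne_zero
  rw [integral_exp_mul_complex hc', norm_div]
  have h1 : ‖(c : ℂ) * Complex.I‖ = |c| := by simp
  rw [h1]
  have h2 : ∀ t : ℝ, ‖Complex.exp (((c : ℂ) * Complex.I) * (t : ℂ))‖ = 1 := by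
    intro t
    have : ((c : ℂ) * Complex.I) * (t : ℂ) = ((c * t : ℝ) : ℂ) * Complex.I := by
      push_cast; ring
    rw [this, Complex.norm_exp_ofReal_mul_I]
  gcongr
  calc ‖Complex.exp (((c : ℂ) * Complex.I) * (b : ℂ)) - Complex.exp (((c : ℂ) * Complex.I) * (a : ℂ))‖
      ≤ ‖Complex.exp (((c : ℂ) * Complex.I) * (b : ℂ))‖ +
        ‖Complex.exp (((c : ℂ) * Complex.I) * (a : ℂ))‖ := norm_sub_le _ _
    _ = 2 := by rw [h2, h2]; norm_num

/-- `1/|log n - log m| ≤ X/|n-m|`. -/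
theorem inv_log_le (X m n : ℕ) (hm : m ∈ Finset.Icc 1 X) (hn : n ∈ Finset.Icc 1 X)
    (h : n < m) :
    2 / |Real.log n - Real.log m| ≤ 2 * X * ((((m - n : ℕ) : ℕ) : ℝ))⁻¹ := by
  have hm1 := Finset.mem_Icc.mp hm
  have hn1 := Finset.mem_Icc.mp hn
  have hmpos : (0 : ℝ) < m := by exact_mod_cast (by omega : 0 < m)
  have hnpos : (0 : ℝ) < n := by exact_mod_cast (by omega : 0 < n)
  have hmn : (n : ℝ) < m := by exact_mod_cast h
  have hmX : (m : ℝ) ≤ X := by exact_mod_cast hm1.2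
  have hlog : Real.log n < Real.log m := Real.log_lt_log hnpos hmn
  have habs : |Real.log n - Real.log m| = Real.log m - Real.log n := by
    rw [abs_of_neg (by linarith)]; ring
  rw [habs]
  have hcast : (((m - n : ℕ) : ℕ) : ℝ) = (m : ℝ) - n := by
    rw [Nat.cast_sub h.le]
  rw [hcast]
  have hkey : ((m : ℝ) - n) / m ≤ Real.log m - Real.log n := by
    have h1 := Real.one_sub_inv_le_log_of_pos (x := (m : ℝ) / n) (by positivity)
    rw [Real.log_div hmpos.ne' hnpos.ne'] at h1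
    calc ((m : ℝ) - n) / m = 1 - ((m : ℝ) / n)⁻¹ := by field_simp
      _ ≤ _ := h1
  have hpos : 0 < ((m : ℝ) - n) / m := div_pos (by linarith) hmpos
  calc 2 / (Real.log m - Real.log n) ≤ 2 / (((m : ℝ) - n) / m) :=
        div_le_div_of_nonneg_left (by norm_num) hpos hkey
    _ = 2 * m * ((m : ℝ) - n)⁻¹ := by
        field_simp
    _ ≤ 2 * X * ((m : ℝ) - n)⁻¹ := by
        have : 0 ≤ ((m : ℝ) - n)⁻¹ := inv_nonneg.mpr (by linarith)
        gcongr

theorem harm_le (X : ℕ) : ∑ k ∈ Finset.Icc 1 X, ((k : ℝ))⁻¹ ≤ 1 + Real.log X := by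
  have h := harmonic_le_one_add_log X
  rw [harmonic_eq_sum_Icc] at h
  push_cast at h
  exact h

theorem sum_off_diag_le (X m : ℕ) (hm : m ∈ Finset.Icc 1 X) :
    ∑ n ∈ (Finset.Icc 1 X).filter (fun n => n ≠ m), 2 / |Real.log n - Real.log m| ≤
      4 * X * (1 + Real.log X) := by
  have hm1 := Finset.mem_Icc.mp hm
  have hsplit : (Finset.Icc 1 X).filter (fun n => n ≠ m) =
      (Finset.Icc 1 X).filter (fun n => n < m) ∪ (Finset.Icc 1 X).filter (fun n => m < n) := by
    ext n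
    simp only [Finset.mem_filter, Finset.mem_union, Finset.mem_Icc]
    omega
  have hdisj : Disjoint ((Finset.Icc 1 X).filter (fun n => n < m))
      ((Finset.Icc 1 X).filter (fun n => m < n)) := by
    rw [Finset.disjoint_left]
    intro n h1 h2
    simp only [Finset.mem_filter] at h1 h2
    omega
  rw [hsplit, Finset.sum_union hdisj]
  have h1 : ∑ n ∈ (Finset.Icc 1 X).filter (fun n => n < m), 2 / |Real.log n - Real.log m| ≤
      2 * X * (1 + Real.log X) := by
    calc ∑ n ∈ (Finset.Icc 1 X).filter (fun n => n < m), 2 / |Real.log n - Real.log m|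
        ≤ ∑ n ∈ (Finset.Icc 1 X).filter (fun n => n < m), 2 * X * ((((m - n : ℕ) : ℕ) : ℝ))⁻¹ := by
          refine Finset.sum_le_sum fun n hn => ?_
          have hn' := Finset.mem_filter.mp hn
          exact inv_log_le X m n hm hn'.1 hn'.2
      _ = ∑ k ∈ ((Finset.Icc 1 X).filter (fun n => n < m)).image (fun n => m - n),
            2 * X * ((k : ℝ))⁻¹ := by
          rw [Finset.sum_image]
          intro a ha b hb hab
          simp only [Finset.coe_filter, Finset.mem_Icc, Set.mem_setOf_eq] at ha hb hab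
          omega
      _ ≤ ∑ k ∈ Finset.Icc 1 X, 2 * X * ((k : ℝ))⁻¹ := by
          refine Finset.sum_le_sum_of_subset_of_nonneg ?_ fun k _ _ => by positivity
          intro k hk
          obtain ⟨n, hn, rfl⟩ := Finset.mem_image.mp hk
          simp only [Finset.mem_filter, Finset.mem_Icc] at hn ⊢
          omega
      _ = 2 * X * ∑ k ∈ Finset.Icc 1 X, ((k : ℝ))⁻¹ := by rw [Finset.mul_sum]
      _ ≤ 2 * X * (1 + Real.log X) := by
          gcongr
          exact harm_le X
  have h2 : ∑ n ∈ (Finset.Icc 1 X).filter (fun n => m < n), 2 / |Real.log n - Real.log m| ≤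
      2 * X * (1 + Real.log X) := by
    calc ∑ n ∈ (Finset.Icc 1 X).filter (fun n => m < n), 2 / |Real.log n - Real.log m|
        ≤ ∑ n ∈ (Finset.Icc 1 X).filter (fun n => m < n), 2 * X * ((((n - m : ℕ) : ℕ) : ℝ))⁻¹ := by
          refine Finset.sum_le_sum fun n hn => ?_
          have hn' := Finset.mem_filter.mp hn
          rw [abs_sub_comm]
          exact inv_log_le X n m hn'.1 hm hn'.2
      _ = ∑ k ∈ ((Finset.Icc 1 X).filter (fun n => m < n)).image (fun n => n - m),
            2 * X * ((k : ℝ))⁻¹ := by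
          rw [Finset.sum_image]
          intro a ha b hb hab
          simp only [Finset.coe_filter, Finset.mem_Icc, Set.mem_setOf_eq] at ha hb hab
          omega
      _ ≤ ∑ k ∈ Finset.Icc 1 X, 2 * X * ((k : ℝ))⁻¹ := by
          refine Finset.sum_le_sum_of_subset_of_nonneg ?_ fun k _ _ => by positivity
          intro k hk
          obtain ⟨n, hn, rfl⟩ := Finset.mem_image.mp hk
          simp only [Finset.mem_filter, Finset.mem_Icc] at hn ⊢
          omega
      _ = 2 * X * ∑ k ∈ Finset.Icc 1 X, ((k : ℝ))⁻¹ := by rw [Finset.mul_sum]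
      _ ≤ 2 * X * (1 + Real.log X) := by
          gcongr
          exact harm_le X
  linarith

/-- Weights `x y ≤ (x²+y²)/2`, symmetric double sum. -/
theorem sum_sym_le (s : Finset ℕ) (x : ℕ → ℝ) (w : ℕ → ℕ → ℝ) (hw : ∀ m n, w m n = w n m)
    (hw0 : ∀ m n, 0 ≤ w m n) (B : ℝ)
    (hB : ∀ m ∈ s, ∑ n ∈ s.filter (fun n => n ≠ m), w n m ≤ B) :
    ∑ m ∈ s, ∑ n ∈ s.filter (fun n => n ≠ m), x m * x n * w n m ≤ B * ∑ m ∈ s, x m ^ 2 := by
  have h1 : ∑ m ∈ s, ∑ n ∈ s.filter (fun n => n ≠ m), x m * x n * w n m ≤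
      ∑ m ∈ s, ∑ n ∈ s.filter (fun n => n ≠ m), (x m ^ 2 / 2 * w n m + x n ^ 2 / 2 * w n m) := by
    refine Finset.sum_le_sum fun m _ => Finset.sum_le_sum fun n _ => ?_
    have := hw0 n m
    nlinarith [sq_nonneg (x m - x n), mul_nonneg (sq_nonneg (x m - x n)) this]
  have h2 : ∑ m ∈ s, ∑ n ∈ s.filter (fun n => n ≠ m), x n ^ 2 / 2 * w n m =
      ∑ m ∈ s, ∑ n ∈ s.filter (fun n => n ≠ m), x m ^ 2 / 2 * w n m := by
    simp only [Finset.sum_filter]
    rw [Finset.sum_comm]
    refine Finset.sum_congr rfl fun m _ => Finset.sum_congr rfl fun n _ => ?_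
    by_cases h : m = n
    · subst h; simp
    · rw [if_pos h, if_pos (Ne.symm h), hw m n]
  calc ∑ m ∈ s, ∑ n ∈ s.filter (fun n => n ≠ m), x m * x n * w n m
      ≤ ∑ m ∈ s, ∑ n ∈ s.filter (fun n => n ≠ m), (x m ^ 2 / 2 * w n m + x n ^ 2 / 2 * w n m) := h1
    _ = ∑ m ∈ s, ∑ n ∈ s.filter (fun n => n ≠ m), x m ^ 2 / 2 * w n m +
        ∑ m ∈ s, ∑ n ∈ s.filter (fun n => n ≠ m), x n ^ 2 / 2 * w n m := by
        simp only [Finset.sum_add_distrib]
    _ = ∑ m ∈ s, x m ^ 2 * ∑ n ∈ s.filter (fun n => n ≠ m), w n m := by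
        rw [h2, ← Finset.sum_add_distrib]
        refine Finset.sum_congr rfl fun m _ => ?_
        rw [← Finset.mul_sum]
        ring
    _ ≤ ∑ m ∈ s, x m ^ 2 * B := by
        refine Finset.sum_le_sum fun m hm => ?_
        exact mul_le_mul_of_nonneg_left (hB m hm) (sq_nonneg _)
    _ = B * ∑ m ∈ s, x m ^ 2 := by rw [← Finset.sum_mul, mul_comm]

theorem cpow_split (m : ℕ) (hm : 1 ≤ m) (t : ℝ) :
    (m : ℂ) ^ (-(1 / 2 + (t : ℂ) * Complex.I)) =
      ((((m : ℝ) ^ (-(1 / 2) : ℝ)) : ℝ) : ℂ) *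
        Complex.exp ((((-Real.log m : ℝ) : ℂ) * Complex.I) * (t : ℂ)) := by
  have hm0 : (m : ℂ) ≠ 0 := by exact_mod_cast (by omega : m ≠ 0)
  rw [show (-(1 / 2 + (t : ℂ) * Complex.I)) = (-(1 / 2) : ℂ) + (-((t : ℂ) * Complex.I)) by ring,
    Complex.cpow_add _ _ hm0]
  congr 1
  · rw [Complex.ofReal_cpow (by positivity)]
    push_cast
    rfl
  · rw [Complex.cpow_def_of_ne_zero hm0, ← Complex.natCast_log]
    congr 1
    push_cast
    ring

/-- The mean value theorem in the diagonal range. Off the diagonal use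
`|∫ (m/n)^{it} dt| ≤ 2/|log (m/n)|`, `log (m/n) ≥ (m-n)/m` for `n < m` and `|x||y| ≤ (x²+y²)/2`. -/
theorem mean_value (f : ArithmeticFunction ℂ) (X : ℕ) (hf : ∀ m, X < m → f m = 0)
    (t₀ H : ℝ) (hH : 0 ≤ H) :
    |(∫ t in t₀..(t₀ + H), ‖DP f t‖ ^ 2) - H * M2 f X| ≤
      4 * X * (1 + Real.log X) * M2 f X := by
  set s := Finset.Icc 1 X with hs
  set a : ℕ → ℂ := fun m => f m * ((((m : ℝ) ^ (-(1 / 2) : ℝ)) : ℝ) : ℂ) with ha
  have hDP : ∀ t : ℝ, DP f t = ∑ m ∈ s,
      a m * Complex.exp ((((-Real.log m : ℝ) : ℂ) * Complex.I) * (t : ℂ)) := by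
    intro t
    rw [DP_eq_sum f X hf t]
    refine Finset.sum_congr rfl fun m hm => ?_
    rw [cpow_split m (Finset.mem_Icc.mp hm).1 t, ha]
    ring
  have hnorm_a : ∀ m ∈ s, ‖a m‖ ^ 2 = ‖f m‖ ^ 2 / m := by
    intro m hm
    have hm1 := (Finset.mem_Icc.mp hm).1
    have hmpos : (0 : ℝ) < m := by exact_mod_cast (by omega : 0 < m)
    rw [ha]
    simp only [norm_mul, Complex.norm_real, mul_pow]
    rw [div_eq_mul_inv]
    congr 1
    rw [Real.norm_of_nonneg (by positivity), ← Real.rpow_natCast, ← Real.rpow_mul hmpos.le]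
    norm_num
    rw [Real.rpow_neg_one]
  have hM2 : M2 f X = ∑ m ∈ s, ‖a m‖ ^ 2 := by
    unfold M2
    exact Finset.sum_congr rfl fun m hm => (hnorm_a m hm).symm
  have hsq : ∀ t : ℝ, ((‖DP f t‖ ^ 2 : ℝ) : ℂ) = ∑ m ∈ s, ∑ n ∈ s,
      a m * (starRingEnd ℂ) (a n) *
        Complex.exp ((((Real.log n - Real.log m : ℝ) : ℂ) * Complex.I) * (t : ℂ)) := by
    intro t
    rw [show ((‖DP f t‖ ^ 2 : ℝ) : ℂ) = DP f t * (starRingEnd ℂ) (DP f t) by
      rw [Complex.mul_conj, Complex.normSq_eq_norm_sq]]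
    rw [hDP t, map_sum, Finset.sum_mul_sum]
    refine Finset.sum_congr rfl fun m _ => Finset.sum_congr rfl fun n _ => ?_
    rw [map_mul, ← Complex.exp_conj]
    have e1 : (starRingEnd ℂ) ((((-Real.log n : ℝ) : ℂ) * Complex.I) * (t : ℂ)) =
        (((Real.log n : ℝ) : ℂ) * Complex.I) * (t : ℂ) := by
      simp only [map_mul, Complex.conj_ofReal, Complex.conj_I]
      push_cast
      ring
    rw [e1]
    have e2 : Complex.exp ((((Real.log n - Real.log m : ℝ) : ℂ) * Complex.I) * (t : ℂ)) =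
        Complex.exp ((((-Real.log m : ℝ) : ℂ) * Complex.I) * (t : ℂ)) *
        Complex.exp ((((Real.log n : ℝ) : ℂ) * Complex.I) * (t : ℂ)) := by
      rw [← Complex.exp_add]
      congr 1
      push_cast
      ring
    rw [e2]
    ring
  set c : ℕ → ℕ → ℂ := fun m n =>
    ∫ t in t₀..(t₀ + H), Complex.exp ((((Real.log n - Real.log m : ℝ) : ℂ) * Complex.I) * (t : ℂ))
    with hc
  have hint : (((∫ t in t₀..(t₀ + H), ‖DP f t‖ ^ 2) : ℝ) : ℂ) =
      ∑ m ∈ s, ∑ n ∈ s, a m * (starRingEnd ℂ) (a n) * c m n := by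
    rw [← intervalIntegral.integral_ofReal]
    simp only [hsq]
    rw [intervalIntegral.integral_finsetSum]
    · refine Finset.sum_congr rfl fun m _ => ?_
      rw [intervalIntegral.integral_finsetSum]
      · refine Finset.sum_congr rfl fun n _ => ?_
        rw [intervalIntegral.integral_const_mul]
      · intro n _
        exact (Continuous.intervalIntegrable (by fun_prop) _ _)
    · intro m _
      exact (Continuous.intervalIntegrable (by fun_prop) _ _)
  have hdiag : ∀ m, c m m = (H : ℂ) := by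
    intro m
    simp [hc]
  have hdiff : (((∫ t in t₀..(t₀ + H), ‖DP f t‖ ^ 2) - H * M2 f X : ℝ) : ℂ) =
      ∑ m ∈ s, ∑ n ∈ s.filter (fun n => n ≠ m), a m * (starRingEnd ℂ) (a n) * c m n := by
    rw [Complex.ofReal_sub, hint]
    have hM : ((H * M2 f X : ℝ) : ℂ) = ∑ m ∈ s, a m * (starRingEnd ℂ) (a m) * c m m := by
      rw [hM2]
      push_cast
      rw [Finset.mul_sum]
      refine Finset.sum_congr rfl fun m _ => ?_
      rw [hdiag, Complex.mul_conj, Complex.normSq_eq_norm_sq]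
      push_cast
      ring
    rw [hM, ← Finset.sum_sub_distrib]
    refine Finset.sum_congr rfl fun m hm => ?_
    rw [← Finset.sum_filter_add_sum_filter_not s (fun n => n ≠ m)]
    have : s.filter (fun n => ¬ (n ≠ m)) = {m} := by
      ext n
      simp only [Finset.mem_filter, not_not, Finset.mem_singleton]
      constructor
      · exact fun h => h.2
      · rintro rfl; exact ⟨hm, rfl⟩
    rw [this, Finset.sum_singleton]
    ring
  have hnorm : |(∫ t in t₀..(t₀ + H), ‖DP f t‖ ^ 2) - H * M2 f X| ≤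
      ∑ m ∈ s, ∑ n ∈ s.filter (fun n => n ≠ m),
        ‖a m‖ * ‖a n‖ * (2 / |Real.log n - Real.log m|) := by
    rw [← Real.norm_eq_abs, ← Complex.norm_real, hdiff]
    refine (norm_sum_le _ _).trans (Finset.sum_le_sum fun m hm => ?_)
    refine (norm_sum_le _ _).trans (Finset.sum_le_sum fun n hn => ?_)
    rw [norm_mul, norm_mul, RCLike.norm_conj]
    refine mul_le_mul_of_nonneg_left ?_ (by positivity)
    have hn' := Finset.mem_filter.mp hn
    have hm1 := (Finset.mem_Icc.mp hm).1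
    have hn1 := (Finset.mem_Icc.mp hn'.1).1
    have hne : Real.log n - Real.log m ≠ 0 := by
      intro h
      have h' : Real.log n = Real.log m := by linarith
      have := Real.log_injOn_pos (by simp; omega : (n : ℝ) ∈ Set.Ioi (0 : ℝ))
        (by simp; omega : (m : ℝ) ∈ Set.Ioi (0 : ℝ)) h'
      exact hn'.2 (by exact_mod_cast this)
    exact norm_osc_le _ hne _ _
  refine hnorm.trans ?_
  rw [hM2]
  exact sum_sym_le s (fun m => ‖a m‖) (fun n m => 2 / |Real.log n - Real.log m|)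
    (fun m n => by rw [abs_sub_comm]) (fun m n => by positivity) _
    (fun m hm => sum_off_diag_le X m hm)

end Pool.Agent.RAux
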