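import Mathlib

/-!
Size conditions for large `N`.
-/

set_option autoImplicit false

open Filter Topology

namespace Pool.Agent.RAux

/-- The common length. -/
noncomputable def XX (N : ℕ) (η : ℝ) : ℕ := ⌊(N : ℝ) ^ (2 - 2 * η)⌋₊

/-- All the size conditions for large `N`: use `2 log N - 3 ≤ L ≤ 2 log N + 3`, so
`(N e^{-ηL} e^{ηL/4})² ≤ N^{2-3η} e^{9η/2}`, `N e^{ηL/4} e^{L/4} ≤ N^{3/2+η/2} e`, and
`8 (1 + 2 log N) ≤ N^η` etc. for large `N`. -/
theorem sizes (η : ℝ) (hη : 0 < η) (hη1 : η ≤ 1 / 64) :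
    ∃ N₁ : ℕ, ∀ N : ℕ, N₁ ≤ N → 1 ≤ N ∧
      8 * (XX N η : ℝ) * (1 + Real.log (XX N η)) ≤ (N : ℝ) ^ (2 - η) ∧
      (N : ℝ) ^ (3 / 2 : ℝ) ≤ XX N η ∧ 6 ≤ Real.log N ∧
      ∀ L : ℝ, |L - 2 * Real.log N| ≤ 3 → Real.log N ≤ L ∧ L ≤ 3 * Real.log N ∧ 0 < L ∧
        ((N : ℝ) * Real.exp (-(η * L)) * Real.exp (η / 4 * L)) ^ 2 ≤ XX N η ∧
        (N : ℝ) * Real.exp (η / 4 * L) * Real.exp (L / 8) * Real.exp (L / 8) ≤ XX N η := by
  refine ⟨⌈Real.exp (48 / η ^ 2)⌉₊, fun N hN => ?_⟩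
  have h1 : Real.exp (48 / η ^ 2) ≤ N := (Nat.le_ceil _).trans (by exact_mod_cast hN)
  have hNpos : (0 : ℝ) < N := (Real.exp_pos _).trans_le h1
  have hN' : (N : ℝ) = Real.exp (Real.log N) := (Real.exp_log hNpos).symm
  have hl : 48 / η ^ 2 ≤ Real.log N := by
    rw [Real.le_log_iff_exp_le hNpos]; exact h1
  set l := Real.log N with hldef
  have hη2 : 48 ≤ η ^ 2 * l := by
    rw [div_le_iff₀ (by positivity)] at hl
    linarith
  have hl0 : 0 < l := by
    by_contra hcon
    have : η ^ 2 * l ≤ 0 := mul_nonpos_of_nonneg_of_nonpos (by positivity) (not_lt.1 hcon)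
    linarith
  have hηl : 3072 ≤ η * l := by
    have h2 : η * (η * l) ≤ 1 / 64 * (η * l) := by
      have : 0 ≤ η * l := by positivity
      nlinarith
    nlinarith
  have hl1 : 6 ≤ l := by nlinarith
  have hlog2 : Real.log 2 ≤ 1 := by
    have := Real.log_two_lt_d9
    linarith
  have hpow : ∀ a : ℝ, (N : ℝ) ^ a = Real.exp (l * a) := fun a => by
    rw [Real.rpow_def_of_pos hNpos]
  have hXle : (XX N η : ℝ) ≤ Real.exp (l * (2 - 2 * η)) := by
    unfold XX
    rw [← hpow]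
    exact Nat.floor_le (by positivity)
  have hXge : Real.exp (l * (2 - 2 * η) - Real.log 2) ≤ XX N η := by
    rw [Real.exp_sub, Real.exp_log (by norm_num : (0 : ℝ) < 2)]
    have h2 : Real.exp (l * (2 - 2 * η)) < XX N η + 1 := by
      unfold XX
      rw [← hpow]
      exact Nat.lt_floor_add_one _
    have h3 : 2 ≤ Real.exp (l * (2 - 2 * η)) := by
      have := Real.add_one_le_exp (l * (2 - 2 * η))
      nlinarith
    linarith
  have hXpos : (0 : ℝ) < XX N η := (Real.exp_pos _).trans_le hXge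
  refine ⟨?_, ?_, ?_, hl1, ?_⟩
  · have : 0 < N := by exact_mod_cast hNpos
    exact this
  · have h2 : Real.log (XX N η) ≤ 2 * l := by
      rw [Real.log_le_iff_le_exp hXpos]
      refine hXle.trans (Real.exp_le_exp.2 ?_)
      nlinarith
    have h3 : 8 * (1 + 2 * l) ≤ Real.exp (η * l) := by
      have h4 := Real.quadratic_le_exp_of_nonneg (x := η * l) (by positivity)
      nlinarith
    calc 8 * (XX N η : ℝ) * (1 + Real.log (XX N η))
        ≤ 8 * Real.exp (l * (2 - 2 * η)) * (1 + 2 * l) := by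
          refine mul_le_mul (by linarith) (by linarith) ?_ (by positivity)
          have : 0 ≤ Real.log (XX N η) := Real.log_natCast_nonneg _
          linarith
      _ = Real.exp (l * (2 - 2 * η)) * (8 * (1 + 2 * l)) := by ring
      _ ≤ Real.exp (l * (2 - 2 * η)) * Real.exp (η * l) := by gcongr
      _ = (N : ℝ) ^ (2 - η) := by
          rw [hpow, ← Real.exp_add]
          congr 1
          ring
  · refine le_trans ?_ hXge
    rw [hpow]
    refine Real.exp_le_exp.2 ?_
    nlinarith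
  · intro L hL
    obtain ⟨h2, h3⟩ := abs_le.1 hL
    refine ⟨by linarith, by linarith, by linarith, ?_, ?_⟩
    · refine le_trans (le_of_eq ?_) (le_trans (Real.exp_le_exp.2
        (?_ : 2 * (l + -(η * L) + η / 4 * L) ≤ _)) hXge)
      · rw [hN', ← Real.exp_add, ← Real.exp_add, ← Real.exp_nat_mul]
        push_cast
        rfl
      · nlinarith
    · refine le_trans (le_of_eq ?_) (le_trans (Real.exp_le_exp.2
        (?_ : l + η / 4 * L + L / 8 + L / 8 ≤ _)) hXge)
      · rw [hN', ← Real.exp_add, ← Real.exp_add, ← Real.exp_add]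
      · nlinarith

end Pool.Agent.RAux
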