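import Mathlib
import Pool.Agent.RAux.Defs

/-!
Fourier–Laplace representation of the cut-off functions.

`psi a μ K` has Laplace transform `K! a^K / ∏_{j=0}^{K} (w - μ a + j a)` (induction on `K`, using
`Φ_K(w) = Φ_{K-1}(w) - Φ_{K-1}(w+a)`), and on the line `Re w = c₁ > μ a` Fourier inversion
(`MeasureTheory.Integrable.fourierInv_fourier_eq` or `Continuous.fourierInv_fourier_eq`) applies to
the continuous integrable function `y ↦ psi a μ K y * e^{-c₁ y}` (`K ≥ 1`).
-/

set_option autoImplicit false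

open Complex MeasureTheory Filter Topology

namespace Pool.Agent.RAux

open scoped FourierTransform

/-- The Laplace transform as a rational function. -/
private noncomputable def lapR (a : ℝ) (K : ℕ) (s : ℂ) : ℂ :=
  ((K.factorial : ℂ) * (a : ℂ) ^ K) / ∏ j ∈ Finset.range (K + 1), (s + (j : ℂ) * (a : ℂ))

private lemma lap_integrable (a : ℝ) (K : ℕ) (s : ℂ) (ha : 0 < a) (hs : 0 < s.re) :
    IntegrableOn (fun y : ℝ => Complex.exp (-s * y) * (1 - Complex.exp (-((a : ℂ) * y))) ^ K)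
      (Set.Ioi 0) := by
  have h1 : IntegrableOn (fun y : ℝ => Complex.exp (-s * y)) (Set.Ioi 0) :=
    integrableOn_exp_mul_complex_Ioi (by simpa using hs) 0
  refine Integrable.mono' h1.norm (Continuous.aestronglyMeasurable (by fun_prop)) ?_
  refine (ae_restrict_iff' measurableSet_Ioi).mpr (Eventually.of_forall fun y hy => ?_)
  have hy0 : (0 : ℝ) < y := hy
  rw [norm_mul]
  have h2 : ‖(1 - Complex.exp (-((a : ℂ) * y))) ^ K‖ ≤ 1 := by
    rw [norm_pow]
    refine pow_le_one₀ (norm_nonneg _) ?_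
    have h3 : (1 - Complex.exp (-((a : ℂ) * y))) = ((1 - Real.exp (-(a * y)) : ℝ) : ℂ) := by
      push_cast; ring_nf
    rw [h3, Complex.norm_real, Real.norm_eq_abs, abs_le]
    have h4 : 0 < Real.exp (-(a * y)) := Real.exp_pos _
    have h5 : Real.exp (-(a * y)) ≤ 1 := by
      rw [Real.exp_le_one_iff]; nlinarith
    constructor <;> linarith
  calc ‖Complex.exp (-s * y)‖ * ‖(1 - Complex.exp (-((a : ℂ) * y))) ^ K‖
      ≤ ‖Complex.exp (-s * y)‖ * 1 := mul_le_mul_of_nonneg_left h2 (norm_nonneg _)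
    _ = _ := mul_one _

private lemma lap_ne (a : ℝ) (s : ℂ) (ha : 0 < a) (hs : 0 < s.re) :
    ∀ j : ℕ, s + (j : ℂ) * (a : ℂ) ≠ 0 := by
  intro j h
  have h1 := congrArg Complex.re h
  simp at h1
  have : 0 ≤ (j : ℝ) * a := by positivity
  linarith

private lemma lap_eq (a : ℝ) (ha : 0 < a) : ∀ (K : ℕ) (s : ℂ), 0 < s.re →
    ∫ y : ℝ in Set.Ioi 0, Complex.exp (-s * y) * (1 - Complex.exp (-((a : ℂ) * y))) ^ K
      = lapR a K s := by
  intro K
  induction K with
  | zero =>
    intro s hs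
    simp only [pow_zero, mul_one]
    rw [integral_exp_mul_complex_Ioi (by simpa using hs)]
    simp [lapR]
  | succ K ih =>
    intro s hs
    have hsa : 0 < (s + (a : ℂ)).re := by simp; linarith
    have e1 : ∀ y : ℝ, Complex.exp (-s * y) * (1 - Complex.exp (-((a : ℂ) * y))) ^ (K + 1)
        = Complex.exp (-s * y) * (1 - Complex.exp (-((a : ℂ) * y))) ^ K
          - Complex.exp (-(s + (a : ℂ)) * y) * (1 - Complex.exp (-((a : ℂ) * y))) ^ K := by
      intro y
      have : Complex.exp (-(s + (a : ℂ)) * y)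
          = Complex.exp (-s * y) * Complex.exp (-((a : ℂ) * y)) := by
        rw [← Complex.exp_add]; congr 1; ring
      rw [this, pow_succ]; ring
    simp_rw [e1]
    rw [integral_sub (lap_integrable a K s ha hs) (lap_integrable a K _ ha hsa), ih s hs,
      ih _ hsa]
    unfold lapR
    have hne := lap_ne a s ha hs
    have p1 : ∏ j ∈ Finset.range (K + 1 + 1), (s + (j : ℂ) * (a : ℂ))
        = (∏ j ∈ Finset.range (K + 1), (s + (j : ℂ) * (a : ℂ))) * (s + ((K + 1 : ℕ) : ℂ) * a) :=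
      Finset.prod_range_succ _ _
    have p2 : ∏ j ∈ Finset.range (K + 1 + 1), (s + (j : ℂ) * (a : ℂ))
        = (∏ j ∈ Finset.range (K + 1), (s + (a : ℂ) + (j : ℂ) * (a : ℂ))) * s := by
      rw [Finset.prod_range_succ']
      congr 1
      · refine Finset.prod_congr rfl fun j _ => ?_
        push_cast; ring
      · simp
    have n1 : ∏ j ∈ Finset.range (K + 1), (s + (j : ℂ) * (a : ℂ)) ≠ 0 :=
      Finset.prod_ne_zero_iff.mpr fun j _ => hne j
    have n2 : ∏ j ∈ Finset.range (K + 1), (s + (a : ℂ) + (j : ℂ) * (a : ℂ)) ≠ 0 :=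
      Finset.prod_ne_zero_iff.mpr fun j _ => lap_ne a _ ha hsa j
    have n3 : s ≠ 0 := by simpa using hne 0
    have n4 : (s + ((K + 1 : ℕ) : ℂ) * a) ≠ 0 := hne (K + 1)
    have n5 : ∏ j ∈ Finset.range (K + 1 + 1), (s + (j : ℂ) * (a : ℂ)) ≠ 0 :=
      Finset.prod_ne_zero_iff.mpr fun j _ => hne j
    have q1 : ((K.factorial : ℂ) * (a : ℂ) ^ K) / ∏ j ∈ Finset.range (K + 1), (s + (j : ℂ) * (a : ℂ))
        = ((K.factorial : ℂ) * (a : ℂ) ^ K) * (s + ((K + 1 : ℕ) : ℂ) * a) /
          ∏ j ∈ Finset.range (K + 1 + 1), (s + (j : ℂ) * (a : ℂ)) := by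
      rw [p1, mul_div_mul_right _ _ n4]
    have q2 : ((K.factorial : ℂ) * (a : ℂ) ^ K) /
          ∏ j ∈ Finset.range (K + 1), (s + (a : ℂ) + (j : ℂ) * (a : ℂ))
        = ((K.factorial : ℂ) * (a : ℂ) ^ K) * s /
          ∏ j ∈ Finset.range (K + 1 + 1), (s + (j : ℂ) * (a : ℂ)) := by
      rw [p2, mul_div_mul_right _ _ n3]
    rw [q1, q2, ← sub_div]
    congr 1
    rw [Nat.factorial_succ]
    push_cast
    ring

private lemma lapR_bound (a σ : ℝ) (K : ℕ) (ha : 0 < a) (hσ : 0 < σ) (z : ℝ) :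
    ‖lapR a K ((σ : ℂ) + (z : ℂ) * Complex.I)‖
      ≤ (K.factorial * a ^ K * (2 / min σ 1) ^ (K + 1)) * ((1 + |z|) ^ (K + 1))⁻¹ := by
  have hm : 0 < min σ 1 := lt_min hσ one_pos
  have key : ∀ j : ℕ, min σ 1 / 2 * (1 + |z|) ≤
      ‖(σ : ℂ) + (z : ℂ) * Complex.I + (j : ℂ) * (a : ℂ)‖ := by
    intro j
    have h1 : |((σ : ℂ) + (z : ℂ) * Complex.I + (j : ℂ) * (a : ℂ)).re| ≤
      ‖(σ : ℂ) + (z : ℂ) * Complex.I + (j : ℂ) * (a : ℂ)‖ := Complex.abs_re_le_norm _
    have h2 : |((σ : ℂ) + (z : ℂ) * Complex.I + (j : ℂ) * (a : ℂ)).im| ≤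
      ‖(σ : ℂ) + (z : ℂ) * Complex.I + (j : ℂ) * (a : ℂ)‖ := Complex.abs_im_le_norm _
    simp at h1 h2
    have h3 : 0 ≤ (j : ℝ) * a := by positivity
    rw [abs_of_nonneg (by linarith)] at h1
    have h4 : min σ 1 ≤ σ := min_le_left _ _
    have h5 : min σ 1 ≤ 1 := min_le_right _ _
    have h6 : 0 ≤ |z| := abs_nonneg z
    nlinarith
  have hpos : 0 < min σ 1 / 2 * (1 + |z|) := by positivity
  unfold lapR
  rw [norm_div, norm_mul, norm_pow, Complex.norm_natCast, Complex.norm_real, Real.norm_eq_abs,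
    abs_of_pos ha, norm_prod]
  have hprod : (min σ 1 / 2 * (1 + |z|)) ^ (K + 1) ≤
      ∏ j ∈ Finset.range (K + 1), ‖(σ : ℂ) + (z : ℂ) * Complex.I + (j : ℂ) * (a : ℂ)‖ := by
    calc (min σ 1 / 2 * (1 + |z|)) ^ (K + 1)
        = ∏ j ∈ Finset.range (K + 1), (min σ 1 / 2 * (1 + |z|)) := by simp
      _ ≤ _ := Finset.prod_le_prod (fun _ _ => hpos.le) fun j _ => key j
  calc (K.factorial : ℝ) * a ^ K /
        ∏ j ∈ Finset.range (K + 1), ‖(σ : ℂ) + (z : ℂ) * Complex.I + (j : ℂ) * (a : ℂ)‖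
      ≤ (K.factorial : ℝ) * a ^ K / (min σ 1 / 2 * (1 + |z|)) ^ (K + 1) :=
        div_le_div_of_nonneg_left (by positivity) (by positivity) hprod
    _ = _ := by
        rw [mul_pow, div_pow, div_pow]
        field_simp

private lemma lapR_cont (a σ : ℝ) (K : ℕ) (ha : 0 < a) (hσ : 0 < σ) :
    Continuous fun z : ℝ => lapR a K ((σ : ℂ) + (z : ℂ) * Complex.I) := by
  unfold lapR
  refine Continuous.div continuous_const ?_ ?_
  · fun_prop
  · intro z
    refine Finset.prod_ne_zero_iff.mpr fun j _ => lap_ne a _ ha ?_ j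
    simpa using hσ

theorem psi_rep (a μ c₁ : ℝ) (K : ℕ) (ha : 0 < a) (hK : 1 ≤ K) (hc : μ * a < c₁) :
    ∃ B : ℝ, 0 ≤ B ∧ Rep (psi a μ K) c₁ (K - 1) B := by
  set σ : ℝ := c₁ - μ * a with hσd
  have hσ : 0 < σ := by linarith
  set C : ℝ := K.factorial * a ^ K * (2 / min σ 1) ^ (K + 1) with hC
  have hm : 0 < min σ 1 := lt_min hσ one_pos
  have hC0 : 0 ≤ C := by positivity
  -- the function to be inverted
  set f : ℝ → ℂ := fun y => ((psi a μ K y : ℝ) : ℂ) * Complex.exp (-((c₁ : ℂ) * y)) with hf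
  have hfpos : ∀ y : ℝ, 0 ≤ y → f y =
      Complex.exp (-(σ : ℂ) * y) * (1 - Complex.exp (-((a : ℂ) * y))) ^ K := by
    intro y hy
    simp only [hf, psi, if_pos hy]
    push_cast
    have : Complex.exp (-(σ : ℂ) * y) = Complex.exp ((μ : ℂ) * a * y)
        * Complex.exp (-((c₁ : ℂ) * y)) := by
      rw [← Complex.exp_add, hσd]; congr 1; push_cast; ring
    rw [this]; ring
  have hfneg : ∀ y : ℝ, y < 0 → f y = 0 := by
    intro y hy
    simp [hf, psi, not_le.mpr hy]
  have hpsic : Continuous (psi a μ K) := by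
    unfold psi
    refine Continuous.if_le (by fun_prop) continuous_const continuous_const continuous_id ?_
    intro y hy
    have : y = 0 := hy.symm
    subst this
    simp
    omega
  have hfc : Continuous f := by
    have : Continuous fun y : ℝ => ((psi a μ K y : ℝ) : ℂ) := continuous_ofReal.comp hpsic
    exact this.mul (by fun_prop)
  have hfi1 : IntegrableOn f (Set.Ioi 0) := by
    have := lap_integrable a K (σ : ℂ) ha (by simpa using hσ)
    refine this.congr_fun (fun y hy => ?_) measurableSet_Ioi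
    rw [hfpos y (le_of_lt hy)]
  have hfi2 : IntegrableOn f (Set.Iic 0) := by
    have : IntegrableOn (fun _ : ℝ => (0 : ℂ)) (Set.Iic 0) := integrableOn_zero
    refine this.congr_fun (fun y hy => ?_) measurableSet_Iic
    rcases lt_or_eq_of_le (show y ≤ 0 from hy) with h | h
    · rw [hfneg y h]
    · subst h
      rw [hfpos 0 le_rfl]
      simp [show K ≠ 0 by omega]
  have hfi : Integrable f := by
    rw [← integrableOn_univ, ← Set.Iic_union_Ioi (a := (0 : ℝ))]
    exact hfi2.union hfi1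
  have hfour : ∀ ξ : ℝ, 𝓕 f ξ = lapR a K ((σ : ℂ) + ((2 * Real.pi * ξ : ℝ) : ℂ) * Complex.I) := by
    intro ξ
    rw [Real.fourier_real_eq_integral_exp_smul]
    have hre : 0 < ((σ : ℂ) + ((2 * Real.pi * ξ : ℝ) : ℂ) * Complex.I).re := by
      simp; exact hσ
    rw [← lap_eq a ha K _ hre]
    rw [← setIntegral_eq_integral_of_forall_compl_eq_zero (s := Set.Ioi 0)]
    · refine setIntegral_congr_fun measurableSet_Ioi fun y hy => ?_
      have hy0 : (0 : ℝ) ≤ y := le_of_lt hy
      simp only [smul_eq_mul]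
      rw [hfpos y hy0, ← mul_assoc, ← Complex.exp_add]
      congr 2
      push_cast
      ring
    · intro y hy
      have hy0 : y ≤ 0 := by simpa using hy
      rcases lt_or_eq_of_le hy0 with h | h
      · rw [hfneg y h]; simp
      · subst h
        rw [hfpos 0 le_rfl]
        simp
        omega
  have hdecay : Integrable (fun z : ℝ => lapR a K ((σ : ℂ) + (z : ℂ) * Complex.I)) := by
    have hint : Integrable fun z : ℝ => (1 + z ^ 2)⁻¹ := integrable_inv_one_add_sq
    refine Integrable.mono' (hint.const_mul C) (lapR_cont a σ K ha hσ).aestronglyMeasurable ?_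
    refine Eventually.of_forall fun z => ?_
    refine (lapR_bound a σ K ha hσ z).trans ?_
    refine mul_le_mul_of_nonneg_left ?_ hC0
    refine inv_anti₀ (by positivity) ?_
    have h1 : (1 : ℝ) ≤ 1 + |z| := by have := abs_nonneg z; linarith
    calc 1 + z ^ 2 ≤ (1 + |z|) ^ 2 := by
          have := abs_nonneg z
          nlinarith [sq_abs z]
      _ ≤ (1 + |z|) ^ (K + 1) := pow_le_pow_right₀ h1 (by omega)
  have hFi : Integrable (𝓕 f) := by
    have : 𝓕 f = fun ξ : ℝ => lapR a K ((σ : ℂ) + ((2 * Real.pi * ξ : ℝ) : ℂ) * Complex.I) :=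
      funext hfour
    rw [this]
    exact hdecay.comp_mul_left' (by positivity : (2 * Real.pi : ℝ) ≠ 0)
  have hinv := hfc.fourierInv_fourier_eq hfi hFi
  refine ⟨C / (2 * Real.pi), by positivity,
    fun z => (1 / (2 * Real.pi) : ℂ) * lapR a K ((σ : ℂ) + (z : ℂ) * Complex.I), ?_, ?_, ?_⟩
  · exact continuous_const.mul (lapR_cont a σ K ha hσ)
  · intro z
    rw [norm_mul]
    have h1 : ‖(1 / (2 * Real.pi) : ℂ)‖ = 1 / (2 * Real.pi) := by
      rw [norm_div, norm_mul]; simp [abs_of_pos Real.pi_pos]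
    rw [h1]
    have hb := lapR_bound a σ K ha hσ z
    have hK2 : K - 1 + 2 = K + 1 := by omega
    rw [hK2]
    calc 1 / (2 * Real.pi) * ‖lapR a K ((σ : ℂ) + (z : ℂ) * Complex.I)‖
        ≤ 1 / (2 * Real.pi) * (C * ((1 + |z|) ^ (K + 1))⁻¹) :=
          mul_le_mul_of_nonneg_left hb (by positivity)
      _ = _ := by ring
  · intro y
    have h1 : f y = ∫ ξ : ℝ, Complex.exp (((2 * Real.pi * ξ * y : ℝ) : ℂ) * Complex.I) *
        lapR a K ((σ : ℂ) + ((2 * Real.pi * ξ : ℝ) : ℂ) * Complex.I) := by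
      have := congrFun hinv y
      rw [Real.fourierInv_eq'] at this
      rw [← this]
      refine integral_congr_ae (Eventually.of_forall fun ξ => ?_)
      simp only [smul_eq_mul]
      rw [hfour]
      congr 2
      push_cast
      simp
      ring
    have h2 : (∫ ξ : ℝ, Complex.exp (((2 * Real.pi * ξ * y : ℝ) : ℂ) * Complex.I) *
        lapR a K ((σ : ℂ) + ((2 * Real.pi * ξ : ℝ) : ℂ) * Complex.I))
        = |(2 * Real.pi)⁻¹| • ∫ z : ℝ, Complex.exp (((z * y : ℝ) : ℂ) * Complex.I) *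
        lapR a K ((σ : ℂ) + (z : ℂ) * Complex.I) := by
      exact Measure.integral_comp_mul_left (fun z : ℝ => Complex.exp (((z * y : ℝ) : ℂ) * Complex.I) *
        lapR a K ((σ : ℂ) + (z : ℂ) * Complex.I)) (2 * Real.pi)
    have h3 : ((psi a μ K y : ℝ) : ℂ) = f y * Complex.exp ((c₁ : ℂ) * y) := by
      simp only [hf]
      rw [mul_assoc, ← Complex.exp_add]
      simp
    rw [h3, h1, h2, abs_of_pos (by positivity), Complex.real_smul, mul_assoc, ← integral_mul_const,
      ← integral_const_mul]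
    refine integral_congr_ae (Eventually.of_forall fun z => ?_)
    simp only
    have h4 : Complex.exp (((c₁ : ℂ) + (z : ℂ) * Complex.I) * y)
        = Complex.exp (((z * y : ℝ) : ℂ) * Complex.I) * Complex.exp ((c₁ : ℂ) * y) := by
      rw [← Complex.exp_add]; congr 1; push_cast; ring
    rw [h4]
    push_cast
    ring

end Pool.Agent.RAux
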