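import Mathlib
import Pool.Agent.RAux.Defs
import Pool.Agent.RAux.FourierRep

/-!
Fourier–Laplace representation of the differences.
-/

set_option autoImplicit false

open Complex MeasureTheory Filter Topology

namespace Pool.Agent.RAux

theorem psi_neg (a μ : ℝ) (K : ℕ) (y : ℝ) (hy : y < 0) : psi a μ K y = 0 := by
  simp [psi, not_le.mpr hy]

theorem fr_norm_exp (c₁ z y : ℝ) :
    ‖Complex.exp (((c₁ : ℂ) + (z : ℂ) * Complex.I) * y)‖ = Real.exp (c₁ * y) := by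
  rw [Complex.norm_exp]
  congr 1
  simp

theorem fr_integrable (Ψ : ℝ → ℂ) (c₁ : ℝ) (J : ℕ) (B : ℝ) (hΨ : Continuous Ψ)
    (hb : ∀ z : ℝ, ‖Ψ z‖ ≤ B * ((1 + |z|) ^ (J + 2))⁻¹) (y : ℝ) :
    Integrable (fun z : ℝ => Ψ z * Complex.exp (((c₁ : ℂ) + (z : ℂ) * Complex.I) * y)) := by
  have h1 : Integrable (fun z : ℝ => (1 + ‖z‖) ^ (-(2 : ℝ))) :=
    integrable_one_add_norm (by simp)
  have hB : 0 ≤ B := by
    have := (norm_nonneg _).trans (hb 0)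
    simpa using this
  refine (h1.const_mul (B * Real.exp (c₁ * y))).mono' (by fun_prop)
    (Filter.Eventually.of_forall fun z => ?_)
  rw [norm_mul, fr_norm_exp]
  have h2 : ((1 + |z|) ^ (J + 2))⁻¹ ≤ (1 + ‖z‖) ^ (-(2 : ℝ)) := by
    rw [Real.norm_eq_abs, Real.rpow_neg (by positivity), Real.rpow_two]
    have : (1 + |z|) ^ 2 ≤ (1 + |z|) ^ (J + 2) :=
      pow_le_pow_right₀ (by linarith [abs_nonneg z]) (by omega)
    gcongr
  calc ‖Ψ z‖ * Real.exp (c₁ * y) ≤ B * ((1 + |z|) ^ (J + 2))⁻¹ * Real.exp (c₁ * y) :=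
        mul_le_mul_of_nonneg_right (hb z) (Real.exp_pos _).le
    _ ≤ B * (1 + ‖z‖) ^ (-(2 : ℝ)) * Real.exp (c₁ * y) := by gcongr
    _ = _ := by ring

/-- Density of a difference. -/
theorem fr_ddif (a c₁ : ℝ) (K k : ℕ) (η : ℝ) (Ψ : ℝ → ℂ) (J : ℕ) (B : ℝ) (hΨ : Continuous Ψ)
    (hb : ∀ z : ℝ, ‖Ψ z‖ ≤ B * ((1 + |z|) ^ (J + 2))⁻¹)
    (hr : ∀ y : ℝ, ((psi a (-1) K y : ℝ) : ℂ) =
      ∫ z : ℝ, Ψ z * Complex.exp (((c₁ : ℂ) + (z : ℂ) * Complex.I) * y)) (y : ℝ) :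
    ((ddif a K k η y : ℝ) : ℂ) = ∫ z : ℝ, Ψ z *
      (1 - Complex.exp (-(((c₁ : ℂ) + (z : ℂ) * Complex.I) * η))) ^ k *
        Complex.exp (((c₁ : ℂ) + (z : ℂ) * Complex.I) * y) := by
  unfold ddif
  push_cast
  simp_rw [hr]
  have h1 : ∀ j ∈ Finset.range (k + 1), (-1 : ℂ) ^ j * ((k.choose j : ℕ) : ℂ) *
      ∫ z : ℝ, Ψ z * Complex.exp (((c₁ : ℂ) + (z : ℂ) * Complex.I) * ((y - j * η : ℝ) : ℂ)) =
      ∫ z : ℝ, (-1 : ℂ) ^ j * ((k.choose j : ℕ) : ℂ) *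
        (Ψ z * Complex.exp (((c₁ : ℂ) + (z : ℂ) * Complex.I) * ((y - j * η : ℝ) : ℂ))) := by
    intro j _
    rw [← integral_const_mul]
  rw [Finset.sum_congr rfl h1, ← integral_finsetSum]
  · congr 1
    ext z
    have h2 : ∀ j : ℕ, Complex.exp (((c₁ : ℂ) + (z : ℂ) * Complex.I) * ((y - j * η : ℝ) : ℂ)) =
        Complex.exp (-(((c₁ : ℂ) + (z : ℂ) * Complex.I) * η)) ^ j *
          Complex.exp (((c₁ : ℂ) + (z : ℂ) * Complex.I) * y) := by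
      intro j
      rw [← Complex.exp_nat_mul, ← Complex.exp_add]
      congr 1
      push_cast
      ring
    simp_rw [h2]
    rw [show (1 : ℂ) - Complex.exp (-(((c₁ : ℂ) + (z : ℂ) * Complex.I) * η)) =
      -Complex.exp (-(((c₁ : ℂ) + (z : ℂ) * Complex.I) * η)) + 1 by ring, add_pow,
      Finset.mul_sum, Finset.sum_mul]
    refine Finset.sum_congr rfl fun j _ => ?_
    rw [one_pow, neg_pow (Complex.exp (-(((c₁ : ℂ) + (z : ℂ) * Complex.I) * η))) j]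
    ring
  · intro j _
    exact (fr_integrable Ψ c₁ J B hΨ hb (y - j * η)).const_mul _

/-- `|1 - e^{-w}| ≤ |w|` for `Re w ≥ 0`. -/
theorem fr_one_sub (w : ℂ) (hw : 0 ≤ w.re) : ‖1 - Complex.exp (-w)‖ ≤ ‖w‖ := by
  have hs : Convex ℝ {x : ℂ | x.re ≤ 0} := convex_halfSpace_re_le 0
  have h := hs.norm_image_sub_le_of_norm_hasDerivWithin_le (𝕜 := ℂ) (f := Complex.exp)
    (f' := Complex.exp) (C := 1) (x := -w) (y := 0)
    (fun x _ => (Complex.hasDerivAt_exp x).hasDerivWithinAt)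
    (fun x hx => by
      rw [Complex.norm_exp]
      exact Real.exp_le_one_iff.2 hx) (by simpa using hw) (by simp)
  simpa using h

/-- The `k`-th difference with step `η ≤ 1` has density `Ψ(z) (1 - e^{-(c₁+iz)η})^k`, which is
`O(η^k (1+|z|)^k |Ψ(z)|)`. -/
theorem ddif_rep (a c₁ : ℝ) (K k : ℕ) (ha : 0 < a) (hk : k + 1 ≤ K) (hc : 0 < c₁) :
    ∃ B : ℝ, 0 ≤ B ∧ ∀ η : ℝ, 0 < η → η ≤ 1 → Rep (ddif a K k η) c₁ (K - 1 - k) (B * η ^ k) := by
  obtain ⟨B, hB, Ψ, hΨ, hb, hr⟩ := psi_rep a (-1) c₁ K ha (by omega) (by linarith)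
  refine ⟨B * (1 + c₁) ^ k, by positivity, fun η hη _ => ?_⟩
  refine ⟨fun z => Ψ z * (1 - Complex.exp (-(((c₁ : ℂ) + (z : ℂ) * Complex.I) * η))) ^ k,
    by fun_prop, fun z => ?_, fun y => fr_ddif a c₁ K k η Ψ (K - 1) B hΨ hb hr y⟩
  have h1 : ‖1 - Complex.exp (-(((c₁ : ℂ) + (z : ℂ) * Complex.I) * η))‖ ≤
      (1 + c₁) * η * (1 + |z|) := by
    refine (fr_one_sub _ ?_).trans ?_
    · simp
      positivity
    · rw [norm_mul, Complex.norm_real, Real.norm_eq_abs, abs_of_pos hη]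
      have h2 : ‖(c₁ : ℂ) + (z : ℂ) * Complex.I‖ ≤ c₁ + |z| := by
        refine (norm_add_le _ _).trans ?_
        rw [norm_mul, Complex.norm_I, mul_one, Complex.norm_real, Complex.norm_real,
          Real.norm_eq_abs, Real.norm_eq_abs, abs_of_pos hc]
      have h3 : c₁ + |z| ≤ (1 + c₁) * (1 + |z|) := by nlinarith [abs_nonneg z]
      calc ‖(c₁ : ℂ) + (z : ℂ) * Complex.I‖ * η ≤ (1 + c₁) * (1 + |z|) * η := by
            gcongr
            exact h2.trans h3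
        _ = _ := by ring
  rw [norm_mul, norm_pow]
  have hz : 0 < 1 + |z| := by positivity
  calc ‖Ψ z‖ * ‖1 - Complex.exp (-(((c₁ : ℂ) + (z : ℂ) * Complex.I) * η))‖ ^ k
      ≤ B * ((1 + |z|) ^ (K - 1 + 2))⁻¹ * ((1 + c₁) * η * (1 + |z|)) ^ k := by
        gcongr
        exact hb z
    _ = B * (1 + c₁) ^ k * η ^ k * ((1 + |z|) ^ (K - 1 - k + 2))⁻¹ := by
        rw [show K - 1 + 2 = (K - 1 - k + 2) + k by omega, pow_add, mul_inv, mul_pow, mul_pow]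
        have : ((1 + |z|) ^ k)⁻¹ * (1 + |z|) ^ k = 1 := inv_mul_cancel₀ (by positivity)
        calc _ = B * (1 + c₁) ^ k * η ^ k * ((1 + |z|) ^ (K - 1 - k + 2))⁻¹ *
              (((1 + |z|) ^ k)⁻¹ * (1 + |z|) ^ k) := by ring
          _ = _ := by rw [this, mul_one]

/-- `dpr` has density `Ψ(z) (1 - (1 - e^{-(c₁+iz)η})^k)`. -/
theorem dpr_rep (a c₁ : ℝ) (K k : ℕ) (ha : 0 < a) (hK : 1 ≤ K) (hc : 0 < c₁) :
    ∃ B : ℝ, 0 ≤ B ∧ ∀ η : ℝ, 0 < η → Rep (dpr a K k η) c₁ (K - 1) B := by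
  obtain ⟨B, hB, Ψ, hΨ, hb, hr⟩ := psi_rep a (-1) c₁ K ha (by omega) (by linarith)
  refine ⟨B * (1 + 2 ^ k), by positivity, fun η hη => ?_⟩
  have h1 : ∀ z : ℝ, ‖1 - Complex.exp (-(((c₁ : ℂ) + (z : ℂ) * Complex.I) * η))‖ ≤ 2 := by
    intro z
    refine (norm_sub_le _ _).trans ?_
    have : ‖Complex.exp (-(((c₁ : ℂ) + (z : ℂ) * Complex.I) * η))‖ ≤ 1 := by
      rw [Complex.norm_exp]
      refine Real.exp_le_one_iff.2 ?_
      simp
      positivity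
    rw [norm_one]
    linarith
  refine ⟨fun z => Ψ z * (1 - (1 - Complex.exp (-(((c₁ : ℂ) + (z : ℂ) * Complex.I) * η))) ^ k),
    by fun_prop, fun z => ?_, fun y => ?_⟩
  · rw [norm_mul]
    have h2 : ‖1 - (1 - Complex.exp (-(((c₁ : ℂ) + (z : ℂ) * Complex.I) * η))) ^ k‖ ≤
        1 + 2 ^ k := by
      refine (norm_sub_le _ _).trans ?_
      rw [norm_one, norm_pow]
      have := pow_le_pow_left₀ (norm_nonneg _) (h1 z) k
      linarith
    calc _ ≤ B * ((1 + |z|) ^ (K - 1 + 2))⁻¹ * (1 + 2 ^ k) :=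
          mul_le_mul (hb z) h2 (norm_nonneg _) (by positivity)
      _ = _ := by ring
  · unfold dpr
    rw [Complex.ofReal_sub, hr y, fr_ddif a c₁ K k η Ψ (K - 1) B hΨ hb hr y, ← integral_sub]
    · congr 1
      ext z
      ring
    · exact fr_integrable Ψ c₁ (K - 1) B hΨ hb y
    · refine fr_integrable (fun z => Ψ z *
        (1 - Complex.exp (-(((c₁ : ℂ) + (z : ℂ) * Complex.I) * η))) ^ k) c₁ (K - 1) (B * 2 ^ k)
        (by fun_prop) (fun z => ?_) y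
      rw [norm_mul, norm_pow]
      calc _ ≤ B * ((1 + |z|) ^ (K - 1 + 2))⁻¹ * 2 ^ k :=
            mul_le_mul (hb z) (pow_le_pow_left₀ (norm_nonneg _) (h1 z) k) (by positivity)
              (by positivity)
        _ = _ := by ring

theorem Rep.mono {h : ℝ → ℝ} {c₁ B B' : ℝ} {J J' : ℕ} (hh : Rep h c₁ J B) (hJ : J' ≤ J)
    (hB : B ≤ B') (hB0 : 0 ≤ B) : Rep h c₁ J' B' := by
  obtain ⟨Ψ, hΨ, hb, hr⟩ := hh
  refine ⟨Ψ, hΨ, fun z => (hb z).trans ?_, hr⟩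
  have : (1 + |z|) ^ (J' + 2) ≤ (1 + |z|) ^ (J + 2) :=
    pow_le_pow_right₀ (by linarith [abs_nonneg z]) (by omega)
  have hz : 0 < 1 + |z| := by positivity
  have hB' : 0 ≤ B' := hB0.trans hB
  gcongr

/-- `dpr` is supported on `y ≥ η`: the term `j = 0` of the difference cancels. -/
theorem dpr_support (a : ℝ) (K k : ℕ) (η : ℝ) (hη : 0 < η) (y : ℝ) (hy : y < η) :
    dpr a K k η y = 0 := by
  unfold dpr ddif
  rw [Finset.sum_eq_single 0]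
  · simp
  · intro j _ hj
    rw [psi_neg, mul_zero]
    have h1 : (1 : ℝ) ≤ j := by exact_mod_cast Nat.one_le_iff_ne_zero.2 hj
    nlinarith
  · intro h
    exact absurd (Finset.mem_range.2 (Nat.succ_pos k)) h

theorem ddif_neg (a : ℝ) (K k : ℕ) (η : ℝ) (hη : 0 < η) (y : ℝ) (hy : y < 0) :
    ddif a K k η y = 0 := by
  unfold ddif
  apply Finset.sum_eq_zero
  intro j _
  rw [psi_neg, mul_zero]
  have : 0 ≤ (j : ℝ) * η := by positivity
  linarith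

theorem dpr_neg (a : ℝ) (K k : ℕ) (η : ℝ) (hη : 0 < η) (y : ℝ) (hy : y < 0) :
    dpr a K k η y = 0 := by
  unfold dpr
  rw [psi_neg _ _ _ _ hy, ddif_neg _ _ _ _ hη _ hy, sub_zero]

end Pool.Agent.RAux
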