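import Mathlib
import Pool.Agent.RAux.Defs
import Pool.Agent.RAux.FourierRep2

/-!
Supports of the coefficient functions.
-/

set_option autoImplicit false

open Complex MeasureTheory Filter Topology

namespace Pool.Agent.RAux

lemma arP_apply (h : ℝ → ℝ) (N : ℕ) (L : ℝ) (n : ℕ) :
    arP h N L n = if n = 0 then 0 else if n ≤ N then ((h (yv N L n) : ℝ) : ℂ) else 0 := rfl

lemma moll_apply (K₁ : ℕ) (l0 : ℝ) (d : ℕ) :
    moll K₁ l0 d = ((ArithmeticFunction.moebius d : ℤ) : ℂ) *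
    ((psi 1 0 K₁ (1 - Real.log d / l0) : ℝ) : ℂ) := rfl

open Classical in
lemma qf_apply (lam : ℕ) (l1 l2 : ℝ) (dm n : ℕ) :
    qf lam l1 l2 dm n = if midSq l1 l2 n ∧ n.primeFactors.card ≤ dm then
      (-(lam : ℂ)) ^ n.primeFactors.card else 0 := rfl

lemma arP_supp (h : ℝ → ℝ) (N : ℕ) (L : ℝ) : ∀ m, N < m → arP h N L m = 0 := by
  intro m hm
  rw [arP_apply, if_neg (by omega), if_neg (by omega)]

lemma dpr_supp (a : ℝ) (K k : ℕ) (η : ℝ) (hη : 0 < η) (N : ℕ) (L : ℝ) (hL : 0 < L) (hN : 1 ≤ N) :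
    ∀ m, ⌊(N : ℝ) * Real.exp (-(η * L))⌋₊ < m → arP (dpr a K k η) N L m = 0 := by
  intro m hm
  rw [arP_apply]
  have hm0 : m ≠ 0 := by omega
  rw [if_neg hm0]
  split_ifs with h
  · have hmpos : (0 : ℝ) < m := by exact_mod_cast Nat.pos_of_ne_zero hm0
    have hNpos : (0 : ℝ) < N := by exact_mod_cast hN
    have h1 : (N : ℝ) * Real.exp (-(η * L)) < m := by
      rwa [Nat.floor_lt (by positivity)] at hm
    rw [dpr_support a K k η hη]
    · simp
    · rw [yv, div_lt_iff₀ hL]
      have h2 : (N : ℝ) / m < Real.exp (η * L) := by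
        rw [div_lt_iff₀ hmpos]
        calc (N : ℝ) = Real.exp (η * L) * (N * Real.exp (-(η * L))) := by
              rw [Real.exp_neg]; field_simp
          _ < Real.exp (η * L) * m := by
              apply mul_lt_mul_of_pos_left h1 (Real.exp_pos _)
      calc Real.log ((N : ℝ) / m) < Real.log (Real.exp (η * L)) :=
            Real.log_lt_log (by positivity) h2
        _ = η * L := Real.log_exp _
  · rfl

lemma moll_supp (K₁ : ℕ) (l0 : ℝ) (h0 : 0 < l0) : ∀ m, ⌊Real.exp l0⌋₊ < m → moll K₁ l0 m = 0 := by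
  intro m hm
  have h1 : Real.exp l0 < m := by
    rwa [Nat.floor_lt (Real.exp_pos _).le] at hm
  have h2 : l0 < Real.log m := by
    rw [Real.lt_log_iff_exp_lt ((Real.exp_pos _).trans h1)]
    exact h1
  rw [moll_apply, psi_neg]
  · simp
  · have : 1 < Real.log m / l0 := by rwa [lt_div_iff₀ h0, one_mul]
    linarith

lemma midSq_le (l1 l2 : ℝ) (n : ℕ) (hn : midSq l1 l2 n) :
    (n : ℝ) ≤ Real.exp (l2 * n.primeFactors.card) := by
  obtain ⟨hsq, hp⟩ := hn
  have h0 : n ≠ 0 := hsq.ne_zero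
  have hprod : ∏ p ∈ n.primeFactors, p = n := Nat.prod_primeFactors_of_squarefree hsq
  calc (n : ℝ) = ∏ p ∈ n.primeFactors, (p : ℝ) := by
        conv_lhs => rw [← hprod]
        push_cast; rfl
    _ ≤ ∏ p ∈ n.primeFactors, Real.exp l2 := by
        apply Finset.prod_le_prod
        · intro p _; positivity
        · intro p hp'
          have hpos : (0 : ℝ) < p := by exact_mod_cast (Nat.prime_of_mem_primeFactors hp').pos
          rw [← Real.log_le_iff_le_exp hpos]
          exact (hp p hp').2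
    _ = Real.exp (l2 * n.primeFactors.card) := by
        rw [Finset.prod_const, ← Real.exp_nat_mul]; ring_nf

lemma qf_supp (lam : ℕ) (l1 l2 : ℝ) (dm : ℕ) (h2 : 0 ≤ l2) :
    ∀ m, ⌊Real.exp (l2 * dm)⌋₊ < m → qf lam l1 l2 dm m = 0 := by
  intro m hm
  have h1 : Real.exp (l2 * dm) < m := by
    rwa [Nat.floor_lt (Real.exp_pos _).le] at hm
  rw [qf_apply, if_neg]
  rintro ⟨h, hc⟩
  have := midSq_le l1 l2 m h
  have h3 : Real.exp (l2 * m.primeFactors.card) ≤ Real.exp (l2 * dm) := by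
    apply Real.exp_le_exp.mpr
    apply mul_le_mul_of_nonneg_left _ h2
    exact_mod_cast hc
  linarith

/-- `M2` does not depend on `X` beyond the support. -/
lemma M2_eq_of_supp (f : ArithmeticFunction ℂ) (X Y : ℕ) (hf : ∀ m, X < m → f m = 0)
    (hXY : X ≤ Y) : M2 f X = M2 f Y := by
  unfold M2
  apply Finset.sum_subset (Finset.Icc_subset_Icc_right hXY)
  intro m hm hm'
  rw [Finset.mem_Icc] at hm
  have : X < m := by
    by_contra h
    exact hm' (Finset.mem_Icc.mpr ⟨hm.1, by omega⟩)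
  rw [hf m this]; simp

lemma M2_nonneg (f : ArithmeticFunction ℂ) (X : ℕ) : 0 ≤ M2 f X := by
  unfold M2
  apply Finset.sum_nonneg
  intro m _
  positivity

end Pool.Agent.RAux
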