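import Mathlib
import Pool.Agent.RAux.Defs
import Pool.Agent.RAux.MeanValue
import Pool.Agent.RAux.Supp
import Pool.Agent.RAux.Sizes

/-!
Lengths of the polynomials.
-/

set_option autoImplicit false

open Complex MeasureTheory Filter Topology

namespace Pool.Agent.RAux

lemma floor_mul_floor_le (x y : ℝ) (hx : 0 ≤ x) (hy : 0 ≤ y) (Z : ℕ) (h : x * y ≤ Z) :
    ⌊x⌋₊ * ⌊y⌋₊ ≤ Z := by
  have h1 : ((⌊x⌋₊ * ⌊y⌋₊ : ℕ) : ℝ) ≤ Z := by
    push_cast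
    calc (⌊x⌋₊ : ℝ) * ⌊y⌋₊ ≤ x * y :=
          mul_le_mul (Nat.floor_le hx) (Nat.floor_le hy) (by positivity) hx
      _ ≤ Z := h
  exact_mod_cast h1

/-- Convolution of functions with real length bounds. -/
lemma conv_supp_real (f g : ArithmeticFunction ℂ) (x y z : ℝ) (hx : 0 ≤ x) (hy : 0 ≤ y)
    (hf : ∀ m : ℕ, x < m → f m = 0) (hg : ∀ m : ℕ, y < m → g m = 0) (hz : x * y ≤ z) :
    ∀ m : ℕ, z < m → (f * g) m = 0 := by
  intro m hm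
  refine conv_support f g ⌊x⌋₊ ⌊y⌋₊ (fun k hk => hf k ?_) (fun k hk => hg k ?_) m ?_
  · rwa [Nat.floor_lt hx] at hk
  · rwa [Nat.floor_lt hy] at hk
  · have h1 : ((⌊x⌋₊ * ⌊y⌋₊ : ℕ) : ℝ) < m := by
      push_cast
      calc (⌊x⌋₊ : ℝ) * ⌊y⌋₊ ≤ x * y :=
            mul_le_mul (Nat.floor_le hx) (Nat.floor_le hy) (by positivity) hx
        _ ≤ z := hz
        _ < m := hm
    exact_mod_cast h1

lemma qf_len (lam : ℕ) (A ξ L : ℝ) (hL : 0 < L) (hx2 : 0 < x2 A ξ) :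
    ∀ m : ℕ, Real.exp (L / 8) < m → qf lam (ξ * L) (x2 A ξ * L) (dmx A ξ) m = 0 := by
  intro m hm
  apply qf_supp _ _ _ _ (by positivity)
  rw [Nat.floor_lt (Real.exp_pos _).le]
  refine lt_of_le_of_lt (Real.exp_le_exp.mpr ?_) hm
  have h1 : (dmx A ξ : ℝ) ≤ 1 / (8 * x2 A ξ) := by
    unfold dmx
    apply Nat.floor_le
    positivity
  calc x2 A ξ * L * (dmx A ξ : ℝ) ≤ x2 A ξ * L * (1 / (8 * x2 A ξ)) :=
        mul_le_mul_of_nonneg_left h1 (by positivity)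
    _ = L / 8 := by field_simp

lemma moll_len (K₁ : ℕ) (ξ L : ℝ) (hL : 0 < L) (hξ : 0 < ξ) :
    ∀ m : ℕ, Real.exp (ξ ^ 3 / 4 * L) < m → moll K₁ (x0 ξ * L) m = 0 := by
  intro m hm
  apply moll_supp _ _ (by unfold x0; positivity)
  rw [Nat.floor_lt (Real.exp_pos _).le]
  exact hm

lemma arP_len (h : ℝ → ℝ) (N : ℕ) (L : ℝ) : ∀ m : ℕ, (N : ℝ) < m → arP h N L m = 0 := by
  intro m hm
  apply arP_supp
  exact_mod_cast hm

lemma dpr_len (a : ℝ) (K k : ℕ) (η : ℝ) (hη : 0 < η) (N : ℕ) (L : ℝ) (hL : 0 < L) (hN : 1 ≤ N) :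
    ∀ m : ℕ, (N : ℝ) * Real.exp (-(η * L)) < m → arP (dpr a K k η) N L m = 0 := by
  intro m hm
  apply dpr_supp a K k η hη N L hL hN
  rwa [Nat.floor_lt (by positivity)]

/-- Upper and lower mean value bounds for polynomials of length at most `X`. -/
lemma mv_both (f : ArithmeticFunction ℂ) (X : ℕ) (hf : ∀ m, X < m → f m = 0) (t₀ H : ℝ)
    (hH0 : 0 ≤ H) (hH : 8 * (X : ℝ) * (1 + Real.log X) ≤ H) :
    H / 2 * M2 f X ≤ (∫ t in t₀..(t₀ + H), ‖DP f t‖ ^ 2) ∧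
    (∫ t in t₀..(t₀ + H), ‖DP f t‖ ^ 2) ≤ 3 / 2 * H * M2 f X := by
  have h := abs_le.mp (mean_value f X hf t₀ H hH0)
  have h2 := M2_nonneg f X
  have h3 : 4 * (X : ℝ) * (1 + Real.log X) * M2 f X ≤ H / 2 * M2 f X :=
    mul_le_mul_of_nonneg_right (by linarith) h2
  constructor
  · linarith [h.1]
  · linarith [h.2]

end Pool.Agent.RAux
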