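import Mathlib
import Pool.Agent.RAux.Defs

/-!
Finite Euler products.
-/

set_option autoImplicit false

open Complex MeasureTheory Filter Topology

namespace Pool.Agent.RAux

theorem euler_bound_aux (g : ℕ → ℝ) (E : ℕ → ℝ) (h0 : ∀ n, 0 ≤ g n) (h1 : g 1 = 1)
    (hmul : ∀ m n : ℕ, m.Coprime n → g (m * n) = g m * g n) (P : Finset ℕ)
    (hP : ∀ p ∈ P, p.Prime)
    (hE : ∀ p ∈ P, ∀ A : ℕ, ∑ j ∈ Finset.Icc 1 A, g (p ^ j) ≤ E p) :
    ∀ S : Finset ℕ, (∀ m ∈ S, m ≠ 0 ∧ m.primeFactors ⊆ P) →
    ∑ m ∈ S, g m ≤ ∏ p ∈ P, (1 + E p) := by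
  classical
  induction P using Finset.induction_on with
  | empty =>
    intro S hS
    have : S ⊆ {1} := by
      intro m hm
      obtain ⟨hm0, hm1⟩ := hS m hm
      rw [Finset.subset_empty, Nat.primeFactors_eq_empty] at hm1
      simp only [Finset.mem_singleton]
      omega
    calc ∑ m ∈ S, g m ≤ ∑ m ∈ {1}, g m := Finset.sum_le_sum_of_subset_of_nonneg this
          (fun i _ _ => h0 i)
      _ = ∏ p ∈ (∅ : Finset ℕ), (1 + E p) := by simp [h1]
  | insert p P hpP ih =>
    intro S hS
    have hp : p.Prime := hP p (Finset.mem_insert_self _ _)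
    have ih' := ih (fun q hq => hP q (Finset.mem_insert_of_mem hq))
      (fun q hq => hE q (Finset.mem_insert_of_mem hq))
    set S' : Finset ℕ := S.image (fun m => m / p ^ m.factorization p) with hS'
    set A : ℕ := S.sup (fun m => m.factorization p) with hA
    have hS'P : ∀ m ∈ S', m ≠ 0 ∧ m.primeFactors ⊆ P := by
      intro m hm
      rw [hS', Finset.mem_image] at hm
      obtain ⟨n, hn, rfl⟩ := hm
      obtain ⟨hn0, hnP⟩ := hS n hn
      refine ⟨(Nat.ordCompl_pos p hn0).ne', ?_⟩
      intro q hq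
      have hq1 : q ∈ n.primeFactors :=
        Nat.primeFactors_mono (Nat.ordCompl_dvd n p) hn0 hq
      have hq2 := hnP hq1
      rw [Finset.mem_insert] at hq2
      rcases hq2 with rfl | hq2
      · exfalso
        have := Nat.dvd_of_mem_primeFactors hq
        exact Nat.not_dvd_ordCompl hp hn0 this
      · exact hq2
    have hprod : ∀ m ∈ S, g m = g (p ^ m.factorization p) * g (m / p ^ m.factorization p) := by
      intro m hm
      obtain ⟨hm0, _⟩ := hS m hm
      rw [← hmul _ _ ((Nat.coprime_ordCompl hp hm0).pow_left _), Nat.ordProj_mul_ordCompl_eq_self]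
    have hstep : ∑ m ∈ S, g m ≤ ∑ x ∈ Finset.range (A + 1) ×ˢ S', g (p ^ x.1) * g x.2 := by
      have hinj : Set.InjOn (fun m : ℕ => (m.factorization p, m / p ^ m.factorization p)) S := by
        intro m _ n _ hmn
        simp only [Prod.mk.injEq] at hmn
        obtain ⟨h2, h3⟩ := hmn
        rw [← Nat.ordProj_mul_ordCompl_eq_self m p, ← Nat.ordProj_mul_ordCompl_eq_self n p, h3, h2]
      calc ∑ m ∈ S, g m = ∑ m ∈ S, g (p ^ (m.factorization p, m / p ^ m.factorization p).1) *
          g (m.factorization p, m / p ^ m.factorization p).2 :=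
            Finset.sum_congr rfl hprod
        _ = ∑ x ∈ S.image (fun m : ℕ => (m.factorization p, m / p ^ m.factorization p)),
            g (p ^ x.1) * g x.2 := by
            rw [Finset.sum_image hinj]
        _ ≤ _ := by
            apply Finset.sum_le_sum_of_subset_of_nonneg
            · intro x hx
              rw [Finset.mem_image] at hx
              obtain ⟨m, hm, rfl⟩ := hx
              rw [Finset.mem_product, Finset.mem_range]
              refine ⟨Nat.lt_succ_of_le ?_, Finset.mem_image_of_mem _ hm⟩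
              exact Finset.le_sup (f := fun m : ℕ => m.factorization p) hm
            · intro x _ _
              exact mul_nonneg (h0 _) (h0 _)
    have hfac : ∑ j ∈ Finset.range (A + 1), g (p ^ j) ≤ 1 + E p := by
      rw [Finset.sum_range_succ', pow_zero, h1, add_comm]
      have : ∑ j ∈ Finset.range A, g (p ^ (j + 1)) = ∑ j ∈ Finset.Icc 1 A, g (p ^ j) := by
        rw [Finset.range_eq_Ico, Finset.sum_Ico_add' (fun j => g (p ^ j)) 0 A 1]
        rfl
      rw [this]
      have := hE p (Finset.mem_insert_self _ _) A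
      linarith
    rw [Finset.sum_product] at hstep
    simp only [] at hstep
    rw [← Finset.sum_mul_sum] at hstep
    rw [Finset.prod_insert hpP]
    calc ∑ m ∈ S, g m ≤ (∑ j ∈ Finset.range (A + 1), g (p ^ j)) * ∑ m ∈ S', g m := hstep
      _ ≤ (1 + E p) * ∏ q ∈ P, (1 + E q) := by
          apply mul_le_mul hfac (ih' S' hS'P) (Finset.sum_nonneg fun i _ => h0 i)
          have := hE p (Finset.mem_insert_self _ _) 0
          simp at this
          linarith

/-- Finite Euler product bound. -/
theorem euler_bound (g : ℕ → ℝ) (N : ℕ) (E : ℕ → ℝ) (h0 : ∀ n, 0 ≤ g n) (h1 : g 1 = 1)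
    (hmul : ∀ m n : ℕ, m.Coprime n → g (m * n) = g m * g n)
    (hE : ∀ p : ℕ, p.Prime → p ≤ N → ∀ A : ℕ, ∑ j ∈ Finset.Icc 1 A, g (p ^ j) ≤ E p)
    (S : Finset ℕ) (hS : ∀ m ∈ S, m ≠ 0 ∧ ∀ p ∈ m.primeFactors, p ≤ N) :
    ∑ m ∈ S, g m ≤ Real.exp (∑ p ∈ Nat.primesLE N, E p) := by
  have h := euler_bound_aux g E h0 h1 hmul (Nat.primesLE N)
    (fun p hp => Nat.prime_of_mem_primesLE hp)
    (fun p hp A => hE p (Nat.prime_of_mem_primesLE hp) (Nat.le_of_mem_primesLE hp) A) S
    (fun m hm => ⟨(hS m hm).1, fun p hp => by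
      rw [Nat.mem_primesLE]
      exact ⟨(hS m hm).2 p hp, Nat.prime_of_mem_primeFactors hp⟩⟩)
  refine h.trans ?_
  rw [Real.exp_sum]
  apply Finset.prod_le_prod
  · intro p hp
    have := hE p (Nat.prime_of_mem_primesLE hp) (Nat.le_of_mem_primesLE hp) 0
    simp at this
    linarith
  · intro p _
    have := Real.add_one_le_exp (E p)
    linarith

/-- The set of integers up to `X` all of whose prime factors are at most `N`. -/
noncomputable def smo (N X : ℕ) : Finset ℕ :=
  (Finset.Icc 1 X).filter (fun m => ∀ p ∈ m.primeFactors, p ≤ N)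

end Pool.Agent.RAux
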