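import Mathlib
import Pool.Agent.RAux.Defs

/-!
The local bound for the multiplicative functions in the integral representation.
-/

set_option autoImplicit false

open Complex MeasureTheory Filter Topology

namespace Pool.Agent.RAux

/-- `n ↦ n^{-s}`. -/
noncomputable def pw (s : ℂ) : ArithmeticFunction ℂ :=
  ⟨fun n => if n = 0 then 0 else (n : ℂ) ^ (-s), by simp⟩

open Classical in
/-- `d ↦ μ(d) d^{-s}` on the integers all of whose primes satisfy `log p ≤ l0`. -/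
noncomputable def mus (l0 : ℝ) (s : ℂ) : ArithmeticFunction ℂ :=
  ⟨fun d => if ∀ p ∈ d.primeFactors, Real.log p ≤ l0 then
    ((ArithmeticFunction.moebius d : ℤ) : ℂ) * (d : ℂ) ^ (-s) else 0, by simp⟩

/-! ### Values and multiplicativity -/

theorem pw_apply (s : ℂ) {n : ℕ} (hn : n ≠ 0) : pw s n = (n : ℂ) ^ (-s) := by
  simp [pw, hn]

theorem pw_mul (s : ℂ) {m n : ℕ} (hm : m ≠ 0) (hn : n ≠ 0) : pw s (m * n) = pw s m * pw s n := by
  rw [pw_apply s hm, pw_apply s hn, pw_apply s (Nat.mul_ne_zero hm hn), Nat.cast_mul,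
    Complex.natCast_mul_natCast_cpow]

theorem pw_isMultiplicative (s : ℂ) : (pw s).IsMultiplicative := by
  rw [ArithmeticFunction.IsMultiplicative.iff_ne_zero]
  refine ⟨by simp [pw], fun {m n} hm hn _ => pw_mul s hm hn⟩

theorem mus_isMultiplicative (l0 : ℝ) (s : ℂ) : (mus l0 s).IsMultiplicative := by
  classical
  rw [ArithmeticFunction.IsMultiplicative.iff_ne_zero]
  refine ⟨by simp [mus, Nat.not_prime_one], fun {m n} hm hn hmn => ?_⟩
  have h1 : (ArithmeticFunction.moebius (m * n) : ℤ) =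
      ArithmeticFunction.moebius m * ArithmeticFunction.moebius n :=
    ArithmeticFunction.isMultiplicative_moebius.map_mul_of_coprime hmn
  have h2 : ((m * n : ℕ) : ℂ) ^ (-s) = (m : ℂ) ^ (-s) * (n : ℂ) ^ (-s) := by
    rw [Nat.cast_mul, Complex.natCast_mul_natCast_cpow]
  have h3 : (∀ p ∈ (m * n).primeFactors, Real.log p ≤ l0) ↔
      (∀ p ∈ m.primeFactors, Real.log p ≤ l0) ∧ (∀ p ∈ n.primeFactors, Real.log p ≤ l0) := by
    rw [Nat.primeFactors_mul hm hn]
    constructor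
    · intro h
      exact ⟨fun p hp => h p (Finset.mem_union_left _ hp),
        fun p hp => h p (Finset.mem_union_right _ hp)⟩
    · rintro ⟨ha, hb⟩ p hp
      rcases Finset.mem_union.1 hp with hp | hp
      · exact ha p hp
      · exact hb p hp
  simp only [mus, ArithmeticFunction.coe_mk]
  by_cases ha : ∀ p ∈ m.primeFactors, Real.log p ≤ l0
  · by_cases hb : ∀ p ∈ n.primeFactors, Real.log p ≤ l0
    · rw [if_pos (h3.2 ⟨ha, hb⟩), if_pos ha, if_pos hb, h1, h2]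
      push_cast
      ring
    · rw [if_neg (fun h => hb (h3.1 h).2), if_neg hb, mul_zero]
  · rw [if_neg (fun h => ha (h3.1 h).1), if_neg ha, zero_mul]

theorem midSq_mul {l1 l2 : ℝ} {m n : ℕ} (hm : m ≠ 0) (hn : n ≠ 0) (hmn : m.Coprime n) :
    midSq l1 l2 (m * n) ↔ midSq l1 l2 m ∧ midSq l1 l2 n := by
  unfold midSq
  rw [Nat.squarefree_mul hmn, Nat.primeFactors_mul hm hn]
  constructor
  · rintro ⟨⟨h1, h2⟩, h3⟩
    exact ⟨⟨h1, fun p hp => h3 p (Finset.mem_union_left _ hp)⟩,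
      ⟨h2, fun p hp => h3 p (Finset.mem_union_right _ hp)⟩⟩
  · rintro ⟨⟨h1, h2⟩, ⟨h3, h4⟩⟩
    refine ⟨⟨h1, h3⟩, fun p hp => ?_⟩
    rcases Finset.mem_union.1 hp with hp | hp
    · exact h2 p hp
    · exact h4 p hp

theorem kap_isMultiplicative {S : Type*} [CommRing S] (A : S) (l1 l2 : ℝ) :
    (kap A l1 l2).IsMultiplicative := by
  classical
  rw [ArithmeticFunction.IsMultiplicative.iff_ne_zero]
  refine ⟨by simp [kap, midSq, Nat.not_prime_one], fun {m n} hm hn hmn => ?_⟩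
  have h3 := midSq_mul (l1 := l1) (l2 := l2) hm hn hmn
  have h4 : (m * n).primeFactors.card = m.primeFactors.card + n.primeFactors.card := by
    rw [Nat.primeFactors_mul hm hn, Finset.card_union_of_disjoint hmn.disjoint_primeFactors]
  simp only [kap, ArithmeticFunction.coe_mk]
  by_cases ha : midSq l1 l2 m
  · by_cases hb : midSq l1 l2 n
    · rw [if_pos (h3.2 ⟨ha, hb⟩), if_pos ha, if_pos hb, h4, pow_add]
    · rw [if_neg (fun h => hb (h3.1 h).2), if_neg hb, mul_zero]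
  · rw [if_neg (fun h => ha (h3.1 h).1), if_neg ha, zero_mul]

/-- The value of a convolution at a prime power when the second factor vanishes at the squares
and higher powers. -/
theorem mul_prime_pow_of_sq (f g : ArithmeticFunction ℂ) {p : ℕ} (hp : p.Prime) (a : ℕ)
    (hg1 : g 1 = 1) (hg : ∀ i, 2 ≤ i → g (p ^ i) = 0) :
    (f * g) (p ^ (a + 1)) = f (p ^ (a + 1)) + f (p ^ a) * g p := by
  rw [ArithmeticFunction.mul_apply, Nat.sum_divisorsAntidiagonal' (fun i j => f i * g j),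
    Nat.sum_divisors_prime_pow hp]
  rw [Finset.sum_range_succ', Finset.sum_range_succ']
  have h0 : ∑ k ∈ Finset.range a, f (p ^ (a + 1) / p ^ (k + 1 + 1)) * g (p ^ (k + 1 + 1)) = 0 :=
    Finset.sum_eq_zero fun k _ => by rw [hg _ (by omega), mul_zero]
  rw [h0]
  have h1 : p ^ (a + 1) / p ^ (0 + 1) = p ^ a := by
    rw [zero_add, pow_one, pow_succ, Nat.mul_div_cancel _ hp.pos]
  rw [h1]
  simp [hg1]
  ring

theorem mus_one (l0 : ℝ) (s : ℂ) : mus l0 s 1 = 1 := (mus_isMultiplicative l0 s).map_one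

theorem mus_sq (l0 : ℝ) (s : ℂ) {p : ℕ} (hp : p.Prime) {i : ℕ} (hi : 2 ≤ i) :
    mus l0 s (p ^ i) = 0 := by
  have : (ArithmeticFunction.moebius (p ^ i) : ℤ) = 0 := by
    rw [ArithmeticFunction.moebius_apply_prime_pow hp (by omega), if_neg (by omega)]
  simp [mus, this]

theorem mus_prime (l0 : ℝ) (s : ℂ) {p : ℕ} (hp : p.Prime) :
    mus l0 s p = if Real.log p ≤ l0 then -(p : ℂ) ^ (-s) else 0 := by
  simp only [mus, ArithmeticFunction.coe_mk, hp.primeFactors, Finset.mem_singleton, forall_eq,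
    ArithmeticFunction.moebius_apply_prime hp]
  simp

theorem kap_sq {S : Type*} [CommRing S] (A : S) (l1 l2 : ℝ) {p : ℕ} (hp : p.Prime) {i : ℕ}
    (hi : 2 ≤ i) : kap A l1 l2 (p ^ i) = 0 := by
  have : ¬ midSq l1 l2 (p ^ i) := by
    rintro ⟨h, -⟩
    have h1 : p * p ∣ p ^ i := by
      rw [← pow_two]
      exact pow_dvd_pow p hi
    exact hp.one_lt.ne' (Nat.isUnit_iff.1 (h p h1))
  simp [kap, this]

theorem kap_prime {S : Type*} [CommRing S] (A : S) (l1 l2 : ℝ) {p : ℕ} (hp : p.Prime) :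
    kap A l1 l2 p = if l1 < Real.log p ∧ Real.log p ≤ l2 then A else 0 := by
  have h : midSq l1 l2 p ↔ (l1 < Real.log p ∧ Real.log p ≤ l2) := by
    simp [midSq, hp.primeFactors, hp.prime.squarefree]
  simp only [kap, ArithmeticFunction.coe_mk, h, hp.primeFactors, Finset.card_singleton, pow_one]

/-! ### Bounds -/

/-- `|e^{-u} - e^{-v}| ≤ |u - v|` in the right half-plane. -/
theorem norm_exp_neg_sub_le {u v : ℂ} (hu : 0 ≤ u.re) (hv : 0 ≤ v.re) :
    ‖Complex.exp (-u) - Complex.exp (-v)‖ ≤ ‖u - v‖ := by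
  have hconv : Convex ℝ {w : ℂ | 0 ≤ w.re} := convex_halfSpace_re_ge 0
  have hd : ∀ x ∈ {w : ℂ | 0 ≤ w.re},
      HasDerivWithinAt (fun w : ℂ => Complex.exp (-w)) (-Complex.exp (-x)) {w : ℂ | 0 ≤ w.re} x := by
    intro x _
    have h1 : HasDerivAt (fun w : ℂ => Complex.exp (-w)) (Complex.exp (-x) * (-1)) x :=
      (hasDerivAt_neg x).cexp
    have h2 : Complex.exp (-x) * (-1) = -Complex.exp (-x) := by ring
    rw [h2] at h1
    exact h1.hasDerivWithinAt
  have hb : ∀ x ∈ {w : ℂ | 0 ≤ w.re}, ‖-Complex.exp (-x)‖ ≤ 1 := by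
    intro x hx
    rw [norm_neg, Complex.norm_exp]
    simpa using hx
  have := hconv.norm_image_sub_le_of_norm_hasDerivWithin_le hd hb (x := v) (y := u) hv hu
  simpa using this

theorem norm_natCast_cpow_neg_le_one {n : ℕ} (hn : 0 < n) {s : ℂ} (hs : 0 ≤ s.re) :
    ‖(n : ℂ) ^ (-s)‖ ≤ 1 := by
  rw [Complex.norm_natCast_cpow_of_pos hn]
  apply Real.rpow_le_one_of_one_le_of_nonpos
  · exact_mod_cast hn
  · simpa using hs

theorem natCast_cpow_neg_eq {n : ℕ} (hn : 0 < n) (s : ℂ) :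
    (n : ℂ) ^ (-s) = Complex.exp (-((Real.log n : ℂ) * s)) := by
  have h : (n : ℂ) ≠ 0 := by exact_mod_cast hn.ne'
  rw [Complex.cpow_def_of_ne_zero h, ← Complex.natCast_log, mul_neg]

theorem norm_cpow_sub_le {n : ℕ} (hn : 0 < n) {s w : ℂ} (hs : 0 ≤ s.re) (hw : 0 ≤ w.re) :
    ‖(n : ℂ) ^ (-s) - (n : ℂ) ^ (-w)‖ ≤ ‖s - w‖ * Real.log n := by
  have hl : 0 ≤ Real.log n := Real.log_natCast_nonneg n
  rw [natCast_cpow_neg_eq hn, natCast_cpow_neg_eq hn]
  refine (norm_exp_neg_sub_le ?_ ?_).trans ?_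
  · rw [Complex.re_ofReal_mul]; positivity
  · rw [Complex.re_ofReal_mul]; positivity
  · rw [← mul_sub, norm_mul, Complex.norm_real, Real.norm_of_nonneg hl, mul_comm]

theorem beU_nonneg (lam : ℕ) {Δ L l0 : ℝ} (hΔ : 0 ≤ Δ) (hL : 0 ≤ L) (h0 : 0 ≤ l0) (l1 l2 : ℝ)
    (p : ℕ) : 0 ≤ beU lam Δ L l0 l1 l2 p := by
  have hl : 0 ≤ Real.log p := Real.log_natCast_nonneg p
  unfold beU
  split_ifs
  · positivity
  · positivity
  · positivity

/-- The bound at prime powers. -/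
theorem maj_local_prime_pow (c₁ z β L l0 l1 l2 : ℝ) (hc : 0 < c₁) (hL : 1 ≤ L) (h0 : 1 ≤ l0)
    (h0L : l0 ≤ L) (h01 : l0 ≤ l1) (lam : ℕ) {p : ℕ} (hp : p.Prime) (a : ℕ) :
    ‖(pw (((c₁ : ℂ) + (z : ℂ) * Complex.I) / L) * mus l0 ((1 + (β : ℂ) * Complex.I) / l0) *
      kap (-(lam : ℂ)) l1 l2) (p ^ (a + 1))‖ ≤ beU lam (c₁ + |z| + 1 + |β|) L l0 l1 l2 p := by
  set s₁ : ℂ := ((c₁ : ℂ) + (z : ℂ) * Complex.I) / L with hs₁
  set s₂ : ℂ := (1 + (β : ℂ) * Complex.I) / l0 with hs₂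
  have hLp : 0 < L := by linarith
  have h0p : 0 < l0 := by linarith
  have hl : 0 ≤ Real.log p := Real.log_natCast_nonneg p
  have hs₁re : 0 ≤ s₁.re := by
    rw [hs₁, Complex.div_ofReal_re]
    simp
    positivity
  have hs₂re : 0 ≤ s₂.re := by
    rw [hs₂, Complex.div_ofReal_re]
    simp
    positivity
  have hs₁n : ‖s₁‖ ≤ (c₁ + |z|) / L := by
    rw [hs₁, norm_div, Complex.norm_real, Real.norm_of_nonneg hLp.le]
    gcongr
    refine (norm_add_le _ _).trans ?_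
    rw [norm_mul, Complex.norm_I, mul_one, Complex.norm_real, Complex.norm_real,
      Real.norm_of_nonneg hc.le, Real.norm_eq_abs]
  have hs₂n : ‖s₂‖ ≤ (1 + |β|) / l0 := by
    rw [hs₂, norm_div, Complex.norm_real, Real.norm_of_nonneg h0p.le]
    gcongr
    refine (norm_add_le _ _).trans ?_
    rw [norm_mul, Complex.norm_I, mul_one, Complex.norm_real, norm_one, Real.norm_eq_abs]
  have hmulk : (pw s₁ * mus l0 s₂ * kap (-(lam : ℂ)) l1 l2) (p ^ (a + 1)) =
      (pw s₁ * mus l0 s₂) (p ^ (a + 1)) +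
        (pw s₁ * mus l0 s₂) (p ^ a) * kap (-(lam : ℂ)) l1 l2 p :=
    mul_prime_pow_of_sq _ _ hp a (kap_isMultiplicative _ _ _).map_one (fun i hi => kap_sq _ _ _ hp hi)
  have hmulm : ∀ b, (pw s₁ * mus l0 s₂) (p ^ (b + 1)) =
      pw s₁ (p ^ (b + 1)) + pw s₁ (p ^ b) * mus l0 s₂ p := fun b =>
    mul_prime_pow_of_sq _ _ hp b (mus_one _ _) (fun i hi => mus_sq _ _ hp hi)
  have hpw : ∀ b, ‖pw s₁ (p ^ b)‖ ≤ 1 := by
    intro b
    have h : 0 < p ^ b := pow_pos hp.pos b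
    rw [pw_apply _ h.ne']
    exact norm_natCast_cpow_neg_le_one h hs₁re
  have hpws : ∀ b, pw s₁ (p ^ (b + 1)) = pw s₁ (p ^ b) * (p : ℂ) ^ (-s₁) := by
    intro b
    rw [pow_succ, pw_mul _ (pow_pos hp.pos b).ne' hp.pos.ne', pw_apply _ hp.pos.ne']
  rw [hmulk, kap_prime _ _ _ hp]
  unfold beU
  by_cases h1 : Real.log p ≤ l0
  · rw [if_pos h1]
    have hnm : ¬ (l1 < Real.log p ∧ Real.log p ≤ l2) := fun h => by linarith [h.1]
    rw [if_neg hnm, mul_zero, add_zero, hmulm, mus_prime _ _ hp, if_pos h1, hpws]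
    have e : pw s₁ (p ^ a) * (p : ℂ) ^ (-s₁) + pw s₁ (p ^ a) * -(p : ℂ) ^ (-s₂) =
        pw s₁ (p ^ a) * ((p : ℂ) ^ (-s₁) - (p : ℂ) ^ (-s₂)) := by ring
    rw [e, norm_mul]
    refine (mul_le_of_le_one_left (norm_nonneg _) (hpw a)).trans (le_min ?_ ?_)
    · refine (norm_sub_le _ _).trans ?_
      have := norm_natCast_cpow_neg_le_one hp.pos hs₁re
      have := norm_natCast_cpow_neg_le_one hp.pos hs₂re
      linarith
    · refine (norm_cpow_sub_le hp.pos hs₁re hs₂re).trans ?_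
      have h3 : ‖s₁ - s₂‖ ≤ (c₁ + |z| + 1 + |β|) / l0 := by
        refine (norm_sub_le _ _).trans ?_
        have h4 : (c₁ + |z|) / L ≤ (c₁ + |z|) / l0 := by gcongr
        have h5 : (c₁ + |z| + 1 + |β|) / l0 = (c₁ + |z|) / l0 + (1 + |β|) / l0 := by ring
        rw [h5]
        linarith
      calc ‖s₁ - s₂‖ * Real.log p ≤ (c₁ + |z| + 1 + |β|) / l0 * Real.log p := by gcongr
        _ = (c₁ + |z| + 1 + |β|) * Real.log p / l0 := by ring
  · rw [if_neg h1]
    have hm0 : mus l0 s₂ p = 0 := by rw [mus_prime _ _ hp, if_neg h1]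
    have hval : ∀ b, (pw s₁ * mus l0 s₂) (p ^ b) = pw s₁ (p ^ b) := by
      intro b
      cases b with
      | zero =>
        rw [pow_zero]
        rw [((pw_isMultiplicative s₁).mul (mus_isMultiplicative l0 s₂)).map_one,
          (pw_isMultiplicative s₁).map_one]
      | succ b => rw [hmulm, hm0, mul_zero, add_zero]
    rw [hval, hval]
    by_cases h2 : l1 < Real.log p ∧ Real.log p ≤ l2
    · rw [if_pos h2, if_pos h2, hpws]
      have e : pw s₁ (p ^ a) * (p : ℂ) ^ (-s₁) + pw s₁ (p ^ a) * -(lam : ℂ) =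
          pw s₁ (p ^ a) * ((p : ℂ) ^ (-s₁) - (lam : ℂ)) := by ring
      rw [e, norm_mul]
      refine (mul_le_of_le_one_left (norm_nonneg _) (hpw a)).trans (le_min ?_ ?_)
      · refine (norm_sub_le _ _).trans ?_
        have h3 := norm_natCast_cpow_neg_le_one hp.pos hs₁re
        have h4 : ‖(lam : ℂ)‖ = lam := by simp
        rw [h4]
        linarith
      · have e2 : (p : ℂ) ^ (-s₁) - (lam : ℂ) = ((p : ℂ) ^ (-s₁) - (p : ℂ) ^ (-(0 : ℂ))) -
            (((lam : ℝ) - 1 : ℝ) : ℂ) := by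
          rw [neg_zero, Complex.cpow_zero]
          push_cast
          ring
        rw [e2]
        refine (norm_sub_le _ _).trans ?_
        rw [Complex.norm_real, Real.norm_eq_abs, add_comm]
        gcongr
        refine (norm_cpow_sub_le hp.pos hs₁re (by simp)).trans ?_
        rw [sub_zero]
        have h3 : ‖s₁‖ ≤ (c₁ + |z| + 1 + |β|) / L := by
          refine hs₁n.trans (div_le_div_of_nonneg_right ?_ hLp.le)
          linarith [abs_nonneg β]
        calc ‖s₁‖ * Real.log p ≤ (c₁ + |z| + 1 + |β|) / L * Real.log p := by gcongr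
          _ = (c₁ + |z| + 1 + |β|) * Real.log p / L := by ring
    · rw [if_neg h2, if_neg h2, mul_zero, add_zero]
      exact hpw _

/-- All three functions are multiplicative. With `s₁ = (c₁ + i z)/L`, `s₂ = (1 + i β)/l0` the
value at `p^a` (`a ≥ 1`) is `p^{-(a-1)s₁} (p^{-s₁} - p^{-s₂})` for `log p ≤ l0`,
`p^{-(a-1)s₁} (p^{-s₁} - lam)` for middle `p` and `p^{-a s₁}` otherwise; use
`|e^{-u} - e^{-v}| ≤ |u - v|` for `re u, re v ≥ 0`. -/
theorem maj_local (c₁ z β L l0 l1 l2 : ℝ) (hc : 0 < c₁) (hL : 1 ≤ L) (h0 : 1 ≤ l0) (h0L : l0 ≤ L)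
    (h01 : l0 ≤ l1) (h12 : l1 ≤ l2) (lam m : ℕ) :
    ‖(pw (((c₁ : ℂ) + (z : ℂ) * Complex.I) / L) * mus l0 ((1 + (β : ℂ) * Complex.I) / l0) *
      kap (-(lam : ℂ)) l1 l2) m‖ ≤ bU lam (c₁ + |z| + 1 + |β|) L l0 l1 l2 m := by
  rcases Nat.eq_zero_or_pos m with rfl | hm
  · simp
  have hmult : (pw (((c₁ : ℂ) + (z : ℂ) * Complex.I) / L) *
      mus l0 ((1 + (β : ℂ) * Complex.I) / l0) * kap (-(lam : ℂ)) l1 l2).IsMultiplicative :=
    ((pw_isMultiplicative _).mul (mus_isMultiplicative _ _)).mul (kap_isMultiplicative _ _ _)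
  rw [hmult.multiplicative_factorization _ hm.ne']
  have hb : bU lam (c₁ + |z| + 1 + |β|) L l0 l1 l2 m =
      ∏ p ∈ m.primeFactors, beU lam (c₁ + |z| + 1 + |β|) L l0 l1 l2 p := by
    simp [bU, hm.ne']
  rw [hb, Finsupp.prod, Nat.support_factorization, norm_prod]
  apply Finset.prod_le_prod
  · intro p _
    exact norm_nonneg _
  · intro p hp
    have hpp : p.Prime := Nat.prime_of_mem_primeFactors hp
    have hpos : 0 < m.factorization p :=
      hpp.factorization_pos_of_dvd hm.ne' (Nat.dvd_of_mem_primeFactors hp)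
    obtain ⟨a, ha⟩ : ∃ a, m.factorization p = a + 1 := ⟨m.factorization p - 1, by omega⟩
    rw [ha]
    exact maj_local_prime_pow c₁ z β L l0 l1 l2 hc hL h0 h0L h01 lam hpp a

end Pool.Agent.RAux
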