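import Mathlib
import Pool.Agent.RAux.Defs
import Pool.Agent.RAux.FourierRep
import Pool.Agent.RAux.FourierRep2
import Pool.Agent.RAux.MajLocal

/-!
The coefficients of (cut-off polynomial) × (mollifier) × (full middle product) are bounded by an
average of the multiplicative majorants `bU`.
-/

set_option autoImplicit false

open Complex MeasureTheory Filter Topology

namespace Pool.Agent.RAux

/-- The density of the cut-off, including the value at `log N`. -/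
noncomputable def mjP (Ψ : ℝ → ℂ) (c₁ : ℝ) (N : ℕ) (L z : ℝ) : ℂ :=
  Ψ z * Complex.exp (((c₁ : ℂ) + (z : ℂ) * Complex.I) * ((Real.log N / L : ℝ) : ℂ))

/-- The density of the mollifier. -/
noncomputable def mjQ (W : ℝ → ℂ) (β : ℝ) : ℂ :=
  W β * Complex.exp ((1 : ℂ) + (β : ℂ) * Complex.I)

theorem mjP_pw (Ψ : ℝ → ℂ) (c₁ : ℝ) {N : ℕ} {L : ℝ} (hN : 1 ≤ N) (z : ℝ) {a : ℕ}
    (ha : a ≠ 0) :
    mjP Ψ c₁ N L z * pw (((c₁ : ℂ) + (z : ℂ) * Complex.I) / L) a =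
      Ψ z * Complex.exp (((c₁ : ℂ) + (z : ℂ) * Complex.I) * ((yv N L a : ℝ) : ℂ)) := by
  rw [pw_apply _ ha, natCast_cpow_neg_eq (Nat.pos_of_ne_zero ha), mjP, mul_assoc, ← Complex.exp_add]
  congr 2
  have hN' : (N : ℝ) ≠ 0 := by positivity
  have ha' : (a : ℝ) ≠ 0 := by exact_mod_cast ha
  unfold yv
  rw [Real.log_div hN' ha']
  push_cast
  ring

theorem mj_arP {h : ℝ → ℝ} {c₁ : ℝ} {Ψ : ℝ → ℂ}
    (hr : ∀ y : ℝ, ((h y : ℝ) : ℂ) =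
      ∫ z : ℝ, Ψ z * Complex.exp (((c₁ : ℂ) + (z : ℂ) * Complex.I) * y))
    (hneg : ∀ y, y < 0 → h y = 0) {N : ℕ} {L : ℝ} (hN : 1 ≤ N) (hL : 0 < L) (a : ℕ) :
    arP h N L a = ∫ z : ℝ, mjP Ψ c₁ N L z * pw (((c₁ : ℂ) + (z : ℂ) * Complex.I) / L) a := by
  rcases eq_or_ne a 0 with rfl | ha
  · simp
  simp_rw [mjP_pw Ψ c₁ hN _ ha]
  rw [← hr]
  simp only [arP, ArithmeticFunction.coe_mk, if_neg ha]
  split_ifs with h1
  · rfl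
  · rw [hneg]
    · simp
    · unfold yv
      apply div_neg_of_neg_of_pos _ hL
      have h2 : (0 : ℝ) < a := by exact_mod_cast Nat.pos_of_ne_zero ha
      have h3 : (0 : ℝ) < N := by exact_mod_cast hN
      apply Real.log_neg (by positivity)
      rw [div_lt_one h2]
      exact_mod_cast not_le.1 h1

theorem mj_arP_int {c₁ B : ℝ} {J : ℕ} {Ψ : ℝ → ℂ} (hc : Continuous Ψ)
    (hb : ∀ z : ℝ, ‖Ψ z‖ ≤ B * ((1 + |z|) ^ (J + 2))⁻¹) {N : ℕ} {L : ℝ} (hN : 1 ≤ N) (a : ℕ) :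
    Integrable (fun z : ℝ => mjP Ψ c₁ N L z * pw (((c₁ : ℂ) + (z : ℂ) * Complex.I) / L) a) := by
  rcases eq_or_ne a 0 with rfl | ha
  · simp
  simp_rw [mjP_pw Ψ c₁ hN _ ha]
  exact fr_integrable Ψ c₁ J B hc hb _

theorem mjQ_pw (W : ℝ → ℂ) {l0 : ℝ} (hl : 0 < l0) (β : ℝ) {b : ℕ} (hb : b ≠ 0) :
    mjQ W β * (b : ℂ) ^ (-((1 + (β : ℂ) * Complex.I) / (l0 : ℂ))) =
      W β * Complex.exp ((((1 : ℝ) : ℂ) + (β : ℂ) * Complex.I) * ((1 - Real.log b / l0 : ℝ) : ℂ)) := by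
  rw [natCast_cpow_neg_eq (Nat.pos_of_ne_zero hb), mjQ, mul_assoc, ← Complex.exp_add]
  congr 2
  have hl' : (l0 : ℂ) ≠ 0 := by exact_mod_cast hl.ne'
  push_cast
  field_simp
  ring

theorem mj_moll_aux (W : ℝ → ℂ) {l0 : ℝ} (hl : 0 < l0) {b : ℕ} (hb : b ≠ 0) (β : ℝ) 
    (h1 : ∀ p ∈ b.primeFactors, Real.log p ≤ l0) :
    mjQ W β * mus l0 ((1 + (β : ℂ) * Complex.I) / l0) b =
      ((ArithmeticFunction.moebius b : ℤ) : ℂ) * (W β * Complex.exp ((((1 : ℝ) : ℂ) +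
        (β : ℂ) * Complex.I) * ((1 - Real.log b / l0 : ℝ) : ℂ))) := by
  rw [← mjQ_pw W hl β hb]
  simp only [mus, ArithmeticFunction.coe_mk, if_pos h1]
  ring

theorem mj_moll {K₁ : ℕ} {W : ℝ → ℂ}
    (hr : ∀ y : ℝ, ((psi 1 0 K₁ y : ℝ) : ℂ) =
      ∫ z : ℝ, W z * Complex.exp ((((1 : ℝ) : ℂ) + (z : ℂ) * Complex.I) * y))
    {l0 : ℝ} (hl : 0 < l0) (b : ℕ) :
    moll K₁ l0 b = ∫ β : ℝ, mjQ W β * mus l0 ((1 + (β : ℂ) * Complex.I) / l0) b := by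
  rcases eq_or_ne b 0 with rfl | hb
  · simp
  by_cases h1 : ∀ p ∈ b.primeFactors, Real.log p ≤ l0
  · simp_rw [mj_moll_aux W hl hb _ h1]
    rw [integral_const_mul, ← hr]
    rfl
  · have h2 : ∀ s, mus l0 s b = 0 := by
      intro s
      simp only [mus, ArithmeticFunction.coe_mk, if_neg h1]
    simp only [h2, mul_zero, integral_zero]
    push Not at h1
    obtain ⟨p, hp, hpl⟩ := h1
    have h3 : Real.log p ≤ Real.log b := by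
      apply Real.log_le_log
      · exact_mod_cast (Nat.prime_of_mem_primeFactors hp).pos
      · exact_mod_cast Nat.le_of_dvd (Nat.pos_of_ne_zero hb) (Nat.dvd_of_mem_primeFactors hp)
    have h4 : 1 - Real.log b / l0 < 0 := by
      rw [sub_neg, one_lt_div hl]
      linarith
    simp only [moll, ArithmeticFunction.coe_mk]
    rw [psi_neg _ _ _ _ h4]
    simp

theorem mj_moll_int {B : ℝ} {J : ℕ} {W : ℝ → ℂ} (hc : Continuous W)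
    (hb : ∀ z : ℝ, ‖W z‖ ≤ B * ((1 + |z|) ^ (J + 2))⁻¹)
    {l0 : ℝ} (hl : 0 < l0) (b : ℕ) :
    Integrable (fun β : ℝ => mjQ W β * mus l0 ((1 + (β : ℂ) * Complex.I) / l0) b) := by
  rcases eq_or_ne b 0 with rfl | hb0
  · simp
  by_cases h1 : ∀ p ∈ b.primeFactors, Real.log p ≤ l0
  · simp_rw [mj_moll_aux W hl hb0 _ h1]
    exact (fr_integrable W 1 J B hc hb _).const_mul _
  · have h2 : ∀ s, mus l0 s b = 0 := by
      intro s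
      simp only [mus, ArithmeticFunction.coe_mk, if_neg h1]
    simp only [h2, mul_zero]
    exact integrable_zero _ _ _

/-- The coefficient as a double integral. -/
theorem mj_coeff {h : ℝ → ℝ} {c₁ B B₁ : ℝ} {J J₁ K₁ : ℕ} {Ψ W : ℝ → ℂ} (hΨc : Continuous Ψ)
    (hΨb : ∀ z : ℝ, ‖Ψ z‖ ≤ B * ((1 + |z|) ^ (J + 2))⁻¹)
    (hr : ∀ y : ℝ, ((h y : ℝ) : ℂ) =
      ∫ z : ℝ, Ψ z * Complex.exp (((c₁ : ℂ) + (z : ℂ) * Complex.I) * y))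
    (hneg : ∀ y, y < 0 → h y = 0)
    (hWc : Continuous W) (hWb : ∀ z : ℝ, ‖W z‖ ≤ B₁ * ((1 + |z|) ^ (J₁ + 2))⁻¹)
    (hr1 : ∀ y : ℝ, ((psi 1 0 K₁ y : ℝ) : ℂ) =
      ∫ z : ℝ, W z * Complex.exp ((((1 : ℝ) : ℂ) + (z : ℂ) * Complex.I) * y))
    {N : ℕ} {L l0 : ℝ} (hN : 1 ≤ N) (hL : 0 < L) (hl : 0 < l0) (g : ArithmeticFunction ℂ) (m : ℕ) :
    (arP h N L * moll K₁ l0 * g) m = ∫ q : ℝ × ℝ, mjP Ψ c₁ N L q.1 * mjQ W q.2 *
      (pw (((c₁ : ℂ) + (q.1 : ℂ) * Complex.I) / L) *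
        mus l0 ((1 + (q.2 : ℂ) * Complex.I) / l0) * g) m := by
  have h1 : ∀ a b : ℕ, arP h N L a * moll K₁ l0 b = ∫ q : ℝ × ℝ,
      (mjP Ψ c₁ N L q.1 * pw (((c₁ : ℂ) + (q.1 : ℂ) * Complex.I) / L) a) *
        (mjQ W q.2 * mus l0 ((1 + (q.2 : ℂ) * Complex.I) / l0) b) := by
    intro a b
    rw [mj_arP hr hneg hN hL a, mj_moll hr1 hl b]
    exact (integral_prod_mul _ _).symm
  have h2 : ∀ a b : ℕ, Integrable (fun q : ℝ × ℝ =>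
      (mjP Ψ c₁ N L q.1 * pw (((c₁ : ℂ) + (q.1 : ℂ) * Complex.I) / L) a) *
        (mjQ W q.2 * mus l0 ((1 + (q.2 : ℂ) * Complex.I) / l0) b)) := by
    intro a b
    exact (mj_arP_int hΨc hΨb hN a).mul_prod (mj_moll_int hWc hWb hl b)
  simp only [ArithmeticFunction.mul_apply]
  simp_rw [h1]
  simp_rw [← integral_finsetSum _ (fun i _ => h2 _ _)]
  simp_rw [← integral_mul_const]
  rw [← integral_finsetSum]
  · refine integral_congr_ae (Eventually.of_forall fun q => ?_)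
    simp only [Finset.mul_sum, Finset.sum_mul]
    refine Finset.sum_congr rfl fun i _ => Finset.sum_congr rfl fun j _ => ?_
    ring
  · intro i _
    exact (integrable_finsetSum _ (fun j _ => h2 _ _)).mul_const _

/-- The integral of the majorant `(1+|z|)^{-2}`. -/
theorem mj_int2 : Integrable (fun z : ℝ => ((1 + |z|) ^ 2)⁻¹) := by
  have h1 : Integrable (fun z : ℝ => (1 + ‖z‖) ^ (-(2 : ℝ))) :=
    integrable_one_add_norm (by simp)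
  refine h1.congr (Eventually.of_forall fun z => ?_)
  simp only
  rw [Real.norm_eq_abs, Real.rpow_neg (by positivity), Real.rpow_two]

/-- The parameter of the majorant. -/
noncomputable def mjD (c₁ : ℝ) (q : ℝ × ℝ) : ℝ := c₁ + |q.1| + 1 + |q.2|

/-- The density of the measure. -/
noncomputable def mjG (Ψ W : ℝ → ℂ) (c₁ : ℝ) (q : ℝ × ℝ) : ℝ :=
  Real.exp (c₁ + 1) * (‖Ψ q.1‖ * ‖W q.2‖)

theorem mjD_cont (c₁ : ℝ) : Continuous (mjD c₁) := by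
  unfold mjD; fun_prop

theorem mjG_cont {Ψ W : ℝ → ℂ} (hΨ : Continuous Ψ) (hW : Continuous W) (c₁ : ℝ) :
    Continuous (mjG Ψ W c₁) := by
  unfold mjG; fun_prop

theorem mjG_nonneg (Ψ W : ℝ → ℂ) (c₁ : ℝ) (q : ℝ × ℝ) : 0 ≤ mjG Ψ W c₁ q := by
  unfold mjG; positivity

theorem mjD_ge {c₁ : ℝ} (hc : 0 < c₁) (q : ℝ × ℝ) : 1 ≤ mjD c₁ q := by
  unfold mjD
  have := abs_nonneg q.1
  have := abs_nonneg q.2
  linarith

theorem mjD_le {c₁ : ℝ} (hc : 0 < c₁) (q : ℝ × ℝ) :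
    mjD c₁ q ≤ (c₁ + 1) * ((1 + |q.1|) * (1 + |q.2|)) := by
  unfold mjD
  have h1 := abs_nonneg q.1
  have h2 := abs_nonneg q.2
  have h3 := mul_nonneg h1 h2
  nlinarith [mul_nonneg hc.le h1, mul_nonneg hc.le h2, mul_nonneg hc.le h3]

theorem mj_inv_mono {x : ℝ} (hx : 0 ≤ x) {a b : ℕ} (hab : a ≤ b) :
    ((1 + x) ^ b)⁻¹ ≤ ((1 + x) ^ a)⁻¹ := by
  have : (1 + x) ^ a ≤ (1 + x) ^ b := pow_le_pow_right₀ (by linarith) hab
  gcongr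

theorem mjG_bound {Ψ W : ℝ → ℂ} {c₁ B B₁ : ℝ} {J J₁ : ℕ} (hc : 0 < c₁) (hJ : J ≤ J₁)
    (hB : 0 ≤ B) (hB₁ : 0 ≤ B₁)
    (hΨb : ∀ z : ℝ, ‖Ψ z‖ ≤ B * ((1 + |z|) ^ (J + 2))⁻¹)
    (hWb : ∀ z : ℝ, ‖W z‖ ≤ B₁ * ((1 + |z|) ^ (J₁ + 2))⁻¹) (q : ℝ × ℝ) :
    mjG Ψ W c₁ q * mjD c₁ q ^ J ≤ Real.exp (c₁ + 1) * (B * B₁) * (c₁ + 1) ^ J *
      (((1 + |q.1|) ^ 2)⁻¹ * ((1 + |q.2|) ^ 2)⁻¹) := by
  have h1 := hΨb q.1
  have h2 : ‖W q.2‖ ≤ B₁ * ((1 + |q.2|) ^ (J + 2))⁻¹ := (hWb q.2).trans (by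
    have := mj_inv_mono (abs_nonneg q.2) (show J + 2 ≤ J₁ + 2 by omega)
    gcongr)
  have h3 : mjD c₁ q ^ J ≤ (c₁ + 1) ^ J * ((1 + |q.1|) ^ J * (1 + |q.2|) ^ J) := by
    rw [← mul_pow, ← mul_pow]
    exact pow_le_pow_left₀ (by linarith [mjD_ge hc q]) (mjD_le hc q) J
  have e1 : ((1 + |q.1|) ^ (J + 2))⁻¹ * (1 + |q.1|) ^ J = ((1 + |q.1|) ^ 2)⁻¹ := by
    have : (1 + |q.1|) ≠ 0 := by positivity
    rw [pow_add]
    field_simp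
  have e2 : ((1 + |q.2|) ^ (J + 2))⁻¹ * (1 + |q.2|) ^ J = ((1 + |q.2|) ^ 2)⁻¹ := by
    have : (1 + |q.2|) ≠ 0 := by positivity
    rw [pow_add]
    field_simp
  have h0 : 0 ≤ mjD c₁ q ^ J := pow_nonneg (by linarith [mjD_ge hc q]) _
  calc mjG Ψ W c₁ q * mjD c₁ q ^ J
      ≤ (Real.exp (c₁ + 1) * ((B * ((1 + |q.1|) ^ (J + 2))⁻¹) * (B₁ * ((1 + |q.2|) ^ (J + 2))⁻¹))) *
        ((c₁ + 1) ^ J * ((1 + |q.1|) ^ J * (1 + |q.2|) ^ J)) := by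
        unfold mjG
        gcongr
    _ = Real.exp (c₁ + 1) * (B * B₁) * (c₁ + 1) ^ J *
      ((((1 + |q.1|) ^ (J + 2))⁻¹ * (1 + |q.1|) ^ J) *
        (((1 + |q.2|) ^ (J + 2))⁻¹ * (1 + |q.2|) ^ J)) := by ring
    _ = _ := by rw [e1, e2]

theorem mjG_int {Ψ W : ℝ → ℂ} {c₁ B B₁ : ℝ} {J J₁ : ℕ} (hc : 0 < c₁) (hJ : J ≤ J₁)
    (hB : 0 ≤ B) (hB₁ : 0 ≤ B₁) (hΨc : Continuous Ψ) (hWc : Continuous W)
    (hΨb : ∀ z : ℝ, ‖Ψ z‖ ≤ B * ((1 + |z|) ^ (J + 2))⁻¹)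
    (hWb : ∀ z : ℝ, ‖W z‖ ≤ B₁ * ((1 + |z|) ^ (J₁ + 2))⁻¹) :
    Integrable (fun q : ℝ × ℝ => mjG Ψ W c₁ q * mjD c₁ q ^ J) ∧
      ∫ q : ℝ × ℝ, mjG Ψ W c₁ q * mjD c₁ q ^ J ≤
        Real.exp (c₁ + 1) * (B * B₁) * (c₁ + 1) ^ J * (∫ z : ℝ, ((1 + |z|) ^ 2)⁻¹) ^ 2 := by
  have hi : Integrable (fun q : ℝ × ℝ => Real.exp (c₁ + 1) * (B * B₁) * (c₁ + 1) ^ J *
      (((1 + |q.1|) ^ 2)⁻¹ * ((1 + |q.2|) ^ 2)⁻¹)) :=
    (mj_int2.mul_prod mj_int2).const_mul _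
  have hj : Integrable (fun q : ℝ × ℝ => mjG Ψ W c₁ q * mjD c₁ q ^ J) := by
    refine hi.mono' ?_ (Eventually.of_forall fun q => ?_)
    · exact ((mjG_cont hΨc hWc c₁).mul ((mjD_cont c₁).pow J)).aestronglyMeasurable
    · rw [Real.norm_of_nonneg]
      · exact mjG_bound hc hJ hB hB₁ hΨb hWb q
      · exact mul_nonneg (mjG_nonneg _ _ _ _) (pow_nonneg (by linarith [mjD_ge hc q]) _)
  refine ⟨hj, (integral_mono hj hi fun q => mjG_bound hc hJ hB hB₁ hΨb hWb q).trans ?_⟩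
  have e : ∫ q : ℝ × ℝ, ((1 + |q.1|) ^ 2)⁻¹ * ((1 + |q.2|) ^ 2)⁻¹ =
      (∫ z : ℝ, ((1 + |z|) ^ 2)⁻¹) * ∫ z : ℝ, ((1 + |z|) ^ 2)⁻¹ :=
    integral_prod_mul (μ := volume) (ν := volume) (fun z : ℝ => ((1 + |z|) ^ 2)⁻¹)
      (fun z : ℝ => ((1 + |z|) ^ 2)⁻¹)
  rw [integral_const_mul, e, sq]

theorem mj_beU_le (lam : ℕ) (Δ L l0 l1 l2 : ℝ) (p : ℕ) : beU lam Δ L l0 l1 l2 p ≤ 2 + lam := by
  unfold beU
  have : (0 : ℝ) ≤ lam := Nat.cast_nonneg lam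
  split_ifs
  · exact (min_le_left _ _).trans (by linarith)
  · exact (min_le_left _ _).trans (by linarith)
  · linarith

theorem mj_bU_nonneg (lam : ℕ) {Δ L l0 : ℝ} (hΔ : 0 ≤ Δ) (hL : 0 ≤ L) (h0 : 0 ≤ l0) (l1 l2 : ℝ)
    (m : ℕ) : 0 ≤ bU lam Δ L l0 l1 l2 m := by
  rcases eq_or_ne m 0 with rfl | hm
  · simp
  simp only [bU, ArithmeticFunction.coe_mk, if_neg hm]
  exact Finset.prod_nonneg fun p _ => beU_nonneg lam hΔ hL h0 l1 l2 p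

theorem mj_bU_le (lam : ℕ) {Δ L l0 : ℝ} (hΔ : 0 ≤ Δ) (hL : 0 ≤ L) (h0 : 0 ≤ l0) (l1 l2 : ℝ)
    (m : ℕ) : bU lam Δ L l0 l1 l2 m ≤ (2 + lam) ^ m.primeFactors.card := by
  rcases eq_or_ne m 0 with rfl | hm
  · simp
  simp only [bU, ArithmeticFunction.coe_mk, if_neg hm]
  refine (Finset.prod_le_prod (fun p _ => beU_nonneg lam hΔ hL h0 l1 l2 p)
    (fun p _ => mj_beU_le lam Δ L l0 l1 l2 p)).trans ?_
  simp

theorem mj_bU_meas (lam : ℕ) (L l0 l1 l2 : ℝ) (m : ℕ) :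
    Measurable (fun Δ : ℝ => bU lam Δ L l0 l1 l2 m) := by
  rcases eq_or_ne m 0 with rfl | hm
  · simp
  simp only [bU, ArithmeticFunction.coe_mk, if_neg hm]
  refine Finset.measurable_prod _ fun p _ => ?_
  unfold beU
  split_ifs
  · fun_prop
  · fun_prop
  · fun_prop

/-- Let `s₁ = (c₁ + i z)/L`, `s₂ = (1 + i β)/l0`. By `Rep h c₁ J B` and
`psi_rep 1 0 1 K₁` (density `W`) the coefficient at `m` is
`∫∫ Ψ(z) W(β) e^{(c₁+iz) log N / L} e^{1+iβ} F(m) dz dβ`, where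
`F = pw s₁ * mus l0 s₂ * kap (-lam) l1 l2` (for `n > N` both sides vanish by `hneg`; `moll` is
supported on `d ≤ e^{l0}`, so the restriction on the primes of `d` is harmless). By `maj_local`
`|F(m)| ≤ bU lam Δ L l0 l1 l2 m` with `Δ = c₁ + |z| + 1 + |β|`, and `ν` is the image of
`e^{c₁+1} |Ψ(z)| |W(β)| dz dβ` under `Δ`; `Δ ≤ (c₁+1)(1+|z|)(1+|β|)`. -/
theorem majorant (c₁ : ℝ) (hc : 0 < c₁) (J K₁ : ℕ) (hJ : J + 1 ≤ K₁) :
    ∃ C : ℝ, 0 ≤ C ∧ ∀ (h : ℝ → ℝ) (B : ℝ), 0 ≤ B → Rep h c₁ J B → (∀ y, y < 0 → h y = 0) →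
      ∀ (N : ℕ) (L l0 l1 l2 : ℝ), 1 ≤ N → Real.log N ≤ L → 1 ≤ l0 → l0 ≤ L → l0 ≤ l1 → l1 ≤ l2 →
      ∃ ν : Measure ℝ, IsFiniteMeasure ν ∧ (∀ᵐ Δ ∂ν, 1 ≤ Δ) ∧
        Integrable (fun Δ : ℝ => Δ ^ J) ν ∧ (∫ Δ, Δ ^ J ∂ν) ≤ C * B ∧
        ∀ (lam m : ℕ), ‖(arP h N L * moll K₁ l0 * kap (-(lam : ℂ)) l1 l2) m‖ ≤
          ∫ Δ, bU lam Δ L l0 l1 l2 m ∂ν := by
  obtain ⟨B₁, hB₁, W, hWc, hWb, hWr⟩ := psi_rep 1 0 1 K₁ one_pos (by omega) (by norm_num)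
  refine ⟨Real.exp (c₁ + 1) * B₁ * (c₁ + 1) ^ J * (∫ z : ℝ, ((1 + |z|) ^ 2)⁻¹) ^ 2, by positivity, ?_⟩
  intro h B hB hrep hneg N L l0 l1 l2 hN hlog hl0 hl0L h01 h12
  obtain ⟨Ψ, hΨc, hΨb, hΨr⟩ := hrep
  have hL : 0 < L := by linarith
  have hJ' : J ≤ K₁ - 1 := by omega
  obtain ⟨hi, hile⟩ := mjG_int hc hJ' hB hB₁ hΨc hWc hΨb hWb
  have hΨb0 : ∀ z : ℝ, ‖Ψ z‖ ≤ B * ((1 + |z|) ^ (0 + 2))⁻¹ := fun z => (hΨb z).trans (by
    have := mj_inv_mono (abs_nonneg z) (show 0 + 2 ≤ J + 2 by omega)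
    gcongr)
  obtain ⟨hi0, -⟩ := mjG_int hc (Nat.zero_le _) hB hB₁ hΨc hWc hΨb0 hWb
  simp only [pow_zero, mul_one] at hi0
  set G := mjG Ψ W c₁ with hG
  have hGc : Continuous G := mjG_cont hΨc hWc c₁
  have hG0 : ∀ q, 0 ≤ G q := mjG_nonneg Ψ W c₁
  set ρ : Measure (ℝ × ℝ) := (volume : Measure (ℝ × ℝ)).withDensity
    (fun q => ENNReal.ofReal (G q)) with hρ
  have hfin : IsFiniteMeasure ρ := isFiniteMeasure_withDensity_ofReal hi0.2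
  have hDm : Measurable (mjD c₁) := (mjD_cont c₁).measurable
  have hden : ∀ f : ℝ × ℝ → ℝ, ∫ q, f q ∂ρ = ∫ q, G q * f q := by
    intro f
    rw [hρ, integral_withDensity_eq_integral_toReal_smul (by fun_prop)
      (Eventually.of_forall fun q => ENNReal.ofReal_lt_top)]
    refine integral_congr_ae (Eventually.of_forall fun q => ?_)
    simp only [smul_eq_mul, ENNReal.toReal_ofReal (hG0 q)]
  have hdeni : ∀ f : ℝ × ℝ → ℝ, Integrable (fun q => G q * f q) → Integrable f ρ := by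
    intro f hf
    rw [hρ, integrable_withDensity_iff_integrable_smul' (by fun_prop)
      (Eventually.of_forall fun q => ENNReal.ofReal_lt_top)]
    refine hf.congr (Eventually.of_forall fun q => ?_)
    simp only [smul_eq_mul, ENNReal.toReal_ofReal (hG0 q)]
  refine ⟨ρ.map (mjD c₁), ?_, ?_, ?_, ?_, ?_⟩
  · exact Measure.isFiniteMeasure_map _ _
  · rw [ae_map_iff hDm.aemeasurable measurableSet_Ici]
    exact Eventually.of_forall fun q => mjD_ge hc q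
  · rw [integrable_map_measure (by fun_prop) hDm.aemeasurable]
    exact hdeni _ hi
  · rw [integral_map hDm.aemeasurable (by fun_prop), hden]
    refine hile.trans (le_of_eq ?_)
    ring
  · intro lam m
    rw [integral_map hDm.aemeasurable (mj_bU_meas lam L l0 l1 l2 m).aestronglyMeasurable, hden,
      mj_coeff hΨc hΨb hΨr hneg hWc hWb hWr hN hL (by linarith) _ m]
    have hint : Integrable (fun q => G q * bU lam (mjD c₁ q) L l0 l1 l2 m) := by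
      refine hi0.mul_bdd (c := (2 + lam : ℝ) ^ m.primeFactors.card) ?_ ?_
      · exact ((mj_bU_meas lam L l0 l1 l2 m).comp hDm).aestronglyMeasurable
      · refine Eventually.of_forall fun q => ?_
        have hq := mjD_ge hc q
        rw [Real.norm_of_nonneg (mj_bU_nonneg lam (by linarith) hL.le (by linarith) l1 l2 m)]
        exact mj_bU_le lam (by linarith) hL.le (by linarith) l1 l2 m
    refine norm_integral_le_of_norm_le hint (Eventually.of_forall fun q => ?_)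
    rw [norm_mul]
    have hm := maj_local c₁ q.1 q.2 L l0 l1 l2 hc (by linarith) hl0 hl0L h01 h12 lam m
    have hP : ‖mjP Ψ c₁ N L q.1‖ ≤ ‖Ψ q.1‖ * Real.exp c₁ := by
      unfold mjP
      rw [norm_mul, fr_norm_exp]
      have : Real.log N / L ≤ 1 := by rw [div_le_one hL]; exact hlog
      gcongr
      nlinarith
    have hQ : ‖mjQ W q.2‖ = ‖W q.2‖ * Real.exp 1 := by
      unfold mjQ
      rw [norm_mul, Complex.norm_exp]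
      simp
    have hPQ : ‖mjP Ψ c₁ N L q.1 * mjQ W q.2‖ ≤ G q := by
      rw [norm_mul, hQ, hG]
      unfold mjG
      rw [Real.exp_add]
      calc ‖mjP Ψ c₁ N L q.1‖ * (‖W q.2‖ * Real.exp 1) ≤
          (‖Ψ q.1‖ * Real.exp c₁) * (‖W q.2‖ * Real.exp 1) := by gcongr
        _ = _ := by ring
    exact mul_le_mul hPQ hm (norm_nonneg _) (hG0 q)

end Pool.Agent.RAux
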