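import Mathlib
import Pool.Agent.RAux.Defs
import Pool.Agent.RAux.EulerB
import Pool.Agent.RAux.PrimeSum

/-!
Mean square of `bD * bD`.
-/

set_option autoImplicit false

open Complex MeasureTheory Filter Topology

namespace Pool.Agent.RAux

/-! ### Local computations -/

theorem beD_nonneg_ms4 (Δ l0 : ℝ) (hΔ : 0 ≤ Δ) (hl : 0 ≤ l0) (p : ℕ) : 0 ≤ beD Δ l0 p := by
  unfold beD
  split_ifs with h
  · exact le_min (by norm_num) (div_nonneg (mul_nonneg hΔ (Real.log_natCast_nonneg p)) hl)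
  · norm_num

theorem beD_le_two_ms4 (Δ l0 : ℝ) (p : ℕ) : beD Δ l0 p ≤ 2 := by
  unfold beD
  split_ifs with h
  · exact min_le_left _ _
  · norm_num

theorem bD_mult (Δ l0 : ℝ) : (bD Δ l0).IsMultiplicative := by
  refine ⟨?_, ?_⟩
  · simp [bD]
  · intro m n hmn
    rcases Nat.eq_zero_or_pos m with rfl | hm
    · simp [bD]
    rcases Nat.eq_zero_or_pos n with rfl | hn
    · simp [bD]
    have h1 : m * n ≠ 0 := (Nat.mul_pos hm hn).ne'
    simp only [bD, ArithmeticFunction.coe_mk, h1, hm.ne', hn.ne', if_false]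
    rw [Nat.Coprime.primeFactors_mul hmn,
      Finset.prod_union (Nat.Coprime.disjoint_primeFactors hmn)]

theorem bD_prime_pow_ms4 (Δ l0 : ℝ) (p : ℕ) (hp : p.Prime) (j : ℕ) :
    bD Δ l0 (p ^ (j + 1)) = beD Δ l0 p := by
  have h1 : p ^ (j + 1) ≠ 0 := pow_ne_zero _ hp.ne_zero
  simp only [bD, ArithmeticFunction.coe_mk, h1, if_false]
  rw [Nat.primeFactors_prime_pow (Nat.succ_ne_zero j) hp, Finset.prod_singleton]

theorem bD_one (Δ l0 : ℝ) : bD Δ l0 1 = 1 := (bD_mult Δ l0).1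

theorem bD_nonneg_ms4 (Δ l0 : ℝ) (hΔ : 0 ≤ Δ) (hl : 0 ≤ l0) (n : ℕ) : 0 ≤ bD Δ l0 n := by
  simp only [bD, ArithmeticFunction.coe_mk]
  split_ifs
  · exact le_rfl
  · exact Finset.prod_nonneg fun p _ => beD_nonneg_ms4 Δ l0 hΔ hl p

/-- `(bD * bD)(p^a) ≤ 2 a β` -/
theorem bD_conv_prime_pow (Δ l0 : ℝ) (hΔ : 0 ≤ Δ) (hl : 0 ≤ l0) (p : ℕ) (hp : p.Prime)
    (b : ℕ) : (bD Δ l0 * bD Δ l0) (p ^ (b + 1)) ≤ 2 * ((b : ℝ) + 1) * beD Δ l0 p := by
  have hβ0 := beD_nonneg_ms4 Δ l0 hΔ hl p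
  have hβ2 := beD_le_two_ms4 Δ l0 p
  rw [ArithmeticFunction.mul_apply,
    Nat.sum_divisorsAntidiagonal (fun i j => bD Δ l0 i * bD Δ l0 j),
    Nat.sum_divisors_prime_pow hp, Finset.sum_range_succ, Finset.sum_range_succ']
  have e0 : bD Δ l0 (p ^ 0) * bD Δ l0 (p ^ (b + 1) / p ^ 0) = beD Δ l0 p := by
    rw [pow_zero, Nat.div_one, bD_one, one_mul, bD_prime_pow_ms4 Δ l0 p hp]
  have e1 : bD Δ l0 (p ^ (b + 1)) * bD Δ l0 (p ^ (b + 1) / p ^ (b + 1)) = beD Δ l0 p := by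
    rw [Nat.div_self (pow_pos hp.pos _), bD_one, mul_one, bD_prime_pow_ms4 Δ l0 p hp]
  have e2 : ∑ i ∈ Finset.range b,
      bD Δ l0 (p ^ (i + 1)) * bD Δ l0 (p ^ (b + 1) / p ^ (i + 1)) ≤
      ∑ _i ∈ Finset.range b, 2 * beD Δ l0 p := by
    refine Finset.sum_le_sum fun i hi => ?_
    have hi' := Finset.mem_range.1 hi
    obtain ⟨c, rfl⟩ : ∃ c, b = i + (c + 1) := ⟨b - i - 1, by omega⟩
    have : p ^ (i + (c + 1) + 1) / p ^ (i + 1) = p ^ (c + 1) := by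
      rw [Nat.pow_div (by omega) hp.pos]
      congr 1
      omega
    rw [this, bD_prime_pow_ms4 Δ l0 p hp, bD_prime_pow_ms4 Δ l0 p hp]
    nlinarith
  rw [e0, e1]
  rw [Finset.sum_const, Finset.card_range, nsmul_eq_mul] at e2
  linarith

theorem bD_conv_nonneg (Δ l0 : ℝ) (hΔ : 0 ≤ Δ) (hl : 0 ≤ l0) (n : ℕ) :
    0 ≤ (bD Δ l0 * bD Δ l0) n := by
  rw [ArithmeticFunction.mul_apply]
  exact Finset.sum_nonneg fun x _ =>
    mul_nonneg (bD_nonneg_ms4 Δ l0 hΔ hl _) (bD_nonneg_ms4 Δ l0 hΔ hl _)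

theorem sum_sq_geom_eq (x : ℝ) (hx1 : x < 1) (A : ℕ) :
    ∑ j ∈ Finset.Icc 1 A, (j : ℝ) ^ 2 * x ^ j = x * (1 + x) / (1 - x) ^ 3 -
      x ^ (A + 1) * (((A : ℝ) + 1) ^ 2 / (1 - x) + 2 * ((A : ℝ) + 1) * x / (1 - x) ^ 2 +
        x * (1 + x) / (1 - x) ^ 3) := by
  have h : (1 - x) ≠ 0 := by linarith
  induction A with
  | zero => simp; field_simp; ring
  | succ A ih =>
    rw [Finset.sum_Icc_succ_top (by omega), ih]
    push_cast
    field_simp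
    ring

theorem sum_sq_geom (x : ℝ) (hx0 : 0 ≤ x) (hx1 : x < 1) (A : ℕ) :
    ∑ j ∈ Finset.Icc 1 A, (j : ℝ) ^ 2 * x ^ j ≤ x * (1 + x) / (1 - x) ^ 3 := by
  rw [sum_sq_geom_eq x hx1]
  have h : 0 < 1 - x := by linarith
  have : 0 ≤ x ^ (A + 1) * (((A : ℝ) + 1) ^ 2 / (1 - x) + 2 * ((A : ℝ) + 1) * x / (1 - x) ^ 2 +
        x * (1 + x) / (1 - x) ^ 3) := by positivity
  linarith

theorem inv_bound (p : ℝ) (hp : 2 ≤ p) :
    p⁻¹ * (1 + p⁻¹) / (1 - p⁻¹) ^ 3 ≤ 1 / (p - 1) + 10 / (p * (p - 1)) := by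
  have h0 : 0 < p := by linarith
  have h1 : 0 < p - 1 := by linarith
  have e : p⁻¹ * (1 + p⁻¹) / (1 - p⁻¹) ^ 3 = p * (p + 1) / (p - 1) ^ 3 := by
    have : (1 - p⁻¹) ≠ 0 := by
      have : p⁻¹ < 1 := inv_lt_one_of_one_lt₀ (by linarith)
      linarith
    have h1' : p - 1 ≠ 0 := h1.ne'
    field_simp
  rw [e]
  have e2 : 1 / (p - 1) + 10 / (p * (p - 1)) - p * (p + 1) / (p - 1) ^ 3 =
      (7 * p - 5) * (p - 2) / (p * (p - 1) ^ 3) := by
    have h1' : p - 1 ≠ 0 := h1.ne'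
    field_simp
    ring
  have e3 : 0 ≤ (7 * p - 5) * (p - 2) / (p * (p - 1) ^ 3) := by
    apply div_nonneg
    · exact mul_nonneg (by linarith) (by linarith)
    · positivity
  linarith

/-- the local sum -/
theorem local_sum (Δ l0 : ℝ) (hΔ : 0 ≤ Δ) (hl : 0 ≤ l0) (p : ℕ) (hp : p.Prime) (A : ℕ) :
    ∑ j ∈ Finset.Icc 1 A, ((bD Δ l0 * bD Δ l0) (p ^ j)) ^ 2 / ((p ^ j : ℕ) : ℝ) ≤
      4 * ((beD Δ l0 p) ^ 2 / ((p : ℝ) - 1)) + 160 * (1 / ((p : ℝ) * ((p : ℝ) - 1))) := by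
  have hβ0 := beD_nonneg_ms4 Δ l0 hΔ hl p
  have hβ2 := beD_le_two_ms4 Δ l0 p
  have hp2 : (2 : ℝ) ≤ p := by exact_mod_cast hp.two_le
  have h0 : (0 : ℝ) < p := by linarith
  have hβsq : (beD Δ l0 p) ^ 2 ≤ 4 := by nlinarith
  calc ∑ j ∈ Finset.Icc 1 A, ((bD Δ l0 * bD Δ l0) (p ^ j)) ^ 2 / ((p ^ j : ℕ) : ℝ)
      ≤ ∑ j ∈ Finset.Icc 1 A, 4 * (beD Δ l0 p) ^ 2 * ((j : ℝ) ^ 2 * ((p : ℝ)⁻¹) ^ j) := by
        refine Finset.sum_le_sum fun j hj => ?_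
        obtain ⟨b, rfl⟩ : ∃ b, j = b + 1 := ⟨j - 1, by have := (Finset.mem_Icc.1 hj).1; omega⟩
        have h1 := bD_conv_prime_pow Δ l0 hΔ hl p hp b
        have h2 := bD_conv_nonneg Δ l0 hΔ hl (p ^ (b + 1))
        have h3 : ((bD Δ l0 * bD Δ l0) (p ^ (b + 1))) ^ 2 ≤
            (2 * ((b : ℝ) + 1) * beD Δ l0 p) ^ 2 := pow_le_pow_left₀ h2 h1 2
        have hpp : (0 : ℝ) < (p : ℝ) ^ (b + 1) := pow_pos h0 _
        rw [Nat.cast_pow, inv_pow, div_le_iff₀ hpp]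
        push_cast
        calc _ ≤ (2 * ((b : ℝ) + 1) * beD Δ l0 p) ^ 2 := h3
          _ = 4 * beD Δ l0 p ^ 2 * (((b : ℝ) + 1) ^ 2 * ((p : ℝ) ^ (b + 1))⁻¹) *
              (p : ℝ) ^ (b + 1) := by
              field_simp
              ring
    _ = 4 * (beD Δ l0 p) ^ 2 * ∑ j ∈ Finset.Icc 1 A, ((j : ℝ) ^ 2 * ((p : ℝ)⁻¹) ^ j) := by
        rw [Finset.mul_sum]
    _ ≤ 4 * (beD Δ l0 p) ^ 2 * (1 / ((p : ℝ) - 1) + 10 / ((p : ℝ) * ((p : ℝ) - 1))) := by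
        apply mul_le_mul_of_nonneg_left _ (by positivity)
        exact (sum_sq_geom _ (by positivity) (inv_lt_one_of_one_lt₀ (by linarith)) A).trans
          (inv_bound _ hp2)
    _ = 4 * ((beD Δ l0 p) ^ 2 / ((p : ℝ) - 1)) +
          (beD Δ l0 p) ^ 2 * (40 * (1 / ((p : ℝ) * ((p : ℝ) - 1)))) := by
        have : (p : ℝ) - 1 ≠ 0 := by linarith
        field_simp
        ring
    _ ≤ _ := by
        have h5 : 0 ≤ 1 / ((p : ℝ) * ((p : ℝ) - 1)) := by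
          have : (0 : ℝ) < (p : ℝ) - 1 := by linarith
          positivity
        nlinarith

theorem sum_inv_mul_pred (N : ℕ) :
    ∑ p ∈ Nat.primesLE N, 1 / ((p : ℝ) * ((p : ℝ) - 1)) ≤ 1 := by
  have h1 : ∑ p ∈ Nat.primesLE N, 1 / ((p : ℝ) * ((p : ℝ) - 1)) ≤
      ∑ n ∈ Finset.Icc 2 (N + 1), 1 / ((n : ℝ) * ((n : ℝ) - 1)) := by
    refine Finset.sum_le_sum_of_subset_of_nonneg ?_ ?_
    · intro p hp
      have hp' := Nat.mem_primesLE.1 hp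
      exact Finset.mem_Icc.2 ⟨hp'.2.two_le, by omega⟩
    · intro n hn _
      have : (2 : ℝ) ≤ n := by exact_mod_cast (Finset.mem_Icc.1 hn).1
      have : (0 : ℝ) < (n : ℝ) - 1 := by linarith
      positivity
  have h2 : ∀ M : ℕ, 1 ≤ M → ∑ n ∈ Finset.Icc 2 M, 1 / ((n : ℝ) * ((n : ℝ) - 1)) =
      1 - 1 / (M : ℝ) := by
    intro M hM
    induction M, hM using Nat.le_induction with
    | base => simp
    | succ M hM ih =>
      rw [Finset.sum_Icc_succ_top (by omega), ih]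
      have hM' : (M : ℝ) ≠ 0 := by
        have : (1 : ℝ) ≤ M := by exact_mod_cast hM
        positivity
      have hM2 : (M : ℝ) + 1 ≠ 0 := by positivity
      push_cast
      rw [show ((M : ℝ) + 1) * ((M : ℝ) + 1 - 1) = ((M : ℝ) + 1) * M by ring]
      field_simp
      ring
  refine h1.trans ?_
  rw [h2 (N + 1) (by omega)]
  have : 0 ≤ 1 / ((N + 1 : ℕ) : ℝ) := by positivity
  linarith

/-- Local factors: `(bD * bD)(p^a) = 2 β + (a-1) β² ≤ 2 a β`, `β = beD p ≤ 2`; so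
`Σ_{a ≥ 1} (bD*bD)(p^a)²/p^a ≤ 4 β²/p + C/p²`. -/
theorem ms_4 : ∃ C : ℝ, 0 ≤ C ∧
    ∀ (Δ l0 : ℝ) (N X : ℕ), 1 ≤ Δ → 1 ≤ l0 → l0 ≤ Real.log N →
      ∑ m ∈ smo N X, ((bD Δ l0 * bD Δ l0) m) ^ 2 / m ≤
        C * Δ ^ 16 * (Real.log N / l0) ^ 4 := by
  obtain ⟨C1, hC1, hs⟩ := prime_sum_small
  obtain ⟨C2, hC2, hm⟩ := prime_sum_mid
  refine ⟨Real.exp (4 * C1 + 4 * C2 + 160), (Real.exp_pos _).le, ?_⟩
  intro Δ l0 N X hΔ hl hlN
  have hΔ0 : 0 ≤ Δ := by linarith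
  have hl0 : 0 ≤ l0 := by linarith
  have hmul := (bD_mult Δ l0).mul (bD_mult Δ l0)
  have key := euler_bound (fun m => ((bD Δ l0 * bD Δ l0) m) ^ 2 / (m : ℝ)) N
    (fun p => 4 * ((beD Δ l0 p) ^ 2 / ((p : ℝ) - 1)) + 160 * (1 / ((p : ℝ) * ((p : ℝ) - 1))))
    (fun n => by positivity)
    (by simp [hmul.1])
    (fun m n hmn => by
      show ((bD Δ l0 * bD Δ l0) (m * n)) ^ 2 / ((m * n : ℕ) : ℝ) = _
      rw [hmul.2 hmn]
      push_cast
      rw [mul_pow, mul_div_mul_comm])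
    (fun p hp _ A => local_sum Δ l0 hΔ0 hl0 p hp A)
    (smo N X)
    (fun m hm => by
      have := Finset.mem_filter.1 hm
      exact ⟨by have := (Finset.mem_Icc.1 this.1).1; omega, this.2⟩)
  refine key.trans ?_
  have hsplit : ∑ p ∈ Nat.primesLE N, (4 * ((beD Δ l0 p) ^ 2 / ((p : ℝ) - 1)) +
      160 * (1 / ((p : ℝ) * ((p : ℝ) - 1)))) ≤
      4 * ((4 * Real.log Δ + C1) + (Real.log (Real.log N / l0) + C2)) + 160 := by
    rw [Finset.sum_add_distrib, ← Finset.mul_sum, ← Finset.mul_sum]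
    have h1 := hs Δ l0 N hΔ hl
    have h2 := hm l0 (Real.log N) N hl hlN
    have h3 : ∑ p ∈ Nat.primesLE N, (beD Δ l0 p) ^ 2 / ((p : ℝ) - 1) =
        ∑ p ∈ (Nat.primesLE N).filter (fun p : ℕ => Real.log p ≤ l0),
          (min 2 (Δ * Real.log p / l0)) ^ 2 / ((p : ℝ) - 1) +
        ∑ p ∈ (Nat.primesLE N).filter (fun p : ℕ => l0 < Real.log p ∧ Real.log p ≤ Real.log N),
          1 / ((p : ℝ) - 1) := by
      rw [← Finset.sum_filter_add_sum_filter_not (Nat.primesLE N)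
        (fun p : ℕ => Real.log p ≤ l0)]
      congr 1
      · refine Finset.sum_congr rfl fun p hp => ?_
        have := (Finset.mem_filter.1 hp).2
        simp only [beD, this, if_true]
      · refine Finset.sum_congr ?_ fun p hp => ?_
        · ext p
          simp only [Finset.mem_filter, not_le]
          constructor
          · rintro ⟨h, h'⟩
            refine ⟨h, h', ?_⟩
            have hp' := Nat.mem_primesLE.1 h
            exact Real.log_le_log (by exact_mod_cast hp'.2.pos) (by exact_mod_cast hp'.1)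
          · rintro ⟨h, h', _⟩
            exact ⟨h, h'⟩
        · have := (Finset.mem_filter.1 hp).2.1
          simp only [beD, not_le.2 this, if_false, one_pow]
    rw [h3]
    have h4 := sum_inv_mul_pred N
    linarith
  refine (Real.exp_le_exp.2 hsplit).trans (le_of_eq ?_)
  have hN0 : 0 < Real.log N := by linarith
  have hr : 0 < Real.log N / l0 := by positivity
  have e1 : Δ ^ 16 = Real.exp (16 * Real.log Δ) := by
    rw [show (16 : ℝ) * Real.log Δ = ((16 : ℕ) : ℝ) * Real.log Δ by norm_num,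
      Real.exp_nat_mul, Real.exp_log (by linarith)]
  have e2 : (Real.log N / l0) ^ 4 = Real.exp (4 * Real.log (Real.log N / l0)) := by
    rw [show (4 : ℝ) * Real.log (Real.log N / l0) =
      ((4 : ℕ) : ℝ) * Real.log (Real.log N / l0) by norm_num,
      Real.exp_nat_mul, Real.exp_log hr]
  rw [e1, e2, ← Real.exp_add, ← Real.exp_add]
  congr 1
  ring

end Pool.Agent.RAux
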