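import Mathlib
import Pool.Agent.RAux.Defs
import Pool.Agent.RAux.EulerB
import Pool.Agent.RAux.PrimeSum

/-!
Mean square of `bD * κ`.
-/

set_option autoImplicit false

open Complex MeasureTheory Filter Topology

namespace Pool.Agent.RAux

theorem beD_nonneg_msD {Δ l0 : ℝ} (hΔ : 0 ≤ Δ) (hl : 0 ≤ l0) (p : ℕ) : 0 ≤ beD Δ l0 p := by
  unfold beD
  split_ifs
  · refine le_min (by norm_num) ?_
    have := Real.log_natCast_nonneg p
    positivity
  · norm_num

theorem bD_nonneg_msD {Δ l0 : ℝ} (hΔ : 0 ≤ Δ) (hl : 0 ≤ l0) (n : ℕ) : 0 ≤ bD Δ l0 n := by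
  change 0 ≤ (if n = 0 then (0 : ℝ) else ∏ p ∈ n.primeFactors, beD Δ l0 p)
  split_ifs
  · exact le_rfl
  · exact Finset.prod_nonneg fun p _ => beD_nonneg_msD hΔ hl p

theorem bD_isMultiplicative (Δ l0 : ℝ) : (bD Δ l0).IsMultiplicative := by
  rw [ArithmeticFunction.IsMultiplicative.iff_ne_zero]
  constructor
  · change (if (1 : ℕ) = 0 then (0 : ℝ) else ∏ p ∈ Nat.primeFactors 1, beD Δ l0 p) = 1
    simp
  · intro m n hm hn hmn
    change (if m * n = 0 then (0 : ℝ) else ∏ p ∈ (m * n).primeFactors, beD Δ l0 p) =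
      (if m = 0 then (0 : ℝ) else ∏ p ∈ m.primeFactors, beD Δ l0 p) *
      (if n = 0 then (0 : ℝ) else ∏ p ∈ n.primeFactors, beD Δ l0 p)
    rw [if_neg (mul_ne_zero hm hn), if_neg hm, if_neg hn, hmn.primeFactors_mul,
      Finset.prod_union hmn.disjoint_primeFactors]

theorem bD_prime_pow_msD (Δ l0 : ℝ) {p : ℕ} (hp : p.Prime) (j : ℕ) :
    bD Δ l0 (p ^ j) = if j = 0 then 1 else beD Δ l0 p := by
  change (if p ^ j = 0 then (0 : ℝ) else ∏ q ∈ (p ^ j).primeFactors, beD Δ l0 q) = _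
  rw [if_neg (pow_ne_zero _ hp.ne_zero)]
  split_ifs with h
  · subst h; simp
  · rw [Nat.primeFactors_prime_pow h hp, Finset.prod_singleton]

theorem conv_prime_pow (f g : ArithmeticFunction ℝ) {p : ℕ} (hp : p.Prime) (a : ℕ) :
    (f * g) (p ^ a) = ∑ i ∈ Finset.range (a + 1), f (p ^ (a - i)) * g (p ^ i) := by
  rw [ArithmeticFunction.mul_apply,
    Nat.sum_divisorsAntidiagonal' (f := fun x y => f x * g y),
    Nat.sum_divisors_prime_pow hp]
  refine Finset.sum_congr rfl fun i hi => ?_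
  rw [Finset.mem_range] at hi
  rw [Nat.pow_div (by omega) hp.pos]

theorem geom_bound {p : ℕ} (hp : p.Prime) (c : ℝ) (hc : 0 ≤ c) (g : ℕ → ℝ)
    (hg : ∀ j, 1 ≤ j → g j ≤ c / (p : ℝ) ^ j) (M : ℕ) :
    ∑ j ∈ Finset.Icc 1 M, g j ≤ c / ((p : ℝ) - 1) := by
  have hp1 : (1 : ℝ) < p := by exact_mod_cast hp.one_lt
  have hkey : ∀ M : ℕ, ∑ j ∈ Finset.Icc 1 M, c / (p : ℝ) ^ j =
      c / ((p : ℝ) - 1) - c / ((p : ℝ) - 1) / (p : ℝ) ^ M := by
    intro M
    induction M with
    | zero => simp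
    | succ M ih =>
      rw [Finset.sum_Icc_succ_top (by omega), ih]
      have h1 : (p : ℝ) - 1 ≠ 0 := by linarith
      have h2 : (p : ℝ) ≠ 0 := by linarith
      field_simp
      ring
  calc ∑ j ∈ Finset.Icc 1 M, g j ≤ ∑ j ∈ Finset.Icc 1 M, c / (p : ℝ) ^ j :=
        Finset.sum_le_sum fun j hj => hg j (Finset.mem_Icc.1 hj).1
    _ = _ := hkey M
    _ ≤ _ := by
        have : 0 ≤ c / ((p : ℝ) - 1) / (p : ℝ) ^ M := by
          have : 0 < (p : ℝ) - 1 := by linarith
          positivity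
        linarith

/-- Local factors: `(bD * κ)(p^a) = beD p` at `log p ≤ l0`, `≤ 1 + A` at middle primes, `= 1`
otherwise. -/
theorem ms_D (A : ℕ) : ∃ C : ℝ, 0 ≤ C ∧
    ∀ (κ : ArithmeticFunction ℝ) (Δ l0 l1 l2 : ℝ) (N X : ℕ), κ.IsMultiplicative →
      (∀ n, 0 ≤ κ n) →
      (∀ p j : ℕ, p.Prime → 1 ≤ j → ¬ (l1 < Real.log p ∧ Real.log p ≤ l2) → κ (p ^ j) = 0) →
      (∀ p j : ℕ, p.Prime → ∑ i ∈ Finset.range (j + 1), κ (p ^ i) ≤ 1 + A) →
      1 ≤ Δ → 1 ≤ l0 → l0 ≤ l1 → l1 ≤ l2 → l2 ≤ Real.log N →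
      ∑ m ∈ smo N X, ((bD Δ l0 * κ) m) ^ 2 / m ≤
        C * Δ ^ 4 * (Real.log N / l0) * (l2 / l1) ^ ((1 + A) ^ 2) := by
  obtain ⟨C1, hC1, h1⟩ := prime_sum_small
  obtain ⟨C3, hC3, h3⟩ := prime_sum_mid
  refine ⟨Real.exp (C1 + (1 + A) ^ 2 * C3 + C3), (Real.exp_pos _).le, ?_⟩
  intro κ Δ l0 l1 l2 N X hκm hκ0 hκv hκs hΔ hl0 hl01 hl12 hl2N
  have hΔ0 : 0 ≤ Δ := by linarith
  have hl00 : 0 ≤ l0 := by linarith
  set F : ArithmeticFunction ℝ := bD Δ l0 * κ with hF
  have hFm : F.IsMultiplicative := (bD_isMultiplicative Δ l0).mul hκm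
  have hF0 : ∀ n, 0 ≤ F n := by
    intro n
    rw [hF, ArithmeticFunction.mul_apply]
    exact Finset.sum_nonneg fun x _ => mul_nonneg (bD_nonneg_msD hΔ0 hl00 _) (hκ0 _)
  have hκ1 : κ 1 = 1 := hκm.map_one
  -- the local factors
  let T : ℕ → ℝ := fun p =>
    if Real.log p ≤ l0 then min 2 (Δ * Real.log p / l0)
    else if l1 < Real.log p ∧ Real.log p ≤ l2 then 1 + A else 1
  have hT0 : ∀ p, 0 ≤ T p := by
    intro p
    simp only [T]
    split_ifs
    · refine le_min (by norm_num) ?_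
      have := Real.log_natCast_nonneg p
      positivity
    · positivity
    · norm_num
  have hloc : ∀ p a : ℕ, p.Prime → 1 ≤ a → F (p ^ a) ≤ T p := by
    intro p a hp ha
    rw [hF, conv_prime_pow _ _ hp]
    by_cases hmid : l1 < Real.log p ∧ Real.log p ≤ l2
    · have hlt : ¬ Real.log p ≤ l0 := by
        have := hmid.1
        push Not
        linarith
      have hbe : beD Δ l0 p = 1 := by simp [beD, hlt]
      have hTp : T p = 1 + A := by simp only [T]; rw [if_neg hlt, if_pos hmid]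
      rw [hTp]
      refine le_trans (le_of_eq ?_) (hκs p a hp)
      refine Finset.sum_congr rfl fun i _ => ?_
      rw [bD_prime_pow_msD _ _ hp, hbe]
      simp
    · have hTp : T p = beD Δ l0 p := by
        simp only [T, beD]
        split_ifs <;> rfl
      rw [hTp, Finset.sum_range_succ']
      rw [Finset.sum_eq_zero, zero_add]
      · rw [bD_prime_pow_msD _ _ hp, if_neg (by omega), pow_zero, hκ1, mul_one]
      · intro i _
        rw [hκv p (i + 1) hp (by omega) hmid, mul_zero]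
  have hE := euler_bound (fun m => (F m) ^ 2 / m) N (fun p => (T p) ^ 2 / ((p : ℝ) - 1))
    (fun n => by positivity) (by simp [hFm.map_one])
    (fun m n hmn => by
      rw [hFm.map_mul_of_coprime hmn]
      push_cast
      rw [mul_pow, mul_div_mul_comm])
    (fun p hp _ M => by
      refine geom_bound hp _ (sq_nonneg _) _ (fun j hj => ?_) M
      push_cast
      have hp0 : (0 : ℝ) < p := by exact_mod_cast hp.pos
      gcongr
      · exact hF0 _
      · exact hloc p j hp hj)
    (smo N X) (fun m hm => by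
      rw [smo, Finset.mem_filter, Finset.mem_Icc] at hm
      exact ⟨by omega, hm.2⟩)
  refine hE.trans ?_
  -- the sum of the local terms
  have hlogN : 1 ≤ Real.log N := by linarith
  have hsum : ∑ p ∈ Nat.primesLE N, (T p) ^ 2 / ((p : ℝ) - 1) ≤
      (4 * Real.log Δ + C1) + (1 + A) ^ 2 * (Real.log (l2 / l1) + C3) +
        (Real.log (Real.log N / l0) + C3) := by
    have hS1 := h1 Δ l0 N hΔ hl0
    have hS2 := h3 l1 l2 N (by linarith) hl12
    have hS3 := h3 l0 (Real.log N) N hl0 (by linarith)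
    have hpos : ∀ p ∈ Nat.primesLE N, 0 ≤ 1 / ((p : ℝ) - 1) := by
      intro p hp
      have hp' : p.Prime := Nat.prime_of_mem_primesLE hp
      have : (1 : ℝ) < p := by exact_mod_cast hp'.one_lt
      have : 0 < (p : ℝ) - 1 := by linarith
      positivity
    calc ∑ p ∈ Nat.primesLE N, (T p) ^ 2 / ((p : ℝ) - 1)
        ≤ ∑ p ∈ Nat.primesLE N,
          ((if Real.log p ≤ l0 then (min 2 (Δ * Real.log p / l0)) ^ 2 / ((p : ℝ) - 1) else 0) +
           (1 + A) ^ 2 * (if l1 < Real.log p ∧ Real.log p ≤ l2 then 1 / ((p : ℝ) - 1) else 0) +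
           (if l0 < Real.log p ∧ Real.log p ≤ Real.log N then 1 / ((p : ℝ) - 1) else 0)) := by
          refine Finset.sum_le_sum fun p hp => ?_
          have h0 := hpos p hp
          have hpN : Real.log p ≤ Real.log N := by
            have hp' : p.Prime := Nat.prime_of_mem_primesLE hp
            have : p ≤ N := Nat.le_of_mem_primesLE hp
            exact Real.log_le_log (by exact_mod_cast hp'.pos) (by exact_mod_cast this)
          simp only [T]
          by_cases ha : Real.log p ≤ l0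
          · rw [if_pos ha, if_pos ha, if_neg (by push Not; intro; linarith),
              if_neg (by push Not; intro; linarith)]
            simp
          · rw [if_neg ha, if_neg ha]
            push Not at ha
            rw [if_pos (show l0 < Real.log p ∧ Real.log p ≤ Real.log N from ⟨ha, hpN⟩)]
            by_cases hb : l1 < Real.log p ∧ Real.log p ≤ l2
            · rw [if_pos hb, if_pos hb]
              have : ((1 : ℝ) + A) ^ 2 / ((p : ℝ) - 1) = (1 + A) ^ 2 * (1 / ((p : ℝ) - 1)) := by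
                ring
              rw [this]
              linarith
            · rw [if_neg hb, if_neg hb]
              simp
      _ = (∑ p ∈ (Nat.primesLE N).filter (fun p : ℕ => Real.log p ≤ l0),
            (min 2 (Δ * Real.log p / l0)) ^ 2 / ((p : ℝ) - 1)) +
          (1 + A) ^ 2 *
            (∑ p ∈ (Nat.primesLE N).filter (fun p : ℕ => l1 < Real.log p ∧ Real.log p ≤ l2),
              1 / ((p : ℝ) - 1)) +
          (∑ p ∈ (Nat.primesLE N).filter (fun p : ℕ => l0 < Real.log p ∧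
              Real.log p ≤ Real.log N), 1 / ((p : ℝ) - 1)) := by
          rw [Finset.sum_add_distrib, Finset.sum_add_distrib, ← Finset.mul_sum,
            Finset.sum_filter, Finset.sum_filter, Finset.sum_filter]
      _ ≤ _ := by
          gcongr
  refine (Real.exp_le_exp.2 hsum).trans (le_of_eq ?_)
  have hl1 : 0 < l1 := by linarith
  have hl2 : 0 < l2 := by linarith
  have e1 : Real.exp (4 * Real.log Δ) = Δ ^ 4 := by
    rw [mul_comm, Real.exp_mul, Real.exp_log (by linarith)]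
    norm_num
  have e2 : Real.exp ((1 + A) ^ 2 * Real.log (l2 / l1)) = (l2 / l1) ^ ((1 + A) ^ 2) := by
    rw [mul_comm, Real.exp_mul, Real.exp_log (by positivity)]
    have : ((1 : ℝ) + A) ^ 2 = (((1 + A) ^ 2 : ℕ) : ℝ) := by push_cast; ring
    rw [this, Real.rpow_natCast]
  have e3 : Real.exp (Real.log (Real.log N / l0)) = Real.log N / l0 :=
    Real.exp_log (by positivity)
  rw [show (4 * Real.log Δ + C1) + (1 + A) ^ 2 * (Real.log (l2 / l1) + C3) +
        (Real.log (Real.log N / l0) + C3) = (C1 + (1 + A) ^ 2 * C3 + C3) + 4 * Real.log Δ +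
        Real.log (Real.log N / l0) + (1 + A) ^ 2 * Real.log (l2 / l1) by ring,
    Real.exp_add, Real.exp_add, Real.exp_add, e1, e2, e3]

end Pool.Agent.RAux
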