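import Mathlib
import Pool.Agent.RAux.Defs
import Pool.Agent.RAux.EulerB
import Pool.Agent.RAux.PrimeSum

/-!
Mean square of `bU`.
-/

set_option autoImplicit false

open Complex MeasureTheory Filter Topology

namespace Pool.Agent.RAux

theorem beU_nonneg_msU (lam : ℕ) {Δ L l0 l1 l2 : ℝ} (hΔ : 0 ≤ Δ) (hl : 0 ≤ l0) (hL : 0 ≤ L) (p : ℕ) :
    0 ≤ beU lam Δ L l0 l1 l2 p := by
  unfold beU
  have := Real.log_natCast_nonneg p
  split_ifs
  · refine le_min (by norm_num) ?_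
    positivity
  · exact le_min (by positivity) (by positivity)
  · norm_num

theorem bU_isMultiplicative (lam : ℕ) (Δ L l0 l1 l2 : ℝ) :
    (bU lam Δ L l0 l1 l2).IsMultiplicative := by
  rw [ArithmeticFunction.IsMultiplicative.iff_ne_zero]
  constructor
  · change (if (1 : ℕ) = 0 then (0 : ℝ) else
      ∏ p ∈ Nat.primeFactors 1, beU lam Δ L l0 l1 l2 p) = 1
    simp
  · intro m n hm hn hmn
    change (if m * n = 0 then (0 : ℝ) else
        ∏ p ∈ (m * n).primeFactors, beU lam Δ L l0 l1 l2 p) =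
      (if m = 0 then (0 : ℝ) else ∏ p ∈ m.primeFactors, beU lam Δ L l0 l1 l2 p) *
      (if n = 0 then (0 : ℝ) else ∏ p ∈ n.primeFactors, beU lam Δ L l0 l1 l2 p)
    rw [if_neg (mul_ne_zero hm hn), if_neg hm, if_neg hn, hmn.primeFactors_mul,
      Finset.prod_union hmn.disjoint_primeFactors]

theorem bU_prime_pow (lam : ℕ) (Δ L l0 l1 l2 : ℝ) {p : ℕ} (hp : p.Prime) (j : ℕ) (hj : j ≠ 0) :
    bU lam Δ L l0 l1 l2 (p ^ j) = beU lam Δ L l0 l1 l2 p := by
  change (if p ^ j = 0 then (0 : ℝ) else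
    ∏ q ∈ (p ^ j).primeFactors, beU lam Δ L l0 l1 l2 q) = _
  rw [if_neg (pow_ne_zero _ hp.ne_zero), Nat.primeFactors_prime_pow hj hp, Finset.prod_singleton]

theorem msU_geom (p : ℕ) (hp : p.Prime) (A : ℕ) :
    ∑ j ∈ Finset.Icc 1 A, (1 : ℝ) / ((p ^ j : ℕ) : ℝ) ≤ 1 / ((p : ℝ) - 1) := by
  have hp1 : (1 : ℝ) < p := by exact_mod_cast hp.one_lt
  have h : ∑ j ∈ Finset.Icc 1 A, (1 : ℝ) / ((p ^ j : ℕ) : ℝ) =
      1 / ((p : ℝ) - 1) - 1 / ((p : ℝ) ^ A * ((p : ℝ) - 1)) := by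
    induction A with
    | zero => simp
    | succ n ih =>
      rw [Finset.sum_Icc_succ_top (by omega), ih]
      have h1 : (p : ℝ) - 1 ≠ 0 := by linarith
      have h2 : (p : ℝ) ≠ 0 := by linarith
      push_cast
      field_simp
      ring
  rw [h]
  have : 0 ≤ 1 / ((p : ℝ) ^ A * ((p : ℝ) - 1)) := by
    have : 0 < (p : ℝ) - 1 := by linarith
    positivity
  linarith

/-- Local factors: at `log p ≤ l0` use `prime_sum_small`; at other non-middle primes
`prime_sum_mid` on `(l0, log N]`; at middle primes `beU = (lam-1) + x`, `x = min 2 (Δ log p / L)`,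
`beU² ≤ (lam-1)² + 2 lam x`, and `prime_sum_mid`, `prime_sum_small1` (with `l = L`). -/
theorem ms_U (lam : ℕ) (hlam : 1 ≤ lam) : ∃ C : ℝ, 0 ≤ C ∧
    ∀ (Δ L l0 l1 l2 : ℝ) (N X : ℕ), 1 ≤ Δ → 1 ≤ l0 → l0 ≤ l1 → l1 ≤ l2 → l2 ≤ Real.log N →
      Real.log N ≤ L →
      ∑ m ∈ smo N X, (bU lam Δ L l0 l1 l2 m) ^ 2 / m ≤
        C * Δ ^ (4 + 4 * lam) * (Real.log N / l0) * (l2 / l1) ^ ((lam - 1) ^ 2) := by
  obtain ⟨C1, hC1, h1⟩ := prime_sum_small
  obtain ⟨C2, hC2, h2⟩ := prime_sum_mid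
  obtain ⟨C3, hC3, h3⟩ := prime_sum_small1
  refine ⟨Real.exp (C1 + C2 + ((lam : ℝ) - 1) ^ 2 * C2 + 2 * lam * C3), (Real.exp_pos _).le, ?_⟩
  intro Δ L l0 l1 l2 N X hΔ hl0 hl01 hl12 hl2N hNL
  have hl1 : 1 ≤ l1 := hl0.trans hl01
  have hl2 : 1 ≤ l2 := hl1.trans hl12
  have hlN : 1 ≤ Real.log N := hl2.trans hl2N
  have hL1 : 1 ≤ L := hlN.trans hNL
  have hlamR : (1 : ℝ) ≤ lam := by exact_mod_cast hlam
  have hΔ0 : 0 ≤ Δ := by linarith
  have hl00 : 0 ≤ l0 := by linarith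
  have hL0 : 0 ≤ L := by linarith
  set b := beU lam Δ L l0 l1 l2 with hb
  have hb0 : ∀ p, 0 ≤ b p := fun p => beU_nonneg_msU lam hΔ0 hl00 hL0 p
  -- Euler product
  have hE := euler_bound (fun m => (bU lam Δ L l0 l1 l2 m) ^ 2 / m) N
    (fun p => (b p) ^ 2 / ((p : ℝ) - 1)) (fun n => by positivity)
    (by
      have := (bU_isMultiplicative lam Δ L l0 l1 l2).1
      simp [this])
    (by
      intro m n hmn
      have := (bU_isMultiplicative lam Δ L l0 l1 l2).map_mul_of_coprime hmn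
      simp only [this]
      push_cast
      rw [mul_pow, mul_div_mul_comm])
    (by
      intro p hp _ A
      have hg := msU_geom p hp A
      calc ∑ j ∈ Finset.Icc 1 A, (bU lam Δ L l0 l1 l2 (p ^ j)) ^ 2 / ((p ^ j : ℕ) : ℝ)
          = (b p) ^ 2 * ∑ j ∈ Finset.Icc 1 A, (1 : ℝ) / ((p ^ j : ℕ) : ℝ) := by
            rw [Finset.mul_sum]
            refine Finset.sum_congr rfl fun j hj => ?_
            rw [bU_prime_pow lam Δ L l0 l1 l2 hp j (by
              have := (Finset.mem_Icc.1 hj).1; omega)]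
            ring
        _ ≤ (b p) ^ 2 * (1 / ((p : ℝ) - 1)) := mul_le_mul_of_nonneg_left hg (by positivity)
        _ = (b p) ^ 2 / ((p : ℝ) - 1) := by ring)
    (smo N X)
    (by
      intro m hm
      unfold smo at hm
      rw [Finset.mem_filter, Finset.mem_Icc] at hm
      exact ⟨by omega, hm.2⟩)
  refine hE.trans ?_
  -- sum over primes
  have hpt : ∀ p ∈ Nat.primesLE N, (b p) ^ 2 / ((p : ℝ) - 1) ≤
      (if Real.log p ≤ l0 then (min 2 (Δ * Real.log p / l0)) ^ 2 / ((p : ℝ) - 1) else 0) +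
      (if l0 < Real.log p ∧ Real.log p ≤ Real.log N then 1 / ((p : ℝ) - 1) else 0) +
      ((lam : ℝ) - 1) ^ 2 *
        (if l1 < Real.log p ∧ Real.log p ≤ l2 then 1 / ((p : ℝ) - 1) else 0) +
      2 * lam * (if Real.log p ≤ L then (min 2 (Δ * Real.log p / L)) / ((p : ℝ) - 1) else 0) := by
    intro p hp
    obtain ⟨hpN, hpp⟩ := Nat.mem_primesLE.1 hp
    have hp1 : (1 : ℝ) < p := by exact_mod_cast hpp.one_lt
    have hpm : 0 < (p : ℝ) - 1 := by linarith
    have hlp : Real.log p ≤ Real.log N :=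
      Real.log_le_log (by linarith) (by exact_mod_cast hpN)
    have hlp0 : 0 ≤ Real.log p := Real.log_natCast_nonneg p
    rw [if_pos (hlp.trans hNL)]
    have hx0 : 0 ≤ min 2 (Δ * Real.log p / L) := le_min (by norm_num) (by positivity)
    have hx2 : min 2 (Δ * Real.log p / L) ≤ 2 := min_le_left _ _
    by_cases hs : Real.log p ≤ l0
    · have hbp : b p = min 2 (Δ * Real.log p / l0) := by
        rw [hb]; unfold beU; rw [if_pos hs]
      rw [if_pos hs, hbp, if_neg (by intro h; exact absurd hs (not_le.2 h.1)),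
        if_neg (by intro h; exact absurd (hs.trans hl01) (not_le.2 h.1))]
      have : 0 ≤ 2 * (lam : ℝ) * (min 2 (Δ * Real.log p / L) / ((p : ℝ) - 1)) := by positivity
      linarith
    · have hs' : l0 < Real.log p := not_le.1 hs
      rw [if_neg hs, if_pos ⟨hs', hlp⟩]
      by_cases hmid : l1 < Real.log p ∧ Real.log p ≤ l2
      · have hbp : b p = ((lam : ℝ) - 1) + min 2 (Δ * Real.log p / L) := by
          rw [hb]; unfold beU
          rw [if_neg hs, if_pos hmid, abs_of_nonneg (by linarith), ← min_add_add_left]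
          congr 1
          ring
        rw [if_pos hmid, hbp]
        set x := min 2 (Δ * Real.log p / L) with hx
        have h4 : (((lam : ℝ) - 1) + x) ^ 2 ≤ ((lam : ℝ) - 1) ^ 2 + 2 * lam * x := by
          nlinarith
        have h5 : (((lam : ℝ) - 1) + x) ^ 2 / ((p : ℝ) - 1) ≤
            (((lam : ℝ) - 1) ^ 2 + 2 * lam * x) / ((p : ℝ) - 1) := by gcongr
        have h6 : 0 ≤ 1 / ((p : ℝ) - 1) := by positivity
        have h7 : (((lam : ℝ) - 1) ^ 2 + 2 * lam * x) / ((p : ℝ) - 1) =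
            ((lam : ℝ) - 1) ^ 2 * (1 / ((p : ℝ) - 1)) + 2 * lam * (x / ((p : ℝ) - 1)) := by ring
        linarith
      · have hbp : b p = 1 := by
          rw [hb]; unfold beU; rw [if_neg hs, if_neg hmid]
        rw [if_neg hmid, hbp]
        have : 0 ≤ 2 * (lam : ℝ) * (min 2 (Δ * Real.log p / L) / ((p : ℝ) - 1)) := by positivity
        rw [one_pow]
        linarith
  have hsum : ∑ p ∈ Nat.primesLE N, (b p) ^ 2 / ((p : ℝ) - 1) ≤
      (4 * Real.log Δ + C1) + (Real.log (Real.log N / l0) + C2) +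
      ((lam : ℝ) - 1) ^ 2 * (Real.log (l2 / l1) + C2) + 2 * lam * (2 * Real.log Δ + C3) := by
    refine (Finset.sum_le_sum hpt).trans ?_
    rw [Finset.sum_add_distrib, Finset.sum_add_distrib, Finset.sum_add_distrib, ← Finset.mul_sum,
      ← Finset.mul_sum, ← Finset.sum_filter, ← Finset.sum_filter, ← Finset.sum_filter,
      ← Finset.sum_filter]
    have a1 := h1 Δ l0 N hΔ hl0
    have a2 := h2 l0 (Real.log N) N hl0 ((hl01.trans hl12).trans hl2N)
    have a3 := h2 l1 l2 N hl1 hl12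
    have a4 := h3 Δ L N hΔ hL1
    have a5 := mul_le_mul_of_nonneg_left a3 (sq_nonneg ((lam : ℝ) - 1))
    have a6 := mul_le_mul_of_nonneg_left a4 (show 0 ≤ 2 * (lam : ℝ) by positivity)
    linarith
  refine (Real.exp_le_exp.2 hsum).trans ?_
  have hcast : (((lam - 1) ^ 2 : ℕ) : ℝ) = ((lam : ℝ) - 1) ^ 2 := by
    push_cast [Nat.cast_sub hlam]
    ring
  have hN0 : 0 < Real.log N / l0 := by
    have : 0 < l0 := by linarith
    have : 0 < Real.log N := by linarith
    positivity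
  have hl21 : 0 < l2 / l1 := by
    have : 0 < l1 := by linarith
    have : 0 < l2 := by linarith
    positivity
  have e1 : Δ ^ (4 + 4 * lam) = Real.exp ((4 + 4 * lam : ℕ) * Real.log Δ) := by
    rw [Real.exp_nat_mul, Real.exp_log (by linarith)]
  have e2 : (l2 / l1) ^ ((lam - 1) ^ 2) = Real.exp (((lam - 1) ^ 2 : ℕ) * Real.log (l2 / l1)) := by
    rw [Real.exp_nat_mul, Real.exp_log hl21]
  have e3 : Real.log N / l0 = Real.exp (Real.log (Real.log N / l0)) := (Real.exp_log hN0).symm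
  rw [e1, e2]
  conv_rhs => rw [e3]
  rw [← Real.exp_add, ← Real.exp_add, ← Real.exp_add]
  refine Real.exp_le_exp.2 (le_of_eq ?_)
  rw [hcast]
  push_cast
  ring

end Pool.Agent.RAux
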