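import Mathlib
import Pool.Agent.RAux.Defs
import Pool.Agent.RAux.MeanValue
import Pool.Agent.RAux.FourierRep
import Pool.Agent.RAux.FourierRep2
import Pool.Agent.RAux.Majorant
import Pool.Agent.RAux.EulerB
import Pool.Agent.RAux.Avg
import Pool.Agent.RAux.Supp

/-!
Common lemmas for `Nt4.lean` and `Nt2.lean` (helper74).
-/

set_option autoImplicit false

open Complex MeasureTheory Filter Topology

namespace Pool.Agent.RAux.H74

/-- `f` is supported on integers all of whose prime factors are at most `N`. -/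
def SmSupp {S : Type*} [CommSemiring S] (N : ℕ) (f : ArithmeticFunction S) : Prop :=
  ∀ m, f m ≠ 0 → ∀ p ∈ m.primeFactors, p ≤ N

theorem smSupp_mul {S : Type*} [CommSemiring S] {N : ℕ} {f g : ArithmeticFunction S}
    (hf : SmSupp N f) (hg : SmSupp N g) : SmSupp N (f * g) := by
  intro m hm p hp
  rw [ArithmeticFunction.mul_apply] at hm
  obtain ⟨x, hx, hne⟩ := Finset.exists_ne_zero_of_sum_ne_zero hm
  rw [Nat.mem_divisorsAntidiagonal] at hx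
  have h1 : f x.1 ≠ 0 := left_ne_zero_of_mul hne
  have h2 : g x.2 ≠ 0 := right_ne_zero_of_mul hne
  have hx1 : x.1 ≠ 0 := by
    intro h
    rw [h] at h1
    exact h1 (ArithmeticFunction.map_zero)
  have hx2 : x.2 ≠ 0 := by
    intro h
    rw [h] at h2
    exact h2 (ArithmeticFunction.map_zero)
  rw [← hx.1, Nat.primeFactors_mul hx1 hx2, Finset.mem_union] at hp
  rcases hp with hp | hp
  · exact hf _ h1 p hp
  · exact hg _ h2 p hp

theorem smSupp_of_le {S : Type*} [CommSemiring S] {N : ℕ} {f : ArithmeticFunction S}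
    (h : ∀ m, N < m → f m = 0) : SmSupp N f := by
  intro m hm p hp
  have : m ≤ N := by
    by_contra hc
    exact hm (h m (by omega))
  exact (Nat.le_of_mem_primeFactors hp).trans this

theorem M2_eq_smo (f : ArithmeticFunction ℂ) (N X : ℕ) (hf : SmSupp N f) :
    M2 f X = ∑ m ∈ smo N X, ‖f m‖ ^ 2 / m := by
  unfold M2 smo
  symm
  apply Finset.sum_filter_of_ne
  intro m _ hm
  apply hf
  intro h
  apply hm
  simp [h]

theorem smo_one_le {N X : ℕ} : ∀ m ∈ smo N X, 1 ≤ m := by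
  intro m hm
  unfold smo at hm
  exact (Finset.mem_Icc.mp (Finset.mem_filter.mp hm).1).1

open Classical in
theorem kap_app {S : Type*} [CommRing S] (A : S) (l1 l2 : ℝ) (n : ℕ) :
    kap A l1 l2 n = if midSq l1 l2 n then A ^ n.primeFactors.card else 0 := rfl

theorem kap_zero_eq (l1 l2 : ℝ) : kap (-((0 : ℕ) : ℂ)) l1 l2 = 1 := by
  ext n
  rw [kap_app]
  rcases Nat.lt_trichotomy n 1 with h | h | h
  · have h0 : n = 0 := by omega
    subst h0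
    simp [midSq]
  · subst h
    simp [midSq]
  · have h1 : n.primeFactors.card ≠ 0 := by
      rw [Finset.card_ne_zero]
      exact Nat.nonempty_primeFactors.mpr h
    rw [ArithmeticFunction.one_apply_ne (by omega)]
    simp [h1]

theorem beU_zero_eq (Δ L l0 l1 l2 : ℝ) (hΔ : 0 ≤ Δ) (hL : 0 ≤ L) (p : ℕ) :
    beU 0 Δ L l0 l1 l2 p = beD Δ l0 p := by
  unfold beU beD
  by_cases h : Real.log p ≤ l0
  · rw [if_pos h, if_pos h]
  · rw [if_neg h, if_neg h]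
    split_ifs with h2
    · have h3 : 0 ≤ Δ * Real.log p / L := by
        have := Real.log_natCast_nonneg p
        positivity
      have h4 : |((0 : ℕ) : ℝ) - 1| = 1 := by norm_num
      rw [h4]
      push_cast
      rw [min_eq_left (by linarith)]
      ring
    · rfl

theorem bU_zero_eq (Δ L l0 l1 l2 : ℝ) (hΔ : 0 ≤ Δ) (hL : 0 ≤ L) (m : ℕ) :
    bU 0 Δ L l0 l1 l2 m = bD Δ l0 m := by
  show (if m = 0 then 0 else ∏ p ∈ m.primeFactors, beU 0 Δ L l0 l1 l2 p) =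
    (if m = 0 then 0 else ∏ p ∈ m.primeFactors, beD Δ l0 p)
  split_ifs
  · rfl
  · exact Finset.prod_congr rfl fun p _ => beU_zero_eq Δ L l0 l1 l2 hΔ hL p

theorem bD_apply (Δ l0 : ℝ) (m : ℕ) :
    bD Δ l0 m = if m = 0 then 0 else ∏ p ∈ m.primeFactors, beD Δ l0 p := rfl

theorem beD_nonneg (Δ l0 : ℝ) (hΔ : 0 ≤ Δ) (hl0 : 0 ≤ l0) (p : ℕ) : 0 ≤ beD Δ l0 p := by
  unfold beD
  split_ifs
  · have := Real.log_natCast_nonneg p
    exact le_min (by norm_num) (by positivity)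
  · norm_num

theorem beD_le_two (Δ l0 : ℝ) (p : ℕ) : beD Δ l0 p ≤ 2 := by
  unfold beD
  split_ifs
  · exact min_le_left _ _
  · norm_num

theorem beD_mono (Δ Δ' l0 : ℝ) (h : Δ ≤ Δ') (hl0 : 0 ≤ l0) (p : ℕ) :
    beD Δ l0 p ≤ beD Δ' l0 p := by
  unfold beD
  split_ifs
  · have := Real.log_natCast_nonneg p
    exact min_le_min le_rfl (by gcongr)
  · exact le_rfl

theorem bD_nonneg (Δ l0 : ℝ) (hΔ : 0 ≤ Δ) (hl0 : 0 ≤ l0) (m : ℕ) : 0 ≤ bD Δ l0 m := by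
  rw [bD_apply]
  split_ifs
  · exact le_rfl
  · exact Finset.prod_nonneg fun p _ => beD_nonneg Δ l0 hΔ hl0 p

theorem bD_le (Δ l0 : ℝ) (hΔ : 0 ≤ Δ) (hl0 : 0 ≤ l0) (m : ℕ) :
    bD Δ l0 m ≤ 2 ^ m.primeFactors.card := by
  rw [bD_apply]
  split_ifs
  · positivity
  · rw [← Finset.prod_const]
    exact Finset.prod_le_prod (fun p _ => beD_nonneg Δ l0 hΔ hl0 p) fun p _ => beD_le_two Δ l0 p

theorem bD_mono (Δ Δ' l0 : ℝ) (hΔ : 0 ≤ Δ) (h : Δ ≤ Δ') (hl0 : 0 ≤ l0) (m : ℕ) :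
    bD Δ l0 m ≤ bD Δ' l0 m := by
  rw [bD_apply, bD_apply]
  split_ifs
  · exact le_rfl
  · exact Finset.prod_le_prod (fun p _ => beD_nonneg Δ l0 hΔ hl0 p)
      fun p _ => beD_mono Δ Δ' l0 h hl0 p

theorem bD_continuous (l0 : ℝ) (m : ℕ) : Continuous (fun Δ : ℝ => bD Δ l0 m) := by
  simp only [bD_apply]
  split_ifs
  · exact continuous_const
  · refine continuous_finsetProd _ fun p _ => ?_
    unfold beD
    split_ifs
    · exact continuous_const.min (by fun_prop)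
    · exact continuous_const

theorem bD_integrable (ν : Measure ℝ) [IsFiniteMeasure ν] (h1 : ∀ᵐ Δ ∂ν, 1 ≤ Δ) (l0 : ℝ)
    (hl0 : 0 ≤ l0) (m : ℕ) : Integrable (fun Δ : ℝ => bD Δ l0 m) ν := by
  refine Integrable.of_bound (bD_continuous l0 m).aestronglyMeasurable
    ((2 : ℝ) ^ m.primeFactors.card) ?_
  filter_upwards [h1] with Δ hΔ
  rw [Real.norm_of_nonneg (bD_nonneg Δ l0 (by linarith) hl0 m)]
  exact bD_le Δ l0 (by linarith) hl0 m

theorem norm_conv_le (f g : ArithmeticFunction ℂ) (F G : ArithmeticFunction ℝ)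
    (hf : ∀ m, ‖f m‖ ≤ F m) (hg : ∀ m, ‖g m‖ ≤ G m) (m : ℕ) : ‖(f * g) m‖ ≤ (F * G) m := by
  rw [ArithmeticFunction.mul_apply, ArithmeticFunction.mul_apply]
  refine (norm_sum_le _ _).trans (Finset.sum_le_sum fun x _ => ?_)
  rw [norm_mul]
  exact mul_le_mul (hf _) (hg _) (norm_nonneg _) ((norm_nonneg _).trans (hf _))

/-- The averaged majorant. -/
noncomputable def avD (ν : Measure ℝ) (l0 : ℝ) : ArithmeticFunction ℝ :=
  ⟨fun m => ∫ Δ, bD Δ l0 m ∂ν, by simp⟩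

theorem avD_apply (ν : Measure ℝ) (l0 : ℝ) (m : ℕ) : avD ν l0 m = ∫ Δ, bD Δ l0 m ∂ν := rfl

/-- Convolution of the averaged majorant with a fixed function. -/
theorem avD_mul_apply (ν : Measure ℝ) [IsFiniteMeasure ν] (h1 : ∀ᵐ Δ ∂ν, 1 ≤ Δ) (l0 : ℝ)
    (hl0 : 0 ≤ l0) (κ : ArithmeticFunction ℝ) (m : ℕ) :
    (avD ν l0 * κ) m = ∫ Δ, (bD Δ l0 * κ) m ∂ν := by
  simp only [ArithmeticFunction.mul_apply, avD_apply]
  rw [integral_finsetSum]
  · refine Finset.sum_congr rfl fun x _ => ?_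
    rw [integral_mul_const]
  · intro x _
    exact (bD_integrable ν h1 l0 hl0 x.1).mul_const _

/-- The multiplicative convolution square of `ν`. -/
noncomputable def nuSq (ν : Measure ℝ) : Measure ℝ :=
  (ν.prod ν).map (fun p : ℝ × ℝ => p.1 * p.2)

theorem nuSq_ae (ν : Measure ℝ) [IsFiniteMeasure ν] (h1 : ∀ᵐ Δ ∂ν, 1 ≤ Δ) :
    ∀ᵐ p ∂(ν.prod ν), 1 ≤ p.1 ∧ 1 ≤ p.2 := by
  have hf : ∀ᵐ p ∂(ν.prod ν), 1 ≤ p.1 := Measure.quasiMeasurePreserving_fst.ae h1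
  have hs : ∀ᵐ p ∂(ν.prod ν), 1 ≤ p.2 := Measure.quasiMeasurePreserving_snd.ae h1
  filter_upwards [hf, hs] with p h h'
  exact ⟨h, h'⟩

theorem nuSq_meas : Measurable (fun p : ℝ × ℝ => p.1 * p.2) := by fun_prop

instance nuSq_finite (ν : Measure ℝ) [IsFiniteMeasure ν] : IsFiniteMeasure (nuSq ν) := by
  unfold nuSq
  infer_instance

theorem nuSq_one_le (ν : Measure ℝ) [IsFiniteMeasure ν] (h1 : ∀ᵐ Δ ∂ν, 1 ≤ Δ) :
    ∀ᵐ Δ ∂(nuSq ν), 1 ≤ Δ := by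
  unfold nuSq
  rw [ae_map_iff nuSq_meas.aemeasurable measurableSet_Ici]
  filter_upwards [nuSq_ae ν h1] with p hp
  nlinarith [hp.1, hp.2]

theorem nuSq_integrable (ν : Measure ℝ) [IsFiniteMeasure ν] (J : ℕ)
    (hJ : Integrable (fun Δ : ℝ => Δ ^ J) ν) : Integrable (fun Δ : ℝ => Δ ^ J) (nuSq ν) := by
  unfold nuSq
  rw [integrable_map_measure (by fun_prop) nuSq_meas.aemeasurable]
  have := hJ.mul_prod hJ
  refine this.congr ?_
  filter_upwards with p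
  simp [mul_pow]

theorem nuSq_integral (ν : Measure ℝ) [IsFiniteMeasure ν] (J : ℕ) :
    ∫ Δ, Δ ^ J ∂(nuSq ν) = (∫ Δ, Δ ^ J ∂ν) ^ 2 := by
  unfold nuSq
  rw [integral_map nuSq_meas.aemeasurable (by fun_prop)]
  simp only [mul_pow]
  rw [integral_prod_mul (fun Δ : ℝ => Δ ^ J) (fun Δ : ℝ => Δ ^ J), sq]

theorem bDbD_continuous (l0 : ℝ) (m : ℕ) :
    Continuous (fun Δ : ℝ => (bD Δ l0 * bD Δ l0) m) := by
  simp only [ArithmeticFunction.mul_apply]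
  exact continuous_finsetSum _ fun x _ => (bD_continuous l0 x.1).mul (bD_continuous l0 x.2)

theorem bDκ_continuous (l0 : ℝ) (κ : ArithmeticFunction ℝ) (m : ℕ) :
    Continuous (fun Δ : ℝ => (bD Δ l0 * κ) m) := by
  simp only [ArithmeticFunction.mul_apply]
  exact continuous_finsetSum _ fun x _ => (bD_continuous l0 x.1).mul continuous_const

theorem conv_nonneg (F G : ArithmeticFunction ℝ) (hF : ∀ m, 0 ≤ F m) (hG : ∀ m, 0 ≤ G m)
    (m : ℕ) : 0 ≤ (F * G) m := by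
  rw [ArithmeticFunction.mul_apply]
  exact Finset.sum_nonneg fun x _ => mul_nonneg (hF _) (hG _)

/-- The convolution square of the averaged majorant. -/
theorem avD_sq_apply_le (ν : Measure ℝ) [IsFiniteMeasure ν] (h1 : ∀ᵐ Δ ∂ν, 1 ≤ Δ) (l0 : ℝ)
    (hl0 : 0 ≤ l0) (m : ℕ) :
    (avD ν l0 * avD ν l0) m ≤ ∫ Δ, (bD Δ l0 * bD Δ l0) m ∂(nuSq ν) := by
  unfold nuSq
  rw [integral_map nuSq_meas.aemeasurable
    ((bDbD_continuous l0 m).aestronglyMeasurable)]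
  simp only [ArithmeticFunction.mul_apply, avD_apply]
  have hint : ∀ x : ℕ × ℕ, Integrable (fun p : ℝ × ℝ => bD (p.1 * p.2) l0 x.1 *
      bD (p.1 * p.2) l0 x.2) (ν.prod ν) := by
    intro x
    refine Integrable.of_bound ?_
      ((2 : ℝ) ^ x.1.primeFactors.card * (2 : ℝ) ^ x.2.primeFactors.card) ?_
    · refine Continuous.aestronglyMeasurable ?_
      exact ((bD_continuous l0 x.1).comp (by fun_prop)).mul
        ((bD_continuous l0 x.2).comp (by fun_prop))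
    · filter_upwards [nuSq_ae ν h1] with p hp
      have hp0 : 0 ≤ p.1 * p.2 := mul_nonneg (by linarith [hp.1]) (by linarith [hp.2])
      rw [norm_mul, Real.norm_of_nonneg (bD_nonneg _ l0 hp0 hl0 _),
        Real.norm_of_nonneg (bD_nonneg _ l0 hp0 hl0 _)]
      exact mul_le_mul (bD_le _ l0 hp0 hl0 _) (bD_le _ l0 hp0 hl0 _)
        (bD_nonneg _ l0 hp0 hl0 _) (by positivity)
  rw [integral_finsetSum _ fun x _ => hint x]
  refine Finset.sum_le_sum fun x _ => ?_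
  rw [← integral_prod_mul (fun Δ : ℝ => bD Δ l0 x.1) (fun Δ : ℝ => bD Δ l0 x.2)]
  refine integral_mono_ae ?_ (hint x) ?_
  · exact (bD_integrable ν h1 l0 hl0 x.1).mul_prod (bD_integrable ν h1 l0 hl0 x.2)
  · filter_upwards [nuSq_ae ν h1] with p hp
    have hp1 : 0 ≤ p.1 := by linarith [hp.1]
    have hp2 : 0 ≤ p.2 := by linarith [hp.2]
    have hp0 : 0 ≤ p.1 * p.2 := mul_nonneg hp1 hp2
    refine mul_le_mul (bD_mono _ _ l0 hp1 ?_ hl0 _) (bD_mono _ _ l0 hp2 ?_ hl0 _)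
      (bD_nonneg _ l0 hp2 hl0 _) (bD_nonneg _ l0 hp0 hl0 _)
    · nlinarith [hp.1, hp.2]
    · nlinarith [hp.1, hp.2]

/-- Size conditions for large `N`. -/
theorem nt_size (ξ T : ℝ) (hξ : 0 < ξ) (hξ1 : ξ < 1) :
    ∃ N₁ : ℕ, ∀ N : ℕ, N₁ ≤ N → ∀ L : ℝ, |L - 2 * Real.log N| ≤ 3 →
      1 ≤ N ∧ T ≤ Real.log N ∧ Real.log N ≤ L ∧ 1 ≤ x0 ξ * L ∧ x0 ξ * L ≤ L ∧
      x0 ξ * L ≤ Real.log N ∧ L / 4 ≤ Real.log N ∧ 0 < L := by
  set T' : ℝ := max T (max 3 ((4 / ξ ^ 3 + 3) / 2)) with hT'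
  refine ⟨⌈Real.exp T'⌉₊, fun N hN L hL => ?_⟩
  have h1 : Real.exp T' ≤ N := Nat.ceil_le.mp hN
  have h0 : (0 : ℝ) < N := (Real.exp_pos _).trans_le h1
  have h2 : T' ≤ Real.log N := by
    rw [Real.le_log_iff_exp_le h0]
    exact h1
  have hT : T ≤ T' := le_max_left _ _
  have h3 : (3 : ℝ) ≤ T' := (le_max_left _ _).trans (le_max_right _ _)
  have h4 : (4 / ξ ^ 3 + 3) / 2 ≤ T' := (le_max_right _ _).trans (le_max_right _ _)
  have hL' := abs_le.mp hL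
  have hL1 : Real.log N ≤ L := by linarith [hL'.1]
  have hL0 : 0 < L := by linarith
  have hξ3 : 0 < ξ ^ 3 := by positivity
  have hξ3' : ξ ^ 3 ≤ 1 := pow_le_one₀ hξ.le hξ1.le
  have hL4 : L / 4 ≤ Real.log N := by linarith [hL'.2]
  refine ⟨by exact_mod_cast h0, by linarith, hL1, ?_, ?_, ?_, hL4, hL0⟩
  · have h5 : 4 / ξ ^ 3 ≤ L := by linarith [hL'.1]
    rw [div_le_iff₀ hξ3] at h5
    unfold x0
    linarith
  · unfold x0
    nlinarith
  · unfold x0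
    nlinarith

/-- The measure of the majorant for the mollified polynomial. -/
theorem nt_maj (a : ℝ) (ha : 0 < a) (K k K₁ J : ℕ) (hK : J + 1 ≤ K) (hK₁ : J + 1 ≤ K₁) (ξ : ℝ)
    (hξ : 0 < ξ) :
    ∃ C : ℝ, 0 ≤ C ∧ ∀ (N : ℕ) (L : ℝ), 1 ≤ N → Real.log N ≤ L → 1 ≤ x0 ξ * L → x0 ξ * L ≤ L →
      ∃ ν : Measure ℝ, IsFiniteMeasure ν ∧ (∀ᵐ Δ ∂ν, 1 ≤ Δ) ∧
        Integrable (fun Δ : ℝ => Δ ^ J) ν ∧ (∫ Δ, Δ ^ J ∂ν) ≤ C ∧
        ∀ m : ℕ, ‖(arP (dpr a K k (ξ ^ 3)) N L * moll K₁ (x0 ξ * L)) m‖ ≤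
          avD ν (x0 ξ * L) m := by
  obtain ⟨C, hC0, hC⟩ := majorant 1 one_pos J K₁ hK₁
  obtain ⟨B, hB0, hB⟩ := dpr_rep a 1 K k ha (by omega) one_pos
  refine ⟨C * B, by positivity, fun N L hN hNL h1 h2 => ?_⟩
  have hrep : Rep (dpr a K k (ξ ^ 3)) 1 J B :=
    Rep.mono (hB (ξ ^ 3) (by positivity)) (by omega) le_rfl hB0
  obtain ⟨ν, hfin, hν1, hνJ, hνB, hν⟩ := hC (dpr a K k (ξ ^ 3)) B hB0 hrep
    (fun y hy => dpr_neg a K k (ξ ^ 3) (by positivity) y hy) N L (x0 ξ * L) (x0 ξ * L)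
    (x0 ξ * L) hN hNL h1 h2 le_rfl le_rfl
  refine ⟨ν, hfin, hν1, hνJ, hνB, fun m => ?_⟩
  have h3 := hν 0 m
  rw [kap_zero_eq, mul_one] at h3
  refine h3.trans (le_of_eq ?_)
  rw [avD_apply]
  refine integral_congr_ae ?_
  filter_upwards [hν1] with Δ hΔ
  exact bU_zero_eq Δ L _ _ _ (by linarith) (by linarith) m

theorem arP_smSupp (h : ℝ → ℝ) (N : ℕ) (L : ℝ) : SmSupp N (arP h N L) :=
  smSupp_of_le (arP_supp h N L)

theorem moll_smSupp (K₁ : ℕ) (l0 : ℝ) (N : ℕ) (h0 : 0 < l0) (hN : 1 ≤ N)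
    (h : l0 ≤ Real.log N) : SmSupp N (moll K₁ l0) := by
  refine smSupp_of_le fun m hm => moll_supp K₁ l0 h0 m ?_
  have hN0 : (0 : ℝ) < N := by exact_mod_cast hN
  have h1 : Real.exp l0 ≤ N := by
    rw [← Real.le_log_iff_exp_le hN0]
    exact h
  have h2 : ⌊Real.exp l0⌋₊ ≤ N := by
    have := Nat.floor_le_floor h1
    simpa using this
  omega

end Pool.Agent.RAux.H74
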