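import Mathlib
import Pool.Agent.RAux.Defs
import Pool.Agent.RAux.MeanValue
import Pool.Agent.RAux.FourierRep
import Pool.Agent.RAux.FourierRep2
import Pool.Agent.RAux.Majorant
import Pool.Agent.RAux.EulerB
import Pool.Agent.RAux.PrimeSum
import Pool.Agent.RAux.MsU
import Pool.Agent.RAux.MsD
import Pool.Agent.RAux.Ms4
import Pool.Agent.RAux.Avg
import Pool.Agent.RAux.NtAux

/-!
Second moment with the squared weight.
-/

set_option autoImplicit false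

open Complex MeasureTheory Filter Topology

namespace Pool.Agent.RAux.H74

theorem kap_isMultiplicative_nt2 (A l1 l2 : ℝ) : (kap A l1 l2).IsMultiplicative := by
  refine ⟨?_, ?_⟩
  · rw [kap_app, if_pos ⟨squarefree_one, by simp⟩]
    simp
  · intro m n hmn
    rw [kap_app, kap_app, kap_app]
    have hiff : midSq l1 l2 (m * n) ↔ midSq l1 l2 m ∧ midSq l1 l2 n := by
      unfold midSq
      constructor
      · rintro ⟨h1, h2⟩
        have hm0 : m ≠ 0 := left_ne_zero_of_mul h1.ne_zero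
        have hn0 : n ≠ 0 := right_ne_zero_of_mul h1.ne_zero
        rw [Nat.primeFactors_mul hm0 hn0] at h2
        exact ⟨⟨h1.of_mul_left, fun p hp => h2 p (Finset.mem_union_left _ hp)⟩,
          ⟨h1.of_mul_right, fun p hp => h2 p (Finset.mem_union_right _ hp)⟩⟩
      · rintro ⟨⟨h1, h2⟩, ⟨h3, h4⟩⟩
        refine ⟨(Nat.squarefree_mul hmn).mpr ⟨h1, h3⟩, ?_⟩
        rw [Nat.primeFactors_mul h1.ne_zero h3.ne_zero]
        intro p hp
        rcases Finset.mem_union.mp hp with hp | hp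
        · exact h2 p hp
        · exact h4 p hp
    by_cases h : midSq l1 l2 m ∧ midSq l1 l2 n
    · rw [if_pos (hiff.mpr h), if_pos h.1, if_pos h.2, Nat.Coprime.primeFactors_mul hmn,
        Finset.card_union_of_disjoint hmn.disjoint_primeFactors, pow_add]
    · rw [if_neg (fun h' => h (hiff.mp h'))]
      rw [not_and_or] at h
      rcases h with h | h
      · rw [if_neg h, zero_mul]
      · rw [if_neg h, mul_zero]

theorem kap_nonneg (A l1 l2 : ℝ) (hA : 0 ≤ A) (n : ℕ) : 0 ≤ kap A l1 l2 n := by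
  rw [kap_app]
  split_ifs
  · positivity
  · exact le_rfl

theorem kap_pow_eq_zero (A l1 l2 : ℝ) (p j : ℕ) (hp : p.Prime) (hj : 1 ≤ j)
    (h : ¬ (l1 < Real.log p ∧ Real.log p ≤ l2)) : kap A l1 l2 (p ^ j) = 0 := by
  rw [kap_app, if_neg]
  rintro ⟨-, h2⟩
  apply h
  apply h2 p
  rw [Nat.primeFactors_prime_pow (by omega) hp]
  simp

theorem kap_pow_eq_zero' (A l1 l2 : ℝ) (p j : ℕ) (hp : p.Prime) (hj : 2 ≤ j) :
    kap A l1 l2 (p ^ j) = 0 := by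
  rw [kap_app, if_neg]
  rintro ⟨h1, -⟩
  have := (Nat.squarefree_pow_iff (hp.one_lt.ne') (by omega : j ≠ 0)).mp h1
  omega

theorem kap_prime_le (A l1 l2 : ℝ) (hA : 0 ≤ A) (p : ℕ) (hp : p.Prime) :
    kap A l1 l2 p ≤ A := by
  rw [kap_app]
  split_ifs
  · rw [hp.primeFactors]
    simp
  · exact hA

/-- The values of the convolution square at prime powers. -/
theorem kapSq_pow (A l1 l2 : ℝ) (p j : ℕ) (hp : p.Prime) :
    (kap A l1 l2 * kap A l1 l2) (p ^ j) =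
      ∑ i ∈ Finset.range (j + 1), kap A l1 l2 (p ^ i) * kap A l1 l2 (p ^ (j - i)) := by
  rw [ArithmeticFunction.mul_apply, Nat.sum_divisorsAntidiagonal
    (f := fun x y => kap A l1 l2 x * kap A l1 l2 y), Nat.sum_divisors_prime_pow hp]
  refine Finset.sum_congr rfl fun i hi => ?_
  rw [Nat.pow_div (by simpa [Nat.lt_succ_iff] using hi) hp.pos]

theorem kap_sum_le (A l1 l2 : ℝ) (hA : 0 ≤ A) (p : ℕ) (hp : p.Prime) (s : Finset ℕ) :
    ∑ i ∈ s, kap A l1 l2 (p ^ i) ≤ 1 + A := by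
  calc ∑ i ∈ s, kap A l1 l2 (p ^ i)
      ≤ ∑ i ∈ s ∪ {0, 1}, kap A l1 l2 (p ^ i) :=
        Finset.sum_le_sum_of_subset_of_nonneg Finset.subset_union_left
          fun i _ _ => kap_nonneg A l1 l2 hA _
    _ = ∑ i ∈ {0, 1}, kap A l1 l2 (p ^ i) := by
        symm
        apply Finset.sum_subset Finset.subset_union_right
        intro i _ hi
        apply kap_pow_eq_zero' A l1 l2 p i hp
        simp only [Finset.mem_insert, Finset.mem_singleton, not_or] at hi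
        omega
    _ = kap A l1 l2 1 + kap A l1 l2 p := by simp
    _ ≤ 1 + A := by
        gcongr
        · exact (kap_isMultiplicative_nt2 A l1 l2).map_one.le
        · exact kap_prime_le A l1 l2 hA p hp

theorem kapSq_sum_le (A l1 l2 : ℝ) (hA : 0 ≤ A) (p j : ℕ) (hp : p.Prime) :
    ∑ i ∈ Finset.range (j + 1), (kap A l1 l2 * kap A l1 l2) (p ^ i) ≤ (1 + A) ^ 2 := by
  calc ∑ i ∈ Finset.range (j + 1), (kap A l1 l2 * kap A l1 l2) (p ^ i)
      = ∑ i ∈ Finset.range (j + 1), ∑ x ∈ Finset.range (i + 1),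
          kap A l1 l2 (p ^ x) * kap A l1 l2 (p ^ (i - x)) :=
        Finset.sum_congr rfl fun i _ => kapSq_pow A l1 l2 p i hp
    _ ≤ ∑ x ∈ Finset.range (j + 1), ∑ y ∈ Finset.range (j + 1),
          kap A l1 l2 (p ^ x) * kap A l1 l2 (p ^ y) := by
        rw [Finset.sum_sigma', ← Finset.sum_product']
        have hinj : Set.InjOn (fun z : (_ : ℕ) × ℕ => (z.2, z.1 - z.2))
            ↑((Finset.range (j + 1)).sigma fun i => Finset.range (i + 1)) := by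
          rintro ⟨i, x⟩ h1 ⟨i', x'⟩ h2 h
          simp only [Finset.coe_sigma, Finset.coe_range, Set.mem_sigma_iff, Set.mem_Iio] at h1 h2
          simp only [Prod.mk.injEq] at h
          obtain ⟨h3, h4⟩ := h
          subst h3
          have : i = i' := by omega
          subst this
          rfl
        rw [← Finset.sum_image (f := fun w : ℕ × ℕ =>
          kap A l1 l2 (p ^ w.1) * kap A l1 l2 (p ^ w.2)) hinj]
        refine Finset.sum_le_sum_of_subset_of_nonneg ?_ fun w _ _ =>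
          mul_nonneg (kap_nonneg A l1 l2 hA _) (kap_nonneg A l1 l2 hA _)
        intro w hw
        rw [Finset.mem_image] at hw
        obtain ⟨⟨i, x⟩, hz, rfl⟩ := hw
        simp only [Finset.mem_sigma, Finset.mem_range] at hz
        simp only [Finset.mem_product, Finset.mem_range]
        omega
    _ = (∑ x ∈ Finset.range (j + 1), kap A l1 l2 (p ^ x)) ^ 2 := by
        rw [sq, Finset.sum_mul_sum]
    _ ≤ (1 + A) ^ 2 := by
        have h0 : 0 ≤ ∑ x ∈ Finset.range (j + 1), kap A l1 l2 (p ^ x) :=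
          Finset.sum_nonneg fun i _ => kap_nonneg A l1 l2 hA _
        exact pow_le_pow_left₀ h0 (kap_sum_le A l1 l2 hA p hp _) 2

theorem kapSq_pow_eq_zero (A l1 l2 : ℝ) (p j : ℕ) (hp : p.Prime) (hj : 1 ≤ j)
    (h : ¬ (l1 < Real.log p ∧ Real.log p ≤ l2)) : (kap A l1 l2 * kap A l1 l2) (p ^ j) = 0 := by
  rw [kapSq_pow A l1 l2 p j hp]
  refine Finset.sum_eq_zero fun i hi => ?_
  rcases Nat.eq_zero_or_pos i with h0 | h0
  · subst h0
    rw [kap_pow_eq_zero A l1 l2 p (j - 0) hp (by omega) h, mul_zero]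
  · rw [kap_pow_eq_zero A l1 l2 p i hp h0 h, zero_mul]

theorem qf_norm_le (lam : ℕ) (l1 l2 : ℝ) (dm m : ℕ) :
    ‖qf lam l1 l2 dm m‖ ≤ kap (lam : ℝ) l1 l2 m := by
  rw [qf_apply, kap_app]
  by_cases h : midSq l1 l2 m
  · rw [if_pos h]
    split_ifs
    · rw [norm_pow, norm_neg, Complex.norm_natCast]
    · rw [norm_zero]
      positivity
  · rw [if_neg h, if_neg (fun h' => h h'.1), norm_zero]

theorem qf_smSupp (lam : ℕ) (l1 l2 : ℝ) (dm N : ℕ) (hN : 1 ≤ N) (h : l2 ≤ Real.log N) :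
    SmSupp N (qf lam l1 l2 dm) := by
  intro m hm p hp
  rw [qf_apply] at hm
  have h1 : midSq l1 l2 m := by
    by_contra hc
    exact hm (if_neg (fun h' => hc h'.1))
  have h2 := (h1.2 p hp).2
  have hp0 : (0 : ℝ) < p := by exact_mod_cast (Nat.prime_of_mem_primeFactors hp).pos
  have hN0 : (0 : ℝ) < N := by exact_mod_cast hN
  have h3 : (p : ℝ) ≤ N := (Real.log_le_log_iff hp0 hN0).mp (h2.trans h)
  exact_mod_cast h3

theorem nt_2_aux (a : ℝ) (ha : 0 < a) (K k K₁ lam : ℕ) (hK : 5 ≤ K) (hK₁ : 5 ≤ K₁) (A ξ : ℝ)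
    (_hA : 1 ≤ A) (hξ : 0 < ξ) (hξ1 : ξ < 1) (h2 : ξ ≤ x2 A ξ) (h22 : x2 A ξ ≤ 1 / 4) :
    ∃ C : ℝ, 0 < C ∧ ∃ N₁ : ℕ, ∀ N : ℕ, N₁ ≤ N → ∀ L : ℝ, |L - 2 * Real.log N| ≤ 3 → ∀ X : ℕ,
        M2 (arP (dpr a K k (ξ ^ 3)) N L * moll K₁ (x0 ξ * L) *
          qf lam (ξ * L) (x2 A ξ * L) (dmx A ξ) * qf lam (ξ * L) (x2 A ξ * L) (dmx A ξ)) X
          ≤ C := by
  obtain ⟨C, hC0, hC⟩ := nt_maj a ha K k K₁ 4 (by omega) (by omega) ξ hξ
  obtain ⟨CD, hCD0, hCD⟩ := ms_D (lam ^ 2 + 2 * lam)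
  obtain ⟨N₁, hN₁⟩ := nt_size ξ 1 hξ hξ1
  set E : ℕ := (1 + (lam ^ 2 + 2 * lam)) ^ 2 with hE
  refine ⟨CD * (x0 ξ)⁻¹ * (x2 A ξ / ξ) ^ E * C ^ 2 + 1, ?_, N₁, fun N hN L hL X => ?_⟩
  · have hx2 : 0 < x2 A ξ := hξ.trans_le h2
    unfold x0
    positivity
  obtain ⟨hN1, hlogN, hNL, h1, h2', h3, h4, hL0⟩ := hN₁ N hN L hL
  have hx0 : 0 < x0 ξ := by unfold x0; positivity
  have hx2 : 0 < x2 A ξ := hξ.trans_le h2
  obtain ⟨ν, hfin, hν1, hνJ, hνB, hν⟩ := hC N L hN1 hNL h1 h2'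
  have := hfin
  set l0 : ℝ := x0 ξ * L with hl0
  set l1 : ℝ := ξ * L with hl1
  set l2 : ℝ := x2 A ξ * L with hl2
  have hl00 : 0 ≤ l0 := by linarith
  have hl01 : l0 ≤ l1 := by
    rw [hl0, hl1]
    refine mul_le_mul_of_nonneg_right ?_ hL0.le
    unfold x0
    have : ξ ^ 3 ≤ ξ := by
      calc ξ ^ 3 ≤ ξ ^ 1 := pow_le_pow_of_le_one hξ.le hξ1.le (by norm_num)
        _ = ξ := pow_one ξ
    linarith
  have hl12 : l1 ≤ l2 := mul_le_mul_of_nonneg_right h2 hL0.le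
  have hl2N : l2 ≤ Real.log N := by
    refine le_trans ?_ h4
    rw [hl2]
    calc x2 A ξ * L ≤ 1 / 4 * L := mul_le_mul_of_nonneg_right h22 hL0.le
      _ = L / 4 := by ring
  set f : ArithmeticFunction ℂ := arP (dpr a K k (ξ ^ 3)) N L * moll K₁ l0 with hf
  set q : ArithmeticFunction ℂ := qf lam l1 l2 (dmx A ξ) with hq
  set κ : ArithmeticFunction ℝ := kap (lam : ℝ) l1 l2 * kap (lam : ℝ) l1 l2 with hκ
  have hκ0 : ∀ m, 0 ≤ κ m := conv_nonneg _ _ (kap_nonneg _ l1 l2 (by positivity))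
    (kap_nonneg _ l1 l2 (by positivity))
  have hsm : SmSupp N (f * q * q) := smSupp_mul (smSupp_mul (smSupp_mul (arP_smSupp _ N L)
    (moll_smSupp K₁ l0 N (by linarith) hN1 h3)) (qf_smSupp _ _ _ _ N hN1 hl2N))
    (qf_smSupp _ _ _ _ N hN1 hl2N)
  rw [M2_eq_smo (f * q * q) N X hsm]
  have hB : ∀ Δ : ℝ, 1 ≤ Δ → ∑ m ∈ smo N X, ((bD Δ l0 * κ) m) ^ 2 / m ≤
      (CD * (Real.log N / l0) * (l2 / l1) ^ E) * Δ ^ 4 := by
    intro Δ hΔ
    refine (hCD κ Δ l0 l1 l2 N X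
      ((kap_isMultiplicative_nt2 _ l1 l2).mul (kap_isMultiplicative_nt2 _ l1 l2)) hκ0
      (fun p j hp hj h => kapSq_pow_eq_zero _ l1 l2 p j hp hj h) (fun p j hp => ?_)
      hΔ h1 hl01 hl12 hl2N).trans (le_of_eq ?_)
    · refine (kapSq_sum_le _ l1 l2 (by positivity) p j hp).trans (le_of_eq ?_)
      push_cast
      ring
    · rw [hE]
      ring
  have hmain := avg_bound ν 4 hν1 hνJ (smo N X)
    smo_one_le (fun Δ m => (bD Δ l0 * κ) m) (fun m _ => bDκ_continuous l0 κ m)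
    (fun Δ hΔ m _ => conv_nonneg _ _ (bD_nonneg Δ l0 (by linarith) hl00) hκ0 m)
    (CD * (Real.log N / l0) * (l2 / l1) ^ E) hB
    (fun m => ‖(f * q * q) m‖) (fun m _ => norm_nonneg _)
    (fun m _ => ?_)
  · refine hmain.trans ?_
    have hI0 : 0 ≤ ∫ Δ, Δ ^ 4 ∂ν := integral_nonneg fun Δ => by positivity
    have hratio : Real.log N / l0 ≤ (x0 ξ)⁻¹ := by
      rw [div_le_iff₀ (by linarith), hl0, ← mul_assoc, inv_mul_cancel₀ hx0.ne', one_mul]
      exact hNL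
    have hratio0 : 0 ≤ Real.log N / l0 := div_nonneg (by linarith) hl00
    have hr2 : l2 / l1 = x2 A ξ / ξ := by
      rw [hl1, hl2, mul_div_mul_right _ _ hL0.ne']
    rw [hr2]
    have hr20 : 0 ≤ x2 A ξ / ξ := by positivity
    have h5 : CD * (Real.log N / l0) * (x2 A ξ / ξ) ^ E * (∫ Δ, Δ ^ 4 ∂ν) ^ 2 ≤
        CD * (x0 ξ)⁻¹ * (x2 A ξ / ξ) ^ E * C ^ 2 := by
      gcongr
    linarith
  · show ‖(f * q * q) m‖ ≤ ∫ Δ, (bD Δ l0 * κ) m ∂ν
    rw [← avD_mul_apply ν hν1 l0 hl00 κ m, mul_assoc]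
    exact norm_conv_le f (q * q) (avD ν l0) κ hν (fun n => norm_conv_le q q _ _
      (qf_norm_le lam l1 l2 _) (qf_norm_le lam l1 l2 _) n) m

end Pool.Agent.RAux.H74

namespace Pool.Agent.RAux

theorem nt_2 (a : ℝ) (ha : 0 < a) (K k K₁ lam : ℕ) (hK : 5 ≤ K) (hK₁ : 5 ≤ K₁) (A ξ : ℝ)
    (hA : 1 ≤ A) (hξ : 0 < ξ) (hξ1 : ξ < 1) (h2 : ξ ≤ x2 A ξ) (h22 : x2 A ξ ≤ 1 / 4) :
    ∃ C : ℝ, 0 < C ∧ ∃ N₁ : ℕ, ∀ N : ℕ, N₁ ≤ N → ∀ L : ℝ, |L - 2 * Real.log N| ≤ 3 → ∀ X : ℕ,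
        M2 (arP (dpr a K k (ξ ^ 3)) N L * moll K₁ (x0 ξ * L) *
          qf lam (ξ * L) (x2 A ξ * L) (dmx A ξ) * qf lam (ξ * L) (x2 A ξ * L) (dmx A ξ)) X
          ≤ C :=
  H74.nt_2_aux a ha K k K₁ lam hK hK₁ A ξ hA hξ hξ1 h2 h22

end Pool.Agent.RAux
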