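import Mathlib
import Pool.Agent.RAux.Defs
import Pool.Agent.RAux.MeanValue
import Pool.Agent.RAux.FourierRep
import Pool.Agent.RAux.FourierRep2
import Pool.Agent.RAux.Majorant
import Pool.Agent.RAux.EulerB
import Pool.Agent.RAux.PrimeSum
import Pool.Agent.RAux.MsU
import Pool.Agent.RAux.MsD
import Pool.Agent.RAux.Ms4
import Pool.Agent.RAux.Avg
import Pool.Agent.RAux.NtAux

/-!
Fourth moment of the mollified polynomial.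
-/

set_option autoImplicit false

open Complex MeasureTheory Filter Topology

namespace Pool.Agent.RAux.H74

theorem nt_4_aux (a : ℝ) (ha : 0 < a) (K k K₁ : ℕ) (hK : 17 ≤ K) (hK₁ : 17 ≤ K₁) (ξ : ℝ)
    (hξ : 0 < ξ) (hξ1 : ξ < 1) :
    ∃ C : ℝ, 0 < C ∧ ∃ N₁ : ℕ, ∀ N : ℕ, N₁ ≤ N → ∀ L : ℝ, |L - 2 * Real.log N| ≤ 3 → ∀ X : ℕ,
        M2 ((arP (dpr a K k (ξ ^ 3)) N L * moll K₁ (x0 ξ * L)) *
          (arP (dpr a K k (ξ ^ 3)) N L * moll K₁ (x0 ξ * L))) X ≤ C := by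
  obtain ⟨C, hC0, hC⟩ := nt_maj a ha K k K₁ 16 (by omega) (by omega) ξ hξ
  obtain ⟨C4, hC40, hC4⟩ := ms_4
  obtain ⟨N₁, hN₁⟩ := nt_size ξ 1 hξ hξ1
  refine ⟨C4 * (x0 ξ)⁻¹ ^ 4 * (C ^ 2) ^ 2 + 1, by unfold x0; positivity, N₁,
    fun N hN L hL X => ?_⟩
  obtain ⟨hN1, hlogN, hNL, h1, h2, h3, _, hL0⟩ := hN₁ N hN L hL
  have hx0 : 0 < x0 ξ := by unfold x0; positivity
  obtain ⟨ν, hfin, hν1, hνJ, hνB, hν⟩ := hC N L hN1 hNL h1 h2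
  have := hfin
  set l0 : ℝ := x0 ξ * L with hl0
  have hl00 : 0 ≤ l0 := by linarith
  set f : ArithmeticFunction ℂ := arP (dpr a K k (ξ ^ 3)) N L * moll K₁ l0 with hf
  have hsm : SmSupp N f := smSupp_mul (arP_smSupp _ N L)
    (moll_smSupp K₁ l0 N (by linarith) hN1 h3)
  rw [M2_eq_smo (f * f) N X (smSupp_mul hsm hsm)]
  have hB : ∀ Δ : ℝ, 1 ≤ Δ → ∑ m ∈ smo N X, ((bD Δ l0 * bD Δ l0) m) ^ 2 / m ≤
      (C4 * (Real.log N / l0) ^ 4) * Δ ^ 16 := by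
    intro Δ hΔ
    refine (hC4 Δ l0 N X hΔ h1 h3).trans (le_of_eq ?_)
    ring
  have hmain := avg_bound (nuSq ν) 16 (nuSq_one_le ν hν1) (nuSq_integrable ν 16 hνJ) (smo N X)
    smo_one_le (fun Δ m => (bD Δ l0 * bD Δ l0) m) (fun m _ => bDbD_continuous l0 m)
    (fun Δ hΔ m _ => conv_nonneg _ _ (bD_nonneg Δ l0 (by linarith) hl00)
      (bD_nonneg Δ l0 (by linarith) hl00) m) (C4 * (Real.log N / l0) ^ 4) hB
    (fun m => ‖(f * f) m‖) (fun m _ => norm_nonneg _)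
    (fun m _ => (norm_conv_le f f (avD ν l0) (avD ν l0) hν hν m).trans
      (avD_sq_apply_le ν hν1 l0 hl00 m))
  refine hmain.trans ?_
  rw [nuSq_integral]
  have hI0 : 0 ≤ ∫ Δ, Δ ^ 16 ∂ν := integral_nonneg fun Δ => by positivity
  have hratio : Real.log N / l0 ≤ (x0 ξ)⁻¹ := by
    rw [div_le_iff₀ (by linarith), hl0, ← mul_assoc, inv_mul_cancel₀ hx0.ne', one_mul]
    exact hNL
  have hratio0 : 0 ≤ Real.log N / l0 := div_nonneg (by linarith) hl00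
  have h5 : C4 * (Real.log N / l0) ^ 4 * ((∫ Δ, Δ ^ 16 ∂ν) ^ 2) ^ 2 ≤
      C4 * (x0 ξ)⁻¹ ^ 4 * (C ^ 2) ^ 2 := by
    gcongr
  linarith

end Pool.Agent.RAux.H74

namespace Pool.Agent.RAux

theorem nt_4 (a : ℝ) (ha : 0 < a) (K k K₁ : ℕ) (hK : 17 ≤ K) (hK₁ : 17 ≤ K₁) (ξ : ℝ)
    (hξ : 0 < ξ) (hξ1 : ξ < 1) :
    ∃ C : ℝ, 0 < C ∧ ∃ N₁ : ℕ, ∀ N : ℕ, N₁ ≤ N → ∀ L : ℝ, |L - 2 * Real.log N| ≤ 3 → ∀ X : ℕ,
        M2 ((arP (dpr a K k (ξ ^ 3)) N L * moll K₁ (x0 ξ * L)) *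
          (arP (dpr a K k (ξ ^ 3)) N L * moll K₁ (x0 ξ * L))) X ≤ C :=
  H74.nt_4_aux a ha K k K₁ hK hK₁ ξ hξ hξ1

end Pool.Agent.RAux
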