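import Mathlib
import Pool.Agent.RAux.Defs
import Pool.Agent.RAux.MeanValue
import Pool.Agent.RAux.FourierRep
import Pool.Agent.RAux.FourierRep2
import Pool.Agent.RAux.Majorant
import Pool.Agent.RAux.EulerB
import Pool.Agent.RAux.PrimeSum
import Pool.Agent.RAux.MsU
import Pool.Agent.RAux.MsD
import Pool.Agent.RAux.Ms4
import Pool.Agent.RAux.Avg

/-!
Upper bound for the weighted second moment of the difference.
-/

set_option autoImplicit false

open Complex MeasureTheory Filter Topology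

namespace Pool.Agent.RAux


/-! ### Auxiliary lemmas -/

private lemma dd_midSq_mul {l1 l2 : ℝ} {m n : ℕ} (h : m.Coprime n) :
    midSq l1 l2 (m * n) ↔ midSq l1 l2 m ∧ midSq l1 l2 n := by
  unfold midSq
  rw [Nat.squarefree_mul h, h.primeFactors_mul]
  constructor
  · rintro ⟨⟨h1, h2⟩, h3⟩
    exact ⟨⟨h1, fun p hp => h3 p (Finset.mem_union_left _ hp)⟩,
      ⟨h2, fun p hp => h3 p (Finset.mem_union_right _ hp)⟩⟩
  · rintro ⟨⟨h1, h3⟩, ⟨h2, h4⟩⟩
    refine ⟨⟨h1, h2⟩, fun p hp => ?_⟩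
    rcases Finset.mem_union.mp hp with h | h
    · exact h3 p h
    · exact h4 p h

private lemma dd_kap_apply {S : Type*} [CommRing S] (A : S) (l1 l2 : ℝ) (n : ℕ) [Decidable (midSq l1 l2 n)] :
    kap A l1 l2 n = if midSq l1 l2 n then A ^ n.primeFactors.card else 0 := by
  unfold kap
  simp only [ArithmeticFunction.coe_mk]
  split_ifs <;> rfl

private lemma dd_qf_apply (lam : ℕ) (l1 l2 : ℝ) (dm n : ℕ)
    [Decidable (midSq l1 l2 n ∧ n.primeFactors.card ≤ dm)] :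
    qf lam l1 l2 dm n = if midSq l1 l2 n ∧ n.primeFactors.card ≤ dm then
      (-(lam : ℂ)) ^ n.primeFactors.card else 0 := by
  unfold qf
  simp only [ArithmeticFunction.coe_mk]
  split_ifs <;> rfl

private lemma dd_kap_mult (A l1 l2 : ℝ) : (kap A l1 l2).IsMultiplicative := by
  classical
  rw [ArithmeticFunction.IsMultiplicative.iff_ne_zero]
  constructor
  · rw [dd_kap_apply, if_pos]
    · simp
    · simp [midSq]
  · intro m n hm hn hmn
    rw [dd_kap_apply, dd_kap_apply, dd_kap_apply]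
    by_cases h : midSq l1 l2 (m * n)
    · obtain ⟨h1, h2⟩ := (dd_midSq_mul hmn).mp h
      rw [if_pos h, if_pos h1, if_pos h2, hmn.primeFactors_mul, Finset.card_union_of_disjoint
        hmn.disjoint_primeFactors, pow_add]
    · rw [if_neg h]
      rw [dd_midSq_mul hmn, not_and_or] at h
      rcases h with h | h
      · rw [if_neg h, zero_mul]
      · rw [if_neg h, mul_zero]

private lemma dd_kap_nonneg (lam : ℕ) (l1 l2 : ℝ) (n : ℕ) : 0 ≤ kap (lam : ℝ) l1 l2 n := by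
  classical
  rw [dd_kap_apply]
  split_ifs
  · positivity
  · exact le_rfl

private lemma dd_kap_pp (lam : ℕ) (l1 l2 : ℝ) (p j : ℕ) (hp : p.Prime) (hj : 1 ≤ j)
    (h : ¬ (l1 < Real.log p ∧ Real.log p ≤ l2)) : kap (lam : ℝ) l1 l2 (p ^ j) = 0 := by
  classical
  rw [dd_kap_apply, if_neg]
  intro h2
  apply h
  apply h2.2
  rw [Nat.primeFactors_pow _ (by omega), hp.primeFactors]
  simp

private lemma dd_kap_sum (lam : ℕ) (l1 l2 : ℝ) (p j : ℕ) (hp : p.Prime) :
    ∑ i ∈ Finset.range (j + 1), kap (lam : ℝ) l1 l2 (p ^ i) ≤ 1 + lam := by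
  classical
  have h1 : ∀ i, 2 ≤ i → kap (lam : ℝ) l1 l2 (p ^ i) = 0 := by
    intro i hi
    rw [dd_kap_apply, if_neg]
    intro h2
    have h3 := h2.1
    rw [Nat.squarefree_pow_iff hp.one_lt.ne' (by omega)] at h3
    omega
  have h0 : kap (lam : ℝ) l1 l2 (p ^ 0) = 1 := by
    rw [pow_zero]
    exact (dd_kap_mult _ _ _).1
  have hone : kap (lam : ℝ) l1 l2 (p ^ 1) ≤ lam := by
    rw [dd_kap_apply]
    split_ifs
    · rw [pow_one, hp.primeFactors]
      simp
    · positivity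
  rcases Nat.eq_zero_or_pos j with rfl | hj
  · simp only [Nat.zero_add, Finset.range_one, Finset.sum_singleton]
    rw [h0]
    have : (0 : ℝ) ≤ lam := by positivity
    linarith
  · have : ∑ i ∈ Finset.range (j + 1), kap (lam : ℝ) l1 l2 (p ^ i) =
        ∑ i ∈ Finset.range 2, kap (lam : ℝ) l1 l2 (p ^ i) := by
      symm
      apply Finset.sum_subset
      · intro i hi
        rw [Finset.mem_range] at hi ⊢
        omega
      · intro i _ hi
        rw [Finset.mem_range, not_lt] at hi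
        exact h1 i hi
    rw [this, Finset.sum_range_succ, Finset.sum_range_one, h0]
    linarith

private lemma dd_qf_norm (lam : ℕ) (l1 l2 : ℝ) (dm n : ℕ) :
    ‖qf lam l1 l2 dm n‖ ≤ kap (lam : ℝ) l1 l2 n := by
  classical
  rw [dd_kap_apply, dd_qf_apply]
  by_cases h : midSq l1 l2 n
  · rw [if_pos h]
    split_ifs
    · rw [norm_pow, norm_neg, Complex.norm_natCast]
    · rw [norm_zero]; positivity
  · rw [if_neg h, if_neg (fun h2 => h h2.1), norm_zero]

private lemma dd_kap_zero (l1 l2 : ℝ) : kap (-((0 : ℕ) : ℂ)) l1 l2 = 1 := by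
  classical
  ext n
  rw [dd_kap_apply]
  by_cases h1 : n = 1
  · subst h1
    rw [if_pos (by simp [midSq])]
    simp
  · rw [ArithmeticFunction.one_apply_ne h1]
    split_ifs with h
    · have hn0 : n ≠ 0 := h.1.ne_zero
      have : n.primeFactors.card ≠ 0 := by
        rw [Finset.card_ne_zero, Nat.nonempty_primeFactors]
        omega
      simp [this]
    · rfl

private lemma dd_bU_zero (Δ L l0 l1 l2 : ℝ) (hΔ : 0 ≤ Δ) (hL : 0 ≤ L) (m : ℕ) :
    bU 0 Δ L l0 l1 l2 m = bD Δ l0 m := by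
  unfold bU bD
  simp only [ArithmeticFunction.coe_mk]
  split_ifs with h
  · rfl
  · apply Finset.prod_congr rfl
    intro p hp
    unfold beU beD
    split_ifs with h1 h2
    · rfl
    · have h3 : 0 ≤ Real.log p := Real.log_natCast_nonneg p
      have h4 : 0 ≤ Δ * Real.log p / L := by positivity
      rw [min_eq_left]
      · simp
      · simp only [Nat.cast_zero, zero_sub, abs_neg, abs_one, add_zero]
        linarith
    · rfl

private lemma dd_bD_cont (l0 : ℝ) (m : ℕ) : Continuous (fun Δ => bD Δ l0 m) := by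
  unfold bD beD
  simp only [ArithmeticFunction.coe_mk]
  split_ifs with h
  · exact continuous_const
  · apply continuous_finsetProd
    intro p hp
    split_ifs
    · fun_prop
    · exact continuous_const

private lemma dd_bD_nonneg (Δ l0 : ℝ) (hΔ : 0 ≤ Δ) (hl : 0 ≤ l0) (m : ℕ) : 0 ≤ bD Δ l0 m := by
  unfold bD beD
  simp only [ArithmeticFunction.coe_mk]
  split_ifs with h
  · exact le_rfl
  · apply Finset.prod_nonneg
    intro p hp
    split_ifs
    · have h3 : 0 ≤ Real.log p := Real.log_natCast_nonneg p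
      apply le_min (by norm_num)
      positivity
    · norm_num

private lemma dd_bD_le (Δ l0 : ℝ) (hΔ : 0 ≤ Δ) (hl : 0 ≤ l0) (m : ℕ) :
    bD Δ l0 m ≤ 2 ^ m.primeFactors.card := by
  unfold bD beD
  simp only [ArithmeticFunction.coe_mk]
  split_ifs with h
  · positivity
  · rw [← Finset.prod_const]
    apply Finset.prod_le_prod
    · intro p hp
      split_ifs
      · have h3 : 0 ≤ Real.log p := Real.log_natCast_nonneg p
        apply le_min (by norm_num)
        positivity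
      · norm_num
    · intro p hp
      split_ifs
      · exact min_le_left _ _
      · norm_num

private lemma dd_bD_int (ν : Measure ℝ) [IsFiniteMeasure ν] (h1 : ∀ᵐ Δ ∂ν, 1 ≤ Δ) (l0 : ℝ)
    (hl : 0 ≤ l0) (m : ℕ) : Integrable (fun Δ => bD Δ l0 m) ν := by
  refine Integrable.of_bound (dd_bD_cont l0 m).aestronglyMeasurable
    (2 ^ m.primeFactors.card) ?_
  filter_upwards [h1] with Δ hΔ
  rw [Real.norm_of_nonneg (dd_bD_nonneg Δ l0 (by linarith) hl m)]
  exact dd_bD_le Δ l0 (by linarith) hl m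

/-- Support on smooth numbers. -/
private lemma dd_smooth (h : ℝ → ℝ) (N : ℕ) (L l0 l1 l2 : ℝ) (K₁ : ℕ) (hK₁ : 1 ≤ K₁) (lam dm : ℕ)
    (hN : 1 ≤ N) (hl0 : 0 < l0) (h0 : l0 ≤ Real.log N) (h2 : l2 ≤ Real.log N) (m : ℕ)
    (hm : ¬ ∀ p ∈ m.primeFactors, p ≤ N) :
    (arP h N L * (moll K₁ l0 * qf lam l1 l2 dm)) m = 0 := by
  classical
  push Not at hm
  obtain ⟨p, hp, hpN⟩ := hm
  have hpp := Nat.prime_of_mem_primeFactors hp
  have hpd := Nat.dvd_of_mem_primeFactors hp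
  have hN' : (0 : ℝ) < N := by exact_mod_cast hN
  have hlogp : Real.log N < Real.log p := Real.log_lt_log hN' (by exact_mod_cast hpN)
  -- the three factors vanish on multiples of `p`
  have hA : ∀ n, p ∣ n → arP h N L n = 0 := by
    intro n hn
    unfold arP
    simp only [ArithmeticFunction.coe_mk]
    split_ifs with h3 h4
    · rfl
    · exfalso
      have := Nat.le_of_dvd (Nat.pos_of_ne_zero h3) hn
      omega
    · rfl
  have hM : ∀ n, p ∣ n → moll K₁ l0 n = 0 := by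
    intro n hn
    unfold moll psi
    simp only [ArithmeticFunction.coe_mk]
    rcases Nat.eq_zero_or_pos n with rfl | hn0
    · simp
    · rw [if_neg]
      · simp
      · have h3 : Real.log p ≤ Real.log n :=
          Real.log_le_log (by exact_mod_cast hpp.pos) (by exact_mod_cast Nat.le_of_dvd hn0 hn)
        have h4 : 1 < Real.log n / l0 := by
          rw [one_lt_div hl0]
          linarith
        linarith
  have hQ : ∀ n, p ∣ n → qf lam l1 l2 dm n = 0 := by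
    intro n hn
    rw [dd_qf_apply]
    rcases Nat.eq_zero_or_pos n with rfl | hn0
    · simp [midSq]
    · rw [if_neg]
      rintro ⟨h3, -⟩
      have := (h3.2 p (Nat.mem_primeFactors.mpr ⟨hpp, hn, by omega⟩)).2
      linarith
  rw [ArithmeticFunction.mul_apply]
  apply Finset.sum_eq_zero
  intro x hx
  obtain ⟨hx1, hx0⟩ := Nat.mem_divisorsAntidiagonal.mp hx
  have : p ∣ x.1 * x.2 := by rw [hx1]; exact hpd
  rcases hpp.dvd_mul.mp this with h3 | h3
  · rw [hA _ h3, zero_mul]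
  · have : (moll K₁ l0 * qf lam l1 l2 dm) x.2 = 0 := by
      rw [ArithmeticFunction.mul_apply]
      apply Finset.sum_eq_zero
      intro y hy
      obtain ⟨hy1, hy0⟩ := Nat.mem_divisorsAntidiagonal.mp hy
      have : p ∣ y.1 * y.2 := by rw [hy1]; exact h3
      rcases hpp.dvd_mul.mp this with h4 | h4
      · rw [hM _ h4, zero_mul]
      · rw [hQ _ h4, mul_zero]
    rw [this, mul_zero]

/-- The second moment for a general cut-off function. -/
private lemma dd_general (c₁ : ℝ) (hc : 0 < c₁) (K₁ : ℕ) (hK₁ : 5 ≤ K₁) (lam : ℕ) :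
    ∃ C : ℝ, 0 ≤ C ∧ ∀ (h : ℝ → ℝ) (B : ℝ), 0 ≤ B → Rep h c₁ 4 B → (∀ y, y < 0 → h y = 0) →
      ∀ (N : ℕ) (L l0 l1 l2 : ℝ), 1 ≤ N → Real.log N ≤ L → 1 ≤ l0 → l0 ≤ L → l0 ≤ l1 → l1 ≤ l2 →
      l2 ≤ Real.log N → ∀ dm X : ℕ,
      M2 (arP h N L * (moll K₁ l0 * qf lam l1 l2 dm)) X ≤
        C * B ^ 2 * (Real.log N / l0) * (l2 / l1) ^ ((1 + lam) ^ 2) := by
  obtain ⟨CM, hCM, hmaj⟩ := majorant c₁ hc 4 K₁ hK₁
  obtain ⟨CD, hCD, hms⟩ := ms_D lam
  refine ⟨CD * CM ^ 2, by positivity, ?_⟩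
  intro h B hB hrep hneg N L l0 l1 l2 hN hNL hl0 hl0L hl01 hl12 hl2N dm X
  obtain ⟨ν, hν, hν1, hνJ, hνB, hνm⟩ := hmaj h B hB hrep hneg N L l0 l1 l2 hN hNL hl0 hl0L hl01 hl12
  have hl0' : 0 ≤ l0 := by linarith
  have hL0 : 0 ≤ L := by linarith
  have hbd : ∀ n, ‖(arP h N L * moll K₁ l0) n‖ ≤ ∫ Δ, bD Δ l0 n ∂ν := by
    intro n
    have h1 := hνm 0 n
    rw [dd_kap_zero, mul_one] at h1
    refine h1.trans_eq (integral_congr_ae ?_)
    filter_upwards [hν1] with Δ hΔ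
    exact dd_bU_zero Δ L l0 l1 l2 (by linarith) hL0 n
  have hcoef : ∀ m, ‖(arP h N L * (moll K₁ l0 * qf lam l1 l2 dm)) m‖ ≤
      ∫ Δ, (bD Δ l0 * kap (lam : ℝ) l1 l2) m ∂ν := by
    intro m
    have e1 : ∀ Δ, (bD Δ l0 * kap (lam : ℝ) l1 l2) m =
        ∑ x ∈ m.divisorsAntidiagonal, bD Δ l0 x.1 * kap (lam : ℝ) l1 l2 x.2 := fun Δ => by
      rw [ArithmeticFunction.mul_apply]
    simp_rw [e1]
    rw [integral_finsetSum _ (fun x _ => (dd_bD_int ν hν1 l0 hl0' x.1).mul_const _), ← mul_assoc,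
      ArithmeticFunction.mul_apply]
    refine (norm_sum_le _ _).trans (Finset.sum_le_sum fun x _ => ?_)
    rw [norm_mul, integral_mul_const]
    exact mul_le_mul (hbd _) (dd_qf_norm _ _ _ _ _) (norm_nonneg _)
      ((norm_nonneg _).trans (hbd _))
  have hsmo : M2 (arP h N L * (moll K₁ l0 * qf lam l1 l2 dm)) X =
      ∑ m ∈ smo N X, ‖(arP h N L * (moll K₁ l0 * qf lam l1 l2 dm)) m‖ ^ 2 / m := by
    unfold M2 smo
    symm
    apply Finset.sum_subset (Finset.filter_subset _ _)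
    intro m hm hm2
    rw [Finset.mem_filter, not_and] at hm2
    have hl0N : l0 ≤ Real.log N := by linarith
    rw [dd_smooth h N L l0 l1 l2 K₁ (by omega) lam dm hN (by linarith) hl0N hl2N m (hm2 hm)]
    simp
  rw [hsmo]
  have hfin := avg_bound ν 4 hν1 hνJ (smo N X)
    (fun m hm => (Finset.mem_Icc.mp (Finset.mem_filter.mp hm).1).1)
    (fun Δ m => (bD Δ l0 * kap (lam : ℝ) l1 l2) m)
    (fun m _ => by
      simp_rw [ArithmeticFunction.mul_apply]
      exact continuous_finsetSum _ fun x _ => (dd_bD_cont l0 x.1).mul continuous_const)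
    (fun Δ hΔ m _ => by
      simp only [ArithmeticFunction.mul_apply]
      exact Finset.sum_nonneg fun x _ => mul_nonneg (dd_bD_nonneg Δ l0 (by linarith) hl0' _)
        (dd_kap_nonneg _ _ _ _))
    (CD * (Real.log N / l0) * (l2 / l1) ^ ((1 + lam) ^ 2))
    (fun Δ hΔ => by
      refine (hms (kap (lam : ℝ) l1 l2) Δ l0 l1 l2 N X (dd_kap_mult _ _ _)
        (dd_kap_nonneg _ _ _) (dd_kap_pp lam l1 l2)
        (fun p j hp => dd_kap_sum lam l1 l2 p j hp) hΔ hl0 hl01 hl12 hl2N).trans_eq ?_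
      ring)
    (fun m => ‖(arP h N L * (moll K₁ l0 * qf lam l1 l2 dm)) m‖)
    (fun m _ => norm_nonneg _) (fun m _ => hcoef m)
  refine hfin.trans ?_
  have h0 : 0 ≤ ∫ Δ, Δ ^ 4 ∂ν := integral_nonneg_of_ae (by
    filter_upwards [hν1] with Δ hΔ
    positivity)
  have hlogN : 0 ≤ Real.log N := Real.log_natCast_nonneg N
  calc CD * (Real.log N / l0) * (l2 / l1) ^ ((1 + lam) ^ 2) * (∫ Δ, Δ ^ 4 ∂ν) ^ 2
      ≤ CD * (Real.log N / l0) * (l2 / l1) ^ ((1 + lam) ^ 2) * (CM * B) ^ 2 := by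
        apply mul_le_mul_of_nonneg_left
        · exact pow_le_pow_left₀ h0 hνB 2
        · have : 0 ≤ l2 / l1 := div_nonneg (by linarith) (by linarith)
          positivity
    _ = _ := by ring

theorem nt_dd (a : ℝ) (ha : 0 < a) (K k K₁ lam : ℕ) (hk : k + 5 ≤ K)
    (hK₁ : 5 ≤ K₁) (hlam : 1 ≤ lam) (A : ℝ) (hA : 4 * (3 * (lam : ℝ) + 1) ^ 2 ≤ A) :
    ∃ C : ℝ, 0 ≤ C ∧ ∃ ξs : ℝ, 0 < ξs ∧ ξs < 1 ∧ ∀ ξ : ℝ, 0 < ξ → ξ < ξs →
      ∃ N₁ : ℕ, ∀ N : ℕ, N₁ ≤ N → ∀ L : ℝ, |L - 2 * Real.log N| ≤ 3 → ∀ X : ℕ,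
        M2 (arP (ddif a K k (ξ ^ 3)) N L * QQ K₁ lam A ξ L) X ≤
          C * (ξ ^ 3) ^ (2 * k) * (x0 ξ)⁻¹ * (x2 A ξ / ξ) ^ ((lam + 1) ^ 2) := by
  have hlam' : (1 : ℝ) ≤ lam := by exact_mod_cast hlam
  have hA64 : 64 ≤ A := by nlinarith
  obtain ⟨B, hB, hrep⟩ := ddif_rep a 1 K k ha (by omega) one_pos
  obtain ⟨C, hC, hgen⟩ := dd_general 1 one_pos K₁ hK₁ lam
  refine ⟨C * B ^ 2, by positivity, 1 / (4 * A ^ 2), by positivity, ?_, ?_⟩
  · rw [div_lt_one (by positivity)]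
    nlinarith
  intro ξ hξ hξs
  have hξs' : ξ * (4 * A ^ 2) < 1 := by rwa [lt_div_iff₀ (by positivity)] at hξs
  have hξ3 : ξ < 1 / 3 := by
    rw [lt_div_iff₀ (by norm_num)]
    nlinarith
  -- the logarithm
  have hlog1 : 1 ≤ Real.log (1 / ξ) := by
    rw [Real.le_log_iff_exp_le (by positivity)]
    have h1 := Real.exp_one_lt_d9
    have h2 : 3 ≤ 1 / ξ := by
      rw [le_div_iff₀ hξ]
      linarith
    linarith
  have hlog2 : A * ξ * Real.log (1 / ξ) ≤ 1 := by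
    have hs : 0 < Real.sqrt ξ := Real.sqrt_pos.mpr hξ
    have hss : Real.sqrt ξ * Real.sqrt ξ = ξ := Real.mul_self_sqrt hξ.le
    have h1 : Real.log (1 / Real.sqrt ξ) ≤ 1 / Real.sqrt ξ - 1 :=
      Real.log_le_sub_one_of_pos (by positivity)
    have h2 : Real.log (1 / ξ) = 2 * Real.log (1 / Real.sqrt ξ) := by
      rw [one_div, one_div, Real.log_inv, Real.log_inv, Real.log_sqrt hξ.le]
      ring
    have h3 : 2 * A * Real.sqrt ξ ≤ 1 := by
      have h4 : (2 * A * Real.sqrt ξ) ^ 2 < 1 := by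
        calc (2 * A * Real.sqrt ξ) ^ 2 = (Real.sqrt ξ * Real.sqrt ξ) * (4 * A ^ 2) := by ring
          _ < 1 := by rw [hss]; exact hξs'
      have h5 : 0 ≤ 2 * A * Real.sqrt ξ := by positivity
      nlinarith
    calc A * ξ * Real.log (1 / ξ) ≤ A * ξ * (2 * (1 / Real.sqrt ξ)) := by
          apply mul_le_mul_of_nonneg_left _ (by positivity)
          rw [h2]
          linarith
      _ = 2 * A * Real.sqrt ξ := by
          nth_rw 1 [← hss]
          field_simp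
      _ ≤ 1 := h3
  have hx2 : ξ ≤ x2 A ξ := by
    unfold x2
    rw [le_div_iff₀ (by positivity)]
    linarith
  have hx2' : x2 A ξ ≤ 1 / 4 := by
    unfold x2
    apply one_div_le_one_div_of_le (by norm_num)
    nlinarith
  have hx0pos : 0 < x0 ξ := by unfold x0; positivity
  have hx0 : x0 ξ ≤ ξ := by
    unfold x0
    have : ξ ^ 3 ≤ ξ := by
      have : ξ ^ 3 = ξ * (ξ * ξ) := by ring
      rw [this]
      have : ξ * ξ ≤ 1 := by nlinarith
      nlinarith
    linarith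
  -- the choice of `N₁`
  obtain ⟨N₁, hN₁⟩ := exists_nat_gt (Real.exp (3 + 1 / x0 ξ))
  refine ⟨N₁ + 1, ?_⟩
  intro N hN L hL X
  have hN1 : 1 ≤ N := by omega
  have hlogN : 3 + 1 / x0 ξ ≤ Real.log N := by
    rw [Real.le_log_iff_exp_le (by exact_mod_cast hN1)]
    have : (N₁ : ℝ) ≤ N := by exact_mod_cast (by omega : N₁ ≤ N)
    linarith
  have hx0inv : 0 < 1 / x0 ξ := by positivity
  obtain ⟨hL1, hL2⟩ := abs_le.mp hL
  have hNL : Real.log N ≤ L := by linarith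
  have hLpos : 0 < L := by linarith
  have h1 : 1 ≤ x0 ξ * L := by
    have : x0 ξ * (1 / x0 ξ) = 1 := by field_simp
    calc (1 : ℝ) = x0 ξ * (1 / x0 ξ) := this.symm
      _ ≤ x0 ξ * L := mul_le_mul_of_nonneg_left (by linarith) hx0pos.le
  have h2 : x0 ξ * L ≤ L := by
    nlinarith
  have h3 : x0 ξ * L ≤ ξ * L := mul_le_mul_of_nonneg_right hx0 hLpos.le
  have h4 : ξ * L ≤ x2 A ξ * L := mul_le_mul_of_nonneg_right hx2 hLpos.le
  have h5 : x2 A ξ * L ≤ Real.log N := by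
    calc x2 A ξ * L ≤ 1 / 4 * L := mul_le_mul_of_nonneg_right hx2' hLpos.le
      _ ≤ Real.log N := by linarith
  have hrep' : Rep (ddif a K k (ξ ^ 3)) 1 4 (B * (ξ ^ 3) ^ k) :=
    Rep.mono (hrep (ξ ^ 3) (by positivity) (by
      have : ξ ^ 3 ≤ 1 := pow_le_one₀ hξ.le (by linarith)
      exact this)) (by omega) le_rfl (by positivity)
  have hmain := hgen (ddif a K k (ξ ^ 3)) (B * (ξ ^ 3) ^ k) (by positivity) hrep'
    (fun y hy => ddif_neg a K k (ξ ^ 3) (by positivity) y hy) N L (x0 ξ * L) (ξ * L) (x2 A ξ * L)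
    hN1 hNL h1 h2 h3 h4 h5 (dmx A ξ) X
  unfold QQ
  refine hmain.trans ?_
  have e1 : x2 A ξ * L / (ξ * L) = x2 A ξ / ξ := by
    field_simp
  have e2 : Real.log N / (x0 ξ * L) ≤ (x0 ξ)⁻¹ := by
    rw [div_le_iff₀ (by positivity)]
    calc Real.log N ≤ L := hNL
      _ = (x0 ξ)⁻¹ * (x0 ξ * L) := by field_simp
  rw [e1, show (1 + lam) = (lam + 1) by ring]
  have e3 : 0 ≤ (x2 A ξ / ξ) ^ ((lam + 1) ^ 2) := by
    have : 0 < x2 A ξ := by linarith
    positivity
  calc C * (B * (ξ ^ 3) ^ k) ^ 2 * (Real.log N / (x0 ξ * L)) * (x2 A ξ / ξ) ^ ((lam + 1) ^ 2)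
      ≤ C * (B * (ξ ^ 3) ^ k) ^ 2 * (x0 ξ)⁻¹ * (x2 A ξ / ξ) ^ ((lam + 1) ^ 2) := by
        apply mul_le_mul_of_nonneg_right _ e3
        apply mul_le_mul_of_nonneg_left e2
        positivity
    _ = C * B ^ 2 * (ξ ^ 3) ^ (2 * k) * (x0 ξ)⁻¹ * (x2 A ξ / ξ) ^ ((lam + 1) ^ 2) := by
        rw [pow_mul' (ξ ^ 3) 2 k]
        ring

end Pool.Agent.RAux
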