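import Mathlib
import Pool.Agent.RAux.Defs
import Pool.Agent.RAux.EulerB
import Pool.Agent.RAux.PrimeSum

/-!
The sum over squarefree products of middle primes.
-/

set_option autoImplicit false

open Complex MeasureTheory Filter Topology

namespace Pool.Agent.RAux

open Classical in
/-- Squarefree products of at most `dm` middle primes, up to `Y`. -/
noncomputable def midK (l1 l2 : ℝ) (dm Y : ℕ) : Finset ℕ :=
  (Finset.Icc 1 Y).filter (fun k => midSq l1 l2 k ∧ k.primeFactors.card ≤ dm)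

private lemma sk_primeFactors (T : Finset ℕ) (hT : ∀ p ∈ T, p.Prime) :
    (∏ p ∈ T, p).primeFactors = T := Nat.primeFactors_prod hT

private lemma sk_squarefree (T : Finset ℕ) (hT : ∀ p ∈ T, p.Prime) :
    Squarefree (∏ p ∈ T, p) := by
  apply Finset.squarefree_prod_of_pairwise_isCoprime
  · intro a ha b hb hab
    exact Nat.coprime_iff_isRelPrime.mp ((Nat.coprime_primes (hT a ha) (hT b hb)).mpr hab)
  · intro p hp
    exact (hT p hp).squarefree

/-- A lower bound by the sum over small subsets of the middle primes. -/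
private lemma sk_lower (lam : ℕ) (l1 l2 : ℝ) (dm Y : ℕ) (P : Finset ℕ)
    (hP : ∀ p ∈ P, p.Prime ∧ l1 < Real.log p ∧ Real.log p ≤ l2)
    (hY : Real.exp (l2 * dm) ≤ Y) (hl2 : 0 ≤ l2) :
    ∑ T ∈ P.powerset with T.card ≤ dm, ∏ p ∈ T, (lam : ℝ) ^ 2 / p ≤
      ∑ k ∈ midK l1 l2 dm Y, (lam : ℝ) ^ (2 * k.primeFactors.card) / k := by
  classical
  have hpr : ∀ T ∈ P.powerset.filter (fun T => T.card ≤ dm), ∀ p ∈ T, p.Prime := by
    intro T hT p hp
    rw [Finset.mem_filter, Finset.mem_powerset] at hT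
    exact (hP p (hT.1 hp)).1
  have hinj : Set.InjOn (fun T : Finset ℕ => ∏ p ∈ T, p)
      (P.powerset.filter (fun T => T.card ≤ dm) : Finset (Finset ℕ)) := by
    intro T hT T' hT' h
    have h1 := sk_primeFactors T (hpr T hT)
    have h2 := sk_primeFactors T' (hpr T' hT')
    simp only at h
    rw [← h1, ← h2, h]
  have e : ∑ T ∈ P.powerset with T.card ≤ dm, ∏ p ∈ T, (lam : ℝ) ^ 2 / p =
      ∑ k ∈ (P.powerset.filter (fun T => T.card ≤ dm)).image (fun T : Finset ℕ => ∏ p ∈ T, p),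
        (lam : ℝ) ^ (2 * k.primeFactors.card) / k := by
    rw [Finset.sum_image hinj]
    apply Finset.sum_congr rfl
    intro T hT
    rw [sk_primeFactors T (hpr T hT), Finset.prod_div_distrib, Finset.prod_const, pow_mul,
      Nat.cast_prod]
  rw [e]
  apply Finset.sum_le_sum_of_subset_of_nonneg
  · intro k hk
    rw [Finset.mem_image] at hk
    obtain ⟨T, hT, rfl⟩ := hk
    have hTp := hpr T hT
    rw [Finset.mem_filter, Finset.mem_powerset] at hT
    unfold midK
    rw [Finset.mem_filter, Finset.mem_Icc]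
    have hpf := sk_primeFactors T hTp
    refine ⟨⟨?_, ?_⟩, ⟨sk_squarefree T hTp, ?_⟩, ?_⟩
    · exact Nat.one_le_iff_ne_zero.mpr (Finset.prod_ne_zero_iff.mpr fun p hp => (hTp p hp).ne_zero)
    · have : ((∏ p ∈ T, p : ℕ) : ℝ) ≤ Y := by
        refine le_trans ?_ hY
        rw [Nat.cast_prod]
        calc ∏ p ∈ T, (p : ℝ) ≤ ∏ p ∈ T, Real.exp l2 := by
              apply Finset.prod_le_prod
              · intro p _; positivity
              · intro p hp
                have h1 := (hP p (hT.1 hp)).2.2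
                rwa [Real.log_le_iff_le_exp (by exact_mod_cast (hTp p hp).pos)] at h1
          _ = Real.exp (l2 * T.card) := by
              rw [Finset.prod_const, ← Real.exp_nat_mul]
              congr 1
              ring
          _ ≤ Real.exp (l2 * dm) := by
              apply Real.exp_le_exp.mpr
              apply mul_le_mul_of_nonneg_left _ hl2
              exact_mod_cast hT.2
      exact_mod_cast this
    · rw [hpf]
      intro p hp
      exact (hP p (hT.1 hp)).2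
    · rw [hpf]; exact hT.2
  · intro k _ _
    positivity

/-- The sum over the small subsets against the full product. -/
private lemma sk_tail (lam dm : ℕ) (P : Finset ℕ) :
    ∏ p ∈ P, (1 + (lam : ℝ) ^ 2 / p) - (3 ^ dm)⁻¹ * ∏ p ∈ P, (1 + 3 * ((lam : ℝ) ^ 2 / p)) ≤
    ∑ T ∈ P.powerset with T.card ≤ dm, ∏ p ∈ T, (lam : ℝ) ^ 2 / p := by
  classical
  have h1 : ∏ p ∈ P, (1 + (lam : ℝ) ^ 2 / p) = ∑ T ∈ P.powerset, ∏ p ∈ T, (lam : ℝ) ^ 2 / p := by
    rw [Finset.prod_one_add]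
  have h2 : ∏ p ∈ P, (1 + 3 * ((lam : ℝ) ^ 2 / p)) =
      ∑ T ∈ P.powerset, ∏ p ∈ T, (3 * ((lam : ℝ) ^ 2 / p)) := by
    rw [Finset.prod_one_add]
  rw [h1, h2, ← Finset.sum_filter_add_sum_filter_not P.powerset (fun T => T.card ≤ dm), Finset.mul_sum]
  have h3 : ∑ T ∈ P.powerset with ¬ T.card ≤ dm, ∏ p ∈ T, (lam : ℝ) ^ 2 / p ≤
      ∑ T ∈ P.powerset, (3 ^ dm)⁻¹ * ∏ p ∈ T, (3 * ((lam : ℝ) ^ 2 / p)) := by
    calc ∑ T ∈ P.powerset with ¬ T.card ≤ dm, ∏ p ∈ T, (lam : ℝ) ^ 2 / p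
        ≤ ∑ T ∈ P.powerset with ¬ T.card ≤ dm, (3 ^ dm)⁻¹ * ∏ p ∈ T, (3 * ((lam : ℝ) ^ 2 / p)) := by
          apply Finset.sum_le_sum
          intro T hT
          rw [Finset.mem_filter] at hT
          rw [Finset.prod_mul_distrib, Finset.prod_const, ← mul_assoc]
          have h4 : (0 : ℝ) ≤ ∏ p ∈ T, (lam : ℝ) ^ 2 / p :=
            Finset.prod_nonneg fun p _ => by positivity
          have h5 : (1 : ℝ) ≤ (3 ^ dm)⁻¹ * 3 ^ T.card := by
            rw [inv_mul_eq_div, one_le_div (by positivity)]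
            exact pow_le_pow_right₀ (by norm_num) (by omega)
          nlinarith
      _ ≤ _ := by
          apply Finset.sum_le_sum_of_subset_of_nonneg (Finset.filter_subset _ _)
          intro T _ _
          have : (0 : ℝ) ≤ ∏ p ∈ T, (3 * ((lam : ℝ) ^ 2 / p)) :=
            Finset.prod_nonneg fun p _ => by positivity
          positivity
  linarith

private lemma sk_inv_sq (P : Finset ℕ) (hP : ∀ p ∈ P, p.Prime) :
    ∑ p ∈ P, (1 : ℝ) / (p : ℝ) ^ 2 ≤ 2 := by
  classical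
  have h1 : P ⊆ Finset.Ioo 1 (P.sup id + 1) := by
    intro p hp
    rw [Finset.mem_Ioo]
    refine ⟨(hP p hp).one_lt, ?_⟩
    have := Finset.le_sup (f := id) hp
    simp only [id] at this
    omega
  calc ∑ p ∈ P, (1 : ℝ) / (p : ℝ) ^ 2 ≤ ∑ p ∈ Finset.Ioo 1 (P.sup id + 1), ((p : ℝ) ^ 2)⁻¹ := by
        refine (Finset.sum_le_sum_of_subset_of_nonneg h1 ?_).trans_eq ?_
        · intro p _ _; positivity
        · apply Finset.sum_congr rfl
          intro p _
          rw [one_div]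
    _ ≤ 2 / ((1 : ℕ) + 1) := by
        simpa using sum_Ioo_inv_sq_le (α := ℝ) 1 (P.sup id + 1)
    _ ≤ 2 := by norm_num

/-- All `k` in question satisfy `k ≤ e^{l2 dm}`. Full sum: the finite product
`∏ (1 + lam²/p) ≥ exp(lam² (log(l2/l1) - C/l1) - Σ lam⁴/p²)`. Tail: `1 ≤ 3^{ω-dm}`, so it is
`≤ 3^{-dm} ∏ (1 + 3 lam²/p) ≤ 3^{-dm} C (l2/l1)^{3 lam²}`. -/
theorem sum_k (lam : ℕ) : ∃ c l : ℝ, 0 < c ∧ 1 ≤ l ∧
    ∀ (l1 l2 : ℝ) (dm Y : ℕ), l ≤ l1 → l1 ≤ l2 → Real.exp (l2 * dm) ≤ Y →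
      (l2 / l1) ^ (2 * lam ^ 2) ≤ c * 3 ^ dm →
      c * (l2 / l1) ^ (lam ^ 2) ≤
        ∑ k ∈ midK l1 l2 dm Y, (lam : ℝ) ^ (2 * k.primeFactors.card) / k := by
  obtain ⟨C1, hC1, hup⟩ := prime_sum_mid
  obtain ⟨C2, hC2, hlo⟩ := prime_sum_mid_lower
  set c0 : ℝ := Real.exp (-((lam : ℝ) ^ 2 * C2) - 2 * (lam : ℝ) ^ 4) with hc0
  set E : ℝ := Real.exp (3 * (lam : ℝ) ^ 2 * C1) with hE
  have hc0p : 0 < c0 := Real.exp_pos _
  have hE1 : 1 ≤ E := Real.one_le_exp (by positivity)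
  have hcp : 0 < c0 / (2 * E) := by positivity
  refine ⟨c0 / (2 * E), 1, hcp, le_rfl, ?_⟩
  intro l1 l2 dm Y hl1 h12 hY hdm
  have hl10 : 0 < l1 := by linarith
  set r : ℝ := l2 / l1 with hr
  have hr1 : 1 ≤ r := by rw [hr, one_le_div hl10]; exact h12
  have hr0 : 0 < r := by linarith
  set N : ℕ := ⌈Real.exp l2⌉₊ with hN
  have hNl : l2 ≤ Real.log N := by
    rw [Real.le_log_iff_exp_le]
    · exact Nat.le_ceil _
    · exact lt_of_lt_of_le (Real.exp_pos l2) (Nat.le_ceil _)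
  set P : Finset ℕ := (Nat.primesLE N).filter (fun p : ℕ => l1 < Real.log p ∧ Real.log p ≤ l2)
    with hPdef
  have hP : ∀ p ∈ P, p.Prime ∧ l1 < Real.log p ∧ Real.log p ≤ l2 := by
    intro p hp
    rw [hPdef, Finset.mem_filter, Nat.mem_primesLE] at hp
    exact ⟨hp.1.2, hp.2⟩
  have hlow := sk_lower lam l1 l2 dm Y P hP hY (by linarith)
  have htail := sk_tail lam dm P
  have hsq := sk_inv_sq P (fun p hp => (hP p hp).1)
  have h1 := hlo l1 l2 N hl1 h12 hNl
  have h2 := hup l1 l2 N hl1 h12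
  -- the full product
  have hfull : c0 * r ^ (lam ^ 2) ≤ ∏ p ∈ P, (1 + (lam : ℝ) ^ 2 / p) := by
    calc c0 * r ^ (lam ^ 2) = Real.exp (-((lam : ℝ) ^ 2 * C2) - 2 * (lam : ℝ) ^ 4 +
          (lam : ℝ) ^ 2 * Real.log r) := by
          rw [Real.exp_add, hc0]
          congr 1
          rw [show (lam : ℝ) ^ 2 * Real.log r = ((lam ^ 2 : ℕ) : ℝ) * Real.log r by push_cast; ring,
            Real.exp_nat_mul, Real.exp_log hr0]
      _ ≤ Real.exp (∑ p ∈ P, ((lam : ℝ) ^ 2 * (1 / p) - (lam : ℝ) ^ 4 * (1 / (p : ℝ) ^ 2))) := by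
          apply Real.exp_le_exp.mpr
          rw [Finset.sum_sub_distrib, ← Finset.mul_sum, ← Finset.mul_sum]
          have a1 : C2 / l1 ≤ C2 := div_le_self hC2 hl1
          have a2 : Real.log r - C2 ≤ ∑ p ∈ P, (1 : ℝ) / p := by
            refine le_trans ?_ h1
            linarith
          have a3 : (0 : ℝ) ≤ (lam : ℝ) ^ 2 := by positivity
          have a4 : (0 : ℝ) ≤ (lam : ℝ) ^ 4 := by positivity
          nlinarith [mul_le_mul_of_nonneg_left a2 a3, mul_le_mul_of_nonneg_left hsq a4]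
      _ = ∏ p ∈ P, Real.exp ((lam : ℝ) ^ 2 * (1 / p) - (lam : ℝ) ^ 4 * (1 / (p : ℝ) ^ 2)) :=
          Real.exp_sum _ _
      _ ≤ _ := by
          apply Finset.prod_le_prod
          · intro p _; positivity
          · intro p hp
            have hp0 : (0 : ℝ) < p := by exact_mod_cast (hP p hp).1.pos
            set x : ℝ := (lam : ℝ) ^ 2 / p with hx
            have hx0 : 0 ≤ x := by positivity
            have e1 : (lam : ℝ) ^ 2 * (1 / p) - (lam : ℝ) ^ 4 * (1 / (p : ℝ) ^ 2) = x - x ^ 2 := by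
              rw [hx]; field_simp
            rw [e1]
            have h3 : x - x ^ 2 ≤ Real.log (1 + x) := by
              have h4 := Real.one_sub_inv_le_log_of_pos (x := 1 + x) (by linarith)
              refine le_trans ?_ h4
              have h5 : 1 - (1 + x)⁻¹ = x / (1 + x) := by
                have : (1 + x) ≠ 0 := by linarith
                field_simp
                ring
              rw [h5, le_div_iff₀ (by linarith)]
              nlinarith [pow_nonneg hx0 3]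
            calc Real.exp (x - x ^ 2) ≤ Real.exp (Real.log (1 + x)) := Real.exp_le_exp.mpr h3
              _ = 1 + x := Real.exp_log (by linarith)
  -- the tail
  have htl : ∏ p ∈ P, (1 + 3 * ((lam : ℝ) ^ 2 / p)) ≤ E * r ^ (3 * lam ^ 2) := by
    calc ∏ p ∈ P, (1 + 3 * ((lam : ℝ) ^ 2 / p)) ≤ ∏ p ∈ P, Real.exp (3 * (lam : ℝ) ^ 2 * (1 / ((p : ℝ) - 1))) := by
          apply Finset.prod_le_prod
          · intro p _; positivity
          · intro p hp
            have hp2 : (2 : ℝ) ≤ p := by exact_mod_cast (hP p hp).1.two_le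
            have h4 := Real.add_one_le_exp (3 * (lam : ℝ) ^ 2 * (1 / ((p : ℝ) - 1)))
            have h5 : 1 / (p : ℝ) ≤ 1 / ((p : ℝ) - 1) :=
              one_div_le_one_div_of_le (by linarith) (by linarith)
            have h6 : 3 * ((lam : ℝ) ^ 2 / p) = 3 * (lam : ℝ) ^ 2 * (1 / p) := by ring
            have h7 : 3 * (lam : ℝ) ^ 2 * (1 / p) ≤ 3 * (lam : ℝ) ^ 2 * (1 / ((p : ℝ) - 1)) :=
              mul_le_mul_of_nonneg_left h5 (by positivity)
            rw [h6]
            linarith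
      _ = Real.exp (3 * (lam : ℝ) ^ 2 * ∑ p ∈ P, (1 / ((p : ℝ) - 1))) := by
          rw [← Real.exp_sum, ← Finset.mul_sum]
      _ ≤ Real.exp (3 * (lam : ℝ) ^ 2 * (Real.log r + C1)) := by
          apply Real.exp_le_exp.mpr
          exact mul_le_mul_of_nonneg_left h2 (by positivity)
      _ = E * r ^ (3 * lam ^ 2) := by
          rw [mul_add, Real.exp_add, mul_comm, hE]
          congr 1
          rw [show 3 * (lam : ℝ) ^ 2 * Real.log r = ((3 * lam ^ 2 : ℕ) : ℝ) * Real.log r by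
            push_cast; ring, Real.exp_nat_mul, Real.exp_log hr0]
  have h3dm : (0 : ℝ) < 3 ^ dm := by positivity
  have hfin : (3 ^ dm : ℝ)⁻¹ * (E * r ^ (3 * lam ^ 2)) ≤ c0 / 2 * r ^ (lam ^ 2) := by
    rw [inv_mul_le_iff₀ h3dm]
    have e1 : r ^ (3 * lam ^ 2) = r ^ (2 * lam ^ 2) * r ^ (lam ^ 2) := by
      rw [← pow_add]; congr 1; ring
    rw [e1]
    have hrp : 0 < r ^ (lam ^ 2) := by positivity
    calc E * (r ^ (2 * lam ^ 2) * r ^ (lam ^ 2)) = (E * r ^ (2 * lam ^ 2)) * r ^ (lam ^ 2) := by ring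
      _ ≤ (E * (c0 / (2 * E) * 3 ^ dm)) * r ^ (lam ^ 2) := by
          apply mul_le_mul_of_nonneg_right _ hrp.le
          exact mul_le_mul_of_nonneg_left hdm (by linarith)
      _ = 3 ^ dm * (c0 / 2 * r ^ (lam ^ 2)) := by
          field_simp
  have hlast : c0 / (2 * E) * r ^ (lam ^ 2) ≤ c0 / 2 * r ^ (lam ^ 2) := by
    apply mul_le_mul_of_nonneg_right _ (by positivity)
    apply div_le_div_of_nonneg_left hc0p.le (by norm_num)
    linarith
  have hmulE := mul_le_mul_of_nonneg_left htl (inv_nonneg.mpr h3dm.le)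
  linarith

end Pool.Agent.RAux
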