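import Mathlib
import Pool.Agent.RAux.Defs
import Pool.Agent.RAux.PrimeSum
import Pool.Agent.H16.Mertens

/-!
The sum over the large prime `r`.
-/

set_option autoImplicit false

open Complex MeasureTheory Filter Topology

namespace Pool.Agent.RAux

open Classical in
/-- Primes `r` with `N e^{-ξL/2} ≤ r ≤ N e^{-ξL/4}`. -/
noncomputable def rSet (N : ℕ) (ξ L : ℝ) : Finset ℕ :=
  (Nat.primesLE N).filter (fun r : ℕ => ξ / 4 ≤ yv N L r ∧ yv N L r ≤ ξ / 2)

/-- Mertens' first theorem on `(N e^{-ξL/2}, N e^{-ξL/4}]`: `Σ log r / r ≥ ξL/4 - C`, and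
`log r ≤ log N ≤ L`. -/
theorem sum_r (ξ : ℝ) (hξ : 0 < ξ) (hξ1 : ξ < 1 / 4) : ∃ N₁ : ℕ, ∀ N : ℕ, N₁ ≤ N → ∀ L : ℝ,
    |L - 2 * Real.log N| ≤ 3 → ξ / 8 ≤ ∑ r ∈ rSet N ξ L, (1 : ℝ) / r := by
  classical
  obtain ⟨C, hC, h⟩ := prime_sum_mid_lower
  set T : ℝ := 4 + (2 * C + 1) * (8 / (3 * ξ)) with hT
  have hT0 : 0 ≤ (2 * C + 1) * (8 / (3 * ξ)) := by positivity
  refine ⟨⌈Real.exp T⌉₊, ?_⟩
  intro N hN L hL
  have hN' : Real.exp T ≤ N := (Nat.le_ceil _).trans (by exact_mod_cast hN)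
  have hN0 : (0 : ℝ) < N := (Real.exp_pos T).trans_le hN'
  have hlog : T ≤ Real.log N := by rwa [Real.le_log_iff_exp_le hN0]
  set M := Real.log N with hM
  have hM4 : 4 ≤ M := by linarith
  have hMC : (2 * C + 1) * (8 / (3 * ξ)) ≤ M := by linarith
  rw [abs_le] at hL
  have hL0 : 0 < L := by linarith
  set l1 := M - ξ * L / 2 with hl1
  set l2 := M - ξ * L / 4 with hl2
  have hξL : ξ * L ≤ (2 * M + 3) / 4 := by nlinarith
  have hξL0 : 0 < ξ * L := by positivity
  have h1 : M / 2 ≤ l1 := by rw [hl1]; linarith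
  have h12 : l1 ≤ l2 := by rw [hl1, hl2]; linarith
  have h2 : l2 ≤ M := by rw [hl2]; linarith
  have key := h l1 l2 N (by linarith) h12 h2
  have hsub : ∑ p ∈ (Nat.primesLE N).filter (fun p : ℕ => l1 < Real.log p ∧ Real.log p ≤ l2),
        (1 : ℝ) / p ≤ ∑ r ∈ rSet N ξ L, (1 : ℝ) / r := by
    apply Finset.sum_le_sum_of_subset_of_nonneg
    · intro p hp
      rw [Finset.mem_filter, Nat.mem_primesLE] at hp
      unfold rSet
      rw [Finset.mem_filter, Nat.mem_primesLE]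
      have hp0 : (0 : ℝ) < p := by exact_mod_cast hp.1.2.pos
      refine ⟨hp.1, ?_⟩
      unfold yv
      rw [Real.log_div hN0.ne' hp0.ne', le_div_iff₀ hL0, div_le_iff₀ hL0]
      constructor
      · have := hp.2.2
        rw [hl2] at this
        linarith
      · have := hp.2.1
        rw [hl1] at this
        linarith
    · intro p _ _
      positivity
  have hl1pos : 0 < l1 := by linarith
  have hl2pos : 0 < l2 := by linarith
  have a1 : ξ / 2 - ξ / M ≤ Real.log (l2 / l1) := by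
    have b1 := Real.log_le_sub_one_of_pos (x := l1 / l2) (by positivity)
    rw [Real.log_div hl1pos.ne' hl2pos.ne'] at b1
    rw [Real.log_div hl2pos.ne' hl1pos.ne']
    have b2 : l1 / l2 ≤ 1 - (ξ / 2 - ξ / M) := by
      rw [div_le_iff₀ hl2pos]
      have b3 : l2 - l1 = ξ * L / 4 := by rw [hl1, hl2]; ring
      have b4 : (ξ / 2 - ξ / M) * l2 ≤ (ξ / 2 - ξ / M) * M := by
        apply mul_le_mul_of_nonneg_left h2
        have : ξ / M ≤ ξ / 2 := div_le_div_of_nonneg_left hξ.le (by norm_num) (by linarith)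
        linarith
      have b5 : (ξ / 2 - ξ / M) * M = ξ * M / 2 - ξ := by
        field_simp
      have b6 : ξ * (2 * M - 3) ≤ ξ * L := mul_le_mul_of_nonneg_left (by linarith) hξ.le
      nlinarith
    linarith
  have a2 : C / l1 ≤ 2 * C / M := by
    rw [div_le_div_iff₀ hl1pos (by linarith)]
    nlinarith
  have a3 : (2 * C + ξ) / M ≤ 3 * ξ / 8 := by
    rw [div_le_iff₀ (by linarith)]
    have e : (2 * C + 1) * (8 / (3 * ξ)) * (3 * ξ / 8) = 2 * C + 1 := by
      field_simp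
    have : (2 * C + 1) * (8 / (3 * ξ)) * (3 * ξ / 8) ≤ M * (3 * ξ / 8) :=
      mul_le_mul_of_nonneg_right hMC (by positivity)
    rw [e] at this
    linarith
  have a4 : (2 * C + ξ) / M = 2 * C / M + ξ / M := by ring
  linarith

end Pool.Agent.RAux
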