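import Mathlib
import Pool.Agent.RAux.Defs
import Pool.Agent.RAux.NtLoK
import Pool.Agent.RAux.NtLoR

/-!
The coefficient of the weighted polynomial at `r k`.
-/

set_option autoImplicit false

open Complex MeasureTheory Filter Topology

namespace Pool.Agent.RAux

theorem rSet_log {N : ℕ} {ξ L : ℝ} (hL : 0 < L) {r : ℕ} (hr : r ∈ rSet N ξ L) :
    r.Prime ∧ r ≤ N ∧ Real.log N - ξ * L / 2 ≤ Real.log r := by
  classical
  unfold rSet at hr
  rw [Finset.mem_filter] at hr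
  obtain ⟨h1, h2, h3⟩ := hr
  have hp : r.Prime ∧ r ≤ N := by
    rw [Nat.mem_primesLE] at h1
    exact ⟨h1.2, h1.1⟩
  refine ⟨hp.1, hp.2, ?_⟩
  have hr0 : (0 : ℝ) < r := by exact_mod_cast hp.1.pos
  have hN0 : (0 : ℝ) < N := lt_of_lt_of_le hr0 (by exact_mod_cast hp.2)
  unfold yv at h3
  rw [Real.log_div hN0.ne' hr0.ne', div_le_iff₀ hL] at h3
  linarith

theorem midK_mem {l1 l2 : ℝ} {dm Y k : ℕ} (hk : k ∈ midK l1 l2 dm Y) :
    0 < k ∧ midSq l1 l2 k ∧ k.primeFactors.card ≤ dm := by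
  classical
  unfold midK at hk
  rw [Finset.mem_filter, Finset.mem_Icc] at hk
  exact ⟨hk.1.1, hk.2.1, hk.2.2⟩

theorem moll_zero {K₁ : ℕ} {l0 : ℝ} (h0 : 0 < l0) {d : ℕ} (hd : l0 < Real.log d) :
    moll K₁ l0 d = 0 := by
  have h1 : 1 - Real.log d / l0 < 0 := by
    rw [sub_neg, lt_div_iff₀ h0]
    linarith
  show ((ArithmeticFunction.moebius d : ℤ) : ℂ) *
    ((psi 1 0 K₁ (1 - Real.log d / l0) : ℝ) : ℂ) = 0
  rw [psi, if_neg (not_le.mpr h1)]
  simp

theorem moll_one (K₁ : ℕ) (l0 : ℝ) : moll K₁ l0 1 = ((1 - Real.exp (-1)) ^ K₁ : ℝ) := by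
  show ((ArithmeticFunction.moebius 1 : ℤ) : ℂ) *
    ((psi 1 0 K₁ (1 - Real.log (1 : ℕ) / l0) : ℝ) : ℂ) = _
  rw [psi, if_pos (by simp)]
  simp

/-- In `r k = n d k'` with `n ≤ N`, `d ≤ e^{l0}`, `k'` middle: all primes of `r k` exceed
`e^{l1} ≥ e^{l0}`, so `d = 1`; `r ∤ k'`, so `k' ∣ k`, `n = r (k/k')`, and `k/k' > 1` would give
`n ≥ r e^{ξ L} > N`. -/
theorem coeff_rk (h : ℝ → ℝ) (K₁ lam dm N Y : ℕ) (ξ L l0 l2 : ℝ) (hL : 0 < L) (hξ : 0 < ξ)
    (h0 : 0 < l0) (h01 : l0 ≤ ξ * L) (h12 : ξ * L ≤ l2) (hN : l2 + ξ * L < Real.log N)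
    (r k : ℕ) (hr : r ∈ rSet N ξ L) (hk : k ∈ midK (ξ * L) l2 dm Y) :
    (arP h N L * (moll K₁ l0 * qf lam (ξ * L) l2 dm)) (r * k) =
      ((h (yv N L r) : ℝ) : ℂ) * ((1 - Real.exp (-1)) ^ K₁ : ℝ) *
        (-(lam : ℂ)) ^ k.primeFactors.card := by
  classical
  obtain ⟨hrp, hrN, hrl⟩ := rSet_log hL hr
  obtain ⟨hk0, hkm, hkd⟩ := midK_mem hk
  have hξL : 0 < ξ * L := mul_pos hξ hL
  have hrl2 : l2 < Real.log r := by linarith
  have hrk : r * k ≠ 0 := mul_ne_zero hrp.pos.ne' hk0.ne'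
  -- prime factors of `r k`
  have hprime : ∀ p : ℕ, p.Prime → p ∣ r * k → ξ * L < Real.log p := by
    intro p hp hpd
    rcases (hp.dvd_mul).1 hpd with h1 | h1
    · rw [(Nat.prime_dvd_prime_iff_eq hp hrp).1 h1]
      linarith
    · exact (hkm.2 p (Nat.mem_primeFactors.2 ⟨hp, h1, hk0.ne'⟩)).1
  have hdiv : ∀ d : ℕ, d ∣ r * k → d ≠ 1 → ξ * L < Real.log d := by
    intro d hd hd1
    have hd0 : d ≠ 0 := fun h => hrk (Nat.eq_zero_of_zero_dvd (h ▸ hd))
    obtain ⟨p, hp, hpd⟩ := Nat.exists_prime_and_dvd hd1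
    have h1 := hprime p hp (hpd.trans hd)
    have h2 : (p : ℝ) ≤ d := by exact_mod_cast Nat.le_of_dvd (Nat.pos_of_ne_zero hd0) hpd
    have h3 : Real.log p ≤ Real.log d := Real.log_le_log (by exact_mod_cast hp.pos) h2
    linarith
  have hmoll : ∀ d : ℕ, d ∣ r * k → d ≠ 1 → moll K₁ l0 d = 0 := fun d hd hd1 =>
    moll_zero h0 (by linarith [hdiv d hd hd1])
  have hB : ∀ m : ℕ, m ∣ r * k → (moll K₁ l0 * qf lam (ξ * L) l2 dm) m =
      ((1 - Real.exp (-1)) ^ K₁ : ℝ) * qf lam (ξ * L) l2 dm m := by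
    intro m hm
    have hm0 : m ≠ 0 := fun h => hrk (Nat.eq_zero_of_zero_dvd (h ▸ hm))
    rw [ArithmeticFunction.mul_apply, Finset.sum_eq_single (1, m)]
    · rw [moll_one]
    · rintro ⟨d, e⟩ hde hne
      rw [Nat.mem_divisorsAntidiagonal] at hde
      have hd : d ∣ m := ⟨e, hde.1.symm⟩
      rw [hmoll d (hd.trans hm) ?_, zero_mul]
      intro hd1
      apply hne
      have : d * e = m := hde.1
      rw [hd1, one_mul] at this
      rw [hd1, this]
    · intro hnot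
      exact absurd (Nat.mem_divisorsAntidiagonal.2 ⟨one_mul m, hm0⟩) hnot
  rw [ArithmeticFunction.mul_apply, Finset.sum_eq_single (r, k)]
  · show arP h N L r * (moll K₁ l0 * qf lam (ξ * L) l2 dm) k = _
    rw [hB k (Dvd.intro_left r rfl)]
    have h1 : arP h N L r = ((h (yv N L r) : ℝ) : ℂ) := by
      show (if r = 0 then (0 : ℂ) else if r ≤ N then ((h (yv N L r) : ℝ) : ℂ) else 0) = _
      rw [if_neg hrp.pos.ne', if_pos hrN]
    have h2 : qf lam (ξ * L) l2 dm k = (-(lam : ℂ)) ^ k.primeFactors.card := by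
      show (if midSq (ξ * L) l2 k ∧ k.primeFactors.card ≤ dm then
        (-(lam : ℂ)) ^ k.primeFactors.card else 0) = _
      rw [if_pos ⟨hkm, hkd⟩]
    rw [h1, h2]
    ring
  · rintro ⟨n, m⟩ hnm hne
    rw [Nat.mem_divisorsAntidiagonal] at hnm
    have hnm1 : n * m = r * k := hnm.1
    have hmd : m ∣ r * k := ⟨n, by rw [← hnm1, mul_comm]⟩
    have hm0 : m ≠ 0 := fun h => hrk (Nat.eq_zero_of_zero_dvd (h ▸ hmd))
    show arP h N L n * (moll K₁ l0 * qf lam (ξ * L) l2 dm) m = 0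
    rw [hB m hmd]
    by_cases hq : midSq (ξ * L) l2 m ∧ m.primeFactors.card ≤ dm
    · -- then `m ∣ k`
      have hrm : ¬ r ∣ m := by
        intro hrm
        have := (hq.1.2 r (Nat.mem_primeFactors.2 ⟨hrp, hrm, hm0⟩)).2
        linarith
      have hcop : Nat.Coprime m r := ((Nat.Prime.coprime_iff_not_dvd hrp).2 hrm).symm
      have hmk : m ∣ k := hcop.dvd_of_dvd_mul_left hmd
      obtain ⟨j, hj⟩ := hmk
      have hn : n = r * j := by
        have h1 : n * m = r * j * m := by rw [hnm1, hj]; ring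
        exact Nat.eq_of_mul_eq_mul_right (Nat.pos_of_ne_zero hm0) h1
      have hj1 : j ≠ 1 := by
        intro hj1
        apply hne
        rw [hn, hj, hj1, mul_one, mul_one]
      have hj0 : j ≠ 0 := by
        intro hj0
        rw [hj0, mul_zero] at hj
        exact hk0.ne' hj
      have hjl := hdiv j (by rw [hj]; exact Dvd.intro_left (r * m) (by ring)) hj1
      have hnN : ¬ n ≤ N := by
        intro hle
        have hnpos : 0 < n := by rw [hn]; exact Nat.mul_pos hrp.pos (Nat.pos_of_ne_zero hj0)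
        have h1 : Real.log n ≤ Real.log N :=
          Real.log_le_log (by exact_mod_cast hnpos) (by exact_mod_cast hle)
        have h2 : Real.log n = Real.log r + Real.log j := by
          rw [hn, Nat.cast_mul, Real.log_mul (by exact_mod_cast hrp.pos.ne')
            (by exact_mod_cast hj0)]
        linarith
      have h1 : arP h N L n = 0 := by
        show (if n = 0 then (0 : ℂ) else if n ≤ N then ((h (yv N L n) : ℝ) : ℂ) else 0) = 0
        rw [if_neg hnN]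
        split_ifs <;> rfl
      rw [h1, zero_mul]
    · have h2 : qf lam (ξ * L) l2 dm m = 0 := by
        show (if midSq (ξ * L) l2 m ∧ m.primeFactors.card ≤ dm then
          (-(lam : ℂ)) ^ m.primeFactors.card else 0) = 0
        rw [if_neg hq]
      rw [h2, mul_zero, mul_zero]
  · intro hnot
    exact absurd (Nat.mem_divisorsAntidiagonal.2 ⟨rfl, hrk⟩) hnot

/-- `(r,k) ↦ r k` is injective. -/
theorem rk_inj (N Y dm : ℕ) (ξ L l2 : ℝ) (hL : 0 < L) (hξ : 0 < ξ) (h12 : ξ * L ≤ l2)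
    (hN : l2 + ξ * L < Real.log N) (r k r' k' : ℕ) (hr : r ∈ rSet N ξ L)
    (hk : k ∈ midK (ξ * L) l2 dm Y) (hr' : r' ∈ rSet N ξ L) (hk' : k' ∈ midK (ξ * L) l2 dm Y)
    (h : r * k = r' * k') : r = r' ∧ k = k' := by
  obtain ⟨hrp, hrN, hrl⟩ := rSet_log hL hr
  obtain ⟨hrp', hrN', hrl'⟩ := rSet_log hL hr'
  obtain ⟨hk0, hkm, hkd⟩ := midK_mem hk
  obtain ⟨hk0', hkm', hkd'⟩ := midK_mem hk'
  have hξL : 0 < ξ * L := mul_pos hξ hL
  have hrr : r = r' := by
    have hd : r ∣ r' * k' := ⟨k, h.symm⟩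
    rcases (hrp.dvd_mul).1 hd with h1 | h1
    · exact (Nat.prime_dvd_prime_iff_eq hrp hrp').1 h1
    · have := (hkm'.2 r (Nat.mem_primeFactors.2 ⟨hrp, h1, hk0'.ne'⟩)).2
      linarith
  refine ⟨hrr, ?_⟩
  rw [hrr] at h
  exact Nat.eq_of_mul_eq_mul_left hrp'.pos h

end Pool.Agent.RAux
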