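import Mathlib
import Pool.Agent.RAux.Defs
import Pool.Agent.RAux.MeanValue
import Pool.Agent.RAux.EulerB
import Pool.Agent.RAux.PrimeSum
import Pool.Agent.RAux.NtLoK
import Pool.Agent.RAux.NtLoR
import Pool.Agent.RAux.NtLoC

/-!
Lower bound for the weighted second moment of `D`.
-/

set_option autoImplicit false

open Complex MeasureTheory Filter Topology

namespace Pool.Agent.RAux

/-- lower bound for the cut-off function -/
theorem psi_lower {a : ℝ} (ha : 0 < a) (K : ℕ) {ξ y : ℝ} (hξ : 0 < ξ) (hξ1 : ξ ≤ 1)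
    (h1 : ξ / 4 ≤ y) (h2 : y ≤ ξ / 2) :
    Real.exp (-a) * (a * Real.exp (-a) / 4) ^ K * ξ ^ K ≤ psi a (-1) K y := by
  have hy : 0 < y := by linarith
  have hy1 : y ≤ 1 := by linarith
  rw [psi, if_pos hy.le]
  have hay : a * y ≤ a := by nlinarith
  have e1 : Real.exp (-a) ≤ Real.exp (-1 * a * y) := Real.exp_le_exp.mpr (by linarith)
  have e2 : a * Real.exp (-a) / 4 * ξ ≤ 1 - Real.exp (-(a * y)) := by
    have h3 : a * y + 1 ≤ Real.exp (a * y) := Real.add_one_le_exp _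
    have h4 : Real.exp (-(a * y)) * Real.exp (a * y) = 1 := by
      rw [← Real.exp_add]
      simp
    have h5 : 0 < Real.exp (-(a * y)) := Real.exp_pos _
    have h6 : a * y * Real.exp (-(a * y)) ≤ 1 - Real.exp (-(a * y)) := by nlinarith
    have h7 : Real.exp (-a) ≤ Real.exp (-(a * y)) := Real.exp_le_exp.mpr (by linarith)
    have h8 : a * (ξ / 4) * Real.exp (-a) ≤ a * y * Real.exp (-(a * y)) := by
      apply mul_le_mul _ h7 (Real.exp_pos _).le (by positivity)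
      exact mul_le_mul_of_nonneg_left h1 ha.le
    linarith
  calc Real.exp (-a) * (a * Real.exp (-a) / 4) ^ K * ξ ^ K
      = Real.exp (-a) * (a * Real.exp (-a) / 4 * ξ) ^ K := by rw [mul_pow]; ring
    _ ≤ Real.exp (-1 * a * y) * (1 - Real.exp (-(a * y))) ^ K := by
        apply mul_le_mul e1 _ (by positivity) (Real.exp_pos _).le
        exact pow_le_pow_left₀ (by positivity) e2 K

/-- the size of a squarefree product of middle primes -/
theorem midK_log {l1 l2 : ℝ} {dm Y k : ℕ} (hl2 : 0 ≤ l2) (hk : k ∈ midK l1 l2 dm Y) :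
    Real.log k ≤ l2 * dm := by
  obtain ⟨hk0, hkm, hkd⟩ := midK_mem hk
  have h1 : (∏ p ∈ k.primeFactors, p) = k := Nat.prod_primeFactors_of_squarefree hkm.1
  have h2 : Real.log k = ∑ p ∈ k.primeFactors, Real.log p := by
    conv_lhs => rw [← h1]
    rw [Nat.cast_prod, Real.log_prod]
    intro p hp
    have := (Nat.prime_of_mem_primeFactors hp).pos
    exact_mod_cast this.ne'
  rw [h2]
  calc ∑ p ∈ k.primeFactors, Real.log p ≤ ∑ p ∈ k.primeFactors, l2 :=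
        Finset.sum_le_sum fun p hp => (hkm.2 p hp).2
    _ = k.primeFactors.card * l2 := by rw [Finset.sum_const, nsmul_eq_mul]
    _ ≤ dm * l2 := mul_le_mul_of_nonneg_right (by exact_mod_cast hkd) hl2
    _ = l2 * dm := mul_comm _ _

/-- Lower bound: keep only `m = r k`, `r` prime with `y_r ∈ [ξ/4, ξ/2]`, `k` in `midK`; the
coefficient is given by `coeff_rk`; then `sum_r` and `sum_k`. -/
theorem nt_lo (a : ℝ) (ha : 0 < a) (K K₁ lam : ℕ) (hK : 1 ≤ K) (hlam : 1 ≤ lam) (A : ℝ)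
    (hA : 4 * (3 * (lam : ℝ) + 1) ^ 2 ≤ A) :
    ∃ c : ℝ, 0 < c ∧ ∃ ξs : ℝ, 0 < ξs ∧ ξs < 1 ∧ ∀ ξ : ℝ, 0 < ξ → ξ < ξs →
      ∃ N₁ : ℕ, ∀ N : ℕ, N₁ ≤ N → ∀ L : ℝ, |L - 2 * Real.log N| ≤ 3 → ∀ X : ℕ,
        (N : ℝ) ^ (3 / 2 : ℝ) ≤ X →
        c * ξ ^ (2 * K + 1) * (x2 A ξ / ξ) ^ (lam ^ 2) ≤
          M2 (arP (psi a (-1) K) N L * QQ K₁ lam A ξ L) X := by
  classical
  have hlam' : (1 : ℝ) ≤ lam := by exact_mod_cast hlam
  have hA64 : 64 ≤ A := by nlinarith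
  have hA0 : 0 < A := by linarith
  have hAlam : 2 * (lam : ℝ) ^ 2 + 1 ≤ A / 8 := by nlinarith
  obtain ⟨ck, l, hck, hl, hsk⟩ := sum_k lam
  set c1 : ℝ := Real.exp (-a) * (a * Real.exp (-a) / 4) ^ K with hc1
  have hc1pos : 0 < c1 := by positivity
  set c2 : ℝ := (1 - Real.exp (-1)) ^ K₁ with hc2
  have hexp1 : Real.exp (-1 : ℝ) < 1 := by
    rw [Real.exp_lt_one_iff]
    norm_num
  have hc2pos : 0 < c2 := pow_pos (by linarith) _
  set ξs : ℝ := min (1 / 8) (min (1 / (4 * A ^ 2)) (ck / 3)) with hξs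
  have hξspos : 0 < ξs := by
    apply lt_min (by norm_num) (lt_min (by positivity) (by positivity))
  refine ⟨c1 ^ 2 * c2 ^ 2 * ck / 8, by positivity, ξs, hξspos,
    lt_of_le_of_lt (min_le_left _ _) (by norm_num), fun ξ hξ hξs' => ?_⟩
  have hξ8 : ξ < 1 / 8 := lt_of_lt_of_le hξs' (min_le_left _ _)
  have hξA : ξ < 1 / (4 * A ^ 2) :=
    lt_of_lt_of_le hξs' ((min_le_right _ _).trans (min_le_left _ _))
  have hξc : ξ < ck / 3 := lt_of_lt_of_le hξs' ((min_le_right _ _).trans (min_le_right _ _))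
  -- the logarithm of `1 / ξ`
  set ℓ : ℝ := Real.log (1 / ξ) with hℓ
  have hℓ1 : 1 ≤ ℓ := by
    have h1 : Real.exp 1 ≤ 1 / ξ := by
      have h2 : (8 : ℝ) ≤ 1 / ξ := by
        rw [le_div_iff₀ hξ]
        linarith
      have h3 := Real.exp_one_lt_d9
      linarith
    have h4 := Real.log_le_log (Real.exp_pos 1) h1
    rwa [Real.log_exp] at h4
  have hℓ0 : 0 < ℓ := by linarith
  have hexpℓ : Real.exp ℓ = 1 / ξ := Real.exp_log (by positivity)
  have hx2 : x2 A ξ = 1 / (A * ℓ) := rfl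
  have hx2pos : 0 < x2 A ξ := by rw [hx2]; positivity
  have hx2le : x2 A ξ ≤ 1 / 64 := by
    rw [hx2]
    apply one_div_le_one_div_of_le (by norm_num)
    nlinarith
  -- `ξ ≤ x2`
  have hξx2 : ξ ≤ x2 A ξ := by
    rw [hx2, le_div_iff₀ (by positivity)]
    have h1 : ℓ ≤ 2 * Real.sqrt (1 / ξ) := by
      have h2 : 0 < Real.sqrt (1 / ξ) := Real.sqrt_pos.mpr (by positivity)
      have h3 : ℓ = 2 * Real.log (Real.sqrt (1 / ξ)) := by
        rw [Real.log_sqrt (by positivity)]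
        ring
      have h4 := Real.log_le_sub_one_of_pos h2
      rw [h3]
      linarith
    have h5 : Real.sqrt ξ ≤ 1 / (2 * A) := by
      rw [Real.sqrt_le_left (by positivity)]
      calc ξ ≤ 1 / (4 * A ^ 2) := hξA.le
        _ = (1 / (2 * A)) ^ 2 := by ring
    have h6 : ξ * Real.sqrt (1 / ξ) = Real.sqrt ξ := by
      rw [Real.sqrt_div zero_le_one, Real.sqrt_one]
      have h7 : 0 < Real.sqrt ξ := Real.sqrt_pos.mpr hξ
      have h8 : Real.sqrt ξ * Real.sqrt ξ = ξ := Real.mul_self_sqrt hξ.le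
      field_simp
      nlinarith
    calc ξ * (A * ℓ) ≤ ξ * (A * (2 * Real.sqrt (1 / ξ))) := by
          apply mul_le_mul_of_nonneg_left _ hξ.le
          exact mul_le_mul_of_nonneg_left h1 hA0.le
      _ = 2 * A * (ξ * Real.sqrt (1 / ξ)) := by ring
      _ = 2 * A * Real.sqrt ξ := by rw [h6]
      _ ≤ 2 * A * (1 / (2 * A)) := mul_le_mul_of_nonneg_left h5 (by positivity)
      _ = 1 := by field_simp
  set dm : ℕ := dmx A ξ with hdm
  have hdm1 : (dm : ℝ) ≤ 1 / (8 * x2 A ξ) := Nat.floor_le (by positivity)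
  have hdm2 : A * ℓ / 8 - 1 < dm := by
    have h1 : 1 / (8 * x2 A ξ) < (dm : ℝ) + 1 := Nat.lt_floor_add_one _
    have h2 : 1 / (8 * x2 A ξ) = A * ℓ / 8 := by
      rw [hx2]
      field_simp
    linarith
  have hx2dm : x2 A ξ * dm ≤ 1 / 8 := by
    calc x2 A ξ * dm ≤ x2 A ξ * (1 / (8 * x2 A ξ)) := mul_le_mul_of_nonneg_left hdm1 hx2pos.le
      _ = 1 / 8 := by field_simp
  -- the condition of `sum_k`
  have hratio : (x2 A ξ / ξ) ^ (2 * lam ^ 2) ≤ ck * 3 ^ dm := by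
    have h1 : x2 A ξ / ξ ≤ 1 / ξ := div_le_div_of_nonneg_right (by linarith) hξ.le
    have h2 : (x2 A ξ / ξ) ^ (2 * lam ^ 2) ≤ Real.exp (ℓ * (2 * lam ^ 2)) := by
      calc (x2 A ξ / ξ) ^ (2 * lam ^ 2) ≤ (1 / ξ) ^ (2 * lam ^ 2) :=
            pow_le_pow_left₀ (by positivity) h1 _
        _ = Real.exp (ℓ * (2 * lam ^ 2)) := by
            rw [← hexpℓ, ← Real.exp_nat_mul]
            congr 1
            push_cast
            ring
    have h3 : Real.exp (ℓ * (A / 8) - 1) ≤ 3 ^ dm := by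
      calc Real.exp (ℓ * (A / 8) - 1) ≤ Real.exp ((dm : ℝ) * 1) :=
            Real.exp_le_exp.mpr (by linarith)
        _ = Real.exp 1 ^ dm := by rw [← Real.exp_nat_mul]
        _ ≤ 3 ^ dm := by
            apply pow_le_pow_left₀ (Real.exp_pos 1).le
            have := Real.exp_one_lt_d9
            linarith
    have h4 : Real.exp (ℓ * (2 * lam ^ 2)) ≤ ck * Real.exp (ℓ * (A / 8) - 1) := by
      have h5 : ℓ * (2 * lam ^ 2) + ℓ ≤ ℓ * (A / 8) := by nlinarith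
      have h6 : Real.exp (ℓ * (2 * lam ^ 2) + ℓ - 1) ≤ Real.exp (ℓ * (A / 8) - 1) :=
        Real.exp_le_exp.mpr (by linarith)
      have h7 : Real.exp (ℓ * (2 * lam ^ 2) + ℓ - 1) =
          Real.exp (ℓ * (2 * lam ^ 2)) * (1 / ξ) * Real.exp (-1) := by
        rw [← hexpℓ, ← Real.exp_add, ← Real.exp_add]
        congr 1
      have h8 : 1 ≤ ck * ((1 / ξ) * Real.exp (-1)) := by
        have h9 : (1 : ℝ) / 3 ≤ Real.exp (-1) := by
          rw [Real.exp_neg, one_div]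
          apply inv_anti₀ (Real.exp_pos 1)
          have := Real.exp_one_lt_d9
          linarith
        have h10 : 3 ≤ ck * (1 / ξ) := by
          rw [mul_one_div, le_div_iff₀ hξ]
          linarith
        calc (1 : ℝ) = 3 * (1 / 3) := by norm_num
          _ ≤ (ck * (1 / ξ)) * Real.exp (-1) :=
              mul_le_mul h10 h9 (by norm_num) (by positivity)
          _ = _ := by ring
      calc Real.exp (ℓ * (2 * lam ^ 2))
          = Real.exp (ℓ * (2 * lam ^ 2)) * 1 := (mul_one _).symm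
        _ ≤ Real.exp (ℓ * (2 * lam ^ 2)) * (ck * ((1 / ξ) * Real.exp (-1))) :=
            mul_le_mul_of_nonneg_left h8 (Real.exp_pos _).le
        _ = ck * Real.exp (ℓ * (2 * lam ^ 2) + ℓ - 1) := by rw [h7]; ring
        _ ≤ _ := mul_le_mul_of_nonneg_left h6 hck.le
    calc _ ≤ Real.exp (ℓ * (2 * lam ^ 2)) := h2
      _ ≤ ck * Real.exp (ℓ * (A / 8) - 1) := h4
      _ ≤ ck * 3 ^ dm := mul_le_mul_of_nonneg_left h3 hck.le
  obtain ⟨N₁, hN₁⟩ := sum_r ξ hξ (by linarith)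
  obtain ⟨N₂, hN₂⟩ := exists_nat_gt (Real.exp (l / ξ + 3))
  refine ⟨max (max N₁ N₂) 1, fun N hN L hLN X hX => ?_⟩
  have hNN₁ : N₁ ≤ N := le_trans (le_trans (le_max_left _ _) (le_max_left _ _)) hN
  have hNN₂ : N₂ ≤ N := le_trans (le_trans (le_max_right _ _) (le_max_left _ _)) hN
  have hNpos : 0 < N := lt_of_lt_of_le one_pos (le_trans (le_max_right _ _) hN)
  have hNpos' : (0 : ℝ) < N := by exact_mod_cast hNpos
  have hlogN : l / ξ + 3 < Real.log N := by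
    rw [Real.lt_log_iff_exp_lt hNpos']
    exact lt_of_lt_of_le hN₂ (by exact_mod_cast hNN₂)
  have hlξ : 0 < l / ξ := by positivity
  have hL1 : L ≤ 2 * Real.log N + 3 := by linarith [(abs_le.mp hLN).2]
  have hL2 : 2 * Real.log N - 3 ≤ L := by linarith [(abs_le.mp hLN).1]
  have hL : 0 < L := by linarith
  set l2 : ℝ := x2 A ξ * L with hl2
  set l0 : ℝ := x0 ξ * L with hl0
  have hx0 : x0 ξ = ξ ^ 3 / 4 := rfl
  have hl0pos : 0 < l0 := by rw [hl0, hx0]; positivity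
  have hl01 : l0 ≤ ξ * L := by
    rw [hl0, hx0]
    apply mul_le_mul_of_nonneg_right _ hL.le
    have : ξ ^ 2 ≤ 1 := by nlinarith
    nlinarith
  have hl12 : ξ * L ≤ l2 := mul_le_mul_of_nonneg_right hξx2 hL.le
  have hl2N : l2 + ξ * L < Real.log N := by
    rw [hl2]
    have : (x2 A ξ + ξ) * L ≤ 1 / 4 * L := mul_le_mul_of_nonneg_right (by linarith) hL.le
    nlinarith
  have hll1 : l ≤ ξ * L := by
    have h1 : l / ξ ≤ L := by linarith
    rw [div_le_iff₀ hξ] at h1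
    linarith
  have hl2pos : 0 < l2 := by rw [hl2]; positivity
  set Y : ℕ := ⌈Real.exp (l2 * dm)⌉₊ with hY
  have hsumk := hsk (ξ * L) l2 dm Y hll1 hl12 (Nat.le_ceil _) (by
    have : l2 / (ξ * L) = x2 A ξ / ξ := by
      rw [hl2]
      field_simp
    rw [this]
    exact hratio)
  have hratio2 : l2 / (ξ * L) = x2 A ξ / ξ := by
    rw [hl2]
    field_simp
  rw [hratio2] at hsumk
  have hsumr := hN₁ N hNN₁ L hLN
  -- the products `r k`
  set R := rSet N ξ L with hR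
  set Kf := midK (ξ * L) l2 dm Y with hKf
  set f := arP (psi a (-1) K) N L * QQ K₁ lam A ξ L with hf
  have hcoef : ∀ r ∈ R, ∀ k ∈ Kf, (c1 ^ 2 * ξ ^ (2 * K) * c2 ^ 2) * ((1 : ℝ) / r *
      ((lam : ℝ) ^ (2 * k.primeFactors.card) / k)) ≤ ‖f (r * k)‖ ^ 2 / ((r * k : ℕ) : ℝ) := by
    intro r hr k hk
    have h1 := coeff_rk (psi a (-1) K) K₁ lam dm N Y ξ L l0 l2 hL hξ hl0pos hl01 hl12 hl2N r k hr hk
    have h2 : f (r * k) = ((psi a (-1) K (yv N L r) : ℝ) : ℂ) * ((1 - Real.exp (-1)) ^ K₁ : ℝ) *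
        (-(lam : ℂ)) ^ k.primeFactors.card := h1
    have hry : ξ / 4 ≤ yv N L r ∧ yv N L r ≤ ξ / 2 := by
      have := hr
      rw [hR, rSet, Finset.mem_filter] at this
      exact this.2
    have h3 := psi_lower ha K hξ (by linarith) hry.1 hry.2
    rw [← hc1] at h3
    have h4 : c1 * ξ ^ K * c2 * (lam : ℝ) ^ k.primeFactors.card ≤ ‖f (r * k)‖ := by
      rw [← hc2] at h2
      rw [h2, norm_mul, norm_mul, norm_pow, norm_neg, Complex.norm_natCast, Complex.norm_real,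
        Complex.norm_real, Real.norm_eq_abs, Real.norm_eq_abs, abs_of_pos hc2pos]
      apply mul_le_mul_of_nonneg_right _ (by positivity)
      apply mul_le_mul_of_nonneg_right _ hc2pos.le
      exact h3.trans (le_abs_self _)
    have h5 : (c1 * ξ ^ K * c2 * (lam : ℝ) ^ k.primeFactors.card) ^ 2 ≤ ‖f (r * k)‖ ^ 2 :=
      pow_le_pow_left₀ (by positivity) h4 2
    have hr0 : (0 : ℝ) < r := by exact_mod_cast (rSet_log hL hr).1.pos
    have hk0 : (0 : ℝ) < k := by exact_mod_cast (midK_mem hk).1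
    rw [Nat.cast_mul, le_div_iff₀ (mul_pos hr0 hk0)]
    calc (c1 ^ 2 * ξ ^ (2 * K) * c2 ^ 2) * ((1 : ℝ) / r *
          ((lam : ℝ) ^ (2 * k.primeFactors.card) / k)) * (r * k)
        = (c1 * ξ ^ K * c2 * (lam : ℝ) ^ k.primeFactors.card) ^ 2 := by
          field_simp
          ring
      _ ≤ _ := h5
  have hinj : ∀ x ∈ R ×ˢ Kf, ∀ y ∈ R ×ˢ Kf, x.1 * x.2 = y.1 * y.2 → x = y := by
    rintro ⟨r, k⟩ hx ⟨r', k'⟩ hy hxy
    rw [Finset.mem_product] at hx hy
    obtain ⟨h1, h2⟩ := rk_inj N Y dm ξ L l2 hL hξ hl12 hl2N r k r' k' hx.1 hx.2 hy.1 hy.2 hxy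
    rw [h1, h2]
  have hsub : (R ×ˢ Kf).image (fun x => x.1 * x.2) ⊆ Finset.Icc 1 X := by
    intro m hm
    rw [Finset.mem_image] at hm
    obtain ⟨⟨r, k⟩, hx, rfl⟩ := hm
    rw [Finset.mem_product] at hx
    have hrp := rSet_log hL hx.1
    have hkp := midK_mem hx.2
    rw [Finset.mem_Icc]
    refine ⟨Nat.mul_pos hrp.1.pos hkp.1, ?_⟩
    have hklog := midK_log hl2pos.le hx.2
    have hr0 : (0 : ℝ) < r := by exact_mod_cast hrp.1.pos
    have hk0 : (0 : ℝ) < k := by exact_mod_cast hkp.1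
    have hrN : Real.log r ≤ Real.log N :=
      Real.log_le_log hr0 (by exact_mod_cast hrp.2.1)
    have h1 : l2 * dm ≤ L / 8 := by
      calc l2 * dm = (x2 A ξ * dm) * L := by rw [hl2]; ring
        _ ≤ 1 / 8 * L := mul_le_mul_of_nonneg_right hx2dm hL.le
        _ = L / 8 := by ring
    have h2 : Real.log ((r : ℝ) * k) ≤ 3 / 2 * Real.log N := by
      rw [Real.log_mul hr0.ne' hk0.ne']
      linarith
    have h3 : (r : ℝ) * k ≤ (N : ℝ) ^ (3 / 2 : ℝ) := by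
      rw [← Real.log_rpow hNpos'] at h2
      exact (Real.log_le_log_iff (mul_pos hr0 hk0) (Real.rpow_pos_of_pos hNpos' _)).mp h2
    have h4 : ((r * k : ℕ) : ℝ) ≤ X := by
      push_cast
      exact h3.trans hX
    exact_mod_cast h4
  have hprod : ∑ x ∈ R ×ˢ Kf, ((1 : ℝ) / x.1 * ((lam : ℝ) ^ (2 * x.2.primeFactors.card) / x.2)) =
      (∑ r ∈ R, (1 : ℝ) / r) * ∑ k ∈ Kf, (lam : ℝ) ^ (2 * k.primeFactors.card) / k := by
    rw [Finset.sum_mul_sum, Finset.sum_product]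
  have hsk0 : 0 ≤ (x2 A ξ / ξ) ^ (lam ^ 2) := by positivity
  calc c1 ^ 2 * c2 ^ 2 * ck / 8 * ξ ^ (2 * K + 1) * (x2 A ξ / ξ) ^ (lam ^ 2)
      = (c1 ^ 2 * ξ ^ (2 * K) * c2 ^ 2) * ((ξ / 8) * (ck * (x2 A ξ / ξ) ^ (lam ^ 2))) := by ring
    _ ≤ (c1 ^ 2 * ξ ^ (2 * K) * c2 ^ 2) * ((∑ r ∈ R, (1 : ℝ) / r) *
          ∑ k ∈ Kf, (lam : ℝ) ^ (2 * k.primeFactors.card) / k) := by
        apply mul_le_mul_of_nonneg_left _ (by positivity)
        exact mul_le_mul hsumr hsumk (by positivity) ((by positivity : (0 : ℝ) ≤ ξ / 8).trans hsumr)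
    _ = ∑ x ∈ R ×ˢ Kf, (c1 ^ 2 * ξ ^ (2 * K) * c2 ^ 2) *
          ((1 : ℝ) / x.1 * ((lam : ℝ) ^ (2 * x.2.primeFactors.card) / x.2)) := by
        rw [← hprod, Finset.mul_sum]
    _ ≤ ∑ x ∈ R ×ˢ Kf, ‖f (x.1 * x.2)‖ ^ 2 / ((x.1 * x.2 : ℕ) : ℝ) := by
        apply Finset.sum_le_sum
        rintro ⟨r, k⟩ hx
        rw [Finset.mem_product] at hx
        exact hcoef r hx.1 k hx.2
    _ = ∑ m ∈ (R ×ˢ Kf).image (fun x => x.1 * x.2), ‖f m‖ ^ 2 / (m : ℝ) := by
        rw [Finset.sum_image hinj]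
    _ ≤ ∑ m ∈ Finset.Icc 1 X, ‖f m‖ ^ 2 / (m : ℝ) := by
        apply Finset.sum_le_sum_of_subset_of_nonneg hsub
        intro m _ _
        positivity
    _ = M2 f X := rfl

end Pool.Agent.RAux
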