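import Mathlib
import Pool.Agent.RAux.Defs
import Pool.Agent.RAux.MeanValue
import Pool.Agent.RAux.EulerB
import Pool.Agent.RAux.PrimeSum

/-!
Second moment of the weight.
-/

set_option autoImplicit false

open Complex MeasureTheory Filter Topology

namespace Pool.Agent.RAux

/-- Mean square of a convolution with unique factorisation. -/
private lemma ntQ_conv (f g : ArithmeticFunction ℂ) (X : ℕ)
    (huniq : ∀ d k d' k' : ℕ, d * k = d' * k' → f d ≠ 0 → g k ≠ 0 → f d' ≠ 0 → g k' ≠ 0 →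
      d = d') :
    M2 (f * g) X ≤ (∑ d ∈ Finset.Icc 1 X, ‖f d‖ ^ 2 / d) * ∑ k ∈ Finset.Icc 1 X, ‖g k‖ ^ 2 / k := by
  classical
  have key : ∀ m ∈ Finset.Icc 1 X, ‖(f * g) m‖ ^ 2 / m ≤
      ∑ x ∈ m.divisorsAntidiagonal, (‖f x.1‖ ^ 2 / x.1) * (‖g x.2‖ ^ 2 / x.2) := by
    intro m hm
    have hm0 : m ≠ 0 := by
      have := (Finset.mem_Icc.mp hm).1
      omega
    rw [ArithmeticFunction.mul_apply]
    by_cases hex : ∃ x ∈ m.divisorsAntidiagonal, f x.1 ≠ 0 ∧ g x.2 ≠ 0
    · obtain ⟨x, hx, hx1, hx2⟩ := hex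
      have hxm := (Nat.mem_divisorsAntidiagonal.mp hx).1
      have hsum : ∑ y ∈ m.divisorsAntidiagonal, f y.1 * g y.2 = f x.1 * g x.2 := by
        apply Finset.sum_eq_single_of_mem x hx
        intro y hy hyx
        have hym := (Nat.mem_divisorsAntidiagonal.mp hy).1
        by_contra hne
        have h1 : f y.1 ≠ 0 := left_ne_zero_of_mul hne
        have h2 : g y.2 ≠ 0 := right_ne_zero_of_mul hne
        have h3 : y.1 = x.1 := huniq y.1 y.2 x.1 x.2 (by rw [hym, hxm]) h1 h2 hx1 hx2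
        apply hyx
        have h4 : y.2 = x.2 := by
          have hpos : 0 < x.1 := Nat.pos_of_ne_zero (fun h => hm0 (by rw [← hxm, h, zero_mul]))
          apply Nat.eq_of_mul_eq_mul_left hpos
          rw [hxm, ← h3, hym]
        exact Prod.ext h3 h4
      rw [hsum]
      have hle : (‖f x.1‖ ^ 2 / x.1) * (‖g x.2‖ ^ 2 / x.2) ≤
          ∑ x ∈ m.divisorsAntidiagonal, (‖f x.1‖ ^ 2 / x.1) * (‖g x.2‖ ^ 2 / x.2) :=
        Finset.single_le_sum (f := fun x : ℕ × ℕ => (‖f x.1‖ ^ 2 / x.1) * (‖g x.2‖ ^ 2 / x.2))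
          (fun y _ => by positivity) hx
      refine le_trans (le_of_eq ?_) hle
      rw [← hxm, norm_mul]
      push_cast
      rw [mul_pow, div_mul_div_comm]
    · push Not at hex
      have hsum : ∑ y ∈ m.divisorsAntidiagonal, f y.1 * g y.2 = 0 := by
        apply Finset.sum_eq_zero
        intro y hy
        by_cases h : f y.1 = 0
        · rw [h, zero_mul]
        · rw [hex y hy h, mul_zero]
      rw [hsum]
      simp only [norm_zero, ne_eq, OfNat.ofNat_ne_zero, not_false_eq_true, zero_pow, zero_div]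
      exact Finset.sum_nonneg fun y _ => by positivity
  unfold M2
  calc _ ≤ ∑ m ∈ Finset.Icc 1 X, ∑ x ∈ m.divisorsAntidiagonal,
        (‖f x.1‖ ^ 2 / x.1) * (‖g x.2‖ ^ 2 / x.2) := Finset.sum_le_sum key
    _ = ∑ x ∈ (Finset.Icc 1 X).biUnion Nat.divisorsAntidiagonal,
        (‖f x.1‖ ^ 2 / x.1) * (‖g x.2‖ ^ 2 / x.2) := by
        rw [Finset.sum_biUnion]
        intro a _ b _ hab
        rw [Function.onFun, Finset.disjoint_left]
        intro x hxa hxb
        apply hab
        rw [← (Nat.mem_divisorsAntidiagonal.mp hxa).1, (Nat.mem_divisorsAntidiagonal.mp hxb).1]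
    _ ≤ ∑ x ∈ Finset.Icc 1 X ×ˢ Finset.Icc 1 X,
        (‖f x.1‖ ^ 2 / x.1) * (‖g x.2‖ ^ 2 / x.2) := by
        apply Finset.sum_le_sum_of_subset_of_nonneg
        · intro x hx
          rw [Finset.mem_biUnion] at hx
          obtain ⟨m, hm, hx⟩ := hx
          have hm' := Finset.mem_Icc.mp hm
          have hx1 : x.1 ∣ m := ⟨x.2, (Nat.mem_divisorsAntidiagonal.mp hx).1.symm⟩
          have hx2 : x.2 ∣ m := ⟨x.1, by rw [mul_comm]; exact (Nat.mem_divisorsAntidiagonal.mp hx).1.symm⟩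
          rw [Finset.mem_product, Finset.mem_Icc, Finset.mem_Icc]
          have hm0 : 0 < m := hm'.1
          refine ⟨⟨Nat.pos_of_dvd_of_pos hx1 hm0, (Nat.le_of_dvd hm0 hx1).trans hm'.2⟩,
            Nat.pos_of_dvd_of_pos hx2 hm0, (Nat.le_of_dvd hm0 hx2).trans hm'.2⟩
        · intro x _ _
          positivity
    _ = _ := by
        rw [Finset.sum_product, Finset.sum_mul_sum]

private lemma ntQ_psi (K₁ : ℕ) (y : ℝ) : ‖((psi 1 0 K₁ y : ℝ) : ℂ)‖ ≤ 1 := by
  rw [Complex.norm_real, Real.norm_eq_abs]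
  unfold psi
  split_ifs with h
  · have h1 : Real.exp (-(1 * y)) ≤ 1 := by
      rw [Real.exp_le_one_iff]
      linarith
    have h2 : 0 < Real.exp (-(1 * y)) := Real.exp_pos _
    rw [zero_mul, zero_mul, Real.exp_zero, one_mul, abs_pow]
    apply pow_le_one₀ (abs_nonneg _)
    rw [abs_le]
    constructor <;> linarith
  · simp

private lemma ntQ_moll_supp (K₁ : ℕ) (l0 : ℝ) (hl0 : 0 < l0) (d : ℕ) (h : moll K₁ l0 d ≠ 0) :
    d ≠ 0 ∧ Real.log d ≤ l0 := by
  constructor
  · rintro rfl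
    simp at h
  · by_contra hlt
    push Not at hlt
    apply h
    have h1 : ¬ (0 ≤ 1 - Real.log d / l0) := by
      rw [not_le, sub_neg, lt_div_iff₀ hl0, one_mul]
      exact hlt
    change ((ArithmeticFunction.moebius d : ℤ) : ℂ) *
      ((psi 1 0 K₁ (1 - Real.log d / l0) : ℝ) : ℂ) = 0
    unfold psi
    rw [if_neg h1]
    simp

private lemma ntQ_moll_le (K₁ : ℕ) (l0 : ℝ) (d : ℕ) : ‖moll K₁ l0 d‖ ≤ 1 := by
  change ‖((ArithmeticFunction.moebius d : ℤ) : ℂ) *
    ((psi 1 0 K₁ (1 - Real.log d / l0) : ℝ) : ℂ)‖ ≤ 1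
  rw [norm_mul]
  have h1 : ‖((ArithmeticFunction.moebius d : ℤ) : ℂ)‖ ≤ 1 := by
    rw [Complex.norm_intCast]
    exact_mod_cast ArithmeticFunction.abs_moebius_le_one
  calc _ ≤ 1 * 1 := mul_le_mul h1 (ntQ_psi _ _) (norm_nonneg _) zero_le_one
    _ = 1 := one_mul 1

private lemma ntQ_sum_moll (K₁ : ℕ) (l0 : ℝ) (hl0 : 0 < l0) (X : ℕ) :
    ∑ d ∈ Finset.Icc 1 X, ‖moll K₁ l0 d‖ ^ 2 / d ≤ 1 + l0 := by
  have h1 : ∑ d ∈ Finset.Icc 1 X, ‖moll K₁ l0 d‖ ^ 2 / d ≤
      ∑ d ∈ Finset.Icc 1 ⌊Real.exp l0⌋₊, (1 : ℝ) / d := by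
    calc _ = ∑ d ∈ (Finset.Icc 1 X).filter (fun d : ℕ => Real.log d ≤ l0),
          ‖moll K₁ l0 d‖ ^ 2 / d := by
          symm
          apply Finset.sum_filter_of_ne
          intro d _ hd
          by_contra hlt
          apply hd
          have : moll K₁ l0 d = 0 := by
            by_contra hne
            exact hlt (ntQ_moll_supp K₁ l0 hl0 d hne).2
          simp [this]
      _ ≤ ∑ d ∈ (Finset.Icc 1 X).filter (fun d : ℕ => Real.log d ≤ l0), (1 : ℝ) / d := by
          apply Finset.sum_le_sum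
          intro d hd
          have h0 : (0 : ℝ) ≤ d := Nat.cast_nonneg d
          apply div_le_div_of_nonneg_right _ h0
          exact pow_le_one₀ (norm_nonneg _) (ntQ_moll_le K₁ l0 d)
      _ ≤ _ := by
          apply Finset.sum_le_sum_of_subset_of_nonneg
          · intro d hd
            rw [Finset.mem_filter, Finset.mem_Icc] at hd
            rw [Finset.mem_Icc]
            refine ⟨hd.1.1, Nat.le_floor ?_⟩
            have hd0 : (0 : ℝ) < d := by exact_mod_cast hd.1.1
            exact (Real.log_le_iff_le_exp hd0).mp hd.2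
          · intro d _ _
            positivity
  have h2 : ∑ d ∈ Finset.Icc 1 ⌊Real.exp l0⌋₊, (1 : ℝ) / d ≤ 1 + Real.log ⌊Real.exp l0⌋₊ := by
    have := harmonic_le_one_add_log ⌊Real.exp l0⌋₊
    rw [harmonic_eq_sum_Icc] at this
    push_cast at this
    simpa [one_div] using this
  have h3 : Real.log ⌊Real.exp l0⌋₊ ≤ l0 := by
    have hpos : (0 : ℝ) < ⌊Real.exp l0⌋₊ := by
      have : 1 ≤ ⌊Real.exp l0⌋₊ := Nat.le_floor (by
        push_cast
        exact Real.one_le_exp hl0.le)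
      exact_mod_cast this
    rw [Real.log_le_iff_le_exp hpos]
    exact Nat.floor_le (Real.exp_pos _).le
  linarith

private lemma ntQ_mid_mul (l1 l2 : ℝ) (m n : ℕ) (hmn : m.Coprime n) :
    midSq l1 l2 (m * n) ↔ midSq l1 l2 m ∧ midSq l1 l2 n := by
  unfold midSq
  constructor
  · rintro ⟨h1, h2⟩
    have h3 := (Nat.squarefree_mul hmn).mp h1
    refine ⟨⟨h3.1, fun p hp => h2 p ?_⟩, h3.2, fun p hp => h2 p ?_⟩
    · rw [hmn.primeFactors_mul]
      exact Finset.mem_union_left _ hp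
    · rw [hmn.primeFactors_mul]
      exact Finset.mem_union_right _ hp
  · rintro ⟨⟨h1, h2⟩, h3, h4⟩
    refine ⟨(Nat.squarefree_mul hmn).mpr ⟨h1, h3⟩, fun p hp => ?_⟩
    rw [hmn.primeFactors_mul, Finset.mem_union] at hp
    rcases hp with hp | hp
    · exact h2 p hp
    · exact h4 p hp

open Classical in
private lemma ntQ_sum_mid (c : ℝ) (hc : 0 ≤ c) (l1 l2 : ℝ) (X : ℕ) :
    ∑ k ∈ Finset.Icc 1 X, (if midSq l1 l2 k then c ^ k.primeFactors.card / k else 0) ≤
      Real.exp (c * ∑ p ∈ (Nat.primesLE X).filter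
        (fun p : ℕ => l1 < Real.log p ∧ Real.log p ≤ l2), 1 / ((p : ℝ) - 1)) := by
  set g : ℕ → ℝ := fun k => if midSq l1 l2 k then c ^ k.primeFactors.card / k else 0 with hg
  set E : ℕ → ℝ := fun p => if l1 < Real.log p ∧ Real.log p ≤ l2 then c * (1 / ((p : ℝ) - 1))
    else 0 with hE
  have h := euler_bound g X E (fun n => by
      rw [hg]
      dsimp only
      split_ifs
      · positivity
      · exact le_rfl) (by
      rw [hg]
      simp [midSq]) (by
      intro m n hmn
      rw [hg]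
      dsimp only
      by_cases h1 : midSq l1 l2 m
      · by_cases h2 : midSq l1 l2 n
        · rw [if_pos ((ntQ_mid_mul l1 l2 m n hmn).mpr ⟨h1, h2⟩), if_pos h1, if_pos h2,
            hmn.primeFactors_mul, Finset.card_union_of_disjoint hmn.disjoint_primeFactors, pow_add]
          push_cast
          rw [div_mul_div_comm]
        · rw [if_neg (fun h => h2 ((ntQ_mid_mul l1 l2 m n hmn).mp h).2), if_neg h2, mul_zero]
      · rw [if_neg (fun h => h1 ((ntQ_mid_mul l1 l2 m n hmn).mp h).1), if_neg h1, zero_mul]) (by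
      intro p hp _ A
      have hp2 : (2 : ℝ) ≤ p := by exact_mod_cast hp.two_le
      have hEnn : 0 ≤ E p := by
        rw [hE]
        dsimp only
        split_ifs
        · have : (0 : ℝ) < p - 1 := by linarith
          positivity
        · exact le_rfl
      have hz : ∀ j : ℕ, j ≠ 0 → j ≠ 1 → g (p ^ j) = 0 := by
        intro j h0 h1
        rw [hg]
        dsimp only
        rw [if_neg]
        intro h
        have := h.1
        rw [Nat.squarefree_pow_iff hp.ne_one h0] at this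
        exact h1 this.2
      have h1le : g (p ^ 1) ≤ E p := by
        rw [hg, hE]
        dsimp only
        rw [pow_one]
        have hiff : midSq l1 l2 p ↔ (l1 < Real.log p ∧ Real.log p ≤ l2) := by
          unfold midSq
          rw [hp.primeFactors]
          constructor
          · intro h
            exact h.2 p (Finset.mem_singleton_self p)
          · intro h
            refine ⟨hp.squarefree, fun q hq => ?_⟩
            rw [Finset.mem_singleton] at hq
            rw [hq]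
            exact h
        by_cases h : l1 < Real.log p ∧ Real.log p ≤ l2
        · rw [if_pos (hiff.mpr h), if_pos h, hp.primeFactors, Finset.card_singleton, pow_one,
            mul_one_div]
          apply div_le_div_of_nonneg_left hc (by linarith) (by linarith)
        · rw [if_neg (fun h' => h (hiff.mp h')), if_neg h]
      rcases Nat.eq_zero_or_pos A with rfl | hA
      · simpa using hEnn
      · rw [Finset.sum_eq_single_of_mem 1 (Finset.mem_Icc.mpr ⟨le_rfl, hA⟩)]
        · exact h1le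
        · intro j hj hj1
          apply hz j _ hj1
          have := (Finset.mem_Icc.mp hj).1
          omega) (Finset.Icc 1 X) (by
      intro m hm
      have hm' := Finset.mem_Icc.mp hm
      refine ⟨by omega, fun p hp => ?_⟩
      exact (Nat.le_of_mem_primeFactors hp).trans hm'.2)
  refine h.trans (le_of_eq ?_)
  congr 1
  rw [hE, Finset.mul_sum, Finset.sum_filter]

open Classical in
private lemma ntQ_qf_sq (lam : ℕ) (l1 l2 : ℝ) (dm k : ℕ) :
    ‖qf lam l1 l2 dm k‖ ^ 2 ≤
      (if midSq l1 l2 k then ((lam : ℝ) ^ 2) ^ k.primeFactors.card else 0) := by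
  have : qf lam l1 l2 dm k = (if midSq l1 l2 k ∧ k.primeFactors.card ≤ dm then
    (-(lam : ℂ)) ^ k.primeFactors.card else 0) := rfl
  rw [this]
  by_cases h : midSq l1 l2 k
  · rw [if_pos h]
    split_ifs
    · rw [norm_pow, norm_neg, Complex.norm_natCast, ← pow_mul, ← pow_mul, mul_comm]
    · rw [norm_zero, zero_pow two_ne_zero]
      positivity
  · rw [if_neg (fun h' => h h'.1), if_neg h]
    simp

theorem nt_Q (K₁ lam : ℕ) (A ξ : ℝ)
    (hA : 1 ≤ A) (hξ : 0 < ξ) (hξ1 : ξ < 1) (h2 : ξ ≤ x2 A ξ) (h22 : x2 A ξ ≤ 1 / 4) :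
    ∃ C : ℝ, 0 < C ∧ ∃ N₁ : ℕ, ∀ N : ℕ, N₁ ≤ N → ∀ L : ℝ, |L - 2 * Real.log N| ≤ 3 → ∀ X : ℕ,
        M2 (QQ K₁ lam A ξ L) X ≤ C * L := by
  classical
  obtain ⟨C₁, hC₁, hps⟩ := prime_sum_mid
  set R : ℝ := x2 A ξ / ξ with hR
  set C : ℝ := 2 * Real.exp ((lam : ℝ) ^ 2 * (Real.log R + C₁)) with hC
  refine ⟨C, by positivity, ⌈Real.exp (3 + 1 / ξ)⌉₊, ?_⟩
  intro N hN L hL X
  have hξi : 1 < 1 / ξ := by
    rw [lt_div_iff₀ hξ]
    linarith
  have hN1 : Real.exp (3 + 1 / ξ) ≤ N := (Nat.le_ceil _).trans (by exact_mod_cast hN)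
  have hN0 : (0 : ℝ) < N := lt_of_lt_of_le (Real.exp_pos _) hN1
  have hlogN : 3 + 1 / ξ ≤ Real.log N := (Real.le_log_iff_exp_le hN0).mpr hN1
  have hLl : 1 / ξ ≤ L := by
    have := (abs_le.mp hL).1
    linarith
  have hL1 : 1 ≤ L := by linarith
  have hL0 : 0 < L := by linarith
  have hξL : 1 ≤ ξ * L := by
    rw [div_le_iff₀ hξ] at hLl
    linarith
  set l0 : ℝ := x0 ξ * L with hl0d
  have hx0 : 0 < x0 ξ := by
    unfold x0
    positivity
  have hx0ξ : x0 ξ ≤ ξ := by
    unfold x0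
    have : ξ ^ 3 ≤ ξ := by
      have h3 : ξ ^ 2 ≤ 1 := pow_le_one₀ hξ.le hξ1.le
      calc ξ ^ 3 = ξ ^ 2 * ξ := by ring
        _ ≤ 1 * ξ := by gcongr
        _ = ξ := one_mul _
    linarith
  have hl0 : 0 < l0 := by positivity
  set l1 : ℝ := ξ * L with hl1
  set l2 : ℝ := x2 A ξ * L with hl2
  have hl01 : l0 ≤ l1 := by
    rw [hl0d, hl1]
    gcongr
  have hl12 : l1 ≤ l2 := by
    rw [hl1, hl2]
    gcongr
  have hratio : l2 / l1 = R := by
    rw [hl1, hl2, hR]
    field_simp
  have hM := ntQ_conv (moll K₁ l0) (qf lam l1 l2 (dmx A ξ)) X (by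
    have hcop : ∀ d k : ℕ, moll K₁ l0 d ≠ 0 → qf lam l1 l2 (dmx A ξ) k ≠ 0 → d.Coprime k := by
      intro d k hd hk
      obtain ⟨hd0, hdl⟩ := ntQ_moll_supp K₁ l0 hl0 d hd
      have hk' : midSq l1 l2 k := by
        by_contra hne
        apply hk
        have : qf lam l1 l2 (dmx A ξ) k = (if midSq l1 l2 k ∧ k.primeFactors.card ≤ dmx A ξ then
          (-(lam : ℂ)) ^ k.primeFactors.card else 0) := rfl
        rw [this, if_neg (fun h => hne h.1)]
      apply Nat.Coprime.symm
      apply Nat.coprime_of_dvd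
      intro p hp hpk hpd
      have hk0 : k ≠ 0 := hk'.1.ne_zero
      have h1 := (hk'.2 p (Nat.mem_primeFactors.mpr ⟨hp, hpk, hk0⟩)).1
      have h3 : (p : ℝ) ≤ d := by
        exact_mod_cast Nat.le_of_dvd (Nat.pos_of_ne_zero hd0) hpd
      have hp0 : (0 : ℝ) < p := by exact_mod_cast hp.pos
      have h4 : Real.log p ≤ Real.log d := Real.log_le_log hp0 h3
      linarith
    intro d k d' k' hdk hd hk hd' hk'
    apply Nat.dvd_antisymm
    · have : d ∣ d' * k' := by
        rw [← hdk]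
        exact dvd_mul_right d k
      exact (hcop d k' hd hk').dvd_of_dvd_mul_right this
    · have : d' ∣ d * k := by
        rw [hdk]
        exact dvd_mul_right d' k'
      exact (hcop d' k hd' hk).dvd_of_dvd_mul_right this)
  have hk : ∑ k ∈ Finset.Icc 1 X, ‖qf lam l1 l2 (dmx A ξ) k‖ ^ 2 / k ≤
      Real.exp ((lam : ℝ) ^ 2 * (Real.log R + C₁)) := by
    calc _ ≤ ∑ k ∈ Finset.Icc 1 X,
          (if midSq l1 l2 k then ((lam : ℝ) ^ 2) ^ k.primeFactors.card / k else 0) := by
          apply Finset.sum_le_sum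
          intro k _
          have h0 : (0 : ℝ) ≤ k := Nat.cast_nonneg k
          have h3 := div_le_div_of_nonneg_right (ntQ_qf_sq lam l1 l2 (dmx A ξ) k) h0
          refine h3.trans (le_of_eq ?_)
          split_ifs
          · rfl
          · rw [zero_div]
      _ ≤ _ := ntQ_sum_mid _ (by positivity) l1 l2 X
      _ ≤ _ := by
          apply Real.exp_le_exp.mpr
          apply mul_le_mul_of_nonneg_left _ (by positivity)
          have := hps l1 l2 X hξL hl12
          rw [hratio] at this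
          exact this
  have hd := ntQ_sum_moll K₁ l0 hl0 X
  have hl0L : l0 ≤ L := by
    have : l0 ≤ 1 * L := by
      rw [hl0d]
      gcongr
      linarith
    linarith
  calc M2 (QQ K₁ lam A ξ L) X ≤ _ := hM
    _ ≤ (1 + l0) * Real.exp ((lam : ℝ) ^ 2 * (Real.log R + C₁)) := by
        apply mul_le_mul hd hk (Finset.sum_nonneg fun k _ => by positivity) (by linarith)
    _ ≤ (2 * L) * Real.exp ((lam : ℝ) ^ 2 * (Real.log R + C₁)) := by
        apply mul_le_mul_of_nonneg_right _ (Real.exp_pos _).le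
        linarith
    _ = C * L := by
        rw [hC]
        ring

end Pool.Agent.RAux
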