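import Mathlib
import Pool.Agent.RAux.Defs
import Pool.Agent.RAux.MeanValue
import Pool.Agent.RAux.FourierRep
import Pool.Agent.RAux.FourierRep2
import Pool.Agent.RAux.Majorant
import Pool.Agent.RAux.EulerB
import Pool.Agent.RAux.PrimeSum
import Pool.Agent.RAux.MsU
import Pool.Agent.RAux.MsD
import Pool.Agent.RAux.Ms4
import Pool.Agent.RAux.Avg

/-!
Upper bound for the weighted second moment of `G_ν`.
-/

set_option autoImplicit false

open Complex MeasureTheory Filter Topology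

namespace Pool.Agent.RAux

/-! ### The tail of the truncated middle product -/

theorem af_sub_apply (f g : ArithmeticFunction ℂ) (n : ℕ) : (f - g) n = f n - g n := by
  rw [sub_eq_add_neg, ArithmeticFunction.add_apply, sub_eq_add_neg]
  congr 1

open Classical in
/-- The part of `kap (-lam)` removed in `qf`. -/
noncomputable def qtail (lam : ℕ) (l1 l2 : ℝ) (dm : ℕ) : ArithmeticFunction ℂ :=
  ⟨fun n => if midSq l1 l2 n ∧ dm < n.primeFactors.card then (-(lam : ℂ)) ^ n.primeFactors.card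
    else 0, by simp [midSq]⟩

theorem qf_eq_sub (lam : ℕ) (l1 l2 : ℝ) (dm : ℕ) :
    qf lam l1 l2 dm = kap (-(lam : ℂ)) l1 l2 - qtail lam l1 l2 dm := by
  classical
  ext n
  refine Eq.trans ?_ (af_sub_apply _ _ n).symm
  simp only [qf, kap, qtail, ArithmeticFunction.coe_mk]
  by_cases h : midSq l1 l2 n
  · by_cases h2 : n.primeFactors.card ≤ dm
    · rw [if_pos ⟨h, h2⟩, if_pos h, if_neg (fun hc => absurd hc.2 (not_lt.mpr h2)), sub_zero]
    · rw [if_neg (fun hc => h2 hc.2), if_pos h, if_pos ⟨h, not_le.mp h2⟩, sub_self]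
  · simp [h]

theorem kap_real_nonneg (A : ℝ) (hA : 0 ≤ A) (l1 l2 : ℝ) (n : ℕ) : 0 ≤ kap A l1 l2 n := by
  classical
  simp only [kap, ArithmeticFunction.coe_mk]
  split_ifs
  · positivity
  · exact le_rfl

theorem qtail_le (lam : ℕ) (l1 l2 : ℝ) (dm : ℕ) (n : ℕ) :
    ‖qtail lam l1 l2 dm n‖ ≤ (1 / 3 : ℝ) ^ dm * kap (3 * (lam : ℝ)) l1 l2 n := by
  classical
  by_cases h : midSq l1 l2 n ∧ dm < n.primeFactors.card
  · have h1 : qtail lam l1 l2 dm n = (-(lam : ℂ)) ^ n.primeFactors.card := by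
      simp [qtail, h]
    have h2 : kap (3 * (lam : ℝ)) l1 l2 n = (3 * (lam : ℝ)) ^ n.primeFactors.card := by
      simp [kap, h.1]
    rw [h1, h2, norm_pow, norm_neg, Complex.norm_natCast, mul_pow, ← mul_assoc]
    have h3 : (1 : ℝ) ≤ (1 / 3 : ℝ) ^ dm * 3 ^ n.primeFactors.card := by
      have : (3 : ℝ) ^ dm ≤ 3 ^ n.primeFactors.card := pow_le_pow_right₀ (by norm_num) h.2.le
      calc (1 : ℝ) = (1 / 3 : ℝ) ^ dm * 3 ^ dm := by rw [← mul_pow]; norm_num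
        _ ≤ _ := by gcongr
    calc (lam : ℝ) ^ n.primeFactors.card = 1 * (lam : ℝ) ^ n.primeFactors.card := (one_mul _).symm
      _ ≤ _ := by gcongr
  · have h1 : qtail lam l1 l2 dm n = 0 := by simp [qtail, h]
    rw [h1, norm_zero]
    have := kap_real_nonneg (3 * (lam : ℝ)) (by positivity) l1 l2 n
    positivity

theorem kap_zero_eq_up (l1 l2 : ℝ) : kap (-((0 : ℕ) : ℂ)) l1 l2 = 1 := by
  classical
  ext n
  simp only [kap, ArithmeticFunction.coe_mk, Nat.cast_zero, neg_zero]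
  by_cases h1 : n = 1
  · subst h1
    simp [midSq]
  · rw [ArithmeticFunction.one_apply_ne h1]
    split_ifs with h
    · have h0 : n ≠ 0 := h.1.ne_zero
      have : n.primeFactors.Nonempty := Nat.nonempty_primeFactors.mpr (by omega)
      exact zero_pow (by have := Finset.card_pos.mpr this; omega)
    · rfl

/-! ### Properties of the majorant -/

theorem beU_nonneg_up (lam : ℕ) {Δ L l0 l1 l2 : ℝ} (hΔ : 0 ≤ Δ) (hL : 0 < L) (h0 : 0 < l0) (p : ℕ) :
    0 ≤ beU lam Δ L l0 l1 l2 p := by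
  have hp : 0 ≤ Real.log p := Real.log_natCast_nonneg p
  unfold beU
  split_ifs
  · exact le_min (by norm_num) (by positivity)
  · exact le_min (by positivity) (by positivity)
  · norm_num

theorem bU_nonneg (lam : ℕ) {Δ L l0 l1 l2 : ℝ} (hΔ : 0 ≤ Δ) (hL : 0 < L) (h0 : 0 < l0) (m : ℕ) :
    0 ≤ bU lam Δ L l0 l1 l2 m := by
  simp only [bU, ArithmeticFunction.coe_mk]
  split_ifs
  · exact le_rfl
  · exact Finset.prod_nonneg (fun p _ => beU_nonneg_up lam hΔ hL h0 p)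

theorem bU_continuous (lam : ℕ) (L l0 l1 l2 : ℝ) (m : ℕ) :
    Continuous (fun Δ : ℝ => bU lam Δ L l0 l1 l2 m) := by
  simp only [bU, ArithmeticFunction.coe_mk]
  by_cases h : m = 0
  · simp [h, continuous_const]
  · simp only [h, if_false]
    refine continuous_finsetProd _ (fun p _ => ?_)
    unfold beU
    split_ifs
    · exact continuous_const.min ((continuous_id.mul continuous_const).div_const _)
    · exact continuous_const.min
        (continuous_const.add ((continuous_id.mul continuous_const).div_const _))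
    · exact continuous_const

theorem beU_zero_eq_up {Δ L l0 l1 l2 : ℝ} (hΔ : 0 ≤ Δ) (hL : 0 < L) (p : ℕ) :
    beU 0 Δ L l0 l1 l2 p = beD Δ l0 p := by
  have hp : 0 ≤ Real.log p := Real.log_natCast_nonneg p
  unfold beU beD
  split_ifs
  · rfl
  · have : 0 ≤ Δ * Real.log p / L := by positivity
    rw [min_eq_left]
    · simp
    · simp only [Nat.cast_zero, add_zero, zero_sub, abs_neg, abs_one]
      linarith
  · rfl

theorem bU_zero_eq_up {Δ L l0 l1 l2 : ℝ} (hΔ : 0 ≤ Δ) (hL : 0 < L) (m : ℕ) :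
    bU 0 Δ L l0 l1 l2 m = bD Δ l0 m := by
  simp only [bU, bD, ArithmeticFunction.coe_mk]
  split_ifs
  · rfl
  · exact Finset.prod_congr rfl (fun p _ => beU_zero_eq_up hΔ hL p)

theorem bU_zero_le {Δ L l0 l1 l2 : ℝ} (hΔ : 0 ≤ Δ) (hL : 0 < L) (h0 : 0 < l0) (m : ℕ) :
    bU 0 Δ L l0 l1 l2 m ≤ 2 ^ m.primeFactors.card := by
  simp only [bU, ArithmeticFunction.coe_mk]
  split_ifs
  · positivity
  · rw [← Finset.prod_const]
    refine Finset.prod_le_prod (fun p _ => beU_nonneg_up 0 hΔ hL h0 p) (fun p _ => ?_)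
    unfold beU
    split_ifs
    · exact min_le_left _ _
    · exact (min_le_left _ _).trans (by norm_num)
    · norm_num

/-! ### Supports -/

theorem mul_supp_primes (f g : ArithmeticFunction ℂ) (N : ℕ)
    (hf : ∀ m, f m ≠ 0 → ∀ p ∈ m.primeFactors, p ≤ N)
    (hg : ∀ m, g m ≠ 0 → ∀ p ∈ m.primeFactors, p ≤ N) :
    ∀ m, (f * g) m ≠ 0 → ∀ p ∈ m.primeFactors, p ≤ N := by
  intro m hm p hp
  rw [ArithmeticFunction.mul_apply] at hm
  obtain ⟨x, hx, hne⟩ := Finset.exists_ne_zero_of_sum_ne_zero hm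
  rw [Nat.mem_divisorsAntidiagonal] at hx
  have h1 : f x.1 ≠ 0 := left_ne_zero_of_mul hne
  have h2 : g x.2 ≠ 0 := right_ne_zero_of_mul hne
  have hx0 : x.1 * x.2 ≠ 0 := by rw [hx.1]; exact hx.2
  rw [← hx.1, Nat.primeFactors_mul (left_ne_zero_of_mul hx0) (right_ne_zero_of_mul hx0),
    Finset.mem_union] at hp
  rcases hp with hp | hp
  · exact hf _ h1 p hp
  · exact hg _ h2 p hp

theorem arP_supp_primes (h : ℝ → ℝ) (N : ℕ) (L : ℝ) :
    ∀ m, arP h N L m ≠ 0 → ∀ p ∈ m.primeFactors, p ≤ N := by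
  intro m hm p hp
  simp only [arP, ArithmeticFunction.coe_mk] at hm
  have hm0 : m ≠ 0 := by rintro rfl; simp at hm
  have hmN : m ≤ N := by
    by_contra hc
    simp [hm0, hc] at hm
  exact (Nat.le_of_mem_primeFactors hp).trans hmN

theorem moll_supp_primes (K₁ : ℕ) (l0 : ℝ) (h0 : 0 < l0) (N : ℕ) (hN : 1 ≤ N)
    (hlN : l0 ≤ Real.log N) : ∀ m, moll K₁ l0 m ≠ 0 → ∀ p ∈ m.primeFactors, p ≤ N := by
  intro m hm p hp
  simp only [moll, ArithmeticFunction.coe_mk] at hm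
  have h2 : psi 1 0 K₁ (1 - Real.log m / l0) ≠ 0 := by
    intro hc
    rw [hc] at hm
    simp at hm
  have h3 : 0 ≤ 1 - Real.log m / l0 := by
    by_contra hc
    exact h2 (psi_neg _ _ _ _ (not_le.mp hc))
  have h4 : Real.log m ≤ l0 := by
    have : Real.log m / l0 ≤ 1 := by linarith
    rwa [div_le_one h0] at this
  have hm0 : m ≠ 0 := by
    rintro rfl
    simp at hp
  have h5 : (m : ℝ) ≤ N := by
    have hm' : (0 : ℝ) < m := by exact_mod_cast Nat.pos_of_ne_zero hm0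
    have hN' : (0 : ℝ) < N := by exact_mod_cast hN
    exact (Real.log_le_log_iff hm' hN').mp (h4.trans hlN)
  exact (Nat.le_of_mem_primeFactors hp).trans (by exact_mod_cast h5)

theorem mid_primes_le {l1 l2 : ℝ} {N : ℕ} (hN : 1 ≤ N) (hlN : l2 ≤ Real.log N) {m : ℕ}
    (hm : midSq l1 l2 m) : ∀ p ∈ m.primeFactors, p ≤ N := by
  intro p hp
  have h1 := (hm.2 p hp).2
  have hp' : (0 : ℝ) < p := by exact_mod_cast (Nat.prime_of_mem_primeFactors hp).pos
  have hN' : (0 : ℝ) < N := by exact_mod_cast hN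
  have := (Real.log_le_log_iff hp' hN').mp (h1.trans hlN)
  exact_mod_cast this

theorem kap_supp_primes (A : ℂ) {l1 l2 : ℝ} {N : ℕ} (hN : 1 ≤ N) (hlN : l2 ≤ Real.log N) :
    ∀ m, kap A l1 l2 m ≠ 0 → ∀ p ∈ m.primeFactors, p ≤ N := by
  classical
  intro m hm
  have : midSq l1 l2 m := by
    by_contra hc
    simp [kap, hc] at hm
  exact mid_primes_le hN hlN this

theorem qtail_supp_primes (lam : ℕ) {l1 l2 : ℝ} (dm : ℕ) {N : ℕ} (hN : 1 ≤ N)
    (hlN : l2 ≤ Real.log N) :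
    ∀ m, qtail lam l1 l2 dm m ≠ 0 → ∀ p ∈ m.primeFactors, p ≤ N := by
  classical
  intro m hm
  have : midSq l1 l2 m := by
    by_contra hc
    simp [qtail, hc] at hm
  exact mid_primes_le hN hlN this

theorem M2_eq_smo_up (f : ArithmeticFunction ℂ) (N X : ℕ)
    (hf : ∀ m, f m ≠ 0 → ∀ p ∈ m.primeFactors, p ≤ N) :
    M2 f X = ∑ m ∈ smo N X, ‖f m‖ ^ 2 / m := by
  unfold M2 smo
  rw [Finset.sum_filter]
  refine Finset.sum_congr rfl (fun m _ => ?_)
  split_ifs with h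
  · rfl
  · have : f m = 0 := by
      by_contra hc
      exact h (hf m hc)
    simp [this]

theorem M2_sub_le (f g : ArithmeticFunction ℂ) (X : ℕ) :
    M2 (f - g) X ≤ 2 * M2 f X + 2 * M2 g X := by
  unfold M2
  rw [Finset.mul_sum, Finset.mul_sum, ← Finset.sum_add_distrib]
  refine Finset.sum_le_sum (fun m hm => ?_)
  have hm1 : (1 : ℝ) ≤ m := by exact_mod_cast (Finset.mem_Icc.mp hm).1
  rw [af_sub_apply]
  have h1 : ‖f m - g m‖ ^ 2 ≤ 2 * ‖f m‖ ^ 2 + 2 * ‖g m‖ ^ 2 := by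
    have h2 : ‖f m - g m‖ ≤ ‖f m‖ + ‖g m‖ := norm_sub_le _ _
    have h3 : 0 ≤ ‖f m - g m‖ := norm_nonneg _
    nlinarith [sq_nonneg (‖f m‖ - ‖g m‖), norm_nonneg (f m), norm_nonneg (g m)]
  calc ‖f m - g m‖ ^ 2 / m ≤ (2 * ‖f m‖ ^ 2 + 2 * ‖g m‖ ^ 2) / m := by gcongr
    _ = 2 * (‖f m‖ ^ 2 / m) + 2 * (‖g m‖ ^ 2 / m) := by ring

/-! ### The function `kap (3 lam)` -/

theorem kap_mult (A : ℝ) (l1 l2 : ℝ) : (kap A l1 l2).IsMultiplicative := by
  classical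
  refine ⟨?_, ?_⟩
  · simp [kap, midSq, Nat.not_prime_one]
  · intro m n hmn
    simp only [kap, ArithmeticFunction.coe_mk]
    by_cases h0 : m = 0
    · subst h0
      have : n = 1 := by simpa using hmn
      subst this
      simp [midSq]
    by_cases h0' : n = 0
    · subst h0'
      have : m = 1 := by simpa using hmn
      subst this
      simp [midSq]
    have key : midSq l1 l2 (m * n) ↔ midSq l1 l2 m ∧ midSq l1 l2 n := by
      unfold midSq
      rw [Nat.squarefree_mul hmn, Nat.primeFactors_mul h0 h0']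
      constructor
      · rintro ⟨⟨h1, h2⟩, h3⟩
        exact ⟨⟨h1, fun p hp => h3 p (Finset.mem_union_left _ hp)⟩,
          ⟨h2, fun p hp => h3 p (Finset.mem_union_right _ hp)⟩⟩
      · rintro ⟨⟨h1, h3⟩, ⟨h2, h4⟩⟩
        refine ⟨⟨h1, h2⟩, fun p hp => ?_⟩
        rcases Finset.mem_union.mp hp with hp | hp
        · exact h3 p hp
        · exact h4 p hp
    by_cases hm : midSq l1 l2 m
    · by_cases hn : midSq l1 l2 n
      · rw [if_pos (key.mpr ⟨hm, hn⟩), if_pos hm, if_pos hn, Nat.primeFactors_mul h0 h0',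
          Finset.card_union_of_disjoint (Nat.Coprime.disjoint_primeFactors hmn), pow_add]
      · rw [if_neg (fun h => hn (key.mp h).2), if_neg hn, mul_zero]
    · rw [if_neg (fun h => hm (key.mp h).1), if_neg hm, zero_mul]

theorem kap_pow_off (A : ℝ) (l1 l2 : ℝ) (p j : ℕ) (hp : p.Prime) (hj : 1 ≤ j)
    (h : ¬ (l1 < Real.log p ∧ Real.log p ≤ l2)) : kap A l1 l2 (p ^ j) = 0 := by
  classical
  simp only [kap, ArithmeticFunction.coe_mk]
  rw [if_neg]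
  intro hm
  apply h
  apply hm.2 p
  rw [Nat.primeFactors_pow _ (by omega), hp.primeFactors]
  simp

theorem kap_sum_pow (A : ℕ) (l1 l2 : ℝ) (p j : ℕ) (hp : p.Prime) :
    ∑ i ∈ Finset.range (j + 1), kap (A : ℝ) l1 l2 (p ^ i) ≤ 1 + A := by
  classical
  have h2 : ∀ i : ℕ, 2 ≤ i → kap (A : ℝ) l1 l2 (p ^ i) = 0 := by
    intro i hi
    simp only [kap, ArithmeticFunction.coe_mk]
    rw [if_neg]
    intro hm
    have := hm.1
    rw [Nat.squarefree_pow_iff hp.ne_one (by omega)] at this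
    omega
  have h1 : kap (A : ℝ) l1 l2 (p ^ 1) ≤ A := by
    simp only [kap, ArithmeticFunction.coe_mk]
    split_ifs
    · rw [Nat.primeFactors_pow _ (by omega), hp.primeFactors]
      simp
    · positivity
  have h0 : kap (A : ℝ) l1 l2 (p ^ 0) = 1 := by
    simp [kap, midSq, Nat.not_prime_one]
  rcases j with _ | j
  · simp only [zero_add, Finset.range_one, Finset.sum_singleton, h0]
    have : (0 : ℝ) ≤ A := by positivity
    linarith
  · rw [Finset.sum_range_succ', Finset.sum_range_succ', h0]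
    rw [Finset.sum_eq_zero (fun i _ => h2 (i + 1 + 1) (by omega))]
    simp only [zero_add] at h1 ⊢
    linarith

/-! ### Parameters -/

theorem param (lam : ℕ) (hlam : 1 ≤ lam) (A : ℝ) (hA : 4 * (3 * (lam : ℝ) + 1) ^ 2 ≤ A) :
    ∃ ξs : ℝ, 0 < ξs ∧ ξs < 1 ∧ ∀ ξ : ℝ, 0 < ξ → ξ < ξs →
      0 < x2 A ξ ∧ x2 A ξ ≤ 1 / 4 ∧ ξ ≤ x2 A ξ ∧
      ((1 / 3 : ℝ) ^ (dmx A ξ)) ^ 2 * (x2 A ξ / ξ) ^ ((1 + 3 * lam) ^ 2) ≤ 9 := by
  have hl : (1 : ℝ) ≤ lam := by exact_mod_cast hlam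
  have hA64 : 64 ≤ A := by nlinarith
  have hApos : 0 < A := by linarith
  refine ⟨1 / (4 * A ^ 2), by positivity, ?_, ?_⟩
  · rw [div_lt_one (by positivity)]
    nlinarith
  intro ξ hξ hξs
  have hξA : ξ * (4 * A ^ 2) < 1 := by
    rwa [lt_div_iff₀ (by positivity)] at hξs
  have hξ4 : ξ < 1 / 4 := by
    have : 1 ≤ A ^ 2 := by nlinarith
    nlinarith
  have hlog1 : 1 ≤ Real.log (1 / ξ) := by
    rw [Real.le_log_iff_exp_le (by positivity)]
    have h1 : Real.exp 1 < 2.7182818286 := Real.exp_one_lt_d9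
    have h2 : 4 ≤ 1 / ξ := by
      rw [le_div_iff₀ hξ]
      linarith
    linarith
  have hlogpos : 0 < Real.log (1 / ξ) := by linarith
  have hx2pos : 0 < x2 A ξ := by unfold x2; positivity
  have hx2le : x2 A ξ ≤ 1 / 4 := by
    unfold x2
    rw [div_le_div_iff₀ (by positivity) (by norm_num)]
    nlinarith
  have hsq : Real.log (1 / ξ) ≤ 2 / Real.sqrt ξ := by
    have hs : 0 < Real.sqrt ξ := Real.sqrt_pos.mpr hξ
    have h1 : (1 / ξ) = (1 / Real.sqrt ξ) ^ 2 := by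
      rw [div_pow, Real.sq_sqrt hξ.le, one_pow]
    rw [h1, Real.log_pow]
    have h2 : Real.log (1 / Real.sqrt ξ) ≤ 1 / Real.sqrt ξ - 1 := Real.log_le_sub_one_of_pos (by positivity)
    push_cast
    have h3 : 2 / Real.sqrt ξ = 2 * (1 / Real.sqrt ξ) := by ring
    rw [h3]
    linarith
  have hξx2 : ξ ≤ x2 A ξ := by
    unfold x2
    rw [le_div_iff₀ (by positivity)]
    have hs : 0 < Real.sqrt ξ := Real.sqrt_pos.mpr hξ
    have hss : Real.sqrt ξ * Real.sqrt ξ = ξ := Real.mul_self_sqrt hξ.le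
    have h1 : ξ * (A * Real.log (1 / ξ)) ≤ ξ * (A * (2 / Real.sqrt ξ)) := by gcongr
    have h2 : ξ * (A * (2 / Real.sqrt ξ)) = 2 * A * Real.sqrt ξ := by
      field_simp
      nlinarith
    have h3 : 2 * A * Real.sqrt ξ ≤ 1 := by
      have h4 : (2 * A * Real.sqrt ξ) ^ 2 ≤ 1 := by
        have : (2 * A * Real.sqrt ξ) ^ 2 = 4 * A ^ 2 * (Real.sqrt ξ * Real.sqrt ξ) := by ring
        rw [this, hss]
        linarith
      nlinarith [mul_pos hApos hs]
    linarith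
  refine ⟨hx2pos, hx2le, hξx2, ?_⟩
  -- the tail bound
  set E : ℕ := (1 + 3 * lam) ^ 2 with hE
  have hEr : (E : ℝ) = (3 * (lam : ℝ) + 1) ^ 2 := by rw [hE]; push_cast; ring
  have hdm : 1 / (8 * x2 A ξ) - 1 ≤ (dmx A ξ : ℝ) := by
    unfold dmx
    linarith [Nat.lt_floor_add_one (1 / (8 * x2 A ξ))]
  have hinv : 1 / (8 * x2 A ξ) = A * Real.log (1 / ξ) / 8 := by
    unfold x2
    field_simp
  rw [hinv] at hdm
  have hlog3 : 1 ≤ Real.log 3 := by
    rw [Real.le_log_iff_exp_le (by norm_num)]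
    have h1 : Real.exp 1 < 2.7182818286 := Real.exp_one_lt_d9
    linarith
  have h1 : ((1 / 3 : ℝ) ^ (dmx A ξ)) ^ 2 = Real.exp (-(2 * (dmx A ξ : ℝ) * Real.log 3)) := by
    have : (1 / 3 : ℝ) = Real.exp (-Real.log 3) := by
      rw [Real.exp_neg, Real.exp_log (by norm_num)]
      norm_num
    rw [this, ← Real.exp_nat_mul, ← Real.exp_nat_mul]
    congr 1
    push_cast
    ring
  have h2 : (x2 A ξ / ξ) ^ E ≤ Real.exp ((E : ℝ) * Real.log (1 / ξ)) := by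
    have h3 : x2 A ξ / ξ ≤ 1 / ξ := by
      gcongr
      linarith
    calc (x2 A ξ / ξ) ^ E ≤ (1 / ξ) ^ E := by gcongr
      _ = Real.exp ((E : ℝ) * Real.log (1 / ξ)) := by
        rw [Real.exp_nat_mul, Real.exp_log (by positivity)]
  rw [h1]
  calc Real.exp (-(2 * (dmx A ξ : ℝ) * Real.log 3)) * (x2 A ξ / ξ) ^ E
      ≤ Real.exp (-(2 * (dmx A ξ : ℝ) * Real.log 3)) * Real.exp ((E : ℝ) * Real.log (1 / ξ)) := by
        gcongr
    _ = Real.exp (-(2 * (dmx A ξ : ℝ) * Real.log 3) + (E : ℝ) * Real.log (1 / ξ)) := by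
        rw [Real.exp_add]
    _ ≤ Real.exp (2 * Real.log 3) := by
        apply Real.exp_le_exp.mpr
        have h4 : (A * Real.log (1 / ξ) / 8 - 1) * Real.log 3 ≤ (dmx A ξ : ℝ) * Real.log 3 := by
          gcongr
        have h5 : (E : ℝ) * Real.log (1 / ξ) ≤ A / 4 * Real.log (1 / ξ) * Real.log 3 := by
          rw [hEr]
          have h6 : (3 * (lam : ℝ) + 1) ^ 2 ≤ A / 4 := by linarith
          calc (3 * (lam : ℝ) + 1) ^ 2 * Real.log (1 / ξ) ≤ A / 4 * Real.log (1 / ξ) := by gcongr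
            _ = A / 4 * Real.log (1 / ξ) * 1 := by ring
            _ ≤ _ := by gcongr
        nlinarith
    _ = 9 := by
        have : 2 * Real.log 3 = Real.log (3 ^ 2) := by rw [Real.log_pow]; norm_num
        rw [this, Real.exp_log (by norm_num)]
        norm_num

/-! ### The main estimate -/

theorem nt_up (a : ℝ) (ha : 0 < a) (K' K₁ lam ν : ℕ) (hK' : 4 * lam + 6 ≤ K')
    (hK₁ : 4 * lam + 6 ≤ K₁) (hlam : 1 ≤ lam) (A : ℝ)
    (hA : 4 * (3 * (lam : ℝ) + 1) ^ 2 ≤ A) :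
    ∃ C : ℝ, 0 ≤ C ∧ ∃ ξs : ℝ, 0 < ξs ∧ ξs < 1 ∧ ∀ ξ : ℝ, 0 < ξ → ξ < ξs →
      ∃ N₁ : ℕ, ∀ N : ℕ, N₁ ≤ N → ∀ L : ℝ, |L - 2 * Real.log N| ≤ 3 → ∀ X : ℕ,
        M2 (arP (psi a ν (K' + ν)) N L * QQ K₁ lam A ξ L) X ≤
          C * (x0 ξ)⁻¹ * (x2 A ξ / ξ) ^ ((lam - 1) ^ 2) := by
  set J : ℕ := 4 + 4 * lam with hJ
  set c₁ : ℝ := (ν : ℝ) * a + 1 with hc₁
  have hc₁pos : 0 < c₁ := by positivity
  obtain ⟨B, hB0, hRep0⟩ := psi_rep a ν c₁ (K' + ν) ha (by omega) (by rw [hc₁]; linarith)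
  have hRep : Rep (psi a ν (K' + ν)) c₁ J B :=
    Rep.mono hRep0 (by omega) le_rfl hB0
  obtain ⟨Cm, hCm0, hmaj⟩ := majorant c₁ hc₁pos J K₁ (by omega)
  obtain ⟨CU, hCU0, hU⟩ := ms_U lam hlam
  obtain ⟨CD, hCD0, hD⟩ := ms_D (3 * lam)
  obtain ⟨ξs, hξs0, hξs1, hpar⟩ := param lam hlam A hA
  refine ⟨2 * (CU * (Cm * B) ^ 2) + 2 * (9 * CD * (Cm * B) ^ 2), by positivity, ξs, hξs0, hξs1, ?_⟩
  intro ξ hξ hξlt
  obtain ⟨hx2pos, hx2le, hξx2, htail⟩ := hpar ξ hξ hξlt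
  have hξ1 : ξ < 1 := hξlt.trans hξs1
  have hx0pos : 0 < x0 ξ := by unfold x0; positivity
  have hx0le : x0 ξ ≤ ξ := by
    unfold x0
    have : ξ ^ 3 ≤ ξ := by
      calc ξ ^ 3 ≤ ξ ^ 1 := pow_le_pow_of_le_one hξ.le hξ1.le (by norm_num)
        _ = ξ := pow_one ξ
    have h0 : 0 ≤ ξ ^ 3 := by positivity
    linarith
  obtain ⟨N₁, hN₁⟩ := exists_nat_ge (Real.exp (3 + (x0 ξ)⁻¹))
  refine ⟨N₁, fun N hN L hL X => ?_⟩
  have hNr : Real.exp (3 + (x0 ξ)⁻¹) ≤ N := hN₁.trans (by exact_mod_cast hN)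
  have hNpos : (0 : ℝ) < N := (Real.exp_pos _).trans_le hNr
  have hN1 : 1 ≤ N := by exact_mod_cast hNpos
  have hlogN : 3 + (x0 ξ)⁻¹ ≤ Real.log N := by
    rwa [Real.le_log_iff_exp_le hNpos]
  have hx0inv : 0 < (x0 ξ)⁻¹ := by positivity
  have hL1 := (abs_le.mp hL).1
  have hL2 := (abs_le.mp hL).2
  have hLN : Real.log N ≤ L := by linarith
  have hLpos : 0 < L := by linarith
  have hlogpos : 0 < Real.log N := by linarith
  have hLge : (x0 ξ)⁻¹ ≤ L := by linarith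
  -- the scales
  have h0 : 1 ≤ x0 ξ * L := by
    calc 1 = x0 ξ * (x0 ξ)⁻¹ := by field_simp
      _ ≤ x0 ξ * L := by gcongr
  have h01 : x0 ξ * L ≤ ξ * L := by gcongr
  have h12 : ξ * L ≤ x2 A ξ * L := by gcongr
  have h2N : x2 A ξ * L ≤ Real.log N := by
    calc x2 A ξ * L ≤ 1 / 4 * L := by gcongr
      _ ≤ 1 / 4 * (2 * Real.log N + 3) := by gcongr; linarith
      _ ≤ Real.log N := by linarith
  have h0L : x0 ξ * L ≤ L := (h01.trans h12).trans (h2N.trans hLN)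
  obtain ⟨μ, hμfin, hμ1, hμint, hμB, hμmaj⟩ := hmaj (psi a ν (K' + ν)) B hB0 hRep
    (fun y hy => psi_neg _ _ _ _ hy) N L (x0 ξ * L) (ξ * L) (x2 A ξ * L) hN1 hLN h0 h0L h01 h12
  have hμI0 : 0 ≤ ∫ Δ, Δ ^ J ∂μ :=
    integral_nonneg_of_ae (by filter_upwards [hμ1] with Δ hΔ; positivity)
  have hμB2 : (∫ Δ, Δ ^ J ∂μ) ^ 2 ≤ (Cm * B) ^ 2 := by gcongr
  have hratio : Real.log N / (x0 ξ * L) ≤ (x0 ξ)⁻¹ := by
    rw [div_le_iff₀ (by positivity)]
    calc Real.log N ≤ L := hLN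
      _ = (x0 ξ)⁻¹ * (x0 ξ * L) := by field_simp
  have hr2 : x2 A ξ * L / (ξ * L) = x2 A ξ / ξ := by field_simp
  have hratio1 : 1 ≤ x2 A ξ / ξ := by rwa [one_le_div hξ]
  -- decomposition
  have hdec : arP (psi a ν (K' + ν)) N L * QQ K₁ lam A ξ L =
      arP (psi a ν (K' + ν)) N L * moll K₁ (x0 ξ * L) * kap (-(lam : ℂ)) (ξ * L) (x2 A ξ * L) -
      arP (psi a ν (K' + ν)) N L * moll K₁ (x0 ξ * L) *
        qtail lam (ξ * L) (x2 A ξ * L) (dmx A ξ) := by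
    unfold QQ
    rw [qf_eq_sub, mul_sub, mul_sub, mul_assoc, mul_assoc]
  rw [hdec]
  refine (M2_sub_le _ _ X).trans ?_
  have hsuppAM : ∀ m, (arP (psi a ν (K' + ν)) N L * moll K₁ (x0 ξ * L)) m ≠ 0 →
      ∀ p ∈ m.primeFactors, p ≤ N :=
    mul_supp_primes _ _ N (arP_supp_primes _ N L)
      (moll_supp_primes K₁ _ (by linarith) N hN1 ((h01.trans h12).trans h2N))
  have hS1 : ∀ m ∈ smo N X, 1 ≤ m := by
    intro m hm
    unfold smo at hm
    exact (Finset.mem_Icc.mp (Finset.mem_filter.mp hm).1).1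
  -- first part
  have hpart1 : M2 (arP (psi a ν (K' + ν)) N L * moll K₁ (x0 ξ * L) *
      kap (-(lam : ℂ)) (ξ * L) (x2 A ξ * L)) X ≤
      CU * (x0 ξ)⁻¹ * (x2 A ξ / ξ) ^ ((lam - 1) ^ 2) * (Cm * B) ^ 2 := by
    rw [M2_eq_smo_up _ N X (mul_supp_primes _ _ N hsuppAM (kap_supp_primes _ hN1 h2N))]
    have := avg_bound μ J hμ1 hμint (smo N X) hS1
      (fun Δ m => bU lam Δ L (x0 ξ * L) (ξ * L) (x2 A ξ * L) m)
      (fun m _ => bU_continuous lam L _ _ _ m)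
      (fun Δ hΔ m _ => bU_nonneg lam (by linarith) hLpos (by linarith) m)
      (CU * (x0 ξ)⁻¹ * (x2 A ξ / ξ) ^ ((lam - 1) ^ 2)) ?_
      (fun m => ‖(arP (psi a ν (K' + ν)) N L * moll K₁ (x0 ξ * L) *
        kap (-(lam : ℂ)) (ξ * L) (x2 A ξ * L)) m‖)
      (fun m _ => norm_nonneg _) (fun m _ => hμmaj lam m)
    · refine this.trans ?_
      gcongr
    · intro Δ hΔ
      have h := hU Δ L (x0 ξ * L) (ξ * L) (x2 A ξ * L) N X hΔ h0 h01 h12 h2N hLN
      refine h.trans ?_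
      rw [hr2, ← hJ]
      calc CU * Δ ^ J * (Real.log N / (x0 ξ * L)) * (x2 A ξ / ξ) ^ ((lam - 1) ^ 2)
          ≤ CU * Δ ^ J * (x0 ξ)⁻¹ * (x2 A ξ / ξ) ^ ((lam - 1) ^ 2) := by gcongr
        _ = _ := by ring
  -- second part
  have hpart2 : M2 (arP (psi a ν (K' + ν)) N L * moll K₁ (x0 ξ * L) *
        qtail lam (ξ * L) (x2 A ξ * L) (dmx A ξ)) X ≤
      9 * CD * (x0 ξ)⁻¹ * (Cm * B) ^ 2 := by
    rw [M2_eq_smo_up _ N X (mul_supp_primes _ _ N hsuppAM (qtail_supp_primes lam _ hN1 h2N))]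
    set kp : ArithmeticFunction ℝ := kap (((3 * lam : ℕ) : ℝ)) (ξ * L) (x2 A ξ * L) with hkp
    have hkp' : ∀ n, kap (3 * (lam : ℝ)) (ξ * L) (x2 A ξ * L) n = kp n := by
      intro n
      rw [hkp]
      push_cast
      rfl
    have hkp0 : ∀ n, 0 ≤ kp n := fun n => kap_real_nonneg _ (by positivity) _ _ n
    have hint : ∀ n : ℕ, Integrable
        (fun Δ : ℝ => bU 0 Δ L (x0 ξ * L) (ξ * L) (x2 A ξ * L) n) μ := by
      intro n
      refine Integrable.mono' (integrable_const ((2 : ℝ) ^ n.primeFactors.card))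
        (bU_continuous 0 L _ _ _ n).aestronglyMeasurable ?_
      filter_upwards [hμ1] with Δ hΔ
      rw [Real.norm_of_nonneg (bU_nonneg 0 (by linarith) hLpos (by linarith) n)]
      exact bU_zero_le (by linarith) hLpos (by linarith) n
    have hAM : ∀ n, ‖(arP (psi a ν (K' + ν)) N L * moll K₁ (x0 ξ * L)) n‖ ≤
        ∫ Δ, bU 0 Δ L (x0 ξ * L) (ξ * L) (x2 A ξ * L) n ∂μ := by
      intro n
      have := hμmaj 0 n
      rwa [kap_zero_eq_up, mul_one] at this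
    have := avg_bound μ J hμ1 hμint (smo N X) hS1
      (fun Δ m => (1 / 3 : ℝ) ^ (dmx A ξ) * ∑ x ∈ m.divisorsAntidiagonal,
        bU 0 Δ L (x0 ξ * L) (ξ * L) (x2 A ξ * L) x.1 * kp x.2)
      (fun m _ => continuous_const.mul (continuous_finsetSum _
        (fun x _ => (bU_continuous 0 L _ _ _ x.1).mul continuous_const)))
      (fun Δ hΔ m _ => mul_nonneg (by positivity) (Finset.sum_nonneg (fun x _ =>
        mul_nonneg (bU_nonneg 0 (by linarith) hLpos (by linarith) _) (hkp0 _))))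
      (9 * CD * (x0 ξ)⁻¹) ?_
      (fun m => ‖(arP (psi a ν (K' + ν)) N L * moll K₁ (x0 ξ * L) *
        qtail lam (ξ * L) (x2 A ξ * L) (dmx A ξ)) m‖)
      (fun m _ => norm_nonneg _) ?_
    · refine this.trans ?_
      gcongr
    · intro Δ hΔ
      have h := hD kp Δ (x0 ξ * L) (ξ * L) (x2 A ξ * L) N X (kap_mult _ _ _) hkp0
        (fun p j hp hj hn => kap_pow_off _ _ _ p j hp hj hn)
        (fun p j hp => kap_sum_pow (3 * lam) _ _ p j hp) hΔ h0 h01 h12 h2N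
      have heq : ∀ m, ∑ x ∈ m.divisorsAntidiagonal,
          bU 0 Δ L (x0 ξ * L) (ξ * L) (x2 A ξ * L) x.1 * kp x.2 =
          (bD Δ (x0 ξ * L) * kp) m := by
        intro m
        rw [ArithmeticFunction.mul_apply]
        refine Finset.sum_congr rfl (fun x _ => ?_)
        rw [bU_zero_eq_up (by linarith) hLpos]
      simp only [heq]
      have hΔJ : Δ ^ 4 ≤ Δ ^ J := pow_le_pow_right₀ hΔ (by omega)
      calc ∑ m ∈ smo N X, ((1 / 3 : ℝ) ^ dmx A ξ * (bD Δ (x0 ξ * L) * kp) m) ^ 2 / m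
          = ((1 / 3 : ℝ) ^ dmx A ξ) ^ 2 *
            ∑ m ∈ smo N X, ((bD Δ (x0 ξ * L) * kp) m) ^ 2 / m := by
            rw [Finset.mul_sum]
            refine Finset.sum_congr rfl (fun m _ => ?_)
            ring
        _ ≤ ((1 / 3 : ℝ) ^ dmx A ξ) ^ 2 * (CD * Δ ^ 4 * (Real.log N / (x0 ξ * L)) *
            (x2 A ξ * L / (ξ * L)) ^ ((1 + 3 * lam) ^ 2)) := by
            gcongr
        _ = (((1 / 3 : ℝ) ^ dmx A ξ) ^ 2 * (x2 A ξ / ξ) ^ ((1 + 3 * lam) ^ 2)) *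
            (CD * Δ ^ 4 * (Real.log N / (x0 ξ * L))) := by rw [hr2]; ring
        _ ≤ 9 * (CD * Δ ^ J * (x0 ξ)⁻¹) := by gcongr
        _ = 9 * CD * (x0 ξ)⁻¹ * Δ ^ J := by ring
    · intro m _
      rw [integral_const_mul, integral_finsetSum _ (fun x _ => (hint x.1).mul_const _),
        Finset.mul_sum]
      rw [ArithmeticFunction.mul_apply]
      refine (norm_sum_le _ _).trans (Finset.sum_le_sum (fun x _ => ?_))
      rw [norm_mul, integral_mul_const]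
      have h1 := hAM x.1
      have h2 := qtail_le lam (ξ * L) (x2 A ξ * L) (dmx A ξ) x.2
      rw [hkp'] at h2
      have h3 : 0 ≤ ∫ Δ, bU 0 Δ L (x0 ξ * L) (ξ * L) (x2 A ξ * L) x.1 ∂μ :=
        (norm_nonneg _).trans h1
      calc ‖(arP (psi a ν (K' + ν)) N L * moll K₁ (x0 ξ * L)) x.1‖ *
            ‖qtail lam (ξ * L) (x2 A ξ * L) (dmx A ξ) x.2‖
          ≤ (∫ Δ, bU 0 Δ L (x0 ξ * L) (ξ * L) (x2 A ξ * L) x.1 ∂μ) *
            ((1 / 3 : ℝ) ^ dmx A ξ * kp x.2) := by gcongr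
        _ = _ := by ring
  -- conclusion
  have hpow1 : 1 ≤ (x2 A ξ / ξ) ^ ((lam - 1) ^ 2) := one_le_pow₀ hratio1
  calc 2 * M2 _ X + 2 * M2 _ X
      ≤ 2 * (CU * (x0 ξ)⁻¹ * (x2 A ξ / ξ) ^ ((lam - 1) ^ 2) * (Cm * B) ^ 2) +
        2 * (9 * CD * (x0 ξ)⁻¹ * (Cm * B) ^ 2 * 1) := by
        rw [mul_one]
        gcongr
    _ ≤ 2 * (CU * (x0 ξ)⁻¹ * (x2 A ξ / ξ) ^ ((lam - 1) ^ 2) * (Cm * B) ^ 2) +
        2 * (9 * CD * (x0 ξ)⁻¹ * (Cm * B) ^ 2 * (x2 A ξ / ξ) ^ ((lam - 1) ^ 2)) := by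
        gcongr
    _ = _ := by ring

end Pool.Agent.RAux
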