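import Mathlib
import Pool.Agent.RAux.Defs

/-!
The choice of the parameter `ξ`.
-/

set_option autoImplicit false

open Complex MeasureTheory Filter Topology

namespace Pool.Agent.RAux

lemma tendsto_mul_log_pow (A : ℝ) (m : ℕ) :
    Tendsto (fun ξ : ℝ => ξ * (A * Real.log (1 / ξ)) ^ m) (𝓝[>] 0) (𝓝 0) := by
  have h1 : Tendsto (fun u : ℝ => (A * Real.log u) ^ m / u) atTop (𝓝 0) := by
    have h := (Real.isLittleO_pow_log_id_atTop (n := m)).tendsto_div_nhds_zero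
    have h2 := h.const_mul (A ^ m)
    rw [mul_zero] at h2
    refine h2.congr (fun u => ?_)
    simp only [id]
    rw [mul_pow]; ring
  have h3 : Tendsto (fun ξ : ℝ => ξ⁻¹) (𝓝[>] 0) atTop := tendsto_inv_nhdsGT_zero
  refine (h1.comp h3).congr (fun ξ => ?_)
  simp only [Function.comp]
  rw [one_div, div_inv_eq_mul]
  ring

theorem param_exists (K k lam : ℕ) (hlam : lam = K + 3) (hk : 4 * K + 12 ≤ 6 * k)
    (A cL CU CD ξ₁ : ℝ) (hA : 1 ≤ A) (hcL : 0 < cL) (hCU : 0 ≤ CU) (hCD : 0 ≤ CD) (hξ₁ : 0 < ξ₁) :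
    ∃ ξ : ℝ, 0 < ξ ∧ ξ < ξ₁ ∧ ξ ≤ 1 / 4 ∧ ξ ≤ x2 A ξ ∧ x2 A ξ ≤ 1 / 16 ∧
      CU * (x0 ξ)⁻¹ * (x2 A ξ / ξ) ^ ((lam - 1) ^ 2) ≤
        cL * ξ ^ (2 * K + 1) * (x2 A ξ / ξ) ^ (lam ^ 2) ∧
      CD * (ξ ^ 3) ^ (2 * k) * (x0 ξ)⁻¹ * (x2 A ξ / ξ) ^ ((lam + 1) ^ 2) ≤
        cL * ξ ^ (2 * K + 1) * (x2 A ξ / ξ) ^ (lam ^ 2) := by
  have e1 : ∀ᶠ ξ : ℝ in 𝓝[>] 0, 0 < ξ := self_mem_nhdsWithin
  have e2 : ∀ᶠ ξ : ℝ in 𝓝[>] 0, ξ < ξ₁ := nhdsWithin_le_nhds (Iio_mem_nhds hξ₁)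
  have e3 : ∀ᶠ ξ : ℝ in 𝓝[>] 0, ξ < 1 / 4 := nhdsWithin_le_nhds (Iio_mem_nhds (by norm_num))
  have e4 : ∀ᶠ ξ : ℝ in 𝓝[>] 0, ξ * (A * Real.log (1 / ξ)) ^ 1 < 1 :=
    (tendsto_mul_log_pow A 1).eventually_lt_const one_pos
  have e5 : ∀ᶠ ξ : ℝ in 𝓝[>] 0, 4 * CU * (ξ * (A * Real.log (1 / ξ)) ^ (2 * K + 5)) < cL := by
    have := (tendsto_mul_log_pow A (2 * K + 5)).const_mul (4 * CU)
    rw [mul_zero] at this
    exact this.eventually_lt_const hcL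
  have e6 : ∀ᶠ ξ : ℝ in 𝓝[>] 0, 4 * CD * ξ < cL := by
    have : Tendsto (fun ξ : ℝ => 4 * CD * ξ) (𝓝[>] 0) (𝓝 (4 * CD * 0)) :=
      (tendsto_id.mono_left nhdsWithin_le_nhds).const_mul _
    rw [mul_zero] at this
    exact this.eventually_lt_const hcL
  have e7 : ∀ᶠ ξ : ℝ in 𝓝[>] 0, 16 < Real.log (1 / ξ) := by
    have h3 : Tendsto (fun ξ : ℝ => ξ⁻¹) (𝓝[>] 0) atTop := tendsto_inv_nhdsGT_zero
    have := (Real.tendsto_log_atTop.comp h3).eventually_gt_atTop 16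
    refine this.mono (fun ξ h => ?_)
    simpa [one_div] using h
  obtain ⟨ξ, h1, h2, h3, h4, h5, h6, h7⟩ := (e1.and (e2.and (e3.and (e4.and (e5.and (e6.and e7)))))).exists
  have hl : 16 < A * Real.log (1 / ξ) := by nlinarith
  have hlp : 0 < A * Real.log (1 / ξ) := by linarith
  have hx2 : 0 < x2 A ξ := by unfold x2; positivity
  have hx2' : x2 A ξ * (A * Real.log (1 / ξ)) = 1 := by
    unfold x2; exact one_div_mul_cancel hlp.ne'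
  have hx216 : x2 A ξ ≤ 1 / 16 := by
    unfold x2
    apply one_div_le_one_div_of_le (by norm_num) hl.le
  have hξx2 : ξ ≤ x2 A ξ := by
    unfold x2
    rw [le_div_iff₀ hlp]
    rw [pow_one] at h4
    exact h4.le
  set r := x2 A ξ / ξ with hr
  have hr0 : 0 < r := by positivity
  have hr1 : r ≤ ξ⁻¹ := by
    rw [hr, div_eq_mul_inv]
    calc x2 A ξ * ξ⁻¹ ≤ 1 * ξ⁻¹ := by
          apply mul_le_mul_of_nonneg_right (by linarith) (by positivity)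
      _ = ξ⁻¹ := one_mul _
  have hx0 : (x0 ξ)⁻¹ = 4 / ξ ^ 3 := by
    unfold x0; rw [inv_div]
  refine ⟨ξ, h1, h2, h3.le, hξx2, hx216, ?_, ?_⟩
  · have hsplit : r ^ (lam ^ 2) = r ^ ((lam - 1) ^ 2) * r ^ (2 * K + 5) := by
      rw [← pow_add]; congr 1
      subst hlam
      rw [show K + 3 - 1 = K + 2 by omega]; ring
    rw [hsplit]
    have hkey : CU * (x0 ξ)⁻¹ ≤ cL * ξ ^ (2 * K + 1) * r ^ (2 * K + 5) := by
      rw [hx0, hr, div_pow]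
      have h8 : cL * ξ ^ (2 * K + 1) * (x2 A ξ ^ (2 * K + 5) / ξ ^ (2 * K + 5)) =
          cL * x2 A ξ ^ (2 * K + 5) / ξ ^ 4 := by
        have : ξ ^ (2 * K + 5) = ξ ^ (2 * K + 1) * ξ ^ 4 := by rw [← pow_add]
        rw [this]; field_simp
      rw [h8]
      rw [show CU * (4 / ξ ^ 3) = 4 * CU * ξ / ξ ^ 4 by field_simp]
      apply div_le_div_of_nonneg_right _ (by positivity)
      have h9 : 4 * CU * ξ = 4 * CU * (ξ * (A * Real.log (1 / ξ)) ^ (2 * K + 5)) *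
          x2 A ξ ^ (2 * K + 5) := by
        have : (A * Real.log (1 / ξ)) ^ (2 * K + 5) * x2 A ξ ^ (2 * K + 5) = 1 := by
          rw [← mul_pow, mul_comm, hx2', one_pow]
        calc 4 * CU * ξ = 4 * CU * ξ * ((A * Real.log (1 / ξ)) ^ (2 * K + 5) * x2 A ξ ^ (2 * K + 5)) := by
              rw [this, mul_one]
          _ = _ := by ring
      rw [h9]
      exact mul_le_mul_of_nonneg_right h5.le (by positivity)
    calc CU * (x0 ξ)⁻¹ * r ^ ((lam - 1) ^ 2) ≤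
          (cL * ξ ^ (2 * K + 1) * r ^ (2 * K + 5)) * r ^ ((lam - 1) ^ 2) :=
        mul_le_mul_of_nonneg_right hkey (by positivity)
      _ = _ := by ring
  · have hsplit : r ^ ((lam + 1) ^ 2) = r ^ (lam ^ 2) * r ^ (2 * K + 7) := by
      rw [← pow_add]; congr 1
      subst hlam; ring
    rw [hsplit]
    have hkey : CD * (ξ ^ 3) ^ (2 * k) * (x0 ξ)⁻¹ * r ^ (2 * K + 7) ≤ cL * ξ ^ (2 * K + 1) := by
      obtain ⟨j, hj⟩ := Nat.exists_eq_add_of_le hk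
      have h10 : (ξ ^ 3) ^ (2 * k) = ξ ^ j * (ξ * ξ ^ (2 * K + 1) * (ξ ^ 3 * ξ ^ (2 * K + 7))) := by
        rw [← pow_mul]
        rw [show 3 * (2 * k) = 6 * k by ring, hj]
        ring
      have h11 : (ξ ^ 3) ^ (2 * k) * (x0 ξ)⁻¹ * r ^ (2 * K + 7) ≤ 4 * ξ * ξ ^ (2 * K + 1) := by
        calc (ξ ^ 3) ^ (2 * k) * (x0 ξ)⁻¹ * r ^ (2 * K + 7)
            ≤ (ξ ^ 3) ^ (2 * k) * (x0 ξ)⁻¹ * (ξ⁻¹) ^ (2 * K + 7) := by
              apply mul_le_mul_of_nonneg_left (pow_le_pow_left₀ hr0.le hr1 _)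
              rw [hx0]; positivity
          _ = 4 * (ξ ^ j) * ξ * ξ ^ (2 * K + 1) := by
              rw [h10, hx0, inv_pow]; field_simp
          _ ≤ 4 * 1 * ξ * ξ ^ (2 * K + 1) := by
              have : ξ ^ j ≤ 1 := pow_le_one₀ h1.le (by linarith)
              have h12 : 0 ≤ ξ * ξ ^ (2 * K + 1) := by positivity
              nlinarith
          _ = _ := by ring
      calc CD * (ξ ^ 3) ^ (2 * k) * (x0 ξ)⁻¹ * r ^ (2 * K + 7)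
          = CD * ((ξ ^ 3) ^ (2 * k) * (x0 ξ)⁻¹ * r ^ (2 * K + 7)) := by ring
        _ ≤ CD * (4 * ξ * ξ ^ (2 * K + 1)) := mul_le_mul_of_nonneg_left h11 hCD
        _ = (4 * CD * ξ) * ξ ^ (2 * K + 1) := by ring
        _ ≤ cL * ξ ^ (2 * K + 1) := mul_le_mul_of_nonneg_right h6.le (by positivity)
    calc CD * (ξ ^ 3) ^ (2 * k) * (x0 ξ)⁻¹ * (r ^ (lam ^ 2) * r ^ (2 * K + 7)) =
          (CD * (ξ ^ 3) ^ (2 * k) * (x0 ξ)⁻¹ * r ^ (2 * K + 7)) * r ^ (lam ^ 2) := by ring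
      _ ≤ (cL * ξ ^ (2 * K + 1)) * r ^ (lam ^ 2) :=
        mul_le_mul_of_nonneg_right hkey (by positivity)

end Pool.Agent.RAux
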