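import Mathlib
import Pool.Agent.RAux.Defs
import Pool.Agent.RAux.NtLo
import Pool.Agent.RAux.NtUp
import Pool.Agent.RAux.NtDd
import Pool.Agent.RAux.Nt4
import Pool.Agent.RAux.Nt2
import Pool.Agent.RAux.NtQ
import Pool.Agent.RAux.Holder
import Pool.Agent.RAux.Lengths
import Pool.Agent.RAux.Param

/-!
The number theoretic core: `D` is not dominated by the `G_ν` on a set of positive density.
-/

set_option autoImplicit false

open Complex MeasureTheory Filter Topology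

namespace Pool.Agent.RAux

lemma DP_cont' (f : ArithmeticFunction ℂ) (x : ℝ) (hf : ∀ m : ℕ, x < m → f m = 0) :
    Continuous (DP f) := by
  apply DP_continuous f ⌊max x 0⌋₊
  intro m hm
  apply hf
  rw [Nat.floor_lt (le_max_right _ _)] at hm
  exact lt_of_le_of_lt (le_max_left _ _) hm

lemma DP_mul' (f g : ArithmeticFunction ℂ) (x y : ℝ) (hf : ∀ m : ℕ, x < m → f m = 0)
    (hg : ∀ m : ℕ, y < m → g m = 0) (t : ℝ) : DP (f * g) t = DP f t * DP g t := by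
  apply DP_mul f g ⌊max x 0⌋₊ ⌊max y 0⌋₊
  · intro m hm
    apply hf
    rw [Nat.floor_lt (le_max_right _ _)] at hm
    exact lt_of_le_of_lt (le_max_left _ _) hm
  · intro m hm
    apply hg
    rw [Nat.floor_lt (le_max_right _ _)] at hm
    exact lt_of_le_of_lt (le_max_left _ _) hm

lemma DP_arP (h : ℝ → ℝ) (N : ℕ) (L t : ℝ) :
    DP (arP h N L) t = ∑ n ∈ Finset.Icc 1 N, ((h (yv N L n) : ℝ) : ℂ) *
      (n : ℂ) ^ (-(1 / 2 + (t : ℂ) * Complex.I)) := by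
  rw [DP_eq_sum _ N (arP_supp h N L)]
  apply Finset.sum_congr rfl
  intro n hn
  rw [Finset.mem_Icc] at hn
  rw [arP_apply, if_neg (by omega), if_pos hn.2]

lemma supp_nat {f : ArithmeticFunction ℂ} {X : ℕ} (hf : ∀ m : ℕ, (X : ℝ) < m → f m = 0) :
    ∀ m, X < m → f m = 0 := fun m hm => hf m (by exact_mod_cast hm)

/-- Eventually (in `N`) small error. -/
lemma err_small (ε' c : ℝ) (hε' : 0 < ε') (hc : 0 < c) :
    ∀ᶠ N : ℕ in atTop, ((N : ℝ) ^ (-ε')) ^ 2 * Real.log N ≤ c := by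
  have h1 : Tendsto (fun x : ℝ => Real.log x / x ^ (2 * ε')) atTop (𝓝 0) :=
    (isLittleO_log_rpow_atTop (by positivity)).tendsto_div_nhds_zero
  have h2 := (h1.comp tendsto_natCast_atTop_atTop).eventually_le_const hc
  filter_upwards [h2, eventually_ge_atTop 1] with N hN hN1
  have hN0 : (0 : ℝ) < N := by exact_mod_cast hN1
  simp only [Function.comp] at hN
  rw [← Real.rpow_natCast, ← Real.rpow_mul hN0.le]
  rw [show -ε' * ((2 : ℕ) : ℝ) = -(2 * ε') by push_cast; ring, Real.rpow_neg hN0.le]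
  rw [div_eq_mul_inv] at hN
  linarith [mul_comm (Real.log N) ((N : ℝ) ^ (2 * ε'))⁻¹]

theorem nt_core (K k lam K' K₁ : ℕ) (hlam : lam = K + 3) (hk : 4 * K + 12 ≤ 6 * k)
    (hkK : k + 5 ≤ K) (hK17 : 17 ≤ K) (hK' : 4 * lam + 6 ≤ K') (hK₁ : 4 * lam + 6 ≤ K₁)
    (a C₁ : ℝ) (ha : 0 < a) (hC₁ : 0 < C₁) :
    ∃ ε p : ℝ, 0 < ε ∧ ε < 1 ∧ 0 < p ∧ ∀ ε' : ℝ, 0 < ε' → ∃ N₁ : ℕ, ∀ N : ℕ, N₁ ≤ N →
      ∀ L : ℝ, |L - 2 * Real.log N| ≤ 3 → ∀ t₀ H : ℝ, (N : ℝ) ^ (2 - ε) ≤ H →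
        ENNReal.ofReal (p * H) ≤ volume {t : ℝ | t ∈ Set.Icc t₀ (t₀ + H) ∧
          C₁ * (∑ ν ∈ Finset.range (K' + 1), ‖DP (arP (psi a ν (K' + ν)) N L) t‖) +
            (N : ℝ) ^ (-ε') < ‖DP (arP (psi a (-1) K) N L) t‖} := by
  set A : ℝ := 4 * (3 * (lam : ℝ) + 1) ^ 2 with hAdef
  have hA1 : 1 ≤ A := by
    have : (0 : ℝ) ≤ lam := by positivity
    nlinarith
  obtain ⟨cL, hcL, ξL, hξL0, hξL1, hlo⟩ :=
    nt_lo a ha K K₁ lam (by omega) (by omega) A le_rfl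
  have hup0 : ∀ ν : ℕ, _ := fun ν => nt_up a ha K' K₁ lam ν hK' hK₁ (by omega) A le_rfl
  choose CU hCU0 ξU hξU0 hξU1 hup using hup0
  obtain ⟨CD, hCD0, ξD, hξD0, hξD1, hdd⟩ :=
    nt_dd a ha K k K₁ lam hkK (by omega) (by omega) A le_rfl
  set CUs : ℝ := ∑ ν ∈ Finset.range (K' + 1), CU ν with hCUs
  have hCUs0 : 0 ≤ CUs := Finset.sum_nonneg (fun ν _ => hCU0 ν)
  -- a common threshold for ξ
  have hξU' : ∃ ξ₂ : ℝ, 0 < ξ₂ ∧ ∀ ν ∈ Finset.range (K' + 1), ξ₂ ≤ ξU ν := by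
    refine ⟨(Finset.range (K' + 1)).inf' ⟨0, by simp⟩ ξU, ?_, ?_⟩
    · rw [Finset.lt_inf'_iff]
      exact fun ν _ => hξU0 ν
    · intro ν hν
      exact Finset.inf'_le _ hν
  obtain ⟨ξ₂, hξ₂0, hξ₂⟩ := hξU'
  obtain ⟨ξ, hξ0, hξlt, hξ4, hξx2, hx216, hp1, hp2⟩ :=
    param_exists K k lam hlam hk A cL (48 * C₁ ^ 2 * (K' + 1) * CUs) (48 * CD)
      (min (min ξL ξD) ξ₂) hA1 hcL (by positivity) (by positivity)
      (lt_min (lt_min hξL0 hξD0) hξ₂0)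
  have hξL : ξ < ξL := hξlt.trans_le ((min_le_left _ _).trans (min_le_left _ _))
  have hξD : ξ < ξD := hξlt.trans_le ((min_le_left _ _).trans (min_le_right _ _))
  have hξU : ∀ ν ∈ Finset.range (K' + 1), ξ < ξU ν :=
    fun ν hν => hξlt.trans_le ((min_le_right _ _).trans (hξ₂ ν hν))
  have hξ1 : ξ < 1 := by linarith
  have hx2pos : 0 < x2 A ξ := lt_of_lt_of_le hξ0 hξx2
  obtain ⟨C4, hC4, N4, h4⟩ := nt_4 a ha K k K₁ hK17 (by omega) ξ hξ0 hξ1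
  obtain ⟨C2, hC2, N2, h2⟩ := nt_2 a ha K k K₁ lam (by omega) (by omega) A ξ hA1 hξ0 hξ1 hξx2
    (by linarith)
  obtain ⟨CQ, hCQ, NQ, hQ⟩ := nt_Q K₁ lam A ξ hA1 hξ0 hξ1 hξx2 (by linarith)
  obtain ⟨Nlo, hlo⟩ := hlo ξ hξ0 hξL
  obtain ⟨ND, hdd⟩ := hdd ξ hξ0 hξD
  have hupe : ∀ᶠ N : ℕ in atTop, ∀ ν ∈ Finset.range (K' + 1), ∀ L : ℝ,
      |L - 2 * Real.log N| ≤ 3 → ∀ X : ℕ,
        M2 (arP (psi a ν (K' + ν)) N L * QQ K₁ lam A ξ L) X ≤
          CU ν * (x0 ξ)⁻¹ * (x2 A ξ / ξ) ^ ((lam - 1) ^ 2) := by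
    rw [Filter.eventually_all_finset]
    intro ν hν
    obtain ⟨Nν, hν'⟩ := hup ν ξ hξ0 (hξU ν hν)
    filter_upwards [eventually_ge_atTop Nν] with N hN
    exact hν' N hN
  set η : ℝ := ξ ^ 3 with hη
  have hη0 : 0 < η := by positivity
  have hη1 : η ≤ 1 / 64 := by
    calc η = ξ ^ 3 := rfl
      _ ≤ (1 / 4) ^ 3 := pow_le_pow_left₀ hξ0.le hξ4 3
      _ = 1 / 64 := by norm_num
  obtain ⟨Ns, hsz⟩ := sizes η hη0 hη1
  set r : ℝ := x2 A ξ / ξ with hr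
  have hr0 : 0 < r := by positivity
  set l : ℝ := cL / 2 * ξ ^ (2 * K + 1) * r ^ (lam ^ 2) with hl
  have hl0 : 0 < l := by positivity
  have hx00 : 0 < (x0 ξ)⁻¹ := by unfold x0; positivity
  refine ⟨η, (l / 4) ^ 4 / ((3 / 2 * C2) ^ 2 * (3 / 2 * C4)), hη0, by linarith, by positivity, ?_⟩
  intro ε' hε'
  have herr := err_small ε' (l / (72 * CQ)) hε' (by positivity)
  have hev : ∀ᶠ N : ℕ in atTop, N4 ≤ N ∧ N2 ≤ N ∧ NQ ≤ N ∧ Nlo ≤ N ∧ ND ≤ N ∧ Ns ≤ N ∧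
      ((N : ℝ) ^ (-ε')) ^ 2 * Real.log N ≤ l / (72 * CQ) ∧
      ∀ ν ∈ Finset.range (K' + 1), ∀ L : ℝ,
      |L - 2 * Real.log N| ≤ 3 → ∀ X : ℕ,
        M2 (arP (psi a ν (K' + ν)) N L * QQ K₁ lam A ξ L) X ≤
          CU ν * (x0 ξ)⁻¹ * (x2 A ξ / ξ) ^ ((lam - 1) ^ 2) := by
    filter_upwards [eventually_ge_atTop N4, eventually_ge_atTop N2, eventually_ge_atTop NQ,
      eventually_ge_atTop Nlo, eventually_ge_atTop ND, eventually_ge_atTop Ns, herr, hupe]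
      with N a1 a2 a3 a4 a5 a6 a7 a8
    exact ⟨a1, a2, a3, a4, a5, a6, a7, a8⟩
  obtain ⟨N₁, hN₁⟩ := eventually_atTop.mp hev
  refine ⟨N₁, fun N hN L hL t₀ H hH => ?_⟩
  obtain ⟨g4, g2, gQ, glo, gD, gs, gerr, gup⟩ := hN₁ N hN
  obtain ⟨hN1, hX1, hX2, hlogN, hszL⟩ := hsz N gs
  obtain ⟨hLN, hL3, hL0, hlen1, hlen2⟩ := hszL L hL
  set X := XX N η with hX
  have hNpos : (0 : ℝ) < N := by exact_mod_cast hN1
  have hH0 : 0 < H := lt_of_lt_of_le (by positivity) hH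
  have hXH : 8 * (X : ℝ) * (1 + Real.log X) ≤ H := hX1.trans hH
  -- supports
  have sarP : ∀ h : ℝ → ℝ, ∀ m : ℕ, (N : ℝ) < m → arP h N L m = 0 := fun h => arP_len h N L
  have smoll := moll_len K₁ ξ L hL0 hξ0
  have sqf := qf_len lam A ξ L hL0 hx2pos
  have sdpr := dpr_len a K k η hη0 N L hL0 hN1
  have sQQ : ∀ m : ℕ, Real.exp (η / 4 * L) * Real.exp (L / 8) < m →
      QQ K₁ lam A ξ L m = 0 :=
    conv_supp_real _ _ _ _ _ (by positivity) (by positivity) smoll sqf le_rfl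
  have e8 : 1 ≤ Real.exp (L / 8) := Real.one_le_exp (by positivity)
  have eN : (1 : ℝ) ≤ N := by exact_mod_cast hN1
  have sD : ∀ h : ℝ → ℝ, ∀ m : ℕ, (X : ℝ) < m → (arP h N L * QQ K₁ lam A ξ L) m = 0 := by
    intro h
    refine conv_supp_real _ _ _ _ _ (by positivity) (by positivity) (sarP h) sQQ ?_
    refine le_trans ?_ hlen2
    calc (N : ℝ) * (Real.exp (η / 4 * L) * Real.exp (L / 8))
        = (N : ℝ) * Real.exp (η / 4 * L) * Real.exp (L / 8) * 1 := by ring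
      _ ≤ _ := mul_le_mul_of_nonneg_left e8 (by positivity)
  have sQQX : ∀ m : ℕ, (X : ℝ) < m → QQ K₁ lam A ξ L m = 0 := by
    intro m hm
    apply sQQ
    refine lt_of_le_of_lt ?_ hm
    refine le_trans ?_ hlen2
    calc Real.exp (η / 4 * L) * Real.exp (L / 8)
        = 1 * Real.exp (η / 4 * L) * Real.exp (L / 8) * 1 := by ring
      _ ≤ (N : ℝ) * Real.exp (η / 4 * L) * Real.exp (L / 8) * Real.exp (L / 8) := by
        gcongr
  have sD1M : ∀ m : ℕ, (N : ℝ) * Real.exp (-(η * L)) * Real.exp (η / 4 * L) < m →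
      (arP (dpr a K k η) N L * moll K₁ (x0 ξ * L)) m = 0 :=
    conv_supp_real _ _ _ _ _ (by positivity) (by positivity) sdpr smoll le_rfl
  have s4 : ∀ m : ℕ, (X : ℝ) < m → ((arP (dpr a K k η) N L * moll K₁ (x0 ξ * L)) *
      (arP (dpr a K k η) N L * moll K₁ (x0 ξ * L))) m = 0 := by
    refine conv_supp_real _ _ _ _ _ (by positivity) (by positivity) sD1M sD1M ?_
    rw [← sq]
    exact hlen1
  have sMN : ∀ m : ℕ, (N : ℝ) * Real.exp (η / 4 * L) < m →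
      (arP (dpr a K k η) N L * moll K₁ (x0 ξ * L)) m = 0 :=
    conv_supp_real _ _ _ _ _ (by positivity) (by positivity) (sarP _) smoll le_rfl
  have s2a : ∀ m : ℕ, (N : ℝ) * Real.exp (η / 4 * L) * Real.exp (L / 8) < m →
      (arP (dpr a K k η) N L * moll K₁ (x0 ξ * L) *
        qf lam (ξ * L) (x2 A ξ * L) (dmx A ξ)) m = 0 :=
    conv_supp_real _ _ _ _ _ (by positivity) (by positivity) sMN sqf le_rfl
  have s2 : ∀ m : ℕ, (X : ℝ) < m → (arP (dpr a K k η) N L * moll K₁ (x0 ξ * L) *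
        qf lam (ξ * L) (x2 A ξ * L) (dmx A ξ) * qf lam (ξ * L) (x2 A ξ * L) (dmx A ξ)) m = 0 :=
    conv_supp_real _ _ _ _ _ (by positivity) (by positivity) s2a sqf hlen2
  -- the functions
  set D : ℝ → ℂ := DP (arP (psi a (-1) K) N L) with hDdef
  set D1 : ℝ → ℂ := DP (arP (dpr a K k η) N L) with hD1def
  set D2 : ℝ → ℂ := DP (arP (ddif a K k η) N L) with hD2def
  set M : ℝ → ℂ := DP (moll K₁ (x0 ξ * L)) with hMdef
  set q : ℝ → ℂ := DP (qf lam (ξ * L) (x2 A ξ * L) (dmx A ξ)) with hqdef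
  set G : ℝ → ℝ := fun t => ∑ ν ∈ Finset.range (K' + 1), ‖DP (arP (psi a ν (K' + ν)) N L) t‖
    with hGdef
  have cD1 : Continuous D1 := DP_cont' _ _ (sarP _)
  have cD2 : Continuous D2 := DP_cont' _ _ (sarP _)
  have cM : Continuous M := DP_cont' _ _ smoll
  have cq : Continuous q := DP_cont' _ _ sqf
  have cG : Continuous G := by
    apply continuous_finset_sum
    intro ν _
    exact (DP_cont' _ _ (sarP _)).norm
  have hGnn : ∀ t, 0 ≤ G t := fun t => Finset.sum_nonneg (fun ν _ => norm_nonneg _)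
  have hDsum : ∀ t, D t = D1 t + D2 t := by
    intro t
    simp only [hDdef, hD1def, hD2def, DP_arP]
    rw [← Finset.sum_add_distrib]
    apply Finset.sum_congr rfl
    intro n _
    rw [← add_mul]
    congr 1
    rw [← Complex.ofReal_add]
    congr 1
    unfold dpr
    ring
  have hprod : ∀ (h : ℝ → ℝ) (t : ℝ), DP (arP h N L * QQ K₁ lam A ξ L) t =
      DP (arP h N L) t * M t * q t := by
    intro h t
    rw [DP_mul' _ _ _ _ (sarP h) sQQ, mul_assoc]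
    congr 1
    exact DP_mul' _ _ _ _ smoll sqf t
  have hQprod : ∀ t, DP (QQ K₁ lam A ξ L) t = M t * q t := fun t => DP_mul' _ _ _ _ smoll sqf t
  -- h1
  have h1 : l * H ≤ ∫ t in t₀..(t₀ + H), ‖D t * M t * q t‖ ^ 2 := by
    have hm := (mv_both _ X (supp_nat (sD (psi a (-1) K))) t₀ H hH0.le hXH).1
    have hm2 := hlo N glo L hL X hX2
    have : (fun t => ‖DP (arP (psi a (-1) K) N L * QQ K₁ lam A ξ L) t‖ ^ 2) =
        fun t => ‖D t * M t * q t‖ ^ 2 := by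
      funext t; rw [hprod]
    rw [this] at hm
    calc l * H = H / 2 * (cL * ξ ^ (2 * K + 1) * r ^ (lam ^ 2)) := by rw [hl]; ring
      _ ≤ H / 2 * M2 (arP (psi a (-1) K) N L * QQ K₁ lam A ξ L) X :=
        mul_le_mul_of_nonneg_left hm2 (by positivity)
      _ ≤ _ := hm
  -- h2
  have h2' : ∫ t in t₀..(t₀ + H), (G t * ‖M t * q t‖) ^ 2 ≤
      ((K' + 1) * (3 / 2) * CUs * (x0 ξ)⁻¹ * r ^ ((lam - 1) ^ 2)) * H := by
    have hle : ∀ t, (G t * ‖M t * q t‖) ^ 2 ≤ (K' + 1) * ∑ ν ∈ Finset.range (K' + 1),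
        ‖DP (arP (psi a ν (K' + ν)) N L * QQ K₁ lam A ξ L) t‖ ^ 2 := by
      intro t
      have hcs : (G t) ^ 2 ≤ (K' + 1) * ∑ ν ∈ Finset.range (K' + 1),
          ‖DP (arP (psi a ν (K' + ν)) N L) t‖ ^ 2 := by
        have := sq_sum_le_card_mul_sum_sq (s := Finset.range (K' + 1))
          (f := fun ν : ℕ => ‖DP (arP (psi a ν (K' + ν)) N L) t‖)
        rw [Finset.card_range] at this
        push_cast at this
        exact this
      rw [mul_pow]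
      calc (G t) ^ 2 * ‖M t * q t‖ ^ 2 ≤ ((K' + 1) * ∑ ν ∈ Finset.range (K' + 1),
          ‖DP (arP (psi a ν (K' + ν)) N L) t‖ ^ 2) * ‖M t * q t‖ ^ 2 :=
            mul_le_mul_of_nonneg_right hcs (by positivity)
        _ = (K' + 1) * ∑ ν ∈ Finset.range (K' + 1),
            ‖DP (arP (psi a ν (K' + ν)) N L * QQ K₁ lam A ξ L) t‖ ^ 2 := by
          rw [mul_assoc ((K' : ℝ) + 1) _ _, Finset.sum_mul]
          refine congrArg (fun x => ((K' : ℝ) + 1) * x) ?_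
          apply Finset.sum_congr rfl
          intro ν _
          rw [hprod]
          simp only [norm_mul]
          ring
    have hcont : ∀ ν : ℕ, Continuous (fun t =>
        ‖DP (arP (psi a ν (K' + ν)) N L * QQ K₁ lam A ξ L) t‖ ^ 2) := by
      intro ν
      exact (DP_cont' _ _ (sD _)).norm.pow 2
    calc ∫ t in t₀..(t₀ + H), (G t * ‖M t * q t‖) ^ 2
        ≤ ∫ t in t₀..(t₀ + H), (K' + 1) * ∑ ν ∈ Finset.range (K' + 1),
          ‖DP (arP (psi a ν (K' + ν)) N L * QQ K₁ lam A ξ L) t‖ ^ 2 := by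
          apply intervalIntegral.integral_mono (by linarith)
          · exact ((cG.mul (cM.mul cq).norm).pow 2).intervalIntegrable _ _
          · exact (continuous_const.mul (continuous_finset_sum _
              (fun ν _ => hcont ν))).intervalIntegrable _ _
          · exact hle
      _ = (K' + 1) * ∑ ν ∈ Finset.range (K' + 1), ∫ t in t₀..(t₀ + H),
          ‖DP (arP (psi a ν (K' + ν)) N L * QQ K₁ lam A ξ L) t‖ ^ 2 := by
          rw [intervalIntegral.integral_const_mul, intervalIntegral.integral_finset_sum]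
          intro ν _
          exact (hcont ν).intervalIntegrable _ _
      _ ≤ (K' + 1) * ∑ ν ∈ Finset.range (K' + 1),
          3 / 2 * H * (CU ν * (x0 ξ)⁻¹ * r ^ ((lam - 1) ^ 2)) := by
          apply mul_le_mul_of_nonneg_left _ (by positivity)
          apply Finset.sum_le_sum
          intro ν hν
          refine (mv_both _ X (supp_nat (sD _)) t₀ H hH0.le hXH).2.trans ?_
          exact mul_le_mul_of_nonneg_left (gup ν hν L hL X) (by positivity)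
      _ = _ := by
          rw [hCUs, ← Finset.mul_sum, ← Finset.sum_mul, ← Finset.sum_mul]
          ring
  -- h3
  have h3' : ∫ t in t₀..(t₀ + H), ‖D2 t * M t * q t‖ ^ 2 ≤
      (3 / 2 * (CD * η ^ (2 * k) * (x0 ξ)⁻¹ * r ^ ((lam + 1) ^ 2))) * H := by
    have hm := (mv_both _ X (supp_nat (sD (ddif a K k η))) t₀ H hH0.le hXH).2
    have : (fun t => ‖DP (arP (ddif a K k η) N L * QQ K₁ lam A ξ L) t‖ ^ 2) =
        fun t => ‖D2 t * M t * q t‖ ^ 2 := by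
      funext t; rw [hprod]
    rw [this] at hm
    refine hm.trans ?_
    calc 3 / 2 * H * M2 (arP (ddif a K k η) N L * QQ K₁ lam A ξ L) X
        ≤ 3 / 2 * H * (CD * η ^ (2 * k) * (x0 ξ)⁻¹ * r ^ ((lam + 1) ^ 2)) :=
          mul_le_mul_of_nonneg_left (hdd N gD L hL X) (by positivity)
      _ = _ := by ring
  -- h4
  have h4' : ∫ t in t₀..(t₀ + H), ‖M t * q t‖ ^ 2 ≤ (3 / 2 * (CQ * L)) * H := by
    have hm := (mv_both _ X (supp_nat sQQX) t₀ H hH0.le hXH).2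
    have : (fun t => ‖DP (QQ K₁ lam A ξ L) t‖ ^ 2) = fun t => ‖M t * q t‖ ^ 2 := by
      funext t; rw [hQprod]
    rw [this] at hm
    refine hm.trans ?_
    calc 3 / 2 * H * M2 (QQ K₁ lam A ξ L) X
        ≤ 3 / 2 * H * (CQ * L) := mul_le_mul_of_nonneg_left (hQ N gQ L hL X) (by positivity)
      _ = _ := by ring
  -- h5
  have h5' : ∫ t in t₀..(t₀ + H), ‖D1 t * M t‖ ^ 4 ≤ (3 / 2 * C4) * H := by
    have hm := (mv_both _ X (supp_nat s4) t₀ H hH0.le hXH).2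
    have : (fun t => ‖DP ((arP (dpr a K k η) N L * moll K₁ (x0 ξ * L)) *
      (arP (dpr a K k η) N L * moll K₁ (x0 ξ * L))) t‖ ^ 2) = fun t => ‖D1 t * M t‖ ^ 4 := by
      funext t
      rw [DP_mul' _ _ _ _ sD1M sD1M, DP_mul' _ _ _ _ (sarP _) smoll, norm_mul (_ * _)]
      ring
    rw [this] at hm
    refine hm.trans ?_
    calc 3 / 2 * H * M2 _ X ≤ 3 / 2 * H * C4 :=
          mul_le_mul_of_nonneg_left (h4 N g4 L hL X) (by positivity)
      _ = _ := by ring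
  -- h6
  have h6' : ∫ t in t₀..(t₀ + H), ‖D1 t * M t * q t * q t‖ ^ 2 ≤ (3 / 2 * C2) * H := by
    have hm := (mv_both _ X (supp_nat s2) t₀ H hH0.le hXH).2
    have : (fun t => ‖DP (arP (dpr a K k η) N L * moll K₁ (x0 ξ * L) *
        qf lam (ξ * L) (x2 A ξ * L) (dmx A ξ) * qf lam (ξ * L) (x2 A ξ * L) (dmx A ξ)) t‖ ^ 2) =
        fun t => ‖D1 t * M t * q t * q t‖ ^ 2 := by
      funext t
      rw [DP_mul' _ _ _ _ s2a sqf, DP_mul' _ _ _ _ sMN sqf, DP_mul' _ _ _ _ (sarP _) smoll]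
    rw [this] at hm
    refine hm.trans ?_
    calc 3 / 2 * H * M2 _ X ≤ 3 / 2 * H * C2 :=
          mul_le_mul_of_nonneg_left (h2 N g2 L hL X) (by positivity)
      _ = _ := by ring
  have he0 : 0 ≤ (N : ℝ) ^ (-ε') := by positivity
  have hsmall : 2 * C₁ ^ 2 * ((K' + 1) * (3 / 2) * CUs * (x0 ξ)⁻¹ * r ^ ((lam - 1) ^ 2)) +
      2 * ((N : ℝ) ^ (-ε')) ^ 2 * (3 / 2 * (CQ * L)) +
      2 * (3 / 2 * (CD * η ^ (2 * k) * (x0 ξ)⁻¹ * r ^ ((lam + 1) ^ 2))) ≤ l / 2 := by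
    have e1 : 2 * C₁ ^ 2 * ((K' + 1) * (3 / 2) * CUs * (x0 ξ)⁻¹ * r ^ ((lam - 1) ^ 2)) ≤ l / 8 := by
      rw [hl]
      linarith [hp1]
    have e2 : 2 * (3 / 2 * (CD * η ^ (2 * k) * (x0 ξ)⁻¹ * r ^ ((lam + 1) ^ 2))) ≤ l / 8 := by
      rw [hl]
      linarith [hp2]
    have e3 : 2 * ((N : ℝ) ^ (-ε')) ^ 2 * (3 / 2 * (CQ * L)) ≤ l / 8 := by
      calc 2 * ((N : ℝ) ^ (-ε')) ^ 2 * (3 / 2 * (CQ * L))
          ≤ 2 * ((N : ℝ) ^ (-ε')) ^ 2 * (3 / 2 * (CQ * (3 * Real.log N))) := by gcongr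
        _ = 9 * CQ * (((N : ℝ) ^ (-ε')) ^ 2 * Real.log N) := by ring
        _ ≤ 9 * CQ * (l / (72 * CQ)) := mul_le_mul_of_nonneg_left gerr (by positivity)
        _ = l / 8 := by field_simp; norm_num
    linarith
  have hfin := abstract_pz t₀ H hH0 D D1 D2 M q G cD1 cD2 cM cq cG hGnn hDsum C₁
    ((N : ℝ) ^ (-ε')) l _ _ _ (3 / 2 * C4) (3 / 2 * C2) hC₁.le he0 hl0 (by positivity)
    (by positivity) h1 h2' h3' h4' h5' h6' hsmall
  exact hfin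

theorem nt_main : ∃ K K' : ℕ, K + 1 ≤ K' ∧ ∀ a C₁ : ℝ, 0 < a → 0 < C₁ →
    ∃ ε p : ℝ, 0 < ε ∧ ε < 1 ∧ 0 < p ∧ ∀ ε' : ℝ, 0 < ε' → ∃ N₁ : ℕ, ∀ N : ℕ, N₁ ≤ N →
      ∀ L : ℝ, |L - 2 * Real.log N| ≤ 3 → ∀ t₀ H : ℝ, (N : ℝ) ^ (2 - ε) ≤ H →
        ENNReal.ofReal (p * H) ≤ volume {t : ℝ | t ∈ Set.Icc t₀ (t₀ + H) ∧
          C₁ * (∑ ν ∈ Finset.range (K' + 1), ‖DP (arP (psi a ν (K' + ν)) N L) t‖) +
            (N : ℝ) ^ (-ε') < ‖DP (arP (psi a (-1) K) N L) t‖} := by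
  refine ⟨40, 200, by norm_num, fun a C₁ ha hC₁ => ?_⟩
  exact nt_core 40 35 43 200 200 (by norm_num) (by norm_num) (by norm_num) (by norm_num)
    (by norm_num) (by norm_num) a C₁ ha hC₁

end Pool.Agent.RAux
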