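import Mathlib
import Pool.Agent.RAux.Defs

/-!
The exponent on a slope one line.
-/

set_option autoImplicit false

open Complex MeasureTheory Filter Topology

namespace Pool.Agent.RAux

theorem sd_re (c v : ℝ) : ((c : ℂ) + (v : ℂ) * (1 + Complex.I)).re = c + v := by simp

theorem sd_im (c v : ℝ) : ((c : ℂ) + (v : ℂ) * (1 + Complex.I)).im = v := by simp

theorem sd_normsq (c v : ℝ) : ‖(c : ℂ) + (v : ℂ) * (1 + Complex.I)‖ ^ 2 = (c + v) ^ 2 + v ^ 2 := by
  rw [← Complex.normSq_eq_norm_sq, Complex.normSq_apply, sd_re, sd_im]; ring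

/-- `v ≥ 0`. -/
theorem sd_arg_pos (c v : ℝ) (hc : 0 < c) (hv : 0 ≤ v) :
    Complex.arg ((c : ℂ) + (v : ℂ) * (1 + Complex.I)) ≤ v / (c + v) := by
  set x : ℂ := (c : ℂ) + (v : ℂ) * (1 + Complex.I) with hx
  have hre : x.re = c + v := sd_re c v
  have him : x.im = v := sd_im c v
  have h0 : 0 ≤ Complex.arg x := Complex.arg_nonneg_iff.mpr (by rw [him]; exact hv)
  have h1 : |Complex.arg x| < Real.pi / 2 :=
    Complex.abs_arg_lt_pi_div_two_iff.mpr (Or.inl (by rw [hre]; linarith))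
  have h2 := Real.le_tan h0 (lt_of_le_of_lt (le_abs_self _) h1)
  rw [Complex.tan_arg, hre, him] at h2
  exact h2

/-- `v = -r`, `0 < r < c`. -/
theorem sd_arg_neg (c r : ℝ) (hr : 0 < r) (hrc : r < c) :
    r * (c - r) / ((c - r) ^ 2 + r ^ 2) ≤
      -Complex.arg ((c : ℂ) + ((-r : ℝ) : ℂ) * (1 + Complex.I)) := by
  set x : ℂ := (c : ℂ) + ((-r : ℝ) : ℂ) * (1 + Complex.I) with hx
  have hre : x.re = c + -r := sd_re c (-r)
  have him : x.im = -r := sd_im c (-r)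
  have hn : ‖x‖ ^ 2 = (c + -r) ^ 2 + (-r) ^ 2 := sd_normsq c (-r)
  have hx0 : x ≠ 0 := by
    intro h
    rw [h] at him
    simp at him
    linarith
  have hxp : 0 < ‖x‖ := norm_pos_iff.mpr hx0
  have h0 : Complex.arg x < 0 := Complex.arg_neg_iff.mpr (by rw [him]; linarith)
  have h1 : Real.sin (-Complex.arg x) ≤ -Complex.arg x := Real.sin_le (by linarith)
  rw [Real.sin_neg, Complex.sin_arg, him] at h1
  have h2 : (c - r) / ‖x‖ ≤ 1 := by
    have := Real.cos_le_one (Complex.arg x)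
    rw [Complex.cos_arg hx0, hre] at this
    simpa [sub_eq_add_neg] using this
  have h3 : r * (c - r) / ((c - r) ^ 2 + r ^ 2) = (r / ‖x‖) * ((c - r) / ‖x‖) := by
    rw [div_mul_div_comm, ← sq, hn]
    congr 1
    ring
  rw [h3]
  have h4 : 0 ≤ r / ‖x‖ := by positivity
  calc (r / ‖x‖) * ((c - r) / ‖x‖) ≤ (r / ‖x‖) * 1 := by gcongr
    _ = -(-r / ‖x‖) := by ring
    _ ≤ _ := h1

/-- `v = -r`, `c / 2 ≤ r`. -/
theorem sd_arg_neg' (c r : ℝ) (hr : 0 < r) (hrc : c ≤ 2 * r) :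
    Real.pi / 4 ≤ -Complex.arg ((c : ℂ) + ((-r : ℝ) : ℂ) * (1 + Complex.I)) := by
  set x : ℂ := (c : ℂ) + ((-r : ℝ) : ℂ) * (1 + Complex.I) with hx
  have hre : x.re = c + -r := sd_re c (-r)
  have him : x.im = -r := sd_im c (-r)
  have hx0 : x ≠ 0 := by
    intro h
    rw [h] at him
    simp at him
    linarith
  have hxp : 0 < ‖x‖ := norm_pos_iff.mpr hx0
  have h0 : Complex.arg x < 0 := Complex.arg_neg_iff.mpr (by rw [him]; linarith)
  have hpi := Real.pi_pos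
  by_contra hcon
  push Not at hcon
  set φ : ℝ := -Complex.arg x with hφ
  have hφ0 : 0 ≤ φ := by linarith
  have c1 : Real.cos (Real.pi / 4) < Real.cos φ :=
    Real.cos_lt_cos_of_nonneg_of_le_pi_div_two hφ0 (by linarith) hcon
  have s1 : Real.sin φ < Real.sin (Real.pi / 4) :=
    Real.sin_lt_sin_of_lt_of_le_pi_div_two (by linarith) (by linarith) hcon
  rw [Real.cos_pi_div_four] at c1
  rw [Real.sin_pi_div_four] at s1
  have e1 : Real.cos φ = (c + -r) / ‖x‖ := by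
    rw [hφ, Real.cos_neg, Complex.cos_arg hx0, hre]
  have e2 : Real.sin φ = r / ‖x‖ := by
    rw [hφ, Real.sin_neg, Complex.sin_arg, him]; ring
  have h5 : r / ‖x‖ < (c + -r) / ‖x‖ := by rw [← e1, ← e2]; linarith
  have h6 : r < c + -r := by
    rwa [div_lt_div_iff_of_pos_right hxp] at h5
  linarith

/-- Exponent on the slope one line through `c`, `a = √(t/2π)`, `|a - c| ≤ 1/2`.
For `v ≥ 0`: `arg ≤ v/(c+v)`. For `v = -r < 0`: `|arg| ≥ sin cos = r(c-r)/((c-r)²+r²)` if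
`r ≤ c/2`, `|arg| ≥ π/4` if `c/2 ≤ r`, `|arg| ≥ π/2` if `c ≤ r`. -/
theorem saddle_exponent (a c v : ℝ) (hc : 3 / 2 ≤ c) (hac : |a - c| ≤ 1 / 2) (ha : 1 ≤ a) :
    2 * Real.pi * a ^ 2 * Complex.arg ((c : ℂ) + (v : ℂ) * (1 + Complex.I))
      - 2 * Real.pi * (c + v) * v ≤ -(Real.pi * v ^ 2) + 6 * Real.pi * |v| := by
  have hpi := Real.pi_pos
  obtain ⟨ha1, ha2⟩ := abs_le.mp hac
  set θ : ℝ := Complex.arg ((c : ℂ) + (v : ℂ) * (1 + Complex.I)) with hθ
  suffices h : 2 * a ^ 2 * θ - 2 * (c + v) * v ≤ -(v ^ 2) + 6 * |v| by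
    nlinarith [mul_le_mul_of_nonneg_left h hpi.le]
  rcases le_or_gt 0 v with hv | hv
  · -- `v ≥ 0`
    rw [abs_of_nonneg hv]
    have h1 : θ ≤ v / (c + v) := sd_arg_pos c v (by linarith) hv
    have hcv : 0 < c + v := by linarith
    have h2 : 2 * a ^ 2 * θ ≤ 2 * (c + 1 / 2) ^ 2 * (v / (c + v)) := by
      have : a ^ 2 ≤ (c + 1 / 2) ^ 2 := by
        apply pow_le_pow_left₀ (by linarith); linarith
      have hv0 : 0 ≤ v / (c + v) := by positivity
      calc 2 * a ^ 2 * θ ≤ 2 * a ^ 2 * (v / (c + v)) := by gcongr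
        _ ≤ _ := by gcongr
    have h3 : 2 * (c + 1 / 2) ^ 2 * (v / (c + v)) ≤ 2 * (c + v) * v - v ^ 2 + 6 * v := by
      rw [← mul_div_assoc, div_le_iff₀ hcv]
      nlinarith [mul_nonneg hv hv, mul_nonneg (mul_nonneg hv hv) hv,
        mul_nonneg hv (sub_nonneg.mpr hc), mul_nonneg (mul_nonneg hv hv) (sub_nonneg.mpr hc),
        mul_nonneg hv (sq_nonneg (c - 3 / 2))]
    linarith
  · -- `v < 0`
    obtain ⟨r, hr⟩ : ∃ r : ℝ, v = -r := ⟨-v, by ring⟩
    have hr0 : 0 < r := by linarith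
    rw [abs_of_neg hv]
    subst hr
    have ha0 : (c - 1 / 2) ^ 2 ≤ a ^ 2 := by
      apply pow_le_pow_left₀ (by linarith); linarith
    rcases le_or_gt c (2 * r) with hcr | hcr
    · have h1 : Real.pi / 4 ≤ -θ := sd_arg_neg' c r hr0 hcr
      have h2 : 3 / 4 ≤ -θ := by linarith [Real.pi_gt_three]
      have h3 : 2 * (c - 1 / 2) ^ 2 * (3 / 4) ≤ 2 * a ^ 2 * (-θ) := by
        gcongr
      rcases le_or_gt c 3 with hc3 | hc3
      · have h4 : 0 ≤ 2 * a ^ 2 * (-θ) := by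
          have : 0 ≤ -θ := by linarith
          positivity
        nlinarith [mul_nonneg hr0.le (sub_nonneg.mpr hc3)]
      · nlinarith [sq_nonneg (r - (c - 3))]
    · have h1 : r * (c - r) / ((c - r) ^ 2 + r ^ 2) ≤ -θ := sd_arg_neg c r hr0 (by linarith)
      have hD : 0 < (c - r) ^ 2 + r ^ 2 := by positivity
      have h2 : 2 * (c - 1 / 2) ^ 2 * (r * (c - r) / ((c - r) ^ 2 + r ^ 2)) ≤ 2 * a ^ 2 * (-θ) := by
        have hq : 0 ≤ r * (c - r) / ((c - r) ^ 2 + r ^ 2) := by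
          apply div_nonneg _ hD.le
          apply mul_nonneg hr0.le; linarith
        gcongr
      have h3 : (2 * c - r - 6) * ((c - r) ^ 2 + r ^ 2) ≤ 2 * (c - 1 / 2) ^ 2 * (c - r) := by
        nlinarith [mul_nonneg hr0.le (sub_nonneg.mpr hcr.le), sq_nonneg (c - 2 * r),
          mul_nonneg (mul_nonneg hr0.le (sub_nonneg.mpr hcr.le)) hr0.le,
          mul_nonneg (mul_nonneg hr0.le (sub_nonneg.mpr hcr.le)) (sub_nonneg.mpr hcr.le),
          mul_nonneg hr0.le hr0.le, mul_nonneg (mul_nonneg hr0.le hr0.le) hr0.le]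
      have h4 : (2 * c - r - 6) * r ≤
          2 * (c - 1 / 2) ^ 2 * (r * (c - r) / ((c - r) ^ 2 + r ^ 2)) := by
        rw [← mul_div_assoc, le_div_iff₀ hD]
        nlinarith [mul_le_mul_of_nonneg_left h3 hr0.le]
      nlinarith
end Pool.Agent.RAux
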