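import Mathlib
import Pool.Agent.RAux.Defs
import Pool.Agent.RAux.Saddle

/-!
The line integral through the saddle point.
-/

set_option autoImplicit false

open Complex MeasureTheory Filter Topology

namespace Pool.Agent.RAux

theorem rb_sin_le_sinh (x : ℝ) : Real.sin x ^ 2 ≤ Real.sinh x ^ 2 := by
  have h1 : |Real.sin x| ≤ |x| := Real.abs_sin_le_abs
  have h2 : |x| ≤ |Real.sinh x| := by
    rcases le_total 0 x with hx | hx
    · rw [abs_of_nonneg hx, abs_of_nonneg (Real.sinh_nonneg_iff.mpr hx)]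
      exact Real.self_le_sinh_iff.mpr hx
    · rw [abs_of_nonpos hx, abs_of_nonpos (Real.sinh_nonpos_iff.mpr hx)]
      have := Real.sinh_le_self_iff.mpr hx
      linarith
  exact sq_le_sq.mpr (h1.trans h2)

/-- The denominator on the line through a half integer: `|2 sin πx|² = 4(cos² πv + sinh² πv) ≥ 4`. -/
theorem den_bound (M : ℕ) (v : ℝ) :
    2 ≤ ‖Complex.exp ((Real.pi : ℂ) * Complex.I * (((M + 1 / 2 : ℝ) : ℂ) + (v : ℂ) * (1 + Complex.I))) -
      Complex.exp (-((Real.pi : ℂ) * Complex.I *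
        (((M + 1 / 2 : ℝ) : ℂ) + (v : ℂ) * (1 + Complex.I))))‖ := by
  set w : ℂ := (Real.pi : ℂ) * Complex.I *
    (((M + 1 / 2 : ℝ) : ℂ) + (v : ℂ) * (1 + Complex.I)) with hw
  have hre : w.re = -(Real.pi * v) := by
    simp [hw]
  have him : w.im = Real.pi * (M + 1 / 2 + v) := by
    simp [hw]
  have hsin : Real.sin (Real.pi * (M + 1 / 2 + v)) ^ 2 = Real.cos (Real.pi * v) ^ 2 := by
    have e1 : Real.pi * (M + 1 / 2 + v) = Real.pi * v + (M : ℝ) * Real.pi + Real.pi / 2 := by ring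
    rw [e1, Real.sin_add_pi_div_two, Real.cos_add_nat_mul_pi, mul_pow, ← pow_mul, mul_comm M 2,
      pow_mul]
    norm_num
  have hsq : (2 : ℝ) ^ 2 ≤ ‖Complex.exp w - Complex.exp (-w)‖ ^ 2 := by
    rw [← Complex.normSq_eq_norm_sq, Complex.normSq_apply]
    have r1 : (Complex.exp w - Complex.exp (-w)).re =
        -(2 * Real.sinh (Real.pi * v)) * Real.cos (Real.pi * (M + 1 / 2 + v)) := by
      rw [Complex.sub_re, Complex.exp_re, Complex.exp_re, Complex.neg_re, Complex.neg_im, hre, him,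
        Real.cos_neg, Real.sinh_eq]
      ring_nf
    have r2 : (Complex.exp w - Complex.exp (-w)).im =
        (2 * Real.cosh (Real.pi * v)) * Real.sin (Real.pi * (M + 1 / 2 + v)) := by
      rw [Complex.sub_im, Complex.exp_im, Complex.exp_im, Complex.neg_re, Complex.neg_im, hre, him,
        Real.sin_neg, Real.cosh_eq]
      ring_nf
    rw [r1, r2]
    have c1 := Real.sin_sq_add_cos_sq (Real.pi * (M + 1 / 2 + v))
    have c2 := Real.sin_sq_add_cos_sq (Real.pi * v)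
    have c3 := Real.cosh_sq (Real.pi * v)
    have c4 := rb_sin_le_sinh (Real.pi * v)
    nlinarith [c1, c2, c3, c4, hsin]
  exact le_of_sq_le_sq hsq (norm_nonneg _)

/-- The Gaussian majorant. -/
theorem rb_gauss (A v : ℝ) (hA : 0 ≤ A) :
    (2 + 2 * |v|) ^ A * Real.exp (-(Real.pi * v ^ 2) + 6 * Real.pi * |v|) ≤
      Real.exp (2 * A + (2 * A + 6 * Real.pi) ^ 2 / 4) * Real.exp (-(Real.pi - 1) * v ^ 2) := by
  have h0 : 0 ≤ |v| := abs_nonneg v
  have hpos : (0 : ℝ) < 2 + 2 * |v| := by positivity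
  have h1 : (2 + 2 * |v|) ^ A ≤ Real.exp (A * (2 + 2 * |v|)) := by
    rw [Real.rpow_def_of_pos hpos]
    apply Real.exp_le_exp.mpr
    have := Real.log_le_sub_one_of_pos hpos
    nlinarith
  calc (2 + 2 * |v|) ^ A * Real.exp (-(Real.pi * v ^ 2) + 6 * Real.pi * |v|)
      ≤ Real.exp (A * (2 + 2 * |v|)) * Real.exp (-(Real.pi * v ^ 2) + 6 * Real.pi * |v|) := by
        gcongr
    _ = Real.exp (A * (2 + 2 * |v|) + (-(Real.pi * v ^ 2) + 6 * Real.pi * |v|)) :=
        (Real.exp_add _ _).symm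
    _ ≤ Real.exp (2 * A + (2 * A + 6 * Real.pi) ^ 2 / 4 + -(Real.pi - 1) * v ^ 2) := by
        apply Real.exp_le_exp.mpr
        have hv : v ^ 2 = |v| ^ 2 := (sq_abs v).symm
        nlinarith [sq_nonneg (|v| - (2 * A + 6 * Real.pi) / 2)]
    _ = _ := by rw [Real.exp_add]

theorem rb_point (A : ℝ) (hA : 0 ≤ A) (M : ℕ) (s : ℂ) (hM : 1 ≤ M) (hs : |s.re| ≤ A)
    (h1 : 2 * Real.pi * (M : ℝ) ^ 2 ≤ s.im) (h2 : s.im ≤ 2 * Real.pi * ((M : ℝ) + 1) ^ 2) (v : ℝ) :
    ‖rInt s (((M + 1 / 2 : ℝ) : ℂ) + (v : ℂ) * (1 + Complex.I))‖ ≤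
      (M : ℝ) ^ (-s.re) * (Real.exp (2 * A + (2 * A + 6 * Real.pi) ^ 2 / 4) *
        Real.exp (-(Real.pi - 1) * v ^ 2)) := by
  have hM1 : (1 : ℝ) ≤ M := by exact_mod_cast hM
  have hM0 : (0 : ℝ) < M := by linarith
  have hpi := Real.pi_pos
  set c : ℝ := (M : ℝ) + 1 / 2 with hc
  set x : ℂ := (c : ℂ) + (v : ℂ) * (1 + Complex.I) with hx
  have xre : x.re = c + v := by simp [hx]
  have xim : x.im = v := by simp [hx]
  have hx2 : ‖x‖ ^ 2 = (c + v) ^ 2 + v ^ 2 := by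
    rw [← Complex.normSq_eq_norm_sq, Complex.normSq_apply, xre, xim]; ring
  have hlow : (M : ℝ) / 2 ≤ ‖x‖ := by
    apply le_of_sq_le_sq _ (norm_nonneg _)
    rw [hx2]
    nlinarith [sq_nonneg (2 * v + c)]
  have hup : ‖x‖ ≤ (M : ℝ) * (2 + 2 * |v|) := by
    apply le_of_sq_le_sq _ (by positivity)
    rw [hx2]
    have hv : v ^ 2 = |v| ^ 2 := (sq_abs v).symm
    have hv1 : v ≤ |v| := le_abs_self v
    have hv0 : 0 ≤ |v| := abs_nonneg v
    have e1 : (c + v) ^ 2 + v ^ 2 ≤ (c + 2 * |v|) ^ 2 := by nlinarith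
    have e2 : c + 2 * |v| ≤ (M : ℝ) * (2 + 2 * |v|) := by nlinarith
    exact e1.trans (by
      apply pow_le_pow_left₀ (by positivity) e2)
  have hxpos : 0 < ‖x‖ := by linarith [half_pos hM0]
  have hx0 : x ≠ 0 := norm_pos_iff.mp hxpos
  -- the power
  have hpow : ‖x‖ ^ (-s.re) ≤ (M : ℝ) ^ (-s.re) * (2 + 2 * |v|) ^ A := by
    have hq0 : 0 < ‖x‖ / M := div_pos hxpos hM0
    have hq1 : 1 / 2 ≤ ‖x‖ / M := by
      rw [le_div_iff₀ hM0]; linarith
    have hq2 : ‖x‖ / M ≤ 2 + 2 * |v| := by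
      rw [div_le_iff₀ hM0]; linarith
    have e : ‖x‖ = M * (‖x‖ / M) := by field_simp
    rw [e, Real.mul_rpow hM0.le hq0.le]
    gcongr
    have hv0 : 0 ≤ |v| := abs_nonneg v
    rcases le_total 0 (-s.re) with hs0 | hs0
    · calc (‖x‖ / M) ^ (-s.re) ≤ (2 + 2 * |v|) ^ (-s.re) := by
            apply Real.rpow_le_rpow hq0.le hq2 hs0
        _ ≤ (2 + 2 * |v|) ^ A := by
            apply Real.rpow_le_rpow_of_exponent_le (by linarith)
            exact (neg_le_abs _).trans hs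
    · have e3 : (‖x‖ / M) ^ (-s.re) ≤ (1 / 2 : ℝ) ^ (-s.re) :=
        Real.rpow_le_rpow_of_nonpos (by norm_num) hq1 hs0
      have e4 : (1 / 2 : ℝ) ^ (-s.re) = 2 ^ s.re := by
        rw [one_div, Real.inv_rpow (by norm_num), Real.rpow_neg (by norm_num), inv_inv]
      rw [e4] at e3
      calc (‖x‖ / M) ^ (-s.re) ≤ 2 ^ s.re := e3
        _ ≤ 2 ^ A := by
            apply Real.rpow_le_rpow_of_exponent_le (by norm_num)
            exact (le_abs_self _).trans hs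
        _ ≤ (2 + 2 * |v|) ^ A := by
            apply Real.rpow_le_rpow (by norm_num) (by linarith) hA
  -- the exponent
  set a : ℝ := Real.sqrt (s.im / (2 * Real.pi)) with ha
  have himpos : 0 ≤ s.im := le_trans (by positivity) h1
  have ha2 : a ^ 2 = s.im / (2 * Real.pi) := Real.sq_sqrt (by positivity)
  have ha2' : 2 * Real.pi * a ^ 2 = s.im := by rw [ha2]; field_simp
  have haM : (M : ℝ) ≤ a := by
    apply Real.le_sqrt_of_sq_le
    rw [le_div_iff₀ (by positivity)]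
    linarith
  have haM1 : a ≤ (M : ℝ) + 1 := by
    apply Real.sqrt_le_iff.mpr
    refine ⟨by positivity, ?_⟩
    rw [div_le_iff₀ (by positivity)]
    linarith
  have hac : |a - c| ≤ 1 / 2 := by
    rw [abs_le]; constructor <;> simp only [hc] <;> linarith
  have hexp := saddle_exponent a c v (by simp only [hc]; linarith) hac (by linarith)
  have hn1 : ‖x ^ (-s)‖ = ‖x‖ ^ (-s.re) * Real.exp (s.im * Complex.arg x) := by
    rw [Complex.norm_cpow_of_ne_zero hx0]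
    simp only [Complex.neg_re, Complex.neg_im, mul_neg]
    rw [Real.exp_neg, div_inv_eq_mul, mul_comm (Complex.arg x)]
  have hn2 : ‖Complex.exp ((Real.pi : ℂ) * Complex.I * x ^ 2)‖ =
      Real.exp (-(2 * Real.pi * (c + v) * v)) := by
    rw [Complex.norm_exp]
    congr 1
    have : ((Real.pi : ℂ) * Complex.I * x ^ 2).re = -(Real.pi * (x ^ 2).im) := by
      simp
    rw [this, sq, Complex.mul_im, xre, xim]
    ring
  have hden := den_bound M v
  rw [← hc, ← hx] at hden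
  have hnorm : ‖rInt s x‖ ≤ ‖x‖ ^ (-s.re) * Real.exp (s.im * Complex.arg x) *
      Real.exp (-(2 * Real.pi * (c + v) * v)) := by
    unfold rInt
    rw [norm_div, norm_mul, hn1, hn2]
    apply div_le_self (by positivity)
    linarith
  calc ‖rInt s x‖ ≤ ‖x‖ ^ (-s.re) * Real.exp (s.im * Complex.arg x) *
      Real.exp (-(2 * Real.pi * (c + v) * v)) := hnorm
    _ = ‖x‖ ^ (-s.re) * Real.exp (2 * Real.pi * a ^ 2 * Complex.arg x -
        2 * Real.pi * (c + v) * v) := by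
        rw [mul_assoc, ← Real.exp_add, ha2']; congr 2
    _ ≤ ((M : ℝ) ^ (-s.re) * (2 + 2 * |v|) ^ A) *
        Real.exp (-(Real.pi * v ^ 2) + 6 * Real.pi * |v|) := by
        gcongr
    _ = (M : ℝ) ^ (-s.re) * ((2 + 2 * |v|) ^ A *
        Real.exp (-(Real.pi * v ^ 2) + 6 * Real.pi * |v|)) := by ring
    _ ≤ _ := mul_le_mul_of_nonneg_left (rb_gauss A v hA) (by positivity)

theorem lineR_bound (A : ℝ) (hA : 0 ≤ A) : ∃ C : ℝ, 0 ≤ C ∧ ∀ (M : ℕ) (s : ℂ), 1 ≤ M →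
    |s.re| ≤ A → 2 * Real.pi * (M : ℝ) ^ 2 ≤ s.im → s.im ≤ 2 * Real.pi * ((M : ℝ) + 1) ^ 2 →
    ‖lineR (M + 1 / 2) s‖ ≤ C * (M : ℝ) ^ (-s.re) := by
  set K : ℝ := Real.exp (2 * A + (2 * A + 6 * Real.pi) ^ 2 / 4) with hK
  have hpi1 : 0 < Real.pi - 1 := by linarith [Real.pi_gt_three]
  have hint : Integrable (fun v : ℝ => Real.exp (-(Real.pi - 1) * v ^ 2)) :=
    integrable_exp_neg_mul_sq hpi1
  refine ⟨‖(1 + Complex.I : ℂ)‖ * (K * ∫ v : ℝ, Real.exp (-(Real.pi - 1) * v ^ 2)), ?_, ?_⟩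
  · have : 0 ≤ ∫ v : ℝ, Real.exp (-(Real.pi - 1) * v ^ 2) :=
      integral_nonneg fun v => (Real.exp_pos _).le
    positivity
  intro M s hM hs h1 h2
  unfold lineR
  rw [norm_mul, norm_neg]
  have hb : ‖∫ t : ℝ, rInt s ((((M : ℝ) + 1 / 2 : ℝ) : ℂ) + (t : ℂ) * (1 + Complex.I))‖ ≤
      ∫ v : ℝ, (M : ℝ) ^ (-s.re) * (K * Real.exp (-(Real.pi - 1) * v ^ 2)) := by
    apply norm_integral_le_of_norm_le ((hint.const_mul K).const_mul _)
    exact Filter.Eventually.of_forall fun v => rb_point A hA M s hM hs h1 h2 v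
  rw [integral_const_mul, integral_const_mul] at hb
  calc _ ≤ ‖(1 + Complex.I : ℂ)‖ * ((M : ℝ) ^ (-s.re) *
        (K * ∫ v : ℝ, Real.exp (-(Real.pi - 1) * v ^ 2))) := by
        gcongr
    _ = _ := by ring

end Pool.Agent.RAux
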