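import Mathlib
import Pool.Agent.RAux.Defs

/-!
The auxiliary function is entire.
-/

set_option autoImplicit false

open Complex MeasureTheory Filter Topology

namespace Pool.Agent.RAux

namespace REntire

/-- The point of the line. -/
noncomputable def pt (t : ℝ) : ℂ := ((1 / 2 : ℝ) : ℂ) + (t : ℂ) * (1 + Complex.I)

lemma pt_re (t : ℝ) : (pt t).re = 1 / 2 + t := by
  simp [pt]

lemma pt_im (t : ℝ) : (pt t).im = t := by
  simp [pt]

lemma pt_slit (t : ℝ) : pt t ∈ slitPlane := by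
  rw [mem_slitPlane_iff, pt_re, pt_im]
  by_cases h : t = 0
  · left; rw [h]; norm_num
  · right; exact h

lemma pt_ne (t : ℝ) : pt t ≠ 0 := slitPlane_ne_zero (pt_slit t)

lemma pt_cont : Continuous pt := by
  unfold pt; fun_prop

lemma norm_pt_ge (t : ℝ) : 1 / 3 ≤ ‖pt t‖ := by
  have h1 : ‖pt t‖ ^ 2 = (1 / 2 + t) ^ 2 + t ^ 2 := by
    rw [← Complex.normSq_eq_norm_sq, Complex.normSq_apply, pt_re, pt_im]; ring
  have h0 : 0 ≤ ‖pt t‖ := norm_nonneg _
  by_contra h
  push Not at h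
  have h2 : ‖pt t‖ ^ 2 < (1 / 3) ^ 2 := by
    apply pow_lt_pow_left₀ h h0 (by norm_num)
  nlinarith [sq_nonneg (t + 1 / 4)]

lemma norm_pt_le (t : ℝ) : ‖pt t‖ ≤ 1 / 2 + 2 * |t| := by
  calc ‖pt t‖ ≤ |(pt t).re| + |(pt t).im| := Complex.norm_le_abs_re_add_abs_im _
    _ = |1 / 2 + t| + |t| := by rw [pt_re, pt_im]
    _ ≤ (|1 / 2| + |t|) + |t| := by gcongr; exact abs_add_le _ _
    _ = 1 / 2 + 2 * |t| := by rw [abs_of_pos (by norm_num : (0 : ℝ) < 1 / 2)]; ring

lemma norm_log_pt_le (t : ℝ) : ‖Complex.log (pt t)‖ ≤ 6 + 2 * |t| := by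
  have hpos : 0 < ‖pt t‖ := norm_pos_iff.2 (pt_ne t)
  have h1 : Real.log ‖pt t‖ ≤ 1 / 2 + 2 * |t| :=
    (Real.log_le_self hpos.le).trans (norm_pt_le t)
  have h2 : -2 ≤ Real.log ‖pt t‖ := by
    have h3 : Real.log (1 / 3) ≤ Real.log ‖pt t‖ := Real.log_le_log (by norm_num) (norm_pt_ge t)
    have h4 : Real.log (1 / 3) = -Real.log 3 := by
      rw [one_div, Real.log_inv]
    have h5 : Real.log 3 ≤ 3 - 1 := Real.log_le_sub_one_of_pos (by norm_num)
    linarith
  have h6 : |Real.log ‖pt t‖| ≤ 2 + 2 * |t| := by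
    rw [abs_le]
    constructor <;> linarith [abs_nonneg t]
  have h7 : |(pt t).arg| ≤ Real.pi := Complex.abs_arg_le_pi _
  have hpi := Real.pi_lt_four
  calc ‖Complex.log (pt t)‖ ≤ |(Complex.log (pt t)).re| + |(Complex.log (pt t)).im| :=
        Complex.norm_le_abs_re_add_abs_im _
    _ = |Real.log ‖pt t‖| + |(pt t).arg| := by rw [Complex.log_re, Complex.log_im]
    _ ≤ 6 + 2 * |t| := by linarith

/-- The denominator. -/
noncomputable def den (x : ℂ) : ℂ :=
  Complex.exp ((Real.pi : ℂ) * Complex.I * x) - Complex.exp (-((Real.pi : ℂ) * Complex.I * x))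

lemma den_eq (x : ℂ) : den x = 2 * Complex.I * Complex.sin ((Real.pi : ℂ) * x) := by
  unfold den
  rw [Complex.sin]
  have h1 : (Real.pi : ℂ) * Complex.I * x = (Real.pi : ℂ) * x * Complex.I := by ring
  have h2 : -((Real.pi : ℂ) * Complex.I * x) = -((Real.pi : ℂ) * x) * Complex.I := by ring
  rw [h2, h1]
  have hI : Complex.I * Complex.I = -1 := Complex.I_mul_I
  linear_combination (Complex.exp (-((Real.pi : ℂ) * x) * Complex.I) -
    Complex.exp ((Real.pi : ℂ) * x * Complex.I)) * (-hI)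

lemma norm_den_ge (t : ℝ) : 1 ≤ ‖den (pt t)‖ := by
  rw [den_eq]
  rw [norm_mul, norm_mul, Complex.norm_I, Complex.norm_two]
  have h0 : ((Real.pi : ℂ) * pt t) = (((Real.pi * (1 / 2 + t) : ℝ)) : ℂ) +
      ((Real.pi * t : ℝ) : ℂ) * Complex.I := by
    unfold pt; push_cast; ring
  have h1 : ‖Complex.sin ((Real.pi : ℂ) * pt t)‖ ^ 2 =
      Real.cos (Real.pi * t) ^ 2 + Real.sinh (Real.pi * t) ^ 2 := by
    rw [h0, Complex.sin_add_mul_I, ← Complex.normSq_eq_norm_sq]
    rw [← Complex.ofReal_sin, ← Complex.ofReal_cos, ← Complex.ofReal_cosh, ← Complex.ofReal_sinh,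
      ← Complex.ofReal_mul, ← Complex.ofReal_mul, Complex.normSq_add_mul_I]
    have h2 : Real.pi * (1 / 2 + t) = Real.pi * t + Real.pi / 2 := by ring
    rw [h2, Real.sin_add_pi_div_two, Real.cos_add_pi_div_two]
    have h3 := Real.cosh_sq (Real.pi * t)
    have h4 := Real.sin_sq_add_cos_sq (Real.pi * t)
    nlinarith [h3, h4]
  have h5 : Real.cos (Real.pi * t) ^ 2 + Real.sinh (Real.pi * t) ^ 2 ≥ 1 := by
    have h6 : Real.sin (Real.pi * t) ^ 2 ≤ (Real.pi * t) ^ 2 := by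
      exact Real.sin_sq_le_sq
    have h7 : (Real.pi * t) ^ 2 ≤ Real.sinh (Real.pi * t) ^ 2 := by
      rw [sq_le_sq, Real.abs_sinh]
      exact Real.self_le_sinh_iff.2 (abs_nonneg _)
    have h8 := Real.sin_sq_add_cos_sq (Real.pi * t)
    linarith
  have h9 : 1 ≤ ‖Complex.sin ((Real.pi : ℂ) * pt t)‖ := by
    have h10 : 0 ≤ ‖Complex.sin ((Real.pi : ℂ) * pt t)‖ := norm_nonneg _
    nlinarith
  linarith

lemma den_ne (t : ℝ) : den (pt t) ≠ 0 := by
  intro h
  have := norm_den_ge t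
  rw [h, norm_zero] at this
  linarith

lemma norm_exp_sq (t : ℝ) :
    ‖Complex.exp ((Real.pi : ℂ) * Complex.I * pt t ^ 2)‖ =
      Real.exp (-(Real.pi * (t + 2 * t ^ 2))) := by
  rw [Complex.norm_exp]
  congr 1
  have : (Real.pi : ℂ) * Complex.I * pt t ^ 2 =
      ((-(Real.pi * (t + 2 * t ^ 2)) : ℝ) : ℂ) + ((Real.pi * (1 / 4 + t) : ℝ) : ℂ) * Complex.I := by
    unfold pt
    push_cast
    have hI : Complex.I ^ 2 = -1 := Complex.I_sq
    have hI3 : Complex.I ^ 3 = -Complex.I := by rw [pow_succ, hI]; ring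
    ring_nf
    rw [hI, hI3]
    ring
  rw [this, Complex.add_re, Complex.ofReal_re, Complex.re_ofReal_mul, Complex.I_re]
  ring

lemma norm_cpow_le (s : ℂ) (t R : ℝ) (hs : ‖s‖ ≤ R) :
    ‖pt t ^ (-s)‖ ≤ Real.exp (R * (6 + 2 * |t|)) := by
  rw [Complex.cpow_def_of_ne_zero (pt_ne t), Complex.norm_exp]
  apply Real.exp_le_exp.2
  calc (Complex.log (pt t) * -s).re ≤ ‖Complex.log (pt t) * -s‖ := Complex.re_le_norm _
    _ = ‖s‖ * ‖Complex.log (pt t)‖ := by rw [norm_mul, norm_neg, mul_comm]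
    _ ≤ R * (6 + 2 * |t|) := by
        have := norm_log_pt_le t
        have h0 : 0 ≤ ‖Complex.log (pt t)‖ := norm_nonneg _
        have h1 : 0 ≤ ‖s‖ := norm_nonneg _
        exact mul_le_mul hs this h0 (h1.trans hs)

lemma rInt_eq (s x : ℂ) : rInt s x =
    x ^ (-s) * Complex.exp ((Real.pi : ℂ) * Complex.I * x ^ 2) / den x := rfl

lemma norm_rInt_le (s : ℂ) (t R : ℝ) (hs : ‖s‖ ≤ R) :
    ‖rInt s (pt t)‖ ≤ Real.exp (R * (6 + 2 * |t|)) * Real.exp (-(Real.pi * (t + 2 * t ^ 2))) := by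
  rw [rInt_eq, norm_div, norm_mul, norm_exp_sq]
  have h1 := norm_cpow_le s t R hs
  have h2 := norm_den_ge t
  rw [div_le_iff₀ (by linarith)]
  have h3 : 0 ≤ Real.exp (R * (6 + 2 * |t|)) * Real.exp (-(Real.pi * (t + 2 * t ^ 2))) := by
    positivity
  calc ‖pt t ^ (-s)‖ * Real.exp (-(Real.pi * (t + 2 * t ^ 2)))
      ≤ Real.exp (R * (6 + 2 * |t|)) * Real.exp (-(Real.pi * (t + 2 * t ^ 2))) := by gcongr
    _ ≤ Real.exp (R * (6 + 2 * |t|)) * Real.exp (-(Real.pi * (t + 2 * t ^ 2))) * ‖den (pt t)‖ :=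
        le_mul_of_one_le_right h3 h2

/-- The dominating constant. -/
noncomputable def cst (R : ℝ) : ℝ :=
  Real.exp (6 * (R + 1) + (2 * (R + 1) + 4) ^ 2 / 4)

lemma bound_le (R t : ℝ) (_hR : 0 ≤ R) :
    (6 + 2 * |t|) * (Real.exp (R * (6 + 2 * |t|)) * Real.exp (-(Real.pi * (t + 2 * t ^ 2)))) ≤
      cst R * Real.exp (-1 * t ^ 2) := by
  have h1 : 6 + 2 * |t| ≤ Real.exp (6 + 2 * |t|) := by
    linarith [Real.add_one_le_exp (6 + 2 * |t|)]
  calc (6 + 2 * |t|) * (Real.exp (R * (6 + 2 * |t|)) * Real.exp (-(Real.pi * (t + 2 * t ^ 2))))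
      ≤ Real.exp (6 + 2 * |t|) *
        (Real.exp (R * (6 + 2 * |t|)) * Real.exp (-(Real.pi * (t + 2 * t ^ 2)))) := by gcongr
    _ = Real.exp ((6 + 2 * |t|) + (R * (6 + 2 * |t|) + -(Real.pi * (t + 2 * t ^ 2)))) := by
        rw [← Real.exp_add, ← Real.exp_add]
    _ ≤ Real.exp ((6 * (R + 1) + (2 * (R + 1) + 4) ^ 2 / 4) + (-1 * t ^ 2)) := by
        apply Real.exp_le_exp.2
        have hpi3 := Real.pi_gt_three
        have hpi4 := Real.pi_lt_four
        have h2 : -t ≤ |t| := neg_le_abs t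
        have h2' : t ≤ |t| := le_abs_self t
        have h3 : |t| ^ 2 = t ^ 2 := sq_abs t
        have h4 : -(Real.pi * t) ≤ 4 * |t| := by
          have : |Real.pi * t| ≤ 4 * |t| := by
            rw [abs_mul, abs_of_pos Real.pi_pos]
            exact mul_le_mul_of_nonneg_right hpi4.le (abs_nonneg t)
          linarith [neg_abs_le (Real.pi * t)]
        have h5 : 2 * t ^ 2 ≤ Real.pi * (2 * t ^ 2) := by
          have : 0 ≤ 2 * t ^ 2 := by positivity
          nlinarith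
        have h6 := sq_nonneg (|t| - (2 * (R + 1) + 4) / 2)
        nlinarith
    _ = cst R * Real.exp (-1 * t ^ 2) := by rw [Real.exp_add, cst]

lemma bound_le' (R t : ℝ) (hR : 0 ≤ R) :
    Real.exp (R * (6 + 2 * |t|)) * Real.exp (-(Real.pi * (t + 2 * t ^ 2))) ≤
      cst R * Real.exp (-1 * t ^ 2) := by
  refine le_trans ?_ (bound_le R t hR)
  apply le_mul_of_one_le_left (by positivity)
  linarith [abs_nonneg t]

lemma rInt_cont (s : ℂ) : Continuous fun t : ℝ => rInt s (pt t) := by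
  simp only [rInt_eq]
  apply Continuous.div
  · apply Continuous.mul
    · rw [continuous_iff_continuousAt]
      intro t
      exact ContinuousAt.cpow pt_cont.continuousAt continuousAt_const (pt_slit t)
    · have := pt_cont
      fun_prop
  · have := pt_cont
    unfold den
    fun_prop
  · exact den_ne

lemma log_cont : Continuous fun t : ℝ => Complex.log (pt t) := by
  rw [continuous_iff_continuousAt]
  intro t
  exact ContinuousAt.clog pt_cont.continuousAt (pt_slit t)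

lemma rInt_deriv (s : ℂ) (t : ℝ) :
    HasDerivAt (fun s => rInt s (pt t)) (-Complex.log (pt t) * rInt s (pt t)) s := by
  have h1 : HasDerivAt (fun s : ℂ => pt t ^ (-s)) (pt t ^ (-s) * Complex.log (pt t) * (-1)) s :=
    (hasDerivAt_neg s).const_cpow (Or.inl (pt_ne t))
  have h2 := (h1.mul_const (Complex.exp ((Real.pi : ℂ) * Complex.I * pt t ^ 2))).div_const
    (den (pt t))
  simp only [rInt_eq]
  refine h2.congr_deriv ?_
  ring

end REntire

open REntire in
theorem auxR_differentiable : Differentiable ℂ auxR := by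
  intro s₀
  unfold auxR
  have hline : ∀ s : ℂ, lineR (1 / 2) s = -(1 + Complex.I) * ∫ t : ℝ, rInt s (pt t) := by
    intro s
    rfl
  have hfun : lineR (1 / 2) = fun s => -(1 + Complex.I) * ∫ t : ℝ, rInt s (pt t) := funext hline
  have hmain : DifferentiableAt ℂ (fun s => ∫ t : ℝ, rInt s (pt t)) s₀ := by
    have hint : Integrable (fun t : ℝ => cst (‖s₀‖ + 1) * Real.exp (-1 * t ^ 2)) :=
      (integrable_exp_neg_mul_sq (by norm_num : (0 : ℝ) < 1)).const_mul _
    have hR : 0 ≤ ‖s₀‖ + 1 := by positivity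
    have key := hasDerivAt_integral_of_dominated_loc_of_deriv_le (μ := volume)
      (F := fun (s : ℂ) (t : ℝ) => rInt s (pt t))
      (F' := fun (s : ℂ) (t : ℝ) => -Complex.log (pt t) * rInt s (pt t))
      (x₀ := s₀) (bound := fun t : ℝ => cst (‖s₀‖ + 1) * Real.exp (-1 * t ^ 2))
      (s := Metric.ball s₀ 1) (Metric.ball_mem_nhds s₀ one_pos)
      (Filter.Eventually.of_forall fun s => (rInt_cont s).aestronglyMeasurable)
      ?_ ?_ ?_ hint ?_
    · exact key.2.differentiableAt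
    · apply Integrable.mono' hint (rInt_cont s₀).aestronglyMeasurable
      refine Filter.Eventually.of_forall fun t => ?_
      exact (norm_rInt_le s₀ t (‖s₀‖ + 1) (by linarith)).trans (bound_le' _ t hR)
    · exact ((log_cont.neg).mul (rInt_cont s₀)).aestronglyMeasurable
    · refine Filter.Eventually.of_forall fun t s hs => ?_
      have hs' : ‖s‖ ≤ ‖s₀‖ + 1 := by
        have h1 : ‖s - s₀‖ < 1 := by simpa [dist_eq_norm] using hs
        have h2 : ‖s‖ ≤ ‖s - s₀‖ + ‖s₀‖ := by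
          simpa using norm_add_le (s - s₀) s₀
        linarith
      rw [norm_mul, norm_neg]
      refine le_trans ?_ (bound_le (‖s₀‖ + 1) t hR)
      exact mul_le_mul (norm_log_pt_le t) (norm_rInt_le s t _ hs') (norm_nonneg _)
        (by linarith [abs_nonneg t])
    · exact Filter.Eventually.of_forall fun t s _ => rInt_deriv s t
  have : DifferentiableAt ℂ (fun s => -(1 + Complex.I) * ∫ t : ℝ, rInt s (pt t)) s₀ :=
    hmain.const_mul _
  rw [← hfun] at this
  exact this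

end Pool.Agent.RAux
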