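import Mathlib
import Pool.Agent.RAux.Defs

/-!
Shifting slope one lines.
-/

set_option autoImplicit false

open Complex MeasureTheory Filter Topology

namespace Pool.Agent.RAux

theorem ls_int (δ : ℝ) (hδ : 0 < δ) : Integrable (fun p : ℝ => Real.exp (-(δ * |p|))) := by
  rw [← integrableOn_univ, ← Set.Iic_union_Ioi (a := (0 : ℝ))]
  refine IntegrableOn.union ?_ ?_
  · refine (integrableOn_exp_mul_Iic hδ 0).congr_fun (fun p hp => ?_) measurableSet_Iic
    have hp' : p ≤ 0 := hp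
    simp [abs_of_nonpos hp']
  · refine (integrableOn_exp_mul_Ioi (neg_neg_of_pos hδ) 0).congr_fun (fun p hp => ?_)
      measurableSet_Ioi
    have hp' : 0 < p := hp
    simp [abs_of_pos hp']

/-- Shifting a horizontal line. -/
theorem ls_horiz (G : ℂ → ℂ) (q₁ q₂ C δ : ℝ) (hδ : 0 < δ) (hC : 0 ≤ C)
    (hG : DifferentiableOn ℂ G {z : ℂ | z.im ∈ Set.uIcc q₁ q₂})
    (hb : ∀ z : ℂ, z.im ∈ Set.uIcc q₁ q₂ → ‖G z‖ ≤ C * Real.exp (-(δ * |z.re + z.im|))) :
    ∫ p : ℝ, G ((p : ℂ) + (q₁ : ℂ) * Complex.I) = ∫ p : ℝ, G ((p : ℂ) + (q₂ : ℂ) * Complex.I) := by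
  have hInt : ∀ q ∈ Set.uIcc q₁ q₂, Integrable (fun p : ℝ => G ((p : ℂ) + (q : ℂ) * Complex.I)) := by
    intro q hq
    have hcont : Continuous (fun p : ℝ => G ((p : ℂ) + (q : ℂ) * Complex.I)) := by
      refine hG.continuousOn.comp_continuous (by fun_prop) (fun p => ?_)
      simpa using hq
    have h1 : Integrable (fun p : ℝ => C * Real.exp (-(δ * |p + q|))) :=
      ((ls_int δ hδ).comp_add_right q).const_mul C
    refine h1.mono' hcont.aestronglyMeasurable (Filter.Eventually.of_forall fun p => ?_)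
    have := hb ((p : ℂ) + (q : ℂ) * Complex.I) (by simpa using hq)
    simpa using this
  set Q : ℝ := max |q₁| |q₂| with hQ
  have hQb : ∀ y ∈ Set.uIcc q₁ q₂, |y| ≤ Q := by
    intro y hy
    rw [Set.mem_uIcc] at hy
    rw [abs_le]
    have a1 := neg_abs_le q₁
    have a2 := neg_abs_le q₂
    have a3 := le_abs_self q₁
    have a4 := le_abs_self q₂
    have a5 := le_max_left |q₁| |q₂|
    have a6 := le_max_right |q₁| |q₂|
    rcases hy with ⟨h1, h2⟩ | ⟨h1, h2⟩ <;> constructor <;> linarith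
  have hV : ∀ T : ℝ, ‖∫ y in q₁..q₂, G ((T : ℂ) + (y : ℂ) * Complex.I)‖ ≤
      C * Real.exp (-(δ * (|T| - Q))) * |q₂ - q₁| := by
    intro T
    refine intervalIntegral.norm_integral_le_of_norm_le_const fun y hy => ?_
    have hy' : y ∈ Set.uIcc q₁ q₂ := Set.uIoc_subset_uIcc hy
    have h1 := hb ((T : ℂ) + (y : ℂ) * Complex.I) (by simpa using hy')
    refine h1.trans ?_
    refine mul_le_mul_of_nonneg_left (Real.exp_le_exp.2 ?_) hC
    have h2 := hQb y hy'
    have h3 : |T| - Q ≤ |T + y| := by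
      have := abs_sub_abs_le_abs_add T y
      linarith
    have h4 : ((T : ℂ) + (y : ℂ) * Complex.I).re + ((T : ℂ) + (y : ℂ) * Complex.I).im = T + y := by
      simp
    rw [h4]
    have := mul_le_mul_of_nonneg_left h3 hδ.le
    linarith
  have hlim0 : Tendsto (fun T : ℝ => C * Real.exp (-(δ * (|T| - Q))) * |q₂ - q₁|) atTop (𝓝 0) := by
    have h1 : Tendsto (fun T : ℝ => -(δ * (|T| - Q))) atTop atBot := by
      refine tendsto_neg_atTop_atBot.comp (Tendsto.const_mul_atTop hδ ?_)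
      exact tendsto_atTop_add_const_right _ _ tendsto_abs_atTop_atTop
    have h2 := (Real.tendsto_exp_atBot.comp h1).const_mul C |>.mul_const |q₂ - q₁|
    simpa using h2
  have hV1 : Tendsto (fun T : ℝ => ∫ y in q₁..q₂, G ((T : ℂ) + (y : ℂ) * Complex.I)) atTop (𝓝 0) :=
    squeeze_zero_norm hV hlim0
  have hV2 : Tendsto (fun T : ℝ => ∫ y in q₁..q₂, G (((-T : ℝ) : ℂ) + (y : ℂ) * Complex.I)) atTop
      (𝓝 0) := by
    refine squeeze_zero_norm (fun T => ?_) hlim0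
    have := hV (-T)
    rwa [abs_neg] at this
  have hH : ∀ q ∈ Set.uIcc q₁ q₂, Tendsto (fun T : ℝ => ∫ p in (-T)..T,
      G ((p : ℂ) + (q : ℂ) * Complex.I)) atTop
      (𝓝 (∫ p : ℝ, G ((p : ℂ) + (q : ℂ) * Complex.I))) := fun q hq =>
    intervalIntegral_tendsto_integral (hInt q hq) tendsto_neg_atTop_atBot tendsto_id
  have hR : ∀ T : ℝ, (∫ p in (-T)..T, G ((p : ℂ) + (q₁ : ℂ) * Complex.I)) -
      (∫ p in (-T)..T, G ((p : ℂ) + (q₂ : ℂ) * Complex.I)) +
      Complex.I • (∫ y in q₁..q₂, G ((T : ℂ) + (y : ℂ) * Complex.I)) -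
      Complex.I • (∫ y in q₁..q₂, G (((-T : ℝ) : ℂ) + (y : ℂ) * Complex.I)) = 0 := by
    intro T
    have h := Complex.integral_boundary_rect_eq_zero_of_differentiableOn G
      (⟨-T, q₁⟩ : ℂ) (⟨T, q₂⟩ : ℂ) (hG.mono (fun z hz => (Complex.mem_reProdIm.1 hz).2))
    exact h
  have hfin : Tendsto (fun T : ℝ => (∫ p in (-T)..T, G ((p : ℂ) + (q₁ : ℂ) * Complex.I)) -
      (∫ p in (-T)..T, G ((p : ℂ) + (q₂ : ℂ) * Complex.I)) +
      Complex.I • (∫ y in q₁..q₂, G ((T : ℂ) + (y : ℂ) * Complex.I)) -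
      Complex.I • (∫ y in q₁..q₂, G (((-T : ℝ) : ℂ) + (y : ℂ) * Complex.I))) atTop
      (𝓝 ((∫ p : ℝ, G ((p : ℂ) + (q₁ : ℂ) * Complex.I)) -
        (∫ p : ℝ, G ((p : ℂ) + (q₂ : ℂ) * Complex.I)) + Complex.I • (0 : ℂ) -
        Complex.I • (0 : ℂ))) :=
    (((hH q₁ Set.left_mem_uIcc).sub (hH q₂ Set.right_mem_uIcc)).add (hV1.const_smul _)).sub
      (hV2.const_smul _)
  simp_rw [hR] at hfin
  have := tendsto_nhds_unique hfin tendsto_const_nhds
  simp only [smul_zero, add_zero, sub_zero] at this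
  exact sub_eq_zero.1 this

/-- A function holomorphic on a strip `|re x - im x - c| < w` and decaying exponentially has the
same integral over all slope one lines of the strip. (The derivative in `τ` is
`∫ g'(τ + (1+i)v) dv = 0`; `g'` is bounded by Cauchy's estimate. Or use the rectangle theorem.) -/
theorem line_shift (g : ℂ → ℂ) (c w C δ : ℝ) (hδ : 0 < δ)
    (hg : DifferentiableOn ℂ g {x : ℂ | |x.re - x.im - c| < w})
    (hb : ∀ x : ℂ, |x.re - x.im - c| < w → ‖g x‖ ≤ C * Real.exp (-(δ * |x.im|)))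
    (τ₁ τ₂ : ℝ) (h1 : |τ₁ - c| < w) (h2 : |τ₂ - c| < w) :
    ∫ v : ℝ, g ((τ₁ : ℂ) + (v : ℂ) * (1 + Complex.I)) =
      ∫ v : ℝ, g ((τ₂ : ℂ) + (v : ℂ) * (1 + Complex.I)) := by
  have hC : 0 ≤ C := by
    have := hb (τ₁ : ℂ) (by simpa using h1)
    have h3 : 0 ≤ C * Real.exp (-(δ * |(τ₁ : ℂ).im|)) := (norm_nonneg _).trans this
    exact nonneg_of_mul_nonneg_left h3 (Real.exp_pos _)
  -- coordinates
  have hcoord : ∀ z : ℂ, ((1 + Complex.I) * z).re = z.re - z.im ∧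
      ((1 + Complex.I) * z).im = z.re + z.im := by
    intro z
    constructor
    · simp
    · simp; ring
  have hkey : ∀ τ : ℝ, (∫ v : ℝ, g ((τ : ℂ) + (v : ℂ) * (1 + Complex.I))) =
      ∫ p : ℝ, g ((1 + Complex.I) * ((p : ℂ) + ((-τ / 2 : ℝ) : ℂ) * Complex.I)) := by
    intro τ
    rw [← integral_add_right_eq_self (fun p : ℝ =>
      g ((1 + Complex.I) * ((p : ℂ) + ((-τ / 2 : ℝ) : ℂ) * Complex.I))) (τ / 2)]
    congr 1
    ext v
    congr 1
    push_cast
    linear_combination ((τ : ℂ) / 2) * Complex.I_sq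
  rw [hkey τ₁, hkey τ₂]
  have hmem : ∀ z : ℂ, z.im ∈ Set.uIcc (-τ₁ / 2) (-τ₂ / 2) →
      |((1 + Complex.I) * z).re - ((1 + Complex.I) * z).im - c| < w := by
    intro z hz
    rw [(hcoord z).1, (hcoord z).2]
    rw [Set.mem_uIcc] at hz
    rw [abs_lt] at h1 h2 ⊢
    rcases hz with ⟨h3, h4⟩ | ⟨h3, h4⟩ <;> constructor <;> linarith [h1.1, h1.2, h2.1, h2.2]
  refine ls_horiz (fun z => g ((1 + Complex.I) * z)) (-τ₁ / 2) (-τ₂ / 2) C δ hδ hC ?_ ?_
  · intro z hz
    have h3 := hmem z hz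
    have h4 : DifferentiableWithinAt ℂ g {x : ℂ | |x.re - x.im - c| < w} ((1 + Complex.I) * z) :=
      hg _ h3
    exact h4.comp z ((differentiableAt_id.const_mul (1 + Complex.I)).differentiableWithinAt)
      (fun z' hz' => hmem z' hz')
  · intro z hz
    have h3 := hb _ (hmem z hz)
    rwa [(hcoord z).2] at h3

end Pool.Agent.RAux
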