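import Mathlib
import Pool.Agent.RAux.Defs
import Pool.Agent.RAux.LineShift

/-!
The integral of the polar part.
-/

set_option autoImplicit false

open Complex MeasureTheory Filter Topology

namespace Pool.Agent.RAux

/-- the inner integral over the line -/
theorem polar_inner (τ s : ℝ) :
    ∫ v : ℝ, Complex.exp ((Real.pi : ℂ) * Complex.I * ((τ : ℂ) + (v : ℂ) * (1 + Complex.I)) ^ 2) *
      Complex.exp (-((1 + Complex.I) * ((τ : ℂ) + (v : ℂ) * (1 + Complex.I))) * s) =
      ((1 / 2 : ℂ) ^ (1 / 2 : ℂ)) * Complex.exp (-((s : ℂ) ^ 2 / (2 * Real.pi))) := by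
  have hpi : (Real.pi : ℂ) ≠ 0 := by exact_mod_cast Real.pi_ne_zero
  have h1 : ∀ v : ℝ,
      Complex.exp ((Real.pi : ℂ) * Complex.I * ((τ : ℂ) + (v : ℂ) * (1 + Complex.I)) ^ 2) *
      Complex.exp (-((1 + Complex.I) * ((τ : ℂ) + (v : ℂ) * (1 + Complex.I))) * s) =
      Complex.exp ((-(2 * Real.pi) : ℂ) * (v : ℂ) ^ 2 +
        (2 * Real.pi * Complex.I * τ * (1 + Complex.I) - 2 * Complex.I * s) * (v : ℂ) +
        (Real.pi * Complex.I * (τ : ℂ) ^ 2 - (1 + Complex.I) * s * τ)) := by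
    intro v
    rw [← Complex.exp_add]
    congr 1
    have hI : Complex.I ^ 2 = -1 := Complex.I_sq
    have hI3 : Complex.I ^ 3 = -Complex.I := by
      rw [pow_succ, hI]
      ring
    ring_nf
    rw [hI, hI3]
    ring
  rw [integral_congr_ae (Filter.Eventually.of_forall h1),
    integral_cexp_quadratic (by simp [Real.pi_pos])]
  congr 1
  · congr 1
    field_simp
  · congr 1
    field_simp
    have hI : Complex.I ^ 2 = -1 := Complex.I_sq
    have hI3 : Complex.I ^ 3 = -Complex.I := by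
      rw [pow_succ, hI]
      ring
    have hI4 : Complex.I ^ 4 = 1 := by
      rw [show (4 : ℕ) = 2 * 2 from rfl, pow_mul, hI]
      norm_num
    ring_nf
    simp only [hI, hI3, hI4]
    ring

theorem polar_outer : ∫ s in Set.Ioi (0 : ℝ), Complex.exp (-((s : ℂ) ^ 2 / (2 * Real.pi))) =
    ((Real.pi / Real.sqrt 2 : ℝ) : ℂ) := by
  have h1 : ∀ s : ℝ, Complex.exp (-((s : ℂ) ^ 2 / (2 * Real.pi))) =
      ((Real.exp (-(1 / (2 * Real.pi)) * s ^ 2) : ℝ) : ℂ) := by
    intro s
    push_cast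
    congr 1
    ring
  simp only [h1]
  rw [integral_complex_ofReal, integral_gaussian_Ioi]
  congr 1
  have hp := Real.pi_pos
  have h2 : Real.pi / (1 / (2 * Real.pi)) = 2 * Real.pi ^ 2 := by
    field_simp
  rw [h2, Real.sqrt_mul (by norm_num), Real.sqrt_sq hp.le]
  have h3 : Real.sqrt 2 ≠ 0 := by positivity
  have h4 : Real.sqrt 2 * Real.sqrt 2 = 2 := Real.mul_self_sqrt (by norm_num)
  field_simp
  nlinarith

/-- `∫ e^{iπx²}/x` over the slope one line through `τ > 0` (parametrised by `v`) is `(1+i)π/2`: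
write `1/x = ω ∫_0^∞ e^{-ω x s} ds`, `ω = 1 + i`; the inner Gaussian integral is
`∫ e^{-2πv²-2ivs} dv = e^{-s²/(2π)}/√2` after moving the line to `τ = 0`. -/
theorem polar_integral (τ : ℝ) (hτ : 0 < τ) :
    ∫ v : ℝ, Complex.exp ((Real.pi : ℂ) * Complex.I * ((τ : ℂ) + (v : ℂ) * (1 + Complex.I)) ^ 2) /
      ((τ : ℂ) + (v : ℂ) * (1 + Complex.I)) = (1 + Complex.I) * Real.pi / 2 := by
  have hre : ∀ v : ℝ, ((1 + Complex.I) * ((τ : ℂ) + (v : ℂ) * (1 + Complex.I))).re = τ := by
    intro v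
    simp [Complex.mul_re, Complex.add_re, Complex.mul_im]
  set f : ℝ → ℝ → ℂ := fun v s =>
    Complex.exp ((Real.pi : ℂ) * Complex.I * ((τ : ℂ) + (v : ℂ) * (1 + Complex.I)) ^ 2) *
      Complex.exp (-((1 + Complex.I) * ((τ : ℂ) + (v : ℂ) * (1 + Complex.I))) * s) with hf
  have e1 : ∀ v : ℝ,
      Complex.exp ((Real.pi : ℂ) * Complex.I * ((τ : ℂ) + (v : ℂ) * (1 + Complex.I)) ^ 2) /
      ((τ : ℂ) + (v : ℂ) * (1 + Complex.I)) = (1 + Complex.I) * ∫ s in Set.Ioi (0 : ℝ), f v s := by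
    intro v
    have hne : (1 + Complex.I) * ((τ : ℂ) + (v : ℂ) * (1 + Complex.I)) ≠ 0 := by
      intro h
      have := hre v
      rw [h] at this
      simp at this
      linarith
    have h1 : (1 + Complex.I : ℂ) ≠ 0 := left_ne_zero_of_mul hne
    have h2 : ((τ : ℂ) + (v : ℂ) * (1 + Complex.I)) ≠ 0 := right_ne_zero_of_mul hne
    simp only [hf]
    rw [integral_const_mul, integral_exp_mul_complex_Ioi (by
      rw [Complex.neg_re, hre v]
      linarith) 0]
    simp only [Complex.ofReal_zero, mul_zero, Complex.exp_zero]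
    field_simp
  rw [integral_congr_ae (Filter.Eventually.of_forall e1), integral_const_mul]
  have hint : Integrable (Function.uncurry f) (volume.prod (volume.restrict (Set.Ioi (0 : ℝ)))) := by
    have g1 : Integrable (fun v : ℝ =>
        Complex.exp ((-(2 * Real.pi) : ℂ) * (v : ℂ) ^ 2 + (-(2 * Real.pi * τ) : ℂ) * v + 0)) :=
      integrable_cexp_quadratic' (by simp [Real.pi_pos]) _ _
    have g2 : Integrable (fun s : ℝ => Real.exp (-τ * s)) (volume.restrict (Set.Ioi (0 : ℝ))) :=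
      integrableOn_exp_mul_Ioi (by linarith) 0
    refine Integrable.mono' (g1.norm.mul_prod g2) ?_ ?_
    · apply Continuous.aestronglyMeasurable
      simp only [hf]
      unfold Function.uncurry
      fun_prop
    · refine Filter.Eventually.of_forall ?_
      rintro ⟨v, s⟩
      simp only [hf, Function.uncurry]
      rw [norm_mul, Complex.norm_exp, Complex.norm_exp, Complex.norm_exp]
      apply le_of_eq
      congr 1
      · congr 1
        simp [Complex.mul_re, Complex.add_re, Complex.mul_im, pow_two]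
        ring
      · congr 1
        rw [Complex.mul_re, Complex.neg_re, hre v]
        simp
  rw [integral_integral_swap hint]
  have e2 : ∀ s : ℝ, ∫ v : ℝ, f v s =
      ((1 / 2 : ℂ) ^ (1 / 2 : ℂ)) * Complex.exp (-((s : ℂ) ^ 2 / (2 * Real.pi))) :=
    fun s => polar_inner τ s
  rw [integral_congr_ae (Filter.Eventually.of_forall e2), integral_const_mul, polar_outer]
  have e3 : ((1 / 2 : ℂ) ^ (1 / 2 : ℂ)) = ((1 / Real.sqrt 2 : ℝ) : ℂ) := by
    have : ((1 / 2 : ℂ) ^ (1 / 2 : ℂ)) = (((1 / 2 : ℝ) ^ (1 / 2 : ℝ) : ℝ) : ℂ) := by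
      rw [Complex.ofReal_cpow (by norm_num)]
      norm_num
    rw [this, ← Real.sqrt_eq_rpow, Real.sqrt_div (by norm_num), Real.sqrt_one]
  rw [e3, ← Complex.ofReal_mul]
  have e4 : 1 / Real.sqrt 2 * (Real.pi / Real.sqrt 2) = Real.pi / 2 := by
    have h4 : Real.sqrt 2 * Real.sqrt 2 = 2 := Real.mul_self_sqrt (by norm_num)
    rw [div_mul_div_comm, h4, one_mul]
  rw [e4]
  push_cast
  ring

end Pool.Agent.RAux
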