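import Mathlib
import Pool.Agent.RAux.Defs
import Pool.Agent.RAux.LineShift
import Pool.Agent.RAux.Polar

/-!
Moving the line of integration across the integer `k`.
-/

set_option autoImplicit false

open Complex MeasureTheory Filter Topology

namespace Pool.Agent.RAux

namespace RSh

/-- the point with parameter `v` of the slope one line through `c` -/
noncomputable def lpt (c v : ℝ) : ℂ := (c : ℂ) + (v : ℂ) * (1 + Complex.I)

theorem lpt_re (c v : ℝ) : (lpt c v).re = c + v := by simp [lpt]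

theorem lpt_im (c v : ℝ) : (lpt c v).im = v := by simp [lpt]

theorem eq_lpt (x : ℂ) : x = lpt (x.re - x.im) x.im := by
  apply Complex.ext
  · rw [lpt_re]; ring
  · rw [lpt_im]

/-- the denominator of the integrand -/
noncomputable def rden (x : ℂ) : ℂ :=
  Complex.exp ((Real.pi : ℂ) * Complex.I * x) - Complex.exp (-((Real.pi : ℂ) * Complex.I * x))

theorem norm_exp_sq_rs (c v : ℝ) :
    ‖Complex.exp ((Real.pi : ℂ) * Complex.I * (lpt c v) ^ 2)‖ =
      Real.exp (-(2 * Real.pi * v ^ 2 + 2 * Real.pi * c * v)) := by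
  rw [Complex.norm_exp]
  congr 1
  have : ((Real.pi : ℂ) * Complex.I * (lpt c v) ^ 2).re = -(Real.pi * ((lpt c v) ^ 2).im) := by
    simp [Complex.mul_re]
  rw [this, sq, Complex.mul_im, lpt_re, lpt_im]
  ring

theorem lpt_norm_ge (c v : ℝ) : c / 2 ≤ ‖lpt c v‖ := by
  have h1 := Complex.abs_re_le_norm (lpt c v)
  have h2 := Complex.abs_im_le_norm (lpt c v)
  rw [lpt_re] at h1
  rw [lpt_im] at h2
  have h3 := abs_le.1 h1
  have h4 := abs_le.1 h2
  linarith [h3.2, h4.1]

theorem lpt_norm_le {c c₁ : ℝ} (v : ℝ) (hc : |c| ≤ c₁) : ‖lpt c v‖ ≤ c₁ + 2 * |v| := by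
  unfold lpt
  refine (norm_add_le _ _).trans ?_
  rw [norm_mul, Complex.norm_real, Complex.norm_real, Real.norm_eq_abs, Real.norm_eq_abs]
  have h1 : ‖(1 : ℂ) + Complex.I‖ ≤ 2 := by
    refine (norm_add_le _ _).trans ?_
    rw [norm_one, Complex.norm_I]
    norm_num
  nlinarith [abs_nonneg v]

theorem norm_lptt_cpow (s : ℂ) {c c₀ c₁ : ℝ} (h0 : 0 < c₀) (hc0 : c₀ ≤ c) (hc1 : c ≤ c₁) (v : ℝ) :
    ‖(lpt c v) ^ (-s)‖ ≤ Real.exp (Real.pi * |s.im| + |s.re| * (c₁ + 2 / c₀ + 2 * |v|)) := by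
  have hcpos : 0 < c := lt_of_lt_of_le h0 hc0
  have hr1 := lpt_norm_ge c v
  have hr2 : ‖lpt c v‖ ≤ c₁ + 2 * |v| := lpt_norm_le v (by rw [abs_of_pos hcpos]; exact hc1)
  have hrpos : 0 < ‖lpt c v‖ := by linarith
  have hne : lpt c v ≠ 0 := norm_pos_iff.1 hrpos
  rw [Complex.norm_cpow_of_ne_zero hne, Complex.neg_re, Complex.neg_im,
    Real.rpow_def_of_pos hrpos, ← Real.exp_sub]
  apply Real.exp_le_exp.2
  have hlog1 : Real.log ‖lpt c v‖ ≤ c₁ + 2 / c₀ + 2 * |v| := by
    have := Real.log_le_sub_one_of_pos hrpos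
    have h2 : 0 < 2 / c₀ := by positivity
    linarith
  have hlog2 : -(c₁ + 2 / c₀ + 2 * |v|) ≤ Real.log ‖lpt c v‖ := by
    have h1 := Real.log_le_sub_one_of_pos (inv_pos.2 hrpos)
    rw [Real.log_inv] at h1
    have h2 : ‖lpt c v‖⁻¹ ≤ 2 / c₀ := by
      rw [inv_eq_one_div, div_le_div_iff₀ hrpos h0]
      linarith
    have h3 : 0 ≤ |v| := abs_nonneg v
    linarith
  have hlog : |Real.log ‖lpt c v‖| ≤ c₁ + 2 / c₀ + 2 * |v| := abs_le.2 ⟨hlog2, hlog1⟩
  have h5 : Real.log ‖lpt c v‖ * -s.re ≤ |s.re| * (c₁ + 2 / c₀ + 2 * |v|) := by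
    refine (le_abs_self _).trans ?_
    rw [abs_mul, abs_neg, mul_comm]
    exact mul_le_mul_of_nonneg_left hlog (abs_nonneg _)
  have h6 : -(Complex.arg (lpt c v) * -s.im) ≤ Real.pi * |s.im| := by
    refine (le_abs_self _).trans ?_
    rw [abs_neg, abs_mul, abs_neg]
    exact mul_le_mul_of_nonneg_right (Complex.abs_arg_le_pi _) (abs_nonneg _)
  linarith

/-- the numerator decays, uniformly on strips -/
theorem num_bound (s : ℂ) {c₀ c₁ : ℝ} (h0 : 0 < c₀) : ∃ C : ℝ, 0 ≤ C ∧ ∀ c v : ℝ, c₀ ≤ c → c ≤ c₁ →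
    ‖(lpt c v) ^ (-s) * Complex.exp ((Real.pi : ℂ) * Complex.I * (lpt c v) ^ 2)‖ ≤
      C * Real.exp (-|v|) := by
  set B := 2 * |s.re| + 2 * Real.pi * c₁ + 1 with hB
  refine ⟨Real.exp (Real.pi * |s.im| + |s.re| * (c₁ + 2 / c₀) + B ^ 2 / 4), (Real.exp_pos _).le,
    fun c v hc0 hc1 => ?_⟩
  rw [norm_mul, norm_exp_sq_rs]
  refine (mul_le_mul_of_nonneg_right (norm_lptt_cpow s h0 hc0 hc1 v) (Real.exp_pos _).le).trans ?_
  rw [← Real.exp_add, ← Real.exp_add]
  apply Real.exp_le_exp.2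
  have hc : 0 < c := lt_of_lt_of_le h0 hc0
  have hπ : 3 < Real.pi := Real.pi_gt_three
  have h1 : -(2 * Real.pi * c * v) ≤ 2 * Real.pi * c₁ * |v| := by
    have h2 : -(2 * Real.pi * c * v) ≤ 2 * Real.pi * c * |v| := by
      have h3 : -v ≤ |v| := neg_le_abs v
      have h4 : 0 ≤ 2 * Real.pi * c := by positivity
      nlinarith
    have h3 : 2 * Real.pi * c * |v| ≤ 2 * Real.pi * c₁ * |v| := by
      apply mul_le_mul_of_nonneg_right _ (abs_nonneg v)
      apply mul_le_mul_of_nonneg_left hc1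
      positivity
    linarith
  have h2 : |v| ^ 2 ≤ 2 * Real.pi * v ^ 2 := by
    rw [sq_abs]
    nlinarith [sq_nonneg v]
  have h3 : B * |v| ≤ |v| ^ 2 + B ^ 2 / 4 := by nlinarith [sq_nonneg (|v| - B / 2)]
  have h4 : B * |v| = 2 * |s.re| * |v| + 2 * Real.pi * c₁ * |v| + |v| := by rw [hB]; ring
  nlinarith

/-- the polar part decays -/
theorem gauss_bound : ∃ C : ℝ, 0 ≤ C ∧ ∀ c v : ℝ, |c| ≤ 1 →
    ‖Complex.exp ((Real.pi : ℂ) * Complex.I * (lpt c v) ^ 2)‖ ≤ C * Real.exp (-|v|) := by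
  set B := 2 * Real.pi + 1 with hB
  refine ⟨Real.exp (B ^ 2 / 4), (Real.exp_pos _).le, fun c v hc => ?_⟩
  rw [norm_exp_sq_rs, ← Real.exp_add]
  apply Real.exp_le_exp.2
  have hπ : 3 < Real.pi := Real.pi_gt_three
  have h1 : -(2 * Real.pi * c * v) ≤ 2 * Real.pi * |v| := by
    have h2 : -(c * v) ≤ |v| := by
      refine (neg_le_abs _).trans ?_
      rw [abs_mul]
      exact mul_le_of_le_one_left (abs_nonneg v) hc
    nlinarith
  have h2 : |v| ^ 2 ≤ 2 * Real.pi * v ^ 2 := by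
    rw [sq_abs]
    nlinarith [sq_nonneg v]
  have h3 : B * |v| ≤ |v| ^ 2 + B ^ 2 / 4 := by nlinarith [sq_nonneg (|v| - B / 2)]
  have h4 : B * |v| = 2 * Real.pi * |v| + |v| := by rw [hB]; ring
  linarith

theorem norm_exp_lin (c v : ℝ) :
    ‖Complex.exp ((Real.pi : ℂ) * Complex.I * lpt c v)‖ = Real.exp (-(Real.pi * v)) := by
  rw [Complex.norm_exp]
  congr 1
  have : ((Real.pi : ℂ) * Complex.I * lpt c v).re = -(Real.pi * (lpt c v).im) := by
    simp [Complex.mul_re]
  rw [this, lpt_im]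

theorem norm_exp_lin' (c v : ℝ) :
    ‖Complex.exp (-((Real.pi : ℂ) * Complex.I * lpt c v))‖ = Real.exp (Real.pi * v) := by
  rw [Complex.exp_neg, norm_inv, norm_exp_lin, ← Real.exp_neg, neg_neg]

theorem rden_large (c : ℝ) {v : ℝ} (hv : 1 ≤ |v|) : 1 ≤ ‖rden (lpt c v)‖ := by
  have h1 := abs_norm_sub_norm_le (Complex.exp ((Real.pi : ℂ) * Complex.I * lpt c v))
    (Complex.exp (-((Real.pi : ℂ) * Complex.I * lpt c v)))
  rw [norm_exp_lin, norm_exp_lin'] at h1
  refine le_trans ?_ h1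
  have hπ : 3 < Real.pi := Real.pi_gt_three
  have key : ∀ w : ℝ, 1 ≤ w → 1 ≤ Real.exp (Real.pi * w) - Real.exp (-(Real.pi * w)) := by
    intro w hw
    have h2 : Real.pi * w + 1 ≤ Real.exp (Real.pi * w) := Real.add_one_le_exp _
    have h3 : Real.exp (-(Real.pi * w)) ≤ 1 := Real.exp_le_one_iff.2 (by nlinarith)
    nlinarith
  rcases le_abs.1 hv with h | h
  · have := key v h
    rw [abs_sub_comm]
    exact this.trans (le_abs_self _)
  · have := key (-v) h
    refine le_trans ?_ (le_abs_self _)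
    rw [mul_neg, neg_neg] at this
    exact this

theorem rden_eq_zero {x : ℂ} (h : rden x = 0) : ∃ n : ℤ, x = n := by
  unfold rden at h
  rw [sub_eq_zero, Complex.exp_neg] at h
  have h1 : Complex.exp (2 * ((Real.pi : ℂ) * Complex.I * x)) = 1 := by
    rw [two_mul, Complex.exp_add]
    nth_rewrite 2 [h]
    exact mul_inv_cancel₀ (Complex.exp_ne_zero _)
  obtain ⟨n, hn⟩ := Complex.exp_eq_one_iff.1 h1
  refine ⟨n, ?_⟩
  have hpi : (Real.pi : ℂ) ≠ 0 := by exact_mod_cast Real.pi_ne_zero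
  have hI := Complex.I_ne_zero
  have h2 : (2 * (Real.pi : ℂ) * Complex.I) * x = (2 * (Real.pi : ℂ) * Complex.I) * n := by
    linear_combination hn
  exact mul_left_cancel₀ (by simp [hpi]) h2

theorem continuous_lpt (c : ℝ) : Continuous (lpt c) := by unfold lpt; fun_prop

theorem differentiable_rden : Differentiable ℂ rden := by unfold rden; fun_prop

theorem rInt_eq_rs (s x : ℂ) : rInt s x =
    x ^ (-s) * Complex.exp ((Real.pi : ℂ) * Complex.I * x ^ 2) / rden x := rfl

end RSh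

open RSh

/-- On lines not through an integer the integrand decays. -/
theorem rInt_bound (s : ℂ) (c : ℝ) (hc : 0 < c) (hc' : ∀ n : ℤ, (n : ℝ) ≠ c) :
    ∃ C : ℝ, ∀ v : ℝ, ‖rInt s ((c : ℂ) + (v : ℂ) * (1 + Complex.I))‖ ≤
      C * Real.exp (-|v|) := by
  obtain ⟨C, hC0, hC⟩ := num_bound s (c₁ := c) hc
  have hne : ∀ v, rden (lpt c v) ≠ 0 := by
    intro v hv
    obtain ⟨n, hn⟩ := rden_eq_zero hv
    have h1 : v = 0 := by
      have := congrArg Complex.im hn
      rwa [lpt_im, Complex.intCast_im] at this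
    have h2 := congrArg Complex.re hn
    rw [lpt_re, Complex.intCast_re, h1, add_zero] at h2
    exact hc' n h2.symm
  -- lower bound of the denominator
  have hcont : Continuous fun v => ‖rden (lpt c v)‖ :=
    (differentiable_rden.continuous.comp (continuous_lpt c)).norm
  obtain ⟨v₀, hv₀, hmin⟩ := (isCompact_Icc (a := (-1 : ℝ)) (b := 1)).exists_isMinOn
    ⟨0, by norm_num⟩ hcont.continuousOn
  have hd0 : 0 < ‖rden (lpt c v₀)‖ := norm_pos_iff.2 (hne v₀)
  set d := min ‖rden (lpt c v₀)‖ 1 with hd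
  have hdpos : 0 < d := lt_min hd0 one_pos
  have hdle : ∀ v, d ≤ ‖rden (lpt c v)‖ := by
    intro v
    rcases le_total |v| 1 with h | h
    · exact (min_le_left _ _).trans (hmin (abs_le.1 h))
    · exact (min_le_right _ _).trans (rden_large c h)
  refine ⟨C / d, fun v => ?_⟩
  show ‖rInt s (lpt c v)‖ ≤ _
  rw [rInt_eq_rs, norm_div, div_mul_eq_mul_div]
  exact div_le_div₀ (mul_nonneg hC0 (Real.exp_pos _).le) (hC c v le_rfl le_rfl) hdpos (hdle v)

namespace RSh

theorem integrable_of_exp_bound {g : ℝ → ℂ} (hg : Continuous g) {C : ℝ}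
    (h : ∀ v, ‖g v‖ ≤ C * Real.exp (-|v|)) : Integrable g := by
  have hC : 0 ≤ C := by
    have h1 := h 0
    rw [abs_zero, neg_zero, Real.exp_zero, mul_one] at h1
    exact (norm_nonneg _).trans h1
  refine Integrable.mono' (integrable_inv_one_add_sq.const_mul (C * 2)) hg.aestronglyMeasurable
    (Eventually.of_forall fun v => (h v).trans ?_)
  rw [mul_assoc]
  refine mul_le_mul_of_nonneg_left ?_ hC
  have h1 := Real.quadratic_le_exp_of_nonneg (abs_nonneg v)
  rw [sq_abs] at h1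
  rw [Real.exp_neg, ← div_eq_mul_inv, inv_eq_one_div, div_le_div_iff₀ (Real.exp_pos _) (by positivity)]
  nlinarith [abs_nonneg v]

theorem rden_natCast_exp (k : ℕ) :
    Complex.exp ((Real.pi : ℂ) * Complex.I * k) = (-1) ^ k := by
  rw [mul_comm, Complex.exp_nat_mul, Complex.exp_pi_mul_I]

theorem neg_one_pow_inv (k : ℕ) : (((-1 : ℂ)) ^ k)⁻¹ = (-1) ^ k := by
  rw [← inv_pow, inv_neg, inv_one]

theorem rden_natCast (k : ℕ) : rden k = 0 := by
  unfold rden
  rw [Complex.exp_neg, rden_natCast_exp, neg_one_pow_inv, sub_self]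

theorem deriv_rden_natCast (k : ℕ) :
    deriv rden k = 2 * Real.pi * Complex.I * (-1) ^ k := by
  have h1 : HasDerivAt rden (Complex.exp ((Real.pi : ℂ) * Complex.I * k) *
      ((Real.pi : ℂ) * Complex.I * 1) -
      Complex.exp (-((Real.pi : ℂ) * Complex.I * k)) * -((Real.pi : ℂ) * Complex.I * 1)) k :=
    (((hasDerivAt_id (k : ℂ)).const_mul _).cexp).sub
      (((hasDerivAt_id (k : ℂ)).const_mul _).neg.cexp)
  rw [h1.deriv, Complex.exp_neg, rden_natCast_exp, neg_one_pow_inv]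
  ring

theorem exp_sq_natCast (k : ℕ) :
    Complex.exp ((Real.pi : ℂ) * Complex.I * (k : ℂ) ^ 2) = (-1) ^ k := by
  have h1 : ((Real.pi : ℂ) * Complex.I * (k : ℂ) ^ 2) =
      ((k ^ 2 : ℕ) : ℂ) * ((Real.pi : ℂ) * Complex.I) := by
    push_cast
    ring
  rw [h1, Complex.exp_nat_mul, Complex.exp_pi_mul_I]
  rcases Nat.even_or_odd k with h | h
  · rw [h.neg_one_pow, (h.pow_of_ne_zero two_ne_zero).neg_one_pow]
  · rw [h.neg_one_pow, (h.pow).neg_one_pow]

theorem lpt_neg (c v : ℝ) : lpt (-c) (-v) = -lpt c v := by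
  unfold lpt
  push_cast
  ring

/-- the polar part on the line through `c` -/
noncomputable def pol (c v : ℝ) : ℂ :=
  Complex.exp ((Real.pi : ℂ) * Complex.I * (lpt c v) ^ 2) / lpt c v

theorem pol_neg (c v : ℝ) : pol (-c) v = -pol c (-v) := by
  have h : lpt (-c) v = -lpt c (-v) := by
    rw [← lpt_neg, neg_neg]
  unfold pol
  rw [h, neg_sq, div_neg]

theorem integral_pol : ∫ v : ℝ, pol (1 / 2) v = (1 + Complex.I) * Real.pi / 2 :=
  polar_integral (1 / 2) (by norm_num)

theorem integrable_pol : Integrable (pol (1 / 2)) := by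
  obtain ⟨C, hC0, hC⟩ := gauss_bound
  have hn : ∀ v, (1 : ℝ) / 2 / 2 ≤ ‖lpt (1 / 2) v‖ := fun v => lpt_norm_ge (1 / 2) v
  have hne : ∀ v, lpt (1 / 2) v ≠ 0 := fun v =>
    norm_pos_iff.1 (lt_of_lt_of_le (by norm_num) (hn v))
  have hcont : Continuous (pol (1 / 2)) := by
    unfold pol
    exact ((continuous_const.mul ((continuous_lpt _).pow 2)).cexp).div (continuous_lpt _) hne
  refine integrable_of_exp_bound hcont (C := C / (1 / 2 / 2)) fun v => ?_
  unfold pol
  rw [norm_div, div_mul_eq_mul_div]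
  exact div_le_div₀ (mul_nonneg hC0 (Real.exp_pos _).le)
    (hC _ v (by norm_num [abs_of_pos])) (by norm_num) (hn v)

theorem integrable_pol' : Integrable (pol (-(1 / 2))) := by
  have h : pol (-(1 / 2)) = fun v => -pol (1 / 2) (-v) := by
    funext v
    exact pol_neg _ v
  rw [h]
  exact integrable_pol.comp_neg.neg

theorem integral_pol' : ∫ v : ℝ, pol (-(1 / 2)) v = -((1 + Complex.I) * Real.pi / 2) := by
  have h : pol (-(1 / 2)) = fun v => -pol (1 / 2) (-v) := by
    funext v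
    exact pol_neg _ v
  rw [h, integral_neg, integral_neg_eq_self (fun v => pol (1 / 2) v) volume, integral_pol]

end RSh

/-- Crossing the pole at `k`. -/
theorem lineR_shift (k : ℕ) (hk : 1 ≤ k) (s : ℂ) :
    lineR (k - 1 / 2) s = (k : ℂ) ^ (-s) + lineR (k + 1 / 2) s := by
  have hk' : (1 : ℝ) ≤ k := by exact_mod_cast hk
  have hpi : (Real.pi : ℂ) ≠ 0 := by exact_mod_cast Real.pi_ne_zero
  have hI := Complex.I_ne_zero
  set S : Set ℂ := {x : ℂ | |x.re - x.im - k| < 1} with hS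
  have hSo : IsOpen S := isOpen_lt (by fun_prop) continuous_const
  have hkS : (k : ℂ) ∈ S := by simp [hS]
  have hslit : ∀ x ∈ S, x ∈ Complex.slitPlane := by
    intro x hx
    rw [Complex.mem_slitPlane_iff]
    by_contra hcon
    push Not at hcon
    have h1 := (abs_lt.1 (show |x.re - x.im - k| < 1 from hx)).1
    rw [hcon.2] at h1
    linarith [hcon.1]
  set d : ℂ → ℂ := dslope rden k with hd
  have hd_ne : ∀ x : ℂ, x ≠ k → d x = rden x / (x - k) := by
    intro x hx
    rw [hd, dslope_of_ne _ hx, slope_def_field, rden_natCast, sub_zero]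
  have hd_k : d k = 2 * Real.pi * Complex.I * (-1) ^ k := by
    rw [hd, dslope_same, deriv_rden_natCast]
  have hd0 : ∀ x ∈ S, d x ≠ 0 := by
    intro x hx
    by_cases hxk : x = k
    · rw [hxk, hd_k]
      have : (-1 : ℂ) ^ k ≠ 0 := pow_ne_zero _ (by norm_num)
      simp [hpi, hI]
    · rw [hd_ne x hxk]
      refine div_ne_zero (fun h0 => ?_) (sub_ne_zero.2 hxk)
      obtain ⟨n, hn⟩ := rden_eq_zero h0
      apply hxk
      have h1 : |(n : ℝ) - k| < 1 := by
        have h2 : |x.re - x.im - k| < 1 := hx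
        rw [hn, Complex.intCast_re, Complex.intCast_im, sub_zero] at h2
        exact h2
      have h2 : |n - (k : ℤ)| < 1 := by exact_mod_cast h1
      have h3 : n = (k : ℤ) := by
        have := Int.abs_lt_one_iff.1 h2
        omega
      rw [hn, h3]
      simp
  have hdd : DifferentiableOn ℂ d S :=
    (Complex.differentiableOn_dslope (hSo.mem_nhds hkS)).2 differentiable_rden.differentiableOn
  set h : ℂ → ℂ := fun x => x ^ (-s) * Complex.exp ((Real.pi : ℂ) * Complex.I * x ^ 2) / d x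
    with hh
  have hhk : h k = (k : ℂ) ^ (-s) / (2 * Real.pi * Complex.I) := by
    show (k : ℂ) ^ (-s) * Complex.exp ((Real.pi : ℂ) * Complex.I * (k : ℂ) ^ 2) / d k = _
    rw [exp_sq_natCast, hd_k]
    have : (-1 : ℂ) ^ k ≠ 0 := pow_ne_zero _ (by norm_num)
    field_simp
  have hhd : DifferentiableOn ℂ h S := by
    refine DifferentiableOn.div (DifferentiableOn.mul ?_ ?_) hdd hd0
    · intro x hx
      exact (DifferentiableAt.cpow_const differentiableAt_id
        (hslit x hx)).differentiableWithinAt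
    · exact Differentiable.differentiableOn (by fun_prop)
  set H : ℂ → ℂ := fun x => h x - h k * Complex.exp ((Real.pi : ℂ) * Complex.I * (x - k) ^ 2)
    with hH
  have hHd : DifferentiableOn ℂ H S :=
    hhd.sub (Differentiable.differentiableOn (by fun_prop))
  have hHk : H k = 0 := by
    show h k - h k * Complex.exp ((Real.pi : ℂ) * Complex.I * ((k : ℂ) - k) ^ 2) = 0
    simp
  set f : ℂ → ℂ := dslope H k with hf
  have hfd : DifferentiableOn ℂ f S :=
    (Complex.differentiableOn_dslope (hSo.mem_nhds hkS)).2 hHd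
  have hf_ne : ∀ x : ℂ, x ≠ k → f x = rInt s x -
      h k * (Complex.exp ((Real.pi : ℂ) * Complex.I * (x - k) ^ 2) / (x - k)) := by
    intro x hx
    have hxk : x - k ≠ 0 := sub_ne_zero.2 hx
    rw [hf, dslope_of_ne _ hx, slope_def_field, hHk, sub_zero, rInt_eq_rs]
    show (x ^ (-s) * Complex.exp ((Real.pi : ℂ) * Complex.I * x ^ 2) / d x -
      h k * Complex.exp ((Real.pi : ℂ) * Complex.I * (x - k) ^ 2)) / (x - k) = _
    rw [hd_ne x hx, sub_div, mul_div_assoc (h k)]
    congr 1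
    by_cases h0 : rden x = 0
    · rw [h0]; simp
    · field_simp
  have hlpS : ∀ c v : ℝ, |c - k| < 1 → lpt c v ∈ S := by
    intro c v hc
    show |(lpt c v).re - (lpt c v).im - k| < 1
    rw [lpt_re, lpt_im, add_sub_cancel_right]
    exact hc
  have hlpk : ∀ c v : ℝ, lpt c v - k = lpt (c - k) v := by
    intro c v
    unfold lpt
    push_cast
    ring
  -- the bound
  obtain ⟨C₁, hC₁0, hC₁⟩ := num_bound s (c₀ := 1 / 4) (c₁ := k + 1) (by norm_num)
  obtain ⟨C₂, hC₂0, hC₂⟩ := gauss_bound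
  obtain ⟨C₀, hC₀⟩ := ((isCompact_Icc (a := (k : ℝ) - 3 / 4) (b := k + 3 / 4)).prod
    (isCompact_Icc (a := (-1 : ℝ)) (b := 1))).exists_bound_of_continuousOn
    (f := fun p : ℝ × ℝ => f (lpt p.1 p.2)) (by
      refine hfd.continuousOn.comp (Continuous.continuousOn (by unfold lpt; fun_prop)) ?_
      rintro ⟨c, v⟩ ⟨hc, hv⟩
      have hc1 : (k : ℝ) - 3 / 4 ≤ c := hc.1
      have hc2 : c ≤ (k : ℝ) + 3 / 4 := hc.2
      exact hlpS c v (abs_lt.2 ⟨by linarith, by linarith⟩))
  have hC₀0 : 0 ≤ C₀ := (norm_nonneg _).trans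
    (hC₀ ((k : ℝ), 0) ⟨⟨by show (k : ℝ) - 3 / 4 ≤ k; linarith, by show (k : ℝ) ≤ k + 3 / 4; linarith⟩,
      ⟨by norm_num, by norm_num⟩⟩)
  set C := C₀ * Real.exp 1 + C₁ + ‖h k‖ * C₂ with hC
  have hCn : 0 ≤ C := by positivity
  have hfb : ∀ c v : ℝ, |c - k| < 3 / 4 → ‖f (lpt c v)‖ ≤ C * Real.exp (-|v|) := by
    intro c v hc
    have hc' := abs_lt.1 hc
    rcases le_total |v| 1 with hv | hv
    · have h1 := hC₀ (c, v) ⟨⟨by linarith [hc'.1], by linarith [hc'.2]⟩, abs_le.1 hv⟩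
      refine h1.trans ?_
      have h2 : C₀ ≤ C₀ * Real.exp 1 * Real.exp (-|v|) := by
        rw [mul_assoc, ← Real.exp_add]
        refine le_mul_of_one_le_right hC₀0 (Real.one_le_exp (by linarith))
      refine h2.trans (mul_le_mul_of_nonneg_right ?_ (Real.exp_pos _).le)
      rw [hC]
      have : 0 ≤ ‖h k‖ * C₂ := by positivity
      linarith
    · have hvne : v ≠ 0 := by
        rintro rfl
        simp at hv
        linarith
      have hxk : lpt c v ≠ k := by
        intro h0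
        have := congrArg Complex.im h0
        rw [lpt_im, Complex.natCast_im] at this
        exact hvne this
      rw [hf_ne _ hxk]
      refine (norm_sub_le _ _).trans ?_
      have h1 : ‖rInt s (lpt c v)‖ ≤ C₁ * Real.exp (-|v|) := by
        rw [rInt_eq_rs, norm_div]
        refine div_le_of_le_mul₀ (norm_nonneg _) (by positivity) ?_
        refine (hC₁ c v (by linarith [hc'.1]) (by linarith [hc'.2])).trans ?_
        exact le_mul_of_one_le_right (by positivity) (rden_large c hv)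
      have h2 : ‖h k * (Complex.exp ((Real.pi : ℂ) * Complex.I * (lpt c v - k) ^ 2) /
          (lpt c v - k))‖ ≤ ‖h k‖ * C₂ * Real.exp (-|v|) := by
        rw [norm_mul (h k), mul_assoc ‖h k‖]
        refine mul_le_mul_of_nonneg_left ?_ (norm_nonneg (h k))
        rw [hlpk, norm_div]
        have h3 : 1 ≤ ‖lpt (c - k) v‖ := by
          have := Complex.abs_im_le_norm (lpt (c - k) v)
          rw [lpt_im] at this
          exact hv.trans this
        refine div_le_of_le_mul₀ (norm_nonneg _) (by positivity) ?_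
        refine (hC₂ (c - k) v (by linarith)).trans ?_
        exact le_mul_of_one_le_right (by positivity) h3
      have h3 : C * Real.exp (-|v|) = C₀ * Real.exp 1 * Real.exp (-|v|) +
          C₁ * Real.exp (-|v|) + ‖h k‖ * C₂ * Real.exp (-|v|) := by rw [hC]; ring
      have h4 : 0 ≤ C₀ * Real.exp 1 * Real.exp (-|v|) := by positivity
      linarith
  -- the shift
  have hshift := line_shift f k (3 / 4) C 1 one_pos
    (hfd.mono (fun x (hx : |x.re - x.im - k| < 3 / 4) => lt_trans hx (by norm_num)))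
    (fun x hx => by
      rw [one_mul]
      conv_lhs => rw [eq_lpt x]
      exact hfb _ _ hx) (k - 1 / 2) (k + 1 / 2)
    (by rw [sub_sub_cancel_left, abs_neg]; norm_num [abs_of_pos])
    (by rw [add_sub_cancel_left]; norm_num [abs_of_pos])
  have hshift' : ∫ v : ℝ, f (lpt (k - 1 / 2) v) = ∫ v : ℝ, f (lpt (k + 1 / 2) v) := hshift
  have hne : ∀ c v : ℝ, c ≠ k → lpt c v ≠ k := by
    intro c v hc h0
    apply hc
    have h1 := congrArg Complex.im h0
    rw [lpt_im, Complex.natCast_im] at h1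
    have h2 := congrArg Complex.re h0
    rw [lpt_re, Complex.natCast_re, h1, add_zero] at h2
    exact h2
  have hfi : ∀ c : ℝ, |c - k| < 3 / 4 → Integrable fun v => f (lpt c v) := by
    intro c hc
    refine integrable_of_exp_bound ?_ (fun v => hfb c v hc)
    exact hfd.continuousOn.comp_continuous (continuous_lpt c)
      (fun v => hlpS c v (lt_trans hc (by norm_num)))
  have hm : |(k : ℝ) - 1 / 2 - k| < 3 / 4 := by
    rw [sub_sub_cancel_left, abs_neg]; norm_num [abs_of_pos]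
  have hp : |(k : ℝ) + 1 / 2 - k| < 3 / 4 := by
    rw [add_sub_cancel_left]; norm_num [abs_of_pos]
  have e1 : ∫ v : ℝ, rInt s (lpt (k - 1 / 2) v) = (∫ v : ℝ, f (lpt (k - 1 / 2) v)) +
      h k * -((1 + Complex.I) * Real.pi / 2) := by
    rw [← integral_pol', ← integral_const_mul, ← integral_add (hfi _ hm)
      (integrable_pol'.const_mul _)]
    refine integral_congr_ae (Eventually.of_forall fun v => ?_)
    show rInt s (lpt (k - 1 / 2) v) = f (lpt (k - 1 / 2) v) + h k * pol (-(1 / 2)) v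
    rw [hf_ne _ (hne _ v (by linarith)), hlpk]
    unfold pol
    rw [sub_sub_cancel_left]
    ring
  have e2 : ∫ v : ℝ, rInt s (lpt (k + 1 / 2) v) = (∫ v : ℝ, f (lpt (k + 1 / 2) v)) +
      h k * ((1 + Complex.I) * Real.pi / 2) := by
    rw [← integral_pol, ← integral_const_mul, ← integral_add (hfi _ hp)
      (integrable_pol.const_mul _)]
    refine integral_congr_ae (Eventually.of_forall fun v => ?_)
    show rInt s (lpt (k + 1 / 2) v) = f (lpt (k + 1 / 2) v) + h k * pol (1 / 2) v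
    rw [hf_ne _ (hne _ v (by linarith)), hlpk]
    unfold pol
    rw [add_sub_cancel_left]
    ring
  have l1 : lineR (k - 1 / 2) s = -(1 + Complex.I) * ∫ v : ℝ, rInt s (lpt (k - 1 / 2) v) := rfl
  have l2 : lineR (k + 1 / 2) s = -(1 + Complex.I) * ∫ v : ℝ, rInt s (lpt (k + 1 / 2) v) := rfl
  rw [l1, l2, e1, e2, hshift', hhk]
  have hI2 : Complex.I ^ 2 = -1 := Complex.I_sq
  field_simp
  ring_nf
  rw [hI2]
  ring

theorem auxR_eq_sum_add (M : ℕ) (s : ℂ) :
    auxR s = ∑ n ∈ Finset.Icc 1 M, (n : ℂ) ^ (-s) + lineR (M + 1 / 2) s := by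
  induction M with
  | zero => simp [auxR]
  | succ M ih =>
    rw [ih, Finset.sum_Icc_succ_top (by omega)]
    have := lineR_shift (M + 1) (by omega) s
    push_cast at this ⊢
    rw [show (M : ℝ) + 1 - 1 / 2 = M + 1 / 2 by ring] at this
    rw [this]
    ring

end Pool.Agent.RAux
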