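import Mathlib
import Pool.Agent.RAux.Defs
import Pool.Agent.RAux.RShift
import Pool.Agent.RAux.RBound
import Pool.Agent.RAux.REntire

/-!
The auxiliary function as a Dirichlet polynomial.
-/

set_option autoImplicit false

open Complex MeasureTheory Filter Topology

namespace Pool.Agent.RAux

theorem auxR_approx (A : ℝ) (hA : 0 ≤ A) : ∃ C : ℝ, 0 ≤ C ∧ ∀ (M : ℕ) (s : ℂ), 1 ≤ M →
    |s.re| ≤ A → 2 * Real.pi * (M : ℝ) ^ 2 ≤ s.im → s.im ≤ 2 * Real.pi * ((M : ℝ) + 1) ^ 2 →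
    ‖auxR s - ∑ n ∈ Finset.Icc 1 M, (n : ℂ) ^ (-s)‖ ≤ C * (M : ℝ) ^ (-s.re) := by
  obtain ⟨C, hC, h⟩ := lineR_bound A hA
  refine ⟨C, hC, fun M s hM hs h1 h2 => ?_⟩
  rw [auxR_eq_sum_add M s, add_sub_cancel_left]
  exact h M s hM hs h1 h2

end Pool.Agent.RAux
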