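import Mathlib
import Pool.Agent.RAux.Defs
import Pool.Agent.RAux.RApprox
import Pool.Agent.RAux.MeanValue

/-!
The auxiliary function on blocks of heights.
-/

set_option autoImplicit false

open Complex MeasureTheory Filter Topology

namespace Pool.Agent.RAux

/-- The coefficients `n^{-h}` on `(N, M]`. -/
noncomputable def blkf (N M : ℕ) (h : ℝ) : ArithmeticFunction ℂ :=
  ⟨fun n => if n = 0 then 0 else if N < n ∧ n ≤ M then (((n : ℝ) ^ (-h) : ℝ) : ℂ) else 0, by simp⟩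

theorem blkf_apply (N M : ℕ) (h : ℝ) (n : ℕ) (hn : n ≠ 0) :
    blkf N M h n = if N < n ∧ n ≤ M then (((n : ℝ) ^ (-h) : ℝ) : ℂ) else 0 := by
  show (if n = 0 then 0 else if N < n ∧ n ≤ M then (((n : ℝ) ^ (-h) : ℝ) : ℂ) else 0) = _
  rw [if_neg hn]

theorem blkf_support (N M : ℕ) (h : ℝ) : ∀ m, M < m → blkf N M h m = 0 := by
  intro m hm
  rw [blkf_apply N M h m (by omega), if_neg (by omega)]

theorem blkf_DP (N M : ℕ) (hNM : N ≤ M) (h t : ℝ) :
    DP (blkf N M h) t =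
      ∑ n ∈ Finset.Icc 1 M, (n : ℂ) ^ (-((1 / 2 : ℂ) + (h : ℂ) + (t : ℂ) * Complex.I)) -
      ∑ n ∈ Finset.Icc 1 N, (n : ℂ) ^ (-((1 / 2 : ℂ) + (h : ℂ) + (t : ℂ) * Complex.I)) := by
  rw [DP_eq_sum _ M (blkf_support N M h) t]
  rw [← Finset.sum_filter_add_sum_filter_not (Finset.Icc 1 M) (fun n => N < n)
    (fun n => (n : ℂ) ^ (-((1 / 2 : ℂ) + (h : ℂ) + (t : ℂ) * Complex.I)))]
  have h2 : (Finset.Icc 1 M).filter (fun n => ¬ N < n) = Finset.Icc 1 N := by
    ext n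
    simp only [Finset.mem_filter, Finset.mem_Icc]
    omega
  rw [h2, add_sub_cancel_right, Finset.sum_filter]
  refine Finset.sum_congr rfl fun m hm => ?_
  have hm1 := Finset.mem_Icc.mp hm
  have hm0 : (m : ℂ) ≠ 0 := by exact_mod_cast (by omega : m ≠ 0)
  rw [blkf_apply N M h m (by omega)]
  by_cases hN : N < m
  · rw [if_pos ⟨hN, hm1.2⟩, if_pos hN, Complex.ofReal_cpow (by positivity)]
    rw [show (-((1 / 2 : ℂ) + (h : ℂ) + (t : ℂ) * Complex.I)) =
      (-(h : ℂ)) + (-(1 / 2 + (t : ℂ) * Complex.I)) by ring, Complex.cpow_add _ _ hm0]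
    push_cast
    rfl
  · rw [if_neg (fun hh => hN hh.1), if_neg hN, zero_mul]

/-- `n^{-h} ≤ e^{2B}` for `n ≤ 2N`. -/
theorem rpow_blk_le (B : ℝ) (_hB : 0 ≤ B) (N n : ℕ) (hN : 2 ≤ N) (hn : 1 ≤ n) (hn2 : n ≤ 2 * N)
    (h : ℝ) (hh : |h| ≤ B / Real.log N) : (n : ℝ) ^ (-h) ≤ Real.exp (2 * B) := by
  have hNr : (2 : ℝ) ≤ N := by exact_mod_cast hN
  have hnr : (1 : ℝ) ≤ n := by exact_mod_cast hn
  have hlogN : 0 < Real.log N := Real.log_pos (by linarith)
  have hlogn : 0 ≤ Real.log n := Real.log_nonneg hnr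
  have hlog2 : Real.log n ≤ 2 * Real.log N := by
    have h1 : (n : ℝ) ≤ (N : ℝ) ^ 2 := by
      have : (n : ℝ) ≤ 2 * N := by exact_mod_cast hn2
      nlinarith
    calc Real.log n ≤ Real.log ((N : ℝ) ^ 2) := Real.log_le_log (by linarith) h1
      _ = 2 * Real.log N := by rw [Real.log_pow]; norm_num
  rw [Real.rpow_def_of_pos (by linarith)]
  apply Real.exp_le_exp.mpr
  calc Real.log n * -h ≤ Real.log n * |h| := by
        gcongr
        exact neg_le_abs h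
    _ ≤ (2 * Real.log N) * (B / Real.log N) := by
        gcongr
    _ = 2 * B := by field_simp

theorem blkf_M2 (B : ℝ) (hB : 0 ≤ B) (N M J : ℕ) (hN : 2 ≤ N) (hNM : N ≤ M) (hMJ : M ≤ N + J)
    (hM2 : M ≤ 2 * N) (h : ℝ) (hh : |h| ≤ B / Real.log N) :
    M2 (blkf N M h) M ≤ J * (Real.exp (4 * B) / N) := by
  unfold M2
  have hNr : (2 : ℝ) ≤ N := by exact_mod_cast hN
  have h2 : ∑ m ∈ Finset.Icc 1 M, ‖blkf N M h m‖ ^ 2 / (m : ℝ) ≤
      ∑ m ∈ (Finset.Icc 1 M).filter (fun n => N < n), Real.exp (4 * B) / N := by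
    rw [Finset.sum_filter]
    refine Finset.sum_le_sum fun m hm => ?_
    have hm1 := Finset.mem_Icc.mp hm
    rw [blkf_apply N M h m (by omega)]
    by_cases hNm : N < m
    · rw [if_pos ⟨hNm, hm1.2⟩, if_pos hNm, Complex.norm_real]
      have h3 := rpow_blk_le B hB N m hN (by omega) (by omega) h hh
      have h4 : (0 : ℝ) ≤ (m : ℝ) ^ (-h) := by positivity
      rw [Real.norm_of_nonneg h4]
      have h5 : (N : ℝ) ≤ m := by exact_mod_cast hNm.le
      have h6 : ((m : ℝ) ^ (-h)) ^ 2 ≤ Real.exp (4 * B) := by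
        calc ((m : ℝ) ^ (-h)) ^ 2 ≤ (Real.exp (2 * B)) ^ 2 := by gcongr
          _ = Real.exp (4 * B) := by rw [← Real.exp_nat_mul]; congr 1; push_cast; ring
      have : (0 : ℝ) < N := by linarith
      exact div_le_div₀ (Real.exp_pos _).le h6 this h5
    · rw [if_neg (fun hh => hNm hh.1), if_neg hNm]
      simp
  refine h2.trans ?_
  rw [Finset.sum_const, nsmul_eq_mul]
  have h3 : (Finset.Icc 1 M).filter (fun n => N < n) = Finset.Icc (N + 1) M := by
    ext n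
    simp only [Finset.mem_filter, Finset.mem_Icc]
    omega
  rw [h3, Nat.card_Icc]
  have h4 : ((M + 1 - (N + 1) : ℕ) : ℝ) ≤ J := by exact_mod_cast (by omega : M + 1 - (N + 1) ≤ J)
  exact mul_le_mul_of_nonneg_right h4 (by positivity)

theorem continuous_poly_line (N : ℕ) (h : ℝ) : Continuous fun t : ℝ =>
    ∑ n ∈ Finset.Icc 1 N, (n : ℂ) ^ (-((1 / 2 : ℂ) + (h : ℂ) + (t : ℂ) * Complex.I)) := by
  refine continuous_finsetSum _ fun m hm => ?_
  have hm0 : (m : ℂ) ≠ 0 := by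
    have := (Finset.mem_Icc.mp hm).1
    exact_mod_cast (by omega : m ≠ 0)
  exact Continuous.const_cpow (by fun_prop) (Or.inl hm0)

theorem continuous_auxR_line (h : ℝ) : Continuous fun t : ℝ =>
    auxR ((1 / 2 : ℂ) + (h : ℂ) + (t : ℂ) * Complex.I) :=
  auxR_differentiable.continuous.comp (by fun_prop)

/-- One block. -/
theorem one_block (B : ℝ) (hB : 0 ≤ B) (C : ℝ) (hC : 0 ≤ C)
    (happ : ∀ (M : ℕ) (s : ℂ), 1 ≤ M →
    |s.re| ≤ 1 / 2 + B / Real.log 2 → 2 * Real.pi * (M : ℝ) ^ 2 ≤ s.im →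
    s.im ≤ 2 * Real.pi * ((M : ℝ) + 1) ^ 2 →
    ‖auxR s - ∑ n ∈ Finset.Icc 1 M, (n : ℂ) ^ (-s)‖ ≤ C * (M : ℝ) ^ (-s.re))
    (N M J : ℕ) (h : ℝ) (hN : 2 ≤ N) (hNM : N ≤ M) (hMJ : M ≤ N + J) (hM2 : M + 1 ≤ 2 * N)
    (hh : |h| ≤ B / Real.log N) :
    ∫ t in (2 * Real.pi * (M : ℝ) ^ 2)..(2 * Real.pi * ((M : ℝ) + 1) ^ 2),
      ‖auxR ((1 / 2 : ℂ) + (h : ℂ) + (t : ℂ) * Complex.I) -
        ∑ n ∈ Finset.Icc 1 N, (n : ℂ) ^ (-((1 / 2 : ℂ) + (h : ℂ) + (t : ℂ) * Complex.I))‖ ^ 2 ≤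
      12 * Real.pi * C ^ 2 * Real.exp (4 * B) + 132 * Real.exp (4 * B) * (J * Real.log N) := by
  have hNr : (2 : ℝ) ≤ N := by exact_mod_cast hN
  have hMr : (2 : ℝ) ≤ M := by exact_mod_cast hN.trans hNM
  have hM2r : (M : ℝ) + 1 ≤ 2 * N := by exact_mod_cast hM2
  have hlog2 : (0.69 : ℝ) < Real.log 2 := by linarith [Real.log_two_gt_d9]
  have hlog2N : Real.log 2 ≤ Real.log N := Real.log_le_log (by norm_num) hNr
  have hlogN : 0 < Real.log N := by linarith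
  have hpi := Real.pi_pos
  have hpi4 := Real.pi_lt_d2
  set E := Real.exp (4 * B) with hE
  have hEpos : 0 < E := Real.exp_pos _
  set a : ℝ := 2 * Real.pi * (M : ℝ) ^ 2 with ha
  set H : ℝ := 2 * Real.pi * (2 * (M : ℝ) + 1) with hHdef
  have hH0 : 0 ≤ H := by positivity
  have hb : 2 * Real.pi * ((M : ℝ) + 1) ^ 2 = a + H := by
    rw [ha, hHdef]; ring
  rw [hb]
  have hc1 := continuous_auxR_line h
  have hc2 := continuous_poly_line N h
  have hcD : Continuous (DP (blkf N M h)) := DP_continuous _ M (blkf_support N M h)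
  have hhr : |h| ≤ B / Real.log 2 := hh.trans (by gcongr)
  -- pointwise bound
  have hpt : ∀ t ∈ Set.Icc a (a + H),
      ‖auxR ((1 / 2 : ℂ) + (h : ℂ) + (t : ℂ) * Complex.I) -
        ∑ n ∈ Finset.Icc 1 N, (n : ℂ) ^ (-((1 / 2 : ℂ) + (h : ℂ) + (t : ℂ) * Complex.I))‖ ^ 2 ≤
      2 * (C ^ 2 * (E / M)) + 2 * ‖DP (blkf N M h) t‖ ^ 2 := by
    intro t ht
    set s : ℂ := (1 / 2 : ℂ) + (h : ℂ) + (t : ℂ) * Complex.I with hs
    have hre : s.re = 1 / 2 + h := by rw [hs]; simp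
    have him : s.im = t := by rw [hs]; simp
    have h1 := happ M s (by omega) (by
      rw [hre]
      calc |1 / 2 + h| ≤ |(1 / 2 : ℝ)| + |h| := abs_add_le _ _
        _ ≤ 1 / 2 + B / Real.log 2 := by
          rw [abs_of_pos (by norm_num : (0 : ℝ) < 1 / 2)]; linarith) (by rw [him]; exact ht.1)
      (by rw [him, hb]; exact ht.2)
    rw [hre] at h1
    have h2 : C * (M : ℝ) ^ (-(1 / 2 + h)) ≤ C * ((M : ℝ) ^ (-(1 / 2) : ℝ) * Real.exp (2 * B)) := by
      rw [show -(1 / 2 + h) = -(1 / 2) + -h by ring, Real.rpow_add (by linarith)]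
      have := rpow_blk_le B hB N M hN (by omega) (by omega) h hh
      gcongr
    have h3 := h1.trans h2
    have h4 : ‖auxR s - ∑ n ∈ Finset.Icc 1 M, (n : ℂ) ^ (-s)‖ ^ 2 ≤ C ^ 2 * (E / M) := by
      calc ‖auxR s - ∑ n ∈ Finset.Icc 1 M, (n : ℂ) ^ (-s)‖ ^ 2
          ≤ (C * ((M : ℝ) ^ (-(1 / 2) : ℝ) * Real.exp (2 * B))) ^ 2 := by gcongr
        _ = C ^ 2 * (E / M) := by
          have e1 : ((M : ℝ) ^ (-(1 / 2) : ℝ)) ^ 2 = (M : ℝ)⁻¹ := by
            rw [← Real.rpow_natCast, ← Real.rpow_mul (by linarith), ← Real.rpow_neg_one]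
            norm_num
          have e2 : (Real.exp (2 * B)) ^ 2 = E := by
            rw [← Real.exp_nat_mul, hE]
            congr 1
            push_cast
            ring
          rw [mul_pow, mul_pow, e1, e2]
          ring
    have h5 : auxR s - ∑ n ∈ Finset.Icc 1 N, (n : ℂ) ^ (-s) =
        (auxR s - ∑ n ∈ Finset.Icc 1 M, (n : ℂ) ^ (-s)) + DP (blkf N M h) t := by
      rw [blkf_DP N M hNM h t]
      ring
    rw [h5]
    have h6 := norm_add_le (auxR s - ∑ n ∈ Finset.Icc 1 M, (n : ℂ) ^ (-s)) (DP (blkf N M h) t)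
    have h7 : ‖(auxR s - ∑ n ∈ Finset.Icc 1 M, (n : ℂ) ^ (-s)) + DP (blkf N M h) t‖ ^ 2 ≤
        (‖auxR s - ∑ n ∈ Finset.Icc 1 M, (n : ℂ) ^ (-s)‖ + ‖DP (blkf N M h) t‖) ^ 2 := by
      gcongr
    nlinarith [sq_nonneg (‖auxR s - ∑ n ∈ Finset.Icc 1 M, (n : ℂ) ^ (-s)‖ -
      ‖DP (blkf N M h) t‖)]
  have hI : ∫ t in a..(a + H),
      ‖auxR ((1 / 2 : ℂ) + (h : ℂ) + (t : ℂ) * Complex.I) -
        ∑ n ∈ Finset.Icc 1 N, (n : ℂ) ^ (-((1 / 2 : ℂ) + (h : ℂ) + (t : ℂ) * Complex.I))‖ ^ 2 ≤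
      ∫ t in a..(a + H), (2 * (C ^ 2 * (E / M)) + 2 * ‖DP (blkf N M h) t‖ ^ 2) := by
    refine intervalIntegral.integral_mono_on (by linarith) ?_ ?_ hpt
    · exact (((hc1.sub hc2).norm).pow 2).intervalIntegrable _ _
    · exact (continuous_const.add (continuous_const.mul (hcD.norm.pow 2))).intervalIntegrable _ _
  refine hI.trans ?_
  have hci : IntervalIntegrable (fun t : ℝ => 2 * ‖DP (blkf N M h) t‖ ^ 2) volume a (a + H) :=
    (continuous_const.mul (hcD.norm.pow 2)).intervalIntegrable _ _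
  rw [intervalIntegral.integral_add (continuous_const.intervalIntegrable _ _) hci,
    intervalIntegral.integral_const, intervalIntegral.integral_const_mul, smul_eq_mul,
    add_sub_cancel_left]
  have hmv := mean_value (blkf N M h) M (blkf_support N M h) a H hH0
  have hm2 := blkf_M2 B hB N M J hN hNM hMJ (by omega) h hh
  have hm20 : 0 ≤ M2 (blkf N M h) M := Finset.sum_nonneg fun m _ => by positivity
  have hlogM : Real.log M ≤ 2 * Real.log N := by
    have h1 : (M : ℝ) ≤ (N : ℝ) ^ 2 := by nlinarith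
    calc Real.log M ≤ Real.log ((N : ℝ) ^ 2) := Real.log_le_log (by linarith) h1
      _ = 2 * Real.log N := by rw [Real.log_pow]; norm_num
  have hmv2 : ∫ t in a..(a + H), ‖DP (blkf N M h) t‖ ^ 2 ≤ 66 * E * (J * Real.log N) := by
    have h1 : ∫ t in a..(a + H), ‖DP (blkf N M h) t‖ ^ 2 ≤
        (H + 4 * M * (1 + Real.log M)) * M2 (blkf N M h) M := by
      have := (abs_le.mp hmv).2
      linarith
    have hlogM0 : 0 ≤ Real.log M := Real.log_nonneg (by linarith)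
    have h2 : H + 4 * M * (1 + Real.log M) ≤ 66 * N * Real.log N := by
      have h3 : H ≤ 26 * N := by
        rw [hHdef]
        nlinarith
      have h4 : 4 * (M : ℝ) * (1 + Real.log M) ≤ 8 * N * (1 + 2 * Real.log N) := by
        have : (4 * (M : ℝ)) ≤ 8 * N := by linarith
        have h5 : (1 + Real.log M) ≤ 1 + 2 * Real.log N := by linarith
        exact mul_le_mul this h5 (by linarith) (by linarith)
      nlinarith
    calc ∫ t in a..(a + H), ‖DP (blkf N M h) t‖ ^ 2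
        ≤ (H + 4 * M * (1 + Real.log M)) * M2 (blkf N M h) M := h1
      _ ≤ (66 * N * Real.log N) * (J * (E / N)) := by
          apply mul_le_mul h2 hm2 hm20
          positivity
      _ = 66 * E * (J * Real.log N) := by
          field_simp
  have hfirst : H * (2 * (C ^ 2 * (E / M))) ≤ 12 * Real.pi * C ^ 2 * E := by
    have : H * (2 * (C ^ 2 * (E / M))) = (H / M) * (2 * C ^ 2 * E) := by
      field_simp
    rw [this]
    have h8 : H / M ≤ 6 * Real.pi := by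
      rw [div_le_iff₀ (by linarith), hHdef]
      nlinarith
    calc H / M * (2 * C ^ 2 * E) ≤ 6 * Real.pi * (2 * C ^ 2 * E) := by gcongr
      _ = 12 * Real.pi * C ^ 2 * E := by ring
  nlinarith

/-- On the block `[2πN², 2π(N+J)²]` the polynomial may be replaced by the one of fixed length `N`:
on `[2πM², 2π(M+1)²]` use `auxR_approx` and `mean_value` for `Σ_{N < n ≤ M}`. -/
theorem block_error (B : ℝ) (hB : 0 ≤ B) : ∃ C : ℝ, 0 ≤ C ∧ ∀ (N J : ℕ) (h : ℝ), 2 ≤ N → 1 ≤ J →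
    J ≤ N → |h| ≤ B / Real.log N →
    ∫ t in (2 * Real.pi * (N : ℝ) ^ 2)..(2 * Real.pi * ((N : ℝ) + J) ^ 2),
      ‖auxR ((1 / 2 : ℂ) + (h : ℂ) + (t : ℂ) * Complex.I) -
        ∑ n ∈ Finset.Icc 1 N, (n : ℂ) ^ (-((1 / 2 : ℂ) + (h : ℂ) + (t : ℂ) * Complex.I))‖ ^ 2 ≤
      C * ((J : ℝ) ^ 2 * Real.log N + J) := by
  obtain ⟨C, hC, happ⟩ := auxR_approx (1 / 2 + B / Real.log 2)
    (by have := Real.log_pos (one_lt_two : (1 : ℝ) < 2); positivity)
  refine ⟨12 * Real.pi * C ^ 2 * Real.exp (4 * B) + 132 * Real.exp (4 * B), by positivity, ?_⟩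
  intro N J h hN hJ1 hJN hh
  have hNr : (2 : ℝ) ≤ N := by exact_mod_cast hN
  have hlogN : 0 < Real.log N := Real.log_pos (by linarith)
  set F : ℝ → ℝ := fun t => ‖auxR ((1 / 2 : ℂ) + (h : ℂ) + (t : ℂ) * Complex.I) -
        ∑ n ∈ Finset.Icc 1 N, (n : ℂ) ^ (-((1 / 2 : ℂ) + (h : ℂ) + (t : ℂ) * Complex.I))‖ ^ 2 with hF
  have hFc : Continuous F := ((continuous_auxR_line h).sub (continuous_poly_line N h)).norm.pow 2
  have hsum := intervalIntegral.sum_integral_adjacent_intervals (f := F) (μ := volume)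
    (a := fun k : ℕ => 2 * Real.pi * ((N : ℝ) + k) ^ 2) (n := J)
    (fun k _ => hFc.intervalIntegrable _ _)
  have h0 : (2 * Real.pi * ((N : ℝ) + (0 : ℕ)) ^ 2) = 2 * Real.pi * (N : ℝ) ^ 2 := by simp
  simp only [h0] at hsum
  rw [← hsum]
  have hblk : ∀ k ∈ Finset.range J,
      ∫ t in (2 * Real.pi * ((N : ℝ) + k) ^ 2)..(2 * Real.pi * ((N : ℝ) + (k + 1 : ℕ)) ^ 2), F t ≤
      12 * Real.pi * C ^ 2 * Real.exp (4 * B) + 132 * Real.exp (4 * B) * (J * Real.log N) := by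
    intro k hk
    have hkJ := Finset.mem_range.mp hk
    have := one_block B hB C hC happ N (N + k) J h hN (by omega) (by omega) (by omega) hh
    push_cast at this ⊢
    rw [← add_assoc]
    exact this
  refine (Finset.sum_le_sum hblk).trans ?_
  rw [Finset.sum_const, Finset.card_range, nsmul_eq_mul]
  have hJr : (1 : ℝ) ≤ J := by exact_mod_cast hJ1
  have hE : 0 < Real.exp (4 * B) := Real.exp_pos _
  have hpi := Real.pi_pos
  have e1 : 0 ≤ 12 * Real.pi * C ^ 2 * Real.exp (4 * B) := by positivity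
  have e2 : 0 ≤ 132 * Real.exp (4 * B) := by positivity
  have e3 : 0 ≤ (J : ℝ) ^ 2 * Real.log N := by positivity
  nlinarith [mul_nonneg e1 e3, mul_nonneg e2 (by linarith : (0 : ℝ) ≤ J)]

end Pool.Agent.RAux
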