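import Mathlib
import Pool.Agent.RAux.Defs
import Pool.Agent.RAux.NTMain
import Pool.Agent.RAux.RBlock
import Pool.Agent.RAux.REntire
import Pool.Agent.RAux.LinAlg

/-!
On every block the bad set has positive density.
-/

set_option autoImplicit false

open Complex MeasureTheory Filter Topology

namespace Pool.Agent.RAux

/-- The bad set for the abscissas `1/2 ± i a / log T`, `1 ≤ i ≤ K'`. -/
def badOne (b T : ℝ) : Set ℝ :=
  {t : ℝ | t ∈ Set.Icc T (2 * T) ∧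
        3 / 2 * Real.exp (3 / 4 * b) *
          ‖auxR ((1 / 2 : ℂ) + ((b / Real.log T : ℝ) : ℂ) + (t : ℂ) * Complex.I)‖ <
        ‖auxR ((1 / 2 : ℂ) - ((b / Real.log T : ℝ) : ℂ) + (t : ℂ) * Complex.I)‖}

def badT (a : ℝ) (K' : ℕ) (T : ℝ) : Set ℝ := ⋃ i ∈ Finset.Icc 1 K', badOne (i * a) T

/-- The error term at the abscissa `1/2 + h`. -/
noncomputable def errE (N : ℕ) (h t : ℝ) : ℂ :=
  auxR ((1 / 2 : ℂ) + (h : ℂ) + (t : ℂ) * Complex.I) -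
    ∑ n ∈ Finset.Icc 1 N, (n : ℂ) ^ (-((1 / 2 : ℂ) + (h : ℂ) + (t : ℂ) * Complex.I))

lemma continuous_auxR_line_bl (h : ℝ) :
    Continuous (fun t : ℝ => auxR ((1 / 2 : ℂ) + (h : ℂ) + (t : ℂ) * Complex.I)) :=
  auxR_differentiable.continuous.comp (by fun_prop)

lemma continuous_errE (N : ℕ) (h : ℝ) : Continuous (fun t : ℝ => errE N h t) := by
  unfold errE
  apply (continuous_auxR_line_bl h).sub
  apply continuous_finset_sum
  intro n hn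
  have hn0 : (n : ℂ) ≠ 0 := by
    have := (Finset.mem_Icc.mp hn).1
    exact_mod_cast (by omega : n ≠ 0)
  apply Continuous.const_cpow
  · fun_prop
  · exact Or.inl hn0

/-- `n^{-(1/2+g+it)} = N^{-g} e^{g L y_n} n^{-(1/2+it)}`. -/
lemma cpow_shift (N n : ℕ) (hN : 1 ≤ N) (hn : 1 ≤ n) (L g t : ℝ) (hL : L ≠ 0) :
    (n : ℂ) ^ (-((1 / 2 : ℂ) + (g : ℂ) + (t : ℂ) * Complex.I)) =
      (((N : ℝ) ^ (-g) : ℝ) : ℂ) * (((Real.exp (g * L * yv N L n) : ℝ) : ℂ) *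
        (n : ℂ) ^ (-(1 / 2 + (t : ℂ) * Complex.I))) := by
  have hn0 : (n : ℂ) ≠ 0 := by exact_mod_cast (by omega : n ≠ 0)
  have hnr : (0 : ℝ) < n := by exact_mod_cast hn
  have hNr : (0 : ℝ) < N := by exact_mod_cast hN
  have h1 : -((1 / 2 : ℂ) + (g : ℂ) + (t : ℂ) * Complex.I) =
      (((-g : ℝ)) : ℂ) + (-(1 / 2 + (t : ℂ) * Complex.I)) := by push_cast; ring
  rw [h1, Complex.cpow_add _ _ hn0, ← mul_assoc]
  congr 1
  have h2 : ((n : ℂ)) ^ (((-g : ℝ)) : ℂ) = (((n : ℝ) ^ (-g) : ℝ) : ℂ) := by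
    rw [Complex.ofReal_cpow hnr.le]; push_cast; rfl
  rw [h2, ← Complex.ofReal_mul]
  congr 1
  have h3 : g * L * yv N L n = g * Real.log ((N : ℝ) / n) := by
    unfold yv; field_simp
  rw [h3, mul_comm g, Real.exp_mul, Real.exp_log (by positivity), Real.div_rpow hNr.le hnr.le,
    Real.rpow_neg hNr.le, Real.rpow_neg hnr.le]
  have : (N : ℝ) ^ g ≠ 0 := (Real.rpow_pos_of_pos hNr g).ne'
  field_simp

/-- Markov's inequality for the error set. -/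
lemma markov_err (N : ℕ) (h t₀ t₁ δ W : ℝ) (ht : t₀ ≤ t₁) (hδ : 0 < δ)
    (hW : ∫ t in t₀..t₁, ‖errE N h t‖ ^ 2 ≤ W) :
    volume {t : ℝ | t ∈ Set.Icc t₀ t₁ ∧ δ < ‖errE N h t‖} ≤ ENNReal.ofReal (W / δ ^ 2) := by
  have hc : Continuous (fun t => ‖errE N h t‖ ^ 2) := (continuous_errE N h).norm.pow 2
  have hint : Integrable (fun t => ‖errE N h t‖ ^ 2) (volume.restrict (Set.Icc t₀ t₁)) :=
    hc.continuousOn.integrableOn_Icc
  have hm := mul_meas_ge_le_integral_of_nonneg (μ := volume.restrict (Set.Icc t₀ t₁))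
    (f := fun t => ‖errE N h t‖ ^ 2) (Eventually.of_forall fun t => by positivity) hint (δ ^ 2)
  rw [integral_Icc_eq_integral_Ioc, ← intervalIntegral.integral_of_le ht] at hm
  have hms : MeasurableSet {t : ℝ | δ ^ 2 ≤ ‖errE N h t‖ ^ 2} :=
    measurableSet_le measurable_const hc.measurable
  have hsub : {t : ℝ | t ∈ Set.Icc t₀ t₁ ∧ δ < ‖errE N h t‖} ⊆
      {t : ℝ | δ ^ 2 ≤ ‖errE N h t‖ ^ 2} ∩ Set.Icc t₀ t₁ := by
    intro t ht'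
    refine ⟨?_, ht'.1⟩
    exact pow_le_pow_left₀ hδ.le ht'.2.le 2
  have hfin : volume ({t : ℝ | δ ^ 2 ≤ ‖errE N h t‖ ^ 2} ∩ Set.Icc t₀ t₁) ≠ ⊤ := by
    apply ne_top_of_le_ne_top _ (measure_mono Set.inter_subset_right)
    simp
  refine (measure_mono hsub).trans ?_
  rw [← ENNReal.ofReal_toReal hfin]
  apply ENNReal.ofReal_le_ofReal
  rw [le_div_iff₀ (by positivity), mul_comm]
  refine le_trans (le_of_eq ?_) (hm.trans hW)
  rw [measureReal_def, Measure.restrict_apply hms]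

/-- The pointwise deduction. -/
lemma dominated_of_good (K K' : ℕ) (hK : K + 1 ≤ K') (a : ℝ) (ha : 0 < a)
    (ha' : 4 * 3 ^ (K' + 1) ≤ Real.exp (a / 4)) (N : ℕ) (hN : 1 ≤ N) (L : ℝ) (hL : 0 < L)
    (hLN : |L - 2 * Real.log N| ≤ 3) (hbig : Real.exp (3 * (K' * a) / L) ≤ 4 / 3)
    (t δ : ℝ) (hδ : 0 < δ)
    (hgood : ∀ i ∈ Finset.Icc 1 K',
      ‖auxR ((1 / 2 : ℂ) - ((i * a / L : ℝ) : ℂ) + (t : ℂ) * Complex.I)‖ ≤
        3 / 2 * Real.exp (3 / 4 * (i * a)) *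
          ‖auxR ((1 / 2 : ℂ) + ((i * a / L : ℝ) : ℂ) + (t : ℂ) * Complex.I)‖)
    (he1 : ∀ i ∈ Finset.Icc 1 K', ‖errE N (i * a / L) t‖ ≤ δ)
    (he2 : ∀ i ∈ Finset.Icc 1 K', ‖errE N (-(i * a / L)) t‖ ≤ δ) :
    ‖DP (arP (psi a (-1) K) N L) t‖ ≤
      2 ^ K * (4 * 4 ^ K' * ∑ ν ∈ Finset.range (K' + 1),
        ‖DP (arP (psi a ν (K' + ν)) N L) t‖ +
          2 * ((3 / 2 * Real.exp (3 / 4 * (K' * a)) + 1) * δ)) := by
  simp only [DP_arP]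
  have hNr : (0 : ℝ) < N := by exact_mod_cast hN
  have hyn : ∀ n ∈ Finset.Icc 1 N, 0 ≤ yv N L n := by
    intro n hn
    rw [Finset.mem_Icc] at hn
    have hn0 : (0 : ℝ) < n := by exact_mod_cast hn.1
    unfold yv
    apply div_nonneg _ hL.le
    apply Real.log_nonneg
    rw [le_div_iff₀ hn0, one_mul]
    exact_mod_cast hn.2
  refine lin_alg K K' hK a ha' (Finset.Icc 1 N) (yv N L) hyn
    (fun n => (n : ℂ) ^ (-(1 / 2 + (t : ℂ) * Complex.I)))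
    ((3 / 2 * Real.exp (3 / 4 * (K' * a)) + 1) * δ) (by positivity) ?_
  intro i hi
  have hi' := Finset.mem_Icc.mp hi
  have hi1 : (1 : ℝ) ≤ i := by exact_mod_cast hi'.1
  have hiK : (i : ℝ) ≤ K' := by exact_mod_cast hi'.2
  set h : ℝ := i * a / L with hh
  have hh0 : 0 < h := by positivity
  have hL' : L ≠ 0 := hL.ne'
  set V : ℂ := ∑ n ∈ Finset.Icc 1 N, ((Real.exp (-(i * a * yv N L n)) : ℝ) : ℂ) *
    (n : ℂ) ^ (-(1 / 2 + (t : ℂ) * Complex.I)) with hV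
  set U : ℂ := ∑ n ∈ Finset.Icc 1 N, ((Real.exp (i * a * yv N L n) : ℝ) : ℂ) *
    (n : ℂ) ^ (-(1 / 2 + (t : ℂ) * Complex.I)) with hU
  have hUeq : ∑ n ∈ Finset.Icc 1 N, (n : ℂ) ^ (-((1 / 2 : ℂ) + (h : ℂ) + (t : ℂ) * Complex.I)) =
      (((N : ℝ) ^ (-h) : ℝ) : ℂ) * U := by
    rw [hU, Finset.mul_sum]
    apply Finset.sum_congr rfl
    intro n hn
    rw [cpow_shift N n hN (Finset.mem_Icc.mp hn).1 L h t hL']
    have : h * L * yv N L n = i * a * yv N L n := by rw [hh]; field_simp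
    rw [this]
  have hVeq : ∑ n ∈ Finset.Icc 1 N,
      (n : ℂ) ^ (-((1 / 2 : ℂ) + ((-h : ℝ) : ℂ) + (t : ℂ) * Complex.I)) =
      (((N : ℝ) ^ h : ℝ) : ℂ) * V := by
    rw [hV, Finset.mul_sum]
    apply Finset.sum_congr rfl
    intro n hn
    rw [cpow_shift N n hN (Finset.mem_Icc.mp hn).1 L (-h) t hL', neg_neg]
    have : -h * L * yv N L n = -(i * a * yv N L n) := by rw [hh]; field_simp
    rw [this]
  have h1 := he1 i hi
  have h2 := he2 i hi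
  have h3 := hgood i hi
  unfold errE at h1 h2
  rw [← hh] at h1 h2 h3
  rw [hUeq] at h1
  rw [hVeq] at h2
  set P : ℂ := auxR ((1 / 2 : ℂ) + (h : ℂ) + (t : ℂ) * Complex.I) with hP
  have hQ' : auxR ((1 / 2 : ℂ) + ((-h : ℝ) : ℂ) + (t : ℂ) * Complex.I) =
      auxR ((1 / 2 : ℂ) - (h : ℂ) + (t : ℂ) * Complex.I) := by
    congr 1; push_cast; ring
  rw [hQ'] at h2
  set Q : ℂ := auxR ((1 / 2 : ℂ) - (h : ℂ) + (t : ℂ) * Complex.I) with hQ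
  have hNh : 0 < (N : ℝ) ^ h := Real.rpow_pos_of_pos hNr h
  have hNh1 : 1 ≤ (N : ℝ) ^ h := Real.one_le_rpow (by exact_mod_cast hN) hh0.le
  have hinv : (N : ℝ) ^ (-h) = ((N : ℝ) ^ h)⁻¹ := Real.rpow_neg hNr.le h
  have n1 : ‖P‖ ≤ ((N : ℝ) ^ h)⁻¹ * ‖U‖ + δ := by
    calc ‖P‖ = ‖(P - (((N : ℝ) ^ (-h) : ℝ) : ℂ) * U) + (((N : ℝ) ^ (-h) : ℝ) : ℂ) * U‖ := by
          congr 1; ring
      _ ≤ ‖P - (((N : ℝ) ^ (-h) : ℝ) : ℂ) * U‖ + ‖(((N : ℝ) ^ (-h) : ℝ) : ℂ) * U‖ :=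
          norm_add_le _ _
      _ ≤ δ + ((N : ℝ) ^ h)⁻¹ * ‖U‖ := by
          apply add_le_add h1
          rw [norm_mul, Complex.norm_real, Real.norm_eq_abs, hinv, abs_of_pos (by positivity)]
      _ = _ := by ring
  have n2 : (N : ℝ) ^ h * ‖V‖ ≤ ‖Q‖ + δ := by
    calc (N : ℝ) ^ h * ‖V‖ = ‖(((N : ℝ) ^ h : ℝ) : ℂ) * V‖ := by
          rw [norm_mul, Complex.norm_real, Real.norm_eq_abs, abs_of_pos hNh]
      _ = ‖Q - (Q - (((N : ℝ) ^ h : ℝ) : ℂ) * V)‖ := by congr 1; ring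
      _ ≤ ‖Q‖ + ‖Q - (((N : ℝ) ^ h : ℝ) : ℂ) * V‖ := norm_sub_le _ _
      _ ≤ ‖Q‖ + δ := by linarith
  set E : ℝ := Real.exp (3 / 4 * (i * a)) with hE
  have hE0 : 0 < E := Real.exp_pos _
  have hEK : E ≤ Real.exp (3 / 4 * (K' * a)) := by
    apply Real.exp_le_exp.mpr
    have := mul_le_mul_of_nonneg_right hiK ha.le
    linarith
  have hkey : 3 / 2 * E * (((N : ℝ) ^ h)⁻¹ * ((N : ℝ) ^ h)⁻¹) ≤ 2 * Real.exp (-(i * a / 4)) := by
    have e1 : ((N : ℝ) ^ h)⁻¹ * ((N : ℝ) ^ h)⁻¹ = Real.exp (-(2 * h * Real.log N)) := by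
      rw [← hinv, ← Real.rpow_add hNr, Real.rpow_def_of_pos hNr]
      congr 1; ring
    rw [e1, hE]
    have e2 : Real.exp (3 / 4 * (i * a)) * Real.exp (-(2 * h * Real.log N)) =
        Real.exp (-(i * a / 4)) * Real.exp (i * a * (L - 2 * Real.log N) / L) := by
      rw [← Real.exp_add, ← Real.exp_add]
      congr 1
      rw [hh]; field_simp; ring
    have e3 : Real.exp (i * a * (L - 2 * Real.log N) / L) ≤ 4 / 3 := by
      refine le_trans (Real.exp_le_exp.mpr ?_) hbig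
      apply div_le_div_of_nonneg_right _ hL.le
      have := (abs_le.mp hLN).2
      calc i * a * (L - 2 * Real.log N) ≤ i * a * 3 :=
            mul_le_mul_of_nonneg_left this (by positivity)
        _ ≤ K' * a * 3 := by
            have := mul_le_mul_of_nonneg_right hiK ha.le
            linarith
        _ = 3 * (K' * a) := by ring
    calc 3 / 2 * Real.exp (3 / 4 * (i * a)) * Real.exp (-(2 * h * Real.log N))
        = 3 / 2 * (Real.exp (3 / 4 * (i * a)) * Real.exp (-(2 * h * Real.log N))) := by ring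
      _ = 3 / 2 * (Real.exp (-(i * a / 4)) * Real.exp (i * a * (L - 2 * Real.log N) / L)) := by
          rw [e2]
      _ ≤ 3 / 2 * (Real.exp (-(i * a / 4)) * (4 / 3)) := by gcongr
      _ = _ := by ring
  have hfin : ‖V‖ ≤ 3 / 2 * E * (((N : ℝ) ^ h)⁻¹ * ((N : ℝ) ^ h)⁻¹) * ‖U‖ +
      (3 / 2 * E + 1) * δ := by
    have i0 : 0 ≤ ((N : ℝ) ^ h)⁻¹ := by positivity
    have i1 : ((N : ℝ) ^ h)⁻¹ ≤ 1 := inv_le_one_of_one_le₀ hNh1
    have hV' : ‖V‖ = ((N : ℝ) ^ h)⁻¹ * ((N : ℝ) ^ h * ‖V‖) := by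
      rw [← mul_assoc, inv_mul_cancel₀ hNh.ne', one_mul]
    rw [hV']
    calc ((N : ℝ) ^ h)⁻¹ * ((N : ℝ) ^ h * ‖V‖)
        ≤ ((N : ℝ) ^ h)⁻¹ * (3 / 2 * E * (((N : ℝ) ^ h)⁻¹ * ‖U‖ + δ) + δ) := by
          apply mul_le_mul_of_nonneg_left _ i0
          refine n2.trans ?_
          have := mul_le_mul_of_nonneg_left n1 (by positivity : 0 ≤ 3 / 2 * E)
          linarith
      _ = 3 / 2 * E * (((N : ℝ) ^ h)⁻¹ * ((N : ℝ) ^ h)⁻¹) * ‖U‖ +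
          ((N : ℝ) ^ h)⁻¹ * ((3 / 2 * E + 1) * δ) := by ring
      _ ≤ 3 / 2 * E * (((N : ℝ) ^ h)⁻¹ * ((N : ℝ) ^ h)⁻¹) * ‖U‖ +
          1 * ((3 / 2 * E + 1) * δ) := by gcongr
      _ = _ := by ring
  calc ‖V‖ ≤ 3 / 2 * E * (((N : ℝ) ^ h)⁻¹ * ((N : ℝ) ^ h)⁻¹) * ‖U‖ + (3 / 2 * E + 1) * δ := hfin
    _ ≤ 2 * Real.exp (-(i * a / 4)) * ‖U‖ +
        (3 / 2 * Real.exp (3 / 4 * (K' * a)) + 1) * δ := by gcongr

end Pool.Agent.RAux
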