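import Mathlib
import Pool.Agent.RAux.Defs
import Pool.Agent.RAux.Block

/-!
On every block the bad set has positive density.
-/

set_option autoImplicit false

open Complex MeasureTheory Filter Topology

namespace Pool.Agent.RAux

/-- `C (N^{-α})... ≤ N^{-β}` eventually, for `β < α`. -/
lemma pow_small (C α β : ℝ) (hαβ : β < α) :
    ∀ᶠ N : ℕ in atTop, C * (N : ℝ) ^ (-α) ≤ (N : ℝ) ^ (-β) := by
  have h1 : Tendsto (fun x : ℝ => C * x ^ (-(α - β))) atTop (𝓝 (C * 0)) :=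
    (tendsto_rpow_neg_atTop (by linarith)).const_mul C
  rw [mul_zero] at h1
  have h2 := (h1.comp tendsto_natCast_atTop_atTop).eventually_le_const one_pos
  filter_upwards [h2, eventually_ge_atTop 1] with N hN hN1
  have hN0 : (0 : ℝ) < N := by exact_mod_cast hN1
  simp only [Function.comp] at hN
  calc C * (N : ℝ) ^ (-α) = (C * (N : ℝ) ^ (-(α - β))) * (N : ℝ) ^ (-β) := by
        rw [mul_assoc, ← Real.rpow_add hN0]; congr 2; ring
    _ ≤ 1 * (N : ℝ) ^ (-β) := mul_le_mul_of_nonneg_right hN (by positivity)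
    _ = _ := one_mul _

lemma log_pow_small (C α c : ℝ) (hα : 0 < α) (hc : 0 < c) :
    ∀ᶠ N : ℕ in atTop, C * ((N : ℝ) ^ (-α) * Real.log N) ≤ c := by
  have h1 : Tendsto (fun x : ℝ => Real.log x / x ^ α) atTop (𝓝 0) :=
    (isLittleO_log_rpow_atTop hα).tendsto_div_nhds_zero
  have h1' := h1.const_mul C
  rw [mul_zero] at h1'
  have h2 := (h1'.comp tendsto_natCast_atTop_atTop).eventually_le_const hc
  filter_upwards [h2, eventually_ge_atTop 1] with N hN hN1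
  have hN0 : (0 : ℝ) < N := by exact_mod_cast hN1
  simp only [Function.comp] at hN
  rw [Real.rpow_neg hN0.le]
  rw [div_eq_mul_inv] at hN
  rwa [mul_comm ((N : ℝ) ^ α)⁻¹]

theorem block_bad : ∃ (a : ℝ) (K' : ℕ) (ε p : ℝ), 0 < a ∧ 0 < ε ∧ ε < 1 ∧ 0 < p ∧
    ∃ N₁ : ℕ, ∀ N : ℕ, N₁ ≤ N → ∀ J : ℕ, (N : ℝ) ^ (1 - ε / 2) / 4 ≤ J →
      (J : ℝ) ≤ (N : ℝ) ^ (1 - ε / 2) → ∀ T : ℝ, T ≤ 2 * Real.pi * (N : ℝ) ^ 2 →
      2 * Real.pi * ((N : ℝ) + J) ^ 2 ≤ 2 * T →
      ENNReal.ofReal (p * (2 * Real.pi * ((N : ℝ) + J) ^ 2 - 2 * Real.pi * (N : ℝ) ^ 2)) ≤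
        volume (badT a K' T ∩
          Set.Icc (2 * Real.pi * (N : ℝ) ^ 2) (2 * Real.pi * ((N : ℝ) + J) ^ 2)) := by
  obtain ⟨K, K', hK, hnt⟩ := nt_main
  set a : ℝ := 4 * Real.log (4 * 3 ^ (K' + 1)) with ha_def
  have h3K : (1 : ℝ) < 4 * 3 ^ (K' + 1) := by
    have : (1 : ℝ) ≤ 3 ^ (K' + 1) := one_le_pow₀ (by norm_num)
    linarith
  have ha : 0 < a := by
    have := Real.log_pos h3K
    positivity
  have ha' : (4 : ℝ) * 3 ^ (K' + 1) ≤ Real.exp (a / 4) := by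
    rw [ha_def, mul_div_cancel_left₀ _ (by norm_num : (4 : ℝ) ≠ 0), Real.exp_log (by linarith)]
  set C₁ : ℝ := 2 ^ K * (4 * 4 ^ K') with hC₁
  obtain ⟨ε, p, hε, hε1, hp, hnt⟩ := hnt a C₁ ha (by positivity)
  obtain ⟨N₂, hnt⟩ := hnt (ε / 40) (by positivity)
  obtain ⟨C, hC, hbe⟩ := block_error (K' * a) (by positivity)
  refine ⟨a, K', ε, p / 2, ha, hε, hε1, by positivity, ?_⟩
  set Cerr : ℝ := 2 ^ K * (2 * (3 / 2 * Real.exp (3 / 4 * (K' * a)) + 1)) with hCerr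
  have hev : ∀ᶠ N : ℕ in atTop, N₂ ≤ N ∧ 2 ≤ N ∧ 1 ≤ Real.log N ∧
      3 * (K' * a) / Real.log (4 / 3) ≤ Real.log N ∧
      Cerr * (N : ℝ) ^ (-(ε / 16)) ≤ (N : ℝ) ^ (-(ε / 40)) ∧
      (4 * K' * C) * ((N : ℝ) ^ (-(3 * ε / 8)) * Real.log N) ≤ 2 * Real.pi * p := by
    have hl : Tendsto (fun N : ℕ => Real.log (N : ℝ)) atTop atTop :=
      Real.tendsto_log_atTop.comp tendsto_natCast_atTop_atTop
    filter_upwards [eventually_ge_atTop N₂, eventually_ge_atTop 2, hl.eventually_ge_atTop 1,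
      hl.eventually_ge_atTop (3 * (K' * a) / Real.log (4 / 3)),
      pow_small Cerr (ε / 16) (ε / 40) (by linarith),
      log_pow_small (4 * K' * C) (3 * ε / 8) (2 * Real.pi * p) (by positivity) (by positivity)]
      with N a1 a2 a3 a4 a5 a6
    exact ⟨a1, a2, a3, a4, a5, a6⟩
  obtain ⟨N₁, hN₁⟩ := eventually_atTop.mp hev
  refine ⟨N₁, fun N hN J hJ1 hJ2 T hT1 hT2 => ?_⟩
  obtain ⟨g1, g2, glog, gexp, gerr, gW⟩ := hN₁ N hN
  have hNr : (0 : ℝ) < N := by exact_mod_cast (by omega : 0 < N)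
  have hN1r : (1 : ℝ) ≤ N := by exact_mod_cast (by omega : 1 ≤ N)
  have hpi := Real.pi_pos
  have hpi3 := Real.pi_gt_three
  have hpi4 := Real.pi_lt_four
  have hJpos : (0 : ℝ) < J := lt_of_lt_of_le (by positivity) hJ1
  have hJ1' : 1 ≤ J := by exact_mod_cast hJpos
  have hJN : J ≤ N := by
    have : (J : ℝ) ≤ N := by
      calc (J : ℝ) ≤ (N : ℝ) ^ (1 - ε / 2) := hJ2
        _ ≤ (N : ℝ) ^ (1 : ℝ) := Real.rpow_le_rpow_of_exponent_le hN1r (by linarith)
        _ = N := Real.rpow_one _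
    exact_mod_cast this
  -- L
  have hTpos : 0 < T := by
    have : 0 < 2 * Real.pi * ((N : ℝ) + J) ^ 2 := by positivity
    linarith
  set L : ℝ := Real.log T with hLdef
  have hL1 : L ≤ 2 * Real.log N + 3 := by
    have h1 : L ≤ Real.log (2 * Real.pi * (N : ℝ) ^ 2) := Real.log_le_log hTpos hT1
    rw [Real.log_mul (by positivity) (by positivity), Real.log_pow] at h1
    have h2 : Real.log (2 * Real.pi) ≤ 3 := by
      rw [Real.log_le_iff_le_exp (by positivity)]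
      have : (2 : ℝ) * Real.pi ≤ 8 := by linarith
      have h8 : (8 : ℝ) ≤ Real.exp 3 := by
        have he : (2 : ℝ) ≤ Real.exp 1 := by
          have := Real.add_one_le_exp (1 : ℝ)
          linarith
        calc (8 : ℝ) = 2 ^ 3 := by norm_num
          _ ≤ (Real.exp 1) ^ 3 := pow_le_pow_left₀ (by norm_num) he 3
          _ = Real.exp 3 := by rw [← Real.exp_nat_mul]; norm_num
      linarith
    push_cast at h1
    linarith
  have hL2 : 2 * Real.log N ≤ L := by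
    have h0 : (N : ℝ) ^ 2 ≤ T := by
      have h1 : (N : ℝ) ^ 2 ≤ ((N : ℝ) + J) ^ 2 := by
        apply pow_le_pow_left₀ hNr.le; linarith
      have h2 : Real.pi * ((N : ℝ) + J) ^ 2 ≤ T := by linarith
      have h3 : 1 * ((N : ℝ) + J) ^ 2 ≤ Real.pi * ((N : ℝ) + J) ^ 2 := by gcongr; linarith
      linarith
    have h1 := Real.log_le_log (by positivity) h0
    rw [Real.log_pow] at h1
    push_cast at h1
    exact h1
  have hLabs : |L - 2 * Real.log N| ≤ 3 := by rw [abs_le]; constructor <;> linarith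
  have hLN : Real.log N ≤ L := by linarith
  have hL0 : 0 < L := by linarith
  have hbig : Real.exp (3 * (K' * a) / L) ≤ 4 / 3 := by
    have hl43 : 0 < Real.log (4 / 3) := Real.log_pos (by norm_num)
    have : 3 * (K' * a) / L ≤ Real.log (4 / 3) := by
      rw [div_le_iff₀ hL0]
      rw [div_le_iff₀ hl43] at gexp
      calc 3 * (K' * a) ≤ Real.log N * Real.log (4 / 3) := gexp
        _ ≤ L * Real.log (4 / 3) := by gcongr
        _ = _ := by ring
    calc Real.exp (3 * (K' * a) / L) ≤ Real.exp (Real.log (4 / 3)) := Real.exp_le_exp.mpr this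
      _ = 4 / 3 := Real.exp_log (by norm_num)
  -- the block
  set t₀ : ℝ := 2 * Real.pi * (N : ℝ) ^ 2 with ht₀
  set t₁ : ℝ := 2 * Real.pi * ((N : ℝ) + J) ^ 2 with ht₁
  set H : ℝ := t₁ - t₀ with hH
  have hHeq : H = 2 * Real.pi * (2 * N * J + (J : ℝ) ^ 2) := by rw [hH, ht₁, ht₀]; ring
  have hHlow : 4 * Real.pi * N * J ≤ H := by
    rw [hHeq]
    have : 0 ≤ 2 * Real.pi * (J : ℝ) ^ 2 := by positivity
    nlinarith
  have hH0 : 0 < H := lt_of_lt_of_le (by positivity) hHlow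
  have ht01 : t₀ + H = t₁ := by rw [hH]; ring
  have ht0le1 : t₀ ≤ t₁ := by linarith
  have hHN : (N : ℝ) ^ (2 - ε) ≤ H := by
    calc (N : ℝ) ^ (2 - ε) ≤ (N : ℝ) ^ (2 - ε / 2) :=
          Real.rpow_le_rpow_of_exponent_le hN1r (by linarith)
      _ = 1 * ((N : ℝ) ^ (1 : ℝ) * (N : ℝ) ^ (1 - ε / 2)) := by
          rw [one_mul, ← Real.rpow_add hNr]; congr 1; ring
      _ ≤ Real.pi * ((N : ℝ) ^ (1 : ℝ) * (N : ℝ) ^ (1 - ε / 2)) := by gcongr; linarith
      _ = 4 * Real.pi * N * ((N : ℝ) ^ (1 - ε / 2) / 4) := by rw [Real.rpow_one]; ring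
      _ ≤ 4 * Real.pi * N * J := by gcongr
      _ ≤ H := hHlow
  set δ : ℝ := (N : ℝ) ^ (-(ε / 16)) with hδ
  have hδ0 : 0 < δ := by positivity
  set W : ℝ := C * ((J : ℝ) ^ 2 * Real.log N + J) with hW
  -- error sets
  have herrset : ∀ h : ℝ, |h| ≤ K' * a / Real.log N →
      volume {t : ℝ | t ∈ Set.Icc t₀ t₁ ∧ δ < ‖errE N h t‖} ≤ ENNReal.ofReal (W / δ ^ 2) := by
    intro h hh
    apply markov_err N h t₀ t₁ δ W ht0le1 hδ0
    have := hbe N J h g2 hJ1' hJN hh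
    exact this
  set E1 : ℕ → Set ℝ := fun i => {t : ℝ | t ∈ Set.Icc t₀ t₁ ∧ δ < ‖errE N (i * a / L) t‖}
  set E2 : ℕ → Set ℝ := fun i => {t : ℝ | t ∈ Set.Icc t₀ t₁ ∧ δ < ‖errE N (-(i * a / L)) t‖}
  have hhi : ∀ i ∈ Finset.Icc 1 K', |(i : ℝ) * a / L| ≤ K' * a / Real.log N := by
    intro i hi
    have hi' := Finset.mem_Icc.mp hi
    have hiK : (i : ℝ) ≤ K' := by exact_mod_cast hi'.2
    rw [abs_of_nonneg (by positivity)]
    apply div_le_div₀ (by positivity) _ (by linarith) hLN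
    exact mul_le_mul_of_nonneg_right hiK ha.le
  have hsub : {t : ℝ | t ∈ Set.Icc t₀ (t₀ + H) ∧
      C₁ * (∑ ν ∈ Finset.range (K' + 1), ‖DP (arP (psi a ν (K' + ν)) N L) t‖) +
        (N : ℝ) ^ (-(ε / 40)) < ‖DP (arP (psi a (-1) K) N L) t‖} ⊆
      (badT a K' T ∩ Set.Icc t₀ t₁) ∪
        ((⋃ i ∈ Finset.Icc 1 K', E1 i) ∪ (⋃ i ∈ Finset.Icc 1 K', E2 i)) := by
    intro t ht
    obtain ⟨htI, htD⟩ := ht
    rw [ht01] at htI
    by_contra hcon
    simp only [Set.mem_union, not_or] at hcon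
    obtain ⟨hnb, hn1, hn2⟩ := hcon
    have hnb' : t ∉ badT a K' T := fun h => hnb ⟨h, htI⟩
    have htT : t ∈ Set.Icc T (2 * T) := ⟨hT1.trans htI.1, htI.2.trans hT2⟩
    have hgood : ∀ i ∈ Finset.Icc 1 K',
        ‖auxR ((1 / 2 : ℂ) - ((i * a / L : ℝ) : ℂ) + (t : ℂ) * Complex.I)‖ ≤
        3 / 2 * Real.exp (3 / 4 * (i * a)) *
          ‖auxR ((1 / 2 : ℂ) + ((i * a / L : ℝ) : ℂ) + (t : ℂ) * Complex.I)‖ := by
      intro i hi
      by_contra hlt
      push_neg at hlt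
      apply hnb'
      unfold badT
      simp only [Set.mem_iUnion]
      exact ⟨i, hi, htT, hlt⟩
    have he1 : ∀ i ∈ Finset.Icc 1 K', ‖errE N (i * a / L) t‖ ≤ δ := by
      intro i hi
      by_contra hlt
      push_neg at hlt
      apply hn1
      simp only [Set.mem_iUnion]
      exact ⟨i, hi, htI, hlt⟩
    have he2 : ∀ i ∈ Finset.Icc 1 K', ‖errE N (-(i * a / L)) t‖ ≤ δ := by
      intro i hi
      by_contra hlt
      push_neg at hlt
      apply hn2
      simp only [Set.mem_iUnion]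
      exact ⟨i, hi, htI, hlt⟩
    have hdom := dominated_of_good K K' hK a ha ha' N (by omega) L hL0 hLabs hbig t δ hδ0
      hgood he1 he2
    have herr' : 2 ^ K * (2 * ((3 / 2 * Real.exp (3 / 4 * (K' * a)) + 1) * δ)) ≤
        (N : ℝ) ^ (-(ε / 40)) := by
      refine le_trans (le_of_eq ?_) gerr
      rw [hCerr, hδ]; ring
    rw [hC₁] at htD
    have hexp : 2 ^ K * (4 * 4 ^ K' * ∑ ν ∈ Finset.range (K' + 1),
        ‖DP (arP (psi a ν (K' + ν)) N L) t‖ +
          2 * ((3 / 2 * Real.exp (3 / 4 * (K' * a)) + 1) * δ)) =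
        2 ^ K * (4 * 4 ^ K') * (∑ ν ∈ Finset.range (K' + 1),
        ‖DP (arP (psi a ν (K' + ν)) N L) t‖) +
        2 ^ K * (2 * ((3 / 2 * Real.exp (3 / 4 * (K' * a)) + 1) * δ)) := by ring
    rw [hexp] at hdom
    linarith
  -- measures
  have hWδ : 2 * K' * (W / δ ^ 2) ≤ p / 2 * H := by
    have hδinv : (δ ^ 2)⁻¹ = (N : ℝ) ^ (ε / 8) := by
      rw [hδ, ← Real.rpow_natCast, ← Real.rpow_mul hNr.le, ← Real.rpow_neg hNr.le]
      congr 1; push_cast; ring
    have hJlog : (J : ℝ) * Real.log N + 1 ≤ 2 * ((N : ℝ) ^ (1 - ε / 2) * Real.log N) := by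
      have e1 : (J : ℝ) * Real.log N ≤ (N : ℝ) ^ (1 - ε / 2) * Real.log N := by gcongr
      have e2 : (1 : ℝ) ≤ (N : ℝ) ^ (1 - ε / 2) * Real.log N := by
        have : (1 : ℝ) ≤ (N : ℝ) ^ (1 - ε / 2) := Real.one_le_rpow hN1r (by linarith)
        nlinarith
      linarith
    have hK0 : (0 : ℝ) ≤ K' := by positivity
    calc 2 * K' * (W / δ ^ 2) = 2 * K' * C * J * ((J * Real.log N + 1) * (N : ℝ) ^ (ε / 8)) := by
          rw [div_eq_mul_inv, hδinv, hW]; ring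
      _ ≤ 2 * K' * C * J * ((2 * ((N : ℝ) ^ (1 - ε / 2) * Real.log N)) * (N : ℝ) ^ (ε / 8)) := by
          gcongr
      _ = J * N * ((4 * K' * C) * ((N : ℝ) ^ (-(3 * ε / 8)) * Real.log N)) := by
          have : (N : ℝ) ^ (1 - ε / 2) * (N : ℝ) ^ (ε / 8) = N * (N : ℝ) ^ (-(3 * ε / 8)) := by
            rw [← Real.rpow_add hNr]
            nth_rewrite 2 [← Real.rpow_one (N : ℝ)]
            rw [← Real.rpow_add hNr]
            congr 1; ring
          calc 2 * K' * C * J * ((2 * ((N : ℝ) ^ (1 - ε / 2) * Real.log N)) * (N : ℝ) ^ (ε / 8))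
              = 4 * K' * C * J * Real.log N * ((N : ℝ) ^ (1 - ε / 2) * (N : ℝ) ^ (ε / 8)) := by ring
            _ = _ := by rw [this]; ring
      _ ≤ J * N * (2 * Real.pi * p) := by gcongr
      _ = p / 2 * (4 * Real.pi * N * J) := by ring
      _ ≤ p / 2 * H := by gcongr
  have hm := hnt N g1 L hLabs t₀ H hHN
  have hm2 := hm.trans (measure_mono hsub)
  have hbound : volume ((badT a K' T ∩ Set.Icc t₀ t₁) ∪
        ((⋃ i ∈ Finset.Icc 1 K', E1 i) ∪ (⋃ i ∈ Finset.Icc 1 K', E2 i))) ≤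
      volume (badT a K' T ∩ Set.Icc t₀ t₁) + ENNReal.ofReal (p / 2 * H) := by
    refine (measure_union_le _ _).trans ?_
    gcongr
    refine (measure_union_le _ _).trans ?_
    have hb1 : volume (⋃ i ∈ Finset.Icc 1 K', E1 i) ≤ K' * ENNReal.ofReal (W / δ ^ 2) := by
      refine (measure_biUnion_finset_le _ _).trans ?_
      calc ∑ i ∈ Finset.Icc 1 K', volume (E1 i) ≤ ∑ i ∈ Finset.Icc 1 K', ENNReal.ofReal (W / δ ^ 2) :=
            Finset.sum_le_sum (fun i hi => herrset _ (hhi i hi))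
        _ = _ := by simp
    have hb2 : volume (⋃ i ∈ Finset.Icc 1 K', E2 i) ≤ K' * ENNReal.ofReal (W / δ ^ 2) := by
      refine (measure_biUnion_finset_le _ _).trans ?_
      calc ∑ i ∈ Finset.Icc 1 K', volume (E2 i) ≤ ∑ i ∈ Finset.Icc 1 K', ENNReal.ofReal (W / δ ^ 2) :=
            Finset.sum_le_sum (fun i hi => herrset _ (by rw [abs_neg]; exact hhi i hi))
        _ = _ := by simp
    refine (add_le_add hb1 hb2).trans ?_
    have hKof : (K' : ENNReal) = ENNReal.ofReal K' := by simp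
    have hWn : 0 ≤ W / δ ^ 2 := by positivity
    rw [hKof, ← ENNReal.ofReal_mul (by positivity), ← ENNReal.ofReal_add (by positivity) (by positivity)]
    apply ENNReal.ofReal_le_ofReal
    linarith
  have hm3 := hm2.trans hbound
  have hsplit : ENNReal.ofReal (p * H) = ENNReal.ofReal (p / 2 * H) + ENNReal.ofReal (p / 2 * H) := by
    rw [← ENNReal.ofReal_add (by positivity) (by positivity)]; congr 1; ring
  rw [hsplit] at hm3
  have hfin := (ENNReal.add_le_add_iff_right ENNReal.ofReal_ne_top).mp hm3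
  exact hfin

end Pool.Agent.RAux
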