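import Mathlib
import Pool.Agent.RAux.Defs
import Pool.Agent.RAux.RApprox
import Pool.Agent.RAux.REntire
import Pool.Agent.RAux.AMax

/-!
The auxiliary function satisfies the growth conditions.
-/

set_option autoImplicit false

open Complex MeasureTheory Filter Topology

namespace Pool.Agent.RAux

theorem ga_exists_M (t : ℝ) (ht : 2 * Real.pi ≤ t) : ∃ M : ℕ, 1 ≤ M ∧
    2 * Real.pi * (M : ℝ) ^ 2 ≤ t ∧ t ≤ 2 * Real.pi * ((M : ℝ) + 1) ^ 2 ∧ (M : ℝ) ≤ t := by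
  have hpi : 0 < 2 * Real.pi := by positivity
  have hpi1 : 1 ≤ 2 * Real.pi := by linarith [Real.pi_gt_three]
  set u : ℝ := Real.sqrt (t / (2 * Real.pi)) with hu
  have hu2 : u ^ 2 = t / (2 * Real.pi) := Real.sq_sqrt (div_nonneg (by linarith) hpi.le)
  have hu1 : 1 ≤ u := by
    rw [hu, Real.one_le_sqrt, le_div_iff₀ hpi]
    linarith
  have hu0 : 0 ≤ u := by linarith
  have hfl : ((⌊u⌋₊ : ℕ) : ℝ) ≤ u := Nat.floor_le hu0
  have hfl2 : u < (⌊u⌋₊ : ℕ) + 1 := Nat.lt_floor_add_one u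
  have hM1 : 1 ≤ ⌊u⌋₊ := Nat.one_le_floor_iff u |>.2 hu1
  have hM1' : (1 : ℝ) ≤ (⌊u⌋₊ : ℕ) := by exact_mod_cast hM1
  have ht2 : t = 2 * Real.pi * u ^ 2 := by rw [hu2]; field_simp
  have h1 : 2 * Real.pi * ((⌊u⌋₊ : ℕ) : ℝ) ^ 2 ≤ t := by
    rw [ht2]
    exact mul_le_mul_of_nonneg_left (pow_le_pow_left₀ (by linarith) hfl 2) hpi.le
  refine ⟨⌊u⌋₊, hM1, h1, ?_, ?_⟩
  · rw [ht2]
    exact mul_le_mul_of_nonneg_left (pow_le_pow_left₀ hu0 hfl2.le 2) hpi.le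
  · nlinarith

theorem ga_norm_cpow (n : ℕ) (hn : 1 ≤ n) (s : ℂ) : ‖(n : ℂ) ^ (-s)‖ = (n : ℝ) ^ (-s.re) := by
  rw [Complex.norm_natCast_cpow_of_pos (by omega), Complex.neg_re]

theorem ga_norm_sum (M : ℕ) (s : ℂ) (K : ℝ) (hK : -s.re ≤ K) (hK0 : 0 ≤ K) :
    ‖∑ n ∈ Finset.Icc 1 M, (n : ℂ) ^ (-s)‖ ≤ M * (M : ℝ) ^ K := by
  refine (norm_sum_le _ _).trans ?_
  have h : ∀ n ∈ Finset.Icc 1 M, ‖(n : ℂ) ^ (-s)‖ ≤ (M : ℝ) ^ K := by
    intro n hn
    rw [Finset.mem_Icc] at hn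
    have hn1 : (1 : ℝ) ≤ n := by exact_mod_cast hn.1
    have hn2 : (n : ℝ) ≤ M := by exact_mod_cast hn.2
    rw [ga_norm_cpow n hn.1]
    exact (Real.rpow_le_rpow_of_exponent_le hn1 hK).trans
      (Real.rpow_le_rpow (by linarith) hn2 hK0)
  refine (Finset.sum_le_card_nsmul _ _ _ h).trans ?_
  rw [Nat.card_Icc, nsmul_eq_mul]
  simp

theorem ga_center (M : ℕ) (hM : 1 ≤ M) (s : ℂ) (hs : s.re = 3) :
    ‖∑ n ∈ Finset.Icc 1 M, (n : ℂ) ^ (-s) - 1‖ ≤ 1 / 4 - 1 / (2 * M * (M + 1)) := by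
  induction M, hM using Nat.le_induction with
  | base =>
    simp
    norm_num
  | succ M hM ih =>
    rw [Finset.sum_Icc_succ_top (by omega)]
    have hM0 : (1 : ℝ) ≤ M := by exact_mod_cast hM
    have e1 : ‖((M + 1 : ℕ) : ℂ) ^ (-s)‖ = 1 / ((M : ℝ) + 1) ^ 3 := by
      rw [ga_norm_cpow (M + 1) (by omega), hs, Real.rpow_neg (by positivity),
        show (3 : ℝ) = ((3 : ℕ) : ℝ) by norm_num, Real.rpow_natCast]
      push_cast
      rw [one_div]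
    have e2 : ‖∑ n ∈ Finset.Icc 1 M, (n : ℂ) ^ (-s) + ((M + 1 : ℕ) : ℂ) ^ (-s) - 1‖ ≤
        (1 / 4 - 1 / (2 * M * (M + 1))) + 1 / ((M : ℝ) + 1) ^ 3 := by
      have e3 : ∑ n ∈ Finset.Icc 1 M, (n : ℂ) ^ (-s) + ((M + 1 : ℕ) : ℂ) ^ (-s) - 1 =
          (∑ n ∈ Finset.Icc 1 M, (n : ℂ) ^ (-s) - 1) + ((M + 1 : ℕ) : ℂ) ^ (-s) := by ring
      rw [e3]
      refine (norm_add_le _ _).trans ?_
      rw [e1]
      linarith
    refine e2.trans ?_
    push_cast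
    have hpos : (0 : ℝ) < M := by linarith
    have key : 1 / ((M : ℝ) + 1) ^ 3 ≤ 1 / (2 * M * (M + 1)) - 1 / (2 * (M + 1) * (M + 1 + 1)) := by
      have e4 : 1 / (2 * (M : ℝ) * (M + 1)) - 1 / (2 * (M + 1) * (M + 1 + 1)) =
          1 / (M * (M + 1) * (M + 2)) := by
        field_simp
        ring
      rw [e4]
      apply one_div_le_one_div_of_le (by positivity)
      nlinarith
    linarith

/-- For `t ≥ 2π` choose `M ≥ 1` with `2πM² ≤ t < 2π(M+1)²` and use `auxR_approx` (with `A = 30`):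
`|auxR s| ≤ Σ_{n ≤ M} n^{|σ|} + C M^{|σ|}`; at `re s = 3`, `|auxR s - 1| ≤ Σ_{n≥2} n^{-3} + C M^{-3} ≤ 1/2`
for large `t` (`Σ_{n≥2} n^{-3} ≤ 1/4`: compare with `Σ 1/(n(n²-1)) = 1/4`); at `re s = -2`,
`|auxR s| ≤ Σ n² + C M² ≤ (1+C) M³`. -/
theorem auxR_good : GoodR auxR := by
  obtain ⟨C, hC, hap⟩ := auxR_approx 30 (by norm_num)
  refine ⟨auxR_differentiable, ⟨32, max (2 * Real.pi) (1 + C), ?_⟩,
    ⟨2 * Real.pi * (4 * C + 2) ^ 2, ?_⟩, ⟨1 + C, 2 * Real.pi, ?_⟩⟩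
  · intro s h1 h2 h3
    have ht : 2 * Real.pi ≤ s.im := (le_max_left _ _).trans h3
    have ht2 : 1 + C ≤ s.im := (le_max_right _ _).trans h3
    obtain ⟨M, hM, g1, g2, g3⟩ := ga_exists_M s.im ht
    have hM0 : (1 : ℝ) ≤ M := by exact_mod_cast hM
    have ht1 : (1 : ℝ) ≤ s.im := by linarith
    have h4 := hap M s hM (abs_le.2 ⟨h1, h2⟩) g1 g2
    have h5 := ga_norm_sum M s 30 (by linarith) (by norm_num)
    have h6 : (M : ℝ) ^ (-s.re) ≤ (M : ℝ) ^ (30 : ℝ) :=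
      Real.rpow_le_rpow_of_exponent_le hM0 (by linarith)
    have h7 : ‖auxR s‖ ≤ M * (M : ℝ) ^ (30 : ℝ) + C * (M : ℝ) ^ (30 : ℝ) := by
      have h8 : auxR s = (auxR s - ∑ n ∈ Finset.Icc 1 M, (n : ℂ) ^ (-s)) +
          ∑ n ∈ Finset.Icc 1 M, (n : ℂ) ^ (-s) := by ring
      rw [h8]
      refine (norm_add_le _ _).trans ?_
      have := mul_le_mul_of_nonneg_left h6 hC
      linarith
    refine h7.trans ?_
    have h9 : (M : ℝ) ^ (30 : ℝ) ≤ s.im ^ (30 : ℝ) :=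
      Real.rpow_le_rpow (by linarith) g3 (by norm_num)
    have h10 : s.im ^ (32 : ℝ) = s.im * s.im * s.im ^ (30 : ℝ) := by
      rw [show (32 : ℝ) = 1 + 1 + 30 by norm_num, Real.rpow_add (by linarith),
        Real.rpow_add (by linarith), Real.rpow_one]
    rw [h10]
    have h11 : (M : ℝ) * (M : ℝ) ^ (30 : ℝ) + C * (M : ℝ) ^ (30 : ℝ) ≤
        (s.im + C * s.im) * s.im ^ (30 : ℝ) := by
      rw [← add_mul]
      apply mul_le_mul _ h9 (by positivity) (by positivity)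
      nlinarith
    refine h11.trans ?_
    apply mul_le_mul_of_nonneg_right _ (by positivity)
    nlinarith
  · intro t ht
    have hp3 := Real.pi_gt_three
    have ht0 : 2 * Real.pi ≤ t := by
      refine le_trans ?_ ht
      nlinarith [sq_nonneg C]
    obtain ⟨M, hM, g1, g2, g3⟩ := ga_exists_M t ht0
    have hM0 : (1 : ℝ) ≤ M := by exact_mod_cast hM
    have hre : (3 + (t : ℂ) * Complex.I).re = 3 := by simp
    have him : (3 + (t : ℂ) * Complex.I).im = t := by simp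
    have h4 := hap M (3 + (t : ℂ) * Complex.I) hM (by rw [hre]; norm_num) (by rw [him]; exact g1)
      (by rw [him]; exact g2)
    have h5 := ga_center M hM (3 + (t : ℂ) * Complex.I) hre
    have h6 : 4 * C + 1 ≤ M := by
      have h7 : (4 * C + 2) ^ 2 ≤ ((M : ℝ) + 1) ^ 2 := by
        have h8 := ht.trans g2
        exact le_of_mul_le_mul_left h8 (by positivity)
      have h9 := abs_le_of_sq_le_sq' h7 (by linarith)
      linarith [h9.2]
    have h10 : C * (M : ℝ) ^ (-(3 + (t : ℂ) * Complex.I).re) ≤ 1 / 4 := by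
      rw [hre, Real.rpow_neg (by linarith), show (3 : ℝ) = ((3 : ℕ) : ℝ) by norm_num,
        Real.rpow_natCast, ← div_eq_mul_inv, div_le_iff₀ (by positivity)]
      have : (M : ℝ) ≤ (M : ℝ) ^ 3 := le_self_pow₀ hM0 (by norm_num)
      linarith
    have h11 : (0 : ℝ) ≤ 1 / (2 * M * (M + 1)) := by positivity
    have h12 : (1 : ℝ) ≤ ‖auxR (3 + (t : ℂ) * Complex.I)‖ +
        ‖auxR (3 + (t : ℂ) * Complex.I) - ∑ n ∈ Finset.Icc 1 M,
          (n : ℂ) ^ (-(3 + (t : ℂ) * Complex.I))‖ +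
        ‖∑ n ∈ Finset.Icc 1 M, (n : ℂ) ^ (-(3 + (t : ℂ) * Complex.I)) - 1‖ := by
      have h13 : (1 : ℂ) = auxR (3 + (t : ℂ) * Complex.I) -
          (auxR (3 + (t : ℂ) * Complex.I) - ∑ n ∈ Finset.Icc 1 M,
          (n : ℂ) ^ (-(3 + (t : ℂ) * Complex.I))) -
          (∑ n ∈ Finset.Icc 1 M, (n : ℂ) ^ (-(3 + (t : ℂ) * Complex.I)) - 1) := by ring
      calc (1 : ℝ) = ‖(1 : ℂ)‖ := by simp
        _ ≤ _ := by
          conv_lhs => rw [h13]
          exact (norm_sub_le _ _).trans (add_le_add (norm_sub_le _ _) le_rfl)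
    linarith
  · intro t ht
    obtain ⟨M, hM, g1, g2, g3⟩ := ga_exists_M t ht
    have hM0 : (1 : ℝ) ≤ M := by exact_mod_cast hM
    have hre : (-2 + (t : ℂ) * Complex.I).re = -2 := by simp
    have him : (-2 + (t : ℂ) * Complex.I).im = t := by simp
    have hp3 := Real.pi_gt_three
    have h4 := hap M (-2 + (t : ℂ) * Complex.I) hM (by rw [hre]; norm_num)
      (by rw [him]; exact g1) (by rw [him]; exact g2)
    have h5 := ga_norm_sum M (-2 + (t : ℂ) * Complex.I) 2 (by rw [hre]; norm_num) (by norm_num)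
    rw [hre, neg_neg] at h4
    have h7 : ‖auxR (-2 + (t : ℂ) * Complex.I)‖ ≤ M * (M : ℝ) ^ (2 : ℝ) + C * (M : ℝ) ^ (2 : ℝ) := by
      have h8 : auxR (-2 + (t : ℂ) * Complex.I) = (auxR (-2 + (t : ℂ) * Complex.I) -
          ∑ n ∈ Finset.Icc 1 M, (n : ℂ) ^ (-(-2 + (t : ℂ) * Complex.I))) +
          ∑ n ∈ Finset.Icc 1 M, (n : ℂ) ^ (-(-2 + (t : ℂ) * Complex.I)) := by ring
      rw [h8]
      refine (norm_add_le _ _).trans ?_
      linarith
    refine h7.trans ?_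
    have h9 : (M : ℝ) ^ (2 : ℝ) = (M : ℝ) ^ 2 := by
      rw [show (2 : ℝ) = ((2 : ℕ) : ℝ) by norm_num, Real.rpow_natCast]
    rw [h9]
    have h10 : (M : ℝ) ^ 3 ≤ t ^ (3 / 2 : ℝ) := by
      have h11 : (M : ℝ) ^ 2 ≤ t := by
        refine le_trans ?_ g1
        nlinarith [sq_nonneg (M : ℝ)]
      have h12 : (M : ℝ) ^ 3 = ((M : ℝ) ^ 2) ^ (3 / 2 : ℝ) := by
        rw [← Real.rpow_natCast, ← Real.rpow_natCast, ← Real.rpow_mul (by linarith)]
        norm_num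
      rw [h12]
      exact Real.rpow_le_rpow (by positivity) h11 (by norm_num)
    have h13 : (M : ℝ) * (M : ℝ) ^ 2 + C * (M : ℝ) ^ 2 ≤ (1 + C) * (M : ℝ) ^ 3 := by
      have h14 : (M : ℝ) ^ 2 ≤ (M : ℝ) ^ 3 := pow_le_pow_right₀ hM0 (by norm_num)
      have := mul_le_mul_of_nonneg_left h14 hC
      nlinarith
    exact h13.trans (mul_le_mul_of_nonneg_left h10 (by linarith))

end Pool.Agent.RAux
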