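import Mathlib
import Pool.Agent.RAux.Defs

/-!
The auxiliary function is of order one.
-/

set_option autoImplicit false

open Complex MeasureTheory Filter Topology

namespace Pool.Agent.RAux

/-- The denominator of `rInt` is bounded below on the line through `1/2`. -/
theorem rg_den (t : ℝ) :
    2 ≤ ‖Complex.exp ((Real.pi : ℂ) * Complex.I * (((1 / 2 : ℝ) : ℂ) + (t : ℂ) * (1 + Complex.I))) -
      Complex.exp (-((Real.pi : ℂ) * Complex.I *
        (((1 / 2 : ℝ) : ℂ) + (t : ℂ) * (1 + Complex.I))))‖ := by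
  set x : ℂ := ((1 / 2 : ℝ) : ℂ) + (t : ℂ) * (1 + Complex.I) with hx
  have h1 : Complex.exp ((Real.pi : ℂ) * Complex.I * x) -
      Complex.exp (-((Real.pi : ℂ) * Complex.I * x)) =
      2 * Complex.I * Complex.sin ((Real.pi : ℂ) * x) := by
    rw [Complex.sin]
    have e1 : -((Real.pi : ℂ) * x) * Complex.I = -((Real.pi : ℂ) * Complex.I * x) := by ring
    have e2 : (Real.pi : ℂ) * x * Complex.I = (Real.pi : ℂ) * Complex.I * x := by ring
    rw [e1, e2]
    linear_combination (Complex.exp ((Real.pi : ℂ) * Complex.I * x) -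
      Complex.exp (-((Real.pi : ℂ) * Complex.I * x))) * Complex.I_sq
  rw [h1, norm_mul, norm_mul, Complex.norm_I, mul_one, Complex.norm_ofNat]
  have h2 : (Real.pi : ℂ) * x = ((Real.pi * (1 / 2 + t) : ℝ) : ℂ) +
      ((Real.pi * t : ℝ) : ℂ) * Complex.I := by
    rw [hx]; push_cast; ring
  have h3 : Complex.normSq (Complex.sin ((Real.pi : ℂ) * x)) =
      (Real.cos (Real.pi * t)) ^ 2 + (Real.sinh (Real.pi * t)) ^ 2 := by
    rw [h2, Complex.sin_add_mul_I, ← Complex.ofReal_sin, ← Complex.ofReal_cosh,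
      ← Complex.ofReal_cos, ← Complex.ofReal_sinh]
    have e : (((Real.sin (Real.pi * (1 / 2 + t)) : ℝ) : ℂ) * ((Real.cosh (Real.pi * t) : ℝ) : ℂ) +
      ((Real.cos (Real.pi * (1 / 2 + t)) : ℝ) : ℂ) * ((Real.sinh (Real.pi * t) : ℝ) : ℂ) *
        Complex.I) = ((Real.sin (Real.pi * (1 / 2 + t)) * Real.cosh (Real.pi * t) : ℝ) : ℂ) +
        ((Real.cos (Real.pi * (1 / 2 + t)) * Real.sinh (Real.pi * t) : ℝ) : ℂ) * Complex.I := by
      push_cast; ring
    rw [e, Complex.normSq_add_mul_I]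
    have s1 : Real.sin (Real.pi * (1 / 2 + t)) = Real.cos (Real.pi * t) := by
      rw [show Real.pi * (1 / 2 + t) = Real.pi * t + Real.pi / 2 by ring, Real.sin_add_pi_div_two]
    have s2 : Real.cos (Real.pi * (1 / 2 + t)) = -Real.sin (Real.pi * t) := by
      rw [show Real.pi * (1 / 2 + t) = Real.pi * t + Real.pi / 2 by ring, Real.cos_add_pi_div_two]
    rw [s1, s2]
    have c1 := Real.cosh_sq (Real.pi * t)
    have c2 := Real.sin_sq_add_cos_sq (Real.pi * t)
    have c3 : Real.sin (Real.pi * t) ^ 2 = 1 - Real.cos (Real.pi * t) ^ 2 := by linarith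
    rw [mul_pow, mul_pow, neg_pow, c1, c3]
    ring
  have h4 : 1 ≤ Complex.normSq (Complex.sin ((Real.pi : ℂ) * x)) := by
    rw [h3]
    have a1 : |Real.sin (Real.pi * t)| ≤ |Real.pi * t| := by
      exact Real.abs_sin_le_abs
    have a2 : |Real.pi * t| ≤ |Real.sinh (Real.pi * t)| := by
      rcases le_total 0 (Real.pi * t) with h | h
      · rw [abs_of_nonneg h, abs_of_nonneg (Real.sinh_nonneg_iff.2 h)]
        exact Real.self_le_sinh_iff.2 h
      · rw [abs_of_nonpos h, abs_of_nonpos (Real.sinh_nonpos_iff.2 h)]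
        have := Real.sinh_le_self_iff.2 h
        linarith
    have a3 := sq_le_sq.2 (a1.trans a2)
    have c2 := Real.sin_sq_add_cos_sq (Real.pi * t)
    linarith
  have h5 : 1 ≤ ‖Complex.sin ((Real.pi : ℂ) * x)‖ := by
    rw [Complex.normSq_eq_norm_sq] at h4
    exact (one_le_sq_iff₀ (norm_nonneg _)).1 h4
  linarith

/-- Bound of the power. -/
theorem rg_pow (s : ℂ) (t : ℝ) :
    ‖(((1 / 2 : ℝ) : ℂ) + (t : ℂ) * (1 + Complex.I)) ^ (-s)‖ ≤
      Real.exp (‖s‖ * (6 + Real.log (1 + |t|))) := by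
  set x : ℂ := ((1 / 2 : ℝ) : ℂ) + (t : ℂ) * (1 + Complex.I) with hx
  have hre : x.re = 1 / 2 + t := by rw [hx]; simp
  have him : x.im = t := by rw [hx]; simp
  have hsq : ‖x‖ ^ 2 = (1 / 2 + t) ^ 2 + t ^ 2 := by
    rw [← Complex.normSq_eq_norm_sq, Complex.normSq_apply, hre, him]; ring
  have hlo : 1 / 3 ≤ ‖x‖ := by
    apply le_of_sq_le_sq _ (norm_nonneg _)
    rw [hsq]
    nlinarith [sq_nonneg (t + 1 / 4)]
  have hhi : ‖x‖ ≤ 2 * (1 + |t|) := by
    apply le_of_sq_le_sq _ (by positivity)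
    rw [hsq]
    nlinarith [sq_abs t, abs_nonneg t, le_abs_self t]
  have hx0 : x ≠ 0 := by
    intro h
    rw [h, norm_zero] at hlo
    norm_num at hlo
  rw [Complex.cpow_def_of_ne_zero hx0]
  refine (Complex.norm_exp_le_exp_norm _).trans (Real.exp_le_exp.2 ?_)
  rw [norm_mul, norm_neg, mul_comm]
  refine mul_le_mul_of_nonneg_left ?_ (norm_nonneg _)
  have hlog : ‖Complex.log x‖ ≤ |Real.log ‖x‖| + |Complex.arg x| := by
    have := Complex.norm_le_abs_re_add_abs_im (Complex.log x)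
    rwa [Complex.log_re, Complex.log_im] at this
  have harg : |Complex.arg x| ≤ 4 := by
    refine (Complex.abs_arg_le_pi x).trans ?_
    linarith [Real.pi_lt_four]
  have hL0 : 0 ≤ Real.log (1 + |t|) := Real.log_nonneg (by linarith [abs_nonneg t])
  have hlog2 : |Real.log ‖x‖| ≤ 2 + Real.log (1 + |t|) := by
    rw [abs_le]
    constructor
    · have : Real.log (1 / 3) ≤ Real.log ‖x‖ := Real.log_le_log (by norm_num) hlo
      have h3 : -2 ≤ Real.log (1 / 3 : ℝ) := by
        rw [Real.le_log_iff_exp_le (by norm_num)]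
        have := Real.exp_one_gt_d9
        rw [show (-2 : ℝ) = -(1 + 1) by norm_num, Real.exp_neg, Real.exp_add, ]
        rw [inv_le_comm₀ (by positivity) (by norm_num)]
        norm_num
        nlinarith
      linarith
    · have : Real.log ‖x‖ ≤ Real.log (2 * (1 + |t|)) :=
        Real.log_le_log (by linarith) hhi
      rw [Real.log_mul (by norm_num) (by positivity)] at this
      have := Real.log_two_lt_d9
      linarith
  linarith

/-- Comparison of `‖s‖ log (1+|t|)` with `t²`. -/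
theorem rg_cmp (r t : ℝ) (hr : 0 ≤ r) :
    r * Real.log (1 + |t|) ≤ t ^ 2 + 2 * r * Real.log (2 + r) := by
  have hL : 0 ≤ Real.log (2 + r) := Real.log_nonneg (by linarith)
  rcases le_total |t| (2 + r) with h | h
  · have h1 : Real.log (1 + |t|) ≤ Real.log ((2 + r) ^ 2) := by
      refine Real.log_le_log (by positivity) ?_
      nlinarith
    rw [Real.log_pow] at h1
    have h2 := mul_le_mul_of_nonneg_left h1 hr
    push_cast at h2
    nlinarith [sq_nonneg t]
  · have h1 : Real.log (1 + |t|) ≤ |t| := by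
      have := Real.log_le_sub_one_of_pos (show 0 < 1 + |t| by positivity)
      linarith
    have h2 : r * Real.log (1 + |t|) ≤ |t| * |t| := by
      have : r ≤ |t| := by linarith
      exact mul_le_mul this h1 (Real.log_nonneg (by linarith [abs_nonneg t])) (abs_nonneg _)
    rw [abs_mul_abs_self] at h2
    have : 0 ≤ 2 * r * Real.log (2 + r) := by positivity
    nlinarith

theorem auxR_growth : ∃ C : ℝ, 0 ≤ C ∧ ∀ s : ℂ,
    ‖auxR s‖ ≤ Real.exp (C * (1 + ‖s‖) * Real.log (2 + ‖s‖)) := by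
  refine ⟨14, by norm_num, fun s => ?_⟩
  set r : ℝ := ‖s‖ with hr
  have hr0 : 0 ≤ r := norm_nonneg _
  set A : ℝ := 6 * r + 2 * r * Real.log (2 + r) + 1 with hA
  have hbound : ∀ t : ℝ, ‖rInt s (((1 / 2 : ℝ) : ℂ) + (t : ℂ) * (1 + Complex.I))‖ ≤
      Real.exp A * Real.exp (-1 * t ^ 2) := by
    intro t
    unfold rInt
    set x : ℂ := ((1 / 2 : ℝ) : ℂ) + (t : ℂ) * (1 + Complex.I) with hx
    rw [norm_div, norm_mul]
    have h1 := rg_pow s t
    have h2 := rg_den t
    rw [← hx] at h1 h2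
    have h3 : ‖Complex.exp ((Real.pi : ℂ) * Complex.I * x ^ 2)‖ =
        Real.exp (-(2 * Real.pi * t ^ 2) - Real.pi * t) := by
      rw [Complex.norm_exp]
      congr 1
      have e : (Real.pi : ℂ) * Complex.I * x ^ 2 =
          ((-(2 * Real.pi * t ^ 2) - Real.pi * t : ℝ) : ℂ) +
          ((Real.pi * (1 / 4 + t) : ℝ) : ℂ) * Complex.I := by
        rw [hx]
        push_cast
        ring_nf
        simp only [Complex.I_sq, show (Complex.I) ^ 3 = -Complex.I by
          rw [pow_succ, Complex.I_sq]; ring]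
        ring
      rw [e, Complex.add_re, Complex.ofReal_re, Complex.re_ofReal_mul, Complex.I_re]
      ring
    rw [h3]
    have h4 : ‖x ^ (-s)‖ * Real.exp (-(2 * Real.pi * t ^ 2) - Real.pi * t) ≤
        Real.exp (r * (6 + Real.log (1 + |t|))) *
          Real.exp (-(2 * Real.pi * t ^ 2) - Real.pi * t) :=
      mul_le_mul_of_nonneg_right h1 (Real.exp_pos _).le
    rw [← Real.exp_add] at h4
    have h5 : r * (6 + Real.log (1 + |t|)) + (-(2 * Real.pi * t ^ 2) - Real.pi * t) ≤
        A + (-1 * t ^ 2) := by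
      have := rg_cmp r t hr0
      have hp1 := Real.pi_gt_three
      have hp2 := Real.pi_lt_four
      have h6 : -(2 * Real.pi * t ^ 2) - Real.pi * t ≤ -2 * t ^ 2 + 1 := by
        have hp3 := Real.pi_lt_d2
        nlinarith [sq_nonneg (t + 3 / 8), sq_nonneg t, sq_nonneg (2 * t + 1)]
      rw [hA]
      nlinarith
    calc ‖x ^ (-s)‖ * Real.exp (-(2 * Real.pi * t ^ 2) - Real.pi * t) / _
        ≤ ‖x ^ (-s)‖ * Real.exp (-(2 * Real.pi * t ^ 2) - Real.pi * t) / 1 := by
          refine div_le_div_of_nonneg_left (by positivity) (by norm_num) ?_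
          linarith
      _ ≤ Real.exp (A + (-1 * t ^ 2)) := by
          rw [div_one]
          exact h4.trans (Real.exp_le_exp.2 h5)
      _ = _ := Real.exp_add _ _
  have hint : Integrable (fun t : ℝ => Real.exp A * Real.exp (-1 * t ^ 2)) :=
    (integrable_exp_neg_mul_sq (by norm_num : (0 : ℝ) < 1)).const_mul _
  have h1 : ‖∫ t : ℝ, rInt s (((1 / 2 : ℝ) : ℂ) + (t : ℂ) * (1 + Complex.I))‖ ≤
      ∫ t : ℝ, Real.exp A * Real.exp (-1 * t ^ 2) :=
    norm_integral_le_of_norm_le hint (Filter.Eventually.of_forall hbound)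
  rw [integral_const_mul, integral_gaussian] at h1
  unfold auxR lineR
  rw [norm_mul, norm_neg]
  have h2 : ‖(1 : ℂ) + Complex.I‖ ≤ Real.sqrt 2 := by
    rw [show (1 : ℂ) + Complex.I = ((1 : ℝ) : ℂ) + ((1 : ℝ) : ℂ) * Complex.I by simp,
      Complex.norm_add_mul_I]
    norm_num
  have h3 : Real.sqrt 2 * Real.sqrt (Real.pi / 1) ≤ Real.exp 1 := by
    rw [← Real.sqrt_mul (by norm_num)]
    apply Real.sqrt_le_iff.2
    refine ⟨(Real.exp_pos _).le, ?_⟩
    have := Real.exp_one_gt_d9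
    have := Real.pi_lt_d2
    nlinarith
  calc _ ≤ Real.sqrt 2 * (Real.exp A * Real.sqrt (Real.pi / 1)) :=
        mul_le_mul h2 h1 (norm_nonneg _) (by positivity)
    _ = Real.exp A * (Real.sqrt 2 * Real.sqrt (Real.pi / 1)) := by ring
    _ ≤ Real.exp A * Real.exp 1 := by gcongr
    _ = Real.exp (A + 1) := (Real.exp_add _ _).symm
    _ ≤ _ := by
      refine Real.exp_le_exp.2 ?_
      have hL : 1 / 2 ≤ Real.log (2 + r) := by
        have h1 := Real.log_two_gt_d9
        have h2 : Real.log 2 ≤ Real.log (2 + r) := Real.log_le_log (by norm_num) (by linarith)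
        linarith
      rw [hA]
      nlinarith [mul_nonneg hr0 (show 0 ≤ Real.log (2 + r) - 1 / 2 by linarith)]

end Pool.Agent.RAux
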