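import Mathlib
import Pool.Agent.RAux.Defs

/-!
The Laplace integral does not vanish in the left sector.

Write `-s-1 = |s+1| e^{-iφ}` with `0 < φ ≤ π/3`, rotate `v = e^{-iφ/2} r` (the integral over the
rotated ray does not depend on the angle: differentiate), put `r = r₀ + x`, `4π r₀² = |s+1|`.
The exponent is `e^{-iφ} (4π r₀² log(r/r₀) - 2π (r² - r₀²))`, real part of the bracket
`≤ -2π x²` and tends to `-4π x²`; `1/sin z = -2i e^{iz}/(1 - e^{2iz})`,
`z = π √2 e^{i(π/4-φ/2)} (r₀ + x)`. Normalised by `e^{i z₀} r₀^{-1}` etc. the integral converges to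
a nonzero Gaussian integral along sequences `|s| → ∞`, `φ → φ₀` (dominated convergence with
dominating function `C (1+|x|) e^{-π x² + C|x|}`).
-/

set_option autoImplicit false

open Complex MeasureTheory Filter Topology

namespace Pool.Agent.RAux

/-- Moving a horizontal line of integration downwards. -/
theorem lap_shift (F : ℂ → ℂ) (α : ℝ) (hα : 0 ≤ α)
    (hF : ∀ z : ℂ, -α ≤ z.im → z.im ≤ 0 → DifferentiableAt ℂ F z)
    (b : ℝ → ℝ) (hb : Integrable b)
    (hbound : ∀ x y : ℝ, 0 ≤ y → y ≤ α → ‖F ((x : ℂ) - (y : ℂ) * Complex.I)‖ ≤ b x)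
    (hb0 : Tendsto b atTop (𝓝 0)) (hb1 : Tendsto b atBot (𝓝 0)) :
    ∫ x : ℝ, F x = ∫ x : ℝ, F ((x : ℂ) - (α : ℂ) * Complex.I) := by
  have hcont : ∀ y : ℝ, 0 ≤ y → y ≤ α →
      Continuous (fun x : ℝ => F ((x : ℂ) - (y : ℂ) * Complex.I)) := by
    intro y hy0 hy1
    rw [continuous_iff_continuousAt]
    intro x
    have h1 : ContinuousAt F ((x : ℂ) - (y : ℂ) * Complex.I) :=
      (hF _ (by simp; linarith) (by simp; linarith)).continuousAt
    exact ContinuousAt.comp (f := fun x : ℝ => (x : ℂ) - (y : ℂ) * Complex.I) h1 (by fun_prop)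
  have hint : ∀ y : ℝ, 0 ≤ y → y ≤ α →
      Integrable (fun x : ℝ => F ((x : ℂ) - (y : ℂ) * Complex.I)) := by
    intro y hy0 hy1
    exact Integrable.mono' hb (hcont y hy0 hy1).aestronglyMeasurable
      (Eventually.of_forall fun x => hbound x y hy0 hy1)
  have hi0 : Integrable (fun x : ℝ => F (x : ℂ)) := by
    have := hint 0 le_rfl hα
    simpa using this
  have hi1 := hint α hα le_rfl
  -- limits of the interval integrals
  have hlim0 : Tendsto (fun X : ℝ => ∫ x in (-X)..X, F (x : ℂ)) atTop (𝓝 (∫ x : ℝ, F x)) :=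
    intervalIntegral_tendsto_integral hi0 tendsto_neg_atTop_atBot tendsto_id
  have hlim1 : Tendsto (fun X : ℝ => ∫ x in (-X)..X, F ((x : ℂ) - (α : ℂ) * Complex.I)) atTop
      (𝓝 (∫ x : ℝ, F ((x : ℂ) - (α : ℂ) * Complex.I))) :=
    intervalIntegral_tendsto_integral hi1 tendsto_neg_atTop_atBot tendsto_id
  -- the rectangle
  have hrect : ∀ X : ℝ, (∫ x in (-X)..X, F ((x : ℂ) - (α : ℂ) * Complex.I)) -
      (∫ x in (-X)..X, F (x : ℂ)) +
      Complex.I • (∫ y in (-α)..0, F ((X : ℂ) + (y : ℂ) * Complex.I)) -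
      Complex.I • (∫ y in (-α)..0, F (((-X : ℝ) : ℂ) + (y : ℂ) * Complex.I)) = 0 := by
    intro X
    have h := integral_boundary_rect_eq_zero_of_differentiableOn F
      (⟨-X, -α⟩ : ℂ) (⟨X, 0⟩ : ℂ) ?_
    · simp only at h
      have e1 : ∀ x : ℝ, (x : ℂ) + ((-α : ℝ) : ℂ) * Complex.I = (x : ℂ) - (α : ℂ) * Complex.I := by
        intro x; push_cast; ring
      have e2 : ∀ x : ℝ, (x : ℂ) + ((0 : ℝ) : ℂ) * Complex.I = (x : ℂ) := by
        intro x; simp
      simp only [e1, e2] at h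
      exact h
    · intro z hz
      rw [Complex.mem_reProdIm] at hz
      have h2 := hz.2
      rw [Set.uIcc_of_le (by simpa using hα)] at h2
      exact (hF z h2.1 h2.2).differentiableWithinAt
  have hvert : ∀ u : ℝ → ℝ, Tendsto (fun X => b (u X)) atTop (𝓝 0) →
      Tendsto (fun X : ℝ => Complex.I • (∫ y in (-α)..0, F (((u X : ℝ) : ℂ) + (y : ℂ) * Complex.I)))
        atTop (𝓝 0) := by
    intro u hu
    apply squeeze_zero_norm (a := fun X => b (u X) * α)
    · intro X
      rw [norm_smul, Complex.norm_I, one_mul]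
      have := intervalIntegral.norm_integral_le_of_norm_le_const (a := -α) (b := 0)
        (f := fun y : ℝ => F (((u X : ℝ) : ℂ) + (y : ℂ) * Complex.I)) (C := b (u X)) ?_
      · simpa [abs_of_nonneg hα] using this
      · intro y hy
        rw [Set.uIoc_of_le (by linarith)] at hy
        have h3 := hbound (u X) (-y) (by linarith [hy.2]) (by linarith [hy.1])
        have e : ((u X : ℝ) : ℂ) - ((-y : ℝ) : ℂ) * Complex.I = ((u X : ℝ) : ℂ) + (y : ℂ) * Complex.I := by
          push_cast; ring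
        rwa [e] at h3
    · simpa using hu.mul_const α
  have hv1 := hvert (fun X => X) hb0
  have hv2 := hvert (fun X => -X) (hb1.comp tendsto_neg_atTop_atBot)
  have hlim := ((hlim1.sub hlim0).add hv1).sub hv2
  have hz : Tendsto (fun _ : ℝ => (0 : ℂ)) atTop (𝓝 0) := tendsto_const_nhds
  have heq := tendsto_nhds_unique (hlim.congr fun X => by
    have := hrect X
    simpa using this) hz
  simp only [add_zero, sub_zero] at heq
  exact (sub_eq_zero.mp heq).symm

theorem lap_cov (g : ℝ → ℂ) :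
    ∫ v in Set.Ioi (0 : ℝ), g v = ∫ x : ℝ, (Real.exp x : ℂ) * g (Real.exp x) := by
  have h := integral_image_eq_integral_abs_deriv_smul (s := Set.univ) (f := Real.exp)
    (f' := Real.exp) MeasurableSet.univ (fun x _ => (Real.hasDerivAt_exp x).hasDerivWithinAt)
    Real.exp_injective.injOn g
  rw [Set.image_univ, Real.range_exp] at h
  rw [h, setIntegral_univ]
  refine integral_congr_ae (Eventually.of_forall fun x => ?_)
  simp only [abs_of_pos (Real.exp_pos x)]
  rw [Complex.real_smul]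

/-- The integrand in the logarithmic variable. -/
noncomputable def lapF (s z : ℂ) : ℂ :=
  Complex.exp (-s * (z + Complex.log (1 + Complex.I))) *
    Complex.exp (-(2 * (Real.pi : ℂ) * Complex.exp (2 * z))) /
      Complex.sin ((Real.pi : ℂ) * (Complex.exp z * (1 + Complex.I))) * Complex.exp z

theorem lap_one_add_I : (1 + Complex.I) ≠ 0 := by
  intro h
  have := congrArg Complex.re h
  simp at this

theorem lap_start (s : ℂ) :
    ∫ v in Set.Ioi (0 : ℝ), ((v : ℂ) * (1 + Complex.I)) ^ (-s) *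
        Complex.exp (-(2 * (Real.pi : ℂ) * (v : ℂ) ^ 2)) /
          Complex.sin ((Real.pi : ℂ) * ((v : ℂ) * (1 + Complex.I))) = ∫ x : ℝ, lapF s x := by
  rw [lap_cov]
  refine integral_congr_ae (Eventually.of_forall fun x => ?_)
  simp only [lapF]
  have h1 : (((Real.exp x : ℝ) : ℂ) * (1 + Complex.I)) ≠ 0 :=
    mul_ne_zero (by exact_mod_cast (Real.exp_pos x).ne') lap_one_add_I
  rw [Complex.cpow_def_of_ne_zero h1, Complex.log_ofReal_mul (Real.exp_pos x) lap_one_add_I,
    Real.log_exp, Complex.ofReal_exp]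
  have h2 : Complex.exp (x : ℂ) ^ 2 = Complex.exp (2 * (x : ℂ)) := by
    rw [← Complex.exp_nat_mul]; norm_num
  rw [h2]
  have h3 : ((x : ℂ) + Complex.log (1 + Complex.I)) * -s =
    -s * ((x : ℂ) + Complex.log (1 + Complex.I)) := by ring
  rw [h3]
  ring

/-- `q(α) = (1 + i) e^{-iα}`. -/
noncomputable def lapq (α : ℝ) : ℂ := (1 + Complex.I) * Complex.exp (-((α : ℂ) * Complex.I))

theorem lapq_eq (α : ℝ) : lapq α =
    ((Real.cos α + Real.sin α : ℝ) : ℂ) + ((Real.cos α - Real.sin α : ℝ) : ℂ) * Complex.I := by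
  unfold lapq
  have h : -((α : ℂ) * Complex.I) = ((-α : ℝ) : ℂ) * Complex.I := by push_cast; ring
  rw [h, Complex.exp_mul_I, ← Complex.ofReal_cos, ← Complex.ofReal_sin, Real.cos_neg,
    Real.sin_neg]
  push_cast
  linear_combination (- (Complex.sin (α : ℂ))) * Complex.I_mul_I

theorem lapq_im (α : ℝ) : (lapq α).im = Real.cos α - Real.sin α := by
  rw [lapq_eq]
  simp [Complex.add_im, Complex.mul_im, -Complex.ofReal_cos, -Complex.ofReal_sin,
    -Complex.ofReal_add, -Complex.ofReal_sub]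

theorem lapq_re (α : ℝ) : (lapq α).re = Real.cos α + Real.sin α := by
  rw [lapq_eq]
  simp [Complex.add_re, Complex.mul_re, -Complex.ofReal_cos, -Complex.ofReal_sin,
    -Complex.ofReal_add, -Complex.ofReal_sub]

theorem lap_sqrt3 : (5 / 6 : ℝ) ≤ √3 / 2 := by
  have : (5 / 3 : ℝ) ≤ √3 := Real.le_sqrt_of_sq_le (by norm_num)
  linarith

theorem lapq_im_ge {α : ℝ} (h0 : 0 ≤ α) (h1 : α ≤ Real.pi / 6) : 1 / 3 ≤ (lapq α).im := by
  rw [lapq_im]
  have hc : Real.cos (Real.pi / 6) ≤ Real.cos α :=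
    Real.cos_le_cos_of_nonneg_of_le_pi h0 (by linarith [Real.pi_pos]) h1
  have hs : Real.sin α ≤ Real.sin (Real.pi / 6) :=
    Real.sin_le_sin_of_le_of_le_pi_div_two (by linarith [Real.pi_pos]) (by linarith [Real.pi_pos]) h1
  rw [Real.cos_pi_div_six] at hc
  rw [Real.sin_pi_div_six] at hs
  linarith [lap_sqrt3]

theorem lapq_im_le {α : ℝ} (h0 : 0 ≤ α) (h1 : α ≤ Real.pi / 6) : (lapq α).im ≤ 1 := by
  rw [lapq_im]
  have hs : 0 ≤ Real.sin α := Real.sin_nonneg_of_nonneg_of_le_pi h0 (by linarith [Real.pi_pos])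
  linarith [Real.cos_le_one α]

/-- lower bound for the sine -/
theorem lap_sin_ge (w : ℂ) : |w.im| ≤ ‖Complex.sin w‖ := by
  have h : Complex.sin w = (Real.sin w.re * Real.cosh w.im : ℝ) +
      (Real.cos w.re * Real.sinh w.im : ℝ) * Complex.I := by
    conv_lhs => rw [← Complex.re_add_im w]
    rw [Complex.sin_add_mul_I]
    push_cast
    ring
  have h1 : ‖Complex.sin w‖ ^ 2 = (Real.sin w.re) ^ 2 + (Real.sinh w.im) ^ 2 := by
    rw [h, ← Complex.normSq_eq_norm_sq, Complex.normSq_add_mul_I]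
    have h2 := Real.cosh_sq w.im
    have h3 := Real.sin_sq_add_cos_sq w.re
    nlinarith [h2, h3]
  have h2 : |w.im| ≤ |Real.sinh w.im| := by
    rcases le_total 0 w.im with h0 | h0
    · rw [abs_of_nonneg h0, abs_of_nonneg (Real.sinh_nonneg_iff.2 h0)]
      exact Real.self_le_sinh_iff.2 h0
    · rw [abs_of_nonpos h0, abs_of_nonpos (Real.sinh_nonpos_iff.2 h0)]
      linarith [Real.sinh_le_self_iff.2 h0]
  have h4 : |Real.sinh w.im| ≤ ‖Complex.sin w‖ := by
    apply abs_le_of_sq_le_sq _ (norm_nonneg _)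
    rw [h1]
    nlinarith [sq_nonneg (Real.sin w.re)]
  linarith

/-- The majorant is integrable. -/
theorem lap_maj_integrable {a : ℝ} (ha : 0 < a) :
    Integrable (fun x : ℝ => Real.exp (a * x - Real.pi * Real.exp (2 * x))) := by
  have h := (integrableOn_image_iff_integrableOn_abs_deriv_smul (s := Set.univ) (f := Real.exp)
    (f' := Real.exp) MeasurableSet.univ (fun x _ => (Real.hasDerivAt_exp x).hasDerivWithinAt)
    Real.exp_injective.injOn (fun v : ℝ => v ^ (a - 1) * Real.exp (-Real.pi * v ^ 2))).1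
  rw [Set.image_univ, Real.range_exp] at h
  have h2 := h (integrableOn_rpow_mul_exp_neg_mul_sq Real.pi_pos (by linarith))
  rw [integrableOn_univ] at h2
  refine h2.congr (Eventually.of_forall fun x => ?_)
  simp only [smul_eq_mul, abs_of_pos (Real.exp_pos x)]
  rw [← Real.exp_mul, ← mul_assoc, ← Real.exp_add, ← Real.exp_nat_mul, ← Real.exp_add]
  congr 1
  push_cast
  ring

theorem lap_maj_atBot {a : ℝ} (ha : 0 < a) :
    Tendsto (fun x : ℝ => Real.exp (a * x - Real.pi * Real.exp (2 * x))) atBot (𝓝 0) := by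
  apply Real.tendsto_exp_atBot.comp
  refine tendsto_atBot_mono (fun x => ?_) (tendsto_id.const_mul_atBot ha)
  have : 0 ≤ Real.pi * Real.exp (2 * x) := by positivity
  simp only [id]
  linarith

theorem lap_maj_atTop {a : ℝ} (ha : 0 < a) :
    Tendsto (fun x : ℝ => Real.exp (a * x - Real.pi * Real.exp (2 * x))) atTop (𝓝 0) := by
  apply Real.tendsto_exp_atBot.comp
  have h0 : Tendsto (fun x : ℝ => (a + 1) ^ 2 - x) atTop atBot := by
    apply tendsto_atBot_add_const_left
    exact tendsto_neg_atTop_atBot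
  refine tendsto_atBot_mono' _ ?_ h0
  · filter_upwards [eventually_ge_atTop (0 : ℝ)] with x hx
    have h1 : 1 + 2 * x + (2 * x) ^ 2 / 2 ≤ Real.exp (2 * x) := Real.quadratic_le_exp_of_nonneg (by linarith)
    have h2 : 3 * Real.exp (2 * x) ≤ Real.pi * Real.exp (2 * x) := by
      have := Real.pi_gt_three
      have := Real.exp_pos (2 * x)
      nlinarith
    nlinarith [sq_nonneg (a + 1 - x)]

theorem lap_exp_sub (x y : ℝ) : Complex.exp ((x : ℂ) - (y : ℂ) * Complex.I) * (1 + Complex.I) =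
    (Real.exp x : ℂ) * lapq y := by
  unfold lapq
  rw [sub_eq_add_neg, Complex.exp_add, Complex.ofReal_exp]
  ring

theorem lap_re_exp2 (x y : ℝ) : (Complex.exp (2 * ((x : ℂ) - (y : ℂ) * Complex.I))).re =
    Real.exp (2 * x) * Real.cos (2 * y) := by
  rw [Complex.exp_re]
  simp [Real.cos_neg]

/-- Bound for the integrand in the strip. -/
theorem lap_bound (s : ℂ) (ht : 0 < s.im) (x y : ℝ) (hy0 : 0 ≤ y)
    (hy1 : y ≤ Real.pi / 6) : ‖lapF s ((x : ℂ) - (y : ℂ) * Complex.I)‖ ≤
    Real.exp (-s.re * (Complex.log (1 + Complex.I)).re + s.im * (Complex.log (1 + Complex.I)).im) *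
      Real.exp (-s.re * x - Real.pi * Real.exp (2 * x)) := by
  set ℓ := Complex.log (1 + Complex.I) with hℓ
  unfold lapF
  rw [← hℓ, norm_mul, norm_div, norm_mul, Complex.norm_exp, Complex.norm_exp, Complex.norm_exp]
  have e1 : (-s * ((x : ℂ) - (y : ℂ) * Complex.I + ℓ)).re =
      -s.re * x + (-s.re * ℓ.re + s.im * ℓ.im) - s.im * y := by
    simp [Complex.add_re, Complex.mul_re, Complex.add_im, Complex.sub_im, Complex.mul_im]
    ring
  have e2 : (-(2 * (Real.pi : ℂ) * Complex.exp (2 * ((x : ℂ) - (y : ℂ) * Complex.I)))).re =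
      -(2 * Real.pi * (Real.exp (2 * x) * Real.cos (2 * y))) := by
    rw [← lap_re_exp2]
    simp [Complex.mul_re]
  have e3 : ((x : ℂ) - (y : ℂ) * Complex.I).re = x := by simp
  rw [e1, e2, e3, lap_exp_sub]
  have hcos : 1 / 2 ≤ Real.cos (2 * y) := by
    have := Real.cos_le_cos_of_nonneg_of_le_pi (x := 2 * y) (y := Real.pi / 3) (by linarith)
      (by linarith [Real.pi_pos]) (by linarith)
    rw [Real.cos_pi_div_three] at this
    exact this
  have hE : 0 < Real.exp (2 * x) := Real.exp_pos _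
  have hsin : Real.exp x ≤ ‖Complex.sin ((Real.pi : ℂ) * ((Real.exp x : ℂ) * lapq y))‖ := by
    refine le_trans ?_ (lap_sin_ge _)
    have e4 : ((Real.pi : ℂ) * ((Real.exp x : ℂ) * lapq y)).im =
        Real.pi * (Real.exp x * (lapq y).im) := by
      rw [Complex.im_ofReal_mul, Complex.im_ofReal_mul]
    rw [e4]
    have h1 := lapq_im_ge hy0 hy1
    have h2 := Real.exp_pos x
    have h3 := Real.pi_gt_three
    have h4 : Real.exp x * (1 / 3) ≤ Real.exp x * (lapq y).im := by
      apply mul_le_mul_of_nonneg_left h1 h2.le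
    have h5 : Real.exp x ≤ Real.pi * (Real.exp x * (lapq y).im) := by
      have h6 : 3 * (Real.exp x * (lapq y).im) ≤ Real.pi * (Real.exp x * (lapq y).im) := by
        apply mul_le_mul_of_nonneg_right h3.le
        have : 0 ≤ Real.exp x * (1 / 3) := by positivity
        linarith
      linarith
    exact h5.trans (le_abs_self _)
  have hpos : 0 < ‖Complex.sin ((Real.pi : ℂ) * ((Real.exp x : ℂ) * lapq y))‖ :=
    lt_of_lt_of_le (Real.exp_pos x) hsin
  rw [div_mul_eq_mul_div, div_le_iff₀ hpos]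
  have h7 : Real.exp (-s.re * x + (-s.re * ℓ.re + s.im * ℓ.im) - s.im * y) *
      Real.exp (-(2 * Real.pi * (Real.exp (2 * x) * Real.cos (2 * y)))) ≤
      Real.exp (-s.re * ℓ.re + s.im * ℓ.im) *
      Real.exp (-s.re * x - Real.pi * Real.exp (2 * x)) := by
    rw [← Real.exp_add, ← Real.exp_add]
    apply Real.exp_le_exp.2
    have h8 : Real.pi * Real.exp (2 * x) ≤ 2 * Real.pi * (Real.exp (2 * x) * Real.cos (2 * y)) := by
      have : 0 < Real.pi * Real.exp (2 * x) := by positivity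
      nlinarith
    have h9 : 0 ≤ s.im * y := by positivity
    linarith
  calc _ ≤ Real.exp (-s.re * ℓ.re + s.im * ℓ.im) *
      Real.exp (-s.re * x - Real.pi * Real.exp (2 * x)) * Real.exp x :=
        mul_le_mul_of_nonneg_right h7 (Real.exp_pos x).le
    _ ≤ _ := mul_le_mul_of_nonneg_left hsin (by positivity)

/-- The rotated integral. -/
theorem lap_rotate (s : ℂ) (hs : s.re < 0) (ht : 0 < s.im) (α : ℝ) (h0 : 0 ≤ α)
    (h1 : α ≤ Real.pi / 6) :
    ∫ x : ℝ, lapF s x = ∫ x : ℝ, lapF s ((x : ℂ) - (α : ℂ) * Complex.I) := by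
  refine lap_shift (lapF s) α h0 ?_ (fun x => Real.exp (-s.re * (Complex.log (1 + Complex.I)).re +
    s.im * (Complex.log (1 + Complex.I)).im) *
      Real.exp (-s.re * x - Real.pi * Real.exp (2 * x)))
    ((lap_maj_integrable (by linarith)).const_mul _)
    (fun x y hy0 hy1 => lap_bound s ht x y hy0 (by linarith)) ?_ ?_
  · intro z hz1 hz2
    have hne : Complex.sin ((Real.pi : ℂ) * (Complex.exp z * (1 + Complex.I))) ≠ 0 := by
      have hz : z = ((z.re : ℝ) : ℂ) - ((-z.im : ℝ) : ℂ) * Complex.I := by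
        conv_lhs => rw [← Complex.re_add_im z]
        push_cast; ring
      rw [hz, lap_exp_sub]
      intro h
      have h5 := lap_sin_ge ((Real.pi : ℂ) * ((Real.exp z.re : ℂ) * lapq (-z.im)))
      rw [h, norm_zero, Complex.im_ofReal_mul, Complex.im_ofReal_mul] at h5
      have h6 := lapq_im_ge (α := -z.im) (by linarith) (by linarith)
      have h7 : 0 < Real.pi * (Real.exp z.re * (lapq (-z.im)).im) := by
        have : 0 < (lapq (-z.im)).im := by linarith
        positivity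
      have h8 := abs_pos.2 h7.ne'
      linarith
    unfold lapF
    apply DifferentiableAt.mul _ (by fun_prop)
    fun_prop (disch := exact hne)
  · simpa using (lap_maj_atTop (a := -s.re) (by linarith)).const_mul (Real.exp (-s.re * (Complex.log (1 + Complex.I)).re +
      s.im * (Complex.log (1 + Complex.I)).im))
  · simpa using (lap_maj_atBot (a := -s.re) (by linarith)).const_mul (Real.exp (-s.re * (Complex.log (1 + Complex.I)).re +
      s.im * (Complex.log (1 + Complex.I)).im))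

/-- The integrand on the rotated ray. -/
noncomputable def lapG (s : ℂ) (α r : ℝ) : ℂ :=
  Complex.exp (-s * ((Real.log r : ℂ) + (Complex.log (1 + Complex.I) - (α : ℂ) * Complex.I))) *
    Complex.exp (-(2 * (Real.pi : ℂ) * ((r : ℂ) ^ 2 * Complex.exp (-(2 * (α : ℂ) * Complex.I))))) /
      Complex.sin ((Real.pi : ℂ) * ((r : ℂ) * lapq α)) * Complex.exp (-((α : ℂ) * Complex.I))

theorem lap_back (s : ℂ) (α : ℝ) :
    ∫ x : ℝ, lapF s ((x : ℂ) - (α : ℂ) * Complex.I) = ∫ r in Set.Ioi (0 : ℝ), lapG s α r := by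
  rw [lap_cov]
  refine integral_congr_ae (Eventually.of_forall fun x => ?_)
  simp only [lapF, lapG]
  rw [lap_exp_sub, Real.log_exp]
  have h1 : Complex.exp (2 * ((x : ℂ) - (α : ℂ) * Complex.I)) =
      ((Real.exp x : ℝ) : ℂ) ^ 2 * Complex.exp (-(2 * (α : ℂ) * Complex.I)) := by
    rw [Complex.ofReal_exp, ← Complex.exp_nat_mul, ← Complex.exp_add]
    congr 1
    push_cast
    ring
  have h2 : Complex.exp ((x : ℂ) - (α : ℂ) * Complex.I) =
      ((Real.exp x : ℝ) : ℂ) * Complex.exp (-((α : ℂ) * Complex.I)) := by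
    rw [Complex.ofReal_exp, ← Complex.exp_add]
    congr 1
  have h3 : (x : ℂ) - (α : ℂ) * Complex.I + Complex.log (1 + Complex.I) =
      (x : ℂ) + (Complex.log (1 + Complex.I) - (α : ℂ) * Complex.I) := by ring
  rw [h1, h2, h3]
  ring

/-- The normalised exponent. -/
noncomputable def lapE (R x : ℝ) : ℝ :=
  4 * Real.pi * R ^ 2 * Real.log (1 + x / R) - 2 * Real.pi * (2 * R * x + x ^ 2)

/-- The normalised integrand. -/
noncomputable def lapJ (R α x : ℝ) : ℂ :=
  if 0 < R + x then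
    Complex.exp (Complex.exp (-(2 * (α : ℂ) * Complex.I)) * (lapE R x : ℂ)) *
      (((R + x) / R : ℝ) : ℂ) * Complex.exp (Complex.I * ((Real.pi : ℂ) * ((x : ℂ) * lapq α))) /
        (1 - Complex.exp (2 * (Complex.I * ((Real.pi : ℂ) * (((R + x : ℝ) : ℂ) * lapq α)))))
  else 0

theorem lap_inv_sin (z : ℂ) : (Complex.sin z)⁻¹ =
    -2 * Complex.I * Complex.exp (Complex.I * z) / (1 - Complex.exp (2 * (Complex.I * z))) := by
  have h1 : Complex.exp (2 * (Complex.I * z)) = Complex.exp (Complex.I * z) ^ 2 := by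
    rw [← Complex.exp_nat_mul]; push_cast; rfl
  have h2 : Complex.exp (-z * Complex.I) = (Complex.exp (Complex.I * z))⁻¹ := by
    rw [← Complex.exp_neg]; congr 1; ring
  have h3 : Complex.exp (z * Complex.I) = Complex.exp (Complex.I * z) := by
    congr 1; ring
  have hA := Complex.exp_ne_zero (Complex.I * z)
  rw [Complex.sin, h2, h3, h1]
  set A := Complex.exp (Complex.I * z)
  have h4 : (A⁻¹ - A) * Complex.I / 2 = A⁻¹ * (1 - A ^ 2) * (Complex.I / 2) := by
    field_simp
  have h5 : (Complex.I / 2)⁻¹ = -2 * Complex.I := by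
    rw [inv_div, div_eq_mul_inv, Complex.inv_I]; ring
  rw [h4, mul_inv, mul_inv, inv_inv, h5]
  ring

/-- The normalising factor. -/
noncomputable def lapK (s : ℂ) (R α : ℝ) : ℂ :=
  Complex.exp ((-s - 1) * (Complex.log (1 + Complex.I) - (α : ℂ) * Complex.I)) *
    Complex.exp (Complex.log (1 + Complex.I) - (α : ℂ) * Complex.I) *
    Complex.exp (-((α : ℂ) * Complex.I)) *
    Complex.exp (Complex.exp (-(2 * (α : ℂ) * Complex.I)) *
      ((4 * Real.pi * R ^ 2 * Real.log R - 2 * Real.pi * R ^ 2 : ℝ) : ℂ)) *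
    (R : ℂ) * (-2 * Complex.I) *
    Complex.exp (Complex.I * ((Real.pi : ℂ) * ((R : ℂ) * lapq α)))

theorem lapK_ne_zero (s : ℂ) (R α : ℝ) (hR : 0 < R) : lapK s R α ≠ 0 := by
  unfold lapK
  have h : (R : ℂ) ≠ 0 := by exact_mod_cast hR.ne'
  have h2 : (-2 * Complex.I : ℂ) ≠ 0 := mul_ne_zero (by norm_num) Complex.I_ne_zero
  have h3 := fun z => Complex.exp_ne_zero z
  simp only [ne_eq, mul_eq_zero, h3, h, h2, or_self, not_false_eq_true]

theorem lapG_eq (s : ℂ) (R α x : ℝ) (hR : 0 < R) (hx : 0 < R + x)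
    (hs : -s - 1 = ((4 * Real.pi * R ^ 2 : ℝ) : ℂ) * Complex.exp (-(2 * (α : ℂ) * Complex.I))) :
    lapG s α (R + x) = lapK s R α * lapJ R α x := by
  unfold lapG lapJ lapK
  rw [if_pos hx]
  set ζ := Complex.log (1 + Complex.I) - (α : ℂ) * Complex.I with hζ
  set e := Complex.exp (-(2 * (α : ℂ) * Complex.I)) with he
  have hRc : (R : ℂ) ≠ 0 := by exact_mod_cast hR.ne'
  have h1 : Complex.exp (-s * ((Real.log (R + x) : ℂ) + ζ)) =
      Complex.exp (e * ((4 * Real.pi * R ^ 2 * Real.log (R + x) : ℝ) : ℂ)) *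
        Complex.exp ((-s - 1) * ζ) * ((R + x : ℝ) : ℂ) * Complex.exp ζ := by
    have h2 : -s * ((Real.log (R + x) : ℂ) + ζ) =
        (-s - 1) * (Real.log (R + x) : ℂ) + (-s - 1) * ζ + (Real.log (R + x) : ℂ) + ζ := by ring
    rw [h2, Complex.exp_add, Complex.exp_add, Complex.exp_add, ← Complex.ofReal_exp,
      Real.exp_log hx, hs]
    congr 4
    push_cast
    ring
  have h3 : Complex.exp (e * ((4 * Real.pi * R ^ 2 * Real.log (R + x) : ℝ) : ℂ)) *
      Complex.exp (-(2 * (Real.pi : ℂ) * (((R + x : ℝ) : ℂ) ^ 2 * e))) =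
      Complex.exp (e * ((4 * Real.pi * R ^ 2 * Real.log R - 2 * Real.pi * R ^ 2 : ℝ) : ℂ)) *
        Complex.exp (e * (lapE R x : ℂ)) := by
    rw [← Complex.exp_add, ← Complex.exp_add]
    congr 1
    have h4 : Real.log (R + x) = Real.log R + Real.log (1 + x / R) := by
      rw [← Real.log_mul hR.ne' (by
        have : 1 + x / R = (R + x) / R := by field_simp
        rw [this]; positivity)]
      congr 1
      field_simp
    rw [h4]
    unfold lapE
    push_cast
    ring
  have h5 : Complex.exp (Complex.I * ((Real.pi : ℂ) * (((R + x : ℝ) : ℂ) * lapq α))) =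
      Complex.exp (Complex.I * ((Real.pi : ℂ) * ((R : ℂ) * lapq α))) *
        Complex.exp (Complex.I * ((Real.pi : ℂ) * ((x : ℂ) * lapq α))) := by
    rw [← Complex.exp_add]
    congr 1
    push_cast
    ring
  have h6 : ((R + x : ℝ) : ℂ) = (R : ℂ) * (((R + x) / R : ℝ) : ℂ) := by
    push_cast
    field_simp
  rw [div_eq_mul_inv, lap_inv_sin, h5, h1]
  calc _ = (Complex.exp (e * ((4 * Real.pi * R ^ 2 * Real.log (R + x) : ℝ) : ℂ)) *
      Complex.exp (-(2 * (Real.pi : ℂ) * (((R + x : ℝ) : ℂ) ^ 2 * e)))) *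
        (Complex.exp ((-s - 1) * ζ) * ((R + x : ℝ) : ℂ) * Complex.exp ζ *
        (-2 * Complex.I * (Complex.exp (Complex.I * ((Real.pi : ℂ) * ((R : ℂ) * lapq α))) *
          Complex.exp (Complex.I * ((Real.pi : ℂ) * ((x : ℂ) * lapq α)))) /
          (1 - Complex.exp (2 * (Complex.I * ((Real.pi : ℂ) * (((R + x : ℝ) : ℂ) * lapq α)))))) *
        Complex.exp (-((α : ℂ) * Complex.I))) := by ring
    _ = (Complex.exp (e * ((4 * Real.pi * R ^ 2 * Real.log R - 2 * Real.pi * R ^ 2 : ℝ) : ℂ)) *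
        Complex.exp (e * (lapE R x : ℂ))) *
        (Complex.exp ((-s - 1) * ζ) * ((R : ℂ) * (((R + x) / R : ℝ) : ℂ)) * Complex.exp ζ *
        (-2 * Complex.I * (Complex.exp (Complex.I * ((Real.pi : ℂ) * ((R : ℂ) * lapq α))) *
          Complex.exp (Complex.I * ((Real.pi : ℂ) * ((x : ℂ) * lapq α)))) /
          (1 - Complex.exp (2 * (Complex.I * ((Real.pi : ℂ) * (((R + x : ℝ) : ℂ) * lapq α)))))) *
        Complex.exp (-((α : ℂ) * Complex.I))) := by rw [h3, ← h6]
    _ = _ := by ring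

/-- The whole Laplace integral in normalised form. -/
theorem lap_normal (s : ℂ) (hs0 : s.re < 0) (ht : 0 < s.im) (R α : ℝ) (hR : 0 < R) (h0 : 0 ≤ α)
    (h1 : α ≤ Real.pi / 6)
    (hs : -s - 1 = ((4 * Real.pi * R ^ 2 : ℝ) : ℂ) * Complex.exp (-(2 * (α : ℂ) * Complex.I))) :
    ∫ v in Set.Ioi (0 : ℝ), ((v : ℂ) * (1 + Complex.I)) ^ (-s) *
        Complex.exp (-(2 * (Real.pi : ℂ) * (v : ℂ) ^ 2)) /
          Complex.sin ((Real.pi : ℂ) * ((v : ℂ) * (1 + Complex.I))) =
      lapK s R α * ∫ x : ℝ, lapJ R α x := by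
  rw [lap_start, lap_rotate s hs0 ht α h0 h1, lap_back, ← integral_indicator measurableSet_Ioi,
    ← integral_const_mul, ← integral_add_left_eq_self _ R]
  refine integral_congr_ae (Eventually.of_forall fun x => ?_)
  simp only
  by_cases hx : 0 < R + x
  · rw [Set.indicator_of_mem (by simpa using hx), lapG_eq s R α x hR hx hs]
  · rw [Set.indicator_of_notMem (by simpa using hx)]
    unfold lapJ
    rw [if_neg hx, mul_zero]

theorem lapE_le {R x : ℝ} (hR : 0 < R) (hx : 0 < R + x) : lapE R x ≤ -(2 * Real.pi * x ^ 2) := by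
  unfold lapE
  have h1 : 0 < 1 + x / R := by
    have : 1 + x / R = (R + x) / R := by field_simp
    rw [this]; positivity
  have h2 := Real.log_le_sub_one_of_pos h1
  have h3 : 4 * Real.pi * R ^ 2 * Real.log (1 + x / R) ≤ 4 * Real.pi * R ^ 2 * (x / R) := by
    apply mul_le_mul_of_nonneg_left (by linarith) (by positivity)
  have h4 : 4 * Real.pi * R ^ 2 * (x / R) = 4 * Real.pi * R * x := by field_simp
  linarith

theorem lap_exp2_re (α : ℝ) : (Complex.exp (-(2 * (α : ℂ) * Complex.I))).re = Real.cos (2 * α) := by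
  rw [Complex.exp_re]
  simp [Real.cos_neg]

theorem lap_norm_expq (y α : ℝ) :
    ‖Complex.exp (Complex.I * ((Real.pi : ℂ) * ((y : ℂ) * lapq α)))‖ =
      Real.exp (-(Real.pi * y * (lapq α).im)) := by
  rw [Complex.norm_exp]
  congr 1
  rw [Complex.I_mul_re, Complex.im_ofReal_mul, Complex.im_ofReal_mul]
  ring

theorem lap_norm_expq2 (y α : ℝ) :
    ‖Complex.exp (2 * (Complex.I * ((Real.pi : ℂ) * ((y : ℂ) * lapq α))))‖ =
      Real.exp (-(2 * Real.pi * y * (lapq α).im)) := by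
  rw [Complex.norm_exp]
  congr 1
  have : (2 * (Complex.I * ((Real.pi : ℂ) * ((y : ℂ) * lapq α)))) =
    Complex.I * (((2 : ℝ) : ℂ) * ((Real.pi : ℂ) * ((y : ℂ) * lapq α))) := by push_cast; ring
  rw [this, Complex.I_mul_re, Complex.im_ofReal_mul, Complex.im_ofReal_mul, Complex.im_ofReal_mul]
  ring

theorem lap_cos2 {α : ℝ} (h0 : 0 ≤ α) (h1 : α ≤ Real.pi / 6) : 1 / 2 ≤ Real.cos (2 * α) := by
  have := Real.cos_le_cos_of_nonneg_of_le_pi (x := 2 * α) (y := Real.pi / 3) (by linarith)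
    (by linarith [Real.pi_pos]) (by linarith)
  rwa [Real.cos_pi_div_three] at this

theorem lap_quot {y : ℝ} (hy : 0 < y) : y / (1 - Real.exp (-y)) ≤ 1 + y := by
  have h1 : Real.exp (-y) < 1 := by rw [Real.exp_lt_one_iff]; linarith
  rw [div_le_iff₀ (by linarith)]
  have h2 := Real.add_one_le_exp y
  have h3 : (1 + y) * Real.exp (-y) ≤ 1 := by
    calc (1 + y) * Real.exp (-y) ≤ Real.exp y * Real.exp (-y) :=
          mul_le_mul_of_nonneg_right (by linarith) (Real.exp_pos _).le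
      _ = 1 := by rw [← Real.exp_add]; simp
  nlinarith

theorem lapJ_bound {R α : ℝ} (hR : 1 ≤ R) (h0 : 0 ≤ α) (h1 : α ≤ Real.pi / 6) (x : ℝ) :
    ‖lapJ R α x‖ ≤ 2 * Real.exp 3 * Real.exp (-1 * x ^ 2) := by
  unfold lapJ
  split_ifs with hx
  swap
  · rw [norm_zero]; positivity
  have hR0 : 0 < R := by linarith
  have hb1 := lapq_im_ge h0 h1
  have hb2 := lapq_im_le h0 h1
  set q := lapq α with hq
  have hpi := Real.pi_gt_three
  have hpi2 := Real.pi_lt_d2
  rw [norm_div, norm_mul, norm_mul, Complex.norm_exp, lap_norm_expq]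
  -- first factor
  have f1 : Real.exp (Complex.exp (-(2 * (α : ℂ) * Complex.I)) * (lapE R x : ℂ)).re ≤
      Real.exp (-(Real.pi * x ^ 2)) := by
    apply Real.exp_le_exp.2
    rw [Complex.re_mul_ofReal, lap_exp2_re]
    have := lapE_le hR0 hx
    have h2 := lap_cos2 h0 h1
    have h3 : 0 ≤ Real.pi * x ^ 2 := by positivity
    have h4 : lapE R x ≤ 0 := by nlinarith
    nlinarith
  have f2 : ‖(((R + x) / R : ℝ) : ℂ)‖ = (R + x) / R := by
    rw [Complex.norm_real, Real.norm_of_nonneg (by positivity)]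
  have f3 : Real.exp (-(Real.pi * x * q.im)) ≤ Real.exp (Real.pi * |x|) := by
    apply Real.exp_le_exp.2
    have h2 : -(x * q.im) ≤ |x| := by
      have h3 : |x * q.im| ≤ |x| := by
        rw [abs_mul, abs_of_nonneg (a := q.im) (by linarith)]
        have := abs_nonneg x
        nlinarith
      linarith [neg_abs_le (x * q.im)]
    nlinarith
  -- denominator
  set ρ := R + x with hρ
  set y := 2 * Real.pi * ρ * q.im with hy
  have hy0 : 0 < y := by
    have : 0 < q.im := by linarith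
    positivity
  have f4 : 1 - Real.exp (-y) ≤
      ‖1 - Complex.exp (2 * (Complex.I * ((Real.pi : ℂ) * ((ρ : ℂ) * q))))‖ := by
    have := norm_sub_norm_le (1 : ℂ) (Complex.exp (2 * (Complex.I * ((Real.pi : ℂ) * ((ρ : ℂ) * q)))))
    rw [lap_norm_expq2, norm_one] at this
    exact this
  have hden : 0 < 1 - Real.exp (-y) := by
    have : Real.exp (-y) < 1 := by rw [Real.exp_lt_one_iff]; linarith
    linarith
  have f5 : (ρ / R) / ‖1 - Complex.exp (2 * (Complex.I * ((Real.pi : ℂ) * ((ρ : ℂ) * q))))‖ ≤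
      2 + |x| := by
    have g1 : (ρ / R) / ‖1 - Complex.exp (2 * (Complex.I * ((Real.pi : ℂ) * ((ρ : ℂ) * q))))‖ ≤
        (ρ / R) / (1 - Real.exp (-y)) := by
      apply div_le_div_of_nonneg_left (by positivity) hden f4
    have g2 := lap_quot hy0
    have g3 : ρ / (1 - Real.exp (-y)) ≤ 1 + ρ := by
      have hc : 1 ≤ 2 * Real.pi * q.im := by nlinarith
      have e : ρ = y / (2 * Real.pi * q.im) := by
        rw [hy]; field_simp
      have : ρ / (1 - Real.exp (-y)) = (y / (1 - Real.exp (-y))) / (2 * Real.pi * q.im) := by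
        rw [div_right_comm, ← e]
      rw [this]
      calc (y / (1 - Real.exp (-y))) / (2 * Real.pi * q.im) ≤ (1 + y) / (2 * Real.pi * q.im) := by
            apply div_le_div_of_nonneg_right g2; positivity
        _ = 1 / (2 * Real.pi * q.im) + ρ := by rw [add_div, ← e]
        _ ≤ 1 + ρ := by
            have : 1 / (2 * Real.pi * q.im) ≤ 1 := by
              rw [div_le_one (by positivity)]; exact hc
            linarith
    have g4 : (ρ / R) / (1 - Real.exp (-y)) ≤ (1 + ρ) / R := by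
      rw [div_right_comm]
      exact div_le_div_of_nonneg_right g3 hR0.le
    have g5 : (1 + ρ) / R ≤ 2 + |x| := by
      rw [div_le_iff₀ hR0]
      have := abs_nonneg x
      have := le_abs_self x
      nlinarith
    linarith
  rw [f2]
  have f6 : Real.exp (Complex.exp (-(2 * (α : ℂ) * Complex.I)) * (lapE R x : ℂ)).re * (ρ / R) *
      Real.exp (-(Real.pi * x * q.im)) /
        ‖1 - Complex.exp (2 * (Complex.I * ((Real.pi : ℂ) * ((ρ : ℂ) * q))))‖ =
      Real.exp (Complex.exp (-(2 * (α : ℂ) * Complex.I)) * (lapE R x : ℂ)).re *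
      Real.exp (-(Real.pi * x * q.im)) *
      ((ρ / R) / ‖1 - Complex.exp (2 * (Complex.I * ((Real.pi : ℂ) * ((ρ : ℂ) * q))))‖) := by ring
  rw [f6]
  have f7 : 2 + |x| ≤ 2 * Real.exp |x| := by
    have := Real.add_one_le_exp |x|
    have := abs_nonneg x
    linarith
  calc _ ≤ Real.exp (-(Real.pi * x ^ 2)) * Real.exp (Real.pi * |x|) * (2 * Real.exp |x|) := by
        apply mul_le_mul _ (f5.trans f7) (by positivity) (by positivity)
        exact mul_le_mul f1 f3 (by positivity) (by positivity)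
    _ = 2 * Real.exp (-(Real.pi * x ^ 2) + Real.pi * |x| + |x|) := by
        rw [Real.exp_add, Real.exp_add]; ring
    _ ≤ 2 * Real.exp (3 + -1 * x ^ 2) := by
        apply mul_le_mul_of_nonneg_left _ (by norm_num)
        apply Real.exp_le_exp.2
        have : x ^ 2 = |x| ^ 2 := (sq_abs x).symm
        rw [this]
        have := abs_nonneg x
        nlinarith [sq_nonneg (|x| - 1)]
    _ = _ := by rw [Real.exp_add]; ring

theorem lapE_tendsto (x : ℝ) :
    Tendsto (fun R : ℝ => lapE R x) atTop (𝓝 (-(4 * Real.pi * x ^ 2))) := by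
  -- `|lapE R x + 4π x²| ≤ 4π |x|³ / (R - |x|)`
  have hb : ∀ᶠ R : ℝ in atTop, ‖lapE R x - -(4 * Real.pi * x ^ 2)‖ ≤
      4 * Real.pi * |x| ^ 3 / (R - |x|) := by
    filter_upwards [eventually_gt_atTop (|x| + 1)] with R hR
    have hR0 : 0 < R := by linarith [abs_nonneg x]
    have hy : |-(x / R)| < 1 := by
      rw [abs_neg, abs_div, abs_of_pos hR0, div_lt_one hR0]
      linarith
    have h := Real.abs_log_sub_add_sum_range_le hy 2
    simp only [Finset.sum_range_succ, Finset.sum_range_zero, sub_neg_eq_add, abs_neg] at h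
    have e : lapE R x - -(4 * Real.pi * x ^ 2) =
        4 * Real.pi * R ^ 2 * (-(x / R) + (x / R) ^ 2 / 2 + Real.log (1 + x / R)) := by
      unfold lapE
      field_simp
      ring
    rw [e, Real.norm_eq_abs, abs_mul, abs_of_pos (by positivity : (0:ℝ) < 4 * Real.pi * R ^ 2)]
    have h2 : |-(x / R) + (x / R) ^ 2 / 2 + Real.log (1 + x / R)| ≤ |x / R| ^ 3 / (1 - |x / R|) := by
      refine le_trans (le_of_eq ?_) h
      congr 1
      norm_num
    calc _ ≤ 4 * Real.pi * R ^ 2 * (|x / R| ^ 3 / (1 - |x / R|)) :=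
          mul_le_mul_of_nonneg_left h2 (by positivity)
      _ = 4 * Real.pi * |x| ^ 3 / (R - |x|) := by
          rw [abs_div, abs_of_pos hR0]
          have : R - |x| ≠ 0 := by linarith
          have h5 : 1 - |x| / R = (R - |x|) / R := by field_simp
          rw [h5]
          field_simp
  have h0 : Tendsto (fun R : ℝ => 4 * Real.pi * |x| ^ 3 / (R - |x|)) atTop (𝓝 0) := by
    apply Tendsto.const_div_atTop
    exact tendsto_atTop_add_const_right _ _ tendsto_id
  rw [tendsto_iff_norm_sub_tendsto_zero]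
  exact squeeze_zero' (Eventually.of_forall fun _ => norm_nonneg _) hb h0

theorem lapJ_tendsto (Rn αn : ℕ → ℝ) (α₀ : ℝ) (hR : Tendsto Rn atTop atTop)
    (hα : Tendsto αn atTop (𝓝 α₀)) (hr : ∀ n, 0 ≤ αn n ∧ αn n ≤ Real.pi / 6) (x : ℝ) :
    Tendsto (fun n => lapJ (Rn n) (αn n) x) atTop
      (𝓝 (Complex.exp (Complex.exp (-(2 * (α₀ : ℂ) * Complex.I)) * ((-(4 * Real.pi * x ^ 2) : ℝ) : ℂ)) *
        Complex.exp (Complex.I * ((Real.pi : ℂ) * ((x : ℂ) * lapq α₀))))) := by
  have hαc : Tendsto (fun n => ((αn n : ℝ) : ℂ)) atTop (𝓝 (α₀ : ℂ)) :=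
    (Complex.continuous_ofReal.tendsto _).comp hα
  have hq : Tendsto (fun n => lapq (αn n)) atTop (𝓝 (lapq α₀)) := by
    have hc : Continuous lapq := by unfold lapq; fun_prop
    exact (hc.tendsto _).comp hα
  have he : Tendsto (fun n => Complex.exp (-(2 * ((αn n : ℝ) : ℂ) * Complex.I))) atTop
      (𝓝 (Complex.exp (-(2 * (α₀ : ℂ) * Complex.I)))) := by
    have hc : Continuous (fun a : ℝ => Complex.exp (-(2 * (a : ℂ) * Complex.I))) := by fun_prop
    exact (hc.tendsto _).comp hα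
  have hE : Tendsto (fun n => ((lapE (Rn n) x : ℝ) : ℂ)) atTop
      (𝓝 ((-(4 * Real.pi * x ^ 2) : ℝ) : ℂ)) :=
    (Complex.continuous_ofReal.tendsto _).comp ((lapE_tendsto x).comp hR)
  have h1 : Tendsto (fun n => Complex.exp (Complex.exp (-(2 * ((αn n : ℝ) : ℂ) * Complex.I)) *
      (lapE (Rn n) x : ℂ))) atTop (𝓝 (Complex.exp (Complex.exp (-(2 * (α₀ : ℂ) * Complex.I)) *
        ((-(4 * Real.pi * x ^ 2) : ℝ) : ℂ)))) :=
    (Complex.continuous_exp.tendsto _).comp (he.mul hE)
  have h2 : Tendsto (fun n => (((Rn n + x) / Rn n : ℝ) : ℂ)) atTop (𝓝 1) := by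
    have h3 : Tendsto (fun n => 1 + x / Rn n) atTop (𝓝 (1 + 0)) :=
      tendsto_const_nhds.add (Tendsto.const_div_atTop hR x)
    have h4 : Tendsto (fun n => (Rn n + x) / Rn n) atTop (𝓝 1) := by
      rw [add_zero] at h3
      refine h3.congr' ?_
      filter_upwards [hR.eventually_gt_atTop 0] with n hn
      field_simp
    have h5 := (Complex.continuous_ofReal.tendsto _).comp h4
    rw [Complex.ofReal_one] at h5
    exact h5
  have h3 : Tendsto (fun n => Complex.exp (Complex.I * ((Real.pi : ℂ) * ((x : ℂ) * lapq (αn n)))))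
      atTop (𝓝 (Complex.exp (Complex.I * ((Real.pi : ℂ) * ((x : ℂ) * lapq α₀))))) :=
    (Complex.continuous_exp.tendsto _).comp (tendsto_const_nhds.mul
      (tendsto_const_nhds.mul (tendsto_const_nhds.mul hq)))
  have h4 : Tendsto (fun n => Complex.exp (2 * (Complex.I * ((Real.pi : ℂ) *
      (((Rn n + x : ℝ) : ℂ) * lapq (αn n)))))) atTop (𝓝 0) := by
    rw [tendsto_zero_iff_norm_tendsto_zero]
    have h5 : Tendsto (fun n => Real.exp (-(Rn n + x))) atTop (𝓝 0) := by
      apply Real.tendsto_exp_atBot.comp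
      exact tendsto_neg_atTop_atBot.comp (tendsto_atTop_add_const_right _ _ hR)
    refine squeeze_zero' (Eventually.of_forall fun _ => norm_nonneg _) ?_ h5
    filter_upwards [hR.eventually_gt_atTop (-x)] with n hn
    rw [lap_norm_expq2]
    apply Real.exp_le_exp.2
    have hb := lapq_im_ge (hr n).1 (hr n).2
    have hpi := Real.pi_gt_three
    have h6 : 0 < Rn n + x := by linarith
    have h7 : 1 ≤ 2 * Real.pi * (lapq (αn n)).im := by nlinarith
    nlinarith
  have h5 := (((h1.mul h2).mul h3).div (tendsto_const_nhds (x := (1 : ℂ)).sub h4) (by norm_num))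
  rw [mul_one, sub_zero, div_one] at h5
  refine h5.congr' ?_
  filter_upwards [hR.eventually_gt_atTop (-x)] with n hn
  unfold lapJ
  rw [if_pos (by linarith)]
  rfl

theorem lapJ_measurable (R α : ℝ) : AEStronglyMeasurable (fun x => lapJ R α x) := by
  apply Measurable.aestronglyMeasurable
  unfold lapJ lapE
  apply Measurable.ite
  · exact measurableSet_lt measurable_const (by fun_prop)
  · fun_prop
  · fun_prop

theorem lapJ_integral_tendsto (Rn αn : ℕ → ℝ) (α₀ : ℝ) (hR : Tendsto Rn atTop atTop)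
    (hα : Tendsto αn atTop (𝓝 α₀)) (hr : ∀ n, 0 ≤ αn n ∧ αn n ≤ Real.pi / 6) :
    Tendsto (fun n => ∫ x : ℝ, lapJ (Rn n) (αn n) x) atTop
      (𝓝 (∫ x : ℝ, Complex.exp (Complex.exp (-(2 * (α₀ : ℂ) * Complex.I)) *
        ((-(4 * Real.pi * x ^ 2) : ℝ) : ℂ)) *
        Complex.exp (Complex.I * ((Real.pi : ℂ) * ((x : ℂ) * lapq α₀))))) := by
  refine tendsto_integral_filter_of_dominated_convergence
    (fun x => 2 * Real.exp 3 * Real.exp (-1 * x ^ 2)) ?_ ?_ ?_ ?_
  · exact Eventually.of_forall fun n => lapJ_measurable _ _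
  · filter_upwards [hR.eventually_ge_atTop 1] with n hn
    exact Eventually.of_forall fun x => lapJ_bound hn (hr n).1 (hr n).2 x
  · exact (integrable_exp_neg_mul_sq one_pos).const_mul _
  · exact Eventually.of_forall fun x => lapJ_tendsto Rn αn α₀ hR hα hr x

theorem lap_gauss_ne_zero {α₀ : ℝ} (h0 : 0 ≤ α₀) (h1 : α₀ ≤ Real.pi / 6) :
    (∫ x : ℝ, Complex.exp (Complex.exp (-(2 * (α₀ : ℂ) * Complex.I)) *
        ((-(4 * Real.pi * x ^ 2) : ℝ) : ℂ)) *
        Complex.exp (Complex.I * ((Real.pi : ℂ) * ((x : ℂ) * lapq α₀)))) ≠ 0 := by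
  set e := Complex.exp (-(2 * (α₀ : ℂ) * Complex.I)) with he
  have hb : ((((-(4 * Real.pi) : ℝ)) : ℂ) * e).re < 0 := by
    rw [Complex.re_ofReal_mul, he, lap_exp2_re]
    have := lap_cos2 h0 h1
    have := Real.pi_pos
    nlinarith
  have h := integral_cexp_quadratic hb (Complex.I * ((Real.pi : ℂ) * lapq α₀)) 0
  have heq : (∫ x : ℝ, Complex.exp (e * ((-(4 * Real.pi * x ^ 2) : ℝ) : ℂ)) *
        Complex.exp (Complex.I * ((Real.pi : ℂ) * ((x : ℂ) * lapq α₀)))) =
      ∫ x : ℝ, Complex.exp ((((-(4 * Real.pi) : ℝ)) : ℂ) * e * (x : ℂ) ^ 2 +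
        Complex.I * ((Real.pi : ℂ) * lapq α₀) * (x : ℂ) + 0) := by
    refine integral_congr_ae (Eventually.of_forall fun x => ?_)
    simp only
    rw [← Complex.exp_add]
    congr 1
    push_cast
    ring
  rw [heq, h]
  have hne : (((-(4 * Real.pi) : ℝ)) : ℂ) * e ≠ 0 := by
    intro h2
    rw [h2] at hb
    simp at hb
  apply mul_ne_zero _ (Complex.exp_ne_zero _)
  rw [Complex.cpow_def_of_ne_zero]
  · exact Complex.exp_ne_zero _
  · exact div_ne_zero (by exact_mod_cast Real.pi_ne_zero) (neg_ne_zero.2 hne)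

/-- The polar form of `-s - 1`. -/
theorem lap_polar (s : ℂ) (h1 : s.re ≤ -3) (h2 : 0 < s.im) (h3 : s.im ≤ -s.re) :
    ∃ R α : ℝ, 0 < R ∧ -s.re - 1 ≤ 4 * Real.pi * R ^ 2 ∧ 0 ≤ α ∧ α ≤ Real.pi / 6 ∧
      -s - 1 = ((4 * Real.pi * R ^ 2 : ℝ) : ℂ) * Complex.exp (-(2 * (α : ℂ) * Complex.I)) := by
  set μ : ℂ := -s - 1 with hμ
  have hre : μ.re = -s.re - 1 := by simp [hμ]
  have him : μ.im = -s.im := by simp [hμ]
  have hre2 : 2 ≤ μ.re := by rw [hre]; linarith
  have hμ0 : μ ≠ 0 := by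
    intro h
    rw [h] at hre2
    norm_num at hre2
  have hn : 0 < ‖μ‖ := norm_pos_iff.2 hμ0
  have harg : Complex.arg μ < 0 := by rw [Complex.arg_neg_iff, him]; linarith
  have harg2 : -(Real.pi / 3) ≤ Complex.arg μ := by
    have hcos : Real.cos (Complex.arg μ) = μ.re / ‖μ‖ := Complex.cos_arg hμ0
    have hc2 : 1 / 2 ≤ Real.cos (-Complex.arg μ) := by
      rw [Real.cos_neg, hcos, le_div_iff₀ hn]
      have h5 : ‖μ‖ ^ 2 ≤ (2 * μ.re) ^ 2 := by
        rw [← Complex.normSq_eq_norm_sq, Complex.normSq_apply, him]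
        have h6 : s.im ≤ 3 / 2 * μ.re := by rw [hre]; linarith
        nlinarith
      have h7 : ‖μ‖ ≤ 2 * μ.re := by
        apply le_of_sq_le_sq _ (by linarith)
        · exact h5
      linarith
    have h8 : Real.cos (Real.pi / 3) ≤ Real.cos (-Complex.arg μ) := by
      rw [Real.cos_pi_div_three]; exact hc2
    have h9 := (Real.strictAntiOn_cos.le_iff_ge (a := Real.pi / 3) (b := -Complex.arg μ)
      ⟨by positivity, by linarith [Real.pi_pos]⟩
      ⟨by linarith, by linarith [Complex.neg_pi_lt_arg μ]⟩).1 h8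
    linarith
  refine ⟨√(‖μ‖ / (4 * Real.pi)), -Complex.arg μ / 2, Real.sqrt_pos.2 (by positivity), ?_, by linarith,
    by linarith, ?_⟩
  · rw [Real.sq_sqrt (by positivity), ← hre]
    have : 4 * Real.pi * (‖μ‖ / (4 * Real.pi)) = ‖μ‖ := by field_simp
    rw [this]
    exact Complex.re_le_norm μ
  · rw [Real.sq_sqrt (by positivity)]
    have : 4 * Real.pi * (‖μ‖ / (4 * Real.pi)) = ‖μ‖ := by field_simp
    rw [this]
    have e : -(2 * (((-Complex.arg μ / 2 : ℝ)) : ℂ) * Complex.I) = (Complex.arg μ : ℂ) * Complex.I := by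
      push_cast; ring
    rw [e, Complex.norm_mul_exp_arg_mul_I]

/-- The Laplace integral does not vanish for large `|s|` in the sector. -/
theorem laplace_ne_zero : ∃ C : ℝ, 0 < C ∧ ∀ s : ℂ, s.re ≤ -C → 0 < s.im → s.im ≤ -s.re →
    ∫ v in Set.Ioi (0 : ℝ), ((v : ℂ) * (1 + Complex.I)) ^ (-s) *
        Complex.exp (-(2 * (Real.pi : ℂ) * (v : ℂ) ^ 2)) /
          Complex.sin ((Real.pi : ℂ) * ((v : ℂ) * (1 + Complex.I))) ≠ 0 := by
  by_contra hcon
  push Not at hcon
  choose! s hs1 hs2 hs3 hs4 using fun n : ℕ => hcon ((n : ℝ) + 3) (by positivity)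
  have hpol : ∀ n, ∃ R α : ℝ, 0 < R ∧ -(s n).re - 1 ≤ 4 * Real.pi * R ^ 2 ∧ 0 ≤ α ∧
      α ≤ Real.pi / 6 ∧ -(s n) - 1 = ((4 * Real.pi * R ^ 2 : ℝ) : ℂ) *
        Complex.exp (-(2 * (α : ℂ) * Complex.I)) := by
    intro n
    apply lap_polar _ _ (hs2 n) (hs3 n)
    have := hs1 n
    have : (0 : ℝ) ≤ n := Nat.cast_nonneg n
    linarith
  choose R α hR0 hR1 hα0 hα1 hRα using hpol
  have hRt : Tendsto R atTop atTop := by
    have h1 : ∀ n : ℕ, √((n : ℝ) / (4 * Real.pi)) ≤ R n := by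
      intro n
      rw [Real.sqrt_le_left (hR0 n).le]
      rw [div_le_iff₀ (by positivity)]
      have := hs1 n
      have := hR1 n
      linarith
    refine tendsto_atTop_mono h1 ?_
    apply Real.tendsto_sqrt_atTop.comp
    exact tendsto_natCast_atTop_atTop.atTop_div_const (by positivity)
  obtain ⟨α₀, hα₀, φ, hφ, hlim⟩ := isCompact_Icc.tendsto_subseq
    (fun n => (⟨hα0 n, hα1 n⟩ : α n ∈ Set.Icc 0 (Real.pi / 6)))
  have hz : ∀ n, ∫ x : ℝ, lapJ (R n) (α n) x = 0 := by
    intro n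
    have hsr : (s n).re < 0 := by
      have := hs1 n
      have : (0 : ℝ) ≤ n := Nat.cast_nonneg n
      linarith
    have h := lap_normal (s n) hsr (hs2 n) (R n) (α n) (hR0 n) (hα0 n) (hα1 n) (hRα n)
    rw [hs4 n] at h
    exact (mul_eq_zero.1 h.symm).resolve_left (lapK_ne_zero _ _ _ (hR0 n))
  have ht := lapJ_integral_tendsto (fun n => R (φ n)) (fun n => α (φ n)) α₀
    (hRt.comp hφ.tendsto_atTop) hlim (fun n => ⟨hα0 _, hα1 _⟩)
  simp only [hz] at ht
  exact lap_gauss_ne_zero hα₀.1 hα₀.2 (tendsto_nhds_unique ht tendsto_const_nhds)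

end Pool.Agent.RAux
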