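import Mathlib
import Pool.Agent.RAux.Defs
import Pool.Agent.RAux.LineShift

/-!
The formula on the left.
-/

set_option autoImplicit false

open Complex MeasureTheory Filter Topology

namespace Pool.Agent.RAux

namespace LeftF

theorem rInt_eq_lf (s x : ℂ) : rInt s x = x ^ (-s) * Complex.exp ((Real.pi : ℂ) * Complex.I * x ^ 2) /
    (2 * Complex.I * Complex.sin ((Real.pi : ℂ) * x)) := by
  unfold rInt
  congr 1
  rw [Complex.sin]
  have h1 : -((Real.pi : ℂ) * x) * Complex.I = -((Real.pi : ℂ) * Complex.I * x) := by ring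
  have h2 : ((Real.pi : ℂ) * x) * Complex.I = ((Real.pi : ℂ) * Complex.I * x) := by ring
  rw [h1, h2]
  linear_combination (-1 : ℂ) * (Complex.exp (-((Real.pi : ℂ) * Complex.I * x)) -
    Complex.exp ((Real.pi : ℂ) * Complex.I * x)) * Complex.I_sq

theorem norm_sq_sin (z : ℂ) : ‖Complex.sin z‖ ^ 2 = Real.sin z.re ^ 2 + Real.sinh z.im ^ 2 := by
  have h : Complex.sin z = ((Real.sin z.re * Real.cosh z.im : ℝ) : ℂ) +
      ((Real.cos z.re * Real.sinh z.im : ℝ) : ℂ) * Complex.I := by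
    rw [Complex.sin_eq]
    push_cast
    ring
  rw [h, ← Complex.normSq_eq_norm_sq, Complex.normSq_add_mul_I]
  have h1 := Real.sin_sq_add_cos_sq z.re
  have h2 := Real.cosh_sq z.im
  have h3 : Real.cos z.re ^ 2 = 1 - Real.sin z.re ^ 2 := by linarith
  rw [mul_pow, mul_pow, h2, h3]
  ring

/-- `|sin πa| ≥ (2/7)|a|` for `|a| ≤ 7/8`. -/
theorem abs_sin_ge (a : ℝ) (ha : |a| ≤ 7 / 8) : 2 / 7 * |a| ≤ |Real.sin (Real.pi * a)| := by
  have key : ∀ b : ℝ, 0 ≤ b → b ≤ 7 / 8 → 2 / 7 * b ≤ Real.sin (Real.pi * b) := by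
    intro b hb0 hb
    rcases le_total b (1 / 2) with h | h
    · have h1 := Real.mul_le_sin (x := Real.pi * b) (by positivity) (by nlinarith [Real.pi_pos])
      have h2 : 2 / Real.pi * (Real.pi * b) = 2 * b := by
        field_simp
      rw [h2] at h1
      linarith
    · have h1 := Real.mul_le_sin (x := Real.pi * (1 - b)) (by nlinarith [Real.pi_pos])
        (by nlinarith [Real.pi_pos])
      have h2 : 2 / Real.pi * (Real.pi * (1 - b)) = 2 * (1 - b) := by
        field_simp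
      rw [h2] at h1
      have h3 : Real.sin (Real.pi * (1 - b)) = Real.sin (Real.pi * b) := by
        rw [show Real.pi * (1 - b) = Real.pi - Real.pi * b by ring, Real.sin_pi_sub]
      rw [h3] at h1
      linarith
  have h := key |a| (abs_nonneg _) ha
  rcases le_total 0 a with h0 | h0
  · rw [abs_of_nonneg h0] at h ⊢
    exact h.trans (le_abs_self _)
  · rw [abs_of_nonpos h0] at h ⊢
    refine h.trans ?_
    rw [mul_neg, Real.sin_neg]
    exact neg_le_abs _

theorem norm_le_re_im (x : ℂ) (h0 : 0 ≤ x.re - x.im) (h1 : x.re - x.im ≤ 3 / 4) :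
    ‖x‖ ≤ 2 * |x.im| + 3 / 4 := by
  have h2 := Complex.norm_le_abs_re_add_abs_im x
  have h3 : |x.re| ≤ |x.im| + 3 / 4 := by
    have : x.re = (x.re - x.im) + x.im := by ring
    rw [this]
    refine (abs_add_le _ _).trans ?_
    rw [abs_of_nonneg h0]
    have : x.re - x.im + x.im - x.im = x.re - x.im := by ring
    linarith
  linarith

theorem norm_sin_ge (x : ℂ) (h0 : 0 ≤ x.re - x.im) (h1 : x.re - x.im ≤ 3 / 4) :
    2 / 7 * ‖x‖ ≤ ‖Complex.sin ((Real.pi : ℂ) * x)‖ := by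
  have hre : ((Real.pi : ℂ) * x).re = Real.pi * x.re := by simp
  have him : ((Real.pi : ℂ) * x).im = Real.pi * x.im := by simp
  have hs := norm_sq_sin ((Real.pi : ℂ) * x)
  rw [hre, him] at hs
  have hsinh : (Real.pi * |x.im|) ^ 2 ≤ Real.sinh (Real.pi * x.im) ^ 2 := by
    rw [← sq_abs (Real.sinh _), Real.abs_sinh]
    have : Real.pi * |x.im| = |Real.pi * x.im| := by
      rw [abs_mul, abs_of_pos Real.pi_pos]
    rw [this]
    have h := Real.self_le_sinh_iff.mpr (abs_nonneg (Real.pi * x.im))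
    exact pow_le_pow_left₀ (abs_nonneg _) h 2
  have hpi := Real.pi_gt_three
  rw [← abs_of_nonneg (norm_nonneg (Complex.sin ((Real.pi : ℂ) * x))),
    ← abs_of_nonneg (by positivity : 0 ≤ 2 / 7 * ‖x‖)]
  apply sq_le_sq.mp
  rw [hs]
  rcases le_total |x.im| (1 / 8) with h | h
  · have ha : |x.re| ≤ 7 / 8 := by
      have h2 := abs_le.mp h
      rw [abs_le]
      constructor <;> linarith
    have hsin := abs_sin_ge x.re ha
    have hsin2 : (2 / 7 * |x.re|) ^ 2 ≤ Real.sin (Real.pi * x.re) ^ 2 := by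
      rw [← sq_abs (Real.sin _)]
      exact pow_le_pow_left₀ (by positivity) hsin 2
    have hx : ‖x‖ ^ 2 = |x.re| ^ 2 + |x.im| ^ 2 := by
      rw [← Complex.normSq_eq_norm_sq, Complex.normSq_apply, sq_abs, sq_abs]
      ring
    have : (2 / 7 * ‖x‖) ^ 2 = (2 / 7 * |x.re|) ^ 2 + (2 / 7) ^ 2 * |x.im| ^ 2 := by
      rw [mul_pow, hx]; ring
    rw [this]
    have h3 : (2 / 7) ^ 2 * |x.im| ^ 2 ≤ (Real.pi * |x.im|) ^ 2 := by
      rw [mul_pow]
      have : ((2 : ℝ) / 7) ^ 2 ≤ Real.pi ^ 2 := by nlinarith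
      nlinarith [sq_nonneg |x.im|]
    linarith
  · have hx := norm_le_re_im x h0 h1
    have h2 : 2 / 7 * ‖x‖ ≤ Real.pi * |x.im| := by nlinarith [abs_nonneg x.im]
    have h3 : (2 / 7 * ‖x‖) ^ 2 ≤ (Real.pi * |x.im|) ^ 2 :=
      pow_le_pow_left₀ (by positivity) h2 2
    nlinarith [sq_nonneg (Real.sin (Real.pi * x.re))]

theorem norm_cpow_le_lf (x s : ℂ) (hx : x ≠ 0) :
    ‖x ^ (-s)‖ ≤ ‖x‖ ^ (-s.re) * Real.exp (Real.pi * |s.im|) := by
  rw [Complex.norm_cpow_of_ne_zero hx, div_eq_mul_inv, ← Real.exp_neg]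
  have h1 : (-s).re = -s.re := by simp
  have h2 : (-s).im = -s.im := by simp
  rw [h1, h2]
  have h3 : -(x.arg * -s.im) ≤ Real.pi * |s.im| := by
    have : -(x.arg * -s.im) = x.arg * s.im := by ring
    rw [this]
    calc x.arg * s.im ≤ |x.arg * s.im| := le_abs_self _
      _ = |x.arg| * |s.im| := abs_mul _ _
      _ ≤ Real.pi * |s.im| := mul_le_mul_of_nonneg_right (Complex.abs_arg_le_pi x) (abs_nonneg _)
  gcongr

/-- The bound on the closed strip `0 ≤ re x - im x ≤ 3/4`, `x ≠ 0`. -/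
theorem rInt_strip_bound (s : ℂ) (hs : s.re < -1) : ∃ C : ℝ, 0 ≤ C ∧ ∀ x : ℂ, x ≠ 0 →
    0 ≤ x.re - x.im → x.re - x.im ≤ 3 / 4 → ‖rInt s x‖ ≤ C * Real.exp (-(1 * |x.im|)) := by
  set p : ℝ := -s.re - 1 with hp
  have hp0 : 0 < p := by rw [hp]; linarith
  set B : ℝ := 3 * Real.pi / 2 + 1 + 2 * p with hB
  refine ⟨7 / 4 * Real.exp (Real.pi * |s.im|) * Real.exp (B ^ 2 / (8 * Real.pi)), by positivity,
    fun x hx h0 h1 => ?_⟩
  rw [rInt_eq_lf]
  have hxpos : 0 < ‖x‖ := norm_pos_iff.mpr hx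
  have hsin := norm_sin_ge x h0 h1
  have hnum : ‖Complex.exp ((Real.pi : ℂ) * Complex.I * x ^ 2)‖ =
      Real.exp (-(2 * Real.pi * (x.re * x.im))) := by
    rw [Complex.norm_exp]
    congr 1
    have : ((Real.pi : ℂ) * Complex.I * x ^ 2).re = -(Real.pi * (x ^ 2).im) := by
      simp [Complex.mul_re, Complex.mul_im]
    rw [this]
    have : (x ^ 2).im = 2 * (x.re * x.im) := by
      rw [sq, Complex.mul_im]; ring
    rw [this]
    ring
  rw [norm_div, norm_mul, norm_mul, norm_mul, hnum]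
  have h2I : ‖(2 : ℂ)‖ * ‖Complex.I‖ = 2 := by simp
  rw [h2I]
  have hden : 0 < 2 * (2 / 7 * ‖x‖) := by positivity
  have hc := norm_cpow_le_lf x s hx
  set u : ℝ := |x.im| with hu
  have hu0 : 0 ≤ u := abs_nonneg _
  have hxu : ‖x‖ ≤ 2 * u + 3 / 4 := norm_le_re_im x h0 h1
  have hre : -(2 * Real.pi * (x.re * x.im)) ≤ -(2 * Real.pi * u ^ 2) + 3 * Real.pi / 2 * u := by
    have e1 : x.re * x.im = x.im ^ 2 + (x.re - x.im) * x.im := by ring
    have e2 : x.im ^ 2 = u ^ 2 := by rw [hu, sq_abs]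
    have e3 : -(3 / 4 * u) ≤ (x.re - x.im) * x.im := by
      have : |(x.re - x.im) * x.im| ≤ 3 / 4 * u := by
        rw [abs_mul, abs_of_nonneg h0]
        exact mul_le_mul_of_nonneg_right h1 hu0
      have := (abs_le.mp this).1
      linarith
    rw [e1, e2]
    nlinarith [Real.pi_pos]
  have hpow : ‖x‖ ^ (-s.re) = ‖x‖ * ‖x‖ ^ p := by
    rw [show -s.re = 1 + p by rw [hp]; ring, Real.rpow_add hxpos, Real.rpow_one]
  have hpow2 : ‖x‖ ^ p ≤ Real.exp (2 * p * u) := by
    calc ‖x‖ ^ p ≤ (1 + 2 * u) ^ p := by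
          apply Real.rpow_le_rpow hxpos.le _ hp0.le
          linarith
      _ ≤ (Real.exp (2 * u)) ^ p := by
          apply Real.rpow_le_rpow (by positivity) _ hp0.le
          have := Real.add_one_le_exp (2 * u)
          linarith
      _ = Real.exp (2 * p * u) := by
          rw [← Real.exp_mul]; congr 1; ring
  have hfin : 2 * p * u + (-(2 * Real.pi * u ^ 2) + 3 * Real.pi / 2 * u) ≤
      B ^ 2 / (8 * Real.pi) + -(1 * u) := by
    have hpi := Real.pi_pos
    have : B * u - 2 * Real.pi * u ^ 2 ≤ B ^ 2 / (8 * Real.pi) := by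
      rw [le_div_iff₀ (by positivity)]
      nlinarith [sq_nonneg (B - 4 * Real.pi * u)]
    rw [hB] at this ⊢
    linarith
  calc ‖x ^ (-s)‖ * Real.exp (-(2 * Real.pi * (x.re * x.im))) /
        (2 * ‖Complex.sin ((Real.pi : ℂ) * x)‖)
      ≤ (‖x‖ ^ (-s.re) * Real.exp (Real.pi * |s.im|)) *
          Real.exp (-(2 * Real.pi * u ^ 2) + 3 * Real.pi / 2 * u) / (2 * (2 / 7 * ‖x‖)) := by
        gcongr
    _ = 7 / 4 * Real.exp (Real.pi * |s.im|) *
          (‖x‖ ^ p * Real.exp (-(2 * Real.pi * u ^ 2) + 3 * Real.pi / 2 * u)) := by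
        rw [hpow]
        field_simp
        ring
    _ ≤ 7 / 4 * Real.exp (Real.pi * |s.im|) *
          (Real.exp (2 * p * u) * Real.exp (-(2 * Real.pi * u ^ 2) + 3 * Real.pi / 2 * u)) := by
        gcongr
    _ ≤ 7 / 4 * Real.exp (Real.pi * |s.im|) *
          (Real.exp (B ^ 2 / (8 * Real.pi)) * Real.exp (-(1 * u))) := by
        rw [← Real.exp_add, ← Real.exp_add]
        gcongr
    _ = _ := by ring

theorem sin_ne_zero_strip (x : ℂ) (hx : x ≠ 0) (h0 : 0 ≤ x.re - x.im)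
    (h1 : x.re - x.im ≤ 3 / 4) : Complex.sin ((Real.pi : ℂ) * x) ≠ 0 := by
  have h := norm_sin_ge x h0 h1
  have hxpos : 0 < ‖x‖ := norm_pos_iff.mpr hx
  rw [← norm_pos_iff]
  exact lt_of_lt_of_le (by positivity) h

theorem slit_strip (x : ℂ) (hx : x ≠ 0) (h0 : 0 ≤ x.re - x.im) : x ∈ Complex.slitPlane := by
  rw [Complex.mem_slitPlane_iff]
  by_cases him : x.im = 0
  · left
    rw [him, sub_zero] at h0
    rcases h0.lt_or_eq with h | h
    · exact h
    · exfalso
      exact hx (Complex.ext h.symm him)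
  · right; exact him

theorem rInt_diffAt (s x : ℂ) (hx : x ≠ 0) (h0 : 0 ≤ x.re - x.im) (h1 : x.re - x.im ≤ 3 / 4) :
    DifferentiableAt ℂ (rInt s) x := by
  have : rInt s = fun x => x ^ (-s) * Complex.exp ((Real.pi : ℂ) * Complex.I * x ^ 2) /
    (2 * Complex.I * Complex.sin ((Real.pi : ℂ) * x)) := funext fun x => rInt_eq_lf s x
  rw [this]
  refine DifferentiableAt.div ?_ (by fun_prop) ?_
  · refine DifferentiableAt.mul ?_ (by fun_prop)
    exact DifferentiableAt.cpow_const differentiableAt_id (slit_strip x hx h0)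
  · exact mul_ne_zero (mul_ne_zero two_ne_zero Complex.I_ne_zero) (sin_ne_zero_strip x hx h0 h1)

theorem integrable_exp_abs : Integrable (fun v : ℝ => Real.exp (-(1 * |v|))) := by
  have h1 : IntegrableOn (fun v : ℝ => Real.exp (-(1 * |v|))) (Set.Iic 0) := by
    refine (integrableOn_exp_Iic 0).congr_fun (fun v hv => ?_) measurableSet_Iic
    simp only [one_mul, abs_of_nonpos (Set.mem_Iic.mp hv), neg_neg]
  have h2 : IntegrableOn (fun v : ℝ => Real.exp (-(1 * |v|))) (Set.Ioi 0) := by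
    refine (exp_neg_integrableOn_Ioi 0 one_pos).congr_fun (fun v hv => ?_) measurableSet_Ioi
    simp only [abs_of_pos (Set.mem_Ioi.mp hv), neg_mul]
  have := h1.union h2
  rwa [Set.Iic_union_Ioi, integrableOn_univ] at this

theorem ae_ne_zero : ∀ᵐ v : ℝ, v ≠ 0 := by
  have : ({0}ᶜ : Set ℝ) ∈ ae (volume : Measure ℝ) := compl_mem_ae_iff.mpr (by simp)
  filter_upwards [this] with v hv
  exact hv

theorem neg_cpow (v : ℝ) (hv : 0 < v) (s : ℂ) :
    (-((v : ℂ) * (1 + Complex.I))) ^ (-s) = Complex.exp ((Real.pi : ℂ) * Complex.I * s) *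
      ((v : ℂ) * (1 + Complex.I)) ^ (-s) := by
  have hx : (v : ℂ) * (1 + Complex.I) ≠ 0 := by
    intro h
    have := congrArg Complex.re h
    simp at this
    exact hv.ne' this
  have hx' : -((v : ℂ) * (1 + Complex.I)) ≠ 0 := neg_ne_zero.mpr hx
  have hlog : Complex.log (-((v : ℂ) * (1 + Complex.I))) =
      Complex.log ((v : ℂ) * (1 + Complex.I)) - (Real.pi : ℂ) * Complex.I := by
    unfold Complex.log
    rw [norm_neg, Complex.arg_neg_eq_arg_sub_pi_of_im_pos (by simp; exact hv)]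
    push_cast
    ring
  rw [Complex.cpow_def_of_ne_zero hx', Complex.cpow_def_of_ne_zero hx, hlog, ← Complex.exp_add]
  congr 1
  ring

end LeftF

open LeftF in
/-- Moving the line to `c = 0` (`re s < -1`; for `v < 0` the branch gives the factor `e^{iπs}`). -/
theorem auxR_left_formula (s : ℂ) (hs : s.re < -1) :
    auxR s = -(1 + Complex.I) * (1 - Complex.exp ((Real.pi : ℂ) * Complex.I * s)) / (2 * Complex.I) *
      ∫ v in Set.Ioi (0 : ℝ), ((v : ℂ) * (1 + Complex.I)) ^ (-s) *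
        Complex.exp (-(2 * (Real.pi : ℂ) * (v : ℂ) ^ 2)) /
          Complex.sin ((Real.pi : ℂ) * ((v : ℂ) * (1 + Complex.I))) := by
  obtain ⟨C, hC, hbd⟩ := rInt_strip_bound s hs
  have hre : ∀ (c v : ℝ), ((c : ℂ) + (v : ℂ) * (1 + Complex.I)).re = c + v := by
    intro c v; simp
  have him : ∀ (c v : ℝ), ((c : ℂ) + (v : ℂ) * (1 + Complex.I)).im = v := by
    intro c v; simp
  have hne : ∀ (c v : ℝ), 0 < c → ((c : ℂ) + (v : ℂ) * (1 + Complex.I)) ≠ 0 := by
    intro c v hc h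
    have h1 := congrArg Complex.re h
    have h2 := congrArg Complex.im h
    rw [hre] at h1
    rw [him] at h2
    simp at h1 h2
    linarith
  have hne' : ∀ (v : ℝ), v ≠ 0 → ((0 : ℝ) : ℂ) + (v : ℂ) * (1 + Complex.I) ≠ 0 := by
    intro v hv h
    have h2 := congrArg Complex.im h
    rw [him] at h2
    simp at h2
    exact hv h2
  -- the shift
  have hshift : ∀ ε : ℝ, 0 < ε → ε < 3 / 4 →
      ∫ v : ℝ, rInt s (((1 / 2 : ℝ) : ℂ) + (v : ℂ) * (1 + Complex.I)) =
      ∫ v : ℝ, rInt s ((ε : ℂ) + (v : ℂ) * (1 + Complex.I)) := by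
    intro ε hε hε'
    refine line_shift (rInt s) (3 / 8) (3 / 8) C 1 one_pos ?_ ?_ (1 / 2) ε ?_ ?_
    · intro x hx
      have hx' := abs_lt.mp (show |x.re - x.im - 3 / 8| < 3 / 8 from hx)
      have hx0 : x ≠ 0 := by
        rintro rfl
        simp at hx'
      exact (rInt_diffAt s x hx0 (by linarith) (by linarith)).differentiableWithinAt
    · intro x hx
      have hx' := abs_lt.mp hx
      have hx0 : x ≠ 0 := by
        rintro rfl
        simp at hx'
      exact hbd x hx0 (by linarith) (by linarith)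
    · rw [abs_lt]; constructor <;> norm_num
    · rw [abs_lt]; constructor <;> linarith
  -- the limit
  have hlim : Tendsto (fun ε : ℝ => ∫ v : ℝ, rInt s ((ε : ℂ) + (v : ℂ) * (1 + Complex.I)))
      (𝓝[>] 0) (𝓝 (∫ v : ℝ, rInt s (((0 : ℝ) : ℂ) + (v : ℂ) * (1 + Complex.I)))) := by
    refine tendsto_integral_filter_of_dominated_convergence (fun v => C * Real.exp (-(1 * |v|)))
      ?_ ?_ ?_ ?_
    · filter_upwards [Ioo_mem_nhdsGT (show (0 : ℝ) < 3 / 4 by norm_num)] with ε hε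
      refine Continuous.aestronglyMeasurable ?_
      rw [continuous_iff_continuousAt]
      intro v
      have h1 : ContinuousAt (rInt s) ((ε : ℂ) + (v : ℂ) * (1 + Complex.I)) :=
        (rInt_diffAt s _ (hne ε v hε.1) (by rw [hre, him]; linarith [hε.1])
          (by rw [hre, him]; linarith [hε.2])).continuousAt
      exact ContinuousAt.comp (f := fun v : ℝ => (ε : ℂ) + (v : ℂ) * (1 + Complex.I)) h1
        (by fun_prop)
    · filter_upwards [Ioo_mem_nhdsGT (show (0 : ℝ) < 3 / 4 by norm_num)] with ε hε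
      refine Eventually.of_forall fun v => ?_
      have := hbd ((ε : ℂ) + (v : ℂ) * (1 + Complex.I)) (hne ε v hε.1)
        (by rw [hre, him]; linarith [hε.1]) (by rw [hre, him]; linarith [hε.2])
      rw [him] at this
      exact this
    · exact integrable_exp_abs.const_mul C
    · filter_upwards [ae_ne_zero] with v hv
      have h1 : ContinuousAt (rInt s) (((0 : ℝ) : ℂ) + (v : ℂ) * (1 + Complex.I)) :=
        (rInt_diffAt s _ (hne' v hv) (by rw [hre, him]; linarith)
          (by rw [hre, him]; linarith)).continuousAt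
      have h2 : Tendsto (fun ε : ℝ => (ε : ℂ) + (v : ℂ) * (1 + Complex.I)) (𝓝[>] 0)
          (𝓝 (((0 : ℝ) : ℂ) + (v : ℂ) * (1 + Complex.I))) := by
        refine Tendsto.mono_left ?_ nhdsWithin_le_nhds
        exact (Continuous.tendsto (by fun_prop) 0)
      exact h1.tendsto.comp h2
  have hconst : Tendsto (fun ε : ℝ => ∫ v : ℝ, rInt s ((ε : ℂ) + (v : ℂ) * (1 + Complex.I)))
      (𝓝[>] 0) (𝓝 (∫ v : ℝ, rInt s (((1 / 2 : ℝ) : ℂ) + (v : ℂ) * (1 + Complex.I)))) := by
    refine tendsto_const_nhds.congr' ?_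
    filter_upwards [Ioo_mem_nhdsGT (show (0 : ℝ) < 3 / 4 by norm_num)] with ε hε
    exact hshift ε hε.1 hε.2
  have heq := tendsto_nhds_unique hconst hlim
  set g : ℝ → ℂ := fun v => rInt s (((0 : ℝ) : ℂ) + (v : ℂ) * (1 + Complex.I)) with hg
  have hgcont : ContinuousOn g {0}ᶜ := by
    intro v hv
    have h1 : ContinuousAt (rInt s) (((0 : ℝ) : ℂ) + (v : ℂ) * (1 + Complex.I)) :=
      (rInt_diffAt s _ (hne' v hv) (by rw [hre, him]; linarith)
        (by rw [hre, him]; linarith)).continuousAt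
    have h2 : ContinuousAt (fun v : ℝ => ((0 : ℝ) : ℂ) + (v : ℂ) * (1 + Complex.I)) v := by
      fun_prop
    exact (ContinuousAt.comp (f := fun v : ℝ => ((0 : ℝ) : ℂ) + (v : ℂ) * (1 + Complex.I))
      h1 h2).continuousWithinAt
  have hgmeas : AEStronglyMeasurable g := by
    have h1 := hgcont.aestronglyMeasurable (μ := volume) (measurableSet_singleton (0 : ℝ)).compl
    rwa [Measure.restrict_eq_self_of_ae_mem (by filter_upwards [ae_ne_zero] with v hv using hv)]
      at h1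
  have hgint : Integrable g := by
    refine (integrable_exp_abs.const_mul C).mono' hgmeas ?_
    filter_upwards [ae_ne_zero] with v hv
    have := hbd (((0 : ℝ) : ℂ) + (v : ℂ) * (1 + Complex.I)) (hne' v hv)
        (by rw [hre, him]; linarith) (by rw [hre, him]; linarith)
    rw [him] at this
    exact this
  have hsplit := intervalIntegral.integral_Iic_add_Ioi (b := (0 : ℝ)) (μ := volume)
    hgint.integrableOn hgint.integrableOn
  have hneg := integral_comp_neg_Ioi (0 : ℝ) g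
  rw [neg_zero] at hneg
  set F : ℝ → ℂ := fun v => ((v : ℂ) * (1 + Complex.I)) ^ (-s) *
        Complex.exp (-(2 * (Real.pi : ℂ) * (v : ℂ) ^ 2)) /
          Complex.sin ((Real.pi : ℂ) * ((v : ℂ) * (1 + Complex.I))) with hF
  have hsq : ∀ v : ℝ, (Real.pi : ℂ) * Complex.I * ((v : ℂ) * (1 + Complex.I)) ^ 2 =
      -(2 * (Real.pi : ℂ) * (v : ℂ) ^ 2) := by
    intro v
    have : (1 + Complex.I) ^ 2 = 2 * Complex.I := by
      rw [add_sq, Complex.I_sq]; ring
    rw [mul_pow, this]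
    linear_combination (2 * (Real.pi : ℂ) * (v : ℂ) ^ 2) * Complex.I_sq
  have hpos : ∫ v in Set.Ioi (0 : ℝ), g v = 1 / (2 * Complex.I) * ∫ v in Set.Ioi (0 : ℝ), F v := by
    rw [← integral_const_mul]
    refine setIntegral_congr_fun measurableSet_Ioi fun v hv => ?_
    simp only [hg, hF]
    rw [rInt_eq_lf, Complex.ofReal_zero, zero_add, hsq v]
    rw [div_mul_eq_div_div_swap, one_div, ← div_eq_inv_mul]
  have hnegI : ∫ v in Set.Ioi (0 : ℝ), g (-v) =
      -(Complex.exp ((Real.pi : ℂ) * Complex.I * s) / (2 * Complex.I)) *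
        ∫ v in Set.Ioi (0 : ℝ), F v := by
    rw [← integral_const_mul]
    refine setIntegral_congr_fun measurableSet_Ioi fun v hv => ?_
    simp only [hg, hF]
    rw [rInt_eq_lf, Complex.ofReal_zero, zero_add, Complex.ofReal_neg, neg_mul, neg_cpow v hv s,
      neg_sq, hsq v, mul_neg, Complex.sin_neg]
    rw [mul_neg, div_neg, neg_mul, div_mul_div_comm]
    congr 2
    ring
  unfold auxR lineR
  rw [heq, ← hsplit, ← hneg, hnegI, hpos]
  field_simp
  ring

end Pool.Agent.RAux
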