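import Mathlib
import Pool.Agent.RAux.Defs
import Pool.Agent.RAux.RLeftF
import Pool.Agent.RAux.RLaplace

/-!
Zero free sector on the left.
-/

set_option autoImplicit false

open Complex MeasureTheory Filter Topology

namespace Pool.Agent.RAux

theorem auxR_left : ∃ C : ℝ, 0 < C ∧ ∀ s : ℂ, s.re ≤ -C → 0 < s.im → s.im ≤ -s.re →
    auxR s ≠ 0 := by
  obtain ⟨C, hC, h⟩ := laplace_ne_zero
  refine ⟨max C 2, lt_max_of_lt_left hC, fun s hs h0 h1 => ?_⟩
  have hs1 : s.re ≤ -C := hs.trans (neg_le_neg (le_max_left _ _))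
  have hs2 : s.re ≤ -2 := hs.trans (neg_le_neg (le_max_right _ _))
  rw [auxR_left_formula s (by linarith)]
  refine mul_ne_zero (div_ne_zero (mul_ne_zero ?_ ?_) ?_) (h s hs1 h0 h1)
  · intro h'
    have := congrArg Complex.re h'
    simp at this
  · intro h'
    have h2 : ‖Complex.exp ((Real.pi : ℂ) * Complex.I * s)‖ = 1 := by
      rw [← sub_eq_zero.mp h']; simp
    rw [Complex.norm_exp] at h2
    have h3 : ((Real.pi : ℂ) * Complex.I * s).re = -(Real.pi * s.im) := by simp
    rw [h3] at h2
    have h4 : Real.exp (-(Real.pi * s.im)) < 1 := by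
      rw [Real.exp_lt_one_iff]
      have := mul_pos Real.pi_pos h0
      linarith
    linarith
  · simp

end Pool.Agent.RAux
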