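import Mathlib
import Pool.Agent.RAux.Defs
import Pool.Agent.RAux.RShift

/-!
Zero free sector on the right.
-/

set_option autoImplicit false

open Complex MeasureTheory Filter Topology

namespace Pool.Agent.RAux

private lemma rr_norm_sq (v : ℝ) :
    ‖((3 / 2 : ℝ) : ℂ) + (v : ℂ) * (1 + Complex.I)‖ ^ 2 = 2 * (v + 3 / 4) ^ 2 + 9 / 8 := by
  rw [Complex.sq_norm, Complex.normSq_apply]
  simp
  ring

private lemma rr_num (v : ℝ) :
    ‖Complex.exp ((Real.pi : ℂ) * Complex.I *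
      (((3 / 2 : ℝ) : ℂ) + (v : ℂ) * (1 + Complex.I)) ^ 2)‖ =
      Real.exp (9 * Real.pi / 8) * Real.exp (-(2 * Real.pi) * (v + 3 / 4) ^ 2) := by
  rw [Complex.norm_exp, ← Real.exp_add]
  congr 1
  simp [pow_two]
  ring

private lemma rr_den (v : ℝ) :
    2 ≤ ‖Complex.exp ((Real.pi : ℂ) * Complex.I *
        (((3 / 2 : ℝ) : ℂ) + (v : ℂ) * (1 + Complex.I))) -
      Complex.exp (-((Real.pi : ℂ) * Complex.I *
        (((3 / 2 : ℝ) : ℂ) + (v : ℂ) * (1 + Complex.I))))‖ := by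
  -- `e^{iπx} = -i e^{iπv} e^{-πv}`
  set p : ℝ := Real.pi * v with hp
  have e1 : (Real.pi : ℂ) * Complex.I * (((3 / 2 : ℝ) : ℂ) + (v : ℂ) * (1 + Complex.I)) =
      ((-p : ℝ) : ℂ) + ((3 * Real.pi / 2 + p : ℝ) : ℂ) * Complex.I := by
    rw [hp]; push_cast
    have := Complex.I_sq
    linear_combination (Real.pi : ℂ) * (v : ℂ) * this
  rw [e1]
  have hs : Real.sin (3 * Real.pi / 2 + p) = -Real.cos p := by
    have : 3 * Real.pi / 2 + p = (p + Real.pi / 2) + Real.pi := by ring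
    rw [this, Real.sin_add_pi, Real.sin_add_pi_div_two]
  have hc : Real.cos (3 * Real.pi / 2 + p) = Real.sin p := by
    have : 3 * Real.pi / 2 + p = (p + Real.pi / 2) + Real.pi := by ring
    rw [this, Real.cos_add_pi, Real.cos_add_pi_div_two]; ring
  have hsq : ‖Complex.exp (((-p : ℝ) : ℂ) + ((3 * Real.pi / 2 + p : ℝ) : ℂ) * Complex.I) -
      Complex.exp (-(((-p : ℝ) : ℂ) + ((3 * Real.pi / 2 + p : ℝ) : ℂ) * Complex.I))‖ ^ 2 =
      4 * (Real.cos p ^ 2 + Real.sinh p ^ 2) := by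
    have e2 : -(((-p : ℝ) : ℂ) + ((3 * Real.pi / 2 + p : ℝ) : ℂ) * Complex.I) =
        ((p : ℝ) : ℂ) + ((-(3 * Real.pi / 2 + p) : ℝ) : ℂ) * Complex.I := by
      push_cast; ring
    rw [e2, Complex.sq_norm, Complex.normSq_apply, Complex.sub_re, Complex.sub_im,
      Complex.exp_re, Complex.exp_re, Complex.exp_im, Complex.exp_im]
    simp only [Complex.add_re, Complex.ofReal_re, Complex.mul_re, Complex.I_re, mul_zero,
      Complex.ofReal_im, Complex.I_im, mul_one, sub_self, add_zero, Complex.add_im,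
      Complex.mul_im, zero_add]
    rw [Real.cos_neg, Real.sin_neg, hs, hc, Real.sinh_eq]
    have hee : Real.exp p * Real.exp (-p) = 1 := by rw [← Real.exp_add]; simp
    have hsc := Real.sin_sq_add_cos_sq p
    have hs2 : Real.sin p ^ 2 = 1 - Real.cos p ^ 2 := by linarith
    nlinarith [hee, hsc]
  have hge : (1 : ℝ) ≤ Real.cos p ^ 2 + Real.sinh p ^ 2 := by
    have h1 : Real.sin p ^ 2 ≤ p ^ 2 := by
      have := Real.abs_sin_le_abs (x := p)
      exact sq_le_sq.2 this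
    have h2 : p ^ 2 ≤ Real.sinh p ^ 2 := by
      apply sq_le_sq.2
      rcases le_total 0 p with h | h
      · rw [abs_of_nonneg h, abs_of_nonneg (Real.sinh_nonneg_iff.2 h)]
        exact Real.self_le_sinh_iff.2 h
      · rw [abs_of_nonpos h, abs_of_nonpos (Real.sinh_nonpos_iff.2 h)]
        have := Real.sinh_le_self_iff.2 h
        linarith
    have h3 := Real.sin_sq_add_cos_sq p
    linarith
  have : (2 : ℝ) ^ 2 ≤ ‖Complex.exp (((-p : ℝ) : ℂ) + ((3 * Real.pi / 2 + p : ℝ) : ℂ) * Complex.I) -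
      Complex.exp (-(((-p : ℝ) : ℂ) + ((3 * Real.pi / 2 + p : ℝ) : ℂ) * Complex.I))‖ ^ 2 := by
    rw [hsq]; linarith
  exact le_of_sq_le_sq this (norm_nonneg _)

/-- `auxR s = 1 + lineR (3/2) s` and `|x| ≥ 3/(2√2) > 1` on the line through `3/2`. -/
theorem auxR_right : ∃ C : ℝ, 1 ≤ C ∧ ∀ s : ℂ, C ≤ s.re → C * |s.im| ≤ s.re → auxR s ≠ 0 := by
  set c0 : ℝ := Real.log (9 / 8) / 2 with hc0
  have hc0pos : 0 < c0 := by
    rw [hc0]; have := Real.log_pos (by norm_num : (1 : ℝ) < 9 / 8); linarith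
  set g : ℝ → ℝ := fun v => Real.exp (9 * Real.pi / 8) *
    Real.exp (-(2 * Real.pi) * (v + 3 / 4) ^ 2) with hg
  have hgint : Integrable g := by
    have h1 : Integrable (fun x : ℝ => Real.exp (-(2 * Real.pi) * x ^ 2)) :=
      integrable_exp_neg_mul_sq (by positivity)
    exact (h1.comp_add_right (3 / 4)).const_mul _
  set I0 : ℝ := ∫ v, g v with hI0
  have hI0n : 0 ≤ I0 := integral_nonneg fun v => by positivity
  set C : ℝ := 1 + 2 * Real.pi / c0 + 2 / c0 * (Real.log (1 + I0) + 1) with hC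
  have hlog : 0 ≤ Real.log (1 + I0) := Real.log_nonneg (by linarith)
  have hA1 : 0 ≤ 2 * Real.pi / c0 := by positivity
  have hA2 : 0 ≤ 2 / c0 * (Real.log (1 + I0) + 1) := by positivity
  refine ⟨C, by linarith, fun s hs1 hs2 h0 => ?_⟩
  have hσ : 0 < s.re := by linarith
  -- the formula
  have hform := auxR_eq_sum_add 1 s
  rw [h0] at hform
  simp only [Finset.Icc_self, Finset.sum_singleton, Nat.cast_one, Complex.one_cpow] at hform
  rw [show (1 : ℝ) + 1 / 2 = 3 / 2 by norm_num] at hform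
  -- pointwise bound
  have hpt : ∀ v : ℝ, ‖rInt s (((3 / 2 : ℝ) : ℂ) + (v : ℂ) * (1 + Complex.I))‖ ≤
      (Real.exp (-(c0 * s.re)) * Real.exp (Real.pi * |s.im|) / 2) * g v := by
    intro v
    set x : ℂ := ((3 / 2 : ℝ) : ℂ) + (v : ℂ) * (1 + Complex.I) with hx
    have hx2 : 9 / 8 ≤ ‖x‖ ^ 2 := by
      rw [hx, rr_norm_sq]; nlinarith [sq_nonneg (v + 3 / 4)]
    have hxpos : 0 < ‖x‖ := by
      rcases (norm_nonneg x).eq_or_lt with h | h
      · rw [← h] at hx2; norm_num at hx2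
      · exact h
    have hxne : x ≠ 0 := norm_pos_iff.1 hxpos
    have hexp : Real.exp c0 ≤ ‖x‖ := by
      have h1 : Real.exp c0 ^ 2 ≤ ‖x‖ ^ 2 := by
        rw [← Real.exp_nat_mul]
        have : ((2 : ℕ) : ℝ) * c0 = Real.log (9 / 8) := by rw [hc0]; push_cast; ring
        rw [this, Real.exp_log (by norm_num)]
        exact hx2
      exact le_of_sq_le_sq h1 hxpos.le
    have h1 : ‖x ^ (-s)‖ ≤ Real.exp (-(c0 * s.re)) * Real.exp (Real.pi * |s.im|) := by
      rw [Complex.norm_cpow_of_ne_zero hxne, div_eq_mul_inv, ← Real.exp_neg]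
      apply mul_le_mul _ _ (Real.exp_nonneg _) (Real.exp_nonneg _)
      · rw [Complex.neg_re]
        calc ‖x‖ ^ (-s.re) ≤ (Real.exp c0) ^ (-s.re) :=
              Real.rpow_le_rpow_of_nonpos (Real.exp_pos _) hexp (by linarith)
          _ = Real.exp (-(c0 * s.re)) := by rw [← Real.exp_mul]; ring_nf
      · apply Real.exp_le_exp.2
        rw [Complex.neg_im]
        have : -(x.arg * -s.im) ≤ |x.arg| * |s.im| := by
          rw [← abs_mul]
          have := le_abs_self (x.arg * s.im)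
          linarith
        exact this.trans (mul_le_mul_of_nonneg_right (Complex.abs_arg_le_pi x) (abs_nonneg _))
    have h2 := rr_num v
    have h3 := rr_den v
    rw [← hx] at h2 h3
    unfold rInt
    rw [norm_div, norm_mul, h2]
    calc ‖x ^ (-s)‖ * (Real.exp (9 * Real.pi / 8) *
          Real.exp (-(2 * Real.pi) * (v + 3 / 4) ^ 2)) /
          ‖Complex.exp ((Real.pi : ℂ) * Complex.I * x) -
            Complex.exp (-((Real.pi : ℂ) * Complex.I * x))‖
        ≤ ‖x ^ (-s)‖ * (Real.exp (9 * Real.pi / 8) *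
          Real.exp (-(2 * Real.pi) * (v + 3 / 4) ^ 2)) / 2 := by
          apply div_le_div_of_nonneg_left (by positivity) (by norm_num) h3
      _ ≤ (Real.exp (-(c0 * s.re)) * Real.exp (Real.pi * |s.im|)) *
          (Real.exp (9 * Real.pi / 8) *
          Real.exp (-(2 * Real.pi) * (v + 3 / 4) ^ 2)) / 2 := by
          gcongr
      _ = (Real.exp (-(c0 * s.re)) * Real.exp (Real.pi * |s.im|) / 2) * g v := by
          rw [hg]; ring
  -- the integral
  have hint := norm_integral_le_of_norm_le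
    (hgint.const_mul (Real.exp (-(c0 * s.re)) * Real.exp (Real.pi * |s.im|) / 2))
    (Filter.Eventually.of_forall hpt)
  rw [integral_const_mul, ← hI0] at hint
  have hnorm : ‖lineR (3 / 2) s‖ = 1 := by
    have : lineR (3 / 2) s = -1 := by linear_combination -hform
    rw [this]; simp
  unfold lineR at hnorm
  rw [norm_mul, norm_neg] at hnorm
  have hI1 : ‖(1 : ℂ) + Complex.I‖ ≤ 2 := by
    calc ‖(1 : ℂ) + Complex.I‖ ≤ ‖(1 : ℂ)‖ + ‖Complex.I‖ := norm_add_le _ _
      _ = 2 := by simp; norm_num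
  have hE : Real.exp (-(c0 * s.re)) * Real.exp (Real.pi * |s.im|) ≤
      Real.exp (-(Real.log (1 + I0) + 1)) := by
    rw [← Real.exp_add]
    apply Real.exp_le_exp.2
    have h1 : Real.pi * |s.im| ≤ c0 * s.re / 2 := by
      have hCge : 2 * Real.pi / c0 ≤ C := by linarith
      have h2 : 2 * Real.pi / c0 * |s.im| ≤ s.re :=
        (mul_le_mul_of_nonneg_right hCge (abs_nonneg _)).trans hs2
      have h3 : c0 * (2 * Real.pi / c0 * |s.im|) ≤ c0 * s.re :=
        mul_le_mul_of_nonneg_left h2 hc0pos.le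
      have h4 : c0 * (2 * Real.pi / c0 * |s.im|) = 2 * (Real.pi * |s.im|) := by
        field_simp
      linarith
    have h5 : Real.log (1 + I0) + 1 ≤ c0 * s.re / 2 := by
      have hCge : 2 / c0 * (Real.log (1 + I0) + 1) ≤ s.re := by linarith
      have h3 := mul_le_mul_of_nonneg_left hCge hc0pos.le
      have h4 : c0 * (2 / c0 * (Real.log (1 + I0) + 1)) = 2 * (Real.log (1 + I0) + 1) := by
        field_simp
      linarith
    linarith
  have hE2 : Real.exp (-(Real.log (1 + I0) + 1)) * I0 < 1 := by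
    rw [neg_add, Real.exp_add, Real.exp_neg (Real.log (1 + I0)),
      Real.exp_log (by linarith)]
    have h1 : Real.exp (-1 : ℝ) < 1 := by
      rw [← Real.exp_zero]; exact Real.exp_lt_exp.2 (by norm_num)
    have h2 : (1 + I0)⁻¹ * I0 ≤ 1 := by
      rw [inv_mul_le_iff₀ (by linarith)]; linarith
    have h3 : 0 ≤ (1 + I0)⁻¹ * I0 := by positivity
    calc (1 + I0)⁻¹ * Real.exp (-1) * I0 = Real.exp (-1) * ((1 + I0)⁻¹ * I0) := by ring
      _ ≤ Real.exp (-1) * 1 := mul_le_mul_of_nonneg_left h2 (Real.exp_nonneg _)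
      _ < 1 := by linarith
  have hfin : ‖(1 : ℂ) + Complex.I‖ *
      ‖∫ t : ℝ, rInt s (((3 / 2 : ℝ) : ℂ) + (t : ℂ) * (1 + Complex.I))‖ < 1 := by
    calc ‖(1 : ℂ) + Complex.I‖ *
        ‖∫ t : ℝ, rInt s (((3 / 2 : ℝ) : ℂ) + (t : ℂ) * (1 + Complex.I))‖
        ≤ 2 * (Real.exp (-(c0 * s.re)) * Real.exp (Real.pi * |s.im|) / 2 * I0) :=
          mul_le_mul hI1 hint (norm_nonneg _) (by norm_num)
      _ = (Real.exp (-(c0 * s.re)) * Real.exp (Real.pi * |s.im|)) * I0 := by ring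
      _ ≤ Real.exp (-(Real.log (1 + I0) + 1)) * I0 := mul_le_mul_of_nonneg_right hE hI0n
      _ < 1 := hE2
  exact absurd hnorm hfin.ne

end Pool.Agent.RAux
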