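import Mathlib
import Pool.Agent.RAux.Defs
import Pool.Agent.RAux.RShift
import Pool.Agent.RAux.RBound
import Pool.Agent.RAux.REntire
import Pool.Agent.RAux.RGrowth
import Pool.Agent.RAux.RLeft
import Pool.Agent.RAux.RRight
import Pool.Agent.RAux.ZC
import Pool.Agent.PairCorr.JensenSum

/-!
Upper bound for the number of zeros.
-/

set_option autoImplicit false

open Complex MeasureTheory Filter Topology

namespace Pool.Agent.RAux

/-- The zeros with `0 < im ≤ T` lie in a box of size `C T`. -/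
theorem rcount_box : ∃ C : ℝ, 1 ≤ C ∧ ∀ (T : ℝ) (ρ : ℂ), 1 ≤ T → auxR ρ = 0 → 0 < ρ.im →
    ρ.im ≤ T → |ρ.re| ≤ C * T := by
  obtain ⟨C, hC, hl⟩ := auxR_left
  obtain ⟨C', hC', hr⟩ := auxR_right
  refine ⟨max C C', le_max_of_le_right hC', fun T ρ hT h0 him him' => ?_⟩
  have hm : 1 ≤ max C C' := le_max_of_le_right hC'
  have hmT : max C C' ≤ max C C' * T := le_mul_of_one_le_right (by linarith) hT
  rw [abs_le]
  constructor
  · by_contra hcon
    push Not at hcon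
    have h1 : C ≤ max C C' := le_max_left _ _
    have h2 : T ≤ max C C' * T := le_mul_of_one_le_left (by linarith) hm
    exact hl ρ (by linarith) him (by linarith) h0
  · by_contra hcon
    push Not at hcon
    have h1 : C' ≤ max C C' := le_max_right _ _
    refine hr ρ (by linarith) ?_ h0
    rw [abs_of_pos him]
    have : C' * ρ.im ≤ max C C' * T := by gcongr
    linarith

theorem rcount_sum (M : ℕ) (hM : 1 ≤ M) :
    ∑ n ∈ Finset.Icc 2 M, ((n : ℝ) ^ 3)⁻¹ ≤ 1 / 2 * (1 - 1 / (M : ℝ)) := by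
  induction M, hM using Nat.le_induction with
  | base => simp
  | succ M hM ih =>
    rw [Finset.sum_Icc_succ_top (by omega)]
    have hM' : (1 : ℝ) ≤ M := by exact_mod_cast hM
    have h1 : (((M + 1 : ℕ) : ℝ) ^ 3)⁻¹ ≤ 1 / 2 * (1 / (M : ℝ) - 1 / ((M + 1 : ℕ) : ℝ)) := by
      push_cast
      have h2 : 1 / 2 * (1 / (M : ℝ) - 1 / ((M : ℝ) + 1)) = (2 * ((M : ℝ) * (M + 1)))⁻¹ := by
        field_simp
        ring
      rw [h2]
      apply inv_anti₀ (by positivity)
      nlinarith [mul_nonneg (by linarith : (0 : ℝ) ≤ M) (by linarith : (0 : ℝ) ≤ M)]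
    linarith

theorem rcount_lower : ∃ T₀ : ℝ, ∀ T : ℝ, T₀ ≤ T → 1 / 4 ≤ ‖auxR (3 + (T : ℂ) * Complex.I)‖ := by
  obtain ⟨C, hC, hb⟩ := lineR_bound 3 (by norm_num)
  refine ⟨2 * Real.pi * (4 * C + 2) ^ 2, fun T hT => ?_⟩
  have hpi := Real.pi_pos
  have hT0 : 0 ≤ T := le_trans (by positivity) hT
  set x : ℝ := Real.sqrt (T / (2 * Real.pi)) with hx
  have hx0 : 0 ≤ x := Real.sqrt_nonneg _
  have hx2 : x ^ 2 = T / (2 * Real.pi) := Real.sq_sqrt (by positivity)
  have hxC : 4 * C + 2 ≤ x := by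
    rw [hx]
    apply Real.le_sqrt_of_sq_le
    rw [le_div_iff₀ (by positivity)]
    linarith
  set M : ℕ := ⌊x⌋₊ with hMdef
  have hM1 : (M : ℝ) ≤ x := Nat.floor_le hx0
  have hM2 : x < M + 1 := Nat.lt_floor_add_one x
  have hM3 : 4 * C + 1 ≤ (M : ℝ) := by linarith
  have hMge : 1 ≤ M := by
    have : (0 : ℝ) < M := by linarith
    have := (Nat.cast_pos (α := ℝ)).mp this
    omega
  have hTe : T = 2 * Real.pi * x ^ 2 := by rw [hx2]; field_simp
  set s : ℂ := 3 + (T : ℂ) * Complex.I with hs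
  have hsre : s.re = 3 := by simp [hs]
  have hsim : s.im = T := by simp [hs]
  have h1 : ‖lineR (M + 1 / 2) s‖ ≤ C * (M : ℝ) ^ (-s.re) := by
    apply hb M s hMge
    · rw [hsre]; norm_num
    · rw [hsim, hTe]; gcongr
    · rw [hsim, hTe]; gcongr
  have h2 : C * (M : ℝ) ^ (-s.re) ≤ 1 / 4 := by
    rw [hsre, Real.rpow_neg (by positivity)]
    have hM' : (0 : ℝ) < M := by linarith
    have h3 : (M : ℝ) ≤ (M : ℝ) ^ (3 : ℝ) := by
      have h1M : (1 : ℝ) ≤ M := by exact_mod_cast hMge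
      calc (M : ℝ) = (M : ℝ) ^ (1 : ℝ) := by rw [Real.rpow_one]
        _ ≤ (M : ℝ) ^ (3 : ℝ) := Real.rpow_le_rpow_of_exponent_le h1M (by norm_num)
    rw [← div_eq_mul_inv, div_le_iff₀ (by positivity)]
    linarith
  have h3 := auxR_eq_sum_add M s
  have hsplit : ∑ n ∈ Finset.Icc 1 M, (n : ℂ) ^ (-s) =
      1 + ∑ n ∈ Finset.Icc 2 M, (n : ℂ) ^ (-s) := by
    rw [← Finset.add_sum_Ioc_eq_sum_Icc hMge]
    congr 1
    simp
  have h4 : ‖∑ n ∈ Finset.Icc 2 M, (n : ℂ) ^ (-s)‖ ≤ 1 / 2 := by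
    calc ‖∑ n ∈ Finset.Icc 2 M, (n : ℂ) ^ (-s)‖ ≤ ∑ n ∈ Finset.Icc 2 M, ‖(n : ℂ) ^ (-s)‖ :=
          norm_sum_le _ _
      _ = ∑ n ∈ Finset.Icc 2 M, ((n : ℝ) ^ 3)⁻¹ := by
          refine Finset.sum_congr rfl fun n hn => ?_
          rw [Finset.mem_Icc] at hn
          rw [Complex.norm_natCast_cpow_of_pos (by omega)]
          rw [Complex.neg_re, hsre, Real.rpow_neg (by positivity)]
          norm_num
      _ ≤ 1 / 2 * (1 - 1 / (M : ℝ)) := rcount_sum M hMge
      _ ≤ 1 / 2 := by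
          have : 0 ≤ 1 / (M : ℝ) := by positivity
          linarith
  rw [h3, hsplit]
  have h5 : (1 : ℝ) = ‖(1 : ℂ)‖ := by simp
  have h6 : ‖(1 : ℂ)‖ ≤ ‖1 + ∑ n ∈ Finset.Icc 2 M, (n : ℂ) ^ (-s) + lineR (M + 1 / 2) s‖ +
      ‖∑ n ∈ Finset.Icc 2 M, (n : ℂ) ^ (-s)‖ + ‖lineR (M + 1 / 2) s‖ := by
    have : (1 : ℂ) = (1 + ∑ n ∈ Finset.Icc 2 M, (n : ℂ) ^ (-s) + lineR (M + 1 / 2) s) -
      (∑ n ∈ Finset.Icc 2 M, (n : ℂ) ^ (-s)) - lineR (M + 1 / 2) s := by ring
    calc ‖(1 : ℂ)‖ = ‖(1 + ∑ n ∈ Finset.Icc 2 M, (n : ℂ) ^ (-s) + lineR (M + 1 / 2) s) -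
      (∑ n ∈ Finset.Icc 2 M, (n : ℂ) ^ (-s)) - lineR (M + 1 / 2) s‖ := by rw [← this]
      _ ≤ ‖(1 + ∑ n ∈ Finset.Icc 2 M, (n : ℂ) ^ (-s) + lineR (M + 1 / 2) s) -
      (∑ n ∈ Finset.Icc 2 M, (n : ℂ) ^ (-s))‖ + ‖lineR (M + 1 / 2) s‖ := norm_sub_le _ _
      _ ≤ _ := by gcongr; exact norm_sub_le _ _
  rw [← h5] at h6
  linarith

theorem rcount_ne : ∃ z : ℂ, auxR z ≠ 0 := by
  obtain ⟨T₀, h⟩ := rcount_lower
  refine ⟨3 + (T₀ : ℂ) * Complex.I, fun h0 => ?_⟩
  have := h T₀ le_rfl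
  rw [h0] at this
  norm_num at this

/-- The zeros with `0 < im ≤ T` lie in a bounded set (zero free sectors). -/
theorem auxR_zeros_finite (T : ℝ) : {ρ : ℂ | auxR ρ = 0 ∧ 0 < ρ.im ∧ ρ.im ≤ T}.Finite := by
  obtain ⟨z, hz⟩ := rcount_ne
  obtain ⟨C, hC, hbox⟩ := rcount_box
  have hA : Bornology.IsBounded {ρ : ℂ | |ρ.re| ≤ C * max T 1 ∧ |ρ.im| ≤ max T 1} := by
    rw [isBounded_iff_forall_norm_le]
    refine ⟨C * max T 1 + max T 1, fun ρ hρ => ?_⟩
    have := Complex.norm_le_abs_re_add_abs_im ρ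
    have h1 := hρ.1
    have h2 := hρ.2
    linarith
  refine (zeros_finite auxR auxR_differentiable z hz _ hA).subset ?_
  rintro ρ ⟨h0, h1, h2⟩
  refine ⟨h0, hbox (max T 1) ρ (le_max_right _ _) h0 h1 (h2.trans (le_max_left _ _)), ?_⟩
  rw [abs_of_pos h1]
  exact h2.trans (le_max_left _ _)

/-- Jensen on a disc of radius `C T` around `3 + i T`. -/
theorem auxR_count : ∃ C T₀ : ℝ, 0 < C ∧ ∀ T : ℝ, T₀ ≤ T →
    zc auxR {ρ : ℂ | 0 < ρ.im ∧ ρ.im ≤ T} ≤ C * T * Real.log T := by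
  obtain ⟨T₁, hlow⟩ := rcount_lower
  obtain ⟨C₁, hC₁, hbox⟩ := rcount_box
  obtain ⟨G, hG, hgr⟩ := auxR_growth
  -- radius `r = (C₁ + 4) T`, `R = 2 r`
  set D : ℝ := C₁ + 4 with hD
  set E : ℝ := 2 * D + 5 with hE
  have hD5 : 5 ≤ D := by linarith
  refine ⟨(G * (2 * E * 2) + 2) / Real.log 2, max (max T₁ 3) (E + 1), ?_, fun T hT => ?_⟩
  · have := Real.log_pos (show (1 : ℝ) < 2 by norm_num)
    positivity
  have hT1 : T₁ ≤ T := le_trans (le_trans (le_max_left _ _) (le_max_left _ _)) hT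
  have hT3 : 3 ≤ T := le_trans (le_trans (le_max_right _ _) (le_max_left _ _)) hT
  have hTE : E + 1 ≤ T := le_trans (le_max_right _ _) hT
  set c : ℂ := 3 + (T : ℂ) * Complex.I with hc
  have hfc : 1 / 4 ≤ ‖auxR c‖ := hlow T hT1
  have hfc0 : auxR c ≠ 0 := by
    intro h0; rw [h0] at hfc; norm_num at hfc
  have hr : 0 < D * T := by positivity
  have hrR : D * T < 2 * (D * T) := by linarith
  have hfin := auxR_zeros_finite T
  have hfin' : {ρ : ℂ | auxR ρ = 0 ∧ ρ ∈ {ρ : ℂ | 0 < ρ.im ∧ ρ.im ≤ T}}.Finite := hfin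
  rw [zc_eq_sum _ _ hfin']
  have han : AnalyticOnNhd ℂ auxR Set.univ := fun z _ =>
    (auxR_differentiable.analyticAt z)
  have hJ := PairCorr.jensen_sum_le (f := auxR) (c := c) hr hrR
    (han.mono (Set.subset_univ _)) hfc0 hfin'.toFinset (by
      intro ρ hρ
      rw [Set.Finite.mem_toFinset] at hρ
      obtain ⟨h0, h1, h2⟩ := hρ
      have h3 := hbox T ρ (by linarith) h0 h1 h2
      have h4 := Complex.norm_le_abs_re_add_abs_im (ρ - c)
      have h5 : (ρ - c).re = ρ.re - 3 := by simp [hc]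
      have h6 : (ρ - c).im = ρ.im - T := by simp [hc]
      rw [h5, h6] at h4
      have h7 : |ρ.re - 3| ≤ |ρ.re| + 3 := by
        have := abs_sub ρ.re 3
        rwa [show |(3 : ℝ)| = 3 by norm_num] at this
      have h8 : |ρ.im - T| ≤ T := by
        rw [abs_le]; constructor <;> linarith
      rw [hD]
      nlinarith)
  have hlog2 : Real.log (2 * (D * T) / (D * T)) = Real.log 2 := by
    congr 1
    field_simp
  rw [hlog2] at hJ
  have hlog2pos := Real.log_pos (show (1 : ℝ) < 2 by norm_num)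
  have hcirc : Real.circleAverage (fun z => Real.log ‖auxR z‖) c (2 * (D * T)) ≤
      G * (2 * E * 2) * (T * Real.log T) := by
    apply Real.circleAverage_mono_on_of_le_circle
    · apply MeromorphicOn.circleIntegrable_log_norm
      intro z _
      exact (han z (Set.mem_univ z)).meromorphicAt
    · intro x hx
      have hxn : ‖x‖ ≤ E * T := by
        rw [mem_sphere_iff_norm, abs_of_pos (by positivity)] at hx
        have h1 : ‖x‖ ≤ ‖x - c‖ + ‖c‖ := by
          calc ‖x‖ = ‖(x - c) + c‖ := by ring_nf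
            _ ≤ _ := norm_add_le _ _
        have h2 : ‖c‖ ≤ 3 + T := by
          calc ‖c‖ ≤ ‖(3 : ℂ)‖ + ‖(T : ℂ) * Complex.I‖ := norm_add_le _ _
            _ = 3 + T := by
              rw [norm_mul, Complex.norm_I, mul_one, Complex.norm_real, Real.norm_eq_abs,
                abs_of_pos (by linarith)]
              norm_num
        rw [hE]
        nlinarith
      have hlogT : 0 < Real.log T := Real.log_pos (by linarith)
      by_cases hx0 : auxR x = 0
      · rw [hx0]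
        simp only [norm_zero, Real.log_zero]
        positivity
      · have h1 : Real.log ‖auxR x‖ ≤ G * (1 + ‖x‖) * Real.log (2 + ‖x‖) := by
          rw [Real.log_le_iff_le_exp (norm_pos_iff.mpr hx0)]
          exact hgr x
        have h2 : 1 + ‖x‖ ≤ 2 * E * T := by
          have : 1 ≤ E * T := by nlinarith
          linarith
        have h3 : Real.log (2 + ‖x‖) ≤ 2 * Real.log T := by
          have h4 : 2 + ‖x‖ ≤ T ^ 2 := by
            nlinarith
          calc Real.log (2 + ‖x‖) ≤ Real.log (T ^ 2) := Real.log_le_log (by positivity) h4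
            _ = 2 * Real.log T := by rw [Real.log_pow]; norm_num
        calc Real.log ‖auxR x‖ ≤ G * (1 + ‖x‖) * Real.log (2 + ‖x‖) := h1
          _ ≤ G * (2 * E * T) * (2 * Real.log T) := by
              have : 0 ≤ Real.log (2 + ‖x‖) := Real.log_nonneg (by linarith [norm_nonneg x])
              gcongr
          _ = _ := by ring
  have hlogc : -Real.log ‖auxR c‖ ≤ 2 * (T * Real.log T) := by
    have h1 : Real.log (1 / 4) ≤ Real.log ‖auxR c‖ := Real.log_le_log (by norm_num) hfc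
    have h2 : Real.log (1 / 4) = - (2 * Real.log 2) := by
      rw [Real.log_div (by norm_num) (by norm_num), Real.log_one,
        show (4 : ℝ) = 2 ^ 2 by norm_num, Real.log_pow]
      push_cast
      ring
    have h3 : Real.log 2 ≤ Real.log T := Real.log_le_log (by norm_num) (by linarith)
    have h4 : Real.log T ≤ T * Real.log T := by
      apply le_mul_of_one_le_left _ (by linarith)
      exact Real.log_nonneg (by linarith)
    linarith
  have hfinal : (∑ ρ ∈ hfin'.toFinset, ((analyticOrderAt auxR ρ).toNat : ℝ)) * Real.log 2 ≤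
      (G * (2 * E * 2) + 2) * (T * Real.log T) := by
    calc _ ≤ Real.circleAverage (fun z => Real.log ‖auxR z‖) c (2 * (D * T)) -
        Real.log ‖auxR c‖ := hJ
      _ ≤ _ := by linarith
  rw [← le_div_iff₀ hlog2pos] at hfinal
  calc _ ≤ _ := hfinal
    _ = _ := by ring

end Pool.Agent.RAux
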