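import Mathlib
import Pool.Agent.RAux.Defs
import Pool.Agent.RAux.BlockBad
import Pool.Agent.RAux.RCount
import Pool.Agent.RAux.BadMeasure
import Pool.Agent.RAux.GoodAux

/-!
Assembly.
-/

set_option autoImplicit false

open Complex MeasureTheory Filter Topology

namespace Pool.Agent.RAux

lemma measurableSet_badOne (b T : ℝ) : MeasurableSet (badOne b T) := by
  unfold badOne
  rw [Set.setOf_and]
  refine measurableSet_Icc.inter ?_
  apply measurableSet_lt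
  · have : Continuous (fun t : ℝ => 3 / 2 * Real.exp (3 / 4 * b) *
          ‖auxR ((1 / 2 : ℂ) + ((b / Real.log T : ℝ) : ℂ) + (t : ℂ) * Complex.I)‖) :=
      continuous_const.mul (continuous_auxR_line_bl _).norm
    exact this.measurable
  · have : Continuous (fun t : ℝ =>
          ‖auxR ((1 / 2 : ℂ) - ((b / Real.log T : ℝ) : ℂ) + (t : ℂ) * Complex.I)‖) :=
      (auxR_differentiable.continuous.comp (by fun_prop)).norm
    exact this.measurable

lemma measurableSet_badT (a : ℝ) (K' : ℕ) (T : ℝ) : MeasurableSet (badT a K' T) := by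
  unfold badT
  exact Finset.measurableSet_biUnion _ (fun i _ => measurableSet_badOne _ _)

/-- Adding up blocks. -/
lemma sum_blocks (S : Set ℝ) (hS : MeasurableSet S) (p : ℝ) (hp : 0 < p) (x : ℕ → ℝ) (m : ℕ)
    (hx : ∀ k < m, x k ≤ x (k + 1))
    (h : ∀ k < m, ENNReal.ofReal (p * (x (k + 1) - x k)) ≤ volume (S ∩ Set.Icc (x k) (x (k + 1)))) :
    x 0 ≤ x m ∧ ENNReal.ofReal (p * (x m - x 0)) ≤ volume (S ∩ Set.Ico (x 0) (x m)) := by
  induction m with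
  | zero => simp
  | succ m ih =>
    obtain ⟨ih1, ih2⟩ := ih (fun k hk => hx k (by omega)) (fun k hk => h k (by omega))
    have hxm := hx m (by omega)
    refine ⟨ih1.trans hxm, ?_⟩
    have hun : S ∩ Set.Ico (x 0) (x (m + 1)) =
        (S ∩ Set.Ico (x 0) (x m)) ∪ (S ∩ Set.Ico (x m) (x (m + 1))) := by
      rw [← Set.inter_union_distrib_left, Set.Ico_union_Ico_eq_Ico ih1 hxm]
    have hdis : Disjoint (S ∩ Set.Ico (x 0) (x m)) (S ∩ Set.Ico (x m) (x (m + 1))) := by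
      rw [Set.disjoint_left]
      intro t ht ht'
      exact absurd ht.2.2 (not_lt.mpr ht'.2.1)
    rw [hun, measure_union hdis (hS.inter measurableSet_Ico)]
    have hico : volume (S ∩ Set.Ico (x m) (x (m + 1))) = volume (S ∩ Set.Icc (x m) (x (m + 1))) := by
      apply measure_congr
      exact (ae_eq_refl S).inter Ico_ae_eq_Icc
    rw [hico]
    have hsplit : ENNReal.ofReal (p * (x (m + 1) - x 0)) =
        ENNReal.ofReal (p * (x m - x 0)) + ENNReal.ofReal (p * (x (m + 1) - x m)) := by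
      rw [← ENNReal.ofReal_add]
      · congr 1; ring
      · exact mul_nonneg hp.le (by linarith)
      · exact mul_nonneg hp.le (by linarith)
    rw [hsplit]
    exact add_le_add ih2 (h m (by omega))

/-- Size conditions for the partition of `[T, 2T]`. -/
lemma partition_sizes (ε : ℝ) (hε : 0 < ε) (hε1 : ε < 1) (N₁ : ℕ) :
    ∃ T₀ : ℝ, ∀ T : ℝ, T₀ ≤ T → 0 < T ∧ 1 < Real.log T ∧ ∃ N J m : ℕ, N₁ ≤ N ∧ 1 ≤ N ∧ 1 ≤ J ∧
      T ≤ 2 * Real.pi * (N : ℝ) ^ 2 ∧ (J : ℝ) ≤ (N : ℝ) ^ (1 - ε / 2) ∧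
      (∀ k : ℕ, k < m → ((N : ℝ) + k * J) ^ (1 - ε / 2) / 4 ≤ J) ∧
      2 * Real.pi * ((N : ℝ) + m * J) ^ 2 ≤ 2 * T ∧
      T / 2 ≤ 2 * Real.pi * ((N : ℝ) + m * J) ^ 2 - 2 * Real.pi * (N : ℝ) ^ 2 := by
  have hev : ∀ᶠ x : ℝ in atTop, (N₁ : ℝ) ≤ x ∧ 16 ≤ x ∧ 2 ≤ x ^ (1 - ε / 2) ∧
      x ^ (1 - ε / 2) ≤ x / 24 := by
    have h1 : Tendsto (fun x : ℝ => x ^ (1 - ε / 2)) atTop atTop :=
      tendsto_rpow_atTop (by linarith)
    have h2 : Tendsto (fun x : ℝ => x ^ (-(ε / 2))) atTop (𝓝 0) :=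
      tendsto_rpow_neg_atTop (by linarith)
    filter_upwards [eventually_ge_atTop (N₁ : ℝ), eventually_ge_atTop 16,
      h1.eventually_ge_atTop 2, h2.eventually_le_const (by norm_num : (0 : ℝ) < 1 / 24)]
      with x a1 a2 a3 a4
    refine ⟨a1, a2, a3, ?_⟩
    have hx0 : 0 < x := by linarith
    calc x ^ (1 - ε / 2) = x ^ (1 : ℝ) * x ^ (-(ε / 2)) := by
          rw [← Real.rpow_add hx0]; congr 1
      _ ≤ x ^ (1 : ℝ) * (1 / 24) := mul_le_mul_of_nonneg_left a4 (by positivity)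
      _ = x / 24 := by rw [Real.rpow_one]; ring
  obtain ⟨x₀, hx₀⟩ := eventually_atTop.mp hev
  have hpi := Real.pi_pos
  have hpi3 := Real.pi_gt_three
  refine ⟨2 * Real.pi * (max x₀ 16) ^ 2, fun T hT => ?_⟩
  set x : ℝ := Real.sqrt (T / (2 * Real.pi)) with hx
  have hmax16 : (16 : ℝ) ≤ max x₀ 16 := le_max_right _ _
  have hT0 : 0 < T := lt_of_lt_of_le (by positivity) hT
  have hxT : T = 2 * Real.pi * x ^ 2 := by
    rw [hx, Real.sq_sqrt (by positivity)]; field_simp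
  have hxge : max x₀ 16 ≤ x := by
    rw [hx]
    apply Real.le_sqrt_of_sq_le
    rw [le_div_iff₀ (by positivity)]
    linarith
  obtain ⟨h1, h2, h3, h4⟩ := hx₀ x ((le_max_left _ _).trans hxge)
  have hx0 : 0 < x := by linarith
  set s : ℝ := 1 - ε / 2 with hs
  have hs0 : 0 < s := by rw [hs]; linarith
  have hs1 : s < 1 := by rw [hs]; linarith
  set N : ℕ := ⌈x⌉₊ with hN
  have hNx : x ≤ N := Nat.le_ceil x
  have hNx1 : (N : ℝ) < x + 1 := Nat.ceil_lt_add_one hx0.le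
  have hNr : (0 : ℝ) < N := by linarith
  have hNs2 : 2 ≤ (N : ℝ) ^ s := h3.trans (Real.rpow_le_rpow hx0.le hNx hs0.le)
  set J : ℕ := ⌊(N : ℝ) ^ s⌋₊ with hJ
  have hJle : (J : ℝ) ≤ (N : ℝ) ^ s := Nat.floor_le (by positivity)
  have hJgt : (N : ℝ) ^ s < J + 1 := Nat.lt_floor_add_one _
  have hJhalf : (N : ℝ) ^ s / 2 ≤ J := by linarith
  have hJr : (0 : ℝ) < J := by linarith
  have hJ1 : 1 ≤ J := by exact_mod_cast hJr
  have h2s : ∀ z : ℝ, 0 ≤ z → (2 * z) ^ s ≤ 2 * z ^ s := by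
    intro z hz
    rw [Real.mul_rpow (by norm_num) hz]
    apply mul_le_mul_of_nonneg_right _ (by positivity)
    calc (2 : ℝ) ^ s ≤ 2 ^ (1 : ℝ) := Real.rpow_le_rpow_of_exponent_le (by norm_num) hs1.le
      _ = 2 := Real.rpow_one _
  have hJx : (J : ℝ) ≤ x / 12 := by
    calc (J : ℝ) ≤ (N : ℝ) ^ s := hJle
      _ ≤ (2 * x) ^ s := Real.rpow_le_rpow hNr.le (by linarith) hs0.le
      _ ≤ 2 * x ^ s := h2s x hx0.le
      _ ≤ 2 * (x / 24) := by linarith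
      _ = x / 12 := by ring
  set y : ℝ := Real.sqrt 2 * x with hy
  have hsq2 : Real.sqrt 2 ^ 2 = 2 := Real.sq_sqrt (by norm_num)
  have hsq2l : 1.4 ≤ Real.sqrt 2 := by
    apply Real.le_sqrt_of_sq_le; norm_num
  have hsq2u : Real.sqrt 2 ≤ 1.5 := by
    rw [Real.sqrt_le_left (by norm_num)]; norm_num
  have hyN : (N : ℝ) ≤ y := by
    rw [hy]; nlinarith
  have hy2 : y ^ 2 = 2 * x ^ 2 := by rw [hy, mul_pow, hsq2]
  have hyx : y ≤ 1.5 * x := by rw [hy]; nlinarith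
  set m : ℕ := ⌊(y - N) / J⌋₊ with hm
  have hm1 : (m : ℝ) ≤ (y - N) / J := Nat.floor_le (div_nonneg (by linarith) hJr.le)
  have hm2 : (y - N) / J < m + 1 := Nat.lt_floor_add_one _
  have hmJ : (N : ℝ) + m * J ≤ y := by
    rw [le_div_iff₀ hJr] at hm1; linarith
  have hmJ2 : y - J ≤ (N : ℝ) + m * J := by
    rw [div_lt_iff₀ hJr] at hm2; linarith
  refine ⟨hT0, ?_, N, J, m, ?_, ?_, hJ1, ?_, hJle, ?_, ?_, ?_⟩
  · rw [Real.lt_log_iff_exp_lt hT0]
    have he : Real.exp 1 < 3 := by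
      have := Real.exp_one_lt_d9
      linarith
    rw [hxT]
    nlinarith
  · exact_mod_cast h1.trans hNx
  · exact_mod_cast (by linarith : (1 : ℝ) ≤ N)
  · rw [hxT]
    gcongr
  · intro k hk
    have hkm : (k : ℝ) ≤ m := by exact_mod_cast hk.le
    have hle : (N : ℝ) + k * J ≤ 2 * N := by
      have : (k : ℝ) * J ≤ m * J := by gcongr
      nlinarith
    have : ((N : ℝ) + k * J) ^ s ≤ 2 * (N : ℝ) ^ s :=
      (Real.rpow_le_rpow (by positivity) hle hs0.le).trans (h2s N hNr.le)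
    linarith
  · rw [hxT]
    have : ((N : ℝ) + m * J) ^ 2 ≤ y ^ 2 := pow_le_pow_left₀ (by positivity) hmJ 2
    rw [hy2] at this
    nlinarith
  · rw [hxT]
    have hyJ : 0 ≤ y - J := by rw [hy]; nlinarith
    have e1 : (y - J) ^ 2 ≤ ((N : ℝ) + m * J) ^ 2 := pow_le_pow_left₀ hyJ hmJ2 2
    have e2 : (N : ℝ) ^ 2 ≤ (x + 1) ^ 2 := pow_le_pow_left₀ hNr.le hNx1.le 2
    have e3 : y * J ≤ 1.5 * x * (x / 12) := mul_le_mul hyx hJx hJr.le (by positivity)
    have e4 : x ^ 2 / 2 ≤ ((N : ℝ) + m * J) ^ 2 - (N : ℝ) ^ 2 := by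
      have : (y - J) ^ 2 = 2 * x ^ 2 - 2 * (y * J) + (J : ℝ) ^ 2 := by
        rw [sub_sq, hy2]; ring
      have hJ2 : 0 ≤ (J : ℝ) ^ 2 := by positivity
      nlinarith
    calc 2 * Real.pi * x ^ 2 / 2 = 2 * Real.pi * (x ^ 2 / 2) := by ring
      _ ≤ 2 * Real.pi * (((N : ℝ) + m * J) ^ 2 - (N : ℝ) ^ 2) := by gcongr
      _ = _ := by ring

/-- A positive proportion of the zeros lies to the right of the critical line. -/
theorem many_right : ∃ c T₀ : ℝ, 0 < c ∧ ∀ T : ℝ, T₀ ≤ T →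
    c * T * Real.log T ≤
      zc auxR {ρ : ℂ | 1 / 2 < ρ.re ∧ ρ.re ≤ 3 ∧ T / 2 ≤ ρ.im ∧ ρ.im ≤ 3 * T + 1} := by
  obtain ⟨a, K', ε, p, ha, hε, hε1, hp, N₁, hblock⟩ := block_bad
  have hbm : ∀ i : ℕ, ∃ C T₀ : ℝ, 0 < C ∧ (1 ≤ i → ∀ T : ℝ, T₀ ≤ T →
      volume (badOne (i * a) T) ≤ ENNReal.ofReal (C / Real.log T *
        zc auxR {ρ : ℂ | 1 / 2 < ρ.re ∧ ρ.re ≤ 3 ∧ T / 2 ≤ ρ.im ∧ ρ.im ≤ 3 * T + 1})) := by
    intro i
    rcases Nat.eq_zero_or_pos i with h0 | h0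
    · exact ⟨1, 0, one_pos, fun h => by omega⟩
    · have : (0 : ℝ) < i * a := by positivity
      obtain ⟨C, T₀, hC, h⟩ := bad_measure auxR auxR_good (i * a) this
      exact ⟨C, T₀, hC, fun _ => h⟩
  choose C T₁ hC hbm using hbm
  obtain ⟨T₂, hpart⟩ := partition_sizes ε hε hε1 N₁
  set Cs : ℝ := 1 + ∑ i ∈ Finset.Icc 1 K', C i with hCs
  have hCsum : 0 ≤ ∑ i ∈ Finset.Icc 1 K', C i := Finset.sum_nonneg (fun i _ => (hC i).le)
  have hCs0 : 0 < Cs := by linarith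
  have hT₁ : ∃ T₃ : ℝ, ∀ i ∈ Finset.Icc 1 K', T₁ i ≤ T₃ := by
    refine ⟨∑ i ∈ Finset.Icc 1 K', |T₁ i|, fun i hi => ?_⟩
    exact (le_abs_self _).trans (Finset.single_le_sum (f := fun i => |T₁ i|)
      (fun j _ => abs_nonneg _) hi)
  obtain ⟨T₃, hT₃⟩ := hT₁
  refine ⟨p / (2 * Cs), max T₂ T₃, by positivity, fun T hT => ?_⟩
  have hTT₂ : T₂ ≤ T := (le_max_left _ _).trans hT
  have hTT₃ : T₃ ≤ T := (le_max_right _ _).trans hT
  obtain ⟨hT0, hlog, N, J, m, hN₁, hN1, hJ1, hTN, hJN, hJ4, hm2T, hhalf⟩ := hpart T hTT₂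
  set Z := zc auxR {ρ : ℂ | 1 / 2 < ρ.re ∧ ρ.re ≤ 3 ∧ T / 2 ≤ ρ.im ∧ ρ.im ≤ 3 * T + 1} with hZ
  have hZ0 : 0 ≤ Z := zc_nonneg _ _
  have hlog0 : 0 < Real.log T := by linarith
  have hNr : (0 : ℝ) < N := by exact_mod_cast hN1
  have hJr : (0 : ℝ) < J := by exact_mod_cast hJ1
  have hpi := Real.pi_pos
  -- lower bound
  have hlow : ENNReal.ofReal (p * (T / 2)) ≤ volume (badT a K' T) := by
    set x : ℕ → ℝ := fun k => 2 * Real.pi * ((N : ℝ) + k * J) ^ 2 with hx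
    have hmono : ∀ k < m, x k ≤ x (k + 1) := by
      intro k _
      simp only [hx]
      push_cast
      gcongr
      linarith
    have hb : ∀ k < m, ENNReal.ofReal (p * (x (k + 1) - x k)) ≤
        volume (badT a K' T ∩ Set.Icc (x k) (x (k + 1))) := by
      intro k hk
      have h1 : (((N + k * J : ℕ)) : ℝ) = (N : ℝ) + k * J := by push_cast; ring
      have h2 : x (k + 1) = 2 * Real.pi * ((((N + k * J : ℕ)) : ℝ) + J) ^ 2 := by
        simp only [hx]; push_cast; ring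
      have h3 : x k = 2 * Real.pi * (((N + k * J : ℕ)) : ℝ) ^ 2 := by
        simp only [hx]; push_cast; ring
      rw [h2, h3]
      have hkJ : (0 : ℝ) ≤ k * J := by positivity
      apply hblock (N + k * J) (hN₁.trans (Nat.le_add_right _ _)) J
      · rw [h1]; exact hJ4 k hk
      · rw [h1]
        refine hJN.trans ?_
        apply Real.rpow_le_rpow hNr.le (by linarith) (by linarith)
      · rw [h1]
        refine hTN.trans ?_
        gcongr
        linarith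
      · rw [h1]
        refine le_trans ?_ hm2T
        have hk1 : (k : ℝ) + 1 ≤ m := by exact_mod_cast hk
        have : (N : ℝ) + k * J + J ≤ N + m * J := by nlinarith
        gcongr
    have hs := (sum_blocks (badT a K' T) (measurableSet_badT a K' T) p hp x m hmono hb).2
    refine le_trans ?_ (hs.trans (measure_mono Set.inter_subset_left))
    apply ENNReal.ofReal_le_ofReal
    apply mul_le_mul_of_nonneg_left _ hp.le
    simp only [hx]
    simpa using hhalf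
  -- upper bound
  have hupp : volume (badT a K' T) ≤ ENNReal.ofReal (Cs / Real.log T * Z) := by
    unfold badT
    refine (measure_biUnion_finset_le _ _).trans ?_
    calc ∑ i ∈ Finset.Icc 1 K', volume (badOne (i * a) T)
        ≤ ∑ i ∈ Finset.Icc 1 K', ENNReal.ofReal (C i / Real.log T * Z) := by
          apply Finset.sum_le_sum
          intro i hi
          exact hbm i (Finset.mem_Icc.mp hi).1 T ((hT₃ i hi).trans hTT₃)
      _ = ENNReal.ofReal (∑ i ∈ Finset.Icc 1 K', C i / Real.log T * Z) := by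
          rw [ENNReal.ofReal_sum_of_nonneg]
          intro i _
          have := (hC i).le
          positivity
      _ ≤ ENNReal.ofReal (Cs / Real.log T * Z) := by
          apply ENNReal.ofReal_le_ofReal
          rw [← Finset.sum_mul, ← Finset.sum_div]
          gcongr
          linarith
  have h := hlow.trans hupp
  rw [ENNReal.ofReal_le_ofReal_iff (by positivity)] at h
  have h2 : p * (T / 2) * Real.log T ≤ Cs * Z := by
    calc p * (T / 2) * Real.log T ≤ Cs / Real.log T * Z * Real.log T := by gcongr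
      _ = Cs * Z := by field_simp
  calc p / (2 * Cs) * T * Real.log T = (p * (T / 2) * Real.log T) / Cs := by field_simp
    _ ≤ Z := by rw [div_le_iff₀ hCs0]; linarith

lemma zc_add_le (f : ℂ → ℂ) (A B C : Set ℂ) (hBA : B ⊆ A) (hCA : C ⊆ A) (hBC : Disjoint B C)
    (h : {ρ : ℂ | f ρ = 0 ∧ ρ ∈ A}.Finite) : zc f B + zc f C ≤ zc f A := by
  have hB : {ρ : ℂ | f ρ = 0 ∧ ρ ∈ B}.Finite := h.subset (fun ρ hρ => ⟨hρ.1, hBA hρ.2⟩)
  have hC : {ρ : ℂ | f ρ = 0 ∧ ρ ∈ C}.Finite := h.subset (fun ρ hρ => ⟨hρ.1, hCA hρ.2⟩)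
  rw [zc_eq_sum f A h, zc_eq_sum f B hB, zc_eq_sum f C hC, ← Finset.sum_union]
  · apply Finset.sum_le_sum_of_subset_of_nonneg
    · intro ρ hρ
      simp only [Finset.mem_union, Set.Finite.mem_toFinset, Set.mem_setOf_eq] at hρ ⊢
      rcases hρ with h1 | h1
      · exact ⟨h1.1, hBA h1.2⟩
      · exact ⟨h1.1, hCA h1.2⟩
    · intro i _ _
      positivity
  · rw [Finset.disjoint_left]
    intro ρ h1 h2
    simp only [Set.Finite.mem_toFinset, Set.mem_setOf_eq] at h1 h2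
    exact Set.disjoint_left.mp hBC h1.2 h2.2

/-- Zeros strictly to the right of the critical line, up to height `T`. -/
theorem right_lower : ∃ c T₀ : ℝ, 0 < c ∧ ∀ T : ℝ, T₀ ≤ T →
    c * T * Real.log T ≤ zc auxR {ρ : ℂ | 0 < ρ.im ∧ ρ.im ≤ T ∧ 1 / 2 < ρ.re} := by
  obtain ⟨c, T₀, hc, h⟩ := many_right
  refine ⟨c / 8, max 16 (4 * |T₀|), by positivity, fun T hT => ?_⟩
  have hT16 : 16 ≤ T := (le_max_left _ _).trans hT
  have hTT₀ : 4 * |T₀| ≤ T := (le_max_right _ _).trans hT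
  set T' : ℝ := (T - 1) / 3 with hT'
  have hT'4 : T / 4 ≤ T' := by rw [hT']; linarith
  have hT'0 : T₀ ≤ T' := by linarith [le_abs_self T₀]
  have hfin : {ρ : ℂ | auxR ρ = 0 ∧ ρ ∈ {ρ : ℂ | 0 < ρ.im ∧ ρ.im ≤ T ∧ 1 / 2 < ρ.re}}.Finite :=
    (auxR_zeros_finite T).subset (fun ρ hρ => ⟨hρ.1, hρ.2.1, hρ.2.2.1⟩)
  have hmono := zc_mono auxR {ρ : ℂ | 1 / 2 < ρ.re ∧ ρ.re ≤ 3 ∧ T' / 2 ≤ ρ.im ∧ ρ.im ≤ 3 * T' + 1}
    {ρ : ℂ | 0 < ρ.im ∧ ρ.im ≤ T ∧ 1 / 2 < ρ.re} (by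
      intro ρ hρ
      obtain ⟨h1, h2, h3, h4⟩ := hρ
      refine ⟨by linarith, ?_, h1⟩
      have : 3 * T' + 1 = T := by rw [hT']; ring
      linarith) hfin
  refine le_trans ?_ ((h T' hT'0).trans hmono)
  have hlogT : Real.log T / 2 ≤ Real.log T' := by
    have h1 : Real.log (T / 4) ≤ Real.log T' := Real.log_le_log (by linarith) hT'4
    rw [Real.log_div (by linarith) (by norm_num)] at h1
    have h2 : Real.log 16 ≤ Real.log T := Real.log_le_log (by norm_num) hT16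
    have h3 : Real.log 16 = 2 * Real.log 4 := by
      rw [show (16 : ℝ) = 4 ^ 2 by norm_num, Real.log_pow]; norm_num
    linarith
  have hl0 : 0 ≤ Real.log T := Real.log_nonneg (by linarith)
  have hcT' : 0 ≤ c * T' := mul_nonneg hc.le (by linarith)
  calc c / 8 * T * Real.log T = c * (T / 4) * (Real.log T / 2) := by ring
    _ ≤ c * T' * (Real.log T / 2) := by gcongr
    _ ≤ c * T' * Real.log T' := mul_le_mul_of_nonneg_left hlogT hcT'

theorem main_bound : ∃ c : ℝ, c < 1 ∧ ∀ᶠ T : ℝ in atTop,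
    zc auxR {ρ : ℂ | 0 < ρ.im ∧ ρ.im ≤ T ∧ ρ.re < 1 / 2} /
      zc auxR {ρ : ℂ | 0 < ρ.im ∧ ρ.im ≤ T} ≤ c := by
  obtain ⟨c, T₀, hc, h⟩ := right_lower
  obtain ⟨C, T₁, hC, hcount⟩ := auxR_count
  refine ⟨1 - c / C, by have := div_pos hc hC; linarith, ?_⟩
  filter_upwards [eventually_ge_atTop T₀, eventually_ge_atTop T₁, eventually_gt_atTop 1]
    with T h0 h1 h2
  have hfin : {ρ : ℂ | auxR ρ = 0 ∧ ρ ∈ {ρ : ℂ | 0 < ρ.im ∧ ρ.im ≤ T}}.Finite :=
    (auxR_zeros_finite T).subset (fun ρ hρ => ⟨hρ.1, hρ.2.1, hρ.2.2⟩)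
  have hadd := zc_add_le auxR {ρ : ℂ | 0 < ρ.im ∧ ρ.im ≤ T}
    {ρ : ℂ | 0 < ρ.im ∧ ρ.im ≤ T ∧ ρ.re < 1 / 2} {ρ : ℂ | 0 < ρ.im ∧ ρ.im ≤ T ∧ 1 / 2 < ρ.re}
    (fun ρ hρ => ⟨hρ.1, hρ.2.1⟩) (fun ρ hρ => ⟨hρ.1, hρ.2.1⟩)
    (by
      rw [Set.disjoint_left]
      intro ρ h1 h2
      exact absurd h1.2.2 (not_lt.mpr h2.2.2.le)) hfin
  have hr := h T h0
  have hct := hcount T h1
  have hlog : 0 < Real.log T := Real.log_pos h2
  have hT0 : 0 < T := by linarith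
  have hpos : 0 < c * T * Real.log T := by positivity
  set ZA := zc auxR {ρ : ℂ | 0 < ρ.im ∧ ρ.im ≤ T}
  set ZL := zc auxR {ρ : ℂ | 0 < ρ.im ∧ ρ.im ≤ T ∧ ρ.re < 1 / 2}
  set ZR := zc auxR {ρ : ℂ | 0 < ρ.im ∧ ρ.im ≤ T ∧ 1 / 2 < ρ.re}
  have hL0 : 0 ≤ ZL := zc_nonneg _ _
  have hApos : 0 < ZA := by linarith
  rw [div_le_iff₀ hApos]
  have h3 : c / C * ZA ≤ c * T * Real.log T := by
    calc c / C * ZA ≤ c / C * (C * T * Real.log T) := by gcongr
      _ = c * T * Real.log T := by field_simp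
  linarith

end Pool.Agent.RAux
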